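import Pool.Agent.Helper84.DM.Defs

/-!
# DM-AgrB: agreement of points on a set of letters

`Agr.val`: induction on `e` (in the case `fo e` use the second part of `Agr`, `ls (fo e) = ls e`).

`isClosed_Agr`: an intersection of closed sets (the coordinates are continuous).

`nbhd_letters`: `U J` is a product of two products; a basic neighbourhood of `y` in `V` restricts finitely
many letter coordinates `j ∈ S₁` and finitely many fold coordinates `e ∈ T`; take
`S = S₁ ∪ ⋃_{e ∈ T} ls e` (`ls e` is finite) and `V'` the basic open set.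
-/

open Set Topology TopologicalSpace

namespace Pool.DM

variable {J : Type}

theorem ls_finite (e : Ex J) : (ls e).Finite := by
  induction e with
  | lt j => exact Set.finite_singleton j
  | fo e ih => exact ih
  | cn q => exact Set.finite_empty
  | ad a b ha hb => exact ha.union hb
  | sm q a ha => exact ha
  | mx a b ha hb => exact ha.union hb

theorem Agr.refl (S : Set J) (y : U J) : Agr S y y :=
  ⟨fun _ _ => rfl, fun _ _ => rfl⟩

theorem Agr.symm {S : Set J} {y z : U J} (h : Agr S y z) : Agr S z y :=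
  ⟨fun i hi => (h.1 i hi).symm, fun e he => (h.2 e he).symm⟩

theorem Agr.trans {S : Set J} {y z w : U J} (h : Agr S y z) (h' : Agr S z w) : Agr S y w :=
  ⟨fun i hi => (h.1 i hi).trans (h'.1 i hi), fun e he => (h.2 e he).trans (h'.2 e he)⟩

theorem Agr.mono {S T : Set J} (hST : S ⊆ T) {y z : U J} (h : Agr T y z) : Agr S y z :=
  ⟨fun i hi => h.1 i (hST hi), fun e he => h.2 e (he.trans hST)⟩

theorem Agr.val {S : Set J} {y z : U J} (h : Agr S y z) {e : Ex J} (he : ls e ⊆ S) :
    val e y = val e z := by
  induction e with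
  | lt j => exact congrArg Subtype.val (h.1 j (he rfl))
  | fo e _ => exact congrArg Subtype.val (h.2 e he)
  | cn q => rfl
  | ad a b ha hb =>
    have h1 := ha (Set.subset_union_left.trans he)
    have h2 := hb (Set.subset_union_right.trans he)
    simp only [Pool.DM.val, h1, h2]
  | sm q a ha =>
    have h1 := ha he
    simp only [Pool.DM.val, h1]
  | mx a b ha hb =>
    have h1 := ha (Set.subset_union_left.trans he)
    have h2 := hb (Set.subset_union_right.trans he)
    simp only [Pool.DM.val, h1, h2]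

theorem isClosed_Agr (S : Set J) : IsClosed {p : U J × U J | Agr S p.1 p.2} := by
  have h : {p : U J × U J | Agr S p.1 p.2} =
      (⋂ i ∈ S, {p : U J × U J | p.1.1 i = p.2.1 i}) ∩
        ⋂ e ∈ {e : Ex J | ls e ⊆ S}, {p : U J × U J | p.1.2 e = p.2.2 e} := by
    ext p
    simp only [Agr, mem_setOf_eq, mem_inter_iff, mem_iInter]
  rw [h]
  refine IsClosed.inter (isClosed_biInter fun i _ => ?_) (isClosed_biInter fun e _ => ?_)
  · exact isClosed_eq
      ((continuous_apply i).comp (continuous_fst.comp continuous_fst))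
      ((continuous_apply i).comp (continuous_fst.comp continuous_snd))
  · exact isClosed_eq
      ((continuous_apply e).comp (continuous_snd.comp continuous_fst))
      ((continuous_apply e).comp (continuous_snd.comp continuous_snd))

theorem nbhd_letters {V : Set (U J)} (hV : IsOpen V) {y : U J} (hy : y ∈ V) :
    ∃ (S : Set J) (V' : Set (U J)), S.Finite ∧ IsOpen V' ∧ y ∈ V' ∧ V' ⊆ V ∧
      ∀ z ∈ V', ∀ z', Agr S z z' → z' ∈ V' := by
  classical
  obtain ⟨u, v, hu, hv, hyu, hyv, huv⟩ := isOpen_prod_iff.mp hV y.1 y.2 hy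
  obtain ⟨I, w, hw, hwu⟩ := isOpen_pi_iff.mp hu y.1 hyu
  obtain ⟨T, w', hw', hwv⟩ := isOpen_pi_iff.mp hv y.2 hyv
  refine ⟨(I : Set J) ∪ ⋃ e ∈ T, ls e, (((I : Set J).pi w) ×ˢ ((T : Set (Ex J)).pi w')), ?_, ?_, ?_,
    ?_, ?_⟩
  · exact (Finset.finite_toSet I).union
      ((Finset.finite_toSet T).biUnion fun e _ => ls_finite e)
  · exact (isOpen_set_pi (Finset.finite_toSet I) fun i hi => (hw i hi).1).prod
      (isOpen_set_pi (Finset.finite_toSet T) fun e he => (hw' e he).1)
  · exact ⟨fun i hi => (hw i hi).2, fun e he => (hw' e he).2⟩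
  · exact (Set.prod_mono hwu hwv).trans huv
  · rintro z ⟨hz1, hz2⟩ z' hzz
    refine ⟨fun i hi => ?_, fun e he => ?_⟩
    · rw [← hzz.1 i (Or.inl hi)]
      exact hz1 i hi
    · have hle : ls e ⊆ (I : Set J) ∪ ⋃ e ∈ T, ls e := by
        intro j hj
        exact Or.inr (Set.mem_biUnion (Finset.mem_coe.mp he) hj)
      rw [← hzz.2 e hle]
      exact hz2 e he

end Pool.DM
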