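import Pool.Agent.Helper84.DM.AgrB

/-!
# DM-Basic: elementary facts on terms, values, the fold relation, truncation and sheets

All by induction on terms, by cases, or by unfolding the definitions (`zer`, `tr`, `sht`, `upd` are
given by `if`).

`R_unique`: if `1 < |s|` only one sheet is allowed. `R_sht`: for `ε = 1` the sheet `u = s + 2`, `-1 ≤ s`; for
`ε = -1` the sheet `u = s - 2`, `s ≤ 1`; the value is in `[-5,5]` because `s ∈ [-3,3]`.
-/

open Set Topology TopologicalSpace

namespace Pool.DM

variable {J : Type}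

/-- `val e` depends only on the letters and on the fold coordinates of `fs e`. -/
theorem val_congr {e : Ex J} {y z : U J} (h1 : y.1 = z.1) (h2 : ∀ e' ∈ fs e, y.2 e' = z.2 e') :
    val e y = val e z := by
  induction e with
  | lt j => exact congrArg (fun f : J → I01 => (f j : ℝ)) h1
  | fo e _ => exact congrArg Subtype.val (h2 e rfl)
  | cn q => rfl
  | ad a b ha hb =>
    have e1 := ha (fun e' he' => h2 e' (Or.inl he'))
    have e2 := hb (fun e' he' => h2 e' (Or.inr he'))
    simp only [val, e1, e2]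
  | sm q a ha =>
    have e1 := ha h2
    simp only [val, e1]
  | mx a b ha hb =>
    have e1 := ha (fun e' he' => h2 e' (Or.inl he'))
    have e2 := hb (fun e' he' => h2 e' (Or.inr he'))
    simp only [val, e1, e2]

theorem sz_lt_of_mem_fs {e e' : Ex J} (h : e' ∈ fs e) : e'.sz < e.sz := by
  induction e with
  | lt j => exact absurd h (Set.notMem_empty _)
  | fo e _ =>
    have h' : e' = e := h
    subst h'
    simp only [Ex.sz]
    omega
  | cn q => exact absurd h (Set.notMem_empty _)
  | ad a b ha hb =>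
    simp only [Ex.sz]
    rcases h with h | h
    · have := ha h
      omega
    · have := hb h
      omega
  | sm q a ha => exact ha h
  | mx a b ha hb =>
    simp only [Ex.sz]
    rcases h with h | h
    · have := ha h
      omega
    · have := hb h
      omega

theorem notMem_fs_self (e : Ex J) : e ∉ fs e := by
  intro h
  exact lt_irrefl _ (sz_lt_of_mem_fs h)

theorem fs_finite (e : Ex J) : (fs e).Finite := by
  induction e with
  | lt j => exact Set.finite_empty
  | fo e _ => exact Set.finite_singleton e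
  | cn q => exact Set.finite_empty
  | ad a b ha hb => exact ha.union hb
  | sm q a ha => exact ha
  | mx a b ha hb => exact ha.union hb

theorem ls_subset_of_mem_fs {e e' : Ex J} (h : e' ∈ fs e) : ls e' ⊆ ls e := by
  induction e with
  | lt j => exact absurd h (Set.notMem_empty _)
  | fo e _ =>
    have h' : e' = e := h
    subst h'
    exact subset_refl _
  | cn q => exact absurd h (Set.notMem_empty _)
  | ad a b ha hb =>
    rcases h with h | h
    · exact (ha h).trans Set.subset_union_left
    · exact (hb h).trans Set.subset_union_right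
  | sm q a ha => exact ha h
  | mx a b ha hb =>
    rcases h with h | h
    · exact (ha h).trans Set.subset_union_left
    · exact (hb h).trans Set.subset_union_right

theorem clip_mem (t : ℝ) : -3 ≤ clip t ∧ clip t ≤ 3 := by
  unfold clip
  exact ⟨le_max_left _ _, max_le (by norm_num) (min_le_left _ _)⟩

theorem clip_of_abs_le {t : ℝ} (h : |t| ≤ 3) : clip t = t := by
  have h' := abs_le.mp h
  unfold clip
  rw [min_eq_right h'.2, max_eq_right h'.1]

theorem one_lt_abs_clip_iff {t : ℝ} : 1 < |clip t| ↔ 1 < |t| := by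
  unfold clip
  rw [lt_abs, lt_abs, lt_max_iff, lt_min_iff]
  constructor
  · rintro ((h | h) | h)
    · norm_num at h
    · exact Or.inl h.2
    · right
      have h1 : max (-3) (min 3 t) < -1 := by linarith
      have h2 := (max_lt_iff.mp h1).2
      rcases min_lt_iff.mp h2 with h3 | h3
      · norm_num at h3
      · linarith
  · rintro (h | h)
    · exact Or.inl (Or.inr ⟨by norm_num, h⟩)
    · right
      have h1 : max (-3) (min 3 t) < -1 :=
        max_lt (by norm_num) (lt_of_le_of_lt (min_le_right _ _) (by linarith))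
      linarith

theorem clip_le_one_iff {t : ℝ} : clip t ≤ 1 ↔ t ≤ 1 := by
  unfold clip
  rw [max_le_iff, min_le_iff]
  constructor
  · rintro ⟨_, h | h⟩
    · norm_num at h
    · exact h
  · intro h
    exact ⟨by norm_num, Or.inr h⟩

theorem neg_one_le_clip_iff {t : ℝ} : -1 ≤ clip t ↔ -1 ≤ t := by
  unfold clip
  rw [le_max_iff, le_min_iff]
  constructor
  · rintro (h | h)
    · norm_num at h
    · exact h.2
  · intro h
    exact Or.inr ⟨by norm_num, h⟩

/-- Two solutions of the fold relation over `s` with `1 < |s|` are equal. -/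
theorem R_unique {s u v : ℝ} (hs : 1 < |s|) (hu : R s u) (hv : R s v) : u = v := by
  rcases lt_abs.mp hs with h | h
  · rcases hu with ⟨h1, _⟩ | ⟨_, h1, _⟩ | ⟨_, h1⟩
    · exact absurd h1 (not_le.mpr h)
    · exact absurd h1 (not_le.mpr h)
    · rcases hv with ⟨h2, _⟩ | ⟨_, h2, _⟩ | ⟨_, h2⟩
      · exact absurd h2 (not_le.mpr h)
      · exact absurd h2 (not_le.mpr h)
      · rw [h1, h2]
  · rcases hu with ⟨_, h1⟩ | ⟨h1, _, _⟩ | ⟨h1, _⟩
    · rcases hv with ⟨_, h2⟩ | ⟨h2, _, _⟩ | ⟨h2, _⟩
      · rw [h1, h2]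
      · linarith
      · linarith
    · linarith
    · linarith

theorem isClosed_R : IsClosed {p : ℝ × ℝ | R p.1 p.2} := by
  have h1 : IsClosed {p : ℝ × ℝ | p.1 ≤ 1 ∧ p.2 = p.1 - 2} :=
    (isClosed_le continuous_fst continuous_const).inter
      (isClosed_eq continuous_snd (continuous_fst.sub continuous_const))
  have h2 : IsClosed {p : ℝ × ℝ | -1 ≤ p.1 ∧ p.1 ≤ 1 ∧ p.2 = -p.1} :=
    (isClosed_le continuous_const continuous_fst).inter
      ((isClosed_le continuous_fst continuous_const).inter
        (isClosed_eq continuous_snd continuous_fst.neg))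
  have h3 : IsClosed {p : ℝ × ℝ | -1 ≤ p.1 ∧ p.2 = p.1 + 2} :=
    (isClosed_le continuous_const continuous_fst).inter
      (isClosed_eq continuous_snd (continuous_fst.add continuous_const))
  exact h1.union (h2.union h3)

theorem R_bound {s u : ℝ} (hs : -3 ≤ s ∧ s ≤ 3) (h : R s u) : -5 ≤ u ∧ u ≤ 5 := by
  rcases h with ⟨h1, h2⟩ | ⟨h1, h2, h3⟩ | ⟨h1, h2⟩
  · constructor <;> linarith [hs.1, hs.2]
  · constructor <;> linarith [hs.1, hs.2]
  · constructor <;> linarith [hs.1, hs.2]

theorem coe_p5 {t : ℝ} (h : -5 ≤ t ∧ t ≤ 5) : (p5 t : ℝ) = t := by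
  unfold p5
  rw [Set.projIcc_of_mem _ (show t ∈ Set.Icc (-5 : ℝ) 5 from h)]

@[simp] theorem p5_coe (u : I5) : p5 (u : ℝ) = u := by
  unfold p5
  exact Set.projIcc_val _ u

theorem val_cl (e : Ex J) (y : U J) : val (cl e) y = clip (val e y) := by
  simp only [cl, val, clip]
  push_cast
  congr 1
  rcases le_total (val e y) 3 with h | h
  · rw [min_eq_right h, max_eq_right (by linarith)]
    ring
  · rw [min_eq_left h, max_eq_left (by linarith)]
    norm_num

theorem fs_cl (e : Ex J) : fs (cl e) = fs e := by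
  simp only [cl, fs, Set.empty_union]

theorem ls_cl (e : Ex J) : ls (cl e) = ls e := by
  simp only [cl, ls, Set.empty_union]

/-! ### `upd` -/

@[simp] theorem upd_fst (y : U J) (e : Ex J) (t : I5) : (upd y e t).1 = y.1 := by
  rfl

@[simp] theorem upd_same (y : U J) (e : Ex J) (t : I5) : (upd y e t).2 e = t := by
  classical
  exact Function.update_self e t y.2

theorem upd_ne (y : U J) {e e' : Ex J} (t : I5) (h : e' ≠ e) : (upd y e t).2 e' = y.2 e' := by
  classical
  exact Function.update_of_ne h t y.2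

theorem upd_self (y : U J) (e : Ex J) : upd y e (y.2 e) = y := by
  classical
  exact Prod.ext rfl (Function.update_eq_self e y.2)

theorem continuous_upd (e : Ex J) : Continuous (fun p : U J × I5 => upd p.1 e p.2) := by
  classical
  refine Continuous.prodMk (continuous_fst.comp continuous_fst) (continuous_pi fun e' => ?_)
  by_cases h : e' = e
  · subst h
    have h1 : (fun p : U J × I5 => (upd p.1 e' p.2).2 e') = fun p => p.2 := by
      funext p
      exact upd_same _ _ _
    have h2 : Continuous (fun p : U J × I5 => (upd p.1 e' p.2).2 e') := by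
      rw [h1]
      exact continuous_snd
    exact h2
  · have h1 : (fun p : U J × I5 => (upd p.1 e p.2).2 e') = fun p => p.1.2 e' := by
      funext p
      exact upd_ne _ _ h
    have h2 : Continuous (fun p : U J × I5 => (upd p.1 e p.2).2 e') := by
      rw [h1]
      exact (continuous_apply e').comp (continuous_snd.comp continuous_fst)
    exact h2

theorem val_upd {e e' : Ex J} (h : e ∉ fs e') (y : U J) (t : I5) :
    val e' (upd y e t) = val e' y := by
  refine val_congr rfl fun e'' he'' => upd_ne _ _ ?_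
  rintro rfl
  exact h he''

/-! ### `zer` and `tr` -/

@[simp] theorem zer_fst (O : Set (Ex J)) (y : U J) : (zer O y).1 = y.1 := by
  rfl

theorem zer_mem {O : Set (Ex J)} {e : Ex J} (h : e ∈ O) (y : U J) : (zer O y).2 e = p5 0 := by
  simp only [zer, h, if_true]

theorem zer_notMem {O : Set (Ex J)} {e : Ex J} (h : e ∉ O) (y : U J) :
    (zer O y).2 e = y.2 e := by
  simp only [zer, h, if_false]

theorem zer_zer (O O' : Set (Ex J)) (y : U J) : zer O (zer O' y) = zer (O ∪ O') y := by
  refine Prod.ext rfl (funext fun e => ?_)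
  by_cases h : e ∈ O
  · rw [zer_mem h, zer_mem (Or.inl h)]
  · rw [zer_notMem h]
    by_cases h' : e ∈ O'
    · rw [zer_mem h', zer_mem (Or.inr h')]
    · rw [zer_notMem h', zer_notMem (by rintro (h1 | h1) <;> contradiction)]

theorem zer_empty (y : U J) : zer ∅ y = y := by
  exact Prod.ext rfl (funext fun e => zer_notMem (Set.notMem_empty e) y)

theorem val_zer {O : Set (Ex J)} {e : Ex J} (h : ∀ e' ∈ fs e, e' ∉ O) (y : U J) :
    val e (zer O y) = val e y := by
  exact val_congr rfl fun e' he' => zer_notMem (h e' he') y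

theorem zer_upd {e : Ex J} (y : U J) (t : I5) (h : y.2 e = p5 0) : zer {e} (upd y e t) = y := by
  refine Prod.ext rfl (funext fun e' => ?_)
  by_cases h' : e' = e
  · subst h'
    rw [zer_mem (Set.mem_singleton e'), h]
  · rw [zer_notMem (show e' ∉ ({e} : Set (Ex J)) from h'), upd_ne _ _ h']

theorem upd_zer (e : Ex J) (y : U J) : upd (zer {e} y) e (y.2 e) = y := by
  refine Prod.ext rfl (funext fun e' => ?_)
  by_cases h' : e' = e
  · subst h'
    rw [upd_same]
  · rw [upd_ne _ _ h', zer_notMem (show e' ∉ ({e} : Set (Ex J)) from h')]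

@[simp] theorem tr_fst (A : Set (Ex J)) (y : U J) : (tr A y).1 = y.1 := by
  rfl

theorem tr_mem {A : Set (Ex J)} {e : Ex J} (h : e ∈ A) (y : U J) : (tr A y).2 e = y.2 e := by
  simp only [tr, h, if_true]

theorem tr_notMem {A : Set (Ex J)} {e : Ex J} (h : e ∉ A) (y : U J) :
    (tr A y).2 e = p5 0 := by
  simp only [tr, h, if_false]

theorem tr_tr {A B : Set (Ex J)} (h : A ⊆ B) (y : U J) : tr A (tr B y) = tr A y := by
  refine Prod.ext rfl (funext fun e => ?_)
  by_cases h' : e ∈ A
  · rw [tr_mem h', tr_mem h', tr_mem (h h')]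
  · rw [tr_notMem h', tr_notMem h']

theorem tr_of_flat {A : Set (Ex J)} {y : U J} (h : ∀ e, e ∉ A → y.2 e = p5 0) : tr A y = y := by
  refine Prod.ext rfl (funext fun e => ?_)
  by_cases h' : e ∈ A
  · rw [tr_mem h']
  · rw [tr_notMem h', h e h']

theorem val_tr {A : Set (Ex J)} {e : Ex J} (h : fs e ⊆ A) (y : U J) :
    val e (tr A y) = val e y := by
  exact val_congr rfl fun e' he' => tr_mem (h he') y

/-- If `y` is flat over `A ∪ O`, then erasing `O` is the same as truncating to `A`. -/
theorem zer_eq_tr {A O : Set (Ex J)} (hd : ∀ e ∈ O, e ∉ A) {y : U J}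
    (h : ∀ e, e ∉ A ∪ O → y.2 e = p5 0) : zer O y = tr A y := by
  refine Prod.ext rfl (funext fun e => ?_)
  by_cases h1 : e ∈ O
  · rw [zer_mem h1, tr_notMem (hd e h1)]
  · rw [zer_notMem h1]
    by_cases h2 : e ∈ A
    · rw [tr_mem h2]
    · rw [tr_notMem h2, h e (by rintro (h3 | h3) <;> contradiction)]

/-! ### Sheets -/

@[simp] theorem sht_fst (ε : ℝ) (O : Set (Ex J)) (y : U J) : (sht ε O y).1 = y.1 := by
  rfl

theorem sht_mem {ε : ℝ} {O : Set (Ex J)} {e : Ex J} (h : e ∈ O) (y : U J) :
    (sht ε O y).2 e = p5 (sv e y + 2 * ε) := by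
  simp only [sht, h, if_true]

theorem sht_notMem {ε : ℝ} {O : Set (Ex J)} {e : Ex J} (h : e ∉ O) (y : U J) :
    (sht ε O y).2 e = y.2 e := by
  simp only [sht, h, if_false]

theorem val_sht {ε : ℝ} {O : Set (Ex J)} {e : Ex J} (h : ∀ e' ∈ fs e, e' ∉ O) (y : U J) :
    val e (sht ε O y) = val e y := by
  exact val_congr rfl fun e' he' => sht_notMem (h e' he') y

theorem zer_sht {ε : ℝ} {O : Set (Ex J)} {y : U J} (h : ∀ e ∈ O, y.2 e = p5 0) :
    zer O (sht ε O y) = y := by
  refine Prod.ext rfl (funext fun e => ?_)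
  by_cases h1 : e ∈ O
  · rw [zer_mem h1, h e h1]
  · rw [zer_notMem h1, sht_notMem h1]

theorem tr_sht {ε : ℝ} {A O : Set (Ex J)} (hd : ∀ e ∈ O, e ∉ A) {y : U J}
    (h : ∀ e, e ∉ A → y.2 e = p5 0) : tr A (sht ε O y) = y := by
  refine Prod.ext rfl (funext fun e => ?_)
  by_cases h1 : e ∈ A
  · rw [tr_mem h1, sht_notMem (fun h2 => hd e h2 h1)]
  · rw [tr_notMem h1, h e h1]

theorem sht_sht {ε : ℝ} {O : Set (Ex J)} {e : Ex J} (he : e ∉ O) (h : ∀ e' ∈ fs e, e' ∉ O)
    (y : U J) : sht ε {e} (sht ε O y) = sht ε (insert e O) y := by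
  refine Prod.ext rfl (funext fun e' => ?_)
  by_cases h1 : e' = e
  · subst h1
    rw [sht_mem (Set.mem_singleton e'), sht_mem (Set.mem_insert _ _)]
    unfold sv
    rw [val_sht h]
  · rw [sht_notMem (show e' ∉ ({e} : Set (Ex J)) from h1)]
    by_cases h2 : e' ∈ O
    · rw [sht_mem h2, sht_mem (Set.mem_insert_of_mem _ h2)]
    · rw [sht_notMem h2, sht_notMem (by rintro (h3 | h3) <;> contradiction)]

theorem R_sht {ε : ℝ} (hε : ε = 1 ∨ ε = -1) {e : Ex J} {y : U J} (h : -1 ≤ ε * val e y) :
    R (sv e y) (p5 (sv e y + 2 * ε) : ℝ) := by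
  have hb := clip_mem (val e y)
  rcases hε with rfl | rfl
  · have h1 : -1 ≤ val e y := by linarith
    have h2 : -1 ≤ sv e y := neg_one_le_clip_iff.mpr h1
    have h3 : sv e y ≤ 3 := hb.2
    rw [coe_p5 (by constructor <;> linarith)]
    exact Or.inr (Or.inr ⟨h2, by ring⟩)
  · have h1 : val e y ≤ 1 := by linarith
    have h2 : sv e y ≤ 1 := clip_le_one_iff.mpr h1
    have h3 : -3 ≤ sv e y := hb.1
    rw [coe_p5 (by constructor <;> linarith)]
    exact Or.inl ⟨h2, by ring⟩

/-! ### `FO` -/

theorem isClosed_FO {O : Set (Ex J)} {K : Set (U J)} (hK : IsClosed K) : IsClosed (FO O K) := by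
  have h1 : IsClosed {y : U J | zer O y ∈ K} := hK.preimage (continuous_zer O)
  have h2 : IsClosed {y : U J | ∀ e ∈ O, R (sv e y) (y.2 e)} := by
    have h3 : {y : U J | ∀ e ∈ O, R (sv e y) (y.2 e)} =
        ⋂ e ∈ O, {y : U J | R (sv e y) (y.2 e)} := by
      ext y
      simp only [Set.mem_ofPred_eq, Set.mem_iInter]
    rw [h3]
    refine isClosed_biInter fun e _ => ?_
    have h4 : Continuous (fun y : U J => ((sv e y, (y.2 e : ℝ)) : ℝ × ℝ)) :=
      (continuous_sv e).prodMk
        (continuous_subtype_val.comp ((continuous_apply e).comp continuous_snd))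
    exact isClosed_R.preimage h4
  exact h1.inter h2

theorem FO_mono {O : Set (Ex J)} {K K' : Set (U J)} (h : K ⊆ K') : FO O K ⊆ FO O K' := by
  exact fun y hy => ⟨h hy.1, hy.2⟩

end Pool.DM
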