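import Pool.Agent.Helper84.DM.UL

/-!
# DM-Betw: inserting an interpolated continuum in a family with threads

`PG_between`: apply `PG_sub` with `φ : Option Q → Q`, `φ none = a`, `φ (some q) = q` (the relation `insR Rel a c` is mapped into
`Rel` or equality: for `none, some q` with `q = c` or `Rel c q` we have `Rel a q` by transitivity and `Rel a c`), giving the
family `ex (z a) z`. Then `PG_UL` with `n = none`, `a = some a`, `c = some c`; the replaced member is
`z a ⊔ evE E (z a) (z c) = evE E (z a) (z c)` (`evE_low`), and `repl (ex x z) none x' = ex x' z`.
-/

open Set Topology TopologicalSpace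

namespace Pool.DM

variable {J : Type} {Q : Type}

/-- Add a member to a family. -/
def ex (x : H J) (z : Q → H J) : Option Q → H J := fun o => o.elim x z

theorem continuous_ex : Continuous (fun p : (Q → H J) × H J => ex p.2 p.1) := by
  refine continuous_pi fun o => ?_
  cases o with
  | none => exact continuous_snd
  | some q => exact (continuous_apply q).comp continuous_fst

theorem monotone_ex : Monotone (fun p : (Q → H J) × H J => ex p.2 p.1) := by
  intro p p' h o
  cases o with
  | none => exact h.2
  | some q => exact h.1 q

/-- The relation with a new element between `a` and `c`. -/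
def insR (Rel : Q → Q → Prop) (a c : Q) : Option Q → Option Q → Prop
  | some q, some q' => Rel q q'
  | some q, none => q = a ∨ Rel q a
  | none, some q => q = c ∨ Rel c q
  | none, none => False

theorem PG_between {F₀ : Set J} (hF₀ : F₀.Finite) {A : Set (Ex J)} (hA : Lev F₀ A)
    {𝓔 : Set (GPr (U J) → H J)} (h𝓔 : IsInt (Wm F₀ A) 𝓔) {Rel : Q → Q → Prop}
    (ht : ∀ p q s, Rel p q → Rel q s → Rel p s) {a c : Q} (hac : Rel a c) {r : ℕ} {F : Set J}
    (hF : F ⊆ F₀) {E : GPr (U J) → H J} (hE : E ∈ 𝓔) {z : Q → H J} (h : PG A Rel r F z) :
    PG A (insR Rel a c) r F (ex (evE E (z a) (z c)) z) := by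
  have h1 : PG A (insR Rel a c) r F (ex (z a) z) := by
    have h2 : PG A (insR Rel a c) r F (fun o : Option Q => z (o.elim a id)) := by
      refine PG_sub (fun o : Option Q => o.elim a id) ?_ h
      intro q q' hq
      cases q with
      | none =>
        cases q' with
        | none => exact hq.elim
        | some q' =>
          right
          rcases hq with hq | hq
          · show Rel a q'
            rw [hq]
            exact hac
          · exact ht a c q' hac hq
      | some q =>
        cases q' with
        | none => exact hq
        | some q' => exact Or.inr hq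
    have h3 : (fun o : Option Q => z (o.elim a id)) = ex (z a) z := by
      funext o
      cases o <;> rfl
    rw [h3] at h2
    exact h2
  have h4 := PG_UL hF₀ hA h𝓔 (Rel := insR Rel a c) (n := none) (a := some a) (c := some c)
    (by simp) (by simp) (Or.inl rfl) (Or.inl rfl) (fun q hq => by
      cases q with
      | none => exact hq.elim
      | some q =>
        rcases hq with hq | hq
        · exact Or.inl (congrArg some hq)
        · exact Or.inr hq) r F hF E hE (ex (z a) z) h1
  have h5 : repl (ex (z a) z) none (ex (z a) z none ⊔ evE E (ex (z a) z (some a))
      (ex (z a) z (some c))) = ex (evE E (z a) (z c)) z := by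
    funext o
    cases o with
    | none =>
      have h6 : z a ⊔ evE E (z a) (z c) = evE E (z a) (z c) :=
        sup_eq_right.2 (evE_low (h𝓔.op E hE) (z a) (z c))
      simp only [repl, ex, if_true]
      exact h6
    | some q =>
      simp [repl, ex]
  rw [h5] at h4
  exact h4

end Pool.DM
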