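import Pool.Agent.Helper84.DM.PGb

/-!
# DM-Box: the boxes at the empty level, and inactive terms

`BoxH s` is the box `{y | y.1 ≤ s, all fold coordinates zero}` (closed, nonempty, connected: a product of
intervals).

`PG1_box`: induction on `r` (all `F`, `s`), `s` constant on `F`. Depth 0: contained in `Yc ∅` (`Yc_empty`), connected, invariant: for `σ ∈ PF F`,
`(act σ y).1 j = y.1 (σ.symm j) ≤ s (σ.symm j) = s j`. Depth `r + 1`: for `i ∈ F` the map `t ↦ BoxH (s[i := t])`, `t ∈ [0, s i]`, is continuous and
monotone, so its image is a thread `S` from `b = BoxH (s[i := 0])` to `BoxH s` (for instance use `Thr.image` with the thread `{t | t ≤ s i}` in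
`I01`; the continuity of `t ↦ BoxH (s[i := t])`: it is the image of `BoxH (s[i := 1])` under the jointly continuous map
`(t, y) ↦ (y.1[i := min t (y.1 i)], y.2)`, `Continuous.nonemptyCompacts_map'`). `s[i := t]` is constant on `F \ {i}`. The section map at the level `∅` sets the
letter `i` to `0`.

`PG1_inact`: `Ext F A O`, no `e ∈ O` active, `PG1 A r F K` → `PG1 (A ∪ O) r F K`, induction on `r`. Depth 0: `Yc (A ∪ O) = Yc A` (`Yc_inact`). Depth `r + 1`:
the same thread; the rules `ρ'` equal to `ρ` outside `O` and `zero` on `O`: `sc i ρ' (A ∪ O) y = sc i ρ A y` for `y ∈ K ⊆ Yc A`: for `e ∈ A` by `sb_congr`; for `e ∈ O`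
the coordinate is `y.2 e = p5 0` if `i ∉ ls e` (`sc_off`, `Yc_flat`), and `p5 0` if `i ∈ ls e`.
-/

open Set Topology TopologicalSpace

namespace Pool.DM

variable {J : Type}

/-- The box of `s`. -/
noncomputable def BoxH (s : J → I01) : H J := clH {y | (∀ j, y.1 j ≤ s j) ∧ ∀ e, y.2 e = p5 0}

private theorem box_isClosed (s : J → I01) :
    IsClosed {y : U J | (∀ j, y.1 j ≤ s j) ∧ ∀ e, y.2 e = p5 0} := by
  have h1 : {y : U J | (∀ j, y.1 j ≤ s j) ∧ ∀ e, y.2 e = p5 0} =
      (⋂ j, {y : U J | y.1 j ≤ s j}) ∩ ⋂ e, {y : U J | y.2 e = p5 0} := by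
    ext y
    constructor
    · rintro ⟨h1, h2⟩
      exact ⟨mem_iInter.2 h1, mem_iInter.2 h2⟩
    · rintro ⟨h1, h2⟩
      exact ⟨fun j => mem_iInter.1 h1 j, fun e => mem_iInter.1 h2 e⟩
  rw [h1]
  refine IsClosed.inter (isClosed_iInter fun j => ?_) (isClosed_iInter fun e => ?_)
  · exact isClosed_le ((continuous_apply j).comp continuous_fst) continuous_const
  · exact isClosed_eq ((continuous_apply e).comp continuous_snd) continuous_const

theorem coe_BoxH (s : J → I01) :
    (BoxH s : Set (U J)) = {y | (∀ j, y.1 j ≤ s j) ∧ ∀ e, y.2 e = p5 0} :=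
  coe_clH ⟨(fun _ => 0, fun _ => p5 0), fun j => (s j).2.1, fun _ => rfl⟩ (box_isClosed s)

/-- The retraction onto the box. -/
private noncomputable def bmap (s x : J → I01) : U J := (fun j => min (x j) (s j), fun _ => p5 0)

private theorem bmap_cont (s : J → I01) : Continuous (bmap s) :=
  Continuous.prodMk (continuous_pi fun j => (continuous_apply j).min continuous_const)
    continuous_const

private theorem BoxH_eq (s : J → I01) :
    BoxH s = (⊤ : NonemptyCompacts (J → I01)).map (bmap s) (bmap_cont s) := by
  apply eq_of_coe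
  rw [coe_BoxH, NonemptyCompacts.coe_map, NonemptyCompacts.coe_top, image_univ]
  ext y
  constructor
  · rintro ⟨h1, h2⟩
    refine ⟨y.1, Prod.ext (funext fun j => min_eq_left (h1 j)) (funext fun e => (h2 e).symm)⟩
  · rintro ⟨x, rfl⟩
    exact ⟨fun j => min_le_right _ _, fun e => rfl⟩

private instance : PreconnectedSpace I01 := Subtype.preconnectedSpace isPreconnected_Icc

private theorem box_conn (s : J → I01) : IsConnected (BoxH s : Set (U J)) := by
  rw [BoxH_eq, NonemptyCompacts.coe_map, NonemptyCompacts.coe_top]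
  have : ConnectedSpace (J → I01) := { toNonempty := ⟨fun _ => 0⟩ }
  exact isConnected_univ.image _ (bmap_cont s).continuousOn

open Classical in
private theorem box_thr (s : J → I01) (i : J) :
    ∃ S : Set (H J), Thr S (BoxH (Function.update s i 0)) (BoxH s) ∧
      ∀ p ∈ S, ∃ t, p = BoxH (Function.update s i t) := by
  have h0 : Thr (univ : Set I01) 0 1 :=
    ⟨isClosed_univ, isPreconnected_univ, fun x _ y _ => le_total x y, mem_univ _, mem_univ _,
      fun x _ => x.2.1, fun x _ => x.2.2⟩
  have h1 := h0.restrict (mem_univ 0) (mem_univ (s i)) (s i).2.1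
  have hc : Continuous fun t : I01 => BoxH (Function.update s i t) := by
    have h2 : (fun t : I01 => BoxH (Function.update s i t)) = fun t =>
        (⊤ : NonemptyCompacts (J → I01)).map (bmap (Function.update s i t)) (bmap_cont _) :=
      funext fun t => BoxH_eq _
    rw [h2]
    refine Continuous.nonemptyCompacts_map' continuous_const ?_
    refine Continuous.prodMk (continuous_pi fun j => ?_) continuous_const
    by_cases hj : j = i
    · subst hj
      simp only [Function.update_self]
      exact ((continuous_apply j).comp continuous_snd).min continuous_fst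
    · simp only [Function.update_of_ne hj]
      exact ((continuous_apply j).comp continuous_snd).min continuous_const
  have hm : Monotone fun t : I01 => BoxH (Function.update s i t) := by
    intro t t' htt
    rw [le_iff_sub, coe_BoxH, coe_BoxH]
    rintro y ⟨h3, h4⟩
    refine ⟨fun j => ?_, h4⟩
    by_cases hj : j = i
    · subst hj
      have := h3 j
      rw [Function.update_self] at this ⊢
      exact this.trans htt
    · have := h3 j
      rw [Function.update_of_ne hj] at this ⊢
      exact this
  have h5 := h1.image hc hm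
  rw [Function.update_eq_self] at h5
  exact ⟨_, h5, by rintro _ ⟨t, -, rfl⟩; exact ⟨t, rfl⟩⟩

theorem PG1_box (r : ℕ) : ∀ (F : Set J) (s : J → I01), (∀ i ∈ F, ∀ j ∈ F, s i = s j) →
    PG1 ∅ r F (BoxH s) := by
  classical
  have h0 : ∀ (F : Set J) (s : J → I01), (∀ i ∈ F, ∀ j ∈ F, s i = s j) →
      PG1 ∅ 0 F (BoxH s) := by
    intro F s hs
    refine PG1_zero_iff.2 ⟨?_, box_conn s, ?_⟩
    · rw [coe_BoxH, Yc_empty]
      exact fun y hy => hy.2
    · intro σ hσ y hy
      have hy' : y ∈ (BoxH s : Set (U J)) := hy
      have hmem : act σ y ∈ (BoxH s : Set (U J)) := by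
        rw [coe_BoxH] at hy' ⊢
        refine ⟨fun j => ?_, fun e => ?_⟩
        · rw [act_fst]
          by_cases hj : j ∈ F
          · rw [hs j hj (σ.symm j) (PF_maps (PF_symm hσ) hj)]
            exact hy'.1 _
          · rw [PF_symm hσ j hj]
            exact hy'.1 _
        · rw [act_snd]
          exact hy'.2 _
      exact hmem
  induction r with
  | zero => exact h0
  | succ r ih =>
    intro F s hs
    refine PG1_succ.2 ⟨h0 F s hs, fun i hi => ?_⟩
    obtain ⟨S, hS, hS'⟩ := box_thr s i
    refine ⟨fun _ => Ru.zero, BoxH (Function.update s i 0), S, hS, ?_, ?_, ?_⟩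
    · intro y hy
      have hy' : y ∈ (BoxH (Function.update s i 0) : Set (U J)) := hy
      rw [coe_BoxH] at hy'
      have := hy'.1 i
      rw [Function.update_self] at this
      exact le_antisymm this (y.1 i).2.1
    · intro y hy
      have hy' : y ∈ (BoxH s : Set (U J)) := hy
      have hmem : sc i (fun _ => Ru.zero) ∅ y ∈ (BoxH (Function.update s i 0) : Set (U J)) := by
        rw [coe_BoxH] at hy' ⊢
        refine ⟨fun j => ?_, fun e => sc_notMem (notMem_empty e) y⟩
        by_cases hj : j = i
        · subst hj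
          rw [sc_fst_self, Function.update_self]
        · rw [sc_fst_ne hj, Function.update_of_ne hj]
          exact hy'.1 j
      exact hmem
    · intro p hp
      obtain ⟨t, rfl⟩ := hS' p hp
      refine ih _ _ fun j hj k hk => ?_
      rw [Function.update_of_ne hj.2, Function.update_of_ne hk.2]
      exact hs j hj.1 k hk.1

theorem PG1_inact {A O : Set (Ex J)} (hn : ∀ e ∈ O, ¬ Act e) (r : ℕ) :
    ∀ (F : Set J) (K : H J), Ext F A O → PG1 A r F K → PG1 (A ∪ O) r F K := by
  classical
  have h0 : ∀ (F : Set J) (K : H J), Ext F A O → PG1 A 0 F K → PG1 (A ∪ O) 0 F K := by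
    intro F K hE hK
    obtain ⟨h1, h2, h3⟩ := PG1_zero_iff.1 hK
    refine PG1_zero_iff.2 ⟨?_, h2, h3⟩
    rw [Yc_inact hE.lev.fin hE.lev.clo hE.fin hE.dis hE.fsA hn]
    exact h1
  induction r with
  | zero => exact h0
  | succ r ih =>
    intro F K hE hK
    have hK0 := PG1_to_zero hK
    obtain ⟨-, hK1⟩ := PG1_succ.1 hK
    refine PG1_succ.2 ⟨h0 F K hE hK0, fun i hi => ?_⟩
    obtain ⟨ρ, b, S, hS, hb, hz, hp⟩ := hK1 i hi
    refine ⟨fun e => if e ∈ O then Ru.zero else ρ e, b, S, hS, hb, ?_, fun p hpS =>
      ih _ p (hE.mono sdiff_subset) (hp p hpS)⟩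
    intro y hy
    have hyY : y ∈ Yc A := (PG1_zero_iff.1 hK0).1 hy
    have heq : sc i (fun e => if e ∈ O then Ru.zero else ρ e) (A ∪ O) y = sc i ρ A y := by
      refine Prod.ext (funext fun j => ?_) (funext fun e => ?_)
      · by_cases hj : j = i
        · subst hj
          rw [sc_fst_self, sc_fst_self]
        · rw [sc_fst_ne hj, sc_fst_ne hj]
      · by_cases heA : e ∈ A
        · rw [sc_mem (Or.inl heA), sc_mem heA]
          have h1 := (sb_congr (i := i) (ρ := fun e => if e ∈ O then Ru.zero else ρ e) (ρ' := ρ)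
            hE.lev.clo (fun e he => if_neg fun hO => hE.dis e hO he) e).2 heA
          rw [h1]
        · by_cases heO : e ∈ O
          · rw [sc_notMem heA]
            by_cases hie : i ∈ ls e
            · rw [sc_mem (Or.inr heO), sb_fo_mem hie, if_pos heO]
              show p5 (val (.cn 0) y) = p5 0
              simp [val]
            · rw [sc_off (Or.inr heO) hie]
              exact Yc_flat hyY heA
          · rw [sc_notMem heA, sc_notMem fun h => h.elim heA heO]
    rw [heq]
    exact hz y hy

end Pool.DM
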