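import Pool.Agent.Helper84.DM.LiftP
import Pool.Agent.Helper84.DM.Box

/-!
# DM-Canon: the canonical continua have threads of every depth

`PG1_Y`: strong induction on `A.ncard`. `(trH A (YH J) : Set) = Yc A` (`coe_trH`, `coe_YH`). If `A = ∅`: `Yc ∅ = BoxH 1` (`Yc_empty`, `coe_BoxH`,
`eq_of_coe`), `PG1_box`. Otherwise `Lev.remove`: `A = A' ∪ O`, `O = orb F e₀`, `Ext F A' O`, and `PG1 A' r F (trH A' (YH J))` by induction. If `e₀` is active, all
`e ∈ O` are active (`act_map_iff`) and touched by `Yc A'` (`nt_iff_act`), and `lift` gives `PG1 (A' ∪ O) r F (FlH O (trH A' (YH J)))`, with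
`FlH O (trH A' (YH J)) = trH A (YH J)` (`Yc_full`, `coe_FlH`, `Adm_Yc`). If `e₀` is not active, no `e ∈ O` is active, and `Yc (A' ∪ O) = Yc A'` (`Yc_inact`), so
`trH A (YH J) = trH A' (YH J)`, `PG1_inact`.
-/

open Set Topology TopologicalSpace

namespace Pool.DM

variable {J : Type}

private theorem canon_coe (A : Set (Ex J)) : (trH A (YH J) : Set (U J)) = Yc A := by
  rw [coe_trH, coe_YH]
  rfl

theorem PG1_Y {F : Set J} (hF : F.Finite) {A : Set (Ex J)} (hA : Lev F A) (r : ℕ) :
    PG1 A r F (trH A (YH J)) := by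
  obtain ⟨n, hn⟩ : ∃ n, A.ncard = n := ⟨_, rfl⟩
  induction n using Nat.strong_induction_on generalizing A with
  | _ n ih =>
    rcases A.eq_empty_or_nonempty with rfl | hne
    · have h1 : trH (∅ : Set (Ex J)) (YH J) = BoxH (fun _ => 1) := by
        apply eq_of_coe
        rw [canon_coe, Yc_empty, coe_BoxH]
        ext y
        constructor
        · intro h
          exact ⟨fun j => (y.1 j).2.2, h⟩
        · exact fun h => h.2
      rw [h1]
      exact PG1_box r F _ (fun _ _ _ _ => rfl)
    · obtain ⟨e₀, he₀, A', hAA, hcard, hx⟩ := Lev.remove hF hA hne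
      have h1 : PG1 A' r F (trH A' (YH J)) := ih _ (hn ▸ hcard) hx.lev rfl
      rw [hAA]
      by_cases ha : Act e₀
      · have ha' : ∀ e ∈ orb F e₀, Act e := by
          rintro _ ⟨σ, -, rfl⟩
          exact (act_map_iff σ e₀).2 ha
        have hnt : ∀ e ∈ orb F e₀, Nt (trH A' (YH J) : Set (U J)) e := by
          intro e he
          rw [canon_coe]
          exact (nt_iff_act (hx.fsA e he)).2 (ha' e he)
        have h2 := lift r F hF A' (orb F e₀) _ hx ha' hnt h1
        have hAdm : Adm A' (orb F e₀) (trH A' (YH J) : Set (U J)) := by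
          rw [canon_coe]
          exact Adm_Yc hx.lev.fin hx.lev.clo hx.fin hx.dis hx.fsA ha'
        have h3 : FlH (orb F e₀) (trH A' (YH J)) = trH (A' ∪ orb F e₀) (YH J) := by
          apply eq_of_coe
          rw [coe_FlH hAdm, canon_coe, canon_coe]
          exact (Yc_full hx.lev.fin hx.lev.clo hx.fin hx.dis hx.fsA ha').symm
        rwa [h3] at h2
      · have ha' : ∀ e ∈ orb F e₀, ¬ Act e := by
          rintro _ ⟨σ, -, rfl⟩ h
          exact ha ((act_map_iff σ e₀).1 h)
        have h3 : trH (A' ∪ orb F e₀) (YH J) = trH A' (YH J) := by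
          apply eq_of_coe
          rw [canon_coe, canon_coe]
          exact Yc_inact hx.lev.fin hx.lev.clo hx.fin hx.dis hx.fsA ha'
        rw [h3]
        exact PG1_inact ha' r F _ hx h1

end Pool.DM
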