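import Pool.Agent.Helper84.DM.Defs

/-!
# DM-Ch: chains in compact partially ordered spaces

`P` is compact with closed order. A nonempty chain `C` has a least upper bound, and it is in the closure
of `C`: the closed sets `{x ∈ closure C | c ≤ x}`, `c ∈ C`, are nonempty and form a chain, so by
compactness there is `u` in all of them; every upper bound `v` of `C` satisfies `x ≤ v` for all
`x ∈ closure C` (the set `{x | x ≤ v}` is closed), in particular `u ≤ v`. The dual statements are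
proved in the same way.

`chain_closure`: the closure of a chain is a chain: `{y | x ≤ y ∨ y ≤ x}` is closed for every `x`; use this twice.

`lub_image`: `f` continuous and monotone. `f u` is an upper bound. If `v` is an upper bound of `f '' C`
then `{p | f p ≤ v}` is closed and contains `C`, so it contains `u ∈ closure C`.
-/

open Set Topology TopologicalSpace

namespace Pool.DM

variable {P P' : Type*} [TopologicalSpace P] [PartialOrder P] [OrderClosedTopology P]
  [TopologicalSpace P'] [PartialOrder P'] [OrderClosedTopology P']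

theorem chain_closure {C : Set P} (hC : ∀ x ∈ C, ∀ y ∈ C, x ≤ y ∨ y ≤ x) :
    ∀ x ∈ closure C, ∀ y ∈ closure C, x ≤ y ∨ y ≤ x := by
  have h1 : ∀ x ∈ C, ∀ y ∈ closure C, x ≤ y ∨ y ≤ x := by
    intro x hx y hy
    have hcl : IsClosed (Ici x ∪ Iic x : Set P) := isClosed_Ici.union isClosed_Iic
    have hsub : C ⊆ Ici x ∪ Iic x := fun z hz => hC x hx z hz
    exact closure_minimal hsub hcl hy
  intro x hx y hy
  have hcl : IsClosed (Iic y ∪ Ici y : Set P) := isClosed_Iic.union isClosed_Ici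
  have hsub : C ⊆ Iic y ∪ Ici y := fun z hz => h1 z hz y hy
  exact closure_minimal hsub hcl hx

variable [CompactSpace P]

theorem exists_lub {C : Set P} (hC : ∀ x ∈ C, ∀ y ∈ C, x ≤ y ∨ y ≤ x) (hn : C.Nonempty) :
    ∃ u, IsLUB C u ∧ u ∈ closure C := by
  haveI : Nonempty ↥C := hn.to_subtype
  have hcl : ∀ c : ↥C, IsClosed (closure C ∩ Ici (c : P)) := fun c =>
    isClosed_closure.inter isClosed_Ici
  have hne : (⋂ c : ↥C, (closure C ∩ Ici (c : P))).Nonempty := by
    refine IsCompact.nonempty_iInter_of_directed_nonempty_isCompact_isClosed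
      (fun c : ↥C => closure C ∩ Ici (c : P)) ?_ ?_ (fun c => (hcl c).isCompact) hcl
    · intro a b
      rcases hC a a.2 b b.2 with h | h
      · exact ⟨b, fun z hz => ⟨hz.1, le_trans h hz.2⟩, fun z hz => hz⟩
      · exact ⟨a, fun z hz => hz, fun z hz => ⟨hz.1, le_trans h hz.2⟩⟩
    · intro c
      exact ⟨c, subset_closure c.2, le_refl (c : P)⟩
  obtain ⟨u, hu⟩ := hne
  rw [mem_iInter] at hu
  obtain ⟨c0, hc0⟩ := hn
  have huc : u ∈ closure C := (hu ⟨c0, hc0⟩).1
  refine ⟨u, ⟨fun c hc => (hu ⟨c, hc⟩).2, fun v hv => ?_⟩, huc⟩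
  have hsub : C ⊆ Iic v := fun z hz => hv hz
  exact closure_minimal hsub isClosed_Iic huc

theorem exists_glb {C : Set P} (hC : ∀ x ∈ C, ∀ y ∈ C, x ≤ y ∨ y ≤ x) (hn : C.Nonempty) :
    ∃ u, IsGLB C u ∧ u ∈ closure C := by
  haveI : Nonempty ↥C := hn.to_subtype
  have hcl : ∀ c : ↥C, IsClosed (closure C ∩ Iic (c : P)) := fun c =>
    isClosed_closure.inter isClosed_Iic
  have hne : (⋂ c : ↥C, (closure C ∩ Iic (c : P))).Nonempty := by
    refine IsCompact.nonempty_iInter_of_directed_nonempty_isCompact_isClosed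
      (fun c : ↥C => closure C ∩ Iic (c : P)) ?_ ?_ (fun c => (hcl c).isCompact) hcl
    · intro a b
      rcases hC a a.2 b b.2 with h | h
      · exact ⟨a, fun z hz => hz, fun z hz => ⟨hz.1, le_trans hz.2 h⟩⟩
      · exact ⟨b, fun z hz => ⟨hz.1, le_trans hz.2 h⟩, fun z hz => hz⟩
    · intro c
      exact ⟨c, subset_closure c.2, le_refl (c : P)⟩
  obtain ⟨u, hu⟩ := hne
  rw [mem_iInter] at hu
  obtain ⟨c0, hc0⟩ := hn
  have huc : u ∈ closure C := (hu ⟨c0, hc0⟩).1
  refine ⟨u, ⟨fun c hc => (hu ⟨c, hc⟩).2, fun v hv => ?_⟩, huc⟩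
  have hsub : C ⊆ Ici v := fun z hz => hv hz
  exact closure_minimal hsub isClosed_Ici huc

theorem lub_mem_closure {C : Set P} (hC : ∀ x ∈ C, ∀ y ∈ C, x ≤ y ∨ y ≤ x) (hn : C.Nonempty)
    {u : P} (h : IsLUB C u) : u ∈ closure C := by
  obtain ⟨v, hv, hvc⟩ := exists_lub hC hn
  rw [h.unique hv]
  exact hvc

theorem glb_mem_closure {C : Set P} (hC : ∀ x ∈ C, ∀ y ∈ C, x ≤ y ∨ y ≤ x) (hn : C.Nonempty)
    {u : P} (h : IsGLB C u) : u ∈ closure C := by
  obtain ⟨v, hv, hvc⟩ := exists_glb hC hn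
  rw [h.unique hv]
  exact hvc

theorem lub_image {C : Set P} (hC : ∀ x ∈ C, ∀ y ∈ C, x ≤ y ∨ y ≤ x) (hn : C.Nonempty)
    {u : P} (h : IsLUB C u) {f : P → P'} (hf : Continuous f) (hm : Monotone f) :
    IsLUB (f '' C) (f u) := by
  refine ⟨?_, fun v hv => ?_⟩
  · rintro _ ⟨c, hc, rfl⟩
    exact hm (h.1 hc)
  · have hcl : IsClosed {p : P | f p ≤ v} := isClosed_le hf continuous_const
    have hsub : C ⊆ {p : P | f p ≤ v} := fun z hz => hv ⟨z, hz, rfl⟩
    exact closure_minimal hsub hcl (lub_mem_closure hC hn h)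

theorem glb_image {C : Set P} (hC : ∀ x ∈ C, ∀ y ∈ C, x ≤ y ∨ y ≤ x) (hn : C.Nonempty)
    {u : P} (h : IsGLB C u) {f : P → P'} (hf : Continuous f) (hm : Monotone f) :
    IsGLB (f '' C) (f u) := by
  refine ⟨?_, fun v hv => ?_⟩
  · rintro _ ⟨c, hc, rfl⟩
    exact hm (h.1 hc)
  · have hcl : IsClosed {p : P | v ≤ f p} := isClosed_le continuous_const hf
    have hsub : C ⊆ {p : P | v ≤ f p} := fun z hz => hv ⟨z, hz, rfl⟩
    exact closure_minimal hsub hcl (glb_mem_closure hC hn h)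

end Pool.DM
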