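import Pool.Agent.Helper84.DM.Count
import Pool.Agent.Helper64.DN.Top

/-!
# DM-Comp: the full continuum over one term

`K` a continuum flat over `A`, `e ∉ A`, `fs e ⊆ A`, `y₀ ∈ FO {e} K` with `1 < |val e y₀|`, `C` the component
of `y₀` in `FO {e} K` (a closed set, `isClosed_FO`).

For a clopen `D` (i.e. `D ⊆ FO {e} K`, `D` and `FO {e} K \ D` closed; `H64DN.RC (FO {e} K) D`) with `y₀ ∈ D` the count is
`1` at `zer {e} y₀ ∈ K`: `1 < |sv e y₀|` (`one_lt_abs_clip_iff`), so only one sheet is allowed, and by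
`R_unique` its point is `y₀` itself (`upd_zer`). By `cnt_const` the count is `1` on all of `K`.

`fl1_lift`: for `z ∈ K` some point over `z` is in `C`. Otherwise each of the (at most three)
allowed points `p` over `z` is in `FO {e} K` and not in `C`, so by `H64DN.component_eq` there is a clopen
`D_p ∋ y₀` without `p`; the intersection `D` of these (`H64DN.rc_inter`) contains `y₀` and no point over `z`, so the count at
`z` is `0`, a contradiction.

`fl1_comp`: if also `z ∈ FO {e} K`, `1 < |val e z|` then the point over `zer {e} z` in `C` is `z` by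
`R_unique`; so `z ∈ C`. Hence every preconnected `T ⊆ FO {e} K` with `Nt T e` meets `C` and is contained in `C`, and `C` itself is such a
set: `Fl {e} K = C`.

`fl1_cpt`, `fl1_onto`: `C` is closed (`H64DN.component_closed`) and connected, flat over `insert e A`; `zer {e} '' C ⊆ K` by
definition, `⊇` by `fl1_lift` and `zer_upd`. (There is `y₀` : take a point `y ∈ K` with `1 < |val e y|` and its
only sheet.)

`fl1_sheet`: `Q ⊆ K` preconnected, `-1 ≤ ε * val e y` on `Q`, `r ∈ Q` with `1 ≤ ε * val e r`. The set `T = sht ε {e} '' Q` is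
preconnected and contained in `FO {e} K` (`zer_sht`, `R_sht`, `val_sht`). If `1 < ε * val e y` for some `y ∈ Q` then
`Nt T e` and `T ⊆ Fl {e} K` by definition. Otherwise `|val e| ≤ 1` on `Q` and `ε * val e r = 1`. Let `D ∋ y₀` be clopen;
on `Q` all three sheets are allowed, `sv e = val e`. Let `ε = 1`: `{y ∈ Q | upd y e (p5 (sv e y - 2)) ∈ D}` is
relatively clopen in `Q`, so it is `∅` or `Q` (the image of `Q` under the continuous map is a preconnected subset of `FO {e} K`,
`H64DN.rc_dichotomy`); the same for the other two sheets; at `r` the sheets 1 and 2 coincide (`1 - 2 = -1`), so the sheets 1 and 2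
over `Q` are both in `D` or both outside `D`, and the count `1` shows that sheet 3 is in `D`. By `H64DN.component_eq` it is in `C`.
`ε = -1` is the same with the sheets 2 and 3 joined over `r`, `val e r = -1`.
-/

open Set Topology TopologicalSpace

namespace Pool.DM

variable {J : Type}

theorem Comp_sv_upd {e : Ex J} (y : U J) (t : I5) : sv e (upd y e t) = sv e y := by
  unfold sv
  rw [val_upd (notMem_fs_self e)]

theorem Comp_val_zer (e : Ex J) (y : U J) : val e (zer {e} y) = val e y := by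
  apply val_zer
  intro e' he' h
  rw [Set.mem_singleton_iff] at h
  rw [h] at he'
  exact notMem_fs_self e he'

theorem Comp_sv_zer (e : Ex J) (y : U J) : sv e (zer {e} y) = sv e y := by
  unfold sv
  rw [Comp_val_zer]

theorem Comp_mem_FO {A : Set (Ex J)} {K : Set (U J)} (hK : Cpt A K) {e : Ex J} (he : e ∉ A)
    {z : U J} (hz : z ∈ K) {t : I5} (ht : R (sv e z) t) : upd z e t ∈ FO {e} K := by
  have h1 : zer {e} (upd z e t) = z := zer_upd z t (hK.flat z hz e he)
  refine ⟨by rw [h1]; exact hz, ?_⟩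
  intro e' he'
  rw [Set.mem_singleton_iff] at he'
  subst he'
  rw [Comp_sv_upd, upd_same]
  exact ht

theorem Comp_R_of_FO {K : Set (U J)} {e : Ex J} {y : U J} (h : y ∈ FO {e} K) :
    R (sv e y) (y.2 e) := h.2 e rfl

theorem Comp_bd (e : Ex J) (y : U J) : -3 ≤ sv e y ∧ sv e y ≤ 3 := clip_mem _

theorem Comp_cnt_one {A : Set (Ex J)} {K : Set (U J)} (hK : Cpt A K) {e : Ex J} (he : e ∉ A)
    (hf : fs e ⊆ A) {y₀ : U J} (h0 : y₀ ∈ FO {e} K) (h1 : 1 < |val e y₀|) {D : Set (U J)}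
    (hD : H64DN.RC (FO {e} K) D) (hyD : y₀ ∈ D) {z : U J} (hz : z ∈ K) : cnt D e z = 1 := by
  rw [cnt_const hK he hf hD.1 hD.2.1 hD.2.2 hz h0.1]
  have h2 : 1 < |sv e y₀| := one_lt_abs_clip_iff.2 h1
  have h3 := Comp_R_of_FO h0
  have h4 := upd_zer e y₀
  unfold cnt
  rw [Comp_sv_zer]
  rcases lt_abs.1 h2 with h5 | h5
  · have h6 : (y₀.2 e : ℝ) = sv e y₀ + 2 := by
      rcases h3 with h3 | h3 | h3
      · linarith [h3.1]
      · linarith [h3.2.1]
      · exact h3.2
    have h7 : p5 (sv e y₀ + 2) = y₀.2 e := by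
      rw [← h6, p5_coe]
    rw [if_neg (fun h => by linarith [h.1]), if_neg (fun h => by linarith [h.1.2]),
      if_pos ⟨by linarith, by rw [h7, h4]; exact hyD⟩]
    norm_num
  · have h6 : (y₀.2 e : ℝ) = sv e y₀ - 2 := by
      rcases h3 with h3 | h3 | h3
      · exact h3.2
      · linarith [h3.1]
      · linarith [h3.1]
    have h7 : p5 (sv e y₀ - 2) = y₀.2 e := by
      rw [← h6, p5_coe]
    rw [if_pos ⟨by linarith, by rw [h7, h4]; exact hyD⟩, if_neg (fun h => by linarith [h.1.1]),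
      if_neg (fun h => by linarith [h.1])]
    norm_num

theorem fl1_lift {A : Set (Ex J)} {K : Set (U J)} (hK : Cpt A K) {e : Ex J} (he : e ∉ A)
    (hf : fs e ⊆ A) {y₀ : U J} (h0 : y₀ ∈ FO {e} K) (h1 : 1 < |val e y₀|) {z : U J} (hz : z ∈ K) :
    ∃ t : I5, upd z e t ∈ connectedComponentIn (FO {e} K) y₀ := by
  by_contra hcon
  push Not at hcon
  have hsep : ∀ t : I5, ∃ D, H64DN.RC (FO {e} K) D ∧ y₀ ∈ D ∧ upd z e t ∉ D := by
    intro t
    have h2 := hcon t
    rw [H64DN.component_eq (isClosed_FO hK.closed) h0] at h2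
    by_contra h3
    apply h2
    intro D hD hyD
    by_contra h4
    exact h3 ⟨D, hD, hyD, h4⟩
  obtain ⟨D1, hD1, hy1, hz1⟩ := hsep (p5 (sv e z - 2))
  obtain ⟨D2, hD2, hy2, hz2⟩ := hsep (p5 (-sv e z))
  obtain ⟨D3, hD3, hy3, hz3⟩ := hsep (p5 (sv e z + 2))
  have hD : H64DN.RC (FO {e} K) ((D1 ∩ D2) ∩ D3) := H64DN.rc_inter (H64DN.rc_inter hD1 hD2) hD3
  have h5 := Comp_cnt_one hK he hf h0 h1 hD ⟨⟨hy1, hy2⟩, hy3⟩ hz
  unfold cnt at h5
  rw [if_neg (fun h => hz1 h.2.1.1), if_neg (fun h => hz2 h.2.1.2), if_neg (fun h => hz3 h.2.2)]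
    at h5
  norm_num at h5

theorem fl1_comp {A : Set (Ex J)} {K : Set (U J)} (hK : Cpt A K) {e : Ex J} (he : e ∉ A)
    (hf : fs e ⊆ A) {y₀ : U J} (h0 : y₀ ∈ FO {e} K) (h1 : 1 < |val e y₀|) :
    Fl {e} K = connectedComponentIn (FO {e} K) y₀ := by
  apply Set.Subset.antisymm
  · rintro x ⟨T, ⟨hT1, hT2, hT3⟩, hxT⟩
    obtain ⟨z, hzT, hz1⟩ := hT3 e rfl
    have hzF := hT2 hzT
    obtain ⟨t, ht⟩ := fl1_lift hK he hf h0 h1 hzF.1
    have h2 := Comp_R_of_FO (connectedComponentIn_subset _ _ ht)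
    rw [Comp_sv_upd, Comp_sv_zer, upd_same] at h2
    have h3 : (t : ℝ) = (z.2 e : ℝ) :=
      R_unique (one_lt_abs_clip_iff.2 hz1) h2 (Comp_R_of_FO hzF)
    have h4 : t = z.2 e := Subtype.ext h3
    rw [h4, upd_zer] at ht
    have h5 := hT1.subset_connectedComponentIn hzT hT2 hxT
    rwa [connectedComponentIn_eq ht]
  · intro x hx
    refine ⟨connectedComponentIn (FO {e} K) y₀, ⟨isPreconnected_connectedComponentIn,
      connectedComponentIn_subset _ _, ?_⟩, hx⟩
    intro e' he'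
    rw [Set.mem_singleton_iff] at he'
    subst he'
    exact ⟨y₀, mem_connectedComponentIn h0, h1⟩

theorem Comp_exists {A : Set (Ex J)} {K : Set (U J)} (hK : Cpt A K) {e : Ex J} (he : e ∉ A)
    (hn : Nt K e) : ∃ y₀ ∈ FO {e} K, 1 < |val e y₀| := by
  obtain ⟨y, hy, hy1⟩ := hn
  have h2 : 1 < |sv e y| := one_lt_abs_clip_iff.2 hy1
  have hb := Comp_bd e y
  rcases lt_abs.1 h2 with h5 | h5
  · refine ⟨upd y e (p5 (sv e y + 2)), Comp_mem_FO hK he hy ?_, ?_⟩
    · rw [coe_p5 ⟨by linarith [hb.1], by linarith [hb.2]⟩]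
      exact Or.inr (Or.inr ⟨by linarith, rfl⟩)
    · rw [val_upd (notMem_fs_self e)]
      exact hy1
  · refine ⟨upd y e (p5 (sv e y - 2)), Comp_mem_FO hK he hy ?_, ?_⟩
    · rw [coe_p5 ⟨by linarith [hb.1], by linarith [hb.2]⟩]
      exact Or.inl ⟨by linarith, rfl⟩
    · rw [val_upd (notMem_fs_self e)]
      exact hy1

theorem fl1_cpt {A : Set (Ex J)} {K : Set (U J)} (hK : Cpt A K) {e : Ex J} (he : e ∉ A)
    (hf : fs e ⊆ A) (hn : Nt K e) : Cpt (insert e A) (Fl {e} K) := by
  obtain ⟨y₀, h0, h1⟩ := Comp_exists hK he hn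
  rw [fl1_comp hK he hf h0 h1]
  refine ⟨H64DN.component_closed (isClosed_FO hK.closed) _,
    isConnected_connectedComponentIn_iff.2 h0, ?_⟩
  intro y hy e' he'
  have h2 := connectedComponentIn_subset _ _ hy
  rw [Set.mem_insert_iff, not_or] at he'
  have h3 := hK.flat _ h2.1 e' he'.2
  rwa [zer_notMem (by rw [Set.mem_singleton_iff]; exact he'.1)] at h3

theorem fl1_onto {A : Set (Ex J)} {K : Set (U J)} (hK : Cpt A K) {e : Ex J} (he : e ∉ A)
    (hf : fs e ⊆ A) (hn : Nt K e) : zer {e} '' Fl {e} K = K := by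
  obtain ⟨y₀, h0, h1⟩ := Comp_exists hK he hn
  rw [fl1_comp hK he hf h0 h1]
  apply Set.Subset.antisymm
  · rintro _ ⟨y, hy, rfl⟩
    exact (connectedComponentIn_subset _ _ hy).1
  · intro z hz
    obtain ⟨t, ht⟩ := fl1_lift hK he hf h0 h1 hz
    exact ⟨_, ht, zer_upd z t (hK.flat z hz e he)⟩

theorem Comp_sht_eq (ε : ℝ) (e : Ex J) (y : U J) :
    sht ε {e} y = upd y e (p5 (sv e y + 2 * ε)) := by
  refine Prod.ext ?_ ?_
  · rw [sht_fst, upd_fst]
  · funext e'
    by_cases h : e' = e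
    · subst h
      rw [sht_mem (Set.mem_singleton _), upd_same]
    · rw [sht_notMem (by rw [Set.mem_singleton_iff]; exact h), upd_ne _ _ h]

theorem Comp_cont (e : Ex J) {g : U J → ℝ} (hg : Continuous g) :
    Continuous (fun y : U J => upd y e (p5 (g y))) :=
  (continuous_upd e).comp (continuous_id.prodMk (continuous_p5.comp hg))

theorem Comp_dich {A : Set (Ex J)} {K : Set (U J)} (hK : Cpt A K) {e : Ex J} (he : e ∉ A)
    {D : Set (U J)} (hD : H64DN.RC (FO {e} K) D) {Q : Set (U J)} (hQ : IsPreconnected Q)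
    (hQK : Q ⊆ K) {g : U J → ℝ} (hg : Continuous g)
    (hR : ∀ y ∈ Q, R (sv e y) (p5 (g y) : ℝ)) :
    (∀ y ∈ Q, upd y e (p5 (g y)) ∈ D) ∨ ∀ y ∈ Q, upd y e (p5 (g y)) ∉ D := by
  have h1 : IsPreconnected ((fun y : U J => upd y e (p5 (g y))) '' Q) :=
    hQ.image _ (Comp_cont e hg).continuousOn
  have h2 : (fun y : U J => upd y e (p5 (g y))) '' Q ⊆ FO {e} K := by
    rintro _ ⟨y, hy, rfl⟩
    exact Comp_mem_FO hK he (hQK hy) (hR y hy)
  rcases H64DN.rc_dichotomy hD h2 h1 with h | h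
  · left
    intro y hy
    exact h ⟨y, hy, rfl⟩
  · right
    intro y hy hyD
    exact Set.disjoint_left.1 h ⟨y, hy, rfl⟩ hyD

theorem fl1_sheet {A : Set (Ex J)} {K : Set (U J)} (hK : Cpt A K) {e : Ex J} (he : e ∉ A)
    (hf : fs e ⊆ A) (hn : Nt K e) {ε : ℝ} (hε : ε = 1 ∨ ε = -1) {Q : Set (U J)}
    (hQ : IsPreconnected Q) (hQK : Q ⊆ K) (hQe : ∀ y ∈ Q, -1 ≤ ε * val e y) {r : U J}
    (hr : r ∈ Q) (hr1 : 1 ≤ ε * val e r) : ∀ y ∈ Q, sht ε {e} y ∈ Fl {e} K := by
  have hval : ∀ y, val e (sht ε {e} y) = val e y := by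
    intro y
    rw [Comp_sht_eq, val_upd (notMem_fs_self e)]
  have hmemF : ∀ y ∈ Q, sht ε {e} y ∈ FO {e} K := by
    intro y hy
    rw [Comp_sht_eq]
    exact Comp_mem_FO hK he (hQK hy) (R_sht hε (hQe y hy))
  by_cases hbig : ∃ y ∈ Q, 1 < ε * val e y
  · obtain ⟨y1, hy1, hy2⟩ := hbig
    intro y hy
    refine ⟨sht ε {e} '' Q, ⟨hQ.image _ (continuous_sht ε {e}).continuousOn, ?_, ?_⟩,
      ⟨y, hy, rfl⟩⟩
    · rintro _ ⟨w, hw, rfl⟩
      exact hmemF w hw
    · intro e' he'
      rw [Set.mem_singleton_iff] at he'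
      subst he'
      refine ⟨_, ⟨y1, hy1, rfl⟩, ?_⟩
      rw [hval]
      rcases hε with rfl | rfl
      · rw [one_mul] at hy2
        exact lt_of_lt_of_le hy2 (le_abs_self _)
      · exact lt_of_lt_of_le (by linarith) (neg_le_abs _)
  · push Not at hbig
    obtain ⟨y₀, h0, h1⟩ := Comp_exists hK he hn
    rw [fl1_comp hK he hf h0 h1, H64DN.component_eq (isClosed_FO hK.closed) h0]
    intro y hy D hD hyD
    have habs : ∀ w ∈ Q, -1 ≤ val e w ∧ val e w ≤ 1 := by
      intro w hw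
      have h2 := hQe w hw
      have h3 := hbig w hw
      rcases hε with rfl | rfl
      · exact ⟨by linarith, by linarith⟩
      · exact ⟨by linarith, by linarith⟩
    have hsv : ∀ w ∈ Q, sv e w = val e w := by
      intro w hw
      have h2 := habs w hw
      exact clip_of_abs_le (abs_le.2 ⟨by linarith [h2.1], by linarith [h2.2]⟩)
    have hsb : ∀ w ∈ Q, -1 ≤ sv e w ∧ sv e w ≤ 1 := by
      intro w hw
      rw [hsv w hw]
      exact habs w hw
    have hR1 : ∀ w ∈ Q, R (sv e w) (p5 (sv e w - 2) : ℝ) := by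
      intro w hw
      have h2 := hsb w hw
      rw [coe_p5 ⟨by linarith [h2.1], by linarith [h2.2]⟩]
      exact Or.inl ⟨h2.2, rfl⟩
    have hR2 : ∀ w ∈ Q, R (sv e w) (p5 (-sv e w) : ℝ) := by
      intro w hw
      have h2 := hsb w hw
      rw [coe_p5 ⟨by linarith [h2.2], by linarith [h2.1]⟩]
      exact Or.inr (Or.inl ⟨h2.1, h2.2, rfl⟩)
    have hR3 : ∀ w ∈ Q, R (sv e w) (p5 (sv e w + 2) : ℝ) := by
      intro w hw
      have h2 := hsb w hw
      rw [coe_p5 ⟨by linarith [h2.1], by linarith [h2.2]⟩]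
      exact Or.inr (Or.inr ⟨h2.1, rfl⟩)
    have hc := continuous_sv e
    have d1 := Comp_dich hK he hD hQ hQK (hc.sub continuous_const) hR1
    have d2 := Comp_dich hK he hD hQ hQK hc.neg hR2
    have d3 := Comp_dich hK he hD hQ hQK (hc.add continuous_const) hR3
    have hcnt : ∀ w ∈ Q, cnt D e w = 1 := fun w hw => Comp_cnt_one hK he hf h0 h1 hD hyD (hQK hw)
    have hcy := hcnt y hy
    have hsy := hsb y hy
    have hsr := hsb r hr
    unfold cnt at hcy
    rw [Comp_sht_eq]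
    rcases hε with rfl | rfl
    · -- sheets 1 and 2 coincide over r
      have hr2 : sv e r = 1 := by
        have := hsv r hr
        have := (habs r hr).2
        linarith
      have heq : upd r e (p5 (sv e r - 2)) = upd r e (p5 (-sv e r)) := by
        rw [hr2]
        norm_num
      have h12 : upd y e (p5 (sv e y - 2)) ∈ D ↔ upd y e (p5 (-sv e y)) ∈ D := by
        rcases d1 with d1 | d1 <;> rcases d2 with d2 | d2
        · exact ⟨fun _ => d2 y hy, fun _ => d1 y hy⟩
        · exact absurd (heq ▸ d1 r hr) (d2 r hr)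
        · exact absurd (heq.symm ▸ d2 r hr) (d1 r hr)
        · exact ⟨fun h => absurd h (d1 y hy), fun h => absurd h (d2 y hy)⟩
      rw [mul_one]
      by_contra h3
      by_cases h4 : upd y e (p5 (-sv e y)) ∈ D
      · have h5 := h12.2 h4
        simp [hsy.1, hsy.2, h4, h5, h3] at hcy
      · have h5 : ¬ upd y e (p5 (sv e y - 2)) ∈ D := fun h => h4 (h12.1 h)
        simp [hsy.1, hsy.2, h4, h5, h3] at hcy
    · have hr2 : sv e r = -1 := by
        have := hsv r hr
        have := (habs r hr).1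
        linarith
      have heq : upd r e (p5 (sv e r + 2)) = upd r e (p5 (-sv e r)) := by
        rw [hr2]
        norm_num
      have h32 : upd y e (p5 (sv e y + 2)) ∈ D ↔ upd y e (p5 (-sv e y)) ∈ D := by
        rcases d3 with d3 | d3 <;> rcases d2 with d2 | d2
        · exact ⟨fun _ => d2 y hy, fun _ => d3 y hy⟩
        · exact absurd (heq ▸ d3 r hr) (d2 r hr)
        · exact absurd (heq.symm ▸ d2 r hr) (d3 r hr)
        · exact ⟨fun h => absurd h (d3 y hy), fun h => absurd h (d2 y hy)⟩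
      have e1 : sv e y + 2 * (-1 : ℝ) = sv e y - 2 := by ring
      rw [e1]
      by_contra h3
      by_cases h4 : upd y e (p5 (-sv e y)) ∈ D
      · have h5 := h32.2 h4
        simp [hsy.1, hsy.2, h4, h5, h3] at hcy
      · have h5 : ¬ upd y e (p5 (sv e y + 2)) ∈ D := fun h => h4 (h32.1 h)
        simp [hsy.1, hsy.2, h4, h5, h3] at hcy

end Pool.DM
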