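import Pool.Agent.Helper84.DM.Basic

/-!
# DM-Count: the signed count of the sheets in a clopen set is constant

`K` is a continuum flat over `A`, `e ∉ A`, `fs e ⊆ A`, `D ⊆ FO {e} K` with `D` and `FO {e} K \ D` closed.
For `y ∈ K` put `s = sv e y`; it does not change under `upd y e t` (`val_upd`, `notMem_fs_self`), and
`zer {e} (upd y e t) = y` (`zer_upd`). The points `upd y e (p5 (s - 2))` (if `s ≤ 1`), `upd y e (p5 (-s))` (if
`-1 ≤ s ≤ 1`), `upd y e (p5 (s + 2))` (if `-1 ≤ s`) are in `FO {e} K` (`R_bound`, `coe_p5`, `clip_mem`), so each is in `D` or in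
`FO {e} K \ D`.

`cnt D e y` counts those in `D` with signs `+, -, +`.

`cnt_const`: `cnt D e` is locally constant on `K` (`K` is preconnected, so constant: for instance
the set of `y ∈ K` with `cnt D e y = cnt D e y₀` and its complement in `K` are relatively open).
Local constancy at `y₀`, `s₀ = sv e y₀`:
 * in general the maps `y ↦ upd y e (p5 (sv e y - 2))` etc. are continuous, and if such a point is in
   `D` (resp. in `FO {e} K \ D`) at `y₀`, then it is not in the closed set `FO {e} K \ D`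
   (resp. `D`) for `y` near `y₀`, so it is in `D` (resp. not in `D`) whenever it is in `FO {e} K`;
 * `|s₀| < 1`, `s₀ < -1`, `s₀ > 1`: the set of allowed sheets does not change near `y₀`;
 * `s₀ = 1`: `s - 2 = -1 = -s` at `y₀`, so the points of the sheets 1 and 2 are both near the same
   point `upd y₀ e (p5 (-1))`; near `y₀` sheet 3 is allowed, and the sheets 1 and 2 are either both
   allowed (`s ≤ 1`) or both not allowed, and their contributions cancel;
 * `s₀ = -1`: the same with the sheets 2 and 3 near `upd y₀ e (p5 1)`.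
-/

open Set Topology TopologicalSpace

namespace Pool.DM

variable {J : Type}

open Classical in
/-- The signed number of the sheets over `y` that are in `D`. -/
noncomputable def cnt (D : Set (U J)) (e : Ex J) (y : U J) : ℤ :=
  (if sv e y ≤ 1 ∧ upd y e (p5 (sv e y - 2)) ∈ D then 1 else 0)
    - (if (-1 ≤ sv e y ∧ sv e y ≤ 1) ∧ upd y e (p5 (-sv e y)) ∈ D then 1 else 0)
    + (if -1 ≤ sv e y ∧ upd y e (p5 (sv e y + 2)) ∈ D then 1 else 0)

private theorem cnt_mem_FO {A : Set (Ex J)} {K : Set (U J)} (hK : Cpt A K) {e : Ex J}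
    (he : e ∉ A) {y : U J} (hy : y ∈ K) {u : ℝ} (hR : R (sv e y) u) :
    upd y e (p5 u) ∈ FO {e} K := by
  have h0 : y.2 e = p5 0 := hK.flat y hy e he
  refine ⟨?_, ?_⟩
  · rw [zer_upd y _ h0]
    exact hy
  · intro e' he'
    rw [mem_singleton_iff] at he'
    subst he'
    have h1 : sv e' (upd y e' (p5 u)) = sv e' y := by
      unfold sv
      rw [val_upd (notMem_fs_self e')]
    rw [h1, upd_same, coe_p5 (R_bound (clip_mem _) hR)]
    exact hR

private theorem cnt_near {A : Set (Ex J)} {K : Set (U J)} (hK : Cpt A K) {e : Ex J} (he : e ∉ A)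
    {D : Set (U J)} (hDc : IsClosed D) (hDc' : IsClosed (FO {e} K \ D))
    {g : ℝ → ℝ} (hg : Continuous g) (y₀ : U J) :
    ∀ᶠ y in 𝓝 y₀, y ∈ K → R (sv e y) (g (sv e y)) →
      (upd y e (p5 (g (sv e y))) ∈ D ↔ upd y₀ e (p5 (g (sv e y₀))) ∈ D) := by
  have hc : Continuous (fun y : U J => upd y e (p5 (g (sv e y)))) :=
    (continuous_upd e).comp (continuous_id.prodMk (continuous_p5.comp (hg.comp (continuous_sv e))))
  by_cases h : upd y₀ e (p5 (g (sv e y₀))) ∈ D
  · have h1 : ∀ᶠ y in 𝓝 y₀, upd y e (p5 (g (sv e y))) ∈ (FO {e} K \ D)ᶜ :=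
      hc.continuousAt.eventually (hDc'.isOpen_compl.mem_nhds (fun h2 => h2.2 h))
    filter_upwards [h1] with y hy hyK hR
    have h3 := cnt_mem_FO hK he hyK hR
    simp only [h, iff_true]
    by_contra h4
    exact hy ⟨h3, h4⟩
  · have h1 : ∀ᶠ y in 𝓝 y₀, upd y e (p5 (g (sv e y))) ∈ Dᶜ :=
      hc.continuousAt.eventually (hDc.isOpen_compl.mem_nhds h)
    filter_upwards [h1] with y hy _ _
    exact ⟨fun h2 => absurd h2 hy, fun h2 => absurd h2 h⟩

theorem cnt_const {A : Set (Ex J)} {K : Set (U J)} (hK : Cpt A K) {e : Ex J} (he : e ∉ A)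
    (hf : fs e ⊆ A) {D : Set (U J)} (hD : D ⊆ FO {e} K) (hDc : IsClosed D)
    (hDc' : IsClosed (FO {e} K \ D)) {y z : U J} (hy : y ∈ K) (hz : z ∈ K) :
    cnt D e y = cnt D e z := by
  classical
  have _ := hf
  have _ := hD
  refine hK.conn.isPreconnected.constant (f := cnt D e) ?_ hy hz
  intro y₀ hy₀
  have h1 := cnt_near hK he hDc hDc' (g := fun s => s - 2) (by fun_prop) y₀
  have h2 := cnt_near hK he hDc hDc' (g := fun s => -s) (by fun_prop) y₀
  have h3 := cnt_near hK he hDc hDc' (g := fun s => s + 2) (by fun_prop) y₀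
  have hc := (continuous_sv e).continuousAt (x := y₀)
  have l1 : sv e y₀ < 1 → ∀ᶠ y in 𝓝 y₀, sv e y < 1 := fun h =>
    hc.eventually_lt continuousAt_const h
  have l2 : 1 < sv e y₀ → ∀ᶠ y in 𝓝 y₀, 1 < sv e y := fun h =>
    continuousAt_const.eventually_lt hc h
  have l3 : sv e y₀ < -1 → ∀ᶠ y in 𝓝 y₀, sv e y < -1 := fun h =>
    hc.eventually_lt continuousAt_const h
  have l4 : -1 < sv e y₀ → ∀ᶠ y in 𝓝 y₀, -1 < sv e y := fun h =>
    continuousAt_const.eventually_lt hc h
  have key0 : ∀ᶠ y in 𝓝 y₀, y ∈ K → cnt D e y =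
      (if sv e y ≤ 1 ∧ upd y₀ e (p5 (sv e y₀ - 2)) ∈ D then 1 else 0)
    - (if (-1 ≤ sv e y ∧ sv e y ≤ 1) ∧ upd y₀ e (p5 (-sv e y₀)) ∈ D then 1 else 0)
    + (if -1 ≤ sv e y ∧ upd y₀ e (p5 (sv e y₀ + 2)) ∈ D then 1 else 0) := by
    filter_upwards [h1, h2, h3] with y g1 g2 g3 hyK
    have g1' : sv e y ≤ 1 → (upd y e (p5 (sv e y - 2)) ∈ D ↔
        upd y₀ e (p5 (sv e y₀ - 2)) ∈ D) := fun h => g1 hyK (Or.inl ⟨h, rfl⟩)
    have g2' : (-1 ≤ sv e y ∧ sv e y ≤ 1) → (upd y e (p5 (-sv e y)) ∈ D ↔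
        upd y₀ e (p5 (-sv e y₀)) ∈ D) := fun h => g2 hyK (Or.inr (Or.inl ⟨h.1, h.2, rfl⟩))
    have g3' : -1 ≤ sv e y → (upd y e (p5 (sv e y + 2)) ∈ D ↔
        upd y₀ e (p5 (sv e y₀ + 2)) ∈ D) := fun h => g3 hyK (Or.inr (Or.inr ⟨h, rfl⟩))
    unfold cnt
    rw [if_congr (and_congr_right g1') rfl rfl, if_congr (and_congr_right g2') rfl rfl,
      if_congr (and_congr_right g3') rfl rfl]
  have key : ∀ᶠ y in 𝓝 y₀, y ∈ K → cnt D e y = cnt D e y₀ := by
    have e0 : cnt D e y₀ = (if sv e y₀ ≤ 1 ∧ upd y₀ e (p5 (sv e y₀ - 2)) ∈ D then 1 else 0)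
      - (if (-1 ≤ sv e y₀ ∧ sv e y₀ ≤ 1) ∧ upd y₀ e (p5 (-sv e y₀)) ∈ D then 1 else 0)
      + (if -1 ≤ sv e y₀ ∧ upd y₀ e (p5 (sv e y₀ + 2)) ∈ D then 1 else 0) := rfl
    rcases lt_trichotomy (sv e y₀) (-1) with h | h | h
    · filter_upwards [key0, l3 h] with y k0 hs hyK
      rw [k0 hyK, e0]
      have a1 : sv e y ≤ 1 := by linarith
      have a2 : ¬ (-1 ≤ sv e y) := by linarith
      have a3 : sv e y₀ ≤ 1 := by linarith
      have a4 : ¬ (-1 ≤ sv e y₀) := by linarith
      simp only [a1, a2, a3, a4, true_and, false_and, if_false]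
    · filter_upwards [key0, l1 (by linarith)] with y k0 hs hyK
      rw [k0 hyK, e0]
      have a1 : sv e y ≤ 1 := by linarith
      have a3 : sv e y₀ ≤ 1 := by linarith
      have a4 : -1 ≤ sv e y₀ := by linarith
      have a5 : -sv e y₀ = sv e y₀ + 2 := by linarith
      simp only [a1, a3, a4, a5, true_and, and_true]
      ring
    · rcases lt_trichotomy (sv e y₀) 1 with h' | h' | h'
      · filter_upwards [key0, l1 h', l4 h] with y k0 hs hs' hyK
        rw [k0 hyK, e0]
        have a1 : sv e y ≤ 1 := by linarith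
        have a2 : -1 ≤ sv e y := by linarith
        have a3 : sv e y₀ ≤ 1 := by linarith
        have a4 : -1 ≤ sv e y₀ := by linarith
        simp only [a1, a2, a3, a4, true_and]
      · filter_upwards [key0, l4 h] with y k0 hs hyK
        rw [k0 hyK, e0]
        have a2 : -1 ≤ sv e y := by linarith
        have a3 : sv e y₀ ≤ 1 := by linarith
        have a4 : -1 ≤ sv e y₀ := by linarith
        have a5 : -sv e y₀ = sv e y₀ - 2 := by linarith
        simp only [a2, a3, a4, a5, true_and]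
        ring
      · filter_upwards [key0, l2 h'] with y k0 hs hyK
        rw [k0 hyK, e0]
        have a1 : ¬ (sv e y ≤ 1) := by linarith
        have a2 : -1 ≤ sv e y := by linarith
        have a3 : ¬ (sv e y₀ ≤ 1) := by linarith
        have a4 : -1 ≤ sv e y₀ := by linarith
        simp only [a1, a2, a3, a4, true_and, false_and, and_false, if_false]
  refine tendsto_const_nhds.congr' ?_
  have := eventually_nhdsWithin_iff.mpr key
  filter_upwards [this] with y hy'
  exact hy'.symm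

end Pool.DM
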