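import Mathlib

/-!
# Project DM (MP_542c23_gt, Theorem M): definitions

Path-connected dendrons in hyperspaces of hereditarily indecomposable continua.
`J` is the set of letters. The points of `U J` have a coordinate `y.1 j` in `[0,1]` for every letter
and a coordinate `y.2 e` in `[-5,5]` (the fold coordinate of `e`) for every term `e`.
-/

open Set Topology TopologicalSpace

namespace Pool.DM

/-- Terms. `lt j`: the letter coordinate; `fo e`: the fold coordinate of `e`; rational constants,
sums, rational multiples, maxima. -/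
inductive Ex (J : Type) : Type
  | lt (j : J) : Ex J
  | fo (e : Ex J) : Ex J
  | cn (q : ℚ) : Ex J
  | ad (a b : Ex J) : Ex J
  | sm (q : ℚ) (a : Ex J) : Ex J
  | mx (a b : Ex J) : Ex J

/-- The unit interval. -/
abbrev I01 : Type := ↥(Set.Icc (0 : ℝ) 1)

/-- The interval of the fold coordinates. -/
abbrev I5 : Type := ↥(Set.Icc (-5 : ℝ) 5)

/-- The ambient compact space. -/
abbrev U (J : Type) : Type := (J → I01) × (Ex J → I5)

/-- Projection to `[-5,5]`. -/
noncomputable def p5 (t : ℝ) : I5 := Set.projIcc (-5 : ℝ) 5 (by norm_num) t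

variable {J : Type}

/-- Size of a term. -/
def Ex.sz : Ex J → ℕ
  | .lt _ => 0
  | .fo e => e.sz + 1
  | .cn _ => 0
  | .ad a b => a.sz + b.sz
  | .sm _ a => a.sz
  | .mx a b => a.sz + b.sz

/-- The value of a term at a point. -/
def val : Ex J → U J → ℝ
  | .lt j, y => (y.1 j : ℝ)
  | .fo e, y => (y.2 e : ℝ)
  | .cn q, _ => (q : ℝ)
  | .ad a b, y => val a y + val b y
  | .sm q a, y => (q : ℝ) * val a y
  | .mx a b, y => max (val a y) (val b y)

/-- The terms whose fold coordinate occurs in `e` at top level. -/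
def fs : Ex J → Set (Ex J)
  | .lt _ => ∅
  | .fo e => {e}
  | .cn _ => ∅
  | .ad a b => fs a ∪ fs b
  | .sm _ a => fs a
  | .mx a b => fs a ∪ fs b

/-- The letters that occur in `e`, at any depth. -/
def ls : Ex J → Set J
  | .lt j => {j}
  | .fo e => ls e
  | .cn _ => ∅
  | .ad a b => ls a ∪ ls b
  | .sm _ a => ls a
  | .mx a b => ls a ∪ ls b

/-- Cut off at `-3` and `3`. -/
def clip (t : ℝ) : ℝ := max (-3) (min 3 t)

/-- The value of the term, cut off. -/
def sv (e : Ex J) (y : U J) : ℝ := clip (val e y)

/-- The fold relation: three sheets `u = s - 2` (for `s ≤ 1`), `u = -s` (for `-1 ≤ s ≤ 1`),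
`u = s + 2` (for `-1 ≤ s`). -/
def R (s u : ℝ) : Prop :=
  (s ≤ 1 ∧ u = s - 2) ∨ (-1 ≤ s ∧ s ≤ 1 ∧ u = -s) ∨ (-1 ≤ s ∧ u = s + 2)

open Classical in
/-- Change the fold coordinate of `e` to `t`. -/
noncomputable def upd (y : U J) (e : Ex J) (t : I5) : U J := (y.1, Function.update y.2 e t)

open Classical in
/-- Set the fold coordinates of the elements of `O` to zero. -/
noncomputable def zer (O : Set (Ex J)) (y : U J) : U J :=
  (y.1, fun e => if e ∈ O then p5 0 else y.2 e)

open Classical in
/-- Keep the fold coordinates of the elements of `A` only. -/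
noncomputable def tr (A : Set (Ex J)) (y : U J) : U J :=
  (y.1, fun e => if e ∈ A then y.2 e else p5 0)

open Classical in
/-- The sheet of sign `ε` (`ε = 1` or `ε = -1`) over `y` for the elements of `O`. -/
noncomputable def sht (ε : ℝ) (O : Set (Ex J)) (y : U J) : U J :=
  (y.1, fun e => if e ∈ O then p5 (sv e y + 2 * ε) else y.2 e)

/-- The points over `K` satisfying the fold relations of the elements of `O`. -/
def FO (O : Set (Ex J)) (K : Set (U J)) : Set (U J) :=
  {y | zer O y ∈ K ∧ ∀ e ∈ O, R (sv e y) (y.2 e)}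

/-- `e` is touched by `K`. -/
def Nt (K : Set (U J)) (e : Ex J) : Prop := ∃ y ∈ K, 1 < |val e y|

/-- The full continuum over `K` for the fold relations of `O`. -/
def Fl (O : Set (Ex J)) (K : Set (U J)) : Set (U J) :=
  ⋃₀ {T | IsPreconnected T ∧ T ⊆ FO O K ∧ ∀ e ∈ O, Nt T e}

open Classical in
/-- Adjoin the fold coordinate of `e`. -/
noncomputable def step (K : Set (U J)) (e : Ex J) : Set (U J) :=
  if Nt K e then Fl {e} K else K

/-- `K` is the canonical continuum for the finite closed set `A` of terms. -/
inductive IsC : Set (Ex J) → Set (U J) → Prop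
  | nil : IsC ∅ {y | ∀ e, y.2 e = p5 0}
  | cons {A : Set (Ex J)} {K : Set (U J)} {e : Ex J} : IsC A K → e ∉ A → fs e ⊆ A →
      IsC (insert e A) (step K e)

/-- `K` is a continuum, and flat over `A`: all fold coordinates outside `A` are zero. -/
structure Cpt (A : Set (Ex J)) (K : Set (U J)) : Prop where
  closed : IsClosed K
  conn : IsConnected K
  flat : ∀ y ∈ K, ∀ e, e ∉ A → y.2 e = p5 0

/-- Closed under occurring fold coordinates. -/
def Clo (A : Set (Ex J)) : Prop := ∀ e ∈ A, fs e ⊆ A

/-- The space. -/
def Y (J : Type) : Set (U J) := {y | ∀ (A : Set (Ex J)) (K : Set (U J)), IsC A K → tr A y ∈ K}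

/-- The image of `Y J` at the level `A`. -/
def Yc (A : Set (Ex J)) : Set (U J) := tr A '' Y J

/-- `e` is active. -/
def Act (e : Ex J) : Prop := ∃ y ∈ Y J, 1 < |val e y|

/-! ### Permutations of letters -/

/-- Rename the letters. -/
def Ex.map {J' : Type} (σ : J → J') : Ex J → Ex J'
  | .lt j => .lt (σ j)
  | .fo e => .fo (e.map σ)
  | .cn q => .cn q
  | .ad a b => .ad (a.map σ) (b.map σ)
  | .sm q a => .sm q (a.map σ)
  | .mx a b => .mx (a.map σ) (b.map σ)

/-- The action of a permutation of the letters on `U J`. -/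
def act (σ : Equiv.Perm J) (y : U J) : U J :=
  (fun j => y.1 (σ.symm j), fun e => y.2 (e.map σ.symm))

/-- The permutations that fix every letter outside the finite set `F`. -/
def PF (F : Set J) : Set (Equiv.Perm J) := {σ | ∀ i, i ∉ F → σ i = i}

/-- Invariance of a set of terms. -/
def Inv (F : Set J) (A : Set (Ex J)) : Prop := ∀ σ ∈ PF F, ∀ e ∈ A, e.map σ ∈ A

/-! ### Sections -/

/-- The cut off as a term. -/
def cl (e : Ex J) : Ex J := .mx (.cn (-3)) (.sm (-1) (.mx (.cn (-3)) (.sm (-1) e)))

/-- Rules: what happens to the fold coordinate of a term when a letter is replaced by zero. -/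
inductive Ru : Type
  | use | pos | neg | zero

open Classical in
/-- Substitute `0` for the letter `i`, with the rules `ρ`. -/
noncomputable def sb (i : J) (ρ : Ex J → Ru) : Ex J → Ex J
  | .lt j => if j = i then .cn 0 else .lt j
  | .fo e =>
      if i ∉ ls e then .fo e
      else match ρ e with
        | .use => .fo (sb i ρ e)
        | .pos => .ad (cl (sb i ρ e)) (.cn 2)
        | .neg => .ad (cl (sb i ρ e)) (.cn (-2))
        | .zero => .cn 0
  | .cn q => .cn q
  | .ad a b => .ad (sb i ρ a) (sb i ρ b)
  | .sm q a => .sm q (sb i ρ a)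
  | .mx a b => .mx (sb i ρ a) (sb i ρ b)

open Classical in
/-- The section map at the level `A`. -/
noncomputable def sc (i : J) (ρ : Ex J → Ru) (A : Set (Ex J)) (y : U J) : U J :=
  (fun j => if j = i then 0 else y.1 j,
    fun e => if e ∈ A then p5 (val (sb i ρ (.fo e)) y) else p5 0)

/-- A level for the letters in `F`. -/
structure Lev (F : Set J) (A : Set (Ex J)) : Prop where
  fin : A.Finite
  clo : Clo A
  inv : Inv F A
  sbs : ∀ i ∈ F, ∀ e ∈ A, i ∈ ls e → ∀ ρ, sb i ρ e ∈ A

/-! ### Threads and the hyperspace -/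

/-- A thread from `a` to `b`: a closed connected chain with smallest element `a` and largest
element `b`. -/
structure Thr {P : Type*} [TopologicalSpace P] [PartialOrder P] (S : Set P) (a b : P) : Prop where
  closed : IsClosed S
  conn : IsPreconnected S
  chain : ∀ x ∈ S, ∀ y ∈ S, x ≤ y ∨ y ≤ x
  left : a ∈ S
  right : b ∈ S
  low : ∀ x ∈ S, a ≤ x
  high : ∀ x ∈ S, x ≤ b

/-- The hyperspace of `U J`. -/
abbrev H (J : Type) : Type := NonemptyCompacts (U J)

open Classical in
/-- The closure of a nonempty set as an element of the hyperspace of a compact space. -/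
noncomputable def clH {X : Type*} [TopologicalSpace X] [CompactSpace X] [Nonempty X] (S : Set X) :
    NonemptyCompacts X :=
  if h : S.Nonempty then ⟨⟨closure S, isClosed_closure.isCompact⟩, h.closure⟩
  else ⟨⟨Set.univ, isCompact_univ⟩, Set.univ_nonempty⟩

theorem continuous_p5 : Continuous p5 := continuous_projIcc (h := by norm_num)

theorem continuous_tr (A : Set (Ex J)) : Continuous (tr A) := by
  classical
  refine Continuous.prodMk continuous_fst (continuous_pi fun e => ?_)
  by_cases h : e ∈ A
  · simp only [h, if_true]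
    exact (continuous_apply e).comp continuous_snd
  · simp only [h, if_false]
    exact continuous_const

theorem continuous_zer (A : Set (Ex J)) : Continuous (zer A) := by
  classical
  refine Continuous.prodMk continuous_fst (continuous_pi fun e => ?_)
  by_cases h : e ∈ A
  · simp only [h, if_true]
    exact continuous_const
  · simp only [h, if_false]
    exact (continuous_apply e).comp continuous_snd

theorem continuous_val (e : Ex J) : Continuous (val e : U J → ℝ) := by
  induction e with
  | lt j => exact continuous_subtype_val.comp ((continuous_apply j).comp continuous_fst)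
  | fo e _ => exact continuous_subtype_val.comp ((continuous_apply e).comp continuous_snd)
  | cn q => exact continuous_const
  | ad a b ha hb => exact ha.add hb
  | sm q a ha => exact continuous_const.mul ha
  | mx a b ha hb => exact ha.max hb

theorem continuous_clip : Continuous clip := by
  unfold clip
  fun_prop

theorem continuous_sv (e : Ex J) : Continuous (sv e : U J → ℝ) :=
  continuous_clip.comp (continuous_val e)

theorem continuous_sht (ε : ℝ) (O : Set (Ex J)) : Continuous (sht ε O) := by
  classical
  refine Continuous.prodMk continuous_fst (continuous_pi fun e => ?_)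
  by_cases h : e ∈ O
  · simp only [h, if_true]
    exact continuous_p5.comp ((continuous_sv e).add continuous_const)
  · simp only [h, if_false]
    exact (continuous_apply e).comp continuous_snd

theorem continuous_act (σ : Equiv.Perm J) : Continuous (act σ : U J → U J) :=
  Continuous.prodMk (continuous_pi fun j => (continuous_apply (σ.symm j)).comp continuous_fst)
    (continuous_pi fun e => (continuous_apply (e.map σ.symm)).comp continuous_snd)

theorem continuous_sc (i : J) (ρ : Ex J → Ru) (A : Set (Ex J)) : Continuous (sc i ρ A) := by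
  classical
  refine Continuous.prodMk (continuous_pi fun j => ?_) (continuous_pi fun e => ?_)
  · by_cases h : j = i
    · simp only [h, if_true]
      exact continuous_const
    · simp only [h, if_false]
      exact (continuous_apply j).comp continuous_fst
  · by_cases h : e ∈ A
    · simp only [h, if_true]
      exact continuous_p5.comp (continuous_val _)
    · simp only [h, if_false]
      exact continuous_const

instance : Nonempty (U J) := ⟨(fun _ => 0, fun _ => p5 0)⟩

/-- Truncation on the hyperspace. -/
noncomputable def trH (A : Set (Ex J)) (K : H J) : H J := K.map (tr A) (continuous_tr A)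

/-- The sheet on the hyperspace. -/
noncomputable def shtH (ε : ℝ) (O : Set (Ex J)) (K : H J) : H J :=
  K.map (sht ε O) (continuous_sht ε O)

/-- The full continuum on the hyperspace. -/
noncomputable def FlH (O : Set (Ex J)) (K : H J) : H J := clH (Fl O (K : Set (U J)))

/-! ### Families with threads -/

/-- The basic conditions on a family of continua at the level `A`. -/
structure PG0 (A : Set (Ex J)) {Q : Type} (Rel : Q → Q → Prop) (F : Set J) (z : Q → H J) :
    Prop where
  sub : ∀ q, (z q : Set (U J)) ⊆ Yc A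
  conn : ∀ q, IsConnected (z q : Set (U J))
  inv : ∀ q, ∀ σ ∈ PF F, ∀ y ∈ z q, act σ y ∈ z q
  rel : ∀ q q', Rel q q' → z q ≤ z q'

/-- The families with threads of depth `r`. -/
def PG (A : Set (Ex J)) {Q : Type} (Rel : Q → Q → Prop) : ℕ → Set J → (Q → H J) → Prop
  | 0, F, z => PG0 A Rel F z
  | r + 1, F, z => PG0 A Rel F z ∧ ∀ i ∈ F, ∃ (ρ : Ex J → Ru) (b : Q → H J) (S : Set (Q → H J)),
      Thr S b z ∧ (∀ q, ∀ y ∈ b q, y.1 i = 0) ∧ (∀ q, ∀ y ∈ z q, sc i ρ A y ∈ b q) ∧
      ∀ p ∈ S, PG A Rel r (F \ {i}) p

/-- The case of a single continuum. -/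
def PG1 (A : Set (Ex J)) (r : ℕ) (F : Set J) (K : H J) : Prop :=
  PG A (fun _ _ : Unit => False) r F (fun _ => K)

/-- Two points agree in all coordinates that have only letters from `S`. -/
def Agr (S : Set J) (y z : U J) : Prop :=
  (∀ i ∈ S, y.1 i = z.1 i) ∧ ∀ e, ls e ⊆ S → y.2 e = z.2 e

/-- Good continua: `P` is the set of the letters that have been used. -/
structure G (P : Set J) (K : H J) : Prop where
  sub : (K : Set (U J)) ⊆ Y J
  conn : IsConnected (K : Set (U J))
  pg : ∀ F : Set J, F.Finite → Disjoint F P → ∀ A, Lev F A → ∀ r, PG1 A r F (trH A K)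
  full : ∀ k, k ∉ P → ∃ y ∈ K, y.1 k = 1

/-- Good continua, as sets. -/
def Gs (P : Set J) (K : Set (U J)) : Prop := ∃ L : H J, (L : Set (U J)) = K ∧ G P L

/-- `γ` parametrizes by `[0,1]` an arc of good continua, ending in `K`; `i` is the letter used by
the arc, `P` the set of the letters used before, `N` a reserve of letters. -/
structure ArcG (P : Set J) (i : J) (N : Set J) (K : Set (U J)) (γ : ℝ → Set (U J)) : Prop where
  one : γ 1 = K
  mem : ∀ t, 0 ≤ t → t ≤ 1 → Gs (insert i P) (γ t)
  mono : ∀ s t, 0 ≤ s → s ≤ t → t ≤ 1 → γ s ⊆ γ t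
  upper : ∀ t, 0 ≤ t → t ≤ 1 → ∀ O : Set (U J), IsOpen O → γ t ⊆ O →
    ∃ δ > 0, ∀ t', 0 ≤ t' → t' ≤ 1 → |t' - t| < δ → γ t' ⊆ O
  lower : ∀ t, 0 ≤ t → t ≤ 1 → ∀ O : Set (U J), IsOpen O → (γ t ∩ O).Nonempty →
    ∃ δ > 0, ∀ t', 0 ≤ t' → t' ≤ 1 → |t' - t| < δ → (γ t' ∩ O).Nonempty
  agr : ∀ y ∈ K, ∃ y' ∈ γ 0, Agr {i}ᶜ y y'
  sep : ∀ s t, 0 ≤ s → s < t → t ≤ 1 → ∃ e : Ex J, ls e ⊆ insert i P ∪ N ∧
    (∀ y ∈ γ s, val e y = 0) ∧ ∃ a ∈ γ t, 1 < val e a

end Pool.DM
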