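import Pool.Agent.Helper84.DM.Defs
import Pool.Agent.Helper64.DN.Top

/-!
# DM-Hy: the hyperspace of a compact Hausdorff space

The Vietoris topology is in Mathlib (`Mathlib/Topology/Sets/VietorisTopology.lean`, namespace
`TopologicalSpace.NonemptyCompacts`: `isOpen_subsets_of_isOpen`, `isOpen_inter_nonempty_of_isOpen`,
`isClosed_subsets_of_isClosed`, `isClosed_inter_nonempty_of_isClosed`, `continuous_singleton`,
`continuous_prod`, `Continuous.nonemptyCompacts_map`, `ContinuousSup`, `coe_sup`, `coe_map`).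

`orderClosedH`: let `K ⊄ L`, `x ∈ K \ L`; take disjoint open `V ∋ x`, `W ⊇ L`; the open set
`{K' | K' ∩ V ≠ ∅} × {L' | L' ⊆ W}` contains `(K, L)` and misses `{K' ≤ L'}`.

`isClosed_conn`: if `K` is not connected, `K ⊆ A ∪ B` with `A, B` closed, `K ∩ A`, `K ∩ B` nonempty and
disjoint; take disjoint open `V ⊇ K ∩ A`, `W ⊇ K ∩ B`; `{K' | K' ⊆ V ∪ W, K' ∩ V ≠ ∅, K' ∩ W ≠ ∅}` is
an open neighbourhood of `K` without connected elements.

`isClosed_mem`: `x ∈ K ↔ {x} ≤ K`.

`coe_of_isGLB`: the intersection `C` of the chain is nonempty and compact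
(`IsCompact.nonempty_sInter_of_directed_nonempty_isCompact_isClosed` or the indexed version), so it is an element
of the hyperspace, a lower bound, and every lower bound is contained in it. `coe_of_isLUB`: the
closure of the union is the smallest element of the hyperspace containing all `L ∈ 𝒞`.
-/

open Set Topology TopologicalSpace

namespace Pool.DM

variable {X : Type*} [TopologicalSpace X]

instance orderClosedH [T2Space X] : OrderClosedTopology (NonemptyCompacts X) := by
  refine ⟨?_⟩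
  rw [← isOpen_compl_iff, isOpen_iff_forall_mem_open]
  rintro ⟨K, L⟩ h
  have h' : ¬ (K : Set X) ⊆ (L : Set X) := fun h1 => h (SetLike.coe_subset_coe.1 h1)
  obtain ⟨x, hxK, hxL⟩ := Set.not_subset.1 h'
  have hd : Disjoint ({x} : Set X) (L : Set X) := by
    rw [Set.disjoint_singleton_left]
    exact hxL
  obtain ⟨V, W, hV, hW, hxV, hLW, hVW⟩ :=
    SeparatedNhds.of_isCompact_isCompact isCompact_singleton L.isCompact hd
  refine ⟨{p | ((p.1 : Set X) ∩ V).Nonempty} ∩ {p | (p.2 : Set X) ⊆ W}, ?_, ?_, ?_⟩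
  · rintro ⟨K', L'⟩ ⟨h1, h2⟩ h3
    obtain ⟨z, hz, hzV⟩ := h1
    have h4 : (K' : Set X) ⊆ (L' : Set X) := SetLike.coe_subset_coe.2 h3
    exact Set.disjoint_left.1 hVW hzV (h2 (h4 hz))
  · exact ((NonemptyCompacts.isOpen_inter_nonempty_of_isOpen hV).preimage continuous_fst).inter
      ((NonemptyCompacts.isOpen_subsets_of_isOpen hW).preimage continuous_snd)
  · exact ⟨⟨x, hxK, hxV rfl⟩, hLW⟩

theorem isClosed_conn [T2Space X] : IsClosed {K : NonemptyCompacts X | IsConnected (K : Set X)} := by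
  rw [← isOpen_compl_iff, isOpen_iff_forall_mem_open]
  intro K hK
  have hK' : ¬ IsPreconnected (K : Set X) := fun h => hK ⟨K.nonempty, h⟩
  rw [isPreconnected_iff_subset_of_disjoint_closed] at hK'
  push Not at hK'
  obtain ⟨A, B, hA, hB, hAB, hd, hnA, hnB⟩ := hK'
  have hdis : Disjoint ((K : Set X) ∩ A) ((K : Set X) ∩ B) := by
    rw [Set.disjoint_left]
    rintro x ⟨hx, hxA⟩ ⟨_, hxB⟩
    have h1 : x ∈ (K : Set X) ∩ (A ∩ B) := ⟨hx, hxA, hxB⟩
    rw [hd] at h1
    exact h1
  obtain ⟨V, W, hV, hW, hAV, hBW, hVW⟩ :=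
    SeparatedNhds.of_isCompact_isCompact (K.isCompact.inter_right hA) (K.isCompact.inter_right hB)
      hdis
  obtain ⟨a, haK, haA⟩ := Set.not_subset.1 hnA
  obtain ⟨b, hbK, hbB⟩ := Set.not_subset.1 hnB
  have haB : a ∈ B := (hAB haK).resolve_left haA
  have hbA : b ∈ A := (hAB hbK).resolve_right hbB
  refine ⟨{K' | (K' : Set X) ⊆ V ∪ W} ∩ ({K' | ((K' : Set X) ∩ V).Nonempty} ∩
    {K' | ((K' : Set X) ∩ W).Nonempty}), ?_, ?_, ?_⟩
  · rintro K' ⟨h1, h2, h3⟩ h4
    obtain ⟨x, hx⟩ := h4.isPreconnected V W hV hW h1 h2 h3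
    exact Set.disjoint_left.1 hVW hx.2.1 hx.2.2
  · exact (NonemptyCompacts.isOpen_subsets_of_isOpen (hV.union hW)).inter
      ((NonemptyCompacts.isOpen_inter_nonempty_of_isOpen hV).inter
        (NonemptyCompacts.isOpen_inter_nonempty_of_isOpen hW))
  · refine ⟨fun x hx => ?_, ⟨b, hbK, hAV ⟨hbK, hbA⟩⟩, ⟨a, haK, hBW ⟨haK, haB⟩⟩⟩
    rcases hAB hx with h | h
    · exact Or.inl (hAV ⟨hx, h⟩)
    · exact Or.inr (hBW ⟨hx, h⟩)

theorem isClosed_mem [T2Space X] : IsClosed {p : X × NonemptyCompacts X | p.1 ∈ p.2} := by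
  have h : {p : X × NonemptyCompacts X | p.1 ∈ p.2} =
      {p : X × NonemptyCompacts X | ({p.1} : NonemptyCompacts X) ≤ p.2} := by
    ext p
    constructor
    · intro hp
      have h1 : ((({p.1} : NonemptyCompacts X)) : Set X) ⊆ (p.2 : Set X) := by
        intro x hx
        have hx' : x ∈ ({p.1} : NonemptyCompacts X) := hx
        rw [NonemptyCompacts.mem_singleton] at hx'
        rw [hx']
        exact hp
      exact SetLike.coe_subset_coe.1 h1
    · intro hp
      have h1 : p.1 ∈ ({p.1} : NonemptyCompacts X) := by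
        rw [NonemptyCompacts.mem_singleton]
      exact hp h1
  rw [h]
  exact isClosed_le (NonemptyCompacts.continuous_singleton.comp continuous_fst) continuous_snd

theorem le_iff_sub {K L : NonemptyCompacts X} : K ≤ L ↔ (K : Set X) ⊆ (L : Set X) :=
  SetLike.coe_subset_coe.symm

theorem eq_of_coe {K L : NonemptyCompacts X} (h : (K : Set X) = (L : Set X)) : K = L :=
  NonemptyCompacts.ext h

theorem mem_mapH {Z : Type*} [TopologicalSpace Z] {f : X → Z} (hf : Continuous f)
    (K : NonemptyCompacts X) (z : Z) : z ∈ K.map f hf ↔ ∃ x ∈ K, f x = z := by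
  rw [← SetLike.mem_coe, NonemptyCompacts.coe_map]
  exact Iff.rfl

theorem map_monoH {Z : Type*} [TopologicalSpace Z] {f : X → Z} (hf : Continuous f) :
    Monotone (NonemptyCompacts.map f hf) := by
  intro K L h
  rw [le_iff_sub, NonemptyCompacts.coe_map, NonemptyCompacts.coe_map]
  exact Set.image_mono (le_iff_sub.1 h)

variable [CompactSpace X]

theorem coe_clH' [Nonempty X] {S : Set X} (hS : S.Nonempty) : (clH S : Set X) = closure S := by
  unfold clH
  rw [dif_pos hS]
  rfl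

theorem coe_clH [Nonempty X] {S : Set X} (hS : S.Nonempty) (hc : IsClosed S) :
    (clH S : Set X) = S := by
  rw [coe_clH' hS, hc.closure_eq]

theorem coe_of_isGLB [T2Space X] {𝒞 : Set (NonemptyCompacts X)} (hn : 𝒞.Nonempty)
    (hch : ∀ K ∈ 𝒞, ∀ L ∈ 𝒞, K ≤ L ∨ L ≤ K) {K : NonemptyCompacts X} (h : IsGLB 𝒞 K) :
    (K : Set X) = ⋂ L ∈ 𝒞, (L : Set X) := by
  apply Set.Subset.antisymm
  · intro x hx
    simp only [Set.mem_iInter]
    intro L hL
    exact le_iff_sub.1 (h.1 hL) hx
  · have hne : (⋂ L : 𝒞, ((L : NonemptyCompacts X) : Set X)).Nonempty := by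
      have : Nonempty 𝒞 := hn.to_subtype
      refine IsCompact.nonempty_iInter_of_directed_nonempty_isCompact_isClosed _ ?_
        (fun L => L.1.nonempty) (fun L => L.1.isCompact) (fun L => L.1.isCompact.isClosed)
      intro L M
      rcases hch L.1 L.2 M.1 M.2 with h1 | h1
      · exact ⟨L, subset_rfl, le_iff_sub.1 h1⟩
      · exact ⟨M, le_iff_sub.1 h1, subset_rfl⟩
    have hcl : IsClosed (⋂ L : 𝒞, ((L : NonemptyCompacts X) : Set X)) :=
      isClosed_iInter fun L => L.1.isCompact.isClosed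
    let C : NonemptyCompacts X := ⟨⟨⋂ L : 𝒞, ((L : NonemptyCompacts X) : Set X), hcl.isCompact⟩, hne⟩
    have hC : C ∈ lowerBounds 𝒞 := by
      intro L hL
      rw [le_iff_sub]
      exact Set.iInter_subset (fun L : 𝒞 => ((L : NonemptyCompacts X) : Set X)) ⟨L, hL⟩
    have h2 : (C : Set X) ⊆ (K : Set X) := le_iff_sub.1 (h.2 hC)
    intro x hx
    apply h2
    have : x ∈ ⋂ L : 𝒞, ((L : NonemptyCompacts X) : Set X) := by
      rw [Set.mem_iInter]
      intro L
      simp only [Set.mem_iInter] at hx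
      exact hx L.1 L.2
    exact this

theorem coe_of_isLUB [T2Space X] {𝒞 : Set (NonemptyCompacts X)} (hn : 𝒞.Nonempty) {K : NonemptyCompacts X}
    (h : IsLUB 𝒞 K) : (K : Set X) = closure (⋃ L ∈ 𝒞, (L : Set X)) := by
  have hne : (⋃ L ∈ 𝒞, (L : Set X)).Nonempty := by
    obtain ⟨L, hL⟩ := hn
    obtain ⟨x, hx⟩ := L.nonempty
    exact ⟨x, Set.mem_biUnion hL hx⟩
  apply Set.Subset.antisymm
  · let C : NonemptyCompacts X :=
      ⟨⟨closure (⋃ L ∈ 𝒞, (L : Set X)), isClosed_closure.isCompact⟩, hne.closure⟩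
    have hC : C ∈ upperBounds 𝒞 := by
      intro L hL
      rw [le_iff_sub]
      intro x hx
      exact subset_closure (Set.mem_biUnion hL hx)
    exact le_iff_sub.1 (h.2 hC)
  · refine closure_minimal ?_ K.isCompact.isClosed
    intro x hx
    simp only [Set.mem_iUnion] at hx
    obtain ⟨L, hL, hx⟩ := hx
    exact le_iff_sub.1 (h.1 hL) hx

end Pool.DM
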