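import Pool.Agent.Helper84.DM.Th
import Pool.Agent.Helper84.DM.Hy

/-!
# DM-Delta: the threshold of a term on a thread of continua

`S` is a thread from `b` to `K` in the hyperspace, `e` is touched by `K` but not by `b` (so `|val e| ≤ 1` on `b`). For `ε = ±1` let
`S_ε = {d ∈ S | ∀ y ∈ d, ε * val e y ≤ 1}`: it contains `b`, it is closed
(`NonemptyCompacts.isClosed_subsets_of_isClosed`, `continuous_val`) and downward closed in `S`. Let `d_ε` be its largest element
(`exists_lub`: the least upper bound is in the closure of `S_ε`). For `d ∈ S` with `d_ε < d` there is `y ∈ d` with `1 < ε * val e y`.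

Choose `ε` with `d_ε ≤ d_{-ε} =: δ`. On `δ`, `-ε * val e ≤ 1`. For `d > δ`: `d ∉ S_{-ε}` and `d ∉ S_ε`. Finally there is `y ∈ δ` with
`1 ≤ ε * val e y`: if `d_ε < δ` this is clear. If `d_ε = δ` then `|val e| ≤ 1` on `δ`, so `δ ≠ K`; `δ` is the greatest lower bound of
`{d ∈ S | δ < d}` (`Thr.isGLB_above`), so it is in its closure (`glb_mem_closure`, `Thr.above_nonempty`); the set of the `d` that
meet the closed set `{y | 1 ≤ ε * val e y}` is closed (`NonemptyCompacts.isClosed_inter_nonempty_of_isClosed`) and contains all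
`d ∈ S` with `δ < d`, so it contains `δ`.
-/

open Set Topology TopologicalSpace

namespace Pool.DM

variable {J : Type}

private theorem delta_sup {S : Set (H J)} {b K : H J} (hS : Thr S b K) {e : Ex J}
    (hb : ¬ Nt (b : Set (U J)) e) {ε : ℝ} (hε : ε = 1 ∨ ε = -1) :
    ∃ d ∈ S, (∀ y ∈ d, ε * val e y ≤ 1) ∧
      ∀ d' ∈ S, d < d' → ∃ y ∈ d', 1 < ε * val e y := by
  let C : Set (H J) := {d | d ∈ S ∧ (d : Set (U J)) ⊆ {y | ε * val e y ≤ 1}}
  have hcl : IsClosed {y : U J | ε * val e y ≤ 1} :=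
    isClosed_le (continuous_const.mul (continuous_val e)) continuous_const
  have hC : IsClosed C :=
    hS.closed.inter (NonemptyCompacts.isClosed_subsets_of_isClosed hcl)
  have hbC : b ∈ C := by
    refine ⟨hS.left, fun y hy => ?_⟩
    have h1 : ¬ 1 < |val e y| := fun h => hb ⟨y, hy, h⟩
    have h2 := abs_le.1 (not_lt.1 h1)
    rcases hε with rfl | rfl
    · simp only [mem_setOf_eq]
      linarith [h2.2]
    · simp only [mem_setOf_eq]
      linarith [h2.1]
  obtain ⟨u, hu, huc⟩ := exists_lub (C := C)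
    (fun x hx y hy => hS.chain x hx.1 y hy.1) ⟨b, hbC⟩
  have huC : u ∈ C := hC.closure_eq ▸ huc
  refine ⟨u, huC.1, fun y hy => huC.2 hy, ?_⟩
  intro d' hd' hlt
  by_contra hcon
  push Not at hcon
  have h1 : d' ∈ C := ⟨hd', fun y hy => hcon y hy⟩
  exact absurd (hu.1 h1) (not_le_of_gt hlt)

private theorem delta_aux {S : Set (H J)} {b K : H J} (hS : Thr S b K) {e : Ex J}
    (hK : Nt (K : Set (U J)) e) {ε : ℝ} (hε : ε = 1 ∨ ε = -1) {u δ : H J}
    (hδ : δ ∈ S) (huδ : u ≤ δ)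
    (hu : ∀ y ∈ u, ε * val e y ≤ 1) (hu' : ∀ d' ∈ S, u < d' → ∃ y ∈ d', 1 < ε * val e y)
    (hd : ∀ y ∈ δ, -ε * val e y ≤ 1)
    (hd' : ∀ d' ∈ S, δ < d' → ∃ y ∈ d', 1 < -ε * val e y) :
    ∃ δ ∈ S, (∀ y ∈ δ, -1 ≤ ε * val e y) ∧ (∃ y ∈ δ, 1 ≤ ε * val e y) ∧
      ∀ d ∈ S, δ < d → (∃ y ∈ d, 1 < ε * val e y) ∧ ∃ y ∈ d, ε * val e y < -1 := by
  refine ⟨δ, hδ, ?_, ?_, ?_⟩
  · intro y hy
    have := hd y hy
    linarith
  · rcases eq_or_lt_of_le huδ with h | h
    · have hne : δ ≠ K := by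
        rintro rfl
        obtain ⟨y, hy, hy1⟩ := hK
        have h1 := hd y hy
        have h2 : ε * val e y ≤ 1 := by
          rw [← h] at hy
          exact hu y hy
        rcases hε with rfl | rfl
        · have : |val e y| ≤ 1 := abs_le.2 ⟨by linarith, by linarith⟩
          linarith
        · have : |val e y| ≤ 1 := abs_le.2 ⟨by linarith, by linarith⟩
          linarith
      have hglb := hS.isGLB_above hδ hne
      have hnon := hS.above_nonempty hδ hne
      have hmem := glb_mem_closure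
        (fun x hx y hy => hS.chain x hx.1 y hy.1) hnon hglb
      have hcl : IsClosed {y : U J | 1 ≤ ε * val e y} :=
        isClosed_le continuous_const (continuous_const.mul (continuous_val e))
      have hcl2 : IsClosed {d : H J | ((d : Set (U J)) ∩ {y : U J | 1 ≤ ε * val e y}).Nonempty} :=
        NonemptyCompacts.isClosed_inter_nonempty_of_isClosed hcl
      have hsub : {q | q ∈ S ∧ δ < q} ⊆
          {d : H J | ((d : Set (U J)) ∩ {y : U J | 1 ≤ ε * val e y}).Nonempty} := by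
        rintro q ⟨hq, hq'⟩
        obtain ⟨y, hy, hy1⟩ := hu' q hq (by rw [h]; exact hq')
        exact ⟨y, hy, hy1.le⟩
      obtain ⟨y, hy, hy1⟩ := (hcl2.closure_subset_iff.2 hsub) hmem
      exact ⟨y, hy, hy1⟩
    · obtain ⟨y, hy, hy1⟩ := hu' δ hδ h
      exact ⟨y, hy, hy1.le⟩
  · intro d hdS hlt
    refine ⟨hu' d hdS (lt_of_le_of_lt huδ hlt), ?_⟩
    obtain ⟨y, hy, hy1⟩ := hd' d hdS hlt
    exact ⟨y, hy, by linarith⟩

theorem exists_delta {S : Set (H J)} {b K : H J} (hS : Thr S b K) {e : Ex J}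
    (hK : Nt (K : Set (U J)) e) (hb : ¬ Nt (b : Set (U J)) e) :
    ∃ ε : ℝ, (ε = 1 ∨ ε = -1) ∧ ∃ δ ∈ S, (∀ y ∈ δ, -1 ≤ ε * val e y) ∧
      (∃ y ∈ δ, 1 ≤ ε * val e y) ∧
      ∀ d ∈ S, δ < d → (∃ y ∈ d, 1 < ε * val e y) ∧ ∃ y ∈ d, ε * val e y < -1 := by
  obtain ⟨u, huS, hu, hu'⟩ := delta_sup hS hb (ε := 1) (Or.inl rfl)
  obtain ⟨v, hvS, hv, hv'⟩ := delta_sup hS hb (ε := -1) (Or.inr rfl)
  rcases hS.chain u huS v hvS with h | h
  · exact ⟨1, Or.inl rfl, delta_aux hS hK (Or.inl rfl) hvS h hu hu' hv hv'⟩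
  · refine ⟨-1, Or.inr rfl, delta_aux hS hK (Or.inr rfl) huS h hv hv' ?_ ?_⟩
    · rw [neg_neg]
      exact hu
    · rw [neg_neg]
      exact hu'

end Pool.DM
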