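import Pool.Agent.Helper84.DM.LDefs

/-!
DM-E1: the recursion over the letters.

`J = J₀ ⊕ ℕ`.  `Km i = Y ∩ ⋂ {γ j (tt j i) | lt j i}` where `tt j i` is the constant value of `h j` on `{h i < 1}`.

* `exists_rec`: well-founded recursion with choice (`WellFounded.fix`, `WellFounded.fix_eq`): `R i g b` depends only on the values
  of `g` at `j` with `lt j i`.  Define `γ i := F i (fun j _ => γ j)`, `F i g := if h : ∃ b, R i (extend g) b then choose else default`
  with `extend g j := if hj : lt j i then g j hj else default`.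
* `tt_eq`: `lt k j`, `lt j i` imply `tt k j = tt k i`: `Let.ne i` gives `x` with `h i x < 1`; `h j x = tt j i < 1`, so `h k x = tt k j`, and
  `h k x = tt k i` by `lt k i`.
* `exists_edata`: `tt` by choice from `Let.const`; `γ` by `exists_rec` with
  `R i g b := ArcG .. (inl '' {j | lt j i}) (inl i) (range inr) (Km i built from g) b`.
  By well-founded induction `Gs (inl '' {j | lt j i}) (Km i)` and `ArcG` for `i`: suppose `ArcG` for all `j` with `lt j i`.
  `Km i` is the intersection of the family `K : Option {j // lt j i} → Set U`, `K none = Y`, `K (some j) = γ j (tt j i)`; every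
  member is in `Gs (inl '' {j | lt j i})`: `YSide.univ` + `mono`, `ArcG.mem` + `mono` (`insert (inl j) (inl '' {k | lt k j}) ⊆ inl '' {k | lt k i}`).
  Directed: `γ j (tt j i) ⊆ γ j 1 = Km j ⊆ Y`; for `j, k` before `i`, `j ≠ k`: with `x`, `h i x < 1` from `Let.ne`, `h j x < 1` and `h k x < 1`, so by `Let.cmp`
  `lt k j` or `lt j k`; say `lt k j`: `γ j (tt j i) ⊆ γ j 1 = Km j ⊆ γ k (tt k j) = γ k (tt k i)`.
  Then `YSide.inter`, and `YSide.arc` (`{j | lt j i}` countable by `Let.cnt`; `inl i ∉ inl '' {j | lt j i}` because `lt i i` is impossible; the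
  range of `inr` is infinite and disjoint from everything in the range of `inl`) gives the existence of `b`.
-/

set_option autoImplicit false

namespace Pool.DMX

open Set Topology

/-- `Km i = Y ∩ ⋂ {γ j (tt j i) | lt j i}` -/
def Km {J₀ U : Type} (Y : Set U) (lt : J₀ → J₀ → Prop) (tt : J₀ → J₀ → ℝ) (γ : J₀ → ℝ → Set U)
    (i : J₀) : Set U := Y ∩ ⋂ j ∈ {j | lt j i}, γ j (tt j i)

structure EData {X J₀ U T : Type} [TopologicalSpace X] [TopologicalSpace U]
    (ls : T → Set (J₀ ⊕ ℕ)) (val : T → U → ℝ)
    (Agr : Set (J₀ ⊕ ℕ) → U → U → Prop) (Gs : Set (J₀ ⊕ ℕ) → Set U → Prop) (Y : Set U)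
    (h : J₀ → X → ℝ) (lt : J₀ → J₀ → Prop) (tt : J₀ → J₀ → ℝ) (γ : J₀ → ℝ → Set U) : Prop where
  tt_mem : ∀ i j, lt i j → 0 ≤ tt i j ∧ tt i j < 1
  tt_eq : ∀ i j, lt i j → ∀ x, h j x < 1 → h i x = tt i j
  arc : ∀ i, ArcG ls val Agr Gs (Sum.inl '' {j | lt j i}) (Sum.inl i) (range Sum.inr)
    (Km Y lt tt γ i) (γ i)

theorem exists_rec {I B : Type} [Inhabited B] {lt : I → I → Prop} (wf : WellFounded lt)
    (R : I → (I → B) → B → Prop)
    (hR : ∀ i g g' b, (∀ j, lt j i → g j = g' j) → R i g b → R i g' b) :
    ∃ γ : I → B, ∀ i, (∃ b, R i γ b) → R i γ (γ i) := by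
  classical
  let ext : ∀ i : I, (∀ j, lt j i → B) → I → B := fun i g j =>
    if h : lt j i then g j h else default
  let F : ∀ i : I, (∀ j, lt j i → B) → B := fun i g =>
    if h : ∃ b, R i (ext i g) b then Classical.choose h else default
  let γ : I → B := wf.fix F
  have hγ : ∀ i, γ i = F i (fun j _ => γ j) := fun i => wf.fix_eq F i
  have hext : ∀ i j, lt j i → γ j = ext i (fun j _ => γ j) j := by
    intro i j hj
    simp only [ext, dif_pos hj]
  refine ⟨γ, fun i hi => ?_⟩
  obtain ⟨b, hb⟩ := hi
  have h1 : ∃ b, R i (ext i (fun j _ => γ j)) b := ⟨b, hR i _ _ b (hext i) hb⟩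
  have h2 : γ i = Classical.choose h1 := by
    rw [hγ i]
    simp only [F]
    rw [dif_pos h1]
  rw [h2]
  exact hR i _ _ _ (fun j hj => (hext i j hj).symm) (Classical.choose_spec h1)

theorem exists_edata {X J₀ U T : Type} [TopologicalSpace X] [TopologicalSpace U]
    {ls : T → Set (J₀ ⊕ ℕ)} {val : T → U → ℝ}
    {Agr : Set (J₀ ⊕ ℕ) → U → U → Prop} {Gs : Set (J₀ ⊕ ℕ) → Set U → Prop} {Y : Set U}
    (hY : YSide ls val Agr Gs Y) {h : J₀ → X → ℝ} {o : X} {lt : J₀ → J₀ → Prop}
    (hL : Let X J₀ h o lt) :
    ∃ (tt : J₀ → J₀ → ℝ) (γ : J₀ → ℝ → Set U), EData ls val Agr Gs Y h lt tt γ := by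
  classical
  have h0 : ∀ i j, ∃ t, lt i j → 0 ≤ t ∧ t < 1 ∧ ∀ x, h j x < 1 → h i x = t := by
    intro i j
    by_cases hij : lt i j
    · obtain ⟨t, ht⟩ := hL.const i j hij
      exact ⟨t, fun _ => ht⟩
    · exact ⟨0, fun h' => absurd h' hij⟩
  choose tt htt using h0
  have hKm : ∀ i (g g' : J₀ → ℝ → Set U), (∀ j, lt j i → g j = g' j) →
      Km Y lt tt g i = Km Y lt tt g' i := by
    intro i g g' hg
    unfold Km
    congr 1
    refine Set.iInter₂_congr fun j hj => ?_
    rw [hg j hj]
  obtain ⟨γ, hγ⟩ := exists_rec hL.wf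
    (fun i g b => ArcG ls val Agr Gs (Sum.inl '' {j | lt j i}) (Sum.inl i) (range Sum.inr)
      (Km Y lt tt g i) b)
    (by
      intro i g g' b hg hb
      rw [← hKm i g g' hg]
      exact hb)
  have irr : ∀ i, ¬ lt i i := by
    intro i hi
    obtain ⟨x, hx, hm⟩ := hL.wf.has_min {i} ⟨i, rfl⟩
    rw [Set.mem_singleton_iff] at hx
    subst hx
    exact hm x rfl hi
  have key : ∀ i, Gs (Sum.inl '' {j | lt j i}) (Km Y lt tt γ i) ∧
      ArcG ls val Agr Gs (Sum.inl '' {j | lt j i}) (Sum.inl i) (range Sum.inr)
        (Km Y lt tt γ i) (γ i) := by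
    intro i
    induction i using hL.wf.induction with
    | h i ih =>
      -- values
      obtain ⟨x, hx⟩ := hL.ne i
      have hval : ∀ j, lt j i → h j x = tt j i ∧ h j x < 1 := by
        intro j hj
        have := htt j i hj
        exact ⟨this.2.2 x hx, by rw [this.2.2 x hx]; exact this.2.1⟩
      have hle : ∀ j, lt j i → γ j (tt j i) ⊆ Km Y lt tt γ j := by
        intro j hj
        have h1 := (ih j hj).2
        rw [← h1.one]
        exact h1.mono _ _ (htt j i hj).1 (htt j i hj).2.1.le le_rfl
      have hG : Gs (Sum.inl '' {j | lt j i}) (Km Y lt tt γ i) := by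
        let K : Option {j // lt j i} → Set U := fun a => a.elim Y (fun j => γ j.1 (tt j.1 i))
        have hK : Km Y lt tt γ i = ⋂ a, K a := by
          ext u
          simp only [Km, Set.mem_inter_iff, Set.mem_iInter]
          constructor
          · rintro ⟨h1, h2⟩ a
            cases a with
            | none => exact h1
            | some j => exact h2 j.1 j.2
          · intro h1
            exact ⟨h1 none, fun j hj => h1 (some ⟨j, hj⟩)⟩
        rw [hK]
        apply hY.inter
        · intro a b
          cases a with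
          | none =>
            cases b with
            | none => exact ⟨none, le_rfl, le_rfl⟩
            | some k =>
              exact ⟨some k, (hle k.1 k.2).trans Set.inter_subset_left, le_rfl⟩
          | some j =>
            cases b with
            | none =>
              exact ⟨some j, le_rfl, (hle j.1 j.2).trans Set.inter_subset_left⟩
            | some k =>
              by_cases hjk : j.1 = k.1
              · have : j = k := Subtype.ext hjk
                subst this
                exact ⟨some j, le_rfl, le_rfl⟩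
              · have main : ∀ j k : {j // lt j i}, lt j.1 k.1 → K (some k) ⊆ K (some j) := by
                  intro j k hjk
                  have e1 : tt j.1 k.1 = tt j.1 i := by
                    rw [← (htt j.1 k.1 hjk).2.2 x (hval k.1 k.2).2]
                    exact (hval j.1 j.2).1
                  have h1 : K (some k) ⊆ Km Y lt tt γ k.1 := hle k.1 k.2
                  refine h1.trans ?_
                  intro u hu
                  have h2 : u ∈ ⋂ j ∈ {j | lt j k.1}, γ j (tt j k.1) := hu.2
                  have h3 := Set.mem_iInter₂.mp h2 j.1 hjk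
                  change u ∈ γ j.1 (tt j.1 i)
                  rw [← e1]
                  exact h3
                rcases hL.cmp j.1 k.1 x hjk (hval j.1 j.2).2 (hval k.1 k.2).2 with h1 | h1
                · exact ⟨some k, main j k h1, le_rfl⟩
                · exact ⟨some j, le_rfl, main k j h1⟩
        · intro a
          cases a with
          | none => exact hY.mono ∅ _ Y (Set.empty_subset _) hY.univ
          | some j =>
            have h1 := (ih j.1 j.2).2.mem (tt j.1 i) (htt j.1 i j.2).1 (htt j.1 i j.2).2.1.le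
            refine hY.mono _ _ _ ?_ h1
            rintro _ (rfl | ⟨k, hk, rfl⟩)
            · exact ⟨j.1, j.2, rfl⟩
            · exact ⟨k, hL.trans k j.1 i hk j.2, rfl⟩
      refine ⟨hG, hγ i ?_⟩
      apply hY.arc
      · exact (hL.cnt i).image _
      · rintro ⟨j, hj, hji⟩
        rw [Sum.inl_injective hji] at hj
        exact irr i hj
      · exact Set.infinite_range_of_injective Sum.inr_injective
      · rw [Set.disjoint_left]
        rintro _ ⟨n, rfl⟩ h1
        rcases h1 with h1 | ⟨j, -, h1⟩
        · cases h1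
        · cases h1
      · exact hG
  exact ⟨tt, γ, fun i j hij => ⟨(htt i j hij).1, (htt i j hij).2.1⟩,
    fun i j hij => (htt i j hij).2.2, fun i => (key i).2⟩

end Pool.DMX
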