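import Pool.Agent.Helper84.DM.E1

/-!
DM-E2: the sets `fC C x = Y ∩ ⋂ {γ i (h i x) | i ∈ C}`.

* `gam_sub`: `γ i t ⊆ Y` for `0 ≤ t ≤ 1` (`ArcG.mem`, `YSide.sub`).
* `gam_chain`: `lt i j`, `h j x < 1`: `h i x = tt i j`, so `γ j (h j x) ⊆ γ j 1 = Km j ⊆ γ i (tt i j) = γ i (h i x)`.
* `gam_cmp`: `h i x < 1`, `h j x < 1`: one of `γ i (h i x)`, `γ j (h j x)` contains the other (`Let.cmp`, `gam_chain`).
* `fC_gs`: `C ⊆ {i | h i x < 1}`: `Gs univ (fC C x)`: intersection of the directed family over `Option C` (`YSide.inter`, `YSide.mono`).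
* `Km_eq`: `h i x < 1 → Km i = fC {j | lt j i} x` (by `EData.tt_eq`).
* `gam_eq`: `h i x < 1 → γ i (h i x) = fC (insert i {j | lt j i}) x` (`γ i (h i x) ⊆ γ i 1 = Km i`).
-/

set_option autoImplicit false

namespace Pool.DMX

open Set Topology

def fC {X J₀ U : Type} (Y : Set U) (h : J₀ → X → ℝ) (γ : J₀ → ℝ → Set U) (C : Set J₀) (x : X) :
    Set U := Y ∩ ⋂ i ∈ C, γ i (h i x)

section

variable {X J₀ U T : Type} [TopologicalSpace X] [TopologicalSpace U]
  {ls : T → Set (J₀ ⊕ ℕ)} {val : T → U → ℝ}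
  {Agr : Set (J₀ ⊕ ℕ) → U → U → Prop} {Gs : Set (J₀ ⊕ ℕ) → Set U → Prop} {Y : Set U}
  (hY : YSide ls val Agr Gs Y) {h : J₀ → X → ℝ} {o : X} {lt : J₀ → J₀ → Prop}
  (hL : Let X J₀ h o lt) {tt : J₀ → J₀ → ℝ} {γ : J₀ → ℝ → Set U}
  (hE : EData ls val Agr Gs Y h lt tt γ)

include hY hL hE

theorem gam_gs (i : J₀) (x : X) : Gs univ (γ i (h i x)) := by
  exact hY.mono _ _ _ (subset_univ _) ((hE.arc i).mem _ (hL.mem i x).1 (hL.mem i x).2)

theorem gam_sub (i : J₀) (x : X) : γ i (h i x) ⊆ Y := by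
  exact hY.sub _ _ (gam_gs hY hL hE i x)

theorem gam_closed (i : J₀) (x : X) : IsClosed (γ i (h i x)) := by
  exact hY.closed _ _ (gam_gs hY hL hE i x)

theorem gam_chain {i j : J₀} (hij : lt i j) {x : X} (hx : h j x < 1) :
    γ j (h j x) ⊆ γ i (h i x) := by
  have h1 : h i x = tt i j := hE.tt_eq i j hij x hx
  have h2 : γ j (h j x) ⊆ γ j 1 := (hE.arc j).mono _ _ (hL.mem j x).1 (hL.mem j x).2 le_rfl
  rw [(hE.arc j).one] at h2
  intro y hy
  have h3 := (h2 hy).2
  rw [mem_iInter₂] at h3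
  rw [h1]
  exact h3 i hij

theorem gam_cmp {i j : J₀} {x : X} (hi : h i x < 1) (hj : h j x < 1) :
    γ j (h j x) ⊆ γ i (h i x) ∨ γ i (h i x) ⊆ γ j (h j x) := by
  by_cases hne : i = j
  · subst hne
    exact Or.inl subset_rfl
  · rcases hL.cmp i j x hne hi hj with h1 | h1
    · exact Or.inl (gam_chain hY hL hE h1 hj)
    · exact Or.inr (gam_chain hY hL hE h1 hi)

theorem fC_gs {C : Set J₀} {x : X} (hC : ∀ i ∈ C, h i x < 1) : Gs univ (fC Y h γ C x) := by
  let K : Option C → Set U := fun a => match a with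
    | none => Y
    | some i => γ i.1 (h i.1 x)
  have hK : fC Y h γ C x = ⋂ a, K a := by
    ext y
    unfold fC
    rw [mem_inter_iff, mem_iInter₂, mem_iInter]
    constructor
    · rintro ⟨h1, h2⟩ a
      match a with
      | none => exact h1
      | some i => exact h2 i.1 i.2
    · intro h1
      exact ⟨h1 none, fun i hi => h1 (some ⟨i, hi⟩)⟩
  rw [hK]
  refine hY.inter (Option C) univ K ?_ ?_
  · intro a b
    match a, b with
    | none, none => exact ⟨none, subset_rfl, subset_rfl⟩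
    | none, some i => exact ⟨some i, gam_sub hY hL hE _ _, subset_rfl⟩
    | some i, none => exact ⟨some i, subset_rfl, gam_sub hY hL hE _ _⟩
    | some i, some j =>
      rcases gam_cmp hY hL hE (hC i.1 i.2) (hC j.1 j.2) with h1 | h1
      · exact ⟨some j, h1, subset_rfl⟩
      · exact ⟨some i, subset_rfl, h1⟩
  · intro a
    match a with
    | none => exact hY.mono _ _ _ (subset_univ _) hY.univ
    | some i => exact gam_gs hY hL hE _ _

theorem Km_eq {i : J₀} {x : X} (hx : h i x < 1) :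
    Km Y lt tt γ i = fC Y h γ {j | lt j i} x := by
  unfold Km fC
  congr 1
  apply iInter₂_congr
  intro j hj
  rw [hE.tt_eq j i hj x hx]

theorem gam_eq {i : J₀} {x : X} (hx : h i x < 1) :
    γ i (h i x) = fC Y h γ (insert i {j | lt j i}) x := by
  apply Subset.antisymm
  · intro y hy
    refine ⟨gam_sub hY hL hE _ _ hy, ?_⟩
    rw [mem_iInter₂]
    intro j hj
    rw [mem_insert_iff] at hj
    rcases hj with hj | hj
    · rw [hj]; exact hy
    · exact gam_chain hY hL hE hj hx hy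
  · intro y hy
    have h1 := hy.2
    rw [mem_iInter₂] at h1
    exact h1 i (mem_insert _ _)

end

end Pool.DMX
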