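import Pool.Agent.Helper84.DM.E2

/-!
DM-E3: agreement.

`C ⊆ C' ⊆ P(x) = {i | h i x < 1}` initial segments, `S` a set of letters with `inl i ∉ S` for all `i ∈ C' \ C`.  For every
`y ∈ fC C x` there is `y' ∈ fC C' x` with `Agr S y y'`.

* `chain_compact`: `A : ι → Set U` closed, nonempty, pairwise comparable (`A a ⊆ A b ∨ A b ⊆ A a`), `ι` nonempty, `U` compact: `(⋂ a, A a).Nonempty`
  (`IsCompact.nonempty_iInter_of_directed_nonempty_isCompact_isClosed` / `IsCompact.nonempty_iInter_of_...`).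
* `agree_one`: for `i ∈ C' \ C`: `∃ y' ∈ γ i (h i x), Agr S y y'`, by well-founded induction on `i`.  `{j | lt j i} ⊇ C`: for `j ∈ C`: `j ≠ i`, `lt i j` is impossible
  (`C` initial), so `lt j i` (`Let.cmp`).  `Km i = fC {j | lt j i} x` (`Km_eq`).  There is `y'' ∈ Km i` with `Agr S y y''`: if `{j | lt j i}` is empty take `y`;
  otherwise the sets `{z ∈ γ j (h j x) | Agr S y z}`, `lt j i`, are closed, nonempty (`j ∈ C`: `y` itself; `j ∉ C`: `j ∈ C'` as `C'` is initial, induction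
  hypothesis) and pairwise comparable (`gam_cmp`), so `chain_compact`.  `ArcG.agr` gives `y' ∈ γ i 0 ⊆ γ i (h i x)` (`ArcG.mono`) with
  `Agr {inl i}ᶜ y'' y'`, so `Agr S y'' y'` (`agr_anti`, `inl i ∉ S`) and `Agr S y y'` (`agr_trans`).
* `agree`: the same compactness argument for the family `{z ∈ γ i (h i x) | Agr S y z}`, `i ∈ C'` (`C'` empty: `y` itself).
-/

set_option autoImplicit false

namespace Pool.DMX

open Set Topology

theorem chain_compact {U ι : Type} [TopologicalSpace U] [CompactSpace U] [Nonempty ι]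
    (A : ι → Set U) (hc : ∀ a, IsClosed (A a)) (hn : ∀ a, (A a).Nonempty)
    (hd : ∀ a b, A a ⊆ A b ∨ A b ⊆ A a) : (⋂ a, A a).Nonempty := by
  refine IsCompact.nonempty_iInter_of_directed_nonempty_isCompact_isClosed A ?_ hn
    (fun a => (hc a).isCompact) hc
  intro a b
  rcases hd a b with hab | hab
  · exact ⟨a, subset_rfl, hab⟩
  · exact ⟨b, hab, subset_rfl⟩

section

variable {X J₀ U T : Type} [TopologicalSpace X] [TopologicalSpace U] [CompactSpace U]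
  {ls : T → Set (J₀ ⊕ ℕ)} {val : T → U → ℝ}
  {Agr : Set (J₀ ⊕ ℕ) → U → U → Prop} {Gs : Set (J₀ ⊕ ℕ) → Set U → Prop} {Y : Set U}
  (hY : YSide ls val Agr Gs Y) {h : J₀ → X → ℝ} {o : X} {lt : J₀ → J₀ → Prop}
  (hL : Let X J₀ h o lt) {tt : J₀ → J₀ → ℝ} {γ : J₀ → ℝ → Set U}
  (hE : EData ls val Agr Gs Y h lt tt γ)

include hY hL hE

theorem agree_one {C C' : Set J₀} {x : X} {S : Set (J₀ ⊕ ℕ)} (hCC : C ⊆ C')
    (hC' : ∀ i ∈ C', h i x < 1) (hi : ∀ i ∈ C, ∀ j, lt j i → j ∈ C)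
    (hi' : ∀ i ∈ C', ∀ j, lt j i → j ∈ C') (hS : ∀ i ∈ C', i ∉ C → Sum.inl i ∉ S)
    {y : U} (hy : y ∈ fC Y h γ C x) (i : J₀) (hiC : i ∈ C') (hiC' : i ∉ C) :
    ∃ y' ∈ γ i (h i x), Agr S y y' := by
  revert hiC hiC'
  refine hL.wf.induction
    (C := fun i => i ∈ C' → i ∉ C → ∃ y' ∈ γ i (h i x), Agr S y y') i ?_
  intro i ih hiC hiC'
  have hyY : y ∈ Y := hy.1
  have hyC : ∀ j ∈ C, y ∈ γ j (h j x) := fun j hj => mem_iInter₂.1 hy.2 j hj
  obtain ⟨y2, hy2, ha2⟩ : ∃ y2 ∈ Km Y lt tt γ i, Agr S y y2 := by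
    by_cases hne : Nonempty {j // lt j i}
    · have hcl : ∀ a : {j // lt j i}, IsClosed {z | z ∈ γ a.1 (h a.1 x) ∧ Agr S y z} := by
        intro a
        exact (gam_closed hY hL hE a.1 x).inter (hY.agr_closed S y)
      have hnn : ∀ a : {j // lt j i}, {z | z ∈ γ a.1 (h a.1 x) ∧ Agr S y z}.Nonempty := by
        intro a
        by_cases haC : a.1 ∈ C
        · exact ⟨y, hyC a.1 haC, hY.agr_refl S y⟩
        · obtain ⟨z, hz, hz'⟩ := ih a.1 a.2 (hi' i hiC a.1 a.2) haC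
          exact ⟨z, hz, hz'⟩
      have hcmp : ∀ a b : {j // lt j i},
          {z | z ∈ γ a.1 (h a.1 x) ∧ Agr S y z} ⊆ {z | z ∈ γ b.1 (h b.1 x) ∧ Agr S y z} ∨
          {z | z ∈ γ b.1 (h b.1 x) ∧ Agr S y z} ⊆ {z | z ∈ γ a.1 (h a.1 x) ∧ Agr S y z} := by
        intro a b
        have h1 : h a.1 x < 1 := hC' _ (hi' i hiC a.1 a.2)
        have h2 : h b.1 x < 1 := hC' _ (hi' i hiC b.1 b.2)
        rcases gam_cmp hY hL hE h1 h2 with hab | hab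
        · right
          exact fun z hz => ⟨hab hz.1, hz.2⟩
        · left
          exact fun z hz => ⟨hab hz.1, hz.2⟩
      obtain ⟨z, hz⟩ := chain_compact
        (fun a : {j // lt j i} => {z | z ∈ γ a.1 (h a.1 x) ∧ Agr S y z}) hcl hnn hcmp
      have hz' : ∀ a : {j // lt j i}, z ∈ γ a.1 (h a.1 x) ∧ Agr S y z :=
        fun a => mem_iInter.1 hz a
      obtain ⟨a0⟩ := hne
      refine ⟨z, ?_, (hz' a0).2⟩
      rw [Km_eq hY hL hE (hC' i hiC)]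
      refine ⟨gam_sub hY hL hE a0.1 x (hz' a0).1, ?_⟩
      refine mem_iInter₂.2 ?_
      intro j hj
      exact (hz' ⟨j, hj⟩).1
    · refine ⟨y, ?_, hY.agr_refl S y⟩
      rw [Km_eq hY hL hE (hC' i hiC)]
      refine ⟨hyY, ?_⟩
      refine mem_iInter₂.2 ?_
      intro j hj
      exact absurd ⟨⟨j, hj⟩⟩ hne
  have harc := hE.arc i
  obtain ⟨y3, hy3, ha3⟩ := harc.agr y2 hy2
  refine ⟨y3, harc.mono 0 (h i x) le_rfl (hL.mem i x).1 (hL.mem i x).2 hy3, ?_⟩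
  refine hY.agr_trans S y y2 y3 ha2 (hY.agr_anti S {Sum.inl i}ᶜ y2 y3 ?_ ha3)
  intro s hs
  rw [mem_compl_iff, mem_singleton_iff]
  rintro rfl
  exact hS i hiC hiC' hs

theorem agree {C C' : Set J₀} {x : X} {S : Set (J₀ ⊕ ℕ)} (hCC : C ⊆ C')
    (hC' : ∀ i ∈ C', h i x < 1) (hi : ∀ i ∈ C, ∀ j, lt j i → j ∈ C)
    (hi' : ∀ i ∈ C', ∀ j, lt j i → j ∈ C') (hS : ∀ i ∈ C', i ∉ C → Sum.inl i ∉ S)
    {y : U} (hy : y ∈ fC Y h γ C x) : ∃ y' ∈ fC Y h γ C' x, Agr S y y' := by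
  have hyY : y ∈ Y := hy.1
  have hyC : ∀ j ∈ C, y ∈ γ j (h j x) := fun j hj => mem_iInter₂.1 hy.2 j hj
  by_cases hne : Nonempty {j // j ∈ C'}
  · have hcl : ∀ a : {j // j ∈ C'}, IsClosed {z | z ∈ γ a.1 (h a.1 x) ∧ Agr S y z} := by
      intro a
      exact (gam_closed hY hL hE a.1 x).inter (hY.agr_closed S y)
    have hnn : ∀ a : {j // j ∈ C'}, {z | z ∈ γ a.1 (h a.1 x) ∧ Agr S y z}.Nonempty := by
      intro a
      by_cases haC : a.1 ∈ C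
      · exact ⟨y, hyC a.1 haC, hY.agr_refl S y⟩
      · obtain ⟨z, hz, hz'⟩ := agree_one hY hL hE hCC hC' hi hi' hS hy a.1 a.2 haC
        exact ⟨z, hz, hz'⟩
    have hcmp : ∀ a b : {j // j ∈ C'},
        {z | z ∈ γ a.1 (h a.1 x) ∧ Agr S y z} ⊆ {z | z ∈ γ b.1 (h b.1 x) ∧ Agr S y z} ∨
        {z | z ∈ γ b.1 (h b.1 x) ∧ Agr S y z} ⊆ {z | z ∈ γ a.1 (h a.1 x) ∧ Agr S y z} := by
      intro a b
      rcases gam_cmp hY hL hE (hC' _ a.2) (hC' _ b.2) with hab | hab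
      · right
        exact fun z hz => ⟨hab hz.1, hz.2⟩
      · left
        exact fun z hz => ⟨hab hz.1, hz.2⟩
    obtain ⟨z, hz⟩ := chain_compact
      (fun a : {j // j ∈ C'} => {z | z ∈ γ a.1 (h a.1 x) ∧ Agr S y z}) hcl hnn hcmp
    have hz' : ∀ a : {j // j ∈ C'}, z ∈ γ a.1 (h a.1 x) ∧ Agr S y z :=
      fun a => mem_iInter.1 hz a
    obtain ⟨a0⟩ := hne
    refine ⟨z, ⟨gam_sub hY hL hE a0.1 x (hz' a0).1, ?_⟩, (hz' a0).2⟩
    refine mem_iInter₂.2 ?_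
    intro j hj
    exact (hz' ⟨j, hj⟩).1
  · refine ⟨y, ⟨hyY, ?_⟩, hY.agr_refl S y⟩
    refine mem_iInter₂.2 ?_
    intro j hj
    exact absurd ⟨⟨j, hj⟩⟩ hne

end

end Pool.DMX
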