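import Pool.Agent.Helper84.DM.E3

/-!
DM-E4: upper semicontinuity of `ff x = fC {i | h i x < 1} x`.

`ff x ⊆ V`, `V` open.  If no `i` has `h i x < 1` then `ff x = Y`, and `ff x' ⊆ Y ⊆ V` for all `x'`.  Otherwise the closed sets `γ i (h i x) \ V` (`h i x < 1`)
are pairwise comparable with empty intersection (every one is inside `Y`), so one of them is empty (`chain_compact`): `γ i (h i x) ⊆ V`. By `ArcG.upper`
and the continuity of `h i`: `γ i (h i x') ⊆ V` and `h i x' < 1` for `x'` near `x`, and `ff x' ⊆ γ i (h i x')`.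
-/

set_option autoImplicit false

namespace Pool.DMX

open Set Topology

def ff {X J₀ U : Type} (Y : Set U) (h : J₀ → X → ℝ) (γ : J₀ → ℝ → Set U) (x : X) : Set U :=
  fC Y h γ {i | h i x < 1} x

section

variable {X J₀ U T : Type} [TopologicalSpace X] [TopologicalSpace U] [CompactSpace U]
  {ls : T → Set (J₀ ⊕ ℕ)} {val : T → U → ℝ}
  {Agr : Set (J₀ ⊕ ℕ) → U → U → Prop} {Gs : Set (J₀ ⊕ ℕ) → Set U → Prop} {Y : Set U}
  (hY : YSide ls val Agr Gs Y) {h : J₀ → X → ℝ} {o : X} {lt : J₀ → J₀ → Prop}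
  (hL : Let X J₀ h o lt) {tt : J₀ → J₀ → ℝ} {γ : J₀ → ℝ → Set U}
  (hE : EData ls val Agr Gs Y h lt tt γ)

include hY hL hE

theorem ff_gs (x : X) : Gs univ (ff Y h γ x) := fC_gs hY hL hE fun _ hi => hi

theorem ff_upper {V : Set U} (hV : IsOpen V) : IsOpen {x | ff Y h γ x ⊆ V} := by
  rw [isOpen_iff_mem_nhds]
  intro x hx
  have hx' : ff Y h γ x ⊆ V := hx
  by_cases hne : ∃ i, h i x < 1
  · obtain ⟨i₀, hi₀⟩ := hne
    have key : ∃ i, h i x < 1 ∧ γ i (h i x) ⊆ V := by
      by_contra hcon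
      push Not at hcon
      haveI : Nonempty {i // h i x < 1} := ⟨⟨i₀, hi₀⟩⟩
      obtain ⟨y, hy⟩ := chain_compact (fun i : {i // h i x < 1} => γ i.1 (h i.1 x) \ V)
        (fun i => (gam_closed hY hL hE i.1 x).sdiff hV)
        (fun i => by
          obtain ⟨y, hy1, hy2⟩ := Set.not_subset.1 (hcon i.1 i.2)
          exact ⟨y, hy1, hy2⟩)
        (fun i j => by
          rcases gam_cmp hY hL hE i.2 j.2 with h1 | h1
          · exact Or.inr (Set.diff_subset_diff_left h1)
          · exact Or.inl (Set.diff_subset_diff_left h1))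
      rw [Set.mem_iInter] at hy
      refine (hy ⟨i₀, hi₀⟩).2 (hx' ⟨gam_sub hY hL hE i₀ x (hy ⟨i₀, hi₀⟩).1, ?_⟩)
      rw [Set.mem_iInter₂]
      intro i hi
      exact (hy ⟨i, hi⟩).1
    obtain ⟨i, hi, hiV⟩ := key
    obtain ⟨δ, hδ, hup⟩ := (hE.arc i).upper (h i x) (hL.mem i x).1 (hL.mem i x).2 V hV hiV
    have h1 : ∀ᶠ x' in 𝓝 x, |h i x' - h i x| < δ := by
      have := Metric.continuous_iff'.1 (hL.cont i) x δ hδ
      filter_upwards [this] with x' hx'
      rwa [Real.dist_eq] at hx'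
    have h2 : ∀ᶠ x' in 𝓝 x, h i x' < 1 := (hL.cont i).continuousAt.eventually_lt_const hi
    filter_upwards [h1, h2] with x' hx1 hx2
    intro y hy
    refine hup (h i x') (hL.mem i x').1 (hL.mem i x').2 hx1 ?_
    have hy2 := hy.2
    rw [Set.mem_iInter₂] at hy2
    exact hy2 i hx2
  · push Not at hne
    have hYV : Y ⊆ V := by
      intro y hy
      refine hx' ⟨hy, ?_⟩
      rw [Set.mem_iInter₂]
      intro i hi
      exact absurd hi (not_lt.2 (hne i))
    exact Filter.Eventually.of_forall fun x' y hy => hYV hy.1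

end

end Pool.DMX
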