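import Pool.Agent.Helper84.DM.E5a

/-!
DM-E5 (`ff_lower`): lower semicontinuity.

Let `y ∈ ff x ∩ V`, `S, V'` from `YSide.nbhd`, `S₀ := {i | inl i ∈ S}` finite, `P x := {i | h i x < 1}`.
`k` := the `lt`-largest element of `P x ∩ S₀` if there is one (`Let.cmp` makes it a chain), `B := γ k (h k x)`; `B := Y` if `P x ∩ S₀ = ∅`. `y ∈ ff x ⊆ B`.
For `x'` in a neighbourhood of `x` (finitely many conditions):
 (n1) `h i x' < 1` for all `i ∈ P x ∩ S₀`;
 (n2) for `i ∈ S₀` with `x ∉ closure {h i < 1}`: `h i x' = 1` (not `< 1`);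
 (n3) `γ k (h k x') ∩ V' ≠ ∅` (`ArcG.lower` at `h k x`);
 (n4) for `m ∈ S₀` with `h m x = 1` and `(γ m 1 ∩ V').Nonempty`: `(γ m (h m x') ∩ V').Nonempty` (`ArcG.lower` at `1`).
`lower_core` (the combinatorial part): (n1)-(n4) imply `(ff x' ∩ V').Nonempty`:
 Case a: `P x' ∩ S₀ ⊆ P x ∩ S₀`: `agree` at `x'` with `C = insert k {j | lt j k}` (or `∅`), `C' = P x'`: `i ∈ P x' \ C` implies `inl i ∉ S`, since `i ∈ S₀` would give
   `i ∈ P x ∩ S₀`, so `i = k` or `lt i k`.  `γ k (h k x') = fC C x'` (`gam_eq`) meets `V'` in some `z`, so `z' ∈ ff x'` with `Agr S z z'`, `z' ∈ V'`.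
   (`C = ∅`: `z = y ∈ Y = fC ∅ x'`.)
 Case b: otherwise let `m` be the `lt`-largest element of `P x' ∩ S₀`; some `i ∈ P x' ∩ S₀` is not in `P x` (`h i x = 1`).
   `m ∉ P x`: otherwise `lt i m`, `h i = tt i m` on `{h m < 1} ∋ x`, so `h i x < 1`, contradiction. So `h m x = 1`, and `x ∈ closure {h m < 1}` by (n2).
   Every `i ∈ P x' ∩ S₀`, `i ≠ m` is in `P x`: `lt i m`, `h i = tt i m` on `{h m < 1}` so also at `x` (closure, continuity): `h i x = tt i m < 1`.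
   `γ m 1 = Km m = fC {j | lt j m} x'` (`Km_eq`). It meets `V'`: if `P x ∩ S₀ = ∅`: `agree` at `x'` with `C = ∅`, `C' = {j | lt j m}`, point `y ∈ Y`.
   Otherwise `k ∈ P x' ∩ S₀` (n1), `k ≠ m`, `lt k m`, `h k x' = tt k m = h k x`; so `fC (insert k {j | lt j k}) x' = γ k (h k x') = γ k (h k x) ∋ y`; `agree` at `x'` with
   `C = insert k {j | lt j k}`, `C' = {j | lt j m}`, point `y` (for `i` with `lt i m`, `inl i ∈ S`: `i ∈ P x' ∩ S₀`, `i ≠ m`, so `i ∈ P x ∩ S₀`, so `i ∈ C`).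
   By (n4) `γ m (h m x')` meets `V'` in some `z`; `agree` at `x'` with `C = insert m {j | lt j m}`, `C' = P x'`, point `z ∈ γ m (h m x') = fC C x'`.
-/

set_option autoImplicit false

namespace Pool.DMX

open Set Topology

section

variable {X J₀ U T : Type} [TopologicalSpace X] [TopologicalSpace U] [CompactSpace U]
  {ls : T → Set (J₀ ⊕ ℕ)} {val : T → U → ℝ}
  {Agr : Set (J₀ ⊕ ℕ) → U → U → Prop} {Gs : Set (J₀ ⊕ ℕ) → Set U → Prop} {Y : Set U}
  (hY : YSide ls val Agr Gs Y) {h : J₀ → X → ℝ} {o : X} {lt : J₀ → J₀ → Prop}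
  (hL : Let X J₀ h o lt) {tt : J₀ → J₀ → ℝ} {γ : J₀ → ℝ → Set U}
  (hE : EData ls val Agr Gs Y h lt tt γ)

include hY hL hE

theorem ff_lower {V : Set U} (hV : IsOpen V) : IsOpen {x | (ff Y h γ x ∩ V).Nonempty} := by
  rw [isOpen_iff_mem_nhds]
  intro x hx
  obtain ⟨y, hy, hyV⟩ : (ff Y h γ x ∩ V).Nonempty := hx
  obtain ⟨S, V', hS, hV'o, hyV', hV'V, hAgr⟩ := hY.nbhd V y hV hyV
  have hS0 : {i : J₀ | Sum.inl i ∈ S}.Finite := hS.preimage Sum.inl_injective.injOn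
  have hlow : ∀ i : J₀, (γ i (h i x) ∩ V').Nonempty →
      ∀ᶠ x' in 𝓝 x, (γ i (h i x') ∩ V').Nonempty := by
    intro i hne
    obtain ⟨δ, hδ, hδ'⟩ := (hE.arc i).lower (h i x) (hL.mem i x).1 (hL.mem i x).2 V' hV'o hne
    have h1 := Metric.continuous_iff'.1 (hL.cont i) x δ hδ
    filter_upwards [h1] with x' hx'
    exact hδ' (h i x') (hL.mem i x').1 (hL.mem i x').2 (by rwa [Real.dist_eq] at hx')
  have e1 : ∀ᶠ x' in 𝓝 x, ∀ i ∈ {i : J₀ | Sum.inl i ∈ S}, h i x < 1 → h i x' < 1 := by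
    rw [Filter.eventually_all_finite hS0]
    intro i _
    by_cases hi : h i x < 1
    · filter_upwards [(hL.cont i).continuousAt.eventually_lt continuousAt_const hi] with x' hx' _
      exact hx'
    · exact Filter.Eventually.of_forall fun x' h' => absurd h' hi
  have e2 : ∀ᶠ x' in 𝓝 x, ∀ i ∈ {i : J₀ | Sum.inl i ∈ S}, h i x' < 1 →
      x ∈ closure {z | h i z < 1} := by
    rw [Filter.eventually_all_finite hS0]
    intro i _
    by_cases hi : x ∈ closure {z | h i z < 1}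
    · exact Filter.Eventually.of_forall fun x' _ => hi
    · filter_upwards [isClosed_closure.isOpen_compl.mem_nhds hi] with x' hx' h'
      have h2 : x' ∈ {z | h i z < 1} := h'
      exact absurd (subset_closure h2) hx'
  have e3 : ∀ᶠ x' in 𝓝 x, ∀ i ∈ {i : J₀ | Sum.inl i ∈ S}, h i x < 1 →
      (γ i (h i x') ∩ V').Nonempty := by
    rw [Filter.eventually_all_finite hS0]
    intro i _
    by_cases hi : h i x < 1
    · filter_upwards [hlow i ⟨y, Set.mem_iInter₂.1 hy.2 i hi, hyV'⟩] with x' hx' _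
      exact hx'
    · exact Filter.Eventually.of_forall fun x' h' => absurd h' hi
  have e4 : ∀ᶠ x' in 𝓝 x, ∀ i ∈ {i : J₀ | Sum.inl i ∈ S}, (γ i 1 ∩ V').Nonempty → h i x = 1 →
      (γ i (h i x') ∩ V').Nonempty := by
    rw [Filter.eventually_all_finite hS0]
    intro i _
    by_cases hi : (γ i 1 ∩ V').Nonempty ∧ h i x = 1
    · have h1 : (γ i (h i x) ∩ V').Nonempty := by rw [hi.2]; exact hi.1
      filter_upwards [hlow i h1] with x' hx' _ _
      exact hx'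
    · exact Filter.Eventually.of_forall fun x' h1 h2 => absurd ⟨h1, h2⟩ hi
  filter_upwards [e1, e2, e3, e4] with x' n1 n2 n3 n4
  obtain ⟨z, hz, hzV⟩ := lower_core hY hL hE hAgr hS hy hyV' (fun i hi => n1 i hi)
    (fun i hi => n2 i hi) (fun i hi => n3 i hi) (fun i hi => n4 i hi)
  exact ⟨z, hz, hV'V hzV⟩

end

end Pool.DMX
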