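import Pool.Agent.Helper84.DM.E4

/-!
DM-E5a (`exists_largest`, `lower_core`): lower semicontinuity.

Let `y ∈ ff x ∩ V`, `S, V'` from `YSide.nbhd`, `S₀ := {i | inl i ∈ S}` finite, `P x := {i | h i x < 1}`.
`k` := the `lt`-largest element of `P x ∩ S₀` if there is one (`Let.cmp` makes it a chain), `B := γ k (h k x)`; `B := Y` if `P x ∩ S₀ = ∅`. `y ∈ ff x ⊆ B`.
For `x'` in a neighbourhood of `x` (finitely many conditions):
 (n1) `h i x' < 1` for all `i ∈ P x ∩ S₀`;
 (n2) for `i ∈ S₀` with `x ∉ closure {h i < 1}`: `h i x' = 1` (not `< 1`);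
 (n3) `γ k (h k x') ∩ V' ≠ ∅` (`ArcG.lower` at `h k x`);
 (n4) for `m ∈ S₀` with `h m x = 1` and `(γ m 1 ∩ V').Nonempty`: `(γ m (h m x') ∩ V').Nonempty` (`ArcG.lower` at `1`).
`lower_core` (the combinatorial part): (n1)-(n4) imply `(ff x' ∩ V').Nonempty`:
 Case a: `P x' ∩ S₀ ⊆ P x ∩ S₀`: `agree` at `x'` with `C = insert k {j | lt j k}` (or `∅`), `C' = P x'`: `i ∈ P x' \ C` implies `inl i ∉ S`, since `i ∈ S₀` would give
   `i ∈ P x ∩ S₀`, so `i = k` or `lt i k`.  `γ k (h k x') = fC C x'` (`gam_eq`) meets `V'` in some `z`, so `z' ∈ ff x'` with `Agr S z z'`, `z' ∈ V'`.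
   (`C = ∅`: `z = y ∈ Y = fC ∅ x'`.)
 Case b: otherwise let `m` be the `lt`-largest element of `P x' ∩ S₀`; some `i ∈ P x' ∩ S₀` is not in `P x` (`h i x = 1`).
   `m ∉ P x`: otherwise `lt i m`, `h i = tt i m` on `{h m < 1} ∋ x`, so `h i x < 1`, contradiction. So `h m x = 1`, and `x ∈ closure {h m < 1}` by (n2).
   Every `i ∈ P x' ∩ S₀`, `i ≠ m` is in `P x`: `lt i m`, `h i = tt i m` on `{h m < 1}` so also at `x` (closure, continuity): `h i x = tt i m < 1`.
   `γ m 1 = Km m = fC {j | lt j m} x'` (`Km_eq`). It meets `V'`: if `P x ∩ S₀ = ∅`: `agree` at `x'` with `C = ∅`, `C' = {j | lt j m}`, point `y ∈ Y`.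
   Otherwise `k ∈ P x' ∩ S₀` (n1), `k ≠ m`, `lt k m`, `h k x' = tt k m = h k x`; so `fC (insert k {j | lt j k}) x' = γ k (h k x') = γ k (h k x) ∋ y`; `agree` at `x'` with
   `C = insert k {j | lt j k}`, `C' = {j | lt j m}`, point `y` (for `i` with `lt i m`, `inl i ∈ S`: `i ∈ P x' ∩ S₀`, `i ≠ m`, so `i ∈ P x ∩ S₀`, so `i ∈ C`).
   By (n4) `γ m (h m x')` meets `V'` in some `z`; `agree` at `x'` with `C = insert m {j | lt j m}`, `C' = P x'`, point `z ∈ γ m (h m x') = fC C x'`.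
-/

set_option autoImplicit false

namespace Pool.DMX

open Set Topology

section

variable {X J₀ U T : Type} [TopologicalSpace X] [TopologicalSpace U] [CompactSpace U]
  {ls : T → Set (J₀ ⊕ ℕ)} {val : T → U → ℝ}
  {Agr : Set (J₀ ⊕ ℕ) → U → U → Prop} {Gs : Set (J₀ ⊕ ℕ) → Set U → Prop} {Y : Set U}
  (hY : YSide ls val Agr Gs Y) {h : J₀ → X → ℝ} {o : X} {lt : J₀ → J₀ → Prop}
  (hL : Let X J₀ h o lt) {tt : J₀ → J₀ → ℝ} {γ : J₀ → ℝ → Set U}
  (hE : EData ls val Agr Gs Y h lt tt γ)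

include hL in
/-- the largest letter of a finite set `S₀` at the point `x` -/
theorem exists_largest {S₀ : Set J₀} (hS : S₀.Finite) {x : X} (hne : ∃ i ∈ S₀, h i x < 1) :
    ∃ k ∈ S₀, h k x < 1 ∧ ∀ i ∈ S₀, h i x < 1 → i = k ∨ lt i k := by
  classical
  have key : ∀ s : Finset J₀, s.Nonempty → (∀ i ∈ s, h i x < 1) →
      ∃ k ∈ s, ∀ i ∈ s, i = k ∨ lt i k := by
    intro s
    induction s using Finset.induction_on with
    | empty => intro hn; exact absurd hn (by simp)
    | insert a s ha ih =>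
      intro _ hx
      by_cases hs : s.Nonempty
      · obtain ⟨k, hk, hk'⟩ := ih hs fun i hi => hx i (Finset.mem_insert_of_mem hi)
        have hak : a ≠ k := fun hak => ha (hak ▸ hk)
        rcases hL.cmp a k x hak (hx a (Finset.mem_insert_self a s))
          (hx k (Finset.mem_insert_of_mem hk)) with h1 | h1
        · refine ⟨k, Finset.mem_insert_of_mem hk, fun i hi => ?_⟩
          rcases Finset.mem_insert.1 hi with rfl | hi
          · exact Or.inr h1
          · exact hk' i hi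
        · refine ⟨a, Finset.mem_insert_self a s, fun i hi => ?_⟩
          rcases Finset.mem_insert.1 hi with rfl | hi
          · exact Or.inl rfl
          · rcases hk' i hi with rfl | h2
            · exact Or.inr h1
            · exact Or.inr (hL.trans _ _ _ h2 h1)
      · rw [Finset.not_nonempty_iff_eq_empty] at hs
        subst hs
        refine ⟨a, Finset.mem_insert_self a _, fun i hi => ?_⟩
        rcases Finset.mem_insert.1 hi with rfl | hi
        · exact Or.inl rfl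
        · simp at hi
  have hF : ({i | i ∈ S₀ ∧ h i x < 1} : Set J₀).Finite := hS.subset fun i hi => hi.1
  obtain ⟨i0, hi0, hi0x⟩ := hne
  obtain ⟨k, hk, hk'⟩ := key hF.toFinset ⟨i0, hF.mem_toFinset.2 ⟨hi0, hi0x⟩⟩
    fun i hi => (hF.mem_toFinset.1 hi).2
  exact ⟨k, (hF.mem_toFinset.1 hk).1, (hF.mem_toFinset.1 hk).2,
    fun i hi hix => hk' i (hF.mem_toFinset.2 ⟨hi, hix⟩)⟩

include hY hL hE

/-- a point of a set attached to an initial segment gives a point of `ff x'` in `V'` -/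
theorem lift_point {S : Set (J₀ ⊕ ℕ)} {V' : Set U} (hV' : ∀ z ∈ V', ∀ z', Agr S z z' → z' ∈ V')
    {C C' : Set J₀} {x : X} (hCC : C ⊆ C')
    (hC' : ∀ i ∈ C', h i x < 1) (hi : ∀ i ∈ C, ∀ j, lt j i → j ∈ C)
    (hi' : ∀ i ∈ C', ∀ j, lt j i → j ∈ C') (hS : ∀ i ∈ C', i ∉ C → Sum.inl i ∉ S)
    (hne : (fC Y h γ C x ∩ V').Nonempty) : (fC Y h γ C' x ∩ V').Nonempty := by
  obtain ⟨z, hz, hzV⟩ := hne
  obtain ⟨z', hz', hzz⟩ := agree hY hL hE hCC hC' hi hi' hS hz
  exact ⟨z', hz', hV' z hzV z' hzz⟩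

theorem lower_core {S : Set (J₀ ⊕ ℕ)} {V' : Set U}
    (hV' : ∀ z ∈ V', ∀ z', Agr S z z' → z' ∈ V') (hS : S.Finite) {x x' : X} {y : U}
    (hy : y ∈ ff Y h γ x) (hyV : y ∈ V')
    (n1 : ∀ i, Sum.inl i ∈ S → h i x < 1 → h i x' < 1)
    (n2 : ∀ i, Sum.inl i ∈ S → h i x' < 1 → x ∈ closure {z | h i z < 1})
    (n3 : ∀ k, Sum.inl k ∈ S → h k x < 1 → (γ k (h k x') ∩ V').Nonempty)
    (n4 : ∀ m, Sum.inl m ∈ S → (γ m 1 ∩ V').Nonempty → h m x = 1 →
      (γ m (h m x') ∩ V').Nonempty) : (ff Y h γ x' ∩ V').Nonempty := by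
  classical
  have hS0 : {i : J₀ | Sum.inl i ∈ S}.Finite := hS.preimage Sum.inl_injective.injOn
  have F1 : ∀ i j, lt j i → h i x' < 1 → h j x' < 1 := by
    intro i j hji hi
    rw [hE.tt_eq j i hji x' hi]
    exact (hE.tt_mem j i hji).2
  have F2 : ∀ k : J₀, ∀ i ∈ insert k {j | lt j k}, ∀ j, lt j i → j ∈ insert k {j | lt j k} := by
    intro k i hi j hji
    rcases hi with rfl | hi
    · exact Or.inr hji
    · exact Or.inr (hL.trans _ _ _ hji hi)
  have F3 : ∀ m : J₀, ∀ i ∈ {j | lt j m}, ∀ j, lt j i → j ∈ {j | lt j m} :=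
    fun m i hi j hji => hL.trans _ _ _ hji hi
  by_cases hP : ∃ i, Sum.inl i ∈ S ∧ h i x' < 1 ∧ ¬ h i x < 1
  · obtain ⟨i0, hi0S, hi0x', hi0x⟩ := hP
    obtain ⟨m, hmS, hmx', hm⟩ := exists_largest hL hS0 ⟨i0, hi0S, hi0x'⟩
    have hmx : ¬ h m x < 1 := by
      intro hmx
      rcases hm i0 hi0S hi0x' with rfl | hlt
      · exact hi0x hmx
      · apply hi0x
        rw [hE.tt_eq i0 m hlt x hmx]
        exact (hE.tt_mem i0 m hlt).2
    have hmx1 : h m x = 1 := le_antisymm (hL.mem m x).2 (not_lt.1 hmx)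
    have hcl := n2 m hmS hmx'
    have htt : ∀ i, lt i m → h i x = tt i m := by
      intro i hi
      have hc : IsClosed {z | h i z = tt i m} := isClosed_eq (hL.cont i) continuous_const
      exact closure_minimal (fun z hz => hE.tt_eq i m hi z hz) hc hcl
    have hlt1 : ∀ i, lt i m → h i x < 1 := by
      intro i hi
      rw [htt i hi]
      exact (hE.tt_mem i m hi).2
    have hone : (γ m 1 ∩ V').Nonempty := by
      rw [(hE.arc m).one, Km_eq hY hL hE hmx']
      by_cases hne : ∃ i ∈ {i : J₀ | Sum.inl i ∈ S}, h i x < 1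
      · obtain ⟨k, hkS, hkx, hk⟩ := exists_largest hL hS0 hne
        have hkx' := n1 k hkS hkx
        have hkm : k ≠ m := by
          rintro rfl
          exact hmx hkx
        have hltk : lt k m := by
          rcases hm k hkS hkx' with h1 | h1
          · exact absurd h1 hkm
          · exact h1
        have hyk : y ∈ γ k (h k x) := Set.mem_iInter₂.1 hy.2 k hkx
        have hyk' : y ∈ fC Y h γ (insert k {j | lt j k}) x' := by
          rw [← gam_eq hY hL hE hkx', hE.tt_eq k m hltk x' hmx', ← htt k hltk]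
          exact hyk
        refine lift_point hY hL hE hV' (C := insert k {j | lt j k}) ?_
          (fun i hi => F1 m i hi hmx') (F2 k) (F3 m) ?_ ⟨y, hyk', hyV⟩
        · rintro i (rfl | hi)
          · exact hltk
          · exact hL.trans _ _ _ hi hltk
        · intro i hi hi' hiS
          exact hi' (hk i hiS (hlt1 i hi))
      · refine lift_point hY hL hE hV' (C := ∅) (Set.empty_subset _)
          (fun i hi => F1 m i hi hmx') (fun i hi => absurd hi (Set.notMem_empty i)) (F3 m) ?_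
          ⟨y, ⟨hy.1, by simp⟩, hyV⟩
        intro i hi _ hiS
        exact hne ⟨i, hiS, hlt1 i hi⟩
    have h4 := n4 m hmS hone hmx1
    rw [gam_eq hY hL hE hmx'] at h4
    refine lift_point hY hL hE hV' (C := insert m {j | lt j m}) ?_ (fun i hi => hi) (F2 m)
      (fun i hi j hji => F1 i j hji hi) ?_ h4
    · rintro i (rfl | hi)
      · exact hmx'
      · exact F1 m i hi hmx'
    · intro i hi hi' hiS
      exact hi' (hm i hiS hi)
  · have hPa : ∀ i, Sum.inl i ∈ S → h i x' < 1 → h i x < 1 := by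
      intro i hiS hi
      by_contra hcon
      exact hP ⟨i, hiS, hi, hcon⟩
    by_cases hne : ∃ i ∈ {i : J₀ | Sum.inl i ∈ S}, h i x < 1
    · obtain ⟨k, hkS, hkx, hk⟩ := exists_largest hL hS0 hne
      have hkx' := n1 k hkS hkx
      have h3 := n3 k hkS hkx
      rw [gam_eq hY hL hE hkx'] at h3
      refine lift_point hY hL hE hV' (C := insert k {j | lt j k}) ?_ (fun i hi => hi) (F2 k)
        (fun i hi j hji => F1 i j hji hi) ?_ h3
      · rintro i (rfl | hi)
        · exact hkx'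
        · exact F1 k i hi hkx'
      · intro i hi hi' hiS
        exact hi' (hk i hiS (hPa i hiS hi))
    · refine lift_point hY hL hE hV' (C := ∅) (Set.empty_subset _) (fun i hi => hi)
        (fun i hi => absurd hi (Set.notMem_empty i)) (fun i hi j hji => F1 i j hji hi) ?_
        ⟨y, ⟨hy.1, by simp⟩, hyV⟩
      intro i hi _ hiS
      exact hne ⟨i, hiS, hPa i hiS hi⟩

end

end Pool.DMX
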