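import Pool.Agent.Helper84.DM.E4

/-!
DM-E6: injectivity.

`x ≠ x'`; `i` an `lt`-minimal letter with `h i x ≠ h i x'` (`Let.sep`, `Let.wf`); `ff_ne` treats `h i x < h i x'`.
`T := inl '' {j | lt j i} ∪ {inl i} ∪ range inr`.  `ff x ⊆ γ i (h i x)` as `h i x < h i x' ≤ 1`.  For `j` with `lt j i`: `h j x' = h j x = tt j i < 1`.
Every point `a` of `γ i (h i x')` agrees on `T` with a point of `ff x'`:
 * `h i x' < 1`: `γ i (h i x') = fC (insert i {j | lt j i}) x'` (`gam_eq`), `agree` with `C = insert i {j | lt j i}`, `C' = {j | h j x' < 1}`;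
 * `h i x' = 1`: `γ i 1 = Km i = fC {j | lt j i} x'` (by hand: `Km` uses `tt j i = h j x'`), `agree` with `C = {j | lt j i}`, `C' = {j | h j x' < 1}` (`i ∉ C'`).
 In both cases `inl j ∈ T` implies `lt j i` or `j = i`.
`ArcG.sep` for `s = h i x < t = h i x'`: a term `e` with letters in `T`, `val e = 0` on `γ i (h i x) ⊇ ff x`, `val e a > 1` for some `a ∈ γ i (h i x')`, so
`val e a' > 1` for some `a' ∈ ff x'` (`agr_val`).  So `ff x ≠ ff x'`.
-/

set_option autoImplicit false

namespace Pool.DMX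

open Set Topology

section

variable {X J₀ U T : Type} [TopologicalSpace X] [TopologicalSpace U] [CompactSpace U]
  {ls : T → Set (J₀ ⊕ ℕ)} {val : T → U → ℝ}
  {Agr : Set (J₀ ⊕ ℕ) → U → U → Prop} {Gs : Set (J₀ ⊕ ℕ) → Set U → Prop} {Y : Set U}
  (hY : YSide ls val Agr Gs Y) {h : J₀ → X → ℝ} {o : X} {lt : J₀ → J₀ → Prop}
  (hL : Let X J₀ h o lt) {tt : J₀ → J₀ → ℝ} {γ : J₀ → ℝ → Set U}
  (hE : EData ls val Agr Gs Y h lt tt γ)

include hY hL hE

theorem ff_ne {x x' : X} {i : J₀} (hmin : ∀ j, lt j i → h j x = h j x')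
    (hlt : h i x < h i x') : ff Y h γ x ≠ ff Y h γ x' := by
  intro heq
  have hx1 : h i x < 1 := lt_of_lt_of_le hlt (hL.mem i x').2
  have hj1 : ∀ j, lt j i → h j x = tt j i := fun j hj => hE.tt_eq j i hj x hx1
  have hj2 : ∀ j, lt j i → h j x' = tt j i := fun j hj => (hmin j hj).symm.trans (hj1 j hj)
  have hj3 : ∀ j, lt j i → h j x' < 1 := fun j hj => by
    rw [hj2 j hj]
    exact (hE.tt_mem j i hj).2
  have hsub : ff Y h γ x ⊆ γ i (h i x) := by
    intro y hy
    exact mem_iInter₂.1 hy.2 i hx1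
  have hi' : ∀ k ∈ {j | h j x' < 1}, ∀ j, lt j k → j ∈ {j | h j x' < 1} := by
    intro k hk j hjk
    change h j x' < 1
    rw [hE.tt_eq j k hjk x' hk]
    exact (hE.tt_mem j k hjk).2
  have hstep : ∀ a ∈ γ i (h i x'), ∃ a' ∈ ff Y h γ x',
      Agr (insert (Sum.inl i) (Sum.inl '' {j | lt j i}) ∪ range Sum.inr) a a' := by
    intro a ha
    have hT : ∀ k, (Sum.inl k : J₀ ⊕ ℕ) ∈
        (insert (Sum.inl i) (Sum.inl '' {j | lt j i}) ∪ range Sum.inr : Set (J₀ ⊕ ℕ)) →
        k = i ∨ lt k i := by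
      intro k hk
      rcases hk with (hk | ⟨j, hj, hk⟩) | ⟨n, hk⟩
      · exact Or.inl (Sum.inl_injective hk)
      · rw [← Sum.inl_injective hk]
        exact Or.inr hj
      · cases hk
    by_cases h1 : h i x' < 1
    · rw [gam_eq hY hL hE h1] at ha
      refine agree hY hL hE (C := insert i {j | lt j i}) (C' := {j | h j x' < 1}) ?_
        (fun _ hk => hk) ?_ hi' ?_ ha
      · rintro k (rfl | hk)
        · exact h1
        · exact hj3 k hk
      · rintro k (rfl | hk) j hj
        · exact Or.inr hj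
        · exact Or.inr (hL.trans j k i hj hk)
      · intro k _ hkC hkT
        exact hkC (hT k hkT)
    · have h2 : h i x' = 1 := le_antisymm (hL.mem i x').2 (not_lt.1 h1)
      have h3 : a ∈ fC Y h γ {j | lt j i} x' := by
        rw [h2, (hE.arc i).one] at ha
        refine ⟨ha.1, mem_iInter₂.2 fun j hj => ?_⟩
        rw [hj2 j hj]
        exact mem_iInter₂.1 ha.2 j hj
      refine agree hY hL hE (C := {j | lt j i}) (C' := {j | h j x' < 1}) ?_
        (fun _ hk => hk) ?_ hi' ?_ h3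
      · intro k hk
        exact hj3 k hk
      · intro k hk j hj
        exact hL.trans j k i hj hk
      · intro k hk hkC hkT
        rcases hT k hkT with rfl | hki
        · exact h1 hk
        · exact hkC hki
  obtain ⟨e, he, h0, a, ha, hea⟩ := (hE.arc i).sep (h i x) (h i x') (hL.mem i x).1 hlt
    (hL.mem i x').2
  obtain ⟨a', ha', hag⟩ := hstep a ha
  rw [← heq] at ha'
  have h4 := h0 a' (hsub ha')
  rw [← hY.agr_val _ a a' e hag he] at h4
  rw [h4] at hea
  exact absurd hea (by norm_num)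

theorem ff_injective : Function.Injective (ff Y h γ) := by
  intro x x' heq
  by_contra hne
  obtain ⟨i₀, hi₀⟩ := hL.sep x x' hne
  have hne2 : {i | h i x ≠ h i x'}.Nonempty := ⟨i₀, hi₀⟩
  have hi : h (hL.wf.min _ hne2) x ≠ h (hL.wf.min _ hne2) x' := hL.wf.min_mem _ hne2
  have hmin : ∀ j, lt j (hL.wf.min _ hne2) → h j x = h j x' := by
    intro j hj
    by_contra hcon
    exact hL.wf.not_lt_min {i | h i x ≠ h i x'} hcon hj
  rcases lt_or_gt_of_ne hi with hlt | hlt
  · exact ff_ne hY hL hE hmin hlt heq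
  · exact ff_ne hY hL hE (fun j hj => (hmin j hj).symm) hlt heq.symm

end

end Pool.DMX
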