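import Pool.Agent.Helper84.DM.XP

/-!
DM-X7d (Let): the family of letters of a path connected dendron (a special case of `exists_let'`).
-/

set_option autoImplicit false

namespace Pool.DMX

open Set Topology

theorem exists_let (X : Type) [TopologicalSpace X] [CompactSpace X] [PathConnectedSpace X]
    [T2Space X] (hD : Dn X) :
    ∃ (J₀ : Type) (h : J₀ → X → ℝ) (o : X) (lt : J₀ → J₀ → Prop), Let X J₀ h o lt := by
  obtain ⟨o⟩ : Nonempty X := PathConnectedSpace.nonempty
  obtain ⟨J, h, lt, hL⟩ := exists_let' X hD o (fun z _ _ => PathConnectedSpace.joined o z)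
  exact ⟨J, h, o, lt, hL⟩

end Pool.DMX
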