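import Pool.Agent.Helper84.DM.E5
import Pool.Agent.Helper84.DM.E6
import Pool.Agent.Helper84.DM.XLet

/-!
DM-E7: assembly.  `main_of_yside`: as in `Pool/Agent/Helper64/DN/Final.lean` (`main_of_fam`): the continuum is the subtype `Y`, the map is
`x ↦ Subtype.val ⁻¹' ff x`.
-/

set_option autoImplicit false

namespace Pool.DMX

open Set Topology

theorem main_of_yside {X J₀ U T : Type} [TopologicalSpace X] [TopologicalSpace U] [CompactSpace U]
    [T2Space U]
    {ls : T → Set (J₀ ⊕ ℕ)} {val : T → U → ℝ}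
    {Agr : Set (J₀ ⊕ ℕ) → U → U → Prop} {Gs : Set (J₀ ⊕ ℕ) → Set U → Prop} {Y : Set U}
    (hY : YSide ls val Agr Gs Y) {h : J₀ → X → ℝ} {o : X} {lt : J₀ → J₀ → Prop}
    (hL : Let X J₀ h o lt) :
    ∃ (Y : Type) (_ : TopologicalSpace Y), CompactSpace Y ∧ ConnectedSpace Y ∧ T2Space Y ∧
      (∀ A B : Set Y, IsClosed A → IsConnected A → IsClosed B → IsConnected B →
        (A ∩ B).Nonempty → A ⊆ B ∨ B ⊆ A) ∧
      ∃ f : X → Set Y,
        (∀ x, IsClosed (f x) ∧ IsConnected (f x)) ∧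
        Function.Injective f ∧
        (∀ U : Set Y, IsOpen U →
          IsOpen {x : X | f x ⊆ U} ∧ IsOpen {x : X | (f x ∩ U).Nonempty}) := by
  obtain ⟨tt, γ, hE⟩ := exists_edata hY hL
  have hcl : IsClosed Y := hY.closed ∅ Y hY.univ
  have hco : IsConnected Y := hY.conn ∅ Y hY.univ
  have hgs : ∀ x, Gs Set.univ (ff Y h γ x) := fun x => ff_gs hY hL hE x
  have hsub : ∀ x, ff Y h γ x ⊆ Y := fun x => hY.sub _ _ (hgs x)
  have h3 : ∀ x, (Subtype.val : Y → U) '' (Subtype.val ⁻¹' ff Y h γ x) = ff Y h γ x := by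
    intro x
    rw [Subtype.image_preimage_coe, inter_eq_right.2 (hsub x)]
  refine ⟨Y, inferInstance, isCompact_iff_compactSpace.1 hcl.isCompact,
    isConnected_iff_connectedSpace.1 hco, inferInstance, ?_,
    fun x => (Subtype.val : Y → U) ⁻¹' ff Y h γ x, ?_, ?_, ?_⟩
  · intro A B hA1 hA2 hB1 hB2 hAB
    have hc : IsClosedEmbedding (Subtype.val : Y → U) := hcl.isClosedEmbedding_subtypeVal
    have := hY.hi (Subtype.val '' A) (Subtype.val '' B) (by simp) (by simp)
      (hc.isClosedMap _ hA1) (hA2.image _ continuous_subtype_val.continuousOn)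
      (hc.isClosedMap _ hB1) (hB2.image _ continuous_subtype_val.continuousOn)
      (by
        obtain ⟨z, h1, h2⟩ := hAB
        exact ⟨z, mem_image_of_mem _ h1, mem_image_of_mem _ h2⟩)
    rcases this with h | h
    · left
      exact (image_subset_image_iff Subtype.val_injective).1 h
    · right
      exact (image_subset_image_iff Subtype.val_injective).1 h
  · intro x
    refine ⟨(hY.closed _ _ (hgs x)).preimage continuous_subtype_val, ?_⟩
    have h1 := hY.conn _ _ (hgs x)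
    have hi : IsInducing (Subtype.val : Y → U) := IsInducing.subtypeVal
    refine ⟨?_, ?_⟩
    · obtain ⟨z, hz⟩ := h1.1
      exact ⟨⟨z, hsub x hz⟩, hz⟩
    · rw [← hi.isPreconnected_image, h3]
      exact h1.2
  · intro x y hxy
    apply ff_injective hY hL hE
    rw [← h3 x, ← h3 y]
    exact congrArg _ hxy
  · intro W hW
    obtain ⟨V, hV, rfl⟩ := isOpen_induced_iff.1 hW
    have e1 : {x : X | (Subtype.val : Y → U) ⁻¹' ff Y h γ x ⊆
        Subtype.val ⁻¹' V} = {x | ff Y h γ x ⊆ V} := by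
      ext x
      constructor
      · intro h z hz
        exact h (show (⟨z, hsub x hz⟩ : Y) ∈ _ from hz)
      · intro h z hz
        exact h hz
    have e2 : {x : X | ((Subtype.val : Y → U) ⁻¹' ff Y h γ x ∩
        Subtype.val ⁻¹' V).Nonempty} = {x | (ff Y h γ x ∩ V).Nonempty} := by
      ext x
      constructor
      · rintro ⟨z, hz1, hz2⟩
        exact ⟨z.1, hz1, hz2⟩
      · rintro ⟨z, hz1, hz2⟩
        exact ⟨⟨z, hsub x hz1⟩, hz1, hz2⟩
    refine ⟨?_, ?_⟩
    · rw [e1]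
      exact ff_upper hY hL hE hV
    · rw [e2]
      exact ff_lower hY hL hE hV

/-- the hypothesis of the frozen statement -/
theorem dn_of {X : Type} [TopologicalSpace X]
    (h : ∀ x y : X, x ≠ y → ∃ z : X, z ≠ x ∧ z ≠ y ∧
        ∃ U V : Set X, IsOpen U ∧ IsOpen V ∧ Disjoint U V ∧ U ∪ V = {z}ᶜ ∧ x ∈ U ∧ y ∈ V) :
    Dn X := by
  intro x y hxy
  obtain ⟨z, -, -, U, V, h1, h2, h3, h4, h5, h6⟩ := h x y hxy
  exact ⟨z, U, V, ⟨h1, h2, h3, h4⟩, h5, h6⟩

end Pool.DMX
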