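import Pool.Agent.Helper84.DM.GInt
import Pool.Agent.Helper84.DM.AgrB
import Pool.Agent.Helper84.DM.E7

/-!
DM-E8: the instance of the interface `YSide` and the main theorem.
-/

set_option autoImplicit false

namespace Pool.DMX

open Set Topology

theorem arcG_iff {J : Type} {P : Set J} {i : J} {N : Set J} {K : Set (DM.U J)}
    {γ : ℝ → Set (DM.U J)} (h : DM.ArcG P i N K γ) :
    ArcG DM.ls DM.val DM.Agr DM.Gs P i N K γ where
  one := h.one
  mem := h.mem
  mono := h.mono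
  upper := h.upper
  lower := h.lower
  agr := h.agr
  sep := h.sep

theorem yside (J : Type) : YSide (J := J) DM.ls DM.val DM.Agr DM.Gs (DM.Y J) where
  univ := DM.Gs_Y
  closed := fun _ _ h => h.closed
  conn := fun _ _ h => h.conn
  sub := fun _ _ h => h.sub
  mono := fun _ _ _ hP h => h.mono hP
  inter := fun _ _ _ _ hd h => DM.Gs.iInter (fun a b => by
    obtain ⟨c, h1, h2⟩ := hd a b
    exact ⟨c, h1, h2⟩) h
  arc := fun _ _ _ _ hP hi hN hd hK => by
    obtain ⟨γ, hγ⟩ := DM.exists_arc hP hi hN hd hK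
    exact ⟨γ, arcG_iff hγ⟩
  nbhd := fun V y hV hy => DM.nbhd_letters hV hy
  agr_closed := fun S y => (DM.isClosed_Agr S).preimage (Continuous.prodMk_right y)
  agr_refl := fun S y => DM.Agr.refl S y
  agr_symm := fun _ _ _ h => h.symm
  agr_trans := fun _ _ _ _ h h' => h.trans h'
  agr_anti := fun _ _ _ _ hS h => h.mono hS
  agr_val := fun _ _ _ _ h he => h.val he
  hi := fun _ _ hA hB hAc hAn hBc hBn hAB => DM.Y_hi hA hB hAc hBc hAn.2 hBn.2 hAB

/-- Theorem M. -/
theorem main (X : Type) [TopologicalSpace X] [CompactSpace X] [PathConnectedSpace X] [T2Space X]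
    (h : ∀ x y : X, x ≠ y → ∃ z : X, z ≠ x ∧ z ≠ y ∧
        ∃ U V : Set X, IsOpen U ∧ IsOpen V ∧ Disjoint U V ∧ U ∪ V = {z}ᶜ ∧ x ∈ U ∧ y ∈ V) :
    ∃ (Y : Type) (_ : TopologicalSpace Y), CompactSpace Y ∧ ConnectedSpace Y ∧ T2Space Y ∧
      (∀ A B : Set Y, IsClosed A → IsConnected A → IsClosed B → IsConnected B →
        (A ∩ B).Nonempty → A ⊆ B ∨ B ⊆ A) ∧
      ∃ f : X → Set Y,
        (∀ x, IsClosed (f x) ∧ IsConnected (f x)) ∧
        Function.Injective f ∧
        (∀ U : Set Y, IsOpen U →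
          IsOpen {x : X | f x ⊆ U} ∧ IsOpen {x : X | (f x ∩ U).Nonempty}) := by
  obtain ⟨J₀, g, o, lt, hL⟩ := exists_let X (dn_of h)
  exact main_of_yside (yside (J₀ ⊕ ℕ)) hL

end Pool.DMX
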