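import Mathlib

/-!
DM: interface of the X side (structure `Let`) and of the Y side (structures `ArcG`, `YSide`).
-/

set_option autoImplicit false

namespace Pool.DMX

open Set Topology

/-- A family of letters for the space `X`: continuous functions `h i : X → [0,1]`, where `h i` is constant
on the set `{h j < 1}` when `i` is before `j`. -/
structure Let (X : Type) [TopologicalSpace X] (J₀ : Type) (h : J₀ → X → ℝ) (o : X)
    (lt : J₀ → J₀ → Prop) : Prop where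
  cont : ∀ i, Continuous (h i)
  mem : ∀ i x, 0 ≤ h i x ∧ h i x ≤ 1
  root : ∀ i, h i o = 1
  ne : ∀ i, ∃ x, h i x < 1
  wf : WellFounded lt
  trans : ∀ i j k, lt i j → lt j k → lt i k
  cmp : ∀ i j x, i ≠ j → h i x < 1 → h j x < 1 → lt i j ∨ lt j i
  const : ∀ i j, lt i j → ∃ t, 0 ≤ t ∧ t < 1 ∧ ∀ x, h j x < 1 → h i x = t
  cnt : ∀ j, {i | lt i j}.Countable
  sep : ∀ x x', x ≠ x' → ∃ i, h i x ≠ h i x'

/-- `γ` is a Vietoris continuous increasing arc of sets from `γ 0` to `γ 1 = K`, all of them in the class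
`Gs (insert i P)`, with extra properties.  `T` is the type of terms, `ls e` the set of letters of the term `e`,
`val e y` the value of the term `e` at `y`. -/
structure ArcG {J U T : Type} [TopologicalSpace U] (ls : T → Set J) (val : T → U → ℝ)
    (Agr : Set J → U → U → Prop) (Gs : Set J → Set U → Prop)
    (P : Set J) (i : J) (N : Set J) (K : Set U) (γ : ℝ → Set U) : Prop where
  one : γ 1 = K
  mem : ∀ t, 0 ≤ t → t ≤ 1 → Gs (insert i P) (γ t)
  mono : ∀ s t, 0 ≤ s → s ≤ t → t ≤ 1 → γ s ⊆ γ t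
  upper : ∀ t, 0 ≤ t → t ≤ 1 → ∀ O, IsOpen O → γ t ⊆ O →
    ∃ δ > 0, ∀ t', 0 ≤ t' → t' ≤ 1 → |t' - t| < δ → γ t' ⊆ O
  lower : ∀ t, 0 ≤ t → t ≤ 1 → ∀ O, IsOpen O → (γ t ∩ O).Nonempty →
    ∃ δ > 0, ∀ t', 0 ≤ t' → t' ≤ 1 → |t' - t| < δ → (γ t' ∩ O).Nonempty
  agr : ∀ y ∈ K, ∃ y' ∈ γ 0, Agr {i}ᶜ y y'
  sep : ∀ s t, 0 ≤ s → s < t → t ≤ 1 → ∃ e, ls e ⊆ insert i P ∪ N ∧ (∀ y ∈ γ s, val e y = 0) ∧
    ∃ a ∈ γ t, 1 < val e a

/-- The Y side. `Y` is the hereditarily indecomposable continuum (a subset of the compact space `U`),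
`Agr S y z` : `y` and `z` agree on all coordinates with letters in `S`. -/
structure YSide {J U T : Type} [TopologicalSpace U] (ls : T → Set J) (val : T → U → ℝ)
    (Agr : Set J → U → U → Prop) (Gs : Set J → Set U → Prop) (Y : Set U) : Prop where
  univ : Gs ∅ Y
  closed : ∀ P K, Gs P K → IsClosed K
  conn : ∀ P K, Gs P K → IsConnected K
  sub : ∀ P K, Gs P K → K ⊆ Y
  mono : ∀ P P' K, P ⊆ P' → Gs P K → Gs P' K
  inter : ∀ (ι : Type) [Nonempty ι] (P : Set J) (K : ι → Set U),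
    (∀ a b, ∃ c, K c ⊆ K a ∧ K c ⊆ K b) → (∀ a, Gs P (K a)) → Gs P (⋂ a, K a)
  arc : ∀ (P : Set J) (i : J) (N : Set J) (K : Set U), P.Countable → i ∉ P → N.Infinite →
    Disjoint N (insert i P) → Gs P K → ∃ γ : ℝ → Set U, ArcG ls val Agr Gs P i N K γ
  nbhd : ∀ (V : Set U) (y : U), IsOpen V → y ∈ V → ∃ (S : Set J) (V' : Set U), S.Finite ∧
    IsOpen V' ∧ y ∈ V' ∧ V' ⊆ V ∧ ∀ z ∈ V', ∀ z', Agr S z z' → z' ∈ V'
  agr_closed : ∀ (S : Set J) (y : U), IsClosed {z | Agr S y z}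
  agr_refl : ∀ (S : Set J) (y : U), Agr S y y
  agr_symm : ∀ (S : Set J) (y z : U), Agr S y z → Agr S z y
  agr_trans : ∀ (S : Set J) (y z w : U), Agr S y z → Agr S z w → Agr S y w
  agr_anti : ∀ (S S' : Set J) (y z : U), S ⊆ S' → Agr S' y z → Agr S y z
  agr_val : ∀ (S : Set J) (y z : U) (e : T), Agr S y z → ls e ⊆ S → val e y = val e z
  hi : ∀ A B : Set U, A ⊆ Y → B ⊆ Y → IsClosed A → IsConnected A → IsClosed B → IsConnected B →
    (A ∩ B).Nonempty → A ⊆ B ∨ B ⊆ A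

end Pool.DMX
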