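import Pool.Agent.Helper84.DM.XLetC
import Pool.Agent.Helper84.DM.LDefs

/-!
DM-XP: the family of letters of a dendron `X` with a point `o` such that every point which separates `o`
from some point can be joined to `o` by a path.
-/

set_option autoImplicit false

namespace Pool.DMX

open Set Topology

variable {X : Type} [TopologicalSpace X]

theorem exists_letf' [CompactSpace X] [ConnectedSpace X] [T2Space X] (hD : Dn X)
    (r : X → X → Prop) (o x : X) (p : Path o x) (hx : x ∉ Td r o x) :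
    ∃ (φ : X → ℝ) (c : ℝ), LetF r o x φ c := by
  have hoT : o ∈ Td r o x := root_mem_Td r o x
  have hox : o ≠ x := fun e => hx (e ▸ hoT)
  obtain ⟨φ, h⟩ := exists_af hD hox p
  have hpre : IsPreconnected (Td r o x) := Td_precon hD r o x
  obtain ⟨t₀, ht₀, hmin⟩ := (Td_closed r o x).isCompact.exists_isMinOn ⟨o, hoT⟩
    h.cont.continuousOn
  refine ⟨φ, φ t₀, h, ?_, (h.mem t₀).2, fun t ht => hmin ht, ?_⟩
  · by_contra hneg
    have h0 : φ t₀ = 0 := le_antisymm (not_lt.1 hneg) (h.mem t₀).1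
    have h1 := h.const_of hpre (right_mem_ar o x) hx ht₀ (by rw [h.zero, h0]) o hoT
    rw [h.one, h0] at h1
    exact one_ne_zero h1
  · intro w hw hcw
    by_contra hwT
    obtain ⟨y, hy, hyw⟩ := hpre.intermediate_value ht₀ hoT h.cont.continuousOn
      (show φ w ∈ Icc (φ t₀) (φ o) from ⟨hcw, by rw [h.one]; exact (h.mem w).2⟩)
    have h1 := h.const_of hpre hw hwT hy hyw.symm o hoT
    have h2 : w = o := h.inj w hw o (left_mem_ar o x) (by rw [h1, hyw])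
    exact hwT (h2 ▸ hoT)

/-- the order `r` restricted to the points which can be joined to `o` -/
def rj (r : X → X → Prop) (o : X) (z x : X) : Prop := r z x ∧ Joined o z

theorem min_unique' [CompactSpace X] [ConnectedSpace X] [T2Space X] (hD : Dn X)
    (r : X → X → Prop) [IsWellOrder X r] {o x y y' : X}
    (hmin : ∀ z, rj r o z x → ∀ a ∈ Ar y y' ∩ (Td (rj r o) o z ∪ Ar o z),
      ∀ b ∈ Ar y y' ∩ (Td (rj r o) o z ∪ Ar o z), a = b)
    {a b : X} (ha : a ∈ Ar y y' ∩ Td (rj r o) o x) (hb : b ∈ Ar y y' ∩ Td (rj r o) o x) :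
    a = b := by
  by_contra hab
  obtain ⟨m₁, hm₁⟩ := hD a b hab
  obtain ⟨m₂, hm₂⟩ := hD m₁ b hm₁.ne_right
  have h1 : m₁ ∈ Ar a b := hm₁.mem_ar
  have h2 : m₂ ∈ Ar a b := ar_subset_ar hD h1 (right_mem_ar a b) hm₂.mem_ar
  have h2a : m₂ ≠ a := by
    intro e
    rw [e] at hm₂
    exact ar_end_left hD h1 (right_mem_ar a b) hm₂
  have hs2 : Sp m₂ a b := sp_of_mem_ar h2 h2a hm₂.ne_right
  have hy : Ar a b ⊆ Ar y y' := ar_subset_ar hD ha.1 hb.1
  have hne : m₁ ≠ m₂ := hm₂.ne_left.symm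
  have key : ∃ z, rj r o z x ∧ m₁ ∈ Td (rj r o) o z ∪ Ar o z ∧
      m₂ ∈ Td (rj r o) o z ∪ Ar o z := by
    rcases mem_earlier hD hm₁ ha.2 hb.2 with e1 | ⟨z₁, hz₁, e1⟩
    · rcases mem_earlier hD hs2 ha.2 hb.2 with e2 | ⟨z₂, hz₂, e2⟩
      · exact (hne (e1.trans e2.symm)).elim
      · exact ⟨z₂, hz₂, Or.inr (e1 ▸ left_mem_ar o z₂), Or.inr e2⟩
    · rcases mem_earlier hD hs2 ha.2 hb.2 with e2 | ⟨z₂, hz₂, e2⟩
      · exact ⟨z₁, hz₁, Or.inr e1, Or.inr (e2 ▸ left_mem_ar o z₁)⟩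
      · rcases trichotomous_of r z₁ z₂ with h | h | h
        · exact ⟨z₂, hz₂, Or.inl (ar_subset_Td ⟨h, hz₁.2⟩ e1), Or.inr e2⟩
        · subst h
          exact ⟨z₁, hz₁, Or.inr e1, Or.inr e2⟩
        · exact ⟨z₁, hz₁, Or.inr e1, Or.inl (ar_subset_Td ⟨h, hz₂.2⟩ e2)⟩
  obtain ⟨z, hz, k1, k2⟩ := key
  exact hne (hmin z hz m₁ ⟨hy h1, k1⟩ m₂ ⟨hy h2, k2⟩)

theorem joined_of_sp {o y y' m : X} (ho : ∀ z x : X, Sp z o x → Joined o z) (h : Sp m y y') :
    Joined o m := by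
  by_cases hmo : o = m
  · rw [← hmo]
  · obtain ⟨U, V, h1, h2, h3⟩ := h
    rcases h1.mem_or hmo with h4 | h4
    · exact ho m y' ⟨U, V, h1, h4, h3⟩
    · exact ho m y ⟨V, U, h1.symm, h4, h2⟩

theorem exists_two' [CompactSpace X] [ConnectedSpace X] [T2Space X] (hD : Dn X)
    (r : X → X → Prop) [IsWellOrder X r] {o y y' : X}
    (ho : ∀ z x : X, Sp z o x → Joined o z) (hne : y ≠ y') :
    ∃ x, Joined o x ∧ x ∉ Td (rj r o) o x ∧ ∃ a a', a ≠ a' ∧ a ∈ Ar y y' ∩ Ar o x ∧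
      a' ∈ Ar y y' ∩ Ar o x ∧ a ∉ Td (rj r o) o x ∧ a' ∉ Td (rj r o) o x := by
  have hex : ∃ z, Joined o z ∧ ∃ a b, a ≠ b ∧ a ∈ Ar y y' ∩ (Td (rj r o) o z ∪ Ar o z) ∧
      b ∈ Ar y y' ∩ (Td (rj r o) o z ∪ Ar o z) := by
    obtain ⟨m₁, hm₁⟩ := hD y y' hne
    obtain ⟨m₂, hm₂⟩ := hD m₁ y' hm₁.ne_right
    have h1 : m₁ ∈ Ar y y' := hm₁.mem_ar
    have h2 : m₂ ∈ Ar y y' := ar_subset_ar hD h1 (right_mem_ar y y') hm₂.mem_ar
    have h2a : m₂ ≠ y := by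
      intro e
      rw [e] at hm₂
      exact ar_end_left hD h1 (right_mem_ar y y') hm₂
    have hs2 : Sp m₂ y y' := sp_of_mem_ar h2 h2a hm₂.ne_right
    have hne' : m₁ ≠ m₂ := hm₂.ne_left.symm
    have j1 : Joined o m₁ := joined_of_sp ho hm₁
    have j2 : Joined o m₂ := joined_of_sp ho hs2
    rcases trichotomous_of r m₁ m₂ with h | h | h
    · exact ⟨m₂, j2, m₁, m₂, hne', ⟨h1, Or.inl (ar_subset_Td ⟨h, j1⟩ (right_mem_ar o m₁))⟩,
        ⟨h2, Or.inr (right_mem_ar o m₂)⟩⟩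
    · exact (hne' h).elim
    · exact ⟨m₁, j1, m₁, m₂, hne', ⟨h1, Or.inr (right_mem_ar o m₁)⟩,
        ⟨h2, Or.inl (ar_subset_Td ⟨h, j2⟩ (right_mem_ar o m₂))⟩⟩
  have hwf : WellFounded r := IsWellFounded.wf
  obtain ⟨x, ⟨hxj, a, b, hab, ha, hb⟩, hx⟩ := hwf.has_min
    {z | Joined o z ∧ ∃ a b, a ≠ b ∧ a ∈ Ar y y' ∩ (Td (rj r o) o z ∪ Ar o z) ∧
      b ∈ Ar y y' ∩ (Td (rj r o) o z ∪ Ar o z)} hex
  have hmin : ∀ z, rj r o z x → ∀ a ∈ Ar y y' ∩ (Td (rj r o) o z ∪ Ar o z),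
      ∀ b ∈ Ar y y' ∩ (Td (rj r o) o z ∪ Ar o z), a = b := by
    intro z hz u hu v hv
    by_contra huv
    exact hx z ⟨hz.2, u, v, huv, hu, hv⟩ hz.1
  have huniq : ∀ {u v : X}, u ∈ Ar y y' ∩ Td (rj r o) o x → v ∈ Ar y y' ∩ Td (rj r o) o x →
      u = v := fun hu hv => min_unique' hD r hmin hu hv
  have core : ∀ a b : X, a ≠ b → a ∈ Ar y y' ∩ (Td (rj r o) o x ∪ Ar o x) →
      b ∈ Ar y y' ∩ (Td (rj r o) o x ∪ Ar o x) → a ∉ Td (rj r o) o x →
      ∃ x, Joined o x ∧ x ∉ Td (rj r o) o x ∧ ∃ a a', a ≠ a' ∧ a ∈ Ar y y' ∩ Ar o x ∧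
        a' ∈ Ar y y' ∩ Ar o x ∧ a ∉ Td (rj r o) o x ∧ a' ∉ Td (rj r o) o x := by
    intro a b hab ha hb haT
    have hpre : IsPreconnected (Td (rj r o) o x ∪ Ar o x) :=
      IsPreconnected.union o (root_mem_Td (rj r o) o x) (left_mem_ar o x)
        (Td_precon hD (rj r o) o x) (ar_precon hD o x)
    have hxT : x ∉ Td (rj r o) o x := by
      intro h1
      have h2 : Ar o x ⊆ Td (rj r o) o x :=
        ar_subset (Td_precon hD (rj r o) o x) (root_mem_Td (rj r o) o x) h1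
      rcases ha.2 with h3 | h3
      · exact haT h3
      · exact haT (h2 h3)
    have hs1 : Ar a b ⊆ Ar y y' := ar_subset_ar hD ha.1 hb.1
    have hs2 : Ar a b ⊆ Td (rj r o) o x ∪ Ar o x := ar_subset hpre ha.2 hb.2
    obtain ⟨m₁, hm₁⟩ := hD a b hab
    obtain ⟨m₂, hm₂⟩ := hD a m₁ hm₁.ne_left.symm
    have h1 : m₁ ∈ Ar a b := hm₁.mem_ar
    have h2 : m₂ ∈ Ar a b := ar_subset_ar hD (left_mem_ar a b) h1 hm₂.mem_ar
    have haA : a ∈ Ar o x := ha.2.resolve_left haT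
    by_cases h3 : m₁ ∈ Td (rj r o) o x
    · have h4 : m₂ ∉ Td (rj r o) o x :=
        fun h5 => hm₂.ne_right (huniq ⟨hs1 h2, h5⟩ ⟨hs1 h1, h3⟩)
      exact ⟨x, hxj, hxT, a, m₂, hm₂.ne_left.symm, ⟨ha.1, haA⟩,
        ⟨hs1 h2, (hs2 h2).resolve_left h4⟩, haT, h4⟩
    · exact ⟨x, hxj, hxT, a, m₁, hm₁.ne_left.symm, ⟨ha.1, haA⟩,
        ⟨hs1 h1, (hs2 h1).resolve_left h3⟩, haT, h3⟩
  by_cases haT : a ∈ Td (rj r o) o x
  · have hbT : b ∉ Td (rj r o) o x := fun h1 => hab (huniq ⟨ha.1, haT⟩ ⟨hb.1, h1⟩)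
    exact core b a hab.symm hb ha hbT
  · exact core a b hab ha hb haT

/-- The letters of a dendron `X` in which every point that separates `o` from some point can be joined to `o`
by a path. -/
theorem exists_let' (X : Type) [TopologicalSpace X] [CompactSpace X] [ConnectedSpace X]
    [T2Space X] (hD : Dn X) (o : X) (ho : ∀ z x : X, Sp z o x → Joined o z) :
    ∃ (J₀ : Type) (h : J₀ → X → ℝ) (lt : J₀ → J₀ → Prop), Let X J₀ h o lt := by
  have hL : ∀ i : {x : X // Joined o x ∧ x ∉ Td (rj WellOrderingRel o) o x},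
      ∃ (φ : X → ℝ) (c : ℝ), LetF (rj WellOrderingRel o) o i.1 φ c := by
    intro i
    obtain ⟨p⟩ := i.2.1
    exact exists_letf' hD _ o i.1 p i.2.2
  choose φ c hφ using hL
  have hconst : ∀ i j : {x : X // Joined o x ∧ x ∉ Td (rj WellOrderingRel o) o x},
      WellOrderingRel i.1 j.1 → ∀ z, hh (φ i) (c i) z < 1 → hh (φ j) (c j) z < 1 →
      ∀ u, hh (φ j) (c j) u < 1 → hh (φ i) (c i) u = hh (φ i) (c i) z := by
    intro i j hij z hz hz'
    exact letf_const (hφ i) (hφ j) ⟨hij, i.2.1⟩ hz hz'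
  have hself : ∀ i : {x : X // Joined o x ∧ x ∉ Td (rj WellOrderingRel o) o x},
      hh (φ i) (c i) i.1 < 1 := by
    intro i
    rw [hh_self (hφ i)]
    exact zero_lt_one
  have htri : ∀ i j : {x : X // Joined o x ∧ x ∉ Td (rj WellOrderingRel o) o x}, i ≠ j →
      WellOrderingRel i.1 j.1 ∨ WellOrderingRel j.1 i.1 := by
    intro i j hij
    rcases trichotomous_of (WellOrderingRel (α := X)) i.1 j.1 with h | h | h
    · exact Or.inl h
    · exact (hij (Subtype.ext h)).elim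
    · exact Or.inr h
  refine ⟨{x : X // Joined o x ∧ x ∉ Td (rj WellOrderingRel o) o x},
    fun i => hh (φ i) (c i),
    fun i j => WellOrderingRel i.1 j.1 ∧ ∃ z, hh (φ i) (c i) z < 1 ∧ hh (φ j) (c j) z < 1, ?_⟩
  refine ⟨fun i => hh_cont (hφ i), fun i x => hh_mem (hφ i) x, fun i => hh_root (hφ i),
    fun i => ⟨i.1, hself i⟩, ?_, ?_, ?_, ?_, ?_, ?_⟩
  · have hwf : WellFounded (WellOrderingRel (α := X)) := IsWellFounded.wf
    exact Subrelation.wf (fun h => h.1) (InvImage.wf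
      (fun i : {x : X // Joined o x ∧ x ∉ Td (rj WellOrderingRel o) o x} => i.1) hwf)
  · rintro i j k ⟨hij, z, h1, h2⟩ ⟨hjk, z', h3, h4⟩
    refine ⟨trans_of WellOrderingRel hij hjk, z', ?_, h4⟩
    rw [hconst i j hij z h1 h2 z' h3]
    exact h1
  · intro i j x hij h1 h2
    rcases htri i j hij with h | h
    · exact Or.inl ⟨h, x, h1, h2⟩
    · exact Or.inr ⟨h, x, h2, h1⟩
  · rintro i j ⟨hij, z, h1, h2⟩
    exact ⟨hh (φ i) (c i) z, (hh_mem (hφ i) z).1, h1, hconst i j hij z h1 h2⟩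
  · intro j
    obtain ⟨p⟩ := j.2.1
    have hlt : ∀ i : {i : {x : X // Joined o x ∧ x ∉ Td (rj WellOrderingRel o) o x} //
        WellOrderingRel i.1 j.1 ∧ ∃ z, hh (φ i) (c i) z < 1 ∧ hh (φ j) (c j) z < 1},
        hh (φ i.1) (c i.1) j.1 < 1 := by
      rintro ⟨i, hij, z, h1, h2⟩
      show hh (φ i) (c i) j.1 < 1
      rw [hconst i j hij z h1 h2 j.1 (hself j)]
      exact h1
    have hC : Countable {i : {x : X // Joined o x ∧ x ∉ Td (rj WellOrderingRel o) o x} //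
        WellOrderingRel i.1 j.1 ∧ ∃ z, hh (φ i) (c i) z < 1 ∧ hh (φ j) (c j) z < 1} := by
      refine countable_of_path (fun i s => hh (φ i.1) (c i.1) (p s))
        (fun i => hh (φ i.1) (c i.1) j.1) ?_ ?_ ?_ hlt ?_
      · intro i
        exact (hh_cont (hφ i.1)).comp p.continuous
      · intro i
        show hh (φ i.1) (c i.1) (p 0) = 1
        rw [p.source]
        exact hh_root (hφ i.1)
      · intro i
        show hh (φ i.1) (c i.1) (p 1) = hh (φ i.1) (c i.1) j.1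
        rw [p.target]
      · intro i i' hne
        have hne' : i.1 ≠ i'.1 := fun e => hne (Subtype.ext e)
        rcases htri i.1 i'.1 hne' with h | h
        · exact Or.inl fun s hs => hconst i.1 i'.1 h j.1 (hlt i) (hlt i') (p s) hs
        · exact Or.inr fun s hs => hconst i'.1 i.1 h j.1 (hlt i') (hlt i) (p s) hs
    exact hC
  · intro y y' hne
    obtain ⟨x, hxj, hxT, a, a', haa, ha, ha', h1, h2⟩ :=
      exists_two' hD WellOrderingRel ho hne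
    exact ⟨⟨x, hxj, hxT⟩, sep_of_two hD (hφ ⟨x, hxj, hxT⟩) ha ha' haa h1 h2⟩

end Pool.DMX
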