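import Pool.Agent.Helper84.DM.E8
import Pool.Agent.Helper84.DM.XP

/-!
DM-E9: the strong form of Theorem M.
-/

set_option autoImplicit false

namespace Pool.DMX

open Set Topology

/-- Theorem M, strong form (with a root). -/
theorem main_root (X : Type) [TopologicalSpace X] [CompactSpace X] [ConnectedSpace X] [T2Space X]
    (h : ∀ x y : X, x ≠ y → ∃ z : X, z ≠ x ∧ z ≠ y ∧
        ∃ U V : Set X, IsOpen U ∧ IsOpen V ∧ Disjoint U V ∧ U ∪ V = {z}ᶜ ∧ x ∈ U ∧ y ∈ V)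
    (o : X) (ho : ∀ z x : X, (∃ U V : Set X, IsOpen U ∧ IsOpen V ∧ Disjoint U V ∧ U ∪ V = {z}ᶜ ∧
        o ∈ U ∧ x ∈ V) → Joined o z) :
    ∃ (Y : Type) (_ : TopologicalSpace Y), CompactSpace Y ∧ ConnectedSpace Y ∧ T2Space Y ∧
      (∀ A B : Set Y, IsClosed A → IsConnected A → IsClosed B → IsConnected B →
        (A ∩ B).Nonempty → A ⊆ B ∨ B ⊆ A) ∧
      ∃ f : X → Set Y,
        (∀ x, IsClosed (f x) ∧ IsConnected (f x)) ∧
        Function.Injective f ∧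
        (∀ U : Set Y, IsOpen U →
          IsOpen {x : X | f x ⊆ U} ∧ IsOpen {x : X | (f x ∩ U).Nonempty}) := by
  obtain ⟨J₀, g, lt, hL⟩ := exists_let' X (dn_of h) o (by
    rintro z x ⟨U, V, ⟨h1, h2, h3, h4⟩, h5, h6⟩
    exact ho z x ⟨U, V, h1, h2, h3, h4, h5, h6⟩)
  exact main_of_yside (yside (J₀ ⊕ ℕ)) hL

/-- Theorem M, strong form: a dendron in which any two cut points can be joined by a path. -/
theorem main' (X : Type) [TopologicalSpace X] [CompactSpace X] [ConnectedSpace X] [T2Space X]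
    (h : ∀ x y : X, x ≠ y → ∃ z : X, z ≠ x ∧ z ≠ y ∧
        ∃ U V : Set X, IsOpen U ∧ IsOpen V ∧ Disjoint U V ∧ U ∪ V = {z}ᶜ ∧ x ∈ U ∧ y ∈ V)
    (hJ : ∀ z w : X,
      (∃ U V : Set X, IsOpen U ∧ IsOpen V ∧ Disjoint U V ∧ U ∪ V = {z}ᶜ ∧
        U.Nonempty ∧ V.Nonempty) →
      (∃ U V : Set X, IsOpen U ∧ IsOpen V ∧ Disjoint U V ∧ U ∪ V = {w}ᶜ ∧
        U.Nonempty ∧ V.Nonempty) → Joined z w) :
    ∃ (Y : Type) (_ : TopologicalSpace Y), CompactSpace Y ∧ ConnectedSpace Y ∧ T2Space Y ∧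
      (∀ A B : Set Y, IsClosed A → IsConnected A → IsClosed B → IsConnected B →
        (A ∩ B).Nonempty → A ⊆ B ∨ B ⊆ A) ∧
      ∃ f : X → Set Y,
        (∀ x, IsClosed (f x) ∧ IsConnected (f x)) ∧
        Function.Injective f ∧
        (∀ U : Set Y, IsOpen U →
          IsOpen {x : X | f x ⊆ U} ∧ IsOpen {x : X | (f x ∩ U).Nonempty}) := by
  by_cases hs : ∃ x y : X, x ≠ y
  · obtain ⟨x, y, hxy⟩ := hs
    obtain ⟨o, -, -, U₀, V₀, a1, a2, a3, a4, a5, a6⟩ := h x y hxy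
    refine main_root X h o ?_
    rintro z w ⟨U, V, h1, h2, h3, h4, h5, h6⟩
    exact hJ o z ⟨U₀, V₀, a1, a2, a3, a4, ⟨x, a5⟩, ⟨y, a6⟩⟩ ⟨U, V, h1, h2, h3, h4, ⟨o, h5⟩, ⟨w, h6⟩⟩
  · obtain ⟨o⟩ : Nonempty X := inferInstance
    refine main_root X h o ?_
    rintro z w ⟨U, V, h1, h2, h3, h4, h5, h6⟩
    exact (hs ⟨o, w, fun e => Set.disjoint_left.1 h3 h5 (e ▸ h6)⟩).elim

end Pool.DMX
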