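import Pool.Agent.Helper84.DM.Basic

/-!
# DM-Map: permutations of the letters

All by induction on terms or by definition. `act σ` is a homeomorphism with inverse `act σ.symm`
(reindexing of coordinates), `val (e.map σ) (act σ y) = val e y`.

`act_image_Fl`: `act σ` is a homeomorphism; `T` is a preconnected subset of `FO O K` touching all `e ∈ O` iff
`act σ '' T` is a preconnected subset of `act σ '' FO O K = FO (Ex.map σ '' O) (act σ '' K)` touching all `e.map σ`, `e ∈ O`.
-/

open Set Topology TopologicalSpace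

namespace Pool.DM

variable {J : Type}

theorem Ex.map_id (e : Ex J) : e.map (fun j => j) = e := by
  induction e with
  | lt j => rfl
  | fo e ih => simp only [Ex.map, ih]
  | cn q => rfl
  | ad a b ha hb => simp only [Ex.map, ha, hb]
  | sm q a ha => simp only [Ex.map, ha]
  | mx a b ha hb => simp only [Ex.map, ha, hb]

theorem Ex.map_map {J' J'' : Type} (σ : J → J') (ρ : J' → J'') (e : Ex J) :
    (e.map σ).map ρ = e.map (fun j => ρ (σ j)) := by
  induction e with
  | lt j => rfl
  | fo e ih => simp only [Ex.map, ih]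
  | cn q => rfl
  | ad a b ha hb => simp only [Ex.map, ha, hb]
  | sm q a ha => simp only [Ex.map, ha]
  | mx a b ha hb => simp only [Ex.map, ha, hb]

@[simp] theorem map_symm_map (σ : Equiv.Perm J) (e : Ex J) : (e.map σ).map σ.symm = e := by
  rw [Ex.map_map]
  simp only [Equiv.symm_apply_apply]
  exact Ex.map_id e

@[simp] theorem map_map_symm (σ : Equiv.Perm J) (e : Ex J) : (e.map σ.symm).map σ = e := by
  rw [Ex.map_map]
  simp only [Equiv.apply_symm_apply]
  exact Ex.map_id e

theorem map_injective (σ : Equiv.Perm J) : Function.Injective (Ex.map σ : Ex J → Ex J) := by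
  intro a b h
  have h2 : (a.map σ).map σ.symm = (b.map σ).map σ.symm := congrArg (fun e => Ex.map σ.symm e) h
  rwa [map_symm_map, map_symm_map] at h2

@[simp] theorem sz_map {J' : Type} (σ : J → J') (e : Ex J) : (e.map σ).sz = e.sz := by
  induction e with
  | lt j => rfl
  | fo e ih => simp only [Ex.map, Ex.sz, ih]
  | cn q => rfl
  | ad a b ha hb => simp only [Ex.map, Ex.sz, ha, hb]
  | sm q a ha => simp only [Ex.map, Ex.sz, ha]
  | mx a b ha hb => simp only [Ex.map, Ex.sz, ha, hb]

theorem fs_map (σ : Equiv.Perm J) (e : Ex J) : fs (e.map σ) = Ex.map σ '' fs e := by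
  induction e with
  | lt j => simp only [Ex.map, fs, Set.image_empty]
  | fo e _ => simp only [Ex.map, fs, Set.image_singleton]
  | cn q => simp only [Ex.map, fs, Set.image_empty]
  | ad a b ha hb => simp only [Ex.map, fs, ha, hb, Set.image_union]
  | sm q a ha => simp only [Ex.map, fs, ha]
  | mx a b ha hb => simp only [Ex.map, fs, ha, hb, Set.image_union]

theorem ls_map {J' : Type} (σ : J → J') (e : Ex J) : ls (e.map σ) = σ '' ls e := by
  induction e with
  | lt j => simp only [Ex.map, ls, Set.image_singleton]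
  | fo e ih => simp only [Ex.map, ls, ih]
  | cn q => simp only [Ex.map, ls, Set.image_empty]
  | ad a b ha hb => simp only [Ex.map, ls, ha, hb, Set.image_union]
  | sm q a ha => simp only [Ex.map, ls, ha]
  | mx a b ha hb => simp only [Ex.map, ls, ha, hb, Set.image_union]

theorem map_cl (σ : Equiv.Perm J) (e : Ex J) : (cl e).map σ = cl (e.map σ) := by
  rfl

/-- `e.map σ` depends only on the values of `σ` on the letters of `e`. -/
theorem map_congr {J' : Type} {σ ρ : J → J'} {e : Ex J} (h : ∀ j ∈ ls e, σ j = ρ j) :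
    e.map σ = e.map ρ := by
  induction e with
  | lt j => exact congrArg Ex.lt (h j (Set.mem_singleton j))
  | fo e ih => exact congrArg Ex.fo (ih h)
  | cn q => rfl
  | ad a b ha hb =>
    have e1 := ha (fun j hj => h j (Or.inl hj))
    have e2 := hb (fun j hj => h j (Or.inr hj))
    simp only [Ex.map, e1, e2]
  | sm q a ha =>
    have e1 := ha h
    simp only [Ex.map, e1]
  | mx a b ha hb =>
    have e1 := ha (fun j hj => h j (Or.inl hj))
    have e2 := hb (fun j hj => h j (Or.inr hj))
    simp only [Ex.map, e1, e2]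

theorem val_map_act (σ : Equiv.Perm J) (e : Ex J) (y : U J) :
    val (e.map σ) (act σ y) = val e y := by
  induction e with
  | lt j =>
    simp only [Ex.map, val, act, Equiv.symm_apply_apply]
  | fo e _ =>
    simp only [Ex.map, val, act, map_symm_map]
  | cn q => rfl
  | ad a b ha hb => simp only [Ex.map, val, ha, hb]
  | sm q a ha => simp only [Ex.map, val, ha]
  | mx a b ha hb => simp only [Ex.map, val, ha, hb]

theorem val_act (σ : Equiv.Perm J) (e : Ex J) (y : U J) :
    val e (act σ y) = val (e.map σ.symm) y := by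
  have h := val_map_act σ (e.map σ.symm) y
  rwa [map_map_symm] at h

@[simp] theorem act_fst (σ : Equiv.Perm J) (y : U J) (j : J) :
    (act σ y).1 j = y.1 (σ.symm j) := by
  rfl

@[simp] theorem act_snd (σ : Equiv.Perm J) (y : U J) (e : Ex J) :
    (act σ y).2 e = y.2 (e.map σ.symm) := by
  rfl

@[simp] theorem act_symm_act (σ : Equiv.Perm J) (y : U J) : act σ.symm (act σ y) = y := by
  refine Prod.ext (funext fun j => ?_) (funext fun e => ?_)
  · show y.1 (σ.symm (σ.symm.symm j)) = y.1 j
    rw [Equiv.symm_symm, Equiv.symm_apply_apply]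
  · show y.2 ((e.map σ.symm.symm).map σ.symm) = y.2 e
    rw [Equiv.symm_symm, map_symm_map]

@[simp] theorem act_act_symm (σ : Equiv.Perm J) (y : U J) : act σ (act σ.symm y) = y := by
  refine Prod.ext (funext fun j => ?_) (funext fun e => ?_)
  · show y.1 (σ.symm.symm (σ.symm j)) = y.1 j
    rw [Equiv.symm_symm, Equiv.apply_symm_apply]
  · show y.2 ((e.map σ.symm).map σ.symm.symm) = y.2 e
    rw [Equiv.symm_symm, map_map_symm]

theorem act_act (σ ρ : Equiv.Perm J) (y : U J) : act σ (act ρ y) = act (σ * ρ) y := by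
  refine Prod.ext (funext fun j => ?_) (funext fun e => ?_)
  · rfl
  · show y.2 ((e.map σ.symm).map ρ.symm) = y.2 (e.map (σ * ρ).symm)
    rw [Ex.map_map]
    rfl

theorem act_upd (σ : Equiv.Perm J) (y : U J) (e : Ex J) (t : I5) :
    act σ (upd y e t) = upd (act σ y) (e.map σ) t := by
  refine Prod.ext rfl (funext fun e' => ?_)
  rw [act_snd]
  by_cases h : e' = e.map σ
  · subst h
    rw [upd_same, map_symm_map, upd_same]
  · rw [upd_ne _ _ h, act_snd]
    refine upd_ne _ _ ?_
    intro h2
    apply h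
    rw [← h2, map_map_symm]

theorem mem_image_map {σ : Equiv.Perm J} {O : Set (Ex J)} {e : Ex J} :
    e ∈ Ex.map σ '' O ↔ e.map σ.symm ∈ O := by
  constructor
  · rintro ⟨e', h, rfl⟩
    rwa [map_symm_map]
  · intro h
    exact ⟨_, h, map_map_symm σ e⟩

theorem act_zer (σ : Equiv.Perm J) (O : Set (Ex J)) (y : U J) :
    act σ (zer O y) = zer (Ex.map σ '' O) (act σ y) := by
  refine Prod.ext rfl (funext fun e' => ?_)
  rw [act_snd]
  by_cases h : e'.map σ.symm ∈ O
  · rw [zer_mem h, zer_mem (mem_image_map.mpr h)]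
  · rw [zer_notMem h, zer_notMem (fun h2 => h (mem_image_map.mp h2)), act_snd]

theorem act_tr (σ : Equiv.Perm J) (A : Set (Ex J)) (y : U J) :
    act σ (tr A y) = tr (Ex.map σ '' A) (act σ y) := by
  refine Prod.ext rfl (funext fun e' => ?_)
  rw [act_snd]
  by_cases h : e'.map σ.symm ∈ A
  · rw [tr_mem h, tr_mem (mem_image_map.mpr h), act_snd]
  · rw [tr_notMem h, tr_notMem (fun h2 => h (mem_image_map.mp h2))]

theorem act_sht (σ : Equiv.Perm J) (ε : ℝ) (O : Set (Ex J)) (y : U J) :
    act σ (sht ε O y) = sht ε (Ex.map σ '' O) (act σ y) := by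
  refine Prod.ext rfl (funext fun e' => ?_)
  rw [act_snd]
  by_cases h : e'.map σ.symm ∈ O
  · rw [sht_mem h, sht_mem (mem_image_map.mpr h)]
    have e1 : sv e' (act σ y) = sv (e'.map σ.symm) y := by
      unfold sv
      rw [val_act]
    rw [e1]
  · rw [sht_notMem h, sht_notMem (fun h2 => h (mem_image_map.mp h2)), act_snd]

theorem nt_act (σ : Equiv.Perm J) (K : Set (U J)) (e : Ex J) :
    Nt (act σ '' K) (e.map σ) ↔ Nt K e := by
  constructor
  · rintro ⟨_, ⟨y, hy, rfl⟩, h⟩
    rw [val_map_act] at h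
    exact ⟨y, hy, h⟩
  · rintro ⟨y, hy, h⟩
    exact ⟨act σ y, ⟨y, hy, rfl⟩, by rwa [val_map_act]⟩

theorem act_image_FO (σ : Equiv.Perm J) (O : Set (Ex J)) (K : Set (U J)) :
    act σ '' FO O K = FO (Ex.map σ '' O) (act σ '' K) := by
  ext z
  constructor
  · rintro ⟨y, ⟨h1, h2⟩, rfl⟩
    refine ⟨?_, ?_⟩
    · rw [← act_zer]
      exact ⟨_, h1, rfl⟩
    · rintro _ ⟨e, he, rfl⟩
      have h3 := h2 e he
      have e1 : sv (e.map σ) (act σ y) = sv e y := by
        unfold sv
        rw [val_map_act]
      rw [e1, act_snd, map_symm_map]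
      exact h3
  · rintro ⟨h1, h2⟩
    refine ⟨act σ.symm z, ⟨?_, ?_⟩, act_act_symm σ z⟩
    · obtain ⟨w, hw, hw2⟩ := h1
      have h3 : zer O (act σ.symm z) = w := by
        have h4 : act σ (zer O (act σ.symm z)) = act σ w := by
          rw [act_zer, act_act_symm, hw2]
        have h5 := congrArg (act σ.symm) h4
        rwa [act_symm_act, act_symm_act] at h5
      rw [h3]
      exact hw
    · intro e he
      have h3 := h2 (e.map σ) ⟨e, he, rfl⟩
      have e1 : sv e (act σ.symm z) = sv (e.map σ) z := by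
        unfold sv
        rw [val_act, Equiv.symm_symm]
      rw [e1, act_snd, Equiv.symm_symm]
      exact h3

theorem act_image_Fl (σ : Equiv.Perm J) (O : Set (Ex J)) (K : Set (U J)) :
    act σ '' Fl O K = Fl (Ex.map σ '' O) (act σ '' K) := by
  ext z
  constructor
  · rintro ⟨y, ⟨T, ⟨h1, h2, h3⟩, hy⟩, rfl⟩
    refine ⟨act σ '' T, ⟨h1.image _ (continuous_act σ).continuousOn, ?_, ?_⟩, ⟨y, hy, rfl⟩⟩
    · rw [← act_image_FO]
      exact Set.image_mono h2
    · rintro _ ⟨e, he, rfl⟩
      exact (nt_act σ T e).mpr (h3 e he)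
  · rintro ⟨T, ⟨h1, h2, h3⟩, hz⟩
    refine ⟨act σ.symm z, ⟨act σ.symm '' T,
      ⟨h1.image _ (continuous_act σ.symm).continuousOn, ?_, ?_⟩, ⟨z, hz, rfl⟩⟩,
      act_act_symm σ z⟩
    · rintro _ ⟨w, hw, rfl⟩
      have h4 := h2 hw
      rw [← act_image_FO] at h4
      obtain ⟨v, hv, rfl⟩ := h4
      rw [act_symm_act]
      exact hv
    · intro e he
      have h4 := h3 (e.map σ) ⟨e, he, rfl⟩
      have h5 := (nt_act σ.symm T (e.map σ)).mpr h4
      rwa [map_symm_map] at h5

theorem step_act (σ : Equiv.Perm J) (K : Set (U J)) (e : Ex J) :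
    act σ '' step K e = step (act σ '' K) (e.map σ) := by
  classical
  unfold step
  by_cases h : Nt K e
  · rw [if_pos h, if_pos ((nt_act σ K e).mpr h), act_image_Fl, Set.image_singleton]
  · rw [if_neg h, if_neg (fun h2 => h ((nt_act σ K e).mp h2))]

theorem Cpt.act (σ : Equiv.Perm J) {A : Set (Ex J)} {K : Set (U J)} (h : Cpt A K) :
    Cpt (Ex.map σ '' A) (act σ '' K) := by
  refine ⟨?_, h.conn.image _ (continuous_act σ).continuousOn, ?_⟩
  · exact (h.closed.isCompact.image (continuous_act σ)).isClosed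
  · rintro _ ⟨y, hy, rfl⟩ e he
    rw [act_snd]
    exact h.flat y hy _ (fun h2 => he (mem_image_map.mpr h2))

end Pool.DM
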