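import Pool.Agent.Helper84.DM.YBasic
import Pool.Agent.Helper84.DM.Map

/-!
# DM-Equi: `Y J` is invariant under all permutations of the letters

`IsC.map`: induction with `step_act`, `fs_map`, `map_injective` (`act σ '' {y | ∀ e, y.2 e = p5 0}` is this set itself). For `Y_act`: if
`IsC A K` then `IsC (map σ.symm '' A) (act σ.symm '' K)`, so `tr (map σ.symm '' A) y ∈ act σ.symm '' K`; apply `act σ` and `act_tr`.
-/

open Set Topology TopologicalSpace

namespace Pool.DM

variable {J : Type}

theorem IsC.map (σ : Equiv.Perm J) {A : Set (Ex J)} {K : Set (U J)} (h : IsC A K) :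
    IsC (Ex.map σ '' A) (act σ '' K) := by
  induction h with
  | nil =>
    have h1 : act σ '' {y : U J | ∀ e, y.2 e = p5 0} = {y : U J | ∀ e, y.2 e = p5 0} := by
      ext y
      constructor
      · rintro ⟨z, hz, rfl⟩ e
        rw [act_snd]
        exact hz _
      · intro hy
        refine ⟨act σ.symm y, ?_, act_act_symm σ y⟩
        intro e
        rw [act_snd]
        exact hy _
    rw [h1, image_empty]
    exact IsC.nil
  | @cons A K e hK he hf ih =>
    rw [image_insert_eq, step_act]
    refine IsC.cons ih ?_ ?_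
    · rintro ⟨e', he', h2⟩
      rw [map_injective σ h2] at he'
      exact he he'
    · rw [fs_map]
      exact image_mono hf

theorem image_map_symm (σ : Equiv.Perm J) (A : Set (Ex J)) :
    Ex.map σ '' (Ex.map σ.symm '' A) = A := by
  rw [image_image]
  simp

theorem Y_act (σ : Equiv.Perm J) {y : U J} (hy : y ∈ Y J) : act σ y ∈ Y J := by
  intro A K hAK
  obtain ⟨k, hk, h1⟩ := hy _ _ (IsC.map σ.symm hAK)
  have h2 : k = tr A (act σ y) := by
    rw [← act_act_symm σ k, h1, act_tr, image_map_symm]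
  rw [← h2]
  exact hk

theorem act_image_Y (σ : Equiv.Perm J) : act σ '' Y J = Y J := by
  apply Subset.antisymm
  · rintro y ⟨z, hz, rfl⟩
    exact Y_act σ hz
  · intro y hy
    exact ⟨act σ.symm y, Y_act σ.symm hy, act_act_symm σ y⟩

theorem act_map_iff (σ : Equiv.Perm J) (e : Ex J) : Act (e.map σ) ↔ Act e := by
  constructor
  · rintro ⟨y, hy, h⟩
    refine ⟨act σ.symm y, Y_act σ.symm hy, ?_⟩
    rw [val_act, Equiv.symm_symm]
    exact h
  · rintro ⟨y, hy, h⟩
    refine ⟨act σ y, Y_act σ hy, ?_⟩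
    rw [val_map_act]
    exact h

/-- `σ` maps the level `A` onto the level `Ex.map σ '' A`. -/
theorem Yc_act (σ : Equiv.Perm J) {A : Set (Ex J)} {y : U J} (hy : y ∈ Yc A) :
    act σ y ∈ Yc (Ex.map σ '' A) := by
  obtain ⟨w, hw, rfl⟩ := hy
  exact ⟨act σ w, Y_act σ hw, (act_tr σ A w).symm⟩

end Pool.DM
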