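import Pool.Agent.Helper84.DM.Th

/-!
# DM-Fill: the filling lemma

`P`, `X` compact with closed partial orders, `S` a thread in `P` from `b` to `z`, `Φ : P → X` monotone on `S`,
`𝒢 ⊆ P × X` closed, containing the points `(p, Φ p)`, `p ∈ S`. Suppose that the jumps of `Φ` from the left and from the
right can be filled by threads inside the fibres `𝒢_p`. Then there is a thread in `𝒢` from `(b, Φ b)` to
`(z, Φ z)` that lies over `S`.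

Proof. For `p ∈ S`, `p ≠ b`, let `Φ⁻ p` be the least upper bound of `{Φ q | q ∈ S, q < p}` (`exists_lub`; a nonempty
chain). The chain `{(q, Φ q) | q ∈ S, q < p} ⊆ 𝒢` has the least upper bound `(p, Φ⁻ p)` (`Thr.isLUB_below`), so
`(p, Φ⁻ p) ∈ 𝒢` (`lub_mem_closure`); this is the hypothesis `(p, u) ∈ 𝒢` in `hl`. Let `L p` be a thread from `Φ⁻ p` to
`Φ p` in `𝒢_p` (`{Φ p}` if `p = b`). In the same way `Φ⁺ p` and `M p` from `Φ p` to `Φ⁺ p` (`{Φ p}` if `p = z`).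
`N p = L p ∪ M p` is a thread in `𝒢_p` (`Thr.union`). Let `𝒯 = {(p, x) | p ∈ S, x ∈ N p} ⊆ 𝒢`.

Chain: for `p < q` in `S` there is `p' ∈ S` strictly between (`Thr.exists_between`), and
`x ≤ Φ⁺ p ≤ Φ p' ≤ Φ⁻ q ≤ y` for `x ∈ N p`, `y ∈ N q`.

Closed: let `(p, x) ∈ closure 𝒯`; `p ∈ S`. `(p, x)` is comparable with all elements of `𝒯` (`chain_closure`). For `q ∈ S`,
`q < p`: `(q, Φ q) ≤ (p, x)` (it is not `≥`), so `Φ⁻ p ≤ x` if `p ≠ b`; if `p = b` then `Φ b ≤ x` because all elements of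
`𝒯`, so also `(p, x)`, are `≥ (b, Φ b)`. In the same way `x ≤ Φ⁺ p` resp. `x ≤ Φ z`. `x` is comparable with all elements of
the thread `N p` and between its end points, so `x ∈ N p` (`Thr.mem_of_comparable`).

Dense: `(p, x) < (q, y)` in `𝒯`: if `p = q` use `Thr.exists_between` for `N p`; if `p < q` take `p' ∈ S` strictly between and the
point `(p', Φ p')`. So `𝒯` is a thread by `thr_of_dense`.
-/

open Set Topology TopologicalSpace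

namespace Pool.DM

variable {P X : Type*} [TopologicalSpace P] [PartialOrder P] [OrderClosedTopology P]
  [CompactSpace P] [TopologicalSpace X] [PartialOrder X] [OrderClosedTopology X] [CompactSpace X]

private theorem fill_left {S : Set P} {b z : P} (hS : Thr S b z) {Φ : P → X}
    (hΦ : ∀ p ∈ S, ∀ q ∈ S, p ≤ q → Φ p ≤ Φ q) {𝒢 : Set (P × X)} (h𝒢 : IsClosed 𝒢)
    (hmem : ∀ p ∈ S, (p, Φ p) ∈ 𝒢)
    (hl : ∀ p ∈ S, p ≠ b → ∀ u, IsLUB (Φ '' {q | q ∈ S ∧ q < p}) u → (p, u) ∈ 𝒢 →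
      ∃ T, Thr T u (Φ p) ∧ ∀ x ∈ T, (p, x) ∈ 𝒢) :
    ∀ p ∈ S, ∃ (u : X) (T : Set X), Thr T u (Φ p) ∧ (∀ x ∈ T, (p, x) ∈ 𝒢) ∧
      (∀ q ∈ S, q < p → Φ q ≤ u) ∧ Φ b ≤ u ∧
      (∀ v, Φ b ≤ v → (∀ q ∈ S, q < p → Φ q ≤ v) → u ≤ v) := by
  intro p hp
  by_cases hpb : p = b
  · subst hpb
    refine ⟨Φ p, {Φ p}, thr_singleton _, ?_, ?_, le_rfl, fun v hv _ => hv⟩
    · rintro x rfl
      exact hmem p hp
    · intro q hq hqp
      exact absurd (hS.low q hq) (not_le_of_gt hqp)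
  · have hlow : b < p := lt_of_le_of_ne (hS.low p hp) (Ne.symm hpb)
    have hne := hS.below_nonempty hp hpb
    have hch : ∀ x ∈ Φ '' {q | q ∈ S ∧ q < p}, ∀ y ∈ Φ '' {q | q ∈ S ∧ q < p},
        x ≤ y ∨ y ≤ x := by
      rintro x ⟨q, ⟨hq, -⟩, rfl⟩ y ⟨r, ⟨hr, -⟩, rfl⟩
      rcases hS.chain q hq r hr with h | h
      · exact Or.inl (hΦ q hq r hr h)
      · exact Or.inr (hΦ r hr q hq h)
    obtain ⟨u, hu, -⟩ := exists_lub hch (hne.image Φ)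
    have hgr : (p, u) ∈ 𝒢 := by
      have hch2 : ∀ x ∈ (fun q => (q, Φ q)) '' {q | q ∈ S ∧ q < p},
          ∀ y ∈ (fun q => (q, Φ q)) '' {q | q ∈ S ∧ q < p}, x ≤ y ∨ y ≤ x := by
        rintro x ⟨q, ⟨hq, -⟩, rfl⟩ y ⟨r, ⟨hr, -⟩, rfl⟩
        rcases hS.chain q hq r hr with h | h
        · exact Or.inl ⟨h, hΦ q hq r hr h⟩
        · exact Or.inr ⟨h, hΦ r hr q hq h⟩
      have hlub : IsLUB ((fun q => (q, Φ q)) '' {q | q ∈ S ∧ q < p}) (p, u) := by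
        rw [isLUB_prod, image_image, image_image]
        refine ⟨?_, hu⟩
        simpa using hS.isLUB_below hp hpb
      have hmc := lub_mem_closure hch2 (hne.image _) hlub
      have hsub : (fun q => (q, Φ q)) '' {q | q ∈ S ∧ q < p} ⊆ 𝒢 := by
        rintro x ⟨q, ⟨hq, -⟩, rfl⟩
        exact hmem q hq
      exact (h𝒢.closure_subset_iff.mpr hsub) hmc
    obtain ⟨T, hT, hTG⟩ := hl p hp hpb u hu hgr
    refine ⟨u, T, hT, hTG, ?_, ?_, ?_⟩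
    · intro q hq hqp
      exact hu.1 ⟨q, ⟨hq, hqp⟩, rfl⟩
    · exact hu.1 ⟨b, ⟨hS.left, hlow⟩, rfl⟩
    · intro v _ hv
      apply hu.2
      rintro x ⟨q, ⟨hq, hqp⟩, rfl⟩
      exact hv q hq hqp

private theorem fill_right {S : Set P} {b z : P} (hS : Thr S b z) {Φ : P → X}
    (hΦ : ∀ p ∈ S, ∀ q ∈ S, p ≤ q → Φ p ≤ Φ q) {𝒢 : Set (P × X)} (h𝒢 : IsClosed 𝒢)
    (hmem : ∀ p ∈ S, (p, Φ p) ∈ 𝒢)
    (hr : ∀ p ∈ S, p ≠ z → ∀ u, IsGLB (Φ '' {q | q ∈ S ∧ p < q}) u → (p, u) ∈ 𝒢 →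
      ∃ T, Thr T (Φ p) u ∧ ∀ x ∈ T, (p, x) ∈ 𝒢) :
    ∀ p ∈ S, ∃ (u : X) (T : Set X), Thr T (Φ p) u ∧ (∀ x ∈ T, (p, x) ∈ 𝒢) ∧
      (∀ q ∈ S, p < q → u ≤ Φ q) ∧ u ≤ Φ z ∧
      (∀ v, v ≤ Φ z → (∀ q ∈ S, p < q → v ≤ Φ q) → v ≤ u) := by
  intro p hp
  by_cases hpz : p = z
  · subst hpz
    refine ⟨Φ p, {Φ p}, thr_singleton _, ?_, ?_, le_rfl, fun v hv _ => hv⟩
    · rintro x rfl
      exact hmem p hp
    · intro q hq hqp
      exact absurd (hS.high q hq) (not_le_of_gt hqp)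
  · have hhigh : p < z := lt_of_le_of_ne (hS.high p hp) hpz
    have hne := hS.above_nonempty hp hpz
    have hch : ∀ x ∈ Φ '' {q | q ∈ S ∧ p < q}, ∀ y ∈ Φ '' {q | q ∈ S ∧ p < q},
        x ≤ y ∨ y ≤ x := by
      rintro x ⟨q, ⟨hq, -⟩, rfl⟩ y ⟨r, ⟨hr, -⟩, rfl⟩
      rcases hS.chain q hq r hr with h | h
      · exact Or.inl (hΦ q hq r hr h)
      · exact Or.inr (hΦ r hr q hq h)
    obtain ⟨u, hu, -⟩ := exists_glb hch (hne.image Φ)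
    have hgr : (p, u) ∈ 𝒢 := by
      have hch2 : ∀ x ∈ (fun q => (q, Φ q)) '' {q | q ∈ S ∧ p < q},
          ∀ y ∈ (fun q => (q, Φ q)) '' {q | q ∈ S ∧ p < q}, x ≤ y ∨ y ≤ x := by
        rintro x ⟨q, ⟨hq, -⟩, rfl⟩ y ⟨r, ⟨hr, -⟩, rfl⟩
        rcases hS.chain q hq r hr with h | h
        · exact Or.inl ⟨h, hΦ q hq r hr h⟩
        · exact Or.inr ⟨h, hΦ r hr q hq h⟩
      have hglb : IsGLB ((fun q => (q, Φ q)) '' {q | q ∈ S ∧ p < q}) (p, u) := by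
        rw [isGLB_prod, image_image, image_image]
        refine ⟨?_, hu⟩
        simpa using hS.isGLB_above hp hpz
      have hmc := glb_mem_closure hch2 (hne.image _) hglb
      have hsub : (fun q => (q, Φ q)) '' {q | q ∈ S ∧ p < q} ⊆ 𝒢 := by
        rintro x ⟨q, ⟨hq, -⟩, rfl⟩
        exact hmem q hq
      exact (h𝒢.closure_subset_iff.mpr hsub) hmc
    obtain ⟨T, hT, hTG⟩ := hr p hp hpz u hu hgr
    refine ⟨u, T, hT, hTG, ?_, ?_, ?_⟩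
    · intro q hq hqp
      exact hu.1 ⟨q, ⟨hq, hqp⟩, rfl⟩
    · exact hu.1 ⟨z, ⟨hS.right, hhigh⟩, rfl⟩
    · intro v _ hv
      apply hu.2
      rintro x ⟨q, ⟨hq, hqp⟩, rfl⟩
      exact hv q hq hqp

theorem filling {S : Set P} {b z : P} (hS : Thr S b z) {Φ : P → X}
    (hΦ : ∀ p ∈ S, ∀ q ∈ S, p ≤ q → Φ p ≤ Φ q) {𝒢 : Set (P × X)} (h𝒢 : IsClosed 𝒢)
    (hmem : ∀ p ∈ S, (p, Φ p) ∈ 𝒢)
    (hl : ∀ p ∈ S, p ≠ b → ∀ u, IsLUB (Φ '' {q | q ∈ S ∧ q < p}) u → (p, u) ∈ 𝒢 →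
      ∃ T, Thr T u (Φ p) ∧ ∀ x ∈ T, (p, x) ∈ 𝒢)
    (hr : ∀ p ∈ S, p ≠ z → ∀ u, IsGLB (Φ '' {q | q ∈ S ∧ p < q}) u → (p, u) ∈ 𝒢 →
      ∃ T, Thr T (Φ p) u ∧ ∀ x ∈ T, (p, x) ∈ 𝒢) :
    ∃ 𝒯 : Set (P × X), Thr 𝒯 (b, Φ b) (z, Φ z) ∧ 𝒯 ⊆ 𝒢 ∧ ∀ t ∈ 𝒯, t.1 ∈ S := by
  haveI : Nonempty X := ⟨Φ b⟩
  choose! uL L hL hLG hLq hLb hLv using fill_left hS hΦ h𝒢 hmem hl
  choose! uR M hM hMG hMq hMz hMv using fill_right hS hΦ h𝒢 hmem hr
  set 𝒯 : Set (P × X) := {t | t.1 ∈ S ∧ t.2 ∈ L t.1 ∪ M t.1} with h𝒯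
  have hN : ∀ p ∈ S, Thr (L p ∪ M p) (uL p) (uR p) := fun p hp => (hL p hp).union (hM p hp)
  have hΦT : ∀ p ∈ S, (p, Φ p) ∈ 𝒯 := fun p hp => ⟨hp, Or.inl (hL p hp).right⟩
  have hlt : ∀ s ∈ 𝒯, ∀ t ∈ 𝒯, s.1 < t.1 → s ≤ t := by
    intro s hs t ht hst
    obtain ⟨p, hp, h1, h2⟩ := hS.exists_between hs.1 ht.1 hst
    refine ⟨hst.le, ?_⟩
    calc s.2 ≤ uR s.1 := (hN s.1 hs.1).high _ hs.2
      _ ≤ Φ p := hMq s.1 hs.1 p hp h1
      _ ≤ uL t.1 := hLq t.1 ht.1 p hp h2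
      _ ≤ t.2 := (hN t.1 ht.1).low _ ht.2
  have hch : ∀ s ∈ 𝒯, ∀ t ∈ 𝒯, s ≤ t ∨ t ≤ s := by
    intro s hs t ht
    rcases hS.chain s.1 hs.1 t.1 ht.1 with h | h
    · rcases eq_or_lt_of_le h with h | h
      · have h2 := ht.2
        rw [← h] at h2
        rcases (hN s.1 hs.1).chain s.2 hs.2 t.2 h2 with h' | h'
        · exact Or.inl ⟨h.le, h'⟩
        · exact Or.inr ⟨h.ge, h'⟩
      · exact Or.inl (hlt s hs t ht h)
    · rcases eq_or_lt_of_le h with h | h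
      · have h2 := ht.2
        rw [h] at h2
        rcases (hN s.1 hs.1).chain s.2 hs.2 t.2 h2 with h' | h'
        · exact Or.inl ⟨h.ge, h'⟩
        · exact Or.inr ⟨h.le, h'⟩
      · exact Or.inr (hlt t ht s hs h)
  have hlow : ∀ t ∈ 𝒯, (b, Φ b) ≤ t := fun t ht =>
    ⟨hS.low t.1 ht.1, (hLb t.1 ht.1).trans ((hN t.1 ht.1).low _ ht.2)⟩
  have hhigh : ∀ t ∈ 𝒯, t ≤ (z, Φ z) := fun t ht =>
    ⟨hS.high t.1 ht.1, ((hN t.1 ht.1).high _ ht.2).trans (hMz t.1 ht.1)⟩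
  have hclosed : IsClosed 𝒯 := by
    apply isClosed_of_closure_subset
    intro t ht
    have htS : t.1 ∈ S := by
      have hc : IsClosed {t : P × X | t.1 ∈ S} := hS.closed.preimage continuous_fst
      exact (hc.closure_subset_iff.mpr (fun s hs => hs.1)) ht
    have hcmp : ∀ s ∈ 𝒯, s ≤ t ∨ t ≤ s := fun s hs =>
      (chain_closure hch s (subset_closure hs) t ht)
    have htb : (b, Φ b) ≤ t :=
      (isClosed_Ici.closure_subset_iff.mpr (fun s hs => hlow s hs)) ht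
    have htz : t ≤ (z, Φ z) :=
      (isClosed_Iic.closure_subset_iff.mpr (fun s hs => hhigh s hs)) ht
    refine ⟨htS, (hN t.1 htS).mem_of_comparable ?_ ?_ ?_⟩
    · apply hLv t.1 htS _ htb.2
      intro q hq hqp
      rcases hcmp _ (hΦT q hq) with h | h
      · exact h.2
      · exact absurd h.1 (not_le_of_gt hqp)
    · apply hMv t.1 htS _ htz.2
      intro q hq hqp
      rcases hcmp _ (hΦT q hq) with h | h
      · exact absurd h.1 (not_le_of_gt hqp)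
      · exact h.2
    · intro y hy
      rcases hcmp (t.1, y) ⟨htS, hy⟩ with h | h
      · exact Or.inl h.2
      · exact Or.inr h.2
  refine ⟨𝒯, thr_of_dense hclosed hch (hΦT b hS.left) (hΦT z hS.right) hlow hhigh ?_, ?_, ?_⟩
  · intro s hs t ht hst
    rcases eq_or_lt_of_le hst.le.1 with h | h
    · have h2 := ht.2
      rw [← h] at h2
      have hlt2 : s.2 < t.2 := by
        refine lt_of_le_of_ne hst.le.2 ?_
        intro h'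
        exact hst.ne (Prod.ext h h')
      obtain ⟨w, hw, h3, h4⟩ := (hN s.1 hs.1).exists_between hs.2 h2 hlt2
      refine ⟨(s.1, w), ⟨hs.1, hw⟩, ?_, ?_⟩
      · refine lt_of_le_of_ne ⟨le_rfl, h3.le⟩ ?_
        intro h'
        exact h3.ne (congrArg Prod.snd h')
      · refine lt_of_le_of_ne ⟨h.le, h4.le⟩ ?_
        intro h'
        exact h4.ne (congrArg Prod.snd h')
    · obtain ⟨p, hp, h1, h2⟩ := hS.exists_between hs.1 ht.1 h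
      refine ⟨(p, Φ p), hΦT p hp, ?_, ?_⟩
      · refine lt_of_le_of_ne (hlt s hs _ (hΦT p hp) h1) ?_
        intro h'
        exact h1.ne (congrArg Prod.fst h')
      · refine lt_of_le_of_ne (hlt _ (hΦT p hp) t ht h2) ?_
        intro h'
        exact h2.ne (congrArg Prod.fst h')
  · rintro t ⟨h1, h2 | h2⟩
    · exact hLG t.1 h1 t.2 h2
    · exact hMG t.1 h1 t.2 h2
  · intro t ht
    exact ht.1

end Pool.DM
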