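import Pool.Agent.Helper84.DM.Full

/-!
# DM-Fin: the canonical continua of the finite closed sets of terms

`step_facts`: `K` a continuum flat over `A`, `e ∉ A`, `fs e ⊆ A`: if `Nt K e` use `fl1_cpt`, `fl1_onto`, otherwise `step K e = K`,
and `zer {e} y = y` for `y ∈ K` (flat). (`Cpt A K → Cpt (insert e A) K`.)

`step_comm`: `e ≠ e'`, both not in `A`, `fs e, fs e' ⊆ A`. `Nt (step K e) e' ↔ Nt K e'` (`step` maps onto `K` and `val e'` is not
changed by `zer {e}`). Both touched: both sides are `Fl {e, e'} K` (`fl_insert` for `insert e' {e}` and for `insert e {e'}`).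
Only `e` touched: both sides are `Fl {e} K`; only `e'` touched: both are `Fl {e'} K`; none: both are `K`.

`IsC.cpt`: by induction with `step_facts`; the start `{y | ∀ e, y.2 e = p5 0}` is closed and connected (homeomorphic to the product of the
intervals of the letters).

`IsC.exists`: induction on the cardinality of the finite closed set `A`: if `A ≠ ∅` take `e ∈ A` with
`e.sz` maximal; `A \ {e}` is closed (`e ∉ fs e'` for `e' ∈ A` by `sz_lt_of_mem_fs`), `fs e ⊆ A \ {e}`.

`IsC.unique`: induction on the cardinality of `A`. Let the last steps be `K = step K₀ e` over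
`A₀ = A \ {e}` and `K' = step K₀' e'` over `A₀' = A \ {e'}`. If `e = e'` use induction for `A₀`. Let
`e ≠ e'`; then `e' ∈ A₀`, `e ∈ A₀'`. `A₀'` is closed and `e' ∉ A₀'`, so `e' ∉ fs x` for all `x ∈ A₀'`, in
particular `e' ∉ fs e`; in the same way `e ∉ fs x` for `x ∈ A₀`, `e ∉ fs e'`. So `B = A \ {e, e'}` is
closed, `fs e ⊆ B`, `fs e' ⊆ B`. Let `IsC B M` (`IsC.exists`). By induction `K₀ = step M e'` and
`K₀' = step M e`; now `step_comm`.

`IsC.mono`: induction on the cardinality of `B \ A`: if `B ≠ A` take `e ∈ B \ A` with `e.sz` maximal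
in `B \ A`; then `e ∉ fs x` for all `x ∈ B` (for `x ∈ A` since `A` is closed), so `B \ {e}` is
closed and contains `A`; with `L'` its continuum `L = step L' e` (`IsC.cons` and `IsC.unique`); `zer {e} '' L = L'`, and
`tr A (zer {e} y) = tr A y`.

`IsC.full`: `O` finite, disjoint from `A`, `fs e ⊆ A` for `e ∈ O`, all touched by `K`: then `IsC (A ∪ O) (Fl O K)` (induction on `O`,
`fl_insert`, `fl_nt`).

`exists_clo_below`: by recursion on the size: the union of the closures of the
`insert e' (closure of fs e')`, `e' ∈ fs e`; all its elements have size `< e.sz`.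
-/

open Set Topology TopologicalSpace

namespace Pool.DM

variable {J : Type}

private theorem h19_zer_self {e : Ex J} {y : U J} (h : y.2 e = p5 0) : zer {e} y = y := by
  refine Prod.ext (zer_fst _ _) (funext fun e' => ?_)
  by_cases he : e' ∈ ({e} : Set (Ex J))
  · rw [zer_mem he, mem_singleton_iff.1 he, h]
  · rw [zer_notMem he]

theorem step_cpt {A : Set (Ex J)} {K : Set (U J)} (hK : Cpt A K) {e : Ex J} (he : e ∉ A)
    (hf : fs e ⊆ A) : Cpt (insert e A) (step K e) := by
  unfold step
  split_ifs with hn
  · exact fl1_cpt hK he hf hn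
  · exact ⟨hK.closed, hK.conn, fun y hy e' he' => hK.flat y hy e' fun h => he' (Or.inr h)⟩

theorem step_onto {A : Set (Ex J)} {K : Set (U J)} (hK : Cpt A K) {e : Ex J} (he : e ∉ A)
    (hf : fs e ⊆ A) : zer {e} '' step K e = K := by
  unfold step
  split_ifs with hn
  · exact fl1_onto hK he hf hn
  · ext y
    constructor
    · rintro ⟨z, hz, rfl⟩
      rw [h19_zer_self (hK.flat z hz e he)]
      exact hz
    · intro hy
      exact ⟨y, hy, h19_zer_self (hK.flat y hy e he)⟩

private theorem h19_nt_step {A : Set (Ex J)} {K : Set (U J)} (hK : Cpt A K) {e e' : Ex J}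
    (he : e ∉ A) (hf : fs e ⊆ A) (hf' : fs e' ⊆ A) : Nt (step K e) e' ↔ Nt K e' := by
  have hv : ∀ y : U J, val e' (zer {e} y) = val e' y := fun y =>
    val_zer (fun e'' he'' h => he (by rw [← mem_singleton_iff.1 h]; exact hf' he'')) y
  have ho := step_onto hK he hf
  constructor
  · rintro ⟨y, hy, h1⟩
    refine ⟨zer {e} y, ?_, by rw [hv]; exact h1⟩
    rw [← ho]
    exact mem_image_of_mem _ hy
  · rintro ⟨y, hy, h1⟩
    rw [← ho] at hy
    obtain ⟨z, hz, rfl⟩ := hy
    exact ⟨z, hz, by rw [hv] at h1; exact h1⟩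

theorem step_comm {A : Set (Ex J)} {K : Set (U J)} (hK : Cpt A K) {e e' : Ex J} (he : e ∉ A)
    (he' : e' ∉ A) (hne : e ≠ e') (hf : fs e ⊆ A) (hf' : fs e' ⊆ A) :
    step (step K e) e' = step (step K e') e := by
  have h1 := h19_nt_step hK he hf hf'
  have h2 := h19_nt_step hK he' hf' hf
  by_cases hn : Nt K e
  · by_cases hn' : Nt K e'
    · have hA1 : Adm A (insert e' {e}) K := by
        refine ⟨hK, (Set.finite_singleton e).insert e', ?_, ?_, ?_⟩
        · rintro x (rfl | rfl)
          · exact he'
          · exact he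
        · rintro x (rfl | rfl)
          · exact hf'
          · exact hf
        · rintro x (rfl | rfl)
          · exact hn'
          · exact hn
      have hA2 : Adm A (insert e {e'}) K := by
        rw [Set.pair_comm]
        exact hA1
      have e1 := fl_insert (fun h => hne (mem_singleton_iff.1 h).symm) hA1
      have e2 := fl_insert (fun h => hne (mem_singleton_iff.1 h)) hA2
      have s1 : step K e = Fl {e} K := if_pos hn
      have s2 : step K e' = Fl {e'} K := if_pos hn'
      have s3 : step (step K e) e' = Fl {e'} (step K e) := if_pos (h1.2 hn')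
      have s4 : step (step K e') e = Fl {e} (step K e') := if_pos (h2.2 hn)
      rw [s3, s4, s1, s2, ← e1, ← e2, Set.pair_comm]
    · have s2 : step K e' = K := if_neg hn'
      have s3 : step (step K e) e' = step K e := if_neg fun h => hn' (h1.1 h)
      rw [s3, s2]
  · have s1 : step K e = K := if_neg hn
    have s4 : step (step K e') e = step K e' := if_neg fun h => hn (h2.1 h)
    rw [s4, s1]

theorem IsC.cpt {A : Set (Ex J)} {K : Set (U J)} (h : IsC A K) : Cpt A K := by
  induction h with
  | nil =>
    refine ⟨?_, ?_, fun y hy e _ => hy e⟩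
    · have h1 : {y : U J | ∀ e, y.2 e = p5 0} = Prod.snd ⁻¹' {fun _ => p5 0} := by
        ext y
        exact ⟨fun h => funext h, fun h e => congrFun h e⟩
      rw [h1]
      exact isClosed_singleton.preimage continuous_snd
    · have h1 : {y : U J | ∀ e, y.2 e = p5 0} =
          (fun x : J → I01 => ((x, fun _ => p5 0) : U J)) '' univ := by
        ext y
        constructor
        · intro h
          exact ⟨y.1, mem_univ _, Prod.ext rfl (funext fun e => (h e).symm)⟩
        · rintro ⟨x, -, rfl⟩ e
          rfl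
      have hc : ConnectedSpace I01 := Subtype.connectedSpace (isConnected_Icc (by norm_num))
      rw [h1]
      exact isConnected_univ.image _ (by fun_prop)
  | cons hA he hf ih => exact step_cpt ih he hf

theorem IsC.finite {A : Set (Ex J)} {K : Set (U J)} (h : IsC A K) : A.Finite := by
  induction h with
  | nil => exact Set.finite_empty
  | cons hA he hf ih => exact ih.insert _

theorem IsC.clo {A : Set (Ex J)} {K : Set (U J)} (h : IsC A K) : Clo A := by
  induction h with
  | nil => intro e he; exact absurd he (Set.notMem_empty e)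
  | cons hA he hf ih =>
    rintro x (rfl | hx)
    · exact hf.trans (Set.subset_insert _ _)
    · exact (ih x hx).trans (Set.subset_insert _ _)

theorem IsC.exists {A : Set (Ex J)} (hA : A.Finite) (hc : Clo A) : ∃ K : Set (U J), IsC A K := by
  obtain ⟨n, hn⟩ : ∃ n, A.ncard = n := ⟨_, rfl⟩
  induction n generalizing A with
  | zero =>
    rw [Set.ncard_eq_zero hA] at hn
    rw [hn]
    exact ⟨_, IsC.nil⟩
  | succ n ih =>
    have hne : A.Nonempty := by
      rw [← Set.ncard_pos hA]
      omega
    obtain ⟨e, he, hmax⟩ := Set.exists_max_image A Ex.sz hA hne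
    have hc' : Clo (A \ {e}) := by
      intro x hx z hz
      refine ⟨hc x hx.1 hz, fun h => ?_⟩
      rw [mem_singleton_iff] at h
      have h1 := sz_lt_of_mem_fs hz
      have h2 := hmax x hx.1
      rw [h] at h1
      omega
    obtain ⟨K, hK⟩ := ih (hA.subset Set.sdiff_subset) hc' (by
      rw [Set.ncard_sdiff_singleton_of_mem he]
      omega)
    have h3 := IsC.cons hK (e := e) (fun h => h.2 rfl) (fun z hz => ⟨hc e he hz, fun h =>
      notMem_fs_self e (by rw [mem_singleton_iff] at h; rw [h] at hz; exact hz)⟩)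
    rw [Set.insert_sdiff_singleton, Set.insert_eq_of_mem he] at h3
    exact ⟨_, h3⟩

private theorem h19_inv {A : Set (Ex J)} {K : Set (U J)} (h : IsC A K) :
    (A = ∅ ∧ K = {y | ∀ e, y.2 e = p5 0}) ∨ ∃ (A₀ : Set (Ex J)) (K₀ : Set (U J)) (e : Ex J),
      IsC A₀ K₀ ∧ e ∉ A₀ ∧ fs e ⊆ A₀ ∧ A = insert e A₀ ∧ K = step K₀ e := by
  cases h with
  | nil => exact Or.inl ⟨rfl, rfl⟩
  | cons hA he hf => exact Or.inr ⟨_, _, _, hA, he, hf, rfl, rfl⟩

theorem IsC.unique {A : Set (Ex J)} {K K' : Set (U J)} (h : IsC A K) (h' : IsC A K') : K = K' := by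
  obtain ⟨n, hn⟩ : ∃ n, A.ncard = n := ⟨_, rfl⟩
  induction n generalizing A K K' with
  | zero =>
    rw [Set.ncard_eq_zero h.finite] at hn
    rcases h19_inv h with ⟨-, h1⟩ | ⟨A₀, K₀, e, -, -, -, h1, -⟩
    · rcases h19_inv h' with ⟨-, h2⟩ | ⟨A₀, K₀, e, -, -, -, h2, -⟩
      · rw [h1, h2]
      · rw [hn] at h2
        exact absurd h2.symm (Set.insert_nonempty _ _).ne_empty
    · rw [hn] at h1
      exact absurd h1.symm (Set.insert_nonempty _ _).ne_empty
  | succ n ih =>
    have hfin := h.finite
    have hA0 : A ≠ ∅ := by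
      intro h0
      rw [h0, Set.ncard_empty] at hn
      omega
    rcases h19_inv h with ⟨h1, -⟩ | ⟨A₀, K₀, e, hI, he, hf, hAe, hKe⟩
    · exact absurd h1 hA0
    rcases h19_inv h' with ⟨h1, -⟩ | ⟨A₀', K₀', e', hI', he', hf', hAe', hKe'⟩
    · exact absurd h1 hA0
    have hc1 : A₀.ncard = n := by
      have h1 := Set.ncard_insert_of_notMem he hI.finite
      rw [← hAe, hn] at h1
      omega
    have hc2 : A₀'.ncard = n := by
      have h1 := Set.ncard_insert_of_notMem he' hI'.finite
      rw [← hAe', hn] at h1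
      omega
    by_cases hee : e = e'
    · subst hee
      have hAA : A₀ = A₀' := by
        have h1 : A₀ = A \ {e} := by
          rw [hAe, Set.insert_sdiff_of_mem _ (mem_singleton e), Set.sdiff_singleton_eq_self he]
        have h2 : A₀' = A \ {e} := by
          rw [hAe', Set.insert_sdiff_of_mem _ (mem_singleton e), Set.sdiff_singleton_eq_self he']
        rw [h1, h2]
      subst hAA
      rw [hKe, hKe', ih hI hI' hc1]
    · have hmA : ∀ x, x ∈ A ↔ x = e ∨ x ∈ A₀ := fun x => by rw [hAe]; exact Iff.rfl
      have hmA' : ∀ x, x ∈ A ↔ x = e' ∨ x ∈ A₀' := fun x => by rw [hAe']; exact Iff.rfl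
      have he'A : e' ∈ A₀ := by
        rcases (hmA e').1 ((hmA' e').2 (Or.inl rfl)) with h1 | h1
        · exact absurd h1.symm hee
        · exact h1
      have heA : e ∈ A₀' := by
        rcases (hmA' e).1 ((hmA e).2 (Or.inl rfl)) with h1 | h1
        · exact absurd h1 hee
        · exact h1
      have hB1 : A₀ = insert e' (A₀ \ {e'}) := by
        rw [Set.insert_sdiff_singleton, Set.insert_eq_of_mem he'A]
      have hB2 : A₀' = insert e (A₀ \ {e'}) := by
        ext x
        constructor
        · intro hx
          have hxe : x ≠ e' := fun h1 => he' (h1 ▸ hx)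
          rcases (hmA x).1 ((hmA' x).2 (Or.inr hx)) with h1 | h1
          · exact Or.inl h1
          · exact Or.inr ⟨h1, hxe⟩
        · rintro (h1 | ⟨h1, h2⟩)
          · rw [h1]
            exact heA
          · rcases (hmA' x).1 ((hmA x).2 (Or.inr h1)) with h3 | h3
            · exact absurd h3 h2
            · exact h3
      have hsub : ∀ x ∈ A₀ \ {e'}, x ∈ A₀' := fun x hx => by
        rw [hB2]
        exact Or.inr hx
      have hcB : Clo (A₀ \ {e'}) := by
        intro x hx z hz
        refine ⟨hI.clo x hx.1 hz, fun h1 => ?_⟩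
        rw [mem_singleton_iff] at h1
        rw [h1] at hz
        exact he' (hI'.clo x (hsub x hx) hz)
      have hfe : fs e ⊆ A₀ \ {e'} := by
        intro z hz
        refine ⟨hf hz, fun h1 => ?_⟩
        rw [mem_singleton_iff] at h1
        rw [h1] at hz
        exact he' (hI'.clo e heA hz)
      have hfe' : fs e' ⊆ A₀ \ {e'} := by
        intro z hz
        refine ⟨hI.clo e' he'A hz, fun h1 => ?_⟩
        rw [mem_singleton_iff] at h1
        rw [h1] at hz
        exact notMem_fs_self e' hz
      obtain ⟨M, hM⟩ := IsC.exists (hI.finite.subset Set.sdiff_subset) hcB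
      have hM1 : IsC A₀ (step M e') := by
        have h1 := IsC.cons hM (fun h => h.2 rfl) hfe'
        rw [← hB1] at h1
        exact h1
      have heB : e ∉ A₀ \ {e'} := fun h => he h.1
      have hM2 : IsC A₀' (step M e) := by
        have h1 := IsC.cons hM heB hfe
        rw [← hB2] at h1
        exact h1
      rw [hKe, hKe', ih hI hM1 hc1, ih hI' hM2 hc2]
      exact (step_comm hM.cpt heB (fun h => h.2 rfl) hee hfe hfe').symm

theorem IsC.mono {A B : Set (Ex J)} {K L : Set (U J)} (hAB : A ⊆ B) (hK : IsC A K)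
    (hL : IsC B L) : tr A '' L = K := by
  obtain ⟨n, hn⟩ : ∃ n, (B \ A).ncard = n := ⟨_, rfl⟩
  induction n generalizing B L with
  | zero =>
    rw [Set.ncard_eq_zero (hL.finite.subset Set.sdiff_subset), Set.sdiff_eq_empty] at hn
    have hBA : B = A := Set.Subset.antisymm hn hAB
    subst hBA
    rw [hL.unique hK]
    ext y
    constructor
    · rintro ⟨z, hz, rfl⟩
      rw [tr_of_flat (hK.cpt.flat z hz)]
      exact hz
    · intro hy
      exact ⟨y, hy, tr_of_flat (hK.cpt.flat y hy)⟩
  | succ n ih =>
    have hfin : (B \ A).Finite := hL.finite.subset Set.sdiff_subset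
    have hne : (B \ A).Nonempty := by
      rw [← Set.ncard_pos hfin]
      omega
    obtain ⟨e, he, hmax⟩ := Set.exists_max_image (B \ A) Ex.sz hfin hne
    have hno : ∀ x ∈ B, e ∉ fs x := by
      intro x hx h1
      by_cases hxA : x ∈ A
      · exact he.2 (hK.clo x hxA h1)
      · have h2 := sz_lt_of_mem_fs h1
        have h3 := hmax x ⟨hx, hxA⟩
        omega
    have hc' : Clo (B \ {e}) := by
      intro x hx z hz
      refine ⟨hL.clo x hx.1 hz, fun h => ?_⟩
      rw [mem_singleton_iff] at h
      rw [h] at hz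
      exact hno x hx.1 hz
    have hfe : fs e ⊆ B \ {e} := by
      intro z hz
      refine ⟨hL.clo e he.1 hz, fun h => ?_⟩
      rw [mem_singleton_iff] at h
      rw [h] at hz
      exact notMem_fs_self e hz
    obtain ⟨L', hL'⟩ := IsC.exists (hL.finite.subset Set.sdiff_subset) hc'
    have hB : insert e (B \ {e}) = B := by
      rw [Set.insert_sdiff_singleton, Set.insert_eq_of_mem he.1]
    have heB : e ∉ B \ {e} := fun h => h.2 rfl
    have h1 := IsC.cons hL' heB hfe
    rw [hB] at h1
    have hLs : L = step L' e := hL.unique h1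
    have hAB' : A ⊆ B \ {e} := fun x hx => ⟨hAB hx, fun h => he.2 (by
      rw [mem_singleton_iff] at h
      rw [← h]
      exact hx)⟩
    have hcard : ((B \ {e}) \ A).ncard = n := by
      have h2 : (B \ {e}) \ A = (B \ A) \ {e} := by
        ext x
        simp only [mem_sdiff]
        tauto
      rw [h2, Set.ncard_sdiff_singleton_of_mem he]
      omega
    have h3 := ih hAB' hL' hcard
    have h4 : ∀ y : U J, tr A (zer {e} y) = tr A y := by
      intro y
      refine Prod.ext ?_ (funext fun x => ?_)
      · rw [tr_fst, tr_fst, zer_fst]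
      · by_cases hx : x ∈ A
        · rw [tr_mem hx, tr_mem hx, zer_notMem]
          intro h
          rw [mem_singleton_iff] at h
          exact he.2 (h ▸ hx)
        · rw [tr_notMem hx, tr_notMem hx]
    rw [← h3, ← step_onto hL'.cpt heB hfe, ← hLs, Set.image_image]
    simp only [h4]

theorem IsC.full {A O : Set (Ex J)} {K : Set (U J)} (hK : IsC A K) (h : Adm A O K) :
    IsC (A ∪ O) (Fl O K) := by
  have key : ∀ O : Set (Ex J), O.Finite → Adm A O K → IsC (A ∪ O) (Fl O K) := by
    intro O hO
    induction O, hO using Set.Finite.induction_on with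
    | empty =>
      intro _
      rw [Set.union_empty, fl_empty hK.cpt.conn.isPreconnected]
      exact hK
    | @insert e O he hO ih =>
      intro h
      have h1 := ih (h.subset (Set.subset_insert e O))
      have h2 : e ∉ A ∪ O := by
        rintro (h3 | h3)
        · exact h.dis e (Set.mem_insert e O) h3
        · exact he h3
      have h4 := IsC.cons h1 h2 ((h.fsA e (Set.mem_insert e O)).trans Set.subset_union_left)
      have h5 : Nt (Fl O K) e :=
        (fl_nt (h.subset (Set.subset_insert e O)) (h.fsA e (Set.mem_insert e O))).2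
          (h.tou e (Set.mem_insert e O))
      have h6 : step (Fl O K) e = Fl {e} (Fl O K) := if_pos h5
      rw [h6, ← fl_insert he h] at h4
      rw [Set.union_insert]
      exact h4
  exact key O h.fin h

theorem exists_clo_below (e : Ex J) :
    ∃ B : Set (Ex J), fs e ⊆ B ∧ B.Finite ∧ Clo B ∧ ∀ x ∈ B, x.sz < e.sz := by
  obtain ⟨n, hn⟩ : ∃ n, e.sz = n := ⟨_, rfl⟩
  induction n using Nat.strong_induction_on generalizing e with
  | _ n ih =>
    have h1 : ∀ x : Ex J, ∃ B : Set (Ex J), x ∈ fs e →
        fs x ⊆ B ∧ B.Finite ∧ Clo B ∧ ∀ z ∈ B, z.sz < x.sz := by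
      intro x
      by_cases hx : x ∈ fs e
      · obtain ⟨B, hB⟩ := ih x.sz (by rw [← hn]; exact sz_lt_of_mem_fs hx) x rfl
        exact ⟨B, fun _ => hB⟩
      · exact ⟨∅, fun h => absurd h hx⟩
    choose B hB using h1
    refine ⟨⋃ x ∈ fs e, insert x (B x), ?_, ?_, ?_, ?_⟩
    · intro x hx
      exact mem_biUnion hx (Set.mem_insert x _)
    · exact (fs_finite e).biUnion fun x hx => (hB x hx).2.1.insert x
    · intro z hz w hw
      rw [mem_iUnion₂] at hz
      obtain ⟨x, hx, hz⟩ := hz
      refine mem_biUnion hx (Or.inr ?_)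
      rcases hz with rfl | hz
      · exact (hB z hx).1 hw
      · exact (hB x hx).2.2.1 z hz hw
    · intro z hz
      rw [mem_iUnion₂] at hz
      obtain ⟨x, hx, hz⟩ := hz
      have h2 := sz_lt_of_mem_fs hx
      rcases hz with rfl | hz
      · exact h2
      · exact ((hB x hx).2.2.2 z hz).trans h2

theorem exists_clo {S : Set (Ex J)} (hS : S.Finite) :
    ∃ B : Set (Ex J), S ⊆ B ∧ B.Finite ∧ Clo B := by
  choose B hB using fun e : Ex J => exists_clo_below e
  refine ⟨⋃ x ∈ S, insert x (B x), ?_, ?_, ?_⟩
  · intro x hx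
    exact mem_biUnion hx (Set.mem_insert x _)
  · exact hS.biUnion fun x _ => (hB x).2.1.insert x
  · intro z hz w hw
    rw [mem_iUnion₂] at hz
    obtain ⟨x, hx, hz⟩ := hz
    refine mem_biUnion hx (Or.inr ?_)
    rcases hz with rfl | hz
    · exact (hB z).1 hw
    · exact (hB x).2.2.1 z hz hw

theorem Clo.union {A B : Set (Ex J)} (hA : Clo A) (hB : Clo B) : Clo (A ∪ B) := by
  rintro x (hx | hx)
  · exact (hA x hx).trans Set.subset_union_left
  · exact (hB x hx).trans Set.subset_union_right

end Pool.DM
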