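import Pool.Agent.Helper84.DM.ShL

/-!
# DM-Form: the section of a full continuum, when the bottom is touched

`form1` (one term `e` over the level `C`). `K, b` continua flat over `C`, `K ⊆ Yc C`, `sc i ρ C` maps `K` into `b`, both touch `e`. We find a
rule `v` for `e`; all rules agree with `ρ` on `C`, so `tr C (sc i ρ' (insert e C) y) = sc i ρ C (tr C y)` (`tr_sc`, `sc_congr`) for all `y`, and
for `y ∈ Fl {e} K`, `tr C y = zer {e} y ∈ K` (`fl_onto`, `zer_eq_tr`). Also `sc i ρ' (insert e C) y` is flat over `insert e C`, so `zer {e}` of it is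
`tr C` of it, which is in `b`.
 Case 1: `i ∉ ls e`. Any `v`. `val e (sc .. y) = val e y` (`val_sc`, `sb_of_notMem`), `(sc .. y).2 e = y.2 e` (`sc_off`): the fold relation holds
 on `T = sc i ρ' (insert e C) '' Fl {e} K ⊆ FO {e} b`, `T` is preconnected and touches `e` because `Fl {e} K` does (`fl_nt`). So
 `T ⊆ Fl {e} b` by the definition of `Fl`.
 Case 2: `i ∈ ls e`, `e' := sb i ρ e ∈ C` is touched by `K`. `v = use`. `e'` is active (`nt_iff_act` direction: `K ⊆ Yc C`, `fs e' ⊆ C`), so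
 `R (sv e' y) (y.2 e')` for `y ∈ Fl {e} K` (`Yc_rel` for `tr C y ∈ K ⊆ Yc C`, `e' ∈ C`). `val e (sc .. y) = val e' y`, `(sc .. y).2 e = y.2 e'`. So `T` as
 before is a preconnected subset of `FO {e} b` and touches `e` (a point over `y ∈ K` with `1 < |val e' y|`). `T ⊆ Fl {e} b`.
 Case 3: `i ∈ ls e`, `e'` not touched by `K`: `|val e| ≤ 1` on `Q₀ = sc i ρ C '' K ⊆ b`. `b` touches `e`. Let `G = {y ∈ b | |val e y| ≤ 1}`, `x₀ ∈ Q₀`,
 `Q` the component of `x₀` in `G`; `Q₀ ⊆ Q`. By `H64DN.bump` (with `Y = b`, `A = G`, `V = {y | |val e y| < 1}`, `z = x₀`) if `|val e x₀| < 1`, `Q` is not contained in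
 `V`; so in any case there is `r ∈ Q` with `|val e r| = 1`. Let `ε = val e r`. `fl1_sheet` (`K := b`, `Q`) gives `sht ε {e} y ∈ Fl {e} b` for `y ∈ Q`. Take
 `v = pos` if `ε = 1`, `v = neg` if `ε = -1`, i.e. the rules `rs ρ {e} ε`; by `sc_sht` (`O = {e}`, `C ∪ {e} = insert e C`)
 `sc .. y = sht ε {e} (sc i ρ C (tr C y)) ∈ sht ε {e} '' Q₀`.

`form`: for every `O₁ ⊆ O` there is `ρ'` equal to `ρ` on `A` with the statement for `O₁`; induction on the finite set `O₁`, with `form1` for `C = A ∪ O₁`,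
`Fl O₁ K`, `Fl O₁ b` (`fl_cpt`, `fl_nt`, `fl_insert`; `Fl O₁ K ⊆ Yc (A ∪ O₁)`: `fl_mono`, `Yc_full`). For `O₁ = ∅`: `fl_empty`.
-/

open Set Topology TopologicalSpace

namespace Pool.DM

variable {J : Type}

private theorem adm_single {C : Set (Ex J)} {e : Ex J} (he : e ∉ C) (hf : fs e ⊆ C)
    {K : Set (U J)} (hK : Cpt C K) (hnK : Nt K e) : Adm C {e} K := by
  refine ⟨hK, finite_singleton e, ?_, ?_, ?_⟩
  · intro e' he'
    rw [mem_singleton_iff] at he'
    rw [he']; exact he
  · intro e' he'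
    rw [mem_singleton_iff] at he'
    rw [he']; exact hf
  · intro e' he'
    rw [mem_singleton_iff] at he'
    rw [he']; exact hnK

/-- The image of the full continuum satisfies the first condition. -/
private theorem tr_mem_K {C : Set (Ex J)} {e : Ex J} (he : e ∉ C) (hf : fs e ⊆ C)
    {K : Set (U J)} (hK : Cpt C K) (hnK : Nt K e) {y : U J} (hy : y ∈ Fl {e} K) :
    tr C y ∈ K := by
  have hd : ∀ e' ∈ ({e} : Set (Ex J)), e' ∉ C := fun e' he' => by
    rw [mem_singleton_iff] at he'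
    rw [he']; exact he
  have h1 : zer {e} y = tr C y := by
    refine zer_eq_tr hd (fun e' he' => ?_)
    rw [union_singleton] at he'
    exact (fl1_cpt hK he hf hnK).flat y hy e' he'
  rw [← h1]
  exact (fl_sub_FO hy).1

private theorem sc_zer {C : Set (Ex J)} (hCc : Clo C) {i : J}
    (hsC : ∀ e ∈ C, i ∈ ls e → ∀ ρ, sb i ρ e ∈ C) {e : Ex J} (he : e ∉ C) {ρ ρ' : Ex J → Ru}
    (hρ : ∀ e' ∈ C, ρ' e' = ρ e') (y : U J) :
    zer {e} (sc i ρ' (insert e C) y) = sc i ρ C (tr C y) := by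
  have hd : ∀ e' ∈ ({e} : Set (Ex J)), e' ∉ C := fun e' he' => by
    rw [mem_singleton_iff] at he'
    rw [he']; exact he
  have h1 : zer {e} (sc i ρ' (insert e C) y) = tr C (sc i ρ' (insert e C) y) := by
    refine zer_eq_tr hd (fun e' he' => ?_)
    rw [union_singleton] at he'
    exact sc_notMem he' y
  rw [h1, tr_sc (subset_insert e C) hCc (fun e' he' hi => hsC e' he' hi ρ') y]
  exact sc_congr hCc hρ _

theorem form1 {C : Set (Ex J)} (hC : C.Finite) (hCc : Clo C) {i : J}
    (hsC : ∀ e ∈ C, i ∈ ls e → ∀ ρ, sb i ρ e ∈ C) {e : Ex J} (he : e ∉ C) (hf : fs e ⊆ C)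
    (hse : i ∈ ls e → ∀ ρ, sb i ρ e ∈ C) {K b : Set (U J)} (hK : Cpt C K) (hb : Cpt C b)
    (hKY : K ⊆ Yc C) (hnK : Nt K e) (hnb : Nt b e) {ρ : Ex J → Ru}
    (hs : ∀ y ∈ K, sc i ρ C y ∈ b) :
    ∃ ρ' : Ex J → Ru, (∀ e' ∈ C, ρ' e' = ρ e') ∧
      ∀ y ∈ Fl {e} K, sc i ρ' (insert e C) y ∈ Fl {e} b := by
  classical
  have hcpt := fl1_cpt hK he hf hnK
  have hadm := adm_single he hf hK hnK
  have hfi : fs e ⊆ insert e C := hf.trans (subset_insert e C)
  have hei : e ∈ insert e C := mem_insert e C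
  -- a map that satisfies the fold relation and touches `e` is good
  have key : ∀ ρ' : Ex J → Ru, (∀ e' ∈ C, ρ' e' = ρ e') →
      (∀ y ∈ Fl {e} K, R (sv e (sc i ρ' (insert e C) y)) ((sc i ρ' (insert e C) y).2 e)) →
      (∃ y ∈ Fl {e} K, 1 < |val e (sc i ρ' (insert e C) y)|) →
      ∀ y ∈ Fl {e} K, sc i ρ' (insert e C) y ∈ Fl {e} b := by
    intro ρ' hρ' h1 h2 y hy
    refine ⟨sc i ρ' (insert e C) '' Fl {e} K, ⟨?_, ?_, ?_⟩, ⟨y, hy, rfl⟩⟩
    · exact hcpt.conn.isPreconnected.image _ (continuous_sc i ρ' _).continuousOn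
    · rintro _ ⟨x, hx, rfl⟩
      refine ⟨?_, fun e' he' => ?_⟩
      · rw [sc_zer hCc hsC he hρ']
        exact hs _ (tr_mem_K he hf hK hnK hx)
      · rw [mem_singleton_iff] at he'
        rw [he']
        exact h1 x hx
    · intro e' he'
      rw [mem_singleton_iff] at he'
      rw [he']
      obtain ⟨x, hx, h3⟩ := h2
      exact ⟨_, ⟨x, hx, rfl⟩, h3⟩
  by_cases hi : i ∈ ls e
  · set e' := sb i ρ e with he'def
    have he'C : e' ∈ C := hse hi ρ
    have hfe' : fs e' ⊆ C := hCc e' he'C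
    by_cases hnt : Nt K e'
    · -- use the fold coordinate of `e'`
      refine ⟨Function.update ρ e .use, ?_, ?_⟩
      · intro x hx
        rw [Function.update_of_ne]
        rintro rfl
        exact he hx
      have hρ' : ∀ x ∈ C, (Function.update ρ e .use) x = ρ x := by
        intro x hx
        rw [Function.update_of_ne]
        rintro rfl
        exact he hx
      set ρ' := Function.update ρ e .use with hρ'def
      have hsb : sb i ρ' e = e' := (sb_congr hCc hρ' e).1 hf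
      have hsbf : sb i ρ' (.fo e) = .fo e' := by
        rw [sb_fo_mem hi, hρ'def, Function.update_self, ← hρ'def, hsb]
      have hval : ∀ y, val e (sc i ρ' (insert e C) y) = val e' y := by
        intro y
        rw [val_sc hfi, hsb]
      have hco : ∀ y, (sc i ρ' (insert e C) y).2 e = y.2 e' := by
        intro y
        rw [sc_mem hei, hsbf]
        exact p5_coe (y.2 e')
      refine key ρ' hρ' ?_ ?_
      · intro y hy
        have hyK := tr_mem_K he hf hK hnK hy
        have hact : Act e' := by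
          obtain ⟨x, hx, h1⟩ := hnt
          exact (nt_iff_act hfe').1 ⟨x, hKY hx, h1⟩
        have h1 := Yc_rel hCc (hKY hyK) he'C hact
        unfold sv at h1 ⊢
        rw [val_tr hfe', tr_mem he'C] at h1
        rw [hval, hco]
        exact h1
      · obtain ⟨x, hx, h1⟩ := hnt
        rw [← fl1_onto hK he hf hnK] at hx
        obtain ⟨y, hy, rfl⟩ := hx
        refine ⟨y, hy, ?_⟩
        rw [hval]
        rwa [val_zer] at h1
        intro e'' he'' h2
        rw [mem_singleton_iff] at h2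
        rw [h2] at he''
        exact he (hfe' he'')
    · -- a sheet
      have hval : ∀ y, val e (sc i ρ C y) = val e' y := fun y => val_sc hf y
      have hle : ∀ y ∈ K, |val e' y| ≤ 1 := by
        intro y hy
        by_contra h1
        exact hnt ⟨y, hy, not_le.1 h1⟩
      set G : Set (U J) := {y | y ∈ b ∧ |val e y| ≤ 1} with hG
      have hGc : IsClosed G :=
        hb.closed.inter (isClosed_le (continuous_val e).abs continuous_const)
      obtain ⟨k₀, hk₀⟩ := hK.conn.nonempty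
      set x₀ := sc i ρ C k₀ with hx₀
      have hQ₀G : sc i ρ C '' K ⊆ G := by
        rintro _ ⟨y, hy, rfl⟩
        refine ⟨hs y hy, ?_⟩
        rw [hval]
        exact hle y hy
      have hQ₀ : sc i ρ C '' K ⊆ connectedComponentIn G x₀ :=
        (hK.conn.isPreconnected.image _ (continuous_sc i ρ C).continuousOn).subset_connectedComponentIn
          ⟨k₀, hk₀, rfl⟩ hQ₀G
      have hx₀G : x₀ ∈ G := hQ₀G ⟨k₀, hk₀, rfl⟩
      have hQG : connectedComponentIn G x₀ ⊆ G := connectedComponentIn_subset G x₀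
      have hr : ∃ r ∈ connectedComponentIn G x₀, |val e r| = 1 := by
        rcases lt_or_ge (|val e x₀|) 1 with h1 | h1
        · obtain ⟨z, hz, hz1⟩ := hnb
          have h2 := H64DN.bump (V := {y : U J | |val e y| < 1}) hb.closed hb.conn.isPreconnected
            hGc (fun y hy => hy.1) (isOpen_lt (continuous_val e).abs continuous_const)
            (fun y hy => ⟨hy.1, hy.2.le⟩) (z := x₀) ⟨hx₀G.1, h1⟩ (y := z) hz
            (fun h3 => lt_asymm hz1 h3)
          obtain ⟨r, hr, hr1⟩ := not_subset.1 h2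
          exact ⟨r, hr, le_antisymm (hQG hr).2 (not_lt.1 hr1)⟩
        · exact ⟨x₀, mem_connectedComponentIn hx₀G, le_antisymm hx₀G.2 h1⟩
      obtain ⟨r, hrQ, hr1⟩ := hr
      have hε : val e r = 1 ∨ val e r = -1 := by
        rcases abs_eq (show (0 : ℝ) ≤ 1 by norm_num) |>.1 hr1 with h1 | h1
        · exact Or.inl h1
        · exact Or.inr h1
      set ε := val e r with hεdef
      have hsheet := fl1_sheet hb he hf hnb hε
        (isPreconnected_connectedComponentIn (F := G) (x := x₀)) (fun y hy => (hQG hy).1)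
        (by
          intro y hy
          have h1 := abs_le.1 (hQG hy).2
          rcases hε with h2 | h2 <;> rw [h2] <;> linarith [h1.1, h1.2])
        hrQ (by
          rw [← hεdef]
          rcases hε with h2 | h2 <;> rw [h2] <;> norm_num)
      refine ⟨rs ρ {e} ε, ?_, ?_⟩
      · intro x hx
        have h1 : x ∉ ({e} : Set (Ex J)) := by
          rw [mem_singleton_iff]
          rintro rfl
          exact he hx
        simp only [rs]
        rw [if_neg h1]
      · intro y hy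
        have hyK := tr_mem_K he hf hK hnK hy
        have h1 := sc_sht (i := i) (ρ := ρ) (A := C) (O := {e}) hCc hsC
          (fun x hx => by rw [mem_singleton_iff] at hx; rw [hx]; exact he)
          (fun x hx => by rw [mem_singleton_iff] at hx; rw [hx]; exact hf)
          (fun x hx hix ρ₁ => by
            rw [mem_singleton_iff] at hx
            rw [hx]
            exact hse hi ρ₁)
          hε (y := y) (y₀ := tr C y) rfl
          (fun x hx hix => by
            rw [mem_singleton_iff] at hx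
            rw [hx] at hix
            exact absurd hi hix)
        rw [union_singleton] at h1
        rw [h1]
        exact hsheet _ (hQ₀ ⟨_, hyK, rfl⟩)
  · -- the letter does not occur
    refine ⟨ρ, fun _ _ => rfl, key ρ (fun _ _ => rfl) ?_ ?_⟩
    · intro y hy
      unfold sv
      rw [val_sc hfi, sb_of_notMem ρ hi, sc_off hei hi]
      exact (fl_sub_FO hy).2 e rfl
    · obtain ⟨y, hy, h1⟩ := (fl_nt hadm hf).2 hnK
      refine ⟨y, hy, ?_⟩
      rw [val_sc hfi, sb_of_notMem ρ hi]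
      exact h1

private theorem form_aux {F : Set J} {A O : Set (Ex J)} (hx : Ext F A O) (ha : ∀ e ∈ O, Act e)
    {i : J} (hs1 : ∀ e ∈ A ∪ O, i ∈ ls e → ∀ ρ, sb i ρ e ∈ A) {K b : Set (U J)} (hK : Cpt A K)
    (hb : Cpt A b) (hKY : K ⊆ Yc A) (hnK : ∀ e ∈ O, Nt K e) (hnb : ∀ e ∈ O, Nt b e)
    {ρ : Ex J → Ru} (hs : ∀ y ∈ K, sc i ρ A y ∈ b) (O₁ : Set (Ex J)) (hO₁ : O₁.Finite) :
    O₁ ⊆ O → ∃ ρ' : Ex J → Ru, (∀ e ∈ A, ρ' e = ρ e) ∧
      ∀ y ∈ Fl O₁ K, sc i ρ' (A ∪ O₁) y ∈ Fl O₁ b := by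
  have admK : Adm A O K := ⟨hK, hx.fin, hx.dis, hx.fsA, hnK⟩
  have admb : Adm A O b := ⟨hb, hx.fin, hx.dis, hx.fsA, hnb⟩
  induction O₁, hO₁ using Set.Finite.induction_on with
  | empty =>
    intro _
    refine ⟨ρ, fun _ _ => rfl, ?_⟩
    rw [fl_empty hK.conn.isPreconnected, fl_empty hb.conn.isPreconnected, union_empty]
    exact hs
  | @insert e O₁ he hO₁ ih =>
    intro hsub
    have hsub' : O₁ ⊆ O := (subset_insert _ _).trans hsub
    have heO : e ∈ O := hsub (mem_insert _ _)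
    obtain ⟨ρ₁, hρ₁, h1⟩ := ih hsub'
    have aK := admK.subset hsub'
    have ab := admb.subset hsub'
    have hCc : Clo (A ∪ O₁) := by
      rintro x (hx' | hx')
      · exact (hx.lev.clo x hx').trans subset_union_left
      · exact (hx.fsA x (hsub' hx')).trans subset_union_left
    obtain ⟨ρ₂, hρ₂, h2⟩ := form1 (C := A ∪ O₁) (hx.lev.fin.union hO₁) hCc (i := i)
      (fun x hx' hi ρ => Or.inl (hs1 x (hx'.imp id (fun h => hsub' h)) hi ρ))
      (e := e) (fun h => h.elim (hx.dis e heO) he) ((hx.fsA e heO).trans subset_union_left)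
      (fun hi ρ => Or.inl (hs1 e (Or.inr heO) hi ρ)) (fl_cpt aK) (fl_cpt ab)
      (by
        rw [Yc_full hx.lev.fin hx.lev.clo hO₁ (fun x hx' => hx.dis x (hsub' hx'))
          (fun x hx' => hx.fsA x (hsub' hx')) (fun x hx' => ha x (hsub' hx'))]
        exact fl_mono hKY)
      ((fl_nt aK (hx.fsA e heO)).2 (hnK e heO)) ((fl_nt ab (hx.fsA e heO)).2 (hnb e heO)) h1
    refine ⟨ρ₂, fun x hx' => (hρ₂ x (Or.inl hx')).trans (hρ₁ x hx'), ?_⟩
    rw [fl_insert he (admK.subset hsub), fl_insert he (admb.subset hsub), union_insert]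
    exact h2

theorem form {F : Set J} {A O : Set (Ex J)} (hx : Ext F A O) (ha : ∀ e ∈ O, Act e) {i : J}
    (hs1 : ∀ e ∈ A ∪ O, i ∈ ls e → ∀ ρ, sb i ρ e ∈ A) {K b : Set (U J)} (hK : Cpt A K)
    (hb : Cpt A b) (hKY : K ⊆ Yc A) (hnK : ∀ e ∈ O, Nt K e) (hnb : ∀ e ∈ O, Nt b e)
    {ρ : Ex J → Ru} (hs : ∀ y ∈ K, sc i ρ A y ∈ b) :
    ∃ ρ' : Ex J → Ru, (∀ e ∈ A, ρ' e = ρ e) ∧
      ∀ y ∈ Fl O K, sc i ρ' (A ∪ O) y ∈ Fl O b :=
  form_aux hx ha hs1 hK hb hKY hnK hnb hs O hx.fin (Subset.refl _)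

end Pool.DM
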