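import Pool.Agent.Helper84.DM.Comp

/-!
# DM-Full: the full continuum over finitely many independent terms

`Adm A O K`: `K` is a continuum flat over `A`, `O` is a finite set of terms outside `A` with `fs e ⊆ A`, all touched by `K`.

`fl_empty`: `FO ∅ K = K` (`zer_empty`).

`fl_main`: by induction on the finite set `O` all of: `Cpt (A ∪ O) (Fl O K)`, `zer O '' Fl O K = K`, and for `e ∉ O` with
`Adm A (insert e O) K`: `Fl (insert e O) K = Fl {e} (Fl O K)`.
Suppose the first two for `O`. Let `K₁ = Fl O K`, `Cpt (A ∪ O) K₁`; `e ∉ A ∪ O`, `fs e ⊆ A ⊆ A ∪ O`, `Nt K₁ e` (every `y ∈ K` has a point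
`y₁ ∈ K₁` over it, `val e y₁ = val e (zer O y₁)` by `val_zer`, since `fs e ⊆ A` is disjoint from `O`).
 `⊆`: let `T ⊆ FO (insert e O) K` be preconnected, touching all elements of `insert e O`. `T' = zer {e} '' T` is a preconnected
 subset of `FO O K` (`zer_zer`; for `e' ∈ O`: `val e'` and the coordinate `e'` are not changed because `e ∉ fs e' ⊆ A` and
 `e' ≠ e`) touching all `e' ∈ O`, so `T' ⊆ Fl O K = K₁`. So `T ⊆ FO {e} K₁`, `Nt T e`: `T ⊆ Fl {e} K₁`.
 `⊇`: `S = Fl {e} K₁` is preconnected (`fl1_cpt`), `S ⊆ FO (insert e O) K` (for `y ∈ S`, `zer {e} y ∈ K₁ ⊆ FO O K`), it is mapped onto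
 `K₁` by `zer {e}` (`fl1_onto`) and onto `K` by `zer (insert e O)`, so it touches all elements of `insert e O`. So
 `S ⊆ Fl (insert e O) K` by definition.
 `fl1_cpt` and `fl1_onto` for `K₁` give the first two statements for `insert e O`.

`fl_capture`: `T ∪ Fl O K` is preconnected (common point), contained in `FO O K` and touches all `e ∈ O`, so it is contained in
`Fl O K` by definition.

`fl_union`: `O₂` finite; induction on `O₂` with `fl_insert` for `O₁ ∪ O₂` and for `O₂` over `Fl O₁ K`.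

`fl_sheet`: induction on `O` : for `insert e O`: `T = sht ε O '' Q ⊆ Fl O K =: K₁` is preconnected, `val e` is not changed
(`val_sht`), so `fl1_sheet` for `K₁`, `T` gives `sht ε {e} (sht ε O y) ∈ Fl {e} K₁ = Fl (insert e O) K`, and `sht_sht`. (For `O = ∅`, `sht ε ∅ y = y`.)

`fl_iInter`: `M = ⋂ α, Fl O (K α)` is an intersection of a directed family (`Fl O` is monotone) of continua, so it is a
continuum (`H64DN.preconnected_iInter`), contained in `FO O (⋂ α, K α)`. For `y ∈ ⋂ α, K α` the closed sets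
`{z ∈ Fl O (K α) | zer O z = y}` are nonempty and directed, so there is a point of `M` over `y`
(`IsCompact.nonempty_iInter_of_directed_nonempty_isCompact_isClosed`). So `M` touches all `e ∈ O` and
`M ⊆ Fl O (⋂ α, K α)`; the other inclusion is monotonicity.
-/

open Set Topology TopologicalSpace

namespace Pool.DM

variable {J : Type}

/-- Admissible: the full continuum over `K` for `O` behaves well. -/
structure Adm (A O : Set (Ex J)) (K : Set (U J)) : Prop where
  cpt : Cpt A K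
  fin : O.Finite
  dis : ∀ e ∈ O, e ∉ A
  fsA : ∀ e ∈ O, fs e ⊆ A
  tou : ∀ e ∈ O, Nt K e

theorem Adm.subset {A O O' : Set (Ex J)} {K : Set (U J)} (h : Adm A O K) (hO : O' ⊆ O) :
    Adm A O' K :=
  ⟨h.cpt, h.fin.subset hO, fun e he => h.dis e (hO he), fun e he => h.fsA e (hO he),
    fun e he => h.tou e (hO he)⟩

theorem fl_empty {K : Set (U J)} (h : IsPreconnected K) : Fl ∅ K = K := by
  have h0 : FO ∅ K = K := by
    ext y
    constructor
    · rintro ⟨h1, -⟩
      rwa [zer_empty] at h1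
    · intro h1
      exact ⟨by rwa [zer_empty], fun e he => absurd he (notMem_empty e)⟩
  apply Subset.antisymm
  · rintro y ⟨T, ⟨-, hT, -⟩, hy⟩
    rw [h0] at hT
    exact hT hy
  · intro y hy
    exact ⟨K, ⟨h, by rw [h0], fun e he => absurd he (notMem_empty e)⟩, hy⟩

theorem fl_sub_FO {O : Set (Ex J)} {K : Set (U J)} : Fl O K ⊆ FO O K := by
  rintro y ⟨T, ⟨-, hT, -⟩, hy⟩
  exact hT hy

theorem fl_mono {O : Set (Ex J)} {K K' : Set (U J)} (h : K ⊆ K') : Fl O K ⊆ Fl O K' := by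
  rintro y ⟨T, ⟨h1, h2, h3⟩, hy⟩
  exact ⟨T, ⟨h1, h2.trans (FO_mono h), h3⟩, hy⟩

private theorem nt_lift {O : Set (Ex J)} {K K₁ : Set (U J)} (hz : zer O '' K₁ = K) {e : Ex J}
    (hf : ∀ e' ∈ fs e, e' ∉ O) : Nt K₁ e ↔ Nt K e := by
  constructor
  · rintro ⟨y, hy, h1⟩
    exact ⟨zer O y, hz ▸ mem_image_of_mem _ hy, by rwa [val_zer hf]⟩
  · rintro ⟨y, hy, h1⟩
    rw [← hz] at hy
    obtain ⟨y₁, hy₁, rfl⟩ := hy
    exact ⟨y₁, hy₁, by rwa [val_zer hf] at h1⟩

private theorem fl_step {A O : Set (Ex J)} {K : Set (U J)} {e : Ex J} (he : e ∉ O)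
    (h : Adm A (insert e O) K) (hC : Cpt (A ∪ O) (Fl O K)) (hz : zer O '' Fl O K = K) :
    Fl (insert e O) K = Fl {e} (Fl O K) ∧
      Cpt (insert e (A ∪ O)) (Fl {e} (Fl O K)) ∧ zer {e} '' Fl {e} (Fl O K) = Fl O K := by
  have heA : e ∉ A := h.dis e (mem_insert _ _)
  have hfe : fs e ⊆ A := h.fsA e (mem_insert _ _)
  have hOA : ∀ e' ∈ O, e' ∉ A := fun e' he' => h.dis e' (mem_insert_of_mem _ he')
  have hfO : ∀ e' ∈ insert e O, ∀ e'' ∈ fs e', e'' ∉ O := fun e' he' e'' he'' hO =>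
    hOA e'' hO (h.fsA e' he' he'')
  have hfe' : ∀ e' ∈ insert e O, ∀ e'' ∈ fs e', e'' ∉ ({e} : Set (Ex J)) :=
    fun e' he' e'' he'' hO => by
      rw [mem_singleton_iff] at hO
      subst hO
      exact heA (h.fsA e' he' he'')
  have hAO : e ∉ A ∪ O := fun h1 => h1.elim heA he
  have hnt : Nt (Fl O K) e := (nt_lift hz (hfO e (mem_insert _ _))).2 (h.tou e (mem_insert _ _))
  have hcpt := fl1_cpt hC hAO (hfe.trans subset_union_left) hnt
  have hont := fl1_onto hC hAO (hfe.trans subset_union_left) hnt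
  refine ⟨?_, hcpt, hont⟩
  apply Subset.antisymm
  · rintro y ⟨T, ⟨hT1, hT2, hT3⟩, hy⟩
    have hT' : zer {e} '' T ⊆ Fl O K := by
      rintro _ ⟨x, hx, rfl⟩
      refine ⟨zer {e} '' T, ⟨hT1.image _ (continuous_zer _).continuousOn, ?_, ?_⟩, x, hx, rfl⟩
      · rintro _ ⟨w, hw, rfl⟩
        obtain ⟨h1, h2⟩ := hT2 hw
        refine ⟨?_, fun e' he' => ?_⟩
        · rw [zer_zer, union_singleton]
          exact h1
        · have h3 := h2 e' (mem_insert_of_mem _ he')
          have hne : e' ∉ ({e} : Set (Ex J)) := fun h4 => by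
            rw [mem_singleton_iff] at h4
            exact he (h4 ▸ he')
          rw [zer_notMem hne]
          unfold sv at h3 ⊢
          rwa [val_zer (hfe' e' (mem_insert_of_mem _ he'))]
      · intro e' he'
        obtain ⟨w, hw, h1⟩ := hT3 e' (mem_insert_of_mem _ he')
        exact ⟨zer {e} w, ⟨w, hw, rfl⟩, by rwa [val_zer (hfe' e' (mem_insert_of_mem _ he'))]⟩
    refine ⟨T, ⟨hT1, fun x hx => ⟨hT' ⟨x, hx, rfl⟩, ?_⟩, ?_⟩, hy⟩
    · intro e' he'
      rw [mem_singleton_iff] at he'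
      subst he'
      exact (hT2 hx).2 e' (mem_insert _ _)
    · intro e' he'
      rw [mem_singleton_iff] at he'
      subst he'
      exact hT3 e' (mem_insert _ _)
  · intro y hy
    refine ⟨Fl {e} (Fl O K), ⟨hcpt.conn.isPreconnected, ?_, ?_⟩, hy⟩
    · intro x hx
      obtain ⟨h1, h2⟩ := fl_sub_FO hx
      obtain ⟨h3, h4⟩ := fl_sub_FO h1
      refine ⟨?_, ?_⟩
      · rw [zer_zer, union_singleton] at h3
        exact h3
      · intro e' he'
        rcases he' with rfl | he'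
        · exact h2 _ rfl
        · have h5 := h4 e' he'
          have hne : e' ∉ ({e} : Set (Ex J)) := fun h4 => by
            rw [mem_singleton_iff] at h4
            exact he (h4 ▸ he')
          rw [zer_notMem hne] at h5
          unfold sv at h5 ⊢
          rwa [val_zer (hfe' e' (mem_insert_of_mem _ he'))] at h5
    · intro e' he'
      rw [nt_lift hont (hfe' e' he'), nt_lift hz (hfO e' he')]
      exact h.tou e' he'

private theorem fl_main {A : Set (Ex J)} {K : Set (U J)} (O : Set (Ex J)) (hO : O.Finite) :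
    Adm A O K → Cpt (A ∪ O) (Fl O K) ∧ zer O '' Fl O K = K := by
  induction O, hO using Set.Finite.induction_on with
  | empty =>
    intro h
    rw [fl_empty h.cpt.conn.isPreconnected, union_empty]
    refine ⟨h.cpt, ?_⟩
    have : (zer ∅ : U J → U J) = id := funext zer_empty
    rw [this, image_id]
  | @insert e O he hO ih =>
    intro h
    obtain ⟨h1, h2⟩ := ih (h.subset (subset_insert _ _))
    obtain ⟨h3, h4, h5⟩ := fl_step he h h1 h2
    rw [h3, union_insert]
    refine ⟨h4, ?_⟩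
    have h6 : (zer (insert e O) : U J → U J) = zer O ∘ zer {e} := by
      funext y
      rw [Function.comp_apply, zer_zer, union_singleton]
    rw [h6, image_comp, h5, h2]

theorem fl_cpt {A O : Set (Ex J)} {K : Set (U J)} (h : Adm A O K) : Cpt (A ∪ O) (Fl O K) :=
  (fl_main O h.fin h).1

theorem fl_onto {A O : Set (Ex J)} {K : Set (U J)} (h : Adm A O K) :
    zer O '' Fl O K = K :=
  (fl_main O h.fin h).2

theorem fl_onto_tr {A O : Set (Ex J)} {K : Set (U J)} (h : Adm A O K) :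
    tr A '' Fl O K = K := by
  have h1 : tr A '' Fl O K = zer O '' Fl O K := by
    apply image_congr
    intro y hy
    exact (zer_eq_tr h.dis ((fl_cpt h).flat y hy)).symm
  rw [h1, fl_onto h]

theorem fl_insert {A O : Set (Ex J)} {K : Set (U J)} {e : Ex J} (he : e ∉ O)
    (h : Adm A (insert e O) K) : Fl (insert e O) K = Fl {e} (Fl O K) :=
  have h' := h.subset (subset_insert e O)
  (fl_step he h (fl_cpt h') (fl_onto h')).1

theorem fl_nt {A O : Set (Ex J)} {K : Set (U J)} (h : Adm A O K) {e : Ex J} (hf : fs e ⊆ A) :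
    Nt (Fl O K) e ↔ Nt K e :=
  nt_lift (fl_onto h) fun e' he' hO => h.dis e' hO (hf he')

theorem fl_capture {A O : Set (Ex J)} {K : Set (U J)} (h : Adm A O K) {T : Set (U J)}
    (hT : IsPreconnected T) (hTF : T ⊆ FO O K) (hm : (T ∩ Fl O K).Nonempty) : T ⊆ Fl O K := by
  intro y hy
  obtain ⟨x, hx1, hx2⟩ := hm
  refine ⟨T ∪ Fl O K, ⟨hT.union x hx1 hx2 (fl_cpt h).conn.isPreconnected,
    union_subset hTF fl_sub_FO, fun e he => ?_⟩, Or.inl hy⟩
  obtain ⟨z, hz, h1⟩ := (fl_nt h (h.fsA e he)).2 (h.tou e he)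
  exact ⟨z, Or.inr hz, h1⟩

theorem Adm.fl {A O₁ O₂ : Set (Ex J)} {K : Set (U J)} (h : Adm A (O₁ ∪ O₂) K)
    (hd : Disjoint O₁ O₂) : Adm (A ∪ O₁) O₂ (Fl O₁ K) := by
  have h1 := h.subset (subset_union_left (s := O₁) (t := O₂))
  refine ⟨fl_cpt h1, h.fin.subset subset_union_right, ?_, ?_, ?_⟩
  · rintro e he (h2 | h2)
    · exact h.dis e (Or.inr he) h2
    · exact disjoint_left.1 hd h2 he
  · intro e he
    exact (h.fsA e (Or.inr he)).trans subset_union_left
  · intro e he
    exact (fl_nt h1 (h.fsA e (Or.inr he))).2 (h.tou e (Or.inr he))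

private theorem fl_union_aux {A O₁ : Set (Ex J)} {K : Set (U J)} (O₂ : Set (Ex J))
    (hO₂ : O₂.Finite) : Adm A (O₁ ∪ O₂) K → Disjoint O₁ O₂ →
    Fl (O₁ ∪ O₂) K = Fl O₂ (Fl O₁ K) := by
  induction O₂, hO₂ using Set.Finite.induction_on with
  | empty =>
    intro h _
    rw [union_empty] at h
    rw [union_empty, fl_empty (fl_cpt h).conn.isPreconnected]
  | @insert e O₂ he hO ih =>
    intro h hd
    have hd' : Disjoint O₁ O₂ := hd.mono_right (subset_insert _ _)
    have heO₁ : e ∉ O₁ := fun h1 => disjoint_left.1 hd h1 (mem_insert _ _)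
    have h2 := h.fl hd
    rw [fl_insert he h2, ← ih (h.subset (union_subset_union_right _ (subset_insert _ _))) hd']
    rw [union_insert] at h ⊢
    exact fl_insert (fun h1 => h1.elim heO₁ he) h

theorem fl_union {A O₁ O₂ : Set (Ex J)} {K : Set (U J)} (h : Adm A (O₁ ∪ O₂) K)
    (hd : Disjoint O₁ O₂) : Fl (O₁ ∪ O₂) K = Fl O₂ (Fl O₁ K) :=
  fl_union_aux O₂ (h.fin.subset subset_union_right) h hd

private theorem sht_empty' (ε : ℝ) (y : U J) : sht ε ∅ y = y :=
  Prod.ext (sht_fst ε ∅ y) (funext fun e => sht_notMem (notMem_empty e) y)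

private theorem fl_sheet_aux {A : Set (Ex J)} {K : Set (U J)} {ε : ℝ}
    (hε : ε = 1 ∨ ε = -1) {Q : Set (U J)} (hQ : IsPreconnected Q) (hQK : Q ⊆ K)
    (O : Set (Ex J)) (hO : O.Finite) : Adm A O K →
    (∀ e ∈ O, ∀ y ∈ Q, -1 ≤ ε * val e y) → (∀ e ∈ O, ∃ r ∈ Q, 1 ≤ ε * val e r) →
    ∀ y ∈ Q, sht ε O y ∈ Fl O K := by
  induction O, hO using Set.Finite.induction_on with
  | empty =>
    intro h _ _ y hy
    rw [fl_empty h.cpt.conn.isPreconnected, sht_empty']
    exact hQK hy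
  | @insert e O he hO ih =>
    intro h hQe hr y hy
    have h' := h.subset (subset_insert e O)
    have h1 := ih h' (fun e' he' => hQe e' (mem_insert_of_mem _ he'))
      (fun e' he' => hr e' (mem_insert_of_mem _ he'))
    have hfe : ∀ e' ∈ fs e, e' ∉ O := fun e' he' hO' =>
      h.dis e' (mem_insert_of_mem _ hO') (h.fsA e (mem_insert _ _) he')
    have hAO : e ∉ A ∪ O := fun h1 => h1.elim (h.dis e (mem_insert _ _)) he
    obtain ⟨r, hrQ, hr1⟩ := hr e (mem_insert _ _)
    rw [fl_insert he h, ← sht_sht he hfe]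
    refine fl1_sheet (fl_cpt h') hAO ((h.fsA e (mem_insert _ _)).trans subset_union_left)
      ((fl_nt h' (h.fsA e (mem_insert _ _))).2 (h.tou e (mem_insert _ _))) hε
      (Q := sht ε O '' Q) (hQ.image _ (continuous_sht ε O).continuousOn) ?_ ?_
      (r := sht ε O r) ⟨r, hrQ, rfl⟩ ?_ _ ⟨y, hy, rfl⟩
    · rintro _ ⟨x, hx, rfl⟩
      exact h1 x hx
    · rintro _ ⟨x, hx, rfl⟩
      rw [val_sht hfe]
      exact hQe e (mem_insert _ _) x hx
    · rwa [val_sht hfe]

theorem fl_sheet {A O : Set (Ex J)} {K : Set (U J)} (h : Adm A O K) {ε : ℝ}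
    (hε : ε = 1 ∨ ε = -1) {Q : Set (U J)} (hQ : IsPreconnected Q) (hQK : Q ⊆ K)
    (hQe : ∀ e ∈ O, ∀ y ∈ Q, -1 ≤ ε * val e y) (hr : ∀ e ∈ O, ∃ r ∈ Q, 1 ≤ ε * val e r) :
    ∀ y ∈ Q, sht ε O y ∈ Fl O K :=
  fl_sheet_aux hε hQ hQK O h.fin h hQe hr

theorem fl_iInter {A O : Set (Ex J)} {ι : Type} [Nonempty ι] {K : ι → Set (U J)}
    (hd : Directed (· ⊇ ·) K) (h : ∀ a, Adm A O (K a)) (hn : ∀ e ∈ O, Nt (⋂ a, K a) e) :
    Fl O (⋂ a, K a) = ⋂ a, Fl O (K a) := by
  have hdir : ∀ i j, ∃ l, Fl O (K l) ⊆ Fl O (K i) ∧ Fl O (K l) ⊆ Fl O (K j) := by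
    intro i j
    obtain ⟨l, h1, h2⟩ := hd i j
    exact ⟨l, fl_mono h1, fl_mono h2⟩
  apply Subset.antisymm
  · exact subset_iInter fun a => fl_mono (iInter_subset _ a)
  · intro y hy
    refine ⟨⋂ a, Fl O (K a), ⟨H64DN.preconnected_iInter _ (fun a => (fl_cpt (h a)).closed)
      (fun a => (fl_cpt (h a)).conn.isPreconnected) hdir, ?_, ?_⟩, hy⟩
    · intro x hx
      rw [mem_iInter] at hx
      refine ⟨?_, ?_⟩
      · rw [mem_iInter]
        exact fun a => (fl_sub_FO (hx a)).1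
      · obtain ⟨a⟩ := ‹Nonempty ι›
        exact (fl_sub_FO (hx a)).2
    · intro e he
      obtain ⟨x, hx, hx1⟩ := hn e he
      rw [mem_iInter] at hx
      have hcz : IsClosed {z : U J | zer O z = x} :=
        isClosed_eq (continuous_zer O) continuous_const
      have h1 : (⋂ a, (Fl O (K a) ∩ {z | zer O z = x})).Nonempty := by
        refine IsCompact.nonempty_iInter_of_directed_nonempty_isCompact_isClosed _ ?_ ?_ ?_ ?_
        · intro i j
          obtain ⟨l, h1, h2⟩ := hdir i j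
          exact ⟨l, inter_subset_inter_left _ h1, inter_subset_inter_left _ h2⟩
        · intro a
          have h2 := hx a
          rw [← fl_onto (h a)] at h2
          obtain ⟨z, hz, hz1⟩ := h2
          exact ⟨z, hz, hz1⟩
        · intro a
          exact ((fl_cpt (h a)).closed.inter hcz).isCompact
        · intro a
          exact (fl_cpt (h a)).closed.inter hcz
      obtain ⟨z, hz⟩ := h1
      rw [mem_iInter] at hz
      refine ⟨z, mem_iInter.2 fun a => (hz a).1, ?_⟩
      obtain ⟨a⟩ := ‹Nonempty ι›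
      have h2 : zer O z = x := (hz a).2
      rw [← h2, val_zer] at hx1
      · exact hx1
      · intro e' he' hO
        exact (h a).dis e' hO ((h a).fsA e he he')

end Pool.DM
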