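import Pool.Agent.Helper84.DM.Basic

/-!
# DM-Sep: separation of a point from a closed set by a term

`K` closed, `a ∉ K`. `Kᶜ` is an open neighbourhood of `a` in the product
`(J → I01) × (Ex J → I5)`, so there are finite sets `S ⊆ J`, `T ⊆ Ex J` and `δ > 0` such that every `y`
with `|y.1 j - a.1 j| < δ` (`j ∈ S`) and `|y.2 e - a.2 e| < δ` (`e ∈ T`) is not in `K`. Choose rationals
`q_c` with `|q_c - a_c| < δ / 8` for these finitely many coordinates `c`. Let `E` be the maximum of
`0` and of the terms `|c - q_c|` (`mx (ad c (cn (-q))) (sm (-1) (ad c (cn (-q))))`): `val E a < δ / 8`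
(also if `S`, `T` are empty), and `val E y ≥ 7 δ / 8` for `y ∈ K`. Choose a rational `p` with
`δ / 2 < p < 3 δ / 4` and let `e = mx 0 (2 - (2 / p) E)` written as a term
(`.mx (.cn 0) (.ad (.cn 2) (.sm (-(2 / p)) E))`): for `y ∈ K`, `E ≥ 7 δ / 8 > p`, so the value is `0`;
at `a`: `2 - (2 / p) (δ / 8) > 2 - 1 / 2 > 1`.
-/

open Set Topology TopologicalSpace

namespace Pool.DM

variable {J : Type}

/-- The filter of the sets whose complement can be separated from `a` by a term. -/
private def sepF (a : U J) : Filter (U J) where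
  sets := {W | ∃ e : Ex J, (∀ y, 0 ≤ val e y) ∧ (∀ y, y ∉ W → val e y = 0) ∧ 1 < val e a}
  univ_sets := ⟨.cn 2, fun y => by simp [val], fun y hy => absurd (mem_univ y) hy, by simp [val]⟩
  sets_of_superset := by
    rintro W W' ⟨e, h1, h2, h3⟩ hW
    exact ⟨e, h1, fun y hy => h2 y (fun h => hy (hW h)), h3⟩
  inter_sets := by
    rintro W W' ⟨e, h1, h2, h3⟩ ⟨e', h1', h2', h3'⟩
    have hv : ∀ y, val (.sm (-1) (.mx (.sm (-1) e) (.sm (-1) e'))) y = min (val e y) (val e' y) := by
      intro y
      simp only [val]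
      push_cast
      rcases le_total (val e y) (val e' y) with h | h
      · rw [min_eq_left h, max_eq_left (by linarith)]
        ring
      · rw [min_eq_right h, max_eq_right (by linarith)]
        ring
    refine ⟨.sm (-1) (.mx (.sm (-1) e) (.sm (-1) e')), fun y => ?_, fun y hy => ?_, ?_⟩
    · rw [hv]
      exact le_min (h1 y) (h1' y)
    · rw [hv]
      by_cases hW : y ∈ W
      · have hW' : y ∉ W' := fun h => hy ⟨hW, h⟩
        rw [h2' y hW', min_eq_right (h1 y)]
      · rw [h2 y hW, min_eq_left (h1' y)]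
    · rw [hv]
      exact lt_min h3 h3'

private theorem sepF_coord (a : U J) (c : Ex J) : Filter.Tendsto (val c) (sepF a) (𝓝 (val c a)) := by
  rw [Metric.tendsto_nhds]
  intro ε hε
  obtain ⟨q, hq1, hq2⟩ := exists_rat_btwn (show val c a - ε / 8 < val c a + ε / 8 by linarith)
  obtain ⟨p, hp1, hp2⟩ := exists_rat_btwn (show ε / 2 < 3 * ε / 4 by linarith)
  have hp0 : (0 : ℝ) < p := by linarith
  set t : Ex J := .ad c (.cn (-q)) with ht
  set e : Ex J := .mx (.cn 0) (.ad (.cn 2) (.sm (-(2 / p)) (.mx t (.sm (-1) t)))) with he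
  have hv : ∀ y, val e y = max 0 (2 - 2 / (p : ℝ) * |val c y - q|) := by
    intro y
    have h1 : max (val t y) (((-1 : ℚ) : ℝ) * val t y) = |val c y - q| := by
      rw [abs_eq_max_neg]
      simp only [ht, val]
      push_cast
      congr 1
      ring
    have h2 : val e y = max ((0 : ℚ) : ℝ) (((2 : ℚ) : ℝ) + ((-(2 / p) : ℚ) : ℝ) *
        max (val t y) (((-1 : ℚ) : ℝ) * val t y)) := rfl
    rw [h2, h1]
    push_cast
    congr 1
    ring
  refine ⟨e, fun y => ?_, fun y hy => ?_, ?_⟩
  · rw [hv]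
    exact le_max_left _ _
  · rw [hv]
    have h1 : ε ≤ |val c y - val c a| := by
      have : ¬ dist (val c y) (val c a) < ε := hy
      rw [Real.dist_eq] at this
      exact not_lt.1 this
    have h2 : |val c a - q| ≤ ε / 8 := abs_le.2 ⟨by linarith, by linarith⟩
    have h3 : |val c y - val c a| ≤ |val c y - q| + |val c a - q| := by
      have h4 : val c y - val c a = (val c y - q) - (val c a - q) := by ring
      rw [h4]
      exact abs_sub _ _
    have h5 : (p : ℝ) ≤ |val c y - q| := by linarith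
    refine max_eq_left ?_
    have h6 : 2 / (p : ℝ) * p ≤ 2 / (p : ℝ) * |val c y - q| :=
      mul_le_mul_of_nonneg_left h5 (by positivity)
    rw [div_mul_cancel₀ _ hp0.ne'] at h6
    linarith
  · rw [hv]
    refine lt_max_of_lt_right ?_
    have h2 : |val c a - q| ≤ ε / 8 := abs_le.2 ⟨by linarith, by linarith⟩
    have h6 : 2 / (p : ℝ) * |val c a - q| < 1 := by
      rw [div_mul_eq_mul_div, div_lt_one hp0]
      linarith
    linarith

private theorem sepF_le (a : U J) : sepF a ≤ 𝓝 a := by
  have h1 : Filter.Tendsto (fun y : U J => (y.1, y.2)) (sepF a) (𝓝 (a.1, a.2)) := by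
    refine Filter.Tendsto.prodMk_nhds ?_ ?_
    · refine tendsto_pi_nhds.2 fun j => ?_
      rw [tendsto_subtype_rng]
      exact sepF_coord a (.lt j)
    · refine tendsto_pi_nhds.2 fun e => ?_
      rw [tendsto_subtype_rng]
      exact sepF_coord a (.fo e)
  intro W hW
  exact h1 hW

theorem exists_sep {K : Set (U J)} (hK : IsClosed K) {a : U J} (ha : a ∉ K) :
    ∃ e : Ex J, (∀ y, 0 ≤ val e y) ∧ (∀ y ∈ K, val e y = 0) ∧ 1 < val e a := by
  obtain ⟨e, h1, h2, h3⟩ := sepF_le a (hK.isOpen_compl.mem_nhds ha)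
  exact ⟨e, h1, fun y hy => h2 y (fun h => h hy), h3⟩

end Pool.DM
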