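import Pool.Agent.Helper84.DM.YBasic
import Pool.Agent.Helper84.DM.Sep

/-!
# DM-HI: `Y J` is hereditarily indecomposable

`P, Q ⊆ Y J` closed and connected with a common point, `a ∈ P \ Q`, `b ∈ Q \ P`. Take `e₁` from
`exists_sep` for `Q` and `a` (zero on `Q`, `> 1` at `a`), `e₂` for `P` and `b`, and
`e = .ad e₂ (.sm (-1) e₁)`. Then `val e a < -1`, `val e b > 1`, `val e ≤ 0` on `P`, `val e ≥ 0` on `Q`.
`e` is active (`a ∈ Y J`), so on `Y J` the relation `R (sv e y) (y.2 e)` holds (`Y_rel`). On `P`: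
`sv e y ≤ 0 < 1`, so `y.2 e ≠ -1` (sheet 1 gives `u = s - 2 < -1`, sheet 2 `u = -s ≥ 0`, sheet 3
`u = s + 2 ≥ 1`); `y ↦ y.2 e` is continuous and `P` is preconnected, and `a.2 e < -1`
(`sv e a < -1`: only sheet 1), so `y.2 e < -1` on `P` (`IsPreconnected.image`, intervals). On `Q` in
the same way `y.2 e ≠ 1` and `b.2 e > 1`, so `y.2 e > 1` on `Q`. Contradiction at the common point.
-/

open Set Topology TopologicalSpace

namespace Pool.DM

variable {J : Type}

theorem Y_hi' {P Q : Set (U J)} (hP : P ⊆ Y J) (hQ : Q ⊆ Y J) (hPc : IsClosed P) (hQc : IsClosed Q)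
    (hPn : IsPreconnected P) (hQn : IsPreconnected Q) (hPQ : (P ∩ Q).Nonempty) :
    P ⊆ Q ∨ Q ⊆ P := by
  by_contra hcon
  rw [not_or, not_subset, not_subset] at hcon
  obtain ⟨⟨a, haP, haQ⟩, b, hbQ, hbP⟩ := hcon
  obtain ⟨e₁, h1, h1Q, h1a⟩ := exists_sep hQc haQ
  obtain ⟨e₂, h2, h2P, h2b⟩ := exists_sep hPc hbP
  set e : Ex J := .ad e₂ (.sm (-1) e₁) with he
  have hv : ∀ y, val e y = val e₂ y - val e₁ y := by
    intro y
    simp only [he, val]
    push_cast
    ring
  have hvP : ∀ y ∈ P, val e y = - val e₁ y := by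
    intro y hy
    rw [hv, h2P y hy, zero_sub]
  have hvQ : ∀ y ∈ Q, val e y = val e₂ y := by
    intro y hy
    rw [hv, h1Q y hy, sub_zero]
  have hact : Act e := by
    refine ⟨a, hP haP, ?_⟩
    rw [hvP a haP, abs_neg]
    exact lt_of_lt_of_le h1a (le_abs_self _)
  have hcont : Continuous (fun y : U J => ((y.2 e : I5) : ℝ)) :=
    continuous_subtype_val.comp ((continuous_apply e).comp continuous_snd)
  have hPs : ∀ y ∈ P, sv e y ≤ 0 := by
    intro y hy
    unfold sv clip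
    rw [hvP y hy]
    exact max_le (by norm_num) ((min_le_right _ _).trans (by linarith [h1 y]))
  have hQs : ∀ y ∈ Q, 0 ≤ sv e y := by
    intro y hy
    unfold sv clip
    rw [hvQ y hy]
    exact le_max_of_le_right (le_min (by norm_num) (h2 y))
  have hPr : ∀ y ∈ P, ((y.2 e : I5) : ℝ) ≤ -2 ∨ 0 ≤ ((y.2 e : I5) : ℝ) := by
    intro y hy
    have hs := hPs y hy
    rcases Y_rel (hP hy) hact with ⟨_, h⟩ | ⟨_, _, h⟩ | ⟨h0, h⟩
    · left; linarith
    · right; linarith
    · right; linarith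
  have hQr : ∀ y ∈ Q, ((y.2 e : I5) : ℝ) ≤ 0 ∨ 2 ≤ ((y.2 e : I5) : ℝ) := by
    intro y hy
    have hs := hQs y hy
    rcases Y_rel (hQ hy) hact with ⟨h0, h⟩ | ⟨_, _, h⟩ | ⟨h0, h⟩
    · left; linarith
    · left; linarith
    · right; linarith
  have ha2 : ((a.2 e : I5) : ℝ) ≤ -2 := by
    have hs : sv e a < -1 := by
      unfold sv clip
      rw [hvP a haP]
      exact max_lt (by norm_num) ((min_le_right _ _).trans_lt (by linarith))
    rcases Y_rel (hP haP) hact with ⟨_, h⟩ | ⟨h0, _, h⟩ | ⟨h0, h⟩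
    · linarith
    · linarith
    · linarith
  have hb2 : 2 ≤ ((b.2 e : I5) : ℝ) := by
    have hs : 1 < sv e b := by
      unfold sv clip
      rw [hvQ b hbQ]
      exact lt_max_of_lt_right (lt_min (by norm_num) h2b)
    rcases Y_rel (hQ hbQ) hact with ⟨h0, h⟩ | ⟨h0, h0', h⟩ | ⟨h0, h⟩
    · linarith
    · linarith
    · linarith
  obtain ⟨x, hxP, hxQ⟩ := hPQ
  have hx1 : ((x.2 e : I5) : ℝ) ≤ -2 := by
    rcases hPr x hxP with h | h
    · exact h
    · exfalso
      obtain ⟨z, hz, hz2⟩ := hPn.intermediate_value haP hxP hcont.continuousOn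
        (show (-1 : ℝ) ∈ Icc _ _ from ⟨by linarith, by linarith⟩)
      simp only at hz2
      rcases hPr z hz with h' | h' <;> linarith
  have hx2 : 2 ≤ ((x.2 e : I5) : ℝ) := by
    rcases hQr x hxQ with h | h
    · exfalso
      obtain ⟨z, hz, hz2⟩ := hQn.intermediate_value hxQ hbQ hcont.continuousOn
        (show (1 : ℝ) ∈ Icc _ _ from ⟨by linarith, by linarith⟩)
      simp only at hz2
      rcases hQr z hz with h' | h' <;> linarith
    · exact h
  linarith

end Pool.DM
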