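import Pool.Agent.Helper84.DM.G3a
import Pool.Agent.Helper84.DM.HI

/-!
# DM-G3: the section of a good continuum

`x = (b, m, S)` from `exists_all`.
* `all_eq`: `trH A m = trH A K` for every level `A` of `{i}` (take `F = ∅`), and these contain every finite set (`exists_lev`); so `m = K` (`limH_le` twice).
* `all_agr`: let `y ∈ K`. The closed sets `C A = {y' ∈ b | (∀ k ≠ i, y'.1 k = y.1 k) ∧ ∀ e ∈ A, i ∉ ls e → y'.2 e = y.2 e}`, `Lev {i} A` (write it as
  `Lev (insert i ∅) A`), are directed (union of levels, `Lev.union`) and nonempty: `x ∈ Dset i K ∅ A 0` gives `ρ` with `sc i ρ A (tr A y) ∈ trH A b`, so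
  `sc i ρ A (tr A y) = tr A y'` for some `y' ∈ b` (`coe_trH`); `sc_fst_ne`, `sc_off`, `tr_mem`, `tr_fst`. By compactness there is `y'` in all of them; every
  term `e` is in some level (`exists_lev` for `{e}`). `Agr {i}ᶜ y y'`: `k ∈ {i}ᶜ` means `k ≠ i`; `ls e ⊆ {i}ᶜ` means `i ∉ ls e`.
* `all_good`: `p ∈ S` satisfies `G (insert i P) p`: `p ≤ m = K ⊆ Y J`; connected: `limH_mem` with `isClosed_conn` (`PG1_to_zero`, `PG1_zero_iff`: `trH A p` is
  connected for every level `A` of `{i}`); `pg`: `F` finite, disjoint from `insert i P`, `Lev F A`, `r`: take `A' ⊇ A` with `Lev (insert i F) A'` (`exists_lev`);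
  `x ∈ Dset i K F A' r` gives `PG1 A' r F (trH A' p)`, and `PG1_res` (`A ⊆ A'`, `Lev F A'` by `Lev.mono`) gives `PG1 A r F (trH A (trH A' p))`, `trH_trH`.
  `full`: `k ∉ insert i P`: `y ∈ K` with `y.1 k = 1` (`hK.full`), `all_agr`: `y' ∈ b ≤ p` with `y'.1 k = y.1 k` (`k ≠ i`).
* `exists_sect`: `le`: `Thr.low`/`Thr.right`; `zero` from `Dset`; `good`: `L` connected with `b ≤ L ≤ K`; every `p ∈ S` is connected, contains `b` (nonempty), so by `Y_hi'`
  `L ⊆ p` or `p ⊆ L` (`L ⊆ K ⊆ Y J`); by `Thr.mem_of_comparable` `L ∈ S`; `all_good`.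
-/

open Set Topology TopologicalSpace

namespace Pool.DM

variable {J : Type}

theorem all_eq {P : Set J} {i : J} {K : H J}
    {x : H J × H J × NonemptyCompacts (H J)} (hx : ∀ (F : Set J) (A : Set (Ex J)) (r : ℕ),
      F.Finite → i ∉ F → Disjoint F P → Lev (insert i F) A → x ∈ Dset i K F A r) :
    x.2.1 = K := by
  have key : ∀ S : Set (Ex J), S.Finite → ∃ A, S ⊆ A ∧ trH A x.2.1 = trH A K := by
    intro S hS
    obtain ⟨A, hSA, hA⟩ := exists_lev (F := insert i ∅) (finite_empty.insert i) hS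
    exact ⟨A, hSA, (hx ∅ A 0 finite_empty (notMem_empty i) disjoint_bot_left hA).2.1⟩
  apply le_antisymm
  · apply limH_le
    intro S hS
    obtain ⟨A, h1, h2⟩ := key S hS
    exact ⟨A, h1, h2.le⟩
  · apply limH_le
    intro S hS
    obtain ⟨A, h1, h2⟩ := key S hS
    exact ⟨A, h1, h2.ge⟩

theorem all_agr {P : Set J} {i : J} {K : H J}
    {x : H J × H J × NonemptyCompacts (H J)} (hx : ∀ (F : Set J) (A : Set (Ex J)) (r : ℕ),
      F.Finite → i ∉ F → Disjoint F P → Lev (insert i F) A → x ∈ Dset i K F A r) :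
    ∀ y ∈ K, ∃ y' ∈ x.1, Agr {i}ᶜ y y' := by
  intro y hy
  let I : Type := {A : Set (Ex J) // Lev (insert i ∅) A}
  have hne : Nonempty I := ⟨⟨∅, Lev.empty _⟩⟩
  let C : I → Set (U J) := fun A => (x.1 : Set (U J)) ∩
    ((⋂ k, ⋂ (_ : k ≠ i), {y' : U J | y'.1 k = y.1 k}) ∩
      ⋂ e, ⋂ (_ : e ∈ A.1), ⋂ (_ : i ∉ ls e), {y' : U J | y'.2 e = y.2 e})
  have hmem : ∀ (A : I) (y' : U J), y' ∈ C A ↔ y' ∈ x.1 ∧ (∀ k, k ≠ i → y'.1 k = y.1 k) ∧
      ∀ e, e ∈ A.1 → i ∉ ls e → y'.2 e = y.2 e := by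
    intro A y'
    simp only [C, mem_inter_iff, mem_iInter, mem_ofPred_eq, SetLike.mem_coe]
  have hcl : ∀ A : I, IsClosed (C A) := by
    intro A
    refine x.1.isCompact.isClosed.inter (IsClosed.inter ?_ ?_)
    · exact isClosed_iInter fun k => isClosed_iInter fun _ =>
        isClosed_eq ((continuous_apply k).comp continuous_fst) continuous_const
    · exact isClosed_iInter fun e => isClosed_iInter fun _ => isClosed_iInter fun _ =>
        isClosed_eq ((continuous_apply e).comp continuous_snd) continuous_const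
  have hdir : Directed (· ⊇ ·) C := by
    intro A B
    refine ⟨⟨A.1 ∪ B.1, A.2.union B.2⟩, ?_, ?_⟩
    · intro y' hy'
      rw [hmem] at hy' ⊢
      exact ⟨hy'.1, hy'.2.1, fun e he => hy'.2.2 e (Or.inl he)⟩
    · intro y' hy'
      rw [hmem] at hy' ⊢
      exact ⟨hy'.1, hy'.2.1, fun e he => hy'.2.2 e (Or.inr he)⟩
  have hnon : ∀ A : I, (C A).Nonempty := by
    intro A
    obtain ⟨ρ, hρ⟩ := (hx ∅ A.1 0 finite_empty (notMem_empty i) disjoint_bot_left A.2).2.2.2.1
    have h1 := hρ y hy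
    rw [← SetLike.mem_coe, coe_trH] at h1
    obtain ⟨y', hy', h2⟩ := h1
    refine ⟨y', (hmem A y').2 ⟨hy', ?_, ?_⟩⟩
    · intro k hk
      have h3 := congrArg (fun z : U J => z.1 k) h2
      simp only [tr_fst] at h3
      rw [h3, sc_fst_ne hk, tr_fst]
    · intro e he hie
      have h3 : (tr A.1 y').2 e = (sc i ρ A.1 (tr A.1 y)).2 e :=
        congrArg (fun z : U J => z.2 e) h2
      rw [tr_mem he] at h3
      rw [h3, sc_off he hie, tr_mem he]
  obtain ⟨y', hy'⟩ := IsCompact.nonempty_iInter_of_directed_nonempty_isCompact_isClosed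
    C hdir hnon (fun A => (hcl A).isCompact) hcl
  rw [mem_iInter] at hy'
  have h0 := (hmem _ y').1 (hy' ⟨∅, Lev.empty _⟩)
  refine ⟨y', h0.1, fun k hk => (h0.2.1 k hk).symm, fun e he => ?_⟩
  obtain ⟨A, hA1, hA⟩ := exists_lev (F := insert i ∅) (finite_empty.insert i) (finite_singleton e)
  exact (((hmem _ y').1 (hy' ⟨A, hA⟩)).2.2 e (hA1 rfl) (fun h => he h rfl)).symm

theorem all_good {P : Set J} {i : J} {K : H J} (hK : G P K)
    {x : H J × H J × NonemptyCompacts (H J)} (hx : ∀ (F : Set J) (A : Set (Ex J)) (r : ℕ),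
      F.Finite → i ∉ F → Disjoint F P → Lev (insert i F) A → x ∈ Dset i K F A r) :
    ∀ p ∈ x.2.2, G (insert i P) p := by
  intro p hp
  have hthr : Thr (x.2.2 : Set (H J)) x.1 x.2.1 :=
    (hx ∅ ∅ 0 finite_empty (notMem_empty i) disjoint_bot_left (Lev.empty _)).1
  have hpK : p ≤ K := by
    rw [← all_eq hx]
    exact hthr.high p hp
  refine ⟨(le_iff_sub.1 hpK).trans hK.sub, ?_, ?_, ?_⟩
  · refine limH_mem isClosed_conn (K := p) ?_
    intro S hS
    obtain ⟨A, hSA, hA⟩ := exists_lev (F := insert i ∅) (finite_empty.insert i) hS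
    refine ⟨A, hSA, ?_⟩
    have h1 := (hx ∅ A 0 finite_empty (notMem_empty i) disjoint_bot_left hA).2.2.2.2 p hp
    exact (PG1_zero_iff.1 h1).2.1
  · intro F hF hd A hA r
    rw [disjoint_insert_right] at hd
    obtain ⟨A', hAA, hA'⟩ := exists_lev (F := insert i F) (hF.insert i) hA.fin
    have h1 := (hx F A' r hF hd.1 hd.2 hA').2.2.2.2 p hp
    have h2 := PG1_res (hA'.mono (subset_insert i F)) hA hAA (Subset.refl F) (le_refl r) h1
    rwa [trH_trH hAA] at h2
  · intro k hk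
    rw [mem_insert_iff, not_or] at hk
    obtain ⟨y, hy, hy1⟩ := hK.full k hk.2
    obtain ⟨y', hy', h1⟩ := all_agr hx y hy
    refine ⟨y', le_iff_sub.1 (hthr.low p hp) hy', ?_⟩
    rw [← h1.1 k hk.1]
    exact hy1

/-- `b` is a section of `K` at the letter `i`. -/
structure Sect (P : Set J) (i : J) (K b : H J) : Prop where
  le : b ≤ K
  conn : IsConnected (b : Set (U J))
  zero : ∀ y ∈ b, y.1 i = 0
  agr : ∀ y ∈ K, ∃ y' ∈ b, Agr {i}ᶜ y y'
  good : ∀ L : H J, b ≤ L → L ≤ K → IsConnected (L : Set (U J)) → G (insert i P) L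

theorem exists_sect {P : Set J} {i : J} (hi : i ∉ P) {K : H J} (hK : G P K) :
    ∃ b : H J, Sect P i K b := by
  obtain ⟨x, hx⟩ := exists_all hi hK
  have h0 := hx ∅ ∅ 0 finite_empty (notMem_empty i) disjoint_bot_left (Lev.empty _)
  have hthr : Thr (x.2.2 : Set (H J)) x.1 x.2.1 := h0.1
  have heq : x.2.1 = K := all_eq hx
  have hgood := all_good hK hx
  refine ⟨x.1, ?_, (hgood x.1 hthr.left).conn, h0.2.2.1, all_agr hx, ?_⟩
  · rw [← heq]
    exact hthr.low _ hthr.right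
  · intro L hbL hLK hL
    have hLS : L ∈ (x.2.2 : Set (H J)) := by
      refine hthr.mem_of_comparable hbL (by rw [heq]; exact hLK) ?_
      intro s hs
      have hG := hgood s hs
      obtain ⟨z, hz⟩ := (hgood x.1 hthr.left).conn.nonempty
      rcases Y_hi' hG.sub ((le_iff_sub.1 hLK).trans hK.sub) s.isCompact.isClosed
        L.isCompact.isClosed hG.conn.isPreconnected hL.isPreconnected
        ⟨z, le_iff_sub.1 (hthr.low s hs) hz, le_iff_sub.1 hbL hz⟩ with h | h
      · exact Or.inl (le_iff_sub.2 h)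
      · exact Or.inr (le_iff_sub.2 h)
    exact hgood L hLS

end Pool.DM
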