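import Pool.Agent.Helper84.DM.Gd

/-!
# DM-G3a: the section data at the finite levels

`Dset i K F A r`: the triples `(b, m, S)` where `S` is a thread from `b` to `m`, `m` has the same image as `K` at the level `A`, the letter `i` is `0`
on `b`, some section map of the level `A` maps the image of `K` into the image of `b`, and the images of the elements of `S` have threads of depth `r`.

`isClosed_Dset`: `isClosed_thr` (composed with the continuous map `(b, m, S) ↦ (S, b, m)`); `trH A m = trH A K` is closed (`continuous_trH`,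
`H J` is Hausdorff); `{b | b ⊆ {y | y.1 i = 0}}` (`NonemptyCompacts.isClosed_subsets_of_isClosed`); the section condition is the union over the
finitely many maps `w = sc i ρ A` (`sc_finite` for `insert i F`) of the closed sets `{b | (trH A K).map w ≤ trH A b}` (closed order, `continuous_sc`);
`{S | S ⊆ {p | PG1 A r F (trH A p)}}` (`isClosed_PG1` for `Lev F A` (`Lev.mono`), `continuous_trH`, `NonemptyCompacts.isClosed_subsets_of_isClosed`).

`Dset_nonempty`: `hK.pg` for `insert i F` (disjoint from `P`), the level `A`, depth `r + 1`, and `PG1_succ` at the letter `i`: `ρ`, `b`, `S` with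
`Thr S b (trH A K)` and `(insert i F) \ {i} = F`. `m := trH A K`. All `p ∈ S` satisfy `p ⊆ Yc A` (`PG1_to_zero`, `PG1_zero_iff`), so
`trH A p = p` (`tr_of_flat`, `Yc_flat`), also `trH A m = m` and `trH A b = b` (`b ∈ S`). `S` is nonempty (`b ∈ S`) and compact (closed
in the compact space `H J`), so it is an element of `NonemptyCompacts (H J)`.

`Dset_anti`: apply `trH A₁`: `trH A₁ m = trH A₁ (trH A m)` (`trH_trH`); section condition: `sc i ρ A (tr A y) = tr A y'` with `y' ∈ b`; apply `tr A₁`: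
`tr_sc` (with `Lev (insert i F₁) A₁`: `clo`, `sbs`), `tr_tr`; `PG1_res` with `Lev F A`, `Lev F₁ A₁` (`Lev.mono`).

`exists_all`: index set: triples `(F, A, r)` with `F.Finite`, `i ∉ F`, `Disjoint F P`, `Lev (insert i F) A`. The sets `Dset i K F A r` are closed, nonempty and
directed: for `(F₁, A₁, r₁)`, `(F₂, A₂, r₂)` take `F = F₁ ∪ F₂`, `A ⊇ A₁ ∪ A₂` with `Lev (insert i F) A` (`exists_lev`), `r = max r₁ r₂`. The space
`H J × H J × NonemptyCompacts (H J)` is compact (`IsCompact.nonempty_iInter_of_directed_nonempty_isCompact_isClosed`). (The index type is nonempty: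
`F = ∅`, `A = ∅` (`Lev.empty`).)
-/

open Set Topology TopologicalSpace

namespace Pool.DM

variable {J : Type}

/-- The section data at the level `A`. -/
def Dset (i : J) (K : H J) (F : Set J) (A : Set (Ex J)) (r : ℕ) :
    Set (H J × H J × NonemptyCompacts (H J)) :=
  {x | Thr (x.2.2 : Set (H J)) x.1 x.2.1 ∧ trH A x.2.1 = trH A K ∧ (∀ y ∈ x.1, y.1 i = 0) ∧
    (∃ ρ : Ex J → Ru, ∀ y ∈ K, sc i ρ A (tr A y) ∈ trH A x.1) ∧
    ∀ p ∈ x.2.2, PG1 A r F (trH A p)}

theorem isClosed_Dset {i : J} {K : H J} {F : Set J} (hF : F.Finite) {A : Set (Ex J)}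
    (hA : Lev (insert i F) A) (r : ℕ) : IsClosed (Dset i K F A r) := by
  have h1 : IsClosed {x : H J × H J × NonemptyCompacts (H J) |
      Thr (x.2.2 : Set (H J)) x.1 x.2.1} :=
    (isClosed_thr (P := H J)).preimage
      (show Continuous (fun x : H J × H J × NonemptyCompacts (H J) => (x.2.2, x.1, x.2.1)) from
        (continuous_snd.comp continuous_snd).prodMk
          (continuous_fst.prodMk (continuous_fst.comp continuous_snd)))
  have h2 : IsClosed {x : H J × H J × NonemptyCompacts (H J) | trH A x.2.1 = trH A K} :=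
    isClosed_eq ((continuous_trH A).comp (continuous_fst.comp continuous_snd)) continuous_const
  have h3 : IsClosed {x : H J × H J × NonemptyCompacts (H J) | ∀ y ∈ x.1, y.1 i = 0} := by
    have h : IsClosed {b : H J | (b : Set (U J)) ⊆ {y : U J | y.1 i = 0}} :=
      NonemptyCompacts.isClosed_subsets_of_isClosed
        (isClosed_eq ((continuous_apply i).comp continuous_fst) continuous_const)
    exact h.preimage continuous_fst
  have h4 : IsClosed {x : H J × H J × NonemptyCompacts (H J) |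
      ∃ ρ : Ex J → Ru, ∀ y ∈ K, sc i ρ A (tr A y) ∈ trH A x.1} := by
    have hfin := sc_finite (hF.insert i) hA (mem_insert i F)
    have heq : {x : H J × H J × NonemptyCompacts (H J) |
        ∃ ρ : Ex J → Ru, ∀ y ∈ K, sc i ρ A (tr A y) ∈ trH A x.1} =
        ⋃ w ∈ {w : U J → U J | ∃ ρ, w = sc i ρ A},
          {x : H J × H J × NonemptyCompacts (H J) | ∀ y ∈ K, w (tr A y) ∈ trH A x.1} := by
      ext x
      simp only [mem_ofPred_eq, mem_iUnion]
      constructor
      · rintro ⟨ρ, h⟩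
        exact ⟨_, ⟨ρ, rfl⟩, h⟩
      · rintro ⟨w, ⟨ρ, rfl⟩, h⟩
        exact ⟨ρ, h⟩
    rw [heq]
    refine hfin.isClosed_biUnion fun w hw => ?_
    obtain ⟨ρ, rfl⟩ := hw
    have heq2 : {x : H J × H J × NonemptyCompacts (H J) |
        ∀ y ∈ K, sc i ρ A (tr A y) ∈ trH A x.1} =
        {x | (trH A K).map (sc i ρ A) (continuous_sc i ρ A) ≤ trH A x.1} := by
      ext x
      simp only [mem_ofPred_eq]
      rw [le_iff_sub, NonemptyCompacts.coe_map, coe_trH]
      constructor
      · rintro h _ ⟨_, ⟨y, hy, rfl⟩, rfl⟩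
        exact h y hy
      · intro h y hy
        exact h ⟨_, ⟨y, hy, rfl⟩, rfl⟩
    rw [heq2]
    exact isClosed_le continuous_const ((continuous_trH A).comp continuous_fst)
  have h5 : IsClosed {x : H J × H J × NonemptyCompacts (H J) |
      ∀ p ∈ x.2.2, PG1 A r F (trH A p)} := by
    have h : IsClosed {S : NonemptyCompacts (H J) |
        (S : Set (H J)) ⊆ {p : H J | PG1 A r F (trH A p)}} :=
      NonemptyCompacts.isClosed_subsets_of_isClosed
        ((isClosed_PG1 hF (hA.mono (subset_insert i F)) r).preimage (continuous_trH A))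
    exact h.preimage (continuous_snd.comp continuous_snd)
  exact h1.inter (h2.inter (h3.inter (h4.inter h5)))

theorem Dset_nonempty {P : Set J} {i : J} (hi : i ∉ P) {K : H J} (hK : G P K) {F : Set J}
    (hF : F.Finite) (hiF : i ∉ F) (hFP : Disjoint F P) {A : Set (Ex J)}
    (hA : Lev (insert i F) A) (r : ℕ) : (Dset i K F A r).Nonempty := by
  have hd : Disjoint (insert i F) P := by
    rw [Set.disjoint_insert_left]
    exact ⟨hi, hFP⟩
  have h1 : PG1 A (r + 1) (insert i F) (trH A K) := hK.pg _ (hF.insert i) hd A hA (r + 1)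
  obtain ⟨-, h2⟩ := PG1_succ.1 h1
  obtain ⟨ρ, b, S, hS, hb, hsc, hp⟩ := h2 i (mem_insert i F)
  have hFF : insert i F \ {i} = F := by
    ext x
    simp only [mem_sdiff, mem_insert_iff, mem_singleton_iff]
    constructor
    · rintro ⟨h | h, h'⟩
      · exact absurd h h'
      · exact h
    · intro h
      exact ⟨Or.inr h, fun h' => hiF (h' ▸ h)⟩
  rw [hFF] at hp
  have hself : ∀ p ∈ S, trH A p = p := by
    intro p hpS
    have h3 := (PG1_zero_iff.1 (PG1_to_zero (hp p hpS))).1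
    have h4 : ∀ y ∈ (p : Set (U J)), tr A y = y := fun y hy =>
      tr_of_flat fun e he => Yc_flat (h3 hy) he
    apply eq_of_coe
    rw [coe_trH]
    ext y
    constructor
    · rintro ⟨z, hz, rfl⟩
      rw [h4 z hz]
      exact hz
    · intro hy
      exact ⟨y, hy, h4 y hy⟩
  refine ⟨(b, trH A K, ⟨⟨S, hS.closed.isCompact⟩, ⟨b, hS.left⟩⟩), hS, ?_, hb, ⟨ρ, ?_⟩, ?_⟩
  · exact trH_trH (Subset.refl A) K
  · intro y hy
    change sc i ρ A (tr A y) ∈ trH A b
    rw [hself b hS.left]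
    apply hsc
    rw [← SetLike.mem_coe, coe_trH]
    exact ⟨y, hy, rfl⟩
  · intro p hpS
    have hpS' : p ∈ S := hpS
    rw [hself p hpS']
    exact hp p hpS'

theorem Dset_anti {i : J} {K : H J} {F F₁ : Set J} {A A₁ : Set (Ex J)}
    (hA : Lev (insert i F) A) (hA₁ : Lev (insert i F₁) A₁) (hFF : F₁ ⊆ F) (hAA : A₁ ⊆ A)
    {r r₁ : ℕ} (hr : r₁ ≤ r) : Dset i K F A r ⊆ Dset i K F₁ A₁ r₁ := by
  rintro ⟨b, m, S⟩ ⟨h1, h2, h3, ⟨ρ, h4⟩, h5⟩
  refine ⟨h1, ?_, h3, ⟨ρ, ?_⟩, ?_⟩
  · change trH A₁ m = trH A₁ K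
    have h2' : trH A m = trH A K := h2
    rw [← trH_trH hAA m, h2', trH_trH hAA K]
  · intro y hy
    have h6 := h4 y hy
    rw [← SetLike.mem_coe, coe_trH] at h6
    obtain ⟨z, hz, hz'⟩ := h6
    rw [← SetLike.mem_coe, coe_trH]
    refine ⟨z, hz, ?_⟩
    rw [← tr_tr hAA z, hz', tr_sc hAA hA₁.clo
      (fun e he hie => hA₁.sbs i (mem_insert i F₁) e he hie ρ), tr_tr hAA]
  · intro p hp
    rw [← trH_trH hAA p]
    exact PG1_res (hA.mono (subset_insert i F)) (hA₁.mono (subset_insert i F₁)) hAA hFF hr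
      (h5 p hp)

theorem exists_all {P : Set J} {i : J} (hi : i ∉ P) {K : H J} (hK : G P K) :
    ∃ x : H J × H J × NonemptyCompacts (H J), ∀ (F : Set J) (A : Set (Ex J)) (r : ℕ),
      F.Finite → i ∉ F → Disjoint F P → Lev (insert i F) A → x ∈ Dset i K F A r := by
  let I : Type := {q : Set J × Set (Ex J) × ℕ // q.1.Finite ∧ i ∉ q.1 ∧ Disjoint q.1 P ∧
    Lev (insert i q.1) q.2.1}
  have hne : Nonempty I := ⟨⟨(∅, ∅, 0), finite_empty, notMem_empty i, disjoint_bot_left,
    Lev.empty _⟩⟩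
  have hcl : ∀ q : I, IsClosed (Dset i K q.1.1 q.1.2.1 q.1.2.2) := fun q =>
    isClosed_Dset q.2.1 q.2.2.2.2 _
  have hdir : Directed (· ⊇ ·) (fun q : I => Dset i K q.1.1 q.1.2.1 q.1.2.2) := by
    rintro ⟨⟨F₁, A₁, r₁⟩, hF₁, hi₁, hd₁, hA₁⟩ ⟨⟨F₂, A₂, r₂⟩, hF₂, hi₂, hd₂, hA₂⟩
    obtain ⟨A, hAA, hA⟩ := exists_lev (F := insert i (F₁ ∪ F₂)) ((hF₁.union hF₂).insert i)
      (hA₁.fin.union hA₂.fin)
    refine ⟨⟨(F₁ ∪ F₂, A, max r₁ r₂), hF₁.union hF₂, ?_, ?_, hA⟩, ?_, ?_⟩
    · rintro (h | h)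
      · exact hi₁ h
      · exact hi₂ h
    · exact disjoint_union_left.2 ⟨hd₁, hd₂⟩
    · exact Dset_anti hA hA₁ subset_union_left (subset_union_left.trans hAA) (le_max_left _ _)
    · exact Dset_anti hA hA₂ subset_union_right (subset_union_right.trans hAA) (le_max_right _ _)
  obtain ⟨x, hx⟩ := IsCompact.nonempty_iInter_of_directed_nonempty_isCompact_isClosed
    (fun q : I => Dset i K q.1.1 q.1.2.1 q.1.2.2) hdir
    (fun q => Dset_nonempty hi hK q.2.1 q.2.2.1 q.2.2.2.1 q.2.2.2.2 _)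
    (fun q => (hcl q).isCompact) hcl
  refine ⟨x, fun F A r hF hiF hFP hA => ?_⟩
  exact mem_iInter.1 hx ⟨(F, A, r), hF, hiF, hFP, hA⟩

end Pool.DM
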