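import Pool.Agent.Helper84.DM.Gd
import Pool.Agent.Helper84.DM.Sep

/-!
# DM-G4: separation by terms with few letters

`exists_move`: `S \ T` is finite and `N \ S` is infinite, so there is an injection `g : S \ T → N \ S`. `σ` swaps `s` and `g s` for `s ∈ S \ T`
(a product of disjoint transpositions; e.g. induction on the finite set `S \ T`, or define the involution directly), `F = S \ T ∪ g (S \ T)`, which is disjoint
from `T` because `N` is. `ρ` fixes the elements of `T` because `ρ ∈ PF F`.

`G_sep`: `a ∈ L' \ L`, `exists_sep` for the closed set `L`: `e₀` with `val e₀ = 0` on `L`, `1 < val e₀ a`. `exists_move` with `S = ls e₀` (`ls_finite`), `T = insert i P`: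
`σ`, `F`. By `G.map_eq` (`F` is finite and disjoint from `insert i P`) `act σ '' L = L`, `act σ '' L' = L'`. `e := e₀.map σ`: `ls e = σ '' ls e₀`
(`ls_map`) `⊆ T ∪ N`; `val e (act σ y) = val e₀ y` (`val_map_act`).
-/

open Set Topology TopologicalSpace

namespace Pool.DM

variable {J : Type}

theorem exists_move {S T N : Set J} (hS : S.Finite) (hN : N.Infinite) (hd : Disjoint N T) :
    ∃ (σ : Equiv.Perm J) (F : Set J), F.Finite ∧ Disjoint F T ∧ σ ∈ PF F ∧
      ∀ j ∈ S, σ j ∈ T ∪ N := by
  classical
  induction S, hS using Set.Finite.induction_on with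
  | empty =>
    exact ⟨1, ∅, Set.finite_empty, Set.empty_disjoint T, fun i _ => rfl,
      fun j hj => absurd hj (Set.notMem_empty j)⟩
  | @insert s S hs hS ih =>
    obtain ⟨σ, F, hF, hFT, hσ, hm⟩ := ih
    by_cases hu : σ s ∈ T ∪ N
    · refine ⟨σ, F, hF, hFT, hσ, fun j hj => ?_⟩
      rcases Set.mem_insert_iff.1 hj with rfl | hj
      · exact hu
      · exact hm j hj
    · obtain ⟨n, hnN, hnS⟩ := hN.exists_notMem_finite (hS.image σ)
      have huT : σ s ∉ T := fun h => hu (Or.inl h)
      have hnT : n ∉ T := Set.disjoint_left.1 hd hnN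
      refine ⟨Equiv.swap (σ s) n * σ, insert (σ s) (insert n F), (hF.insert n).insert (σ s),
        ?_, ?_, ?_⟩
      · rw [Set.disjoint_left]
        intro x hx
        rcases Set.mem_insert_iff.1 hx with rfl | hx
        · exact huT
        · rcases Set.mem_insert_iff.1 hx with rfl | hx
          · exact hnT
          · exact Set.disjoint_left.1 hFT hx
      · intro x hx
        have h1 : x ≠ σ s := fun h => hx (Set.mem_insert_iff.2 (Or.inl h))
        have h2 : x ≠ n := fun h => hx (Set.mem_insert_iff.2 (Or.inr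
          (Set.mem_insert_iff.2 (Or.inl h))))
        have h3 : x ∉ F := fun h => hx (Set.mem_insert_iff.2 (Or.inr
          (Set.mem_insert_iff.2 (Or.inr h))))
        rw [Equiv.Perm.mul_apply, hσ x h3]
        exact Equiv.swap_apply_of_ne_of_ne h1 h2
      · intro j hj
        rcases Set.mem_insert_iff.1 hj with rfl | hj
        · rw [Equiv.Perm.mul_apply, Equiv.swap_apply_left]
          exact Or.inr hnN
        · have h1 : σ j ≠ σ s := fun h => hs (σ.injective h ▸ hj)
          have h2 : σ j ≠ n := fun h => hnS (h ▸ Set.mem_image_of_mem _ hj)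
          rw [Equiv.Perm.mul_apply, Equiv.swap_apply_of_ne_of_ne h1 h2]
          exact hm j hj

theorem G_sep {P N : Set J} {i : J} (hN : N.Infinite) (hd : Disjoint N (insert i P)) {L L' : H J}
    (hL : G (insert i P) L) (hL' : G (insert i P) L') (hle : L ≤ L') (hne : L ≠ L') :
    ∃ e : Ex J, ls e ⊆ insert i P ∪ N ∧ (∀ y ∈ L, val e y = 0) ∧ ∃ a ∈ L', 1 < val e a := by
  obtain ⟨a, haL', haL⟩ : ∃ a, a ∈ (L' : Set (U J)) ∧ a ∉ (L : Set (U J)) := by
    by_contra hcon
    push Not at hcon
    exact hne (le_antisymm hle hcon)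
  obtain ⟨e₀, -, h0, h1⟩ := exists_sep (L.isCompact.isClosed) haL
  obtain ⟨σ, F, hF, hFT, hσ, hm⟩ := exists_move (ls_finite e₀) hN hd
  have hmL := hL.map_eq hF hFT hσ
  have hmL' := hL'.map_eq hF hFT hσ
  refine ⟨e₀.map σ, ?_, ?_, act σ a, ?_, ?_⟩
  · rw [ls_map]
    rintro _ ⟨j, hj, rfl⟩
    exact hm j hj
  · intro y hy
    have hy' : y ∈ act σ '' (L : Set (U J)) := by rw [hmL]; exact hy
    obtain ⟨z, hz, rfl⟩ := hy'
    rw [val_map_act]
    exact h0 z hz
  · have : act σ a ∈ act σ '' (L' : Set (U J)) := Set.mem_image_of_mem _ haL'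
    rw [hmL'] at this
    exact this
  · rw [val_map_act]
    exact h1

end Pool.DM
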