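import Pool.Agent.Helper84.DM.GMu

/-!
# DM-GChain: a chain interval of continua on which countably many functions separate is an arc

The proof of `H64DN.exists_arc` (`Pool/Agent/Helper64/DN/Arc.lean`) with `exists_mu_of` instead of `exists_mu`: the strictness of `μ` is used there only for two
comparable members of `𝒢 = {K | K closed connected, C ⊆ K ⊆ Y}`.
-/

set_option autoImplicit false

namespace Pool.DM

open Set Topology

theorem chain_arc {X : Type} [TopologicalSpace X] [CompactSpace X] [T2Space X] (C Y : Set X)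
    (hCY : C ⊂ Y) (hC : IsClosed C) (hC' : IsConnected C) (hY : IsClosed Y) (hY' : IsConnected Y)
    (hch : ∀ K K' : Set X, IsClosed K → IsConnected K → C ⊆ K → K ⊆ Y → IsClosed K' →
      IsConnected K' → C ⊆ K' → K' ⊆ Y → K ⊆ K' ∨ K' ⊆ K)
    (φ : ℕ → X → ℝ) (hφc : ∀ n, Continuous (φ n)) (hφ0 : ∀ n x, 0 ≤ φ n x)
    (hφ1 : ∀ n x, φ n x ≤ 1)
    (hsep : ∀ K K' : Set X, IsClosed K → IsConnected K → C ⊆ K → IsClosed K' →
      IsConnected K' → K' ⊆ Y → K ⊂ K' → ∃ n, (∀ x ∈ K, φ n x = 0) ∧ ∃ a ∈ K', 0 < φ n a) :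
    ∃ G : unitInterval → Set X,
      (∀ t, IsClosed (G t) ∧ IsConnected (G t) ∧ C ⊆ G t ∧ G t ⊆ Y) ∧
      G 0 = C ∧ G 1 = Y ∧ (∀ t t', t < t' → G t ⊂ G t') ∧
      (∀ U : Set X, IsOpen U → IsOpen {t | G t ⊆ U}) ∧
      (∀ U : Set X, IsOpen U → IsOpen {t | (G t ∩ U).Nonempty}) := by
  obtain ⟨μ, hmono, hstr, hsup, hinf⟩ := exists_mu_of φ hφc hφ0 hφ1
  -- the continua between `C` and `Y`
  set 𝒢 : Set (Set X) := {K | IsClosed K ∧ IsConnected K ∧ C ⊆ K ∧ K ⊆ Y} with h𝒢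
  have hcomp : ∀ K ∈ 𝒢, ∀ K' ∈ 𝒢, K ⊆ K' ∨ K' ⊆ K := by
    rintro K ⟨a1, a2, a3, a4⟩ K' ⟨b1, b2, b3, b4⟩
    exact hch K K' a1 a2 a3 a4 b1 b2 b3 b4
  have hCm : C ∈ 𝒢 := ⟨hC, hC', subset_rfl, hCY.subset⟩
  have hYm : Y ∈ 𝒢 := ⟨hY, hY', hCY.subset, subset_rfl⟩
  have hstrict : ∀ K ∈ 𝒢, ∀ K' ∈ 𝒢, K ⊂ K' → μ K < μ K' := by
    rintro K ⟨a1, a2, a3, _⟩ K' ⟨b1, b2, _, b4⟩ h
    exact hstr K K' h.subset (hsep K K' a1 a2 a3 b1 b2 b4 h)
  have hμCY : μ C < μ Y := hstrict C hCm Y hYm hCY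
  -- unions and intersections
  have hUn : ∀ A : Set (Set X), A ⊆ 𝒢 → A.Nonempty → closure (⋃₀ A) ∈ 𝒢 := by
    intro A hA hne
    refine ⟨isClosed_closure, H64DN.closure_sUnion_connected A hne (fun K hK => (hA hK).2.1)
      (fun K hK K' hK' => hcomp K (hA hK) K' (hA hK')), ?_, ?_⟩
    · obtain ⟨K, hK⟩ := hne
      exact (hA hK).2.2.1.trans ((Set.subset_sUnion_of_mem hK).trans subset_closure)
    · exact closure_minimal (Set.sUnion_subset fun K hK => (hA hK).2.2.2) hY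
  have hIn : ∀ A : Set (Set X), A ⊆ 𝒢 → A.Nonempty → ⋂₀ A ∈ 𝒢 := by
    intro A hA hne
    obtain ⟨h1, h2⟩ := H64DN.sInter_connected A hne (fun K hK => ⟨(hA hK).1, (hA hK).2.1⟩)
      (fun K hK K' hK' => hcomp K (hA hK) K' (hA hK'))
    refine ⟨h1, h2, Set.subset_sInter fun K hK => (hA hK).2.2.1, ?_⟩
    obtain ⟨K, hK⟩ := hne
    exact (Set.sInter_subset_of_mem hK).trans (hA hK).2.2.2
  have hUμ : ∀ (A : Set (Set X)) (v : ℝ), A ⊆ 𝒢 → A.Nonempty → (∀ K ∈ A, μ K ≤ v) →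
      μ (closure (⋃₀ A)) ≤ v := fun A v hA hne h =>
    hsup A v hne (fun K hK => (hA hK).2.1.nonempty)
      (fun K hK K' hK' => hcomp K (hA hK) K' (hA hK')) h
  have hIμ : ∀ (A : Set (Set X)) (v : ℝ), A ⊆ 𝒢 → A.Nonempty → (∀ K ∈ A, v ≤ μ K) →
      v ≤ μ (⋂₀ A) := fun A v hA hne h =>
    hinf A v hne (fun K hK => ⟨(hA hK).1, (hA hK).2.1.nonempty⟩)
      (fun K hK K' hK' => hcomp K (hA hK) K' (hA hK')) h
  -- order by size
  have hsub : ∀ K ∈ 𝒢, ∀ K' ∈ 𝒢, μ K ≤ μ K' → K ⊆ K' := by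
    intro K hK K' hK' h
    by_contra hn
    rcases hcomp K hK K' hK' with h1 | h1
    · exact hn h1
    · exact absurd (hstrict K' hK' K hK ⟨h1, hn⟩) (not_lt.2 h)
  have huniq : ∀ K ∈ 𝒢, ∀ K' ∈ 𝒢, μ K = μ K' → K = K' := fun K hK K' hK' h =>
    (hsub K hK K' hK' h.le).antisymm (hsub K' hK' K hK h.ge)
  -- every size is attained
  have hex : ∀ v : ℝ, μ C ≤ v → v ≤ μ Y → ∃ K ∈ 𝒢, μ K = v := by
    intro v hv1 hv2
    have hA : {K | K ∈ 𝒢 ∧ μ K ≤ v} ⊆ 𝒢 := fun K hK => hK.1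
    have hB : {K | K ∈ 𝒢 ∧ v ≤ μ K} ⊆ 𝒢 := fun K hK => hK.1
    have hAne : {K | K ∈ 𝒢 ∧ μ K ≤ v}.Nonempty := ⟨C, hCm, hv1⟩
    have hBne : {K | K ∈ 𝒢 ∧ v ≤ μ K}.Nonempty := ⟨Y, hYm, hv2⟩
    have h1 := hUn _ hA hAne
    have h2 := hIn _ hB hBne
    have h3 := hUμ _ v hA hAne (fun K hK => hK.2)
    have h4 := hIμ _ v hB hBne (fun K hK => hK.2)
    rcases hcomp _ h1 _ h2 with h5 | h5
    · by_cases h6 : ⋂₀ {K | K ∈ 𝒢 ∧ v ≤ μ K} ⊆ closure (⋃₀ {K | K ∈ 𝒢 ∧ μ K ≤ v})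
      · exact ⟨_, h1, le_antisymm h3 (h4.trans (hmono _ _ h6))⟩
      · obtain ⟨K, hK1, hK2, hK3, hK4⟩ := H64DN.exists_between h1.1 h1.2.1 h2.1 h2.2.1 ⟨h5, h6⟩
        have hK : K ∈ 𝒢 := ⟨hK1, hK2, h1.2.2.1.trans hK3.subset, hK4.subset.trans h2.2.2.2⟩
        exfalso
        rcases le_total (μ K) v with h7 | h7
        · exact hK3.2 ((Set.subset_sUnion_of_mem (S := {K | K ∈ 𝒢 ∧ μ K ≤ v}) ⟨hK, h7⟩).trans
            subset_closure)
        · exact hK4.2 (Set.sInter_subset_of_mem (S := {K | K ∈ 𝒢 ∧ v ≤ μ K}) ⟨hK, h7⟩)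
    · exact ⟨_, h2, le_antisymm ((hmono _ _ h5).trans h3) h4⟩
  -- the parametrisation
  set v : unitInterval → ℝ := fun t => μ C + (t : ℝ) * (μ Y - μ C) with hv
  have hpos : 0 < μ Y - μ C := sub_pos.2 hμCY
  have hvmono : StrictMono v := by
    intro s t hst
    have : (s : ℝ) < (t : ℝ) := hst
    simp only [hv]
    nlinarith
  have hv0 : ∀ t, μ C ≤ v t := fun t => by
    have := t.2.1
    simp only [hv]
    nlinarith
  have hv1 : ∀ t, v t ≤ μ Y := fun t => by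
    have := t.2.2
    simp only [hv]
    nlinarith
  choose G hG hGμ using fun t : unitInterval => hex (v t) (hv0 t) (hv1 t)
  have hGle : ∀ s t, s ≤ t → G s ⊆ G t := fun s t hst =>
    hsub _ (hG s) _ (hG t) (by rw [hGμ, hGμ]; exact hvmono.monotone hst)
  have hsurj : ∀ K ∈ 𝒢, ∃ t, K = G t := by
    intro K hK
    have h1 : μ C ≤ μ K := hmono _ _ hK.2.2.1
    have h2 : μ K ≤ μ Y := hmono _ _ hK.2.2.2
    refine ⟨⟨(μ K - μ C) / (μ Y - μ C), div_nonneg (sub_nonneg.2 h1) hpos.le, ?_⟩, ?_⟩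
    · rw [div_le_one hpos]
      linarith
    · refine huniq _ hK _ (hG _) ?_
      rw [hGμ]
      simp only [hv]
      rw [div_mul_cancel₀ _ hpos.ne']
      ring
  have hG0 : G 0 = C := huniq _ (hG 0) _ hCm (by rw [hGμ]; simp [hv])
  have hG1 : G 1 = Y := huniq _ (hG 1) _ hYm (by rw [hGμ]; simp [hv])
  refine ⟨G, fun t => hG t, hG0, hG1, ?_, ?_, ?_⟩
  · intro t t' htt
    refine ⟨hGle _ _ htt.le, fun h => ?_⟩
    have h1 := hmono _ _ h
    rw [hGμ, hGμ] at h1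
    exact absurd (hvmono htt) (not_lt.2 h1)
  · intro U hU
    rw [isOpen_iff_mem_nhds]
    intro t₀ ht₀
    rcases eq_or_lt_of_le (unitInterval.le_one' (t := t₀)) with h1 | h1
    · refine Filter.mem_of_superset Filter.univ_mem fun t _ => ?_
      exact (hGle t t₀ (by rw [h1]; exact unitInterval.le_one')).trans ht₀
    · -- the intersection of the later sets
      have hA : {K | ∃ t, t₀ < t ∧ K = G t} ⊆ 𝒢 := by
        rintro K ⟨t, _, rfl⟩
        exact hG t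
      have hAne : {K | ∃ t, t₀ < t ∧ K = G t}.Nonempty := ⟨G 1, 1, h1, rfl⟩
      have h2 := hIn _ hA hAne
      have h3 : μ (⋂₀ {K | ∃ t, t₀ < t ∧ K = G t}) ≤ v t₀ := by
        by_contra h4
        push Not at h4
        obtain ⟨K', hK', hK'μ⟩ := hex ((v t₀ + μ (⋂₀ {K | ∃ t, t₀ < t ∧ K = G t})) / 2)
          (by have := hv0 t₀; linarith)
          (by have := hmono _ _ h2.2.2.2; linarith)
        obtain ⟨t', rfl⟩ := hsurj K' hK'
        have h5 : t₀ < t' := by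
          by_contra h6
          have h7 := hvmono.monotone (not_lt.1 h6)
          rw [hGμ] at hK'μ
          linarith
        have h6 := hmono _ _ (Set.sInter_subset_of_mem (S := {K | ∃ t, t₀ < t ∧ K = G t})
          ⟨t', h5, rfl⟩)
        linarith
      have h4 : ⋂₀ {K | ∃ t, t₀ < t ∧ K = G t} ⊆ U :=
        (hsub _ h2 _ (hG t₀) (by rw [hGμ]; exact h3)).trans ht₀
      have hne : Nonempty {t : unitInterval // t₀ < t} := ⟨⟨1, h1⟩⟩
      obtain ⟨⟨t₁, ht₁⟩, h5⟩ := exists_subset_nhds_of_isCompact'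
        (ι := {t : unitInterval // t₀ < t}) (V := fun t => G t.1) (U := U)
        (by
          rintro ⟨s, hs⟩ ⟨t, ht⟩
          exact ⟨⟨min s t, lt_min hs ht⟩, hGle _ _ (min_le_left _ _), hGle _ _ (min_le_right _ _)⟩)
        (fun t => (hG t.1).1.isCompact) (fun t => (hG t.1).1)
        (by
          intro x hx
          refine hU.mem_nhds (h4 ?_)
          rintro K ⟨t, ht, rfl⟩
          exact Set.mem_iInter.1 hx ⟨t, ht⟩)
      refine Filter.mem_of_superset (Iio_mem_nhds ht₁) fun t ht => ?_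
      exact (hGle t t₁ (le_of_lt ht)).trans h5
  · intro U hU
    rw [isOpen_iff_mem_nhds]
    intro t₀ ht₀
    rcases eq_or_lt_of_le (unitInterval.nonneg' (t := t₀)) with h1 | h1
    · refine Filter.mem_of_superset Filter.univ_mem fun t _ => ?_
      exact Set.Nonempty.mono (Set.inter_subset_inter_left _
        (hGle t₀ t (by rw [← h1]; exact unitInterval.nonneg'))) ht₀
    · have hA : {K | ∃ t, t < t₀ ∧ K = G t} ⊆ 𝒢 := by
        rintro K ⟨t, _, rfl⟩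
        exact hG t
      have hAne : {K | ∃ t, t < t₀ ∧ K = G t}.Nonempty := ⟨G 0, 0, h1, rfl⟩
      have h2 := hUn _ hA hAne
      have h3 : v t₀ ≤ μ (closure (⋃₀ {K | ∃ t, t < t₀ ∧ K = G t})) := by
        by_contra h4
        push Not at h4
        obtain ⟨K', hK', hK'μ⟩ := hex ((v t₀ + μ (closure (⋃₀ {K | ∃ t, t < t₀ ∧ K = G t}))) / 2)
          (by have := hmono _ _ h2.2.2.1; linarith)
          (by have := hv1 t₀; linarith)
        obtain ⟨t', rfl⟩ := hsurj K' hK'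
        have h5 : t' < t₀ := by
          by_contra h6
          have h7 := hvmono.monotone (not_lt.1 h6)
          rw [hGμ] at hK'μ
          linarith
        have h6 := hmono _ _ ((Set.subset_sUnion_of_mem (S := {K | ∃ t, t < t₀ ∧ K = G t})
          ⟨t', h5, rfl⟩).trans subset_closure)
        linarith
      have h4 : G t₀ ⊆ closure (⋃₀ {K | ∃ t, t < t₀ ∧ K = G t}) :=
        hsub _ (hG t₀) _ h2 (by rw [hGμ]; exact h3)
      obtain ⟨x, hx, hxU⟩ := ht₀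
      obtain ⟨y, hyU, K, ⟨t₁, ht₁, rfl⟩, hyK⟩ := mem_closure_iff.1 (h4 hx) U hU hxU
      refine Filter.mem_of_superset (Ioi_mem_nhds ht₁) fun t ht => ?_
      exact ⟨y, hGle t₁ t (le_of_lt ht) hyK, hyU⟩

end Pool.DM
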