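import Pool.Agent.Helper84.DM.Defs

/-!
# DM-GCount: countably many terms

`count_terms`: `Λ` countable: `{e | ls e ⊆ Λ}` is countable: `Ex J` restricted to the letters in `Λ` is the image of `Ex Λ` under `Ex.map Subtype.val`, and
`Ex Λ` is countable (inductive type with countable parameters: prove it with an injection into a countable type, e.g. by recursion into lists of numbers, or write the
set as the union over `n` of the sets of the terms of height `≤ n`, each countable by induction).
-/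

open Set Topology TopologicalSpace

namespace Pool.DM

variable {J : Type}

/-- The terms of height at most `n` with the letters in `Λ`. -/
private def gcS (Λ : Set J) : ℕ → Set (Ex J)
  | 0 => (Ex.lt '' Λ) ∪ Set.range (Ex.cn : ℚ → Ex J)
  | n + 1 => gcS Λ n ∪ (Ex.fo '' gcS Λ n) ∪ (Set.image2 Ex.ad (gcS Λ n) (gcS Λ n)) ∪
      (⋃ q : ℚ, Ex.sm q '' gcS Λ n) ∪ (Set.image2 Ex.mx (gcS Λ n) (gcS Λ n))

private theorem gcS_countable {Λ : Set J} (h : Λ.Countable) : ∀ n, (gcS Λ n).Countable := by
  intro n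
  induction n with
  | zero => exact (h.image _).union (Set.countable_range _)
  | succ n ih =>
    exact ((((ih.union (ih.image _)).union (ih.image2 ih _)).union
      (Set.countable_iUnion fun q => ih.image _)).union (ih.image2 ih _))

private theorem gcS_mono {Λ : Set J} {m n : ℕ} (h : m ≤ n) : gcS Λ m ⊆ gcS Λ n := by
  induction h with
  | refl => exact subset_rfl
  | step _ ih => exact ih.trans (fun x hx => Or.inl (Or.inl (Or.inl (Or.inl hx))))

private theorem mem_gcS {Λ : Set J} (e : Ex J) : ls e ⊆ Λ → ∃ n, e ∈ gcS Λ n := by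
  induction e with
  | lt j => exact fun h => ⟨0, Or.inl ⟨j, h rfl, rfl⟩⟩
  | fo e ih =>
    intro h
    obtain ⟨n, hn⟩ := ih h
    exact ⟨n + 1, Or.inl (Or.inl (Or.inl (Or.inr ⟨e, hn, rfl⟩)))⟩
  | cn q => exact fun _ => ⟨0, Or.inr ⟨q, rfl⟩⟩
  | ad a b iha ihb =>
    intro h
    obtain ⟨n, hn⟩ := iha (Set.subset_union_left.trans h)
    obtain ⟨m, hm⟩ := ihb (Set.subset_union_right.trans h)
    exact ⟨max n m + 1, Or.inl (Or.inl (Or.inr ⟨a, gcS_mono (le_max_left _ _) hn, b,
      gcS_mono (le_max_right _ _) hm, rfl⟩))⟩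
  | sm q a iha =>
    intro h
    obtain ⟨n, hn⟩ := iha h
    exact ⟨n + 1, Or.inl (Or.inr (Set.mem_iUnion.2 ⟨q, a, hn, rfl⟩))⟩
  | mx a b iha ihb =>
    intro h
    obtain ⟨n, hn⟩ := iha (Set.subset_union_left.trans h)
    obtain ⟨m, hm⟩ := ihb (Set.subset_union_right.trans h)
    exact ⟨max n m + 1, Or.inr ⟨a, gcS_mono (le_max_left _ _) hn, b,
      gcS_mono (le_max_right _ _) hm, rfl⟩⟩

theorem count_terms {Λ : Set J} (h : Λ.Countable) : {e : Ex J | ls e ⊆ Λ}.Countable := by
  refine (Set.countable_iUnion fun n => gcS_countable h n).mono ?_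
  intro e he
  obtain ⟨n, hn⟩ := mem_gcS e he
  exact Set.mem_iUnion.2 ⟨n, hn⟩

end Pool.DM
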