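import Pool.Agent.Helper84.DM.G3
import Pool.Agent.Helper84.DM.G4
import Pool.Agent.Helper84.DM.GChain
import Pool.Agent.Helper84.DM.GCount
import Pool.Agent.Helper84.DM.HI

/-!
# DM-GArc: arcs of good continua

`exists_arcH`: `b` from `exists_sect`. `b ≠ K`: there is `y ∈ K` with `y.1 i = 1` (`hK.full i hi`), and `y.1 i = 0` on `b`. The continua between `b` and `K` form a
chain by `Y_hi'` (all contain the nonempty `b`). Let `N' ⊆ N` be countable and infinite (`Set.Infinite.exists_subset_...` / `Infinite.natEmbedding`). There are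
only countably many terms with letters in the countable set `insert i P ∪ N'` (`count_terms`); enumerate them: `e : ℕ → Ex J` (the set is nonempty, it contains
`.cn 0`; `Set.Countable.exists_eq_range`), `φ n y = max 0 (min 1 (val (e n) y))` (`continuous_val`). Separation: `K ⊂ K'` continua between `b` and `K`
are good for `insert i P` (`Sect.good`, as elements of `H J`: closed nonempty sets in a compact space); `G_sep` with `N'`. `chain_arc` gives
`Γ : unitInterval → Set (U J)`; `γ t := Γ (projIcc 0 1 _ t)`.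
* `one`, `mono` (`Γ` is monotone), `mem` (`Sect.good`), `upper`, `lower`: the open sets `{t | Γ t ⊆ O}` of `unitInterval` (metric: `Metric.isOpen_iff`, the distance in
  `unitInterval` is `|t' - t|`).
* `agr`: `γ 0 = b`, `Sect.agr`. `sep`: for `s < t`: `Γ s ⊂ Γ t`, both good; `G_sep` with `N`.
-/

open Set Topology TopologicalSpace

namespace Pool.DM

variable {J : Type}

theorem exists_arcH {P : Set J} (hP : P.Countable) {i : J} (hi : i ∉ P) {N : Set J}
    (hN : N.Infinite) (hd : Disjoint N (insert i P)) {K : H J} (hK : G P K) :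
    ∃ γ : ℝ → Set (U J), ArcG P i N (K : Set (U J)) γ := by
  obtain ⟨b, hb⟩ := exists_sect hi hK
  have hbK : (b : Set (U J)) ⊆ (K : Set (U J)) := le_iff_sub.1 hb.le
  have hbne : (b : Set (U J)) ⊂ (K : Set (U J)) := by
    refine ⟨hbK, fun h => ?_⟩
    obtain ⟨y, hy, hy1⟩ := hK.full i hi
    have h0 := hb.zero y (h hy)
    rw [h0] at hy1
    exact zero_ne_one hy1
  have hbconn : IsConnected (b : Set (U J)) := hb.conn
  have toH : ∀ L : Set (U J), IsClosed L → IsConnected L → (b : Set (U J)) ⊆ L →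
      L ⊆ (K : Set (U J)) → ∃ M : H J, (M : Set (U J)) = L ∧ G (insert i P) M := by
    intro L h1 h2 h3 h4
    let M : H J := ⟨⟨L, h1.isCompact⟩, h2.nonempty⟩
    exact ⟨M, rfl, hb.good M (le_iff_sub.2 h3) (le_iff_sub.2 h4) h2⟩
  have hch : ∀ K1 K2 : Set (U J), IsClosed K1 → IsConnected K1 → (b : Set (U J)) ⊆ K1 →
      K1 ⊆ (K : Set (U J)) → IsClosed K2 → IsConnected K2 → (b : Set (U J)) ⊆ K2 →
      K2 ⊆ (K : Set (U J)) → K1 ⊆ K2 ∨ K2 ⊆ K1 := by
    intro K1 K2 a1 a2 a3 a4 b1 b2 b3 b4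
    refine Y_hi' (a4.trans hK.sub) (b4.trans hK.sub) a1 b1 a2.isPreconnected b2.isPreconnected ?_
    obtain ⟨y, hy⟩ := b.nonempty
    exact ⟨y, a3 hy, b3 hy⟩
  obtain ⟨N', hN'N, hN'c, hN'i⟩ : ∃ N' ⊆ N, N'.Countable ∧ N'.Infinite := by
    refine ⟨range fun n => (hN.natEmbedding N n : J), ?_, countable_range _,
      infinite_range_of_injective fun m n h => (hN.natEmbedding N).injective (Subtype.ext h)⟩
    rintro _ ⟨n, rfl⟩
    exact (hN.natEmbedding N n).2
  have hcount := count_terms ((hP.insert i).union hN'c)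
  obtain ⟨e, he⟩ := hcount.exists_eq_range ⟨Ex.cn 0, by
    show ls (Ex.cn 0 : Ex J) ⊆ _
    exact empty_subset _⟩
  obtain ⟨Γ, hΓ, hΓ0, hΓ1, hΓm, hΓu, hΓl⟩ := chain_arc (b : Set (U J)) (K : Set (U J)) hbne
    b.isCompact.isClosed hbconn K.isCompact.isClosed hK.conn hch
    (fun n y => max 0 (min 1 (val (e n) y)))
    (fun n => continuous_const.max (continuous_const.min (continuous_val (e n))))
    (fun n x => le_max_left _ _)
    (fun n x => max_le zero_le_one (min_le_left _ _))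
    (by
      intro K1 K2 a1 a2 a3 b1 b2 b3 h12
      obtain ⟨M1, hM1, hG1⟩ := toH K1 a1 a2 a3 (h12.subset.trans b3)
      obtain ⟨M2, hM2, hG2⟩ := toH K2 b1 b2 (a3.trans h12.subset) b3
      obtain ⟨e0, h1, h2, a, ha, h3⟩ := G_sep hN'i (hd.mono_left hN'N) hG1 hG2
        (le_iff_sub.2 (by rw [hM1, hM2]; exact h12.subset))
        (by
          rintro rfl
          rw [hM1] at hM2
          exact h12.ne hM2)
      have h4 : e0 ∈ range e := by
        rw [← he]
        exact h1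
      obtain ⟨n, rfl⟩ := h4
      refine ⟨n, ?_, a, ?_, ?_⟩
      · intro x hx
        rw [← hM1] at hx
        rw [h2 x hx]
        simp
      · rw [← hM2]
        exact ha
      · exact lt_max_of_lt_right (lt_min zero_lt_one (zero_lt_one.trans h3)))
  have hle : ∀ s t : unitInterval, s ≤ t → Γ s ⊆ Γ t := by
    intro s t hst
    rcases hst.lt_or_eq with h | h
    · exact (hΓm s t h).subset
    · rw [h]
  have hproj : ∀ t : ℝ, ∀ h0 : 0 ≤ t, ∀ h1 : t ≤ 1,
      Set.projIcc (0 : ℝ) 1 zero_le_one t = ⟨t, h0, h1⟩ := fun t h0 h1 =>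
    Set.projIcc_of_mem zero_le_one ⟨h0, h1⟩
  have hG : ∀ t, ∃ M : H J, (M : Set (U J)) = Γ t ∧ G (insert i P) M := fun t =>
    toH (Γ t) (hΓ t).1 (hΓ t).2.1 (hΓ t).2.2.1 (hΓ t).2.2.2
  refine ⟨fun t => Γ (Set.projIcc (0 : ℝ) 1 zero_le_one t), ?_, ?_, ?_, ?_, ?_, ?_, ?_⟩
  · show Γ _ = _
    rw [hproj 1 zero_le_one le_rfl]
    exact hΓ1
  · intro t _ _
    exact hG _
  · intro s t _ hst _
    exact hle _ _ (Set.monotone_projIcc zero_le_one hst)
  · intro t h0 h1 O hO hsub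
    simp only [hproj t h0 h1] at hsub
    obtain ⟨δ, hδ, hball⟩ := Metric.isOpen_iff.1 (hΓu O hO) ⟨t, h0, h1⟩ hsub
    refine ⟨δ, hδ, fun t' h0' h1' htt => ?_⟩
    show Γ _ ⊆ O
    rw [hproj t' h0' h1']
    exact hball (show dist (⟨t', h0', h1'⟩ : unitInterval) ⟨t, h0, h1⟩ < δ from htt)
  · intro t h0 h1 O hO hsub
    simp only [hproj t h0 h1] at hsub
    obtain ⟨δ, hδ, hball⟩ := Metric.isOpen_iff.1 (hΓl O hO) ⟨t, h0, h1⟩ hsub
    refine ⟨δ, hδ, fun t' h0' h1' htt => ?_⟩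
    show (Γ _ ∩ O).Nonempty
    rw [hproj t' h0' h1']
    exact hball (show dist (⟨t', h0', h1'⟩ : unitInterval) ⟨t, h0, h1⟩ < δ from htt)
  · intro y hy
    obtain ⟨y', hy', h⟩ := hb.agr y hy
    refine ⟨y', ?_, h⟩
    show y' ∈ Γ _
    rw [hproj 0 le_rfl zero_le_one]
    have h0 : (⟨0, le_rfl, zero_le_one⟩ : unitInterval) = 0 := rfl
    rw [h0, hΓ0]
    exact hy'
  · intro s t h0 hst h1
    have hs1 : s ≤ 1 := hst.le.trans h1
    have ht0 : 0 ≤ t := h0.trans hst.le
    have hlt : Γ ⟨s, h0, hs1⟩ ⊂ Γ ⟨t, ht0, h1⟩ := hΓm _ _ hst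
    obtain ⟨M1, hM1, hG1⟩ := hG ⟨s, h0, hs1⟩
    obtain ⟨M2, hM2, hG2⟩ := hG ⟨t, ht0, h1⟩
    obtain ⟨e0, h2, h3, a, ha, h4⟩ := G_sep hN hd hG1 hG2
      (le_iff_sub.2 (by rw [hM1, hM2]; exact hlt.subset))
      (by
        rintro rfl
        rw [hM1] at hM2
        exact hlt.ne hM2)
    refine ⟨e0, h2, ?_, a, ?_, h4⟩
    · intro y hy
      simp only [hproj s h0 hs1] at hy
      rw [← hM1] at hy
      exact h3 y hy
    · show a ∈ Γ _
      rw [hproj t ht0 h1, ← hM2]
      exact ha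

end Pool.DM
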