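import Pool.Agent.Helper84.DM.GArc

/-!
# DM-GInt: the interface of the Y side used by the embedding

(Assembled from the modules of the Y side.)
-/

open Set Topology TopologicalSpace

namespace Pool.DM

variable {J : Type}

theorem Gs_Y : Gs ∅ (Y J) := ⟨YH J, coe_YH, G_YH⟩

theorem Gs.closed {P : Set J} {K : Set (U J)} (h : Gs P K) : IsClosed K := by
  obtain ⟨L, rfl, -⟩ := h
  exact L.isCompact.isClosed

theorem Gs.conn {P : Set J} {K : Set (U J)} (h : Gs P K) : IsConnected K := by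
  obtain ⟨L, rfl, hL⟩ := h
  exact hL.conn

theorem Gs.sub {P : Set J} {K : Set (U J)} (h : Gs P K) : K ⊆ Y J := by
  obtain ⟨L, rfl, hL⟩ := h
  exact hL.sub

theorem Gs.mono {P P' : Set J} {K : Set (U J)} (hPP : P ⊆ P') (h : Gs P K) : Gs P' K := by
  obtain ⟨L, h1, hL⟩ := h
  exact ⟨L, h1, hL.mono hPP⟩

theorem Gs.iInter {P : Set J} {ι : Type} [Nonempty ι] {K : ι → Set (U J)}
    (hd : Directed (· ⊇ ·) K) (h : ∀ a, Gs P (K a)) : Gs P (⋂ a, K a) := by
  choose L hL hG using h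
  obtain ⟨M, h1, h2⟩ := closure_iInter L (fun a b => by
    obtain ⟨c, h1, h2⟩ := hd a b
    refine ⟨c, le_iff_sub.2 ?_, le_iff_sub.2 ?_⟩
    · rw [hL, hL]
      exact h1
    · rw [hL, hL]
      exact h2)
  refine ⟨M, ?_, ?_⟩
  · rw [h1]
    exact iInter_congr fun a => hL a
  · have h3 : closure (range L) ⊆ {K : H J | G P K} :=
      closure_minimal (by rintro _ ⟨a, rfl⟩; exact hG a) (isClosed_G P)
    exact h3 h2

theorem exists_arc {P : Set J} (hP : P.Countable) {i : J} (hi : i ∉ P) {N : Set J}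
    (hN : N.Infinite) (hd : Disjoint N (insert i P)) {K : Set (U J)} (hK : Gs P K) :
    ∃ γ : ℝ → Set (U J), ArcG P i N K γ := by
  obtain ⟨L, rfl, hL⟩ := hK
  exact exists_arcH hP hi hN hd hL

theorem isCompact_Y : IsCompact (Y J) := isClosed_Y.isCompact

/-- `Y J` is hereditarily indecomposable. -/
theorem Y_hi {P Q : Set (U J)} (hP : P ⊆ Y J) (hQ : Q ⊆ Y J) (hPc : IsClosed P) (hQc : IsClosed Q)
    (hPn : IsPreconnected P) (hQn : IsPreconnected Q) (hPQ : (P ∩ Q).Nonempty) :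
    P ⊆ Q ∨ Q ⊆ P := Y_hi' hP hQ hPc hQc hPn hQn hPQ

end Pool.DM
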