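import Pool.Agent.Helper64.DN.Mu

/-!
# DM-GMu: the size function given by countably many functions

The proof of `H64DN.exists_mu` (`Pool/Agent/Helper64/DN/Mu.lean`) with the given functions `φ n` instead of those of `mu_phi_aux`:
`μ K = ∑' n, (1/2)^(n+1) * sSup (φ n '' K)`. Only the strictness clause changes.
-/

set_option autoImplicit false

namespace Pool.DM

open Set Topology

theorem exists_mu_of {X : Type} [TopologicalSpace X] [CompactSpace X] [T2Space X]
    (φ : ℕ → X → ℝ) (hφc : ∀ n, Continuous (φ n)) (hφ0 : ∀ n x, 0 ≤ φ n x)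
    (hφ1 : ∀ n x, φ n x ≤ 1) :
    ∃ μ : Set X → ℝ,
      (∀ K K' : Set X, K ⊆ K' → μ K ≤ μ K') ∧
      (∀ K K' : Set X, K ⊆ K' → (∃ n, (∀ x ∈ K, φ n x = 0) ∧ ∃ a ∈ K', 0 < φ n a) →
        μ K < μ K') ∧
      (∀ (C : Set (Set X)) (v : ℝ), C.Nonempty → (∀ K ∈ C, K.Nonempty) →
        (∀ K ∈ C, ∀ K' ∈ C, K ⊆ K' ∨ K' ⊆ K) → (∀ K ∈ C, μ K ≤ v) →
        μ (closure (⋃₀ C)) ≤ v) ∧
      (∀ (C : Set (Set X)) (v : ℝ), C.Nonempty → (∀ K ∈ C, IsClosed K ∧ K.Nonempty) →
        (∀ K ∈ C, ∀ K' ∈ C, K ⊆ K' ∨ K' ⊆ K) → (∀ K ∈ C, v ≤ μ K) → v ≤ μ (⋂₀ C)) := by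
  have hbdd : ∀ n (K : Set X), BddAbove (φ n '' K) := by
    intro n K
    refine ⟨1, ?_⟩
    rintro _ ⟨x, -, rfl⟩
    exact hφ1 n x
  have hS0 : ∀ n (K : Set X), 0 ≤ sSup (φ n '' K) := by
    intro n K
    refine Real.sSup_nonneg ?_
    rintro _ ⟨x, -, rfl⟩
    exact hφ0 n x
  have hS1 : ∀ n (K : Set X), sSup (φ n '' K) ≤ 1 := by
    intro n K
    refine Real.sSup_le ?_ (by norm_num)
    rintro _ ⟨x, -, rfl⟩
    exact hφ1 n x
  have hSle : ∀ n (K : Set X) x, x ∈ K → φ n x ≤ sSup (φ n '' K) := by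
    intro n K x hx
    exact le_csSup (hbdd n K) ⟨x, hx, rfl⟩
  have hSmono : ∀ n (K K' : Set X), K ⊆ K' → sSup (φ n '' K) ≤ sSup (φ n '' K') := by
    intro n K K' h
    refine Real.sSup_le ?_ (hS0 n K')
    rintro _ ⟨x, hx, rfl⟩
    exact hSle n K' x (h hx)
  have hgs : Summable (fun n : ℕ => (1 / 2 : ℝ) ^ (n + 1)) := by
    have := (summable_nat_add_iff (f := fun n : ℕ => (1 / 2 : ℝ) ^ n) 1).2
      (summable_geometric_of_lt_one (by norm_num) (by norm_num))
    exact this
  have hsum : ∀ K : Set X, Summable (fun n => (1 / 2 : ℝ) ^ (n + 1) * sSup (φ n '' K)) := by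
    intro K
    refine Summable.of_nonneg_of_le (fun n => mul_nonneg (by positivity) (hS0 n K))
      (fun n => ?_) hgs
    have : (0 : ℝ) ≤ (1 / 2 : ℝ) ^ (n + 1) := by positivity
    nlinarith [hS1 n K]
  refine ⟨fun K => ∑' n, (1 / 2 : ℝ) ^ (n + 1) * sSup (φ n '' K), ?_, ?_, ?_, ?_⟩
  · intro K K' h
    refine (hsum K).tsum_le_tsum (fun n => ?_) (hsum K')
    exact mul_le_mul_of_nonneg_left (hSmono n K K' h) (by positivity)
  · rintro K K' h ⟨n, hn0, z, hz', hnz⟩
    refine Summable.tsum_lt_tsum (i := n) (fun m => ?_) ?_ (hsum K) (hsum K')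
    · exact mul_le_mul_of_nonneg_left (hSmono m K K' h) (by positivity)
    · have h1 : sSup (φ n '' K) ≤ 0 := by
        refine Real.sSup_le ?_ le_rfl
        rintro _ ⟨x, hx, rfl⟩
        exact (hn0 x hx).le
      have h2 := hSle n K' z hz'
      have : (0 : ℝ) < (1 / 2 : ℝ) ^ (n + 1) := by positivity
      exact mul_lt_mul_of_pos_left (by linarith) this
  · intro C v hC hCn hch hv
    refine H64DN.mu_key_aux (ι := C) (fun n => sSup (φ n '' closure (⋃₀ C)))
      (fun K n => sSup (φ n '' (K : Set X))) v (fun n => hS0 n _)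
      (fun K n => hS0 n _) (fun K n => hS1 n _) ?_ (fun K => hv K K.2)
    intro M ε hε
    have hsingle : ∀ n, ∃ K ∈ C, sSup (φ n '' closure (⋃₀ C)) ≤ sSup (φ n '' K) + ε := by
      intro n
      by_contra hcon
      push Not at hcon
      have hsub : closure (⋃₀ C) ⊆ {x | φ n x ≤ sSup (φ n '' closure (⋃₀ C)) - ε} := by
        refine closure_minimal ?_ (isClosed_le (hφc n) continuous_const)
        rintro x ⟨K, hKC, hxK⟩
        have h1 := hcon K hKC
        have h2 := hSle n K x hxK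
        show φ n x ≤ _
        linarith
      obtain ⟨K, hKC⟩ := hC
      obtain ⟨x, hxK⟩ := hCn K hKC
      have hne : (φ n '' closure (⋃₀ C)).Nonempty :=
        ⟨φ n x, x, subset_closure ⟨K, hKC, hxK⟩, rfl⟩
      have : sSup (φ n '' closure (⋃₀ C)) ≤ sSup (φ n '' closure (⋃₀ C)) - ε := by
        refine csSup_le hne ?_
        rintro _ ⟨y, hy, rfl⟩
        exact hsub hy
      linarith
    induction M with
    | zero =>
      obtain ⟨K, hKC⟩ := hC
      exact ⟨⟨K, hKC⟩, fun n hn => absurd hn (Nat.not_lt_zero n)⟩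
    | succ M ih =>
      obtain ⟨⟨K, hKC⟩, hK⟩ := ih
      obtain ⟨K', hK'C, hK'⟩ := hsingle M
      rcases hch K hKC K' hK'C with h | h
      · refine ⟨⟨K', hK'C⟩, fun n hn => ?_⟩
        rcases Nat.lt_succ_iff_lt_or_eq.1 hn with h' | h'
        · have h1 := hK n h'
          have h2 := hSmono n K K' h
          simp only at h1 ⊢
          linarith
        · subst h'
          exact hK'
      · refine ⟨⟨K, hKC⟩, fun n hn => ?_⟩
        rcases Nat.lt_succ_iff_lt_or_eq.1 hn with h' | h'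
        · exact hK n h'
        · subst h'
          have h2 := hSmono n K' K h
          simp only
          linarith
  · intro C v hC hCc hch hv
    have hsub1 : ∀ K : Set X, ∑' n, (1 / 2 : ℝ) ^ (n + 1) * (1 - sSup (φ n '' K))
        = (∑' n : ℕ, (1 / 2 : ℝ) ^ (n + 1))
          - ∑' n, (1 / 2 : ℝ) ^ (n + 1) * sSup (φ n '' K) := by
      intro K
      rw [← hgs.tsum_sub (hsum K)]
      refine tsum_congr (fun n => ?_)
      ring
    have hmain := H64DN.mu_key_aux (ι := C) (fun n => 1 - sSup (φ n '' ⋂₀ C))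
      (fun K n => 1 - sSup (φ n '' (K : Set X))) 
      ((∑' n : ℕ, (1 / 2 : ℝ) ^ (n + 1)) - v)
      (fun n => by have := hS1 n (⋂₀ C); linarith)
      (fun K n => by have := hS1 n (K : Set X); linarith)
      (fun K n => by have := hS0 n (K : Set X); linarith) ?_
      (fun K => by
        rw [hsub1]
        have := hv K K.2
        linarith)
    · rw [hsub1] at hmain
      simp only
      linarith
    intro M ε hε
    have hsingle : ∀ n, ∃ K ∈ C, sSup (φ n '' K) ≤ sSup (φ n '' ⋂₀ C) + ε := by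
      intro n
      by_contra hcon
      push Not at hcon
      have hne : (⋂ K : C, ((K : Set X) ∩ {x | sSup (φ n '' ⋂₀ C) + ε ≤ φ n x})).Nonempty := by
        have : Nonempty C := hC.to_subtype
        refine IsCompact.nonempty_iInter_of_directed_nonempty_isCompact_isClosed _ ?_ ?_ ?_ ?_
        · rintro ⟨K, hK⟩ ⟨K', hK'⟩
          rcases hch K hK K' hK' with h | h
          · refine ⟨⟨K, hK⟩, le_rfl, ?_⟩
            exact Set.inter_subset_inter_left _ h
          · refine ⟨⟨K', hK'⟩, ?_, le_rfl⟩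
            exact Set.inter_subset_inter_left _ h
        · rintro ⟨K, hK⟩
          obtain ⟨_, ⟨x, hx, rfl⟩, hlt⟩ := exists_lt_of_lt_csSup
            ((hCc K hK).2.image (φ n)) (hcon K hK)
          exact ⟨x, hx, hlt.le⟩
        · rintro ⟨K, hK⟩
          exact ((hCc K hK).1.inter (isClosed_le continuous_const (hφc n))).isCompact
        · rintro ⟨K, hK⟩
          exact (hCc K hK).1.inter (isClosed_le continuous_const (hφc n))
      obtain ⟨z, hz⟩ := hne
      rw [Set.mem_iInter] at hz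
      have hzC : z ∈ ⋂₀ C := by
        rw [Set.mem_sInter]
        intro K hK
        exact (hz ⟨K, hK⟩).1
      obtain ⟨K, hK⟩ := hC
      have h1 : sSup (φ n '' ⋂₀ C) + ε ≤ φ n z := (hz ⟨K, hK⟩).2
      have h2 := hSle n (⋂₀ C) z hzC
      linarith
    induction M with
    | zero =>
      obtain ⟨K, hKC⟩ := hC
      exact ⟨⟨K, hKC⟩, fun n hn => absurd hn (Nat.not_lt_zero n)⟩
    | succ M ih =>
      obtain ⟨⟨K, hKC⟩, hK⟩ := ih
      obtain ⟨K', hK'C, hK'⟩ := hsingle M
      rcases hch K hKC K' hK'C with h | h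
      · refine ⟨⟨K, hKC⟩, fun n hn => ?_⟩
        rcases Nat.lt_succ_iff_lt_or_eq.1 hn with h' | h'
        · exact hK n h'
        · subst h'
          have h2 := hSmono n K K' h
          simp only
          linarith
      · refine ⟨⟨K', hK'C⟩, fun n hn => ?_⟩
        rcases Nat.lt_succ_iff_lt_or_eq.1 hn with h' | h'
        · have h1 := hK n h'
          have h2 := hSmono n K' K h
          simp only at h1 ⊢
          linarith
        · subst h'
          simp only
          linarith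

end Pool.DM
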