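import Pool.Agent.Helper84.DM.Canon

/-!
# DM-Gd: good continua: closedness, monotonicity, invariance

`G_YH`: `PG1_Y`, `isConnected_Y`, `coe_YH`; `full`: `Y_letters` with all letters equal to `1`.

`G.mono`: clear (`Disjoint F P'` implies `Disjoint F P`).

`isClosed_G`: `{K | G P K}` is the intersection of `{K | K ⊆ Y J}` (`NonemptyCompacts.isClosed_subsets_of_isClosed`, `isClosed_Y`),
`{K | IsConnected K}` (`isClosed_conn`), the preimages of `{K | PG1 A r F K}` (`isClosed_PG1`) under the continuous `trH A`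
(`continuous_trH`), and `{K | ∃ y ∈ K, y.1 k = 1}`, `k ∉ P` (`NonemptyCompacts.isClosed_inter_nonempty_of_isClosed`).

`closure_iInter`: `M = ⋂ a, L a` is nonempty and compact (`IsCompact.nonempty_iInter_of_directed_nonempty_isCompact_isClosed`),
so it is an element of `H J`. It is in the closure of `range L`: a basic neighbourhood of `M`
(`NonemptyCompacts.isTopologicalBasis`; or use that the Vietoris topology is generated by the sets `{K | K ⊆ O}`, `{K | K ∩ V ≠ ∅}`)
is given by finitely many open sets: `M ⊆ O` implies `L a ⊆ O` for some `a` (`exists_subset_nhds_of_isCompact'`), and `M ∩ V ≠ ∅`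
implies `L a ∩ V ≠ ∅` for all `a`. Alternative: the net `L` is monotone decreasing in the compact space `H J` with closed order: a cluster point
`c` of it (along the filter of the tails) satisfies `c ≤ L a` for all `a`, and `M ≤ c` because `M ≤ L a` for all `a`; so `c = M`.

`G.inv`: for every finite `S` take a level `A ⊇ S` for `F` (`exists_lev`). `PG1_to_zero`, `PG1_zero_iff` for `hK.pg`: for `y ∈ K`
`act σ (tr A y) ∈ trH A K`, and `act σ (tr A y) = tr A (act σ y)` (`act_tr`, `Inv.image`). So `trH A (K.map (act σ)) ≤ trH A K`; by `limH_le`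
`K.map (act σ) ≤ K`.
-/

open Set Topology TopologicalSpace

namespace Pool.DM

variable {J : Type}

theorem G_YH : G ∅ (YH J) := by
  refine ⟨?_, ?_, ?_, ?_⟩
  · rw [coe_YH]
  · rw [coe_YH]; exact isConnected_Y
  · intro F hF _ A hA r
    exact PG1_Y hF hA r
  · intro k _
    obtain ⟨y, hy, h⟩ := Y_letters (J := J) (fun _ => 1)
    refine ⟨y, ?_, by rw [h]⟩
    rw [← SetLike.mem_coe, coe_YH]
    exact hy

theorem G.mono {P P' : Set J} (h : P ⊆ P') {K : H J} (hK : G P K) : G P' K := by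
  refine ⟨hK.sub, hK.conn, ?_, ?_⟩
  · intro F hF hd
    exact hK.pg F hF (hd.mono_right h)
  · intro k hk
    exact hK.full k (fun h' => hk (h h'))

theorem isClosed_G (P : Set J) : IsClosed {K : H J | G P K} := by
  have h1 : IsClosed {K : H J | (K : Set (U J)) ⊆ Y J} :=
    NonemptyCompacts.isClosed_subsets_of_isClosed isClosed_Y
  have h2 : IsClosed {K : H J | IsConnected (K : Set (U J))} := isClosed_conn
  have h3 : IsClosed {K : H J | ∀ F : Set J, F.Finite → Disjoint F P → ∀ A, Lev F A → ∀ r,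
      PG1 A r F (trH A K)} := by
    have : {K : H J | ∀ F : Set J, F.Finite → Disjoint F P → ∀ A, Lev F A → ∀ r,
        PG1 A r F (trH A K)} = ⋂ (F : Set J) (_ : F.Finite) (_ : Disjoint F P)
          (A : Set (Ex J)) (_ : Lev F A) (r : ℕ), (trH A) ⁻¹' {K : H J | PG1 A r F K} := by
      ext K
      simp only [mem_setOf_eq, mem_iInter, mem_preimage]
    rw [this]
    refine isClosed_iInter fun F => isClosed_iInter fun hF => isClosed_iInter fun _ =>
      isClosed_iInter fun A => isClosed_iInter fun hA => isClosed_iInter fun r => ?_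
    exact (isClosed_PG1 hF hA r).preimage (continuous_trH A)
  have h4 : IsClosed {K : H J | ∀ k, k ∉ P → ∃ y ∈ K, y.1 k = 1} := by
    have : {K : H J | ∀ k, k ∉ P → ∃ y ∈ K, y.1 k = 1} = ⋂ (k : J) (_ : k ∉ P),
        {K : H J | ((K : Set (U J)) ∩ {y : U J | y.1 k = 1}).Nonempty} := by
      ext K
      simp only [mem_setOf_eq, mem_iInter]
      refine forall_congr' fun k => forall_congr' fun _ => ?_
      constructor
      · rintro ⟨y, hy, h⟩
        exact ⟨y, hy, h⟩
      · rintro ⟨y, hy, h⟩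
        exact ⟨y, hy, h⟩
    rw [this]
    refine isClosed_iInter fun k => isClosed_iInter fun _ => ?_
    refine NonemptyCompacts.isClosed_inter_nonempty_of_isClosed ?_
    exact isClosed_eq ((continuous_apply k).comp continuous_fst) continuous_const
  have h5 : {K : H J | G P K} = (({K : H J | (K : Set (U J)) ⊆ Y J} ∩
      {K : H J | IsConnected (K : Set (U J))}) ∩ {K : H J | ∀ F : Set J, F.Finite →
        Disjoint F P → ∀ A, Lev F A → ∀ r, PG1 A r F (trH A K)}) ∩
      {K : H J | ∀ k, k ∉ P → ∃ y ∈ K, y.1 k = 1} := by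
    ext K
    constructor
    · intro h
      exact ⟨⟨⟨h.sub, h.conn⟩, h.pg⟩, h.full⟩
    · rintro ⟨⟨⟨a, b⟩, c⟩, d⟩
      exact ⟨a, b, c, d⟩
  rw [h5]
  exact ((h1.inter h2).inter h3).inter h4

theorem closure_iInter {ι : Type} [Nonempty ι] (L : ι → H J)
    (hd : ∀ a b, ∃ c, L c ≤ L a ∧ L c ≤ L b) :
    ∃ M : H J, (M : Set (U J)) = ⋂ a, (L a : Set (U J)) ∧ M ∈ closure (range L) := by
  have hdir : Directed (· ⊇ ·) (fun a => (L a : Set (U J))) := by
    intro a b
    obtain ⟨c, h1, h2⟩ := hd a b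
    exact ⟨c, le_iff_sub.1 h1, le_iff_sub.1 h2⟩
  have hcl : ∀ a, IsClosed (L a : Set (U J)) := fun a => (L a).isCompact.isClosed
  have hne : (⋂ a, (L a : Set (U J))).Nonempty :=
    IsCompact.nonempty_iInter_of_directed_nonempty_isCompact_isClosed _ hdir
      (fun a => (L a).nonempty) (fun a => (L a).isCompact) hcl
  have hcomp : IsCompact (⋂ a, (L a : Set (U J))) := (isClosed_iInter hcl).isCompact
  refine ⟨⟨⟨⋂ a, (L a : Set (U J)), hcomp⟩, hne⟩, rfl, ?_⟩
  rw [NonemptyCompacts.isTopologicalBasis.mem_closure_iff]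
  rintro _ ⟨u, ⟨huf, _, huo⟩, rfl⟩ ⟨hKu, hKm⟩
  have hKu' : (⋂ a, (L a : Set (U J))) ⊆ ⋃₀ u := hKu
  obtain ⟨a, ha⟩ := exists_subset_nhds_of_isCompact' hdir (fun a => (L a).isCompact) hcl
    (U := ⋃₀ u) (fun x hx => (isOpen_sUnion huo).mem_nhds (hKu' hx))
  refine ⟨L a, ⟨ha, fun V hV => ?_⟩, mem_range_self a⟩
  obtain ⟨x, hx, hxV⟩ := hKm V hV
  have hx' : x ∈ ⋂ a, (L a : Set (U J)) := hx
  exact ⟨x, mem_iInter.1 hx' a, hxV⟩

theorem G.inv {P : Set J} {K : H J} (hK : G P K) {F : Set J} (hF : F.Finite)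
    (hd : Disjoint F P) {σ : Equiv.Perm J} (hσ : σ ∈ PF F) {y : U J} (hy : y ∈ K) :
    act σ y ∈ K := by
  have h : K.map (act σ) (continuous_act σ) ≤ K := by
    refine limH_le fun S hS => ?_
    obtain ⟨A, hSA, hA⟩ := exists_lev hF hS
    refine ⟨A, hSA, ?_⟩
    have h1 := (PG1_zero_iff.1 (PG1_to_zero (hK.pg F hF hd A hA 0))).2.2 σ hσ
    rw [le_iff_sub, coe_trH, coe_trH]
    rintro _ ⟨z, hz, rfl⟩
    obtain ⟨w, hw, rfl⟩ := (mem_mapH (continuous_act σ) K z).1 hz
    have h2 : tr A w ∈ trH A K := by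
      rw [← SetLike.mem_coe, coe_trH]
      exact mem_image_of_mem _ hw
    have h3 := h1 _ h2
    rw [act_tr, hA.inv.image hσ, ← SetLike.mem_coe, coe_trH] at h3
    exact h3
  exact (le_iff_sub.1 h) ((mem_mapH (continuous_act σ) K _).2 ⟨y, hy, rfl⟩)

theorem G.map_eq {P : Set J} {K : H J} (hK : G P K) {F : Set J} (hF : F.Finite)
    (hd : Disjoint F P) {σ : Equiv.Perm J} (hσ : σ ∈ PF F) :
    act σ '' (K : Set (U J)) = (K : Set (U J)) := by
  apply Subset.antisymm
  · rintro _ ⟨y, hy, rfl⟩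
    exact hK.inv hF hd hσ hy
  · intro y hy
    exact ⟨act σ.symm y, hK.inv hF hd (PF_symm hσ) hy, act_act_symm σ y⟩

end Pool.DM
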