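import Pool.Agent.Helper84.DM.Ch

/-!
# DM-Th: threads

`Thr.exists_between`: if no element of `S` were strictly between `x` and `y`, then `S` would be the
disjoint union of the nonempty closed sets `{s ∈ S | s ≤ x}` and `{s ∈ S | y ≤ s}`
(`isPreconnected_closed_iff`).

`thr_of_dense`: only connectedness has to be proved. Let `S ⊆ F₁ ∪ F₂`, `F₁, F₂` closed, `S ∩ F₁ ∩ F₂ = ∅`,
both meeting `S`; say `a ∈ F₁`. `T = {s ∈ S | ∀ s' ∈ S, s' ≤ s → s' ∈ F₁}` contains `a`; let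
`u ∈ closure T ⊆ S ∩ F₁` be its least upper bound (`exists_lub`). If `s' ∈ S`, `s' < u`, then some `t ∈ T` is
not `≤ s'`, so `s' ≤ t`, `s' ∈ F₁`. So `u ∈ T`. `V = {s ∈ S | u < s, s ∈ F₂}` is nonempty (an element of
`S ∩ F₂` is not `≤ u`); let `w ∈ closure V ⊆ S ∩ F₂` be its greatest lower bound; `u ≤ w`, `u ≠ w`. By density
there is `z ∈ S`, `u < z < w`. Every `s ∈ S` with `s ≤ z` is `≤ u` or in `F₁` (if `u < s`, `s ∈ F₂` then
`w ≤ s ≤ z < w`). So `z ∈ T`, `z ≤ u`, contradiction.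

`Thr.image`: the image of a compact set is compact, hence closed.

`Thr.restrict`: closed and dense (`Thr.exists_between`), `thr_of_dense`. `Thr.union`: union of two connected sets
with a common point.

`Thr.mem_of_comparable`: the closed sets `{s ∈ S | s ≤ x}` (contains `a`) and `{s ∈ S | x ≤ s}` (contains
`b`) cover `S`, so they meet, and a common point is `x`.

`Thr.isLUB_below`: `p` is an upper bound; let `v` be an upper bound of `{q ∈ S | q < p}`. The set is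
nonempty (it contains `a`), its least upper bound `u` (`exists_lub`) is in `S` (closed), `u ≤ p`; if `u ≠ p` there
is `q ∈ S`, `u < q < p`, contradiction. So `p = u ≤ v`.
-/

open Set Topology TopologicalSpace

namespace Pool.DM

variable {P P' : Type*} [TopologicalSpace P] [PartialOrder P] [OrderClosedTopology P]
  [CompactSpace P] [TopologicalSpace P'] [PartialOrder P'] [OrderClosedTopology P']

theorem Thr.exists_between {S : Set P} {a b : P} (h : Thr S a b) {x y : P} (hx : x ∈ S)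
    (hy : y ∈ S) (hxy : x < y) : ∃ z ∈ S, x < z ∧ z < y := by
  by_contra hno
  obtain ⟨z, -, hz1, hz2⟩ := (isPreconnected_closed_iff.1 h.conn) (Iic x) (Ici y) isClosed_Iic
    isClosed_Ici
    (by
      intro s hs
      rcases h.chain s hs x hx with h1 | h1
      · exact Or.inl h1
      · rcases h.chain s hs y hy with h2 | h2
        · by_cases h3 : s = x
          · exact Or.inl h3.le
          · by_cases h4 : s = y
            · exact Or.inr h4.ge
            · exact absurd ⟨s, hs, lt_of_le_of_ne h1 (Ne.symm h3), lt_of_le_of_ne h2 h4⟩ hno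
        · exact Or.inr h2)
    ⟨x, hx, le_rfl⟩ ⟨y, hy, le_rfl⟩
  have h5 : y ≤ x := le_trans hz2 hz1
  exact absurd (lt_of_lt_of_le hxy h5) (lt_irrefl x)

private theorem h19_dense {S : Set P} {a : P} (hc : IsClosed S)
    (hch : ∀ x ∈ S, ∀ y ∈ S, x ≤ y ∨ y ≤ x) (ha : a ∈ S) (hl : ∀ x ∈ S, a ≤ x)
    (hd : ∀ x ∈ S, ∀ y ∈ S, x < y → ∃ z ∈ S, x < z ∧ z < y) {F₁ F₂ : Set P}
    (h1 : IsClosed F₁) (h2 : IsClosed F₂) (hS : S ⊆ F₁ ∪ F₂) (ha1 : a ∈ F₁)
    (hn2 : (S ∩ F₂).Nonempty) : (S ∩ (F₁ ∩ F₂)).Nonempty := by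
  by_contra hno
  have hdis : ∀ x ∈ S, x ∈ F₁ → x ∈ F₂ → False := fun x hx hx1 hx2 =>
    hno ⟨x, hx, hx1, hx2⟩
  set T : Set P := {s | s ∈ S ∧ ∀ s' ∈ S, s' ≤ s → s' ∈ F₁} with hT
  have haT : a ∈ T := ⟨ha, fun s' hs' hle => by
    have : s' = a := le_antisymm hle (hl s' hs')
    rw [this]; exact ha1⟩
  have hTS : T ⊆ S ∩ F₁ := fun s hs => ⟨hs.1, hs.2 s hs.1 le_rfl⟩
  obtain ⟨u, hu, huc⟩ := exists_lub (C := T) (fun x hx y hy => hch x hx.1 y hy.1) ⟨a, haT⟩
  have huS : u ∈ S ∩ F₁ := closure_minimal hTS (hc.inter h1) huc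
  have huT : u ∈ T := by
    refine ⟨huS.1, fun s' hs' hle => ?_⟩
    by_cases he : s' = u
    · rw [he]; exact huS.2
    · have h3 : ∃ t ∈ T, ¬ t ≤ s' := by
        by_contra hno'
        push Not at hno'
        exact he (le_antisymm hle (hu.2 hno'))
      obtain ⟨t, ht, hts⟩ := h3
      exact ht.2 s' hs' ((hch t ht.1 s' hs').resolve_left hts)
  set V : Set P := {s | s ∈ S ∧ u < s ∧ s ∈ F₂} with hV
  have hVn : V.Nonempty := by
    obtain ⟨s, hs, hs2⟩ := hn2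
    have h3 : ¬ s ≤ u := fun h4 => hdis s hs (huT.2 s hs h4) hs2
    have h4 : u ≤ s := (hch s hs u huS.1).resolve_left h3
    exact ⟨s, hs, lt_of_le_of_ne h4 (fun h5 => h3 h5.ge), hs2⟩
  obtain ⟨w, hw, hwc⟩ := exists_glb (C := V) (fun x hx y hy => hch x hx.1 y hy.1) hVn
  have hVS : V ⊆ S ∩ F₂ := fun s hs => ⟨hs.1, hs.2.2⟩
  have hwS : w ∈ S ∩ F₂ := closure_minimal hVS (hc.inter h2) hwc
  have huw : u ≤ w := hw.2 fun s hs => hs.2.1.le
  have hne : u ≠ w := fun h3 => hdis u huS.1 huS.2 (by rw [h3]; exact hwS.2)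
  obtain ⟨z, hz, huz, hzw⟩ := hd u huS.1 w hwS.1 (lt_of_le_of_ne huw hne)
  have hzT : z ∈ T := by
    refine ⟨hz, fun s' hs' hle => ?_⟩
    rcases hch s' hs' u huS.1 with h3 | h3
    · exact huT.2 s' hs' h3
    · by_cases h4 : u = s'
      · rw [← h4]; exact huS.2
      · rcases hS hs' with h5 | h5
        · exact h5
        · have h6 : w ≤ s' := hw.1 ⟨hs', lt_of_le_of_ne h3 h4, h5⟩
          exact absurd (lt_of_lt_of_le hzw (h6.trans hle)) (lt_irrefl z)
  exact absurd (lt_of_lt_of_le huz (hu.1 hzT)) (lt_irrefl u)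

theorem thr_of_dense {S : Set P} {a b : P} (hc : IsClosed S)
    (hch : ∀ x ∈ S, ∀ y ∈ S, x ≤ y ∨ y ≤ x) (ha : a ∈ S) (hb : b ∈ S) (hl : ∀ x ∈ S, a ≤ x)
    (hh : ∀ x ∈ S, x ≤ b) (hd : ∀ x ∈ S, ∀ y ∈ S, x < y → ∃ z ∈ S, x < z ∧ z < y) :
    Thr S a b := by
  refine ⟨hc, ?_, hch, ha, hb, hl, hh⟩
  rw [isPreconnected_closed_iff]
  intro F₁ F₂ h1 h2 hS hn1 hn2
  rcases hS ha with h | h
  · exact h19_dense hc hch ha hl hd h1 h2 hS h hn2
  · obtain ⟨x, hx, hx1, hx2⟩ := h19_dense hc hch ha hl hd h2 h1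
      (by rw [Set.union_comm]; exact hS) h hn1
    exact ⟨x, hx, hx2, hx1⟩

theorem thr_singleton (a : P) : Thr {a} a a := by
  refine ⟨isClosed_singleton, isPreconnected_singleton, ?_, rfl, rfl, ?_, ?_⟩
  · rintro x rfl y rfl
    exact Or.inl le_rfl
  · rintro x rfl
    exact le_rfl
  · rintro x rfl
    exact le_rfl

theorem Thr.image {S : Set P} {a b : P} (h : Thr S a b) {f : P → P'} (hf : Continuous f)
    (hm : Monotone f) : Thr (f '' S) (f a) (f b) := by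
  refine ⟨(h.closed.isCompact.image hf).isClosed, h.conn.image f hf.continuousOn, ?_,
    mem_image_of_mem f h.left, mem_image_of_mem f h.right, ?_, ?_⟩
  · rintro _ ⟨x, hx, rfl⟩ _ ⟨y, hy, rfl⟩
    rcases h.chain x hx y hy with h1 | h1
    · exact Or.inl (hm h1)
    · exact Or.inr (hm h1)
  · rintro _ ⟨x, hx, rfl⟩
    exact hm (h.low x hx)
  · rintro _ ⟨x, hx, rfl⟩
    exact hm (h.high x hx)

theorem Thr.restrict {S : Set P} {a b : P} (h : Thr S a b) {c d : P} (hc : c ∈ S) (hd : d ∈ S)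
    (hcd : c ≤ d) : Thr {x | x ∈ S ∧ c ≤ x ∧ x ≤ d} c d := by
  refine thr_of_dense ?_ (fun x hx y hy => h.chain x hx.1 y hy.1) ⟨hc, le_rfl, hcd⟩
    ⟨hd, hcd, le_rfl⟩ (fun x hx => hx.2.1) (fun x hx => hx.2.2) ?_
  · exact h.closed.inter (isClosed_Ici.inter isClosed_Iic)
  · intro x hx y hy hxy
    obtain ⟨z, hz, h1, h2⟩ := h.exists_between hx.1 hy.1 hxy
    exact ⟨z, ⟨hz, hx.2.1.trans h1.le, h2.le.trans hy.2.2⟩, h1, h2⟩

theorem Thr.union {S T : Set P} {a b c : P} (h : Thr S a b) (h' : Thr T b c) :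
    Thr (S ∪ T) a c := by
  refine ⟨h.closed.union h'.closed, h.conn.union b h.right h'.left h'.conn, ?_,
    Or.inl h.left, Or.inr h'.right, ?_, ?_⟩
  · rintro x (hx | hx) y (hy | hy)
    · exact h.chain x hx y hy
    · exact Or.inl ((h.high x hx).trans (h'.low y hy))
    · exact Or.inr ((h.high y hy).trans (h'.low x hx))
    · exact h'.chain x hx y hy
  · rintro x (hx | hx)
    · exact h.low x hx
    · exact (h.high a h.left |>.trans (h'.low x hx))
  · rintro x (hx | hx)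
    · exact (h.high x hx).trans (h'.low c h'.right)
    · exact h'.high x hx

theorem Thr.mem_of_comparable {S : Set P} {a b : P} (h : Thr S a b) {x : P} (hax : a ≤ x)
    (hxb : x ≤ b) (hx : ∀ s ∈ S, s ≤ x ∨ x ≤ s) : x ∈ S := by
  obtain ⟨z, hz, hz1, hz2⟩ := (isPreconnected_closed_iff.1 h.conn) (Iic x) (Ici x) isClosed_Iic
    isClosed_Ici (fun s hs => hx s hs) ⟨a, h.left, hax⟩ ⟨b, h.right, hxb⟩
  have h1 : z = x := le_antisymm hz1 hz2
  rw [← h1]
  exact hz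

theorem Thr.isLUB_below {S : Set P} {a b : P} (h : Thr S a b) {p : P} (hp : p ∈ S)
    (hpa : p ≠ a) : IsLUB {q | q ∈ S ∧ q < p} p := by
  refine ⟨fun q hq => hq.2.le, fun v hv => ?_⟩
  have hne : {q | q ∈ S ∧ q < p}.Nonempty :=
    ⟨a, h.left, lt_of_le_of_ne (h.low p hp) (Ne.symm hpa)⟩
  obtain ⟨u, hu, huc⟩ := exists_lub (C := {q | q ∈ S ∧ q < p})
    (fun x hx y hy => h.chain x hx.1 y hy.1) hne
  have huS : u ∈ S := closure_minimal (fun q hq => hq.1) h.closed huc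
  have hup : u ≤ p := hu.2 fun q hq => hq.2.le
  have he : u = p := by
    by_contra hne'
    obtain ⟨q, hq, h1, h2⟩ := h.exists_between huS hp (lt_of_le_of_ne hup hne')
    exact absurd (lt_of_lt_of_le h1 (hu.1 ⟨hq, h2⟩)) (lt_irrefl u)
  rw [← he]
  exact hu.2 hv

theorem Thr.isGLB_above {S : Set P} {a b : P} (h : Thr S a b) {p : P} (hp : p ∈ S)
    (hpb : p ≠ b) : IsGLB {q | q ∈ S ∧ p < q} p := by
  refine ⟨fun q hq => hq.2.le, fun v hv => ?_⟩
  have hne : {q | q ∈ S ∧ p < q}.Nonempty :=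
    ⟨b, h.right, lt_of_le_of_ne (h.high p hp) hpb⟩
  obtain ⟨u, hu, huc⟩ := exists_glb (C := {q | q ∈ S ∧ p < q})
    (fun x hx y hy => h.chain x hx.1 y hy.1) hne
  have huS : u ∈ S := closure_minimal (fun q hq => hq.1) h.closed huc
  have hup : p ≤ u := hu.2 fun q hq => hq.2.le
  have he : p = u := by
    by_contra hne'
    obtain ⟨q, hq, h1, h2⟩ := h.exists_between hp huS (lt_of_le_of_ne hup hne')
    exact absurd (lt_of_le_of_lt (hu.1 ⟨hq, h1⟩) h2) (lt_irrefl u)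
  rw [he]
  exact hu.2 hv

theorem Thr.below_nonempty {S : Set P} {a b : P} (h : Thr S a b) {p : P} (hp : p ∈ S)
    (hpa : p ≠ a) : {q | q ∈ S ∧ q < p}.Nonempty := by
  exact ⟨a, h.left, lt_of_le_of_ne (h.low p hp) (Ne.symm hpa)⟩

theorem Thr.above_nonempty {S : Set P} {a b : P} (h : Thr S a b) {p : P} (hp : p ∈ S)
    (hpb : p ≠ b) : {q | q ∈ S ∧ p < q}.Nonempty := by
  exact ⟨b, h.right, lt_of_le_of_ne (h.high p hp) hpb⟩

end Pool.DM
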