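import Pool.Agent.Helper84.DM.OpB
import Pool.Agent.Helper84.DM.Th

/-!
# DM-Interp: a maximal chain of interpolation operators

`𝒪 = {E | IsOp W E}` is a closed subset of the compact partially ordered space `GPr X → NonemptyCompacts X`. Let `𝓔` be a maximal
chain in `𝒪` (Hausdorff / Zorn, for instance `zorn_subset` applied to the chains contained in `𝒪`, or
`IsChain.exists_maxChain` on the subtype). By maximality: every operator that is comparable with all elements of `𝓔` is in `𝓔`.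
The closure of `𝓔` is a chain in `𝒪` (`chain_closure`, `isClosed_isOp`), so `𝓔` is closed. The operators
`p ↦ p.1.1` and `p ↦ p.1.2` are the smallest and the largest element of `𝒪`, so they are in `𝓔`.

Fix `p`. The evaluation `E ↦ E p` is continuous and monotone; `S = {E p | E ∈ 𝓔}` is a closed chain from `p.1.1` to `p.1.2`. It
is dense: let `u < v` in `S` with no element of `S` strictly between. Let `E₁` be the least upper bound of
`{E ∈ 𝓔 | E p ≤ u}` and `E₂` the greatest lower bound of `{E ∈ 𝓔 | v ≤ E p}` (`exists_lub`, `exists_glb`: nonempty chains; the bounds are in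
the closures of these sets, which are closed). So `E₁ ∈ 𝓔`, `E₁ p ≤ u`, in fact `E₁ p = u` because `u = E p` for some `E ∈ 𝓔`, `E ≤ E₁`; and
`E₂ ∈ 𝓔`, `E₂ p = v`. `E₁ ≤ E₂` (the chain; `E₂ ≤ E₁` would give `v ≤ u`) and `E₁ ≠ E₂`. Every `E ∈ 𝓔` satisfies `E p ≤ u` or
`v ≤ E p` (comparable with `u`, `v` in the chain `S`), so `E ≤ E₁` or `E₂ ≤ E`. By `op_between` there is an operator `E'` with
`E₁ ≤ E' ≤ E₂`, different from both; it is comparable with all elements of `𝓔`, so `E' ∈ 𝓔`, so `E' ≤ E₁` or `E₂ ≤ E'`, contradiction.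
Now `thr_of_dense`.

`interp_le`: `{s p | s ∈ 𝓔, s ≤ E} = {x ∈ S | p.1.1 ≤ x ≤ E p}` (if `s p ≤ E p` and not `s ≤ E` then `E ≤ s`, so `s p = E p`);
`Thr.restrict`.
-/

open Set Topology TopologicalSpace

namespace Pool.DM

variable {X : Type*} [TopologicalSpace X] [CompactSpace X] [T2Space X]

/-- A chain of interpolation operators such that the values at every pair form a thread. -/
structure IsInt (W : Set (X → X)) (𝓔 : Set (GPr X → NonemptyCompacts X)) : Prop where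
  op : ∀ E ∈ 𝓔, IsOp W E
  bot : (fun p : GPr X => p.1.1) ∈ 𝓔
  top : (fun p : GPr X => p.1.2) ∈ 𝓔
  chain : ∀ E ∈ 𝓔, ∀ E' ∈ 𝓔, E ≤ E' ∨ E' ≤ E
  thr : ∀ p : GPr X, Thr ((fun E : GPr X → NonemptyCompacts X => E p) '' 𝓔) p.1.1 p.1.2

theorem exists_int {W : Set (X → X)} (hfin : W.Finite) (hW : ∀ w ∈ W, Continuous w)
    (hid : id ∈ W) (hcomp : ∀ w ∈ W, ∀ v ∈ W, w ∘ v ∈ W) :
    ∃ 𝓔 : Set (GPr X → NonemptyCompacts X), IsInt W 𝓔 := by
  set r : {E : GPr X → NonemptyCompacts X // IsOp W E} →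
    {E : GPr X → NonemptyCompacts X // IsOp W E} → Prop := fun a b => a.1 ≤ b.1 with hr
  have hmax : IsMaxChain r (maxChain r) := maxChain_spec
  set 𝓔 : Set (GPr X → NonemptyCompacts X) := Subtype.val '' maxChain r with h𝓔
  have hop : ∀ E ∈ 𝓔, IsOp W E := by
    rintro _ ⟨a, -, rfl⟩
    exact a.2
  have hch : ∀ E ∈ 𝓔, ∀ E' ∈ 𝓔, E ≤ E' ∨ E' ≤ E := by
    rintro _ ⟨a, ha, rfl⟩ _ ⟨b, hb, rfl⟩
    by_cases hab : a = b
    · subst hab; exact Or.inl le_rfl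
    · exact hmax.1 ha hb hab
  have hmem : ∀ E, IsOp W E → (∀ E' ∈ 𝓔, E ≤ E' ∨ E' ≤ E) → E ∈ 𝓔 := by
    intro E hE hcomp'
    have h1 : IsChain r (insert (⟨E, hE⟩ : {E : GPr X → NonemptyCompacts X // IsOp W E})
        (maxChain r)) :=
      hmax.1.insert fun b hb _ => hcomp' b.1 ⟨b, hb, rfl⟩
    have h2 := hmax.2 h1 (subset_insert _ _)
    exact ⟨⟨E, hE⟩, h2 ▸ mem_insert _ _, rfl⟩
  have hcl : IsClosed 𝓔 := by
    refine isClosed_of_closure_subset fun E hE => ?_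
    have h1 : IsOp W E := by
      have h2 : closure 𝓔 ⊆ {E : GPr X → NonemptyCompacts X | IsOp W E} :=
        (isClosed_isOp hW).closure_subset_iff.2 hop
      exact h2 hE
    exact hmem E h1 fun E' hE' => chain_closure hch E hE E' (subset_closure hE')
  have hbot : (fun p : GPr X => p.1.1) ∈ 𝓔 := by
    refine hmem _ ⟨fun p => p.2.2.1, fun p => le_rfl, fun p => p.2.1,
      fun w _ p q h _ => h⟩ fun E' hE' => Or.inl fun p => (hop E' hE').low p
  have htop : (fun p : GPr X => p.1.2) ∈ 𝓔 := by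
    refine hmem _ ⟨fun p => p.2.2.2, fun p => p.2.1, fun p => le_rfl,
      fun w _ p q _ h => h⟩ fun E' hE' => Or.inr fun p => (hop E' hE').high p
  refine ⟨𝓔, hop, hbot, htop, hch, fun p => ?_⟩
  have hev : Continuous fun E : GPr X → NonemptyCompacts X => E p := continuous_apply p
  have hchS : ∀ x ∈ (fun E : GPr X → NonemptyCompacts X => E p) '' 𝓔,
      ∀ y ∈ (fun E : GPr X → NonemptyCompacts X => E p) '' 𝓔, x ≤ y ∨ y ≤ x := by
    rintro _ ⟨E, hE, rfl⟩ _ ⟨E', hE', rfl⟩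
    rcases hch E hE E' hE' with h | h
    · exact Or.inl (h p)
    · exact Or.inr (h p)
  refine thr_of_dense (hcl.isCompact.image hev).isClosed hchS ⟨_, hbot, rfl⟩ ⟨_, htop, rfl⟩
    ?_ ?_ ?_
  · rintro _ ⟨E, hE, rfl⟩
    exact (hop E hE).low p
  · rintro _ ⟨E, hE, rfl⟩
    exact (hop E hE).high p
  intro x hx y hy hxy
  by_contra hno
  push Not at hno
  have hdich : ∀ E ∈ 𝓔, E p ≤ x ∨ y ≤ E p := by
    intro E hE
    have hEp : E p ∈ (fun E : GPr X → NonemptyCompacts X => E p) '' 𝓔 := ⟨E, hE, rfl⟩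
    rcases hchS _ hEp x hx with h1 | h1
    · exact Or.inl h1
    rcases h1.eq_or_lt with h2 | h2
    · exact Or.inl h2.symm.le
    right
    rcases hchS _ hEp y hy with h3 | h3
    · rcases h3.eq_or_lt with h4 | h4
      · exact h4.symm.le
      · exact absurd h4 (hno _ hEp h2)
    · exact h3
  obtain ⟨Ex', hEx, rfl⟩ := hx
  obtain ⟨Ey, hEy, rfl⟩ := hy
  simp only at hxy hdich
  obtain ⟨E₁, hE₁, hE₁c⟩ := exists_lub (C := {E | E ∈ 𝓔 ∧ E p ≤ Ex' p})
    (fun a ha b hb => hch a ha.1 b hb.1) ⟨Ex', hEx, le_rfl⟩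
  obtain ⟨E₂, hE₂, hE₂c⟩ := exists_glb (C := {E | E ∈ 𝓔 ∧ Ey p ≤ E p})
    (fun a ha b hb => hch a ha.1 b hb.1) ⟨Ey, hEy, le_rfl⟩
  have hc1 : IsClosed {E | E ∈ 𝓔 ∧ E p ≤ Ex' p} :=
    hcl.inter (isClosed_le hev continuous_const)
  have hc2 : IsClosed {E | E ∈ 𝓔 ∧ Ey p ≤ E p} :=
    hcl.inter (isClosed_le continuous_const hev)
  rw [hc1.closure_eq] at hE₁c
  rw [hc2.closure_eq] at hE₂c
  have hlt : E₁ p < E₂ p := hE₁c.2.trans_lt (hxy.trans_le hE₂c.2)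
  have hle : E₁ ≤ E₂ := by
    rcases hch E₁ hE₁c.1 E₂ hE₂c.1 with h | h
    · exact h
    · exact absurd (h p) hlt.not_ge
  have hne : E₁ ≠ E₂ := fun h => hlt.ne (congrFun h p)
  obtain ⟨E', hE', h1, h2, h3, h4⟩ := op_between hfin hW hid hcomp (hop E₁ hE₁c.1)
    (hop E₂ hE₂c.1) hle hne
  have hE'm : E' ∈ 𝓔 := hmem E' hE' fun E hE => by
    rcases hdich E hE with h5 | h5
    · exact Or.inr ((hE₁.1 ⟨hE, h5⟩).trans h1)
    · exact Or.inl (h2.trans (hE₂.1 ⟨hE, h5⟩))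
  rcases hdich E' hE'm with h5 | h5
  · exact h3 (le_antisymm (hE₁.1 ⟨hE'm, h5⟩) h1)
  · exact h4 (le_antisymm h2 (hE₂.1 ⟨hE'm, h5⟩))

theorem IsInt.thr_le {W : Set (X → X)} {𝓔 : Set (GPr X → NonemptyCompacts X)} (h : IsInt W 𝓔)
    {E : GPr X → NonemptyCompacts X} (hE : E ∈ 𝓔) (p : GPr X) :
    Thr ((fun s : GPr X → NonemptyCompacts X => s p) '' {s | s ∈ 𝓔 ∧ s ≤ E}) p.1.1 (E p) := by
  have h1 := (h.thr p).restrict ⟨_, h.bot, rfl⟩ ⟨E, hE, rfl⟩ ((h.op E hE).low p)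
  have h2 : (fun s : GPr X → NonemptyCompacts X => s p) '' {s | s ∈ 𝓔 ∧ s ≤ E} =
      {x | x ∈ (fun E : GPr X → NonemptyCompacts X => E p) '' 𝓔 ∧ p.1.1 ≤ x ∧ x ≤ E p} := by
    ext x
    constructor
    · rintro ⟨s, ⟨hs, hsE⟩, rfl⟩
      exact ⟨⟨s, hs, rfl⟩, (h.op s hs).low p, hsE p⟩
    · rintro ⟨⟨s, hs, rfl⟩, -, h3⟩
      rcases h.chain s hs E hE with h4 | h4
      · exact ⟨s, ⟨hs, h4⟩, rfl⟩
      · exact ⟨E, ⟨hE, le_rfl⟩, le_antisymm (h4 p) h3⟩
  rw [h2]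
  exact h1

end Pool.DM
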