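import Pool.Agent.Helper84.DM.Sb

/-!
# DM-Lev: the finite groups `PF F`, levels

`PF F` for finite `F`: closed under products and inverses, finite (a permutation in `PF F` maps `F`
onto `F` and is determined by its restriction to `F`: inject it into the functions `F → F`).

`exists_lev`. By `Lev.union` and `Lev.empty` it is enough to find for every term `e` a level `A ∋ e`. Well-founded
induction on `((ls e).ncard, e.sz)` (lexicographic). The elements of `fs e` have `ls e' ⊆ ls e` and smaller size; the terms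
`sb i ρ e`, `i ∈ F ∩ ls e`, have fewer letters (`ls_sb`) and there are only finitely many of them (`sb_finite`). So there is a
level `B` containing `fs e` and all `sb i ρ e` (`i ∈ F`, `i ∈ ls e`). Then `B ∪ orb F e` is a level: closed: `fs (e.map σ) = Ex.map σ '' fs e ⊆ B`
(`fs_map`); `sbs`: for `i ∈ F`, `i ∈ ls (e.map σ)`, let `i' = σ.symm i ∈ F ∩ ls e`; `sb i ρ (e.map σ) = (sb i' _ e).map σ ∈ B` (`sb_map`).
(`σ ∈ PF F` maps `F` onto `F`.)

`Lev.remove`: let `e₀ ∈ A` with `((ls e₀).ncard, e₀.sz)` lexicographically maximal, `O = orb F e₀ ⊆ A`; all elements of `O` have the same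
pair. `A' = A \ O`. If `e ∈ A`, `x ∈ fs e` then `x ∉ O` (`ls x ⊆ ls e` and `x.sz < e.sz`, so the pair of `x` is smaller than the pair of
`e`). If `e ∈ A`, `i ∈ F ∩ ls e`, then `sb i ρ e ∉ O` (fewer letters). `A'` is invariant because `O` is (`σ.symm ∈ PF F`).
-/

open Set Topology TopologicalSpace

namespace Pool.DM

variable {J : Type}

theorem PF_one (F : Set J) : (1 : Equiv.Perm J) ∈ PF F := by
  intro i _
  rfl

theorem PF_mul {F : Set J} {σ ρ : Equiv.Perm J} (hσ : σ ∈ PF F) (hρ : ρ ∈ PF F) :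
    σ * ρ ∈ PF F := by
  intro i hi
  show σ (ρ i) = i
  rw [hρ i hi, hσ i hi]

theorem PF_symm {F : Set J} {σ : Equiv.Perm J} (hσ : σ ∈ PF F) : σ.symm ∈ PF F := by
  intro i hi
  exact (Equiv.symm_apply_eq σ).2 (hσ i hi).symm

theorem PF_mono {F F' : Set J} (h : F ⊆ F') : PF F ⊆ PF F' := by
  intro σ hσ i hi
  exact hσ i fun hi' => hi (h hi')

theorem PF_maps {F : Set J} {σ : Equiv.Perm J} (hσ : σ ∈ PF F) {i : J} (hi : i ∈ F) :
    σ i ∈ F := by
  by_contra h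
  have h1 : σ (σ i) = σ i := hσ (σ i) h
  have h2 : σ i = i := σ.injective h1
  exact h (h2.symm ▸ hi)

theorem PF_finite {F : Set J} (hF : F.Finite) : (PF F).Finite := by
  have : Finite F := hF.to_subtype
  have hinj : Function.Injective
      (fun σ : PF F => (fun i : F => (⟨(σ : Equiv.Perm J) i, PF_maps σ.2 i.2⟩ : F))) := by
    intro σ ρ h
    apply Subtype.ext
    apply Equiv.ext
    intro i
    by_cases hi : i ∈ F
    · have h1 := congrFun h ⟨i, hi⟩
      exact congrArg Subtype.val h1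
    · rw [σ.2 i hi, ρ.2 i hi]
  have : Finite (PF F) := Finite.of_injective _ hinj
  exact Set.toFinite _

/-- The orbit of a term. -/
def orb (F : Set J) (e : Ex J) : Set (Ex J) := (fun σ : Equiv.Perm J => e.map σ) '' PF F

theorem orb_finite {F : Set J} (hF : F.Finite) (e : Ex J) : (orb F e).Finite := by
  exact (PF_finite hF).image _

theorem mem_orb_self (F : Set J) (e : Ex J) : e ∈ orb F e := by
  exact ⟨1, PF_one F, Ex.map_id e⟩

theorem orb_inv (F : Set J) (e : Ex J) : Inv F (orb F e) := by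
  rintro σ hσ _ ⟨ρ, hρ, rfl⟩
  exact ⟨σ * ρ, PF_mul hσ hρ, (Ex.map_map ρ σ e).symm⟩

theorem orb_trans {F : Set J} {e e₁ e₂ : Ex J} (h₁ : e₁ ∈ orb F e) (h₂ : e₂ ∈ orb F e) :
    ∃ σ ∈ PF F, e₁.map σ = e₂ := by
  obtain ⟨σ₁, hσ₁, rfl⟩ := h₁
  obtain ⟨σ₂, hσ₂, rfl⟩ := h₂
  refine ⟨σ₂ * σ₁.symm, PF_mul hσ₂ (PF_symm hσ₁), ?_⟩
  have h : (e.map σ₁).map (⇑(σ₂ * σ₁.symm)) = ((e.map σ₁).map σ₁.symm).map σ₂ :=
    (Ex.map_map σ₁.symm σ₂ (e.map σ₁)).symm
  show (e.map σ₁).map (⇑(σ₂ * σ₁.symm)) = e.map σ₂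
  rw [h, map_symm_map]

theorem orb_subset {F : Set J} {A : Set (Ex J)} (hA : Inv F A) {e : Ex J} (he : e ∈ A) :
    orb F e ⊆ A := by
  rintro _ ⟨σ, hσ, rfl⟩
  exact hA σ hσ e he

theorem Inv.image {F : Set J} {A : Set (Ex J)} (hA : Inv F A) {σ : Equiv.Perm J}
    (hσ : σ ∈ PF F) : Ex.map σ '' A = A := by
  apply Set.Subset.antisymm
  · rintro _ ⟨e, he, rfl⟩
    exact hA σ hσ e he
  · intro e he
    exact ⟨e.map σ.symm, hA _ (PF_symm hσ) e he, map_map_symm σ e⟩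

theorem Inv.mono {F F' : Set J} {A : Set (Ex J)} (h : F' ⊆ F) (hA : Inv F A) : Inv F' A := by
  intro σ hσ
  exact hA σ (PF_mono h hσ)

theorem Inv.union {F : Set J} {A B : Set (Ex J)} (hA : Inv F A) (hB : Inv F B) :
    Inv F (A ∪ B) := by
  rintro σ hσ e (he | he)
  · exact Or.inl (hA σ hσ e he)
  · exact Or.inr (hB σ hσ e he)

theorem Inv.diff {F : Set J} {A B : Set (Ex J)} (hA : Inv F A) (hB : Inv F B) :
    Inv F (A \ B) := by
  rintro σ hσ e ⟨he, he'⟩
  refine ⟨hA σ hσ e he, fun h => he' ?_⟩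
  have h1 := hB _ (PF_symm hσ) _ h
  rwa [map_symm_map] at h1

theorem Lev.empty (F : Set J) : Lev F (∅ : Set (Ex J)) := by
  exact ⟨Set.finite_empty, fun e he => he.elim, fun _ _ e he => he.elim,
    fun _ _ e he => he.elim⟩

theorem Lev.mono {F F' : Set J} {A : Set (Ex J)} (h : F' ⊆ F) (hA : Lev F A) : Lev F' A := by
  exact ⟨hA.fin, hA.clo, hA.inv.mono h, fun i hi => hA.sbs i (h hi)⟩

theorem Lev.union {F : Set J} {A B : Set (Ex J)} (hA : Lev F A) (hB : Lev F B) :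
    Lev F (A ∪ B) := by
  refine ⟨hA.fin.union hB.fin, ?_, hA.inv.union hB.inv, ?_⟩
  · rintro e (he | he)
    · exact (hA.clo e he).trans subset_union_left
    · exact (hB.clo e he).trans subset_union_right
  · rintro i hi e (he | he) hie ρ
    · exact Or.inl (hA.sbs i hi e he hie ρ)
    · exact Or.inr (hB.sbs i hi e he hie ρ)

theorem exists_lev_aux {F : Set J} {S : Set (Ex J)} (hS : S.Finite)
    (h : ∀ e ∈ S, ∃ A, e ∈ A ∧ Lev F A) : ∃ A, S ⊆ A ∧ Lev F A := by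
  revert h
  refine Set.Finite.induction_on (motive := fun S _ =>
    (∀ e ∈ S, ∃ A, e ∈ A ∧ Lev F A) → ∃ A, S ⊆ A ∧ Lev F A) S hS ?_ ?_
  · intro _
    exact ⟨∅, Set.Subset.refl _, Lev.empty F⟩
  · intro a S _ _ ih h
    obtain ⟨A, hA, hA'⟩ := ih fun e he => h e (Set.mem_insert_of_mem _ he)
    obtain ⟨B, hB, hB'⟩ := h a (Set.mem_insert _ _)
    refine ⟨A ∪ B, ?_, hA'.union hB'⟩
    rintro e (rfl | he)
    · exact Or.inr hB
    · exact Or.inl (hA he)

theorem exists_lev_one {F : Set J} (hF : F.Finite) :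
    ∀ n m : ℕ, ∀ e : Ex J, (ls e).ncard = n → e.sz = m → ∃ A, e ∈ A ∧ Lev F A := by
  intro n
  induction n using Nat.strong_induction_on with
  | _ n ihn =>
  intro m
  induction m using Nat.strong_induction_on with
  | _ m ihm =>
  intro e hn hm
  have hT : (fs e ∪ ⋃ i ∈ F ∩ ls e, {t | ∃ ρ, t = sb i ρ e}).Finite := by
    refine (fs_finite e).union (Set.Finite.biUnion (hF.inter_of_left _) ?_)
    intro i _
    exact sb_finite i e
  obtain ⟨B, hTB, hB⟩ := exists_lev_aux (F := F) hT (by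
    rintro t (ht | ht)
    · have h1 : (ls t).ncard ≤ n := hn ▸ Set.ncard_le_ncard (ls_subset_of_mem_fs ht) (ls_finite e)
      have h2 : t.sz < m := hm ▸ sz_lt_of_mem_fs ht
      rcases h1.lt_or_eq with h3 | h3
      · exact ihn _ h3 _ t rfl rfl
      · exact ihm _ h2 t h3 rfl
    · simp only [Set.mem_iUnion, Set.mem_ofPred_eq] at ht
      obtain ⟨i, hi, ρ, rfl⟩ := ht
      have h1 : (ls (sb i ρ e)).ncard < n := by
        rw [← hn]
        apply Set.ncard_lt_ncard _ (ls_finite e)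
        refine ⟨(ls_sb i ρ e).trans Set.sdiff_subset, fun h => ?_⟩
        exact (ls_sb i ρ e (h hi.2)).2 rfl
      exact ihn _ h1 _ _ rfl rfl)
  refine ⟨B ∪ orb F e, Or.inr (mem_orb_self F e), hB.fin.union (orb_finite hF e), ?_,
    hB.inv.union (orb_inv F e), ?_⟩
  · rintro e' (he' | ⟨σ, hσ, rfl⟩)
    · exact (hB.clo e' he').trans subset_union_left
    · show fs (e.map σ) ⊆ B ∪ orb F e
      rw [fs_map]
      rintro _ ⟨x, hx, rfl⟩
      exact Or.inl (hB.inv σ hσ x (hTB (Or.inl hx)))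
  · rintro i hi e' (he' | ⟨σ, hσ, rfl⟩) hie ρ
    · exact Or.inl (hB.sbs i hi e' he' hie ρ)
    · have hie' : i ∈ ls (e.map σ) := hie
      rw [ls_map] at hie'
      obtain ⟨i', hi', rfl⟩ := hie'
      have hiF : i' ∈ F := by
        have h1 := PF_maps (PF_symm hσ) hi
        rwa [Equiv.symm_apply_apply] at h1
      show sb (σ i') ρ (e.map σ) ∈ B ∪ orb F e
      rw [sb_map]
      refine Or.inl (hB.inv σ hσ _ (hTB (Or.inr ?_)))
      simp only [Set.mem_iUnion, Set.mem_ofPred_eq]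
      exact ⟨i', ⟨hiF, hi'⟩, _, rfl⟩

theorem exists_lev {F : Set J} (hF : F.Finite) {S : Set (Ex J)} (hS : S.Finite) :
    ∃ A, S ⊆ A ∧ Lev F A := by
  exact exists_lev_aux hS fun e _ => exists_lev_one hF _ _ e rfl rfl

/-- The level `A` can be extended by the set `O` of terms. -/
structure Ext (F : Set J) (A O : Set (Ex J)) : Prop where
  lev : Lev F A
  fin : O.Finite
  inv : Inv F O
  dis : ∀ e ∈ O, e ∉ A
  fsA : ∀ e ∈ O, fs e ⊆ A
  sbA : ∀ i ∈ F, ∀ e ∈ O, i ∈ ls e → ∀ ρ, sb i ρ e ∈ A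

theorem Ext.union {F : Set J} {A O : Set (Ex J)} (h : Ext F A O) : Lev F (A ∪ O) := by
  refine ⟨h.lev.fin.union h.fin, ?_, h.lev.inv.union h.inv, ?_⟩
  · rintro e (he | he)
    · exact (h.lev.clo e he).trans subset_union_left
    · exact (h.fsA e he).trans subset_union_left
  · rintro i hi e (he | he) hie ρ
    · exact Or.inl (h.lev.sbs i hi e he hie ρ)
    · exact Or.inl (h.sbA i hi e he hie ρ)

theorem Ext.mono {F F' : Set J} {A O : Set (Ex J)} (hF : F' ⊆ F) (h : Ext F A O) :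
    Ext F' A O := by
  exact ⟨h.lev.mono hF, h.fin, h.inv.mono hF, h.dis, h.fsA, fun i hi => h.sbA i (hF hi)⟩

/-- A nonempty level arises from a smaller level by adding one orbit. -/
theorem Lev.remove {F : Set J} (hF : F.Finite) {A : Set (Ex J)} (hA : Lev F A)
    (hn : A.Nonempty) :
    ∃ e₀ ∈ A, ∃ A' : Set (Ex J), A = A' ∪ orb F e₀ ∧ A'.ncard < A.ncard ∧ Ext F A' (orb F e₀) := by
  obtain ⟨e₀, he₀, hmax⟩ := Set.exists_max_image A
    (fun e : Ex J => (toLex ((ls e).ncard, e.sz) : ℕ ×ₗ ℕ)) hA.fin hn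
  have hO : orb F e₀ ⊆ A := orb_subset hA.inv he₀
  have hf : ∀ x ∈ orb F e₀, (ls x).ncard = (ls e₀).ncard ∧ x.sz = e₀.sz := by
    rintro _ ⟨σ, hσ, rfl⟩
    refine ⟨?_, sz_map σ e₀⟩
    show (ls (e₀.map σ)).ncard = _
    rw [ls_map, Set.ncard_image_of_injective _ σ.injective]
  have hlt : ∀ e ∈ A, ∀ x ∈ orb F e₀,
      ¬ ((ls x).ncard < (ls e).ncard ∨ ((ls x).ncard = (ls e).ncard ∧ x.sz < e.sz)) := by
    intro e he x hx h
    have h1 := hmax e he
    obtain ⟨h2, h3⟩ := hf x hx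
    rw [h2, h3] at h
    have h4 : (toLex ((ls e₀).ncard, e₀.sz) : ℕ ×ₗ ℕ) < toLex ((ls e).ncard, e.sz) :=
      Prod.Lex.toLex_lt_toLex.2 h
    exact absurd h4 (not_lt.2 h1)
  have h1 : ∀ e ∈ A, ∀ x ∈ fs e, x ∉ orb F e₀ := by
    intro e he x hx hxO
    apply hlt e he x hxO
    have h2 : (ls x).ncard ≤ (ls e).ncard :=
      Set.ncard_le_ncard (ls_subset_of_mem_fs hx) (ls_finite e)
    rcases h2.lt_or_eq with h3 | h3
    · exact Or.inl h3
    · exact Or.inr ⟨h3, sz_lt_of_mem_fs hx⟩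
  have h2 : ∀ e ∈ A, ∀ i ∈ ls e, ∀ ρ, sb i ρ e ∉ orb F e₀ := by
    intro e he i hi ρ hxO
    apply hlt e he _ hxO
    left
    apply Set.ncard_lt_ncard _ (ls_finite e)
    refine ⟨(ls_sb i ρ e).trans Set.sdiff_subset, fun h => ?_⟩
    exact (ls_sb i ρ e (h hi)).2 rfl
  refine ⟨e₀, he₀, A \ orb F e₀, (Set.sdiff_union_of_subset hO).symm, ?_, ?_⟩
  · apply Set.ncard_lt_ncard _ hA.fin
    exact ⟨Set.sdiff_subset, fun h => (h he₀).2 (mem_orb_self F e₀)⟩
  · refine ⟨⟨hA.fin.subset Set.sdiff_subset, ?_, hA.inv.diff (orb_inv F e₀), ?_⟩,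
      orb_finite hF e₀, orb_inv F e₀, fun e he h => h.2 he, ?_, ?_⟩
    · rintro e ⟨he, _⟩ x hx
      exact ⟨hA.clo e he hx, h1 e he x hx⟩
    · rintro i hi e ⟨he, _⟩ hie ρ
      exact ⟨hA.sbs i hi e he hie ρ, h2 e he i hie ρ⟩
    · intro e he x hx
      exact ⟨hA.clo e (hO he) hx, h1 e (hO he) x hx⟩
    · intro i hi e he hie ρ
      exact ⟨hA.sbs i hi e (hO he) hie ρ, h2 e (hO he) i hie ρ⟩

end Pool.DM
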