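import Pool.Agent.Helper84.DM.StepB

/-!
# DM-LiftP: lifting continua with threads of depth `r`

`lift`: `LiftIH r F` for all finite `F`, by induction on `r`. Let `Ext F A O`, all `e ∈ O` active and touched by `K`, `PG1 A r F K`. `Adm A O K` (`Adm_of`,
`PG1_to_zero`, `PG1_zero_iff`).

Depth 0: `FlH O K = Fl O K ⊆ Yc (A ∪ O)` (`FlH_sub`), connected (`fl_cpt`), `act σ '' Fl O K = Fl (Ex.map σ '' O) (act σ '' K) = Fl O (act σ '' K) ⊆ Fl O K`
(`act_image_Fl`, `Inv.image`, `fl_mono`).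

Depth `r + 1`: `PG1_succ`. Let `i ∈ F`, `ρ`, `b`, `S` for `K`: `TD A (F \ {i}) i r K b S ρ`. Claim: for every `O₁ ⊆ O` with `Inv (F \ {i}) O₁` there are `b'`, `S'`,
`ρ'` with `TD (A ∪ O₁) (F \ {i}) i r (FlH O₁ K) b' S' ρ'`. Strong induction on `O₁.ncard`. `O₁ = ∅`: `A ∪ ∅ = A`, `FlH ∅ K = K` (`fl_empty`).
Otherwise take `e₀ ∈ O₁`, `O' = orb (F \ {i}) e₀ ⊆ O₁` (`orb_subset`), `O₂ = O₁ \ O'` (`Inv.diff`), and the data for `O₂`. `Ext (F \ {i}) (A ∪ O₂) O'`: the level by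
`Ext.union` for `Ext (F \ {i}) A O₂`; `fs e ⊆ A`, `sb j ρ e ∈ A` for `e ∈ O`. `FlH O₂ K` touches `e₀` (`fl_nt`). `step_orb` with `LiftIH r (F \ {i})` (induction);
its hypothesis `hs1`: for `e ∈ (A ∪ O₂) ∪ O'`, `i ∈ ls e`: `sb i ρ e ∈ A` (`Lev.sbs` for `i ∈ F`, `Ext.sbA`). Finally `(A ∪ O₂) ∪ O' = A ∪ O₁` and
`FlH O' (FlH O₂ K) = FlH O₁ K` (`fl_union`, `O₁ = O₂ ∪ O'`; compare the underlying sets, `coe_FlH`, `eq_of_coe`). For `O₁ = O` (invariant under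
`PF (F \ {i})`, `Inv.mono`) this is the required thread.
-/

open Set Topology TopologicalSpace

namespace Pool.DM

variable {J : Type}

private theorem lift0 {F : Set J} {A O : Set (Ex J)} {K : H J} (hx : Ext F A O)
    (ha : ∀ e ∈ O, Act e) (hn : ∀ e ∈ O, Nt (K : Set (U J)) e) (hK : PG1 A 0 F K) :
    PG1 (A ∪ O) 0 F (FlH O K) := by
  obtain ⟨h1, h2, h3⟩ := PG1_zero_iff.1 hK
  have hadm := Adm_of hx h1 h2 hn
  have hc := coe_FlH hadm
  refine PG1_zero_iff.2 ⟨FlH_sub hx ha h1 hadm, ?_, ?_⟩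
  · rw [hc]
    exact (fl_cpt hadm).conn
  · intro σ hσ y hy
    have hy' : y ∈ Fl O (K : Set (U J)) := by
      rw [← hc]
      exact hy
    have h4 : act σ y ∈ act σ '' Fl O (K : Set (U J)) := ⟨y, hy', rfl⟩
    rw [act_image_Fl, hx.inv.image hσ] at h4
    have h5 : act σ '' (K : Set (U J)) ⊆ (K : Set (U J)) := by
      rintro _ ⟨x, hx, rfl⟩
      exact h3 σ hσ x hx
    have h6 : act σ y ∈ (FlH O K : Set (U J)) := by
      rw [hc]
      exact fl_mono h5 h4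
    exact h6

private theorem lift1 {r : ℕ} {F : Set J} (hF : F.Finite) {i : J} (hi : i ∈ F)
    (ih : LiftIH r (F \ {i})) {A O : Set (Ex J)} {K : H J} (hx : Ext F A O)
    (ha : ∀ e ∈ O, Act e) (hadm : Adm A O (K : Set (U J))) {b : H J} {S : Set (H J)}
    {ρ : Ex J → Ru} (hT : TD A (F \ {i}) i r K b S ρ) :
    ∀ (n : ℕ) (O₁ : Set (Ex J)), O₁ ⊆ O → O₁.ncard = n → Inv (F \ {i}) O₁ →
      ∃ (b' : H J) (S' : Set (H J)) (ρ' : Ex J → Ru),
        TD (A ∪ O₁) (F \ {i}) i r (FlH O₁ K) b' S' ρ' := by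
  intro n
  induction n using Nat.strong_induction_on with
  | _ n ihn =>
  intro O₁ hO₁ hcard hinv
  rcases O₁.eq_empty_or_nonempty with rfl | ⟨e₀, he₀⟩
  · have h1 : FlH ∅ K = K := by
      apply SetLike.coe_injective
      rw [coe_FlH (hadm.subset (empty_subset _)), fl_empty hadm.cpt.conn.isPreconnected]
    rw [union_empty, h1]
    exact ⟨b, S, ρ, hT⟩
  · have hfin : O₁.Finite := hx.fin.subset hO₁
    have hO' : orb (F \ {i}) e₀ ⊆ O₁ := orb_subset hinv he₀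
    set O' := orb (F \ {i}) e₀ with hO'def
    set O₂ := O₁ \ O' with hO₂def
    have hO₂ : O₂ ⊆ O₁ := sdiff_subset
    have hun : O₂ ∪ O' = O₁ := sdiff_union_of_subset hO'
    have hdis : Disjoint O₂ O' := disjoint_left.2 fun e he he' => he.2 he'
    have hinv₂ : Inv (F \ {i}) O₂ := hinv.diff (orb_inv _ _)
    have hlt : O₂.ncard < n := by
      rw [← hcard]
      apply Set.ncard_lt_ncard _ hfin
      exact ⟨hO₂, fun h => (h he₀).2 (mem_orb_self _ _)⟩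
    obtain ⟨b₂, S₂, ρ₂, hT₂⟩ := ihn _ hlt O₂ (hO₂.trans hO₁) rfl hinv₂
    have hadm₁ : Adm A (O₂ ∪ O') (K : Set (U J)) := by
      rw [hun]
      exact hadm.subset hO₁
    have hadm₂ : Adm A O₂ (K : Set (U J)) := hadm.subset (hO₂.trans hO₁)
    have hxi : Ext (F \ {i}) A O := hx.mono sdiff_subset
    have hx₂ : Ext (F \ {i}) A O₂ := ⟨hxi.lev, hfin.subset hO₂, hinv₂,
      fun e he => hxi.dis e (hO₁ (hO₂ he)), fun e he => hxi.fsA e (hO₁ (hO₂ he)),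
      fun j hj e he => hxi.sbA j hj e (hO₁ (hO₂ he))⟩
    have hx' : Ext (F \ {i}) (A ∪ O₂) O' := by
      refine ⟨hx₂.union, hfin.subset hO', orb_inv _ _, ?_, ?_, ?_⟩
      · rintro e he (h | h)
        · exact hxi.dis e (hO₁ (hO' he)) h
        · exact h.2 he
      · intro e he
        exact (hxi.fsA e (hO₁ (hO' he))).trans subset_union_left
      · intro j hj e he hje ρ
        exact Or.inl (hxi.sbA j hj e (hO₁ (hO' he)) hje ρ)
    have hs1 : ∀ e ∈ (A ∪ O₂) ∪ O', i ∈ ls e → ∀ ρ, sb i ρ e ∈ A ∪ O₂ := by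
      rintro e ((he | he) | he) hie ρ
      · exact Or.inl (hx.lev.sbs i hi e he hie ρ)
      · exact Or.inl (hx.sbA i hi e (hO₁ (hO₂ he)) hie ρ)
      · exact Or.inl (hx.sbA i hi e (hO₁ (hO' he)) hie ρ)
    have hc₂ := coe_FlH hadm₂
    have hn : Nt (FlH O₂ K : Set (U J)) e₀ := by
      rw [hc₂]
      exact (fl_nt hadm₂ (hxi.fsA e₀ (hO₁ he₀))).2 (hadm.tou e₀ (hO₁ he₀))
    obtain ⟨b', S', ρ', h⟩ := step_orb (hF.subset sdiff_subset) hx'
      (fun e he => ha e (hO₁ (hO' he))) hs1 ih hT₂ hn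
    have h1 : (A ∪ O₂) ∪ O' = A ∪ O₁ := by
      rw [union_assoc, hun]
    have h2 : FlH O' (FlH O₂ K) = FlH O₁ K := by
      apply SetLike.coe_injective
      have h3 : Adm (A ∪ O₂) O' (FlH O₂ K : Set (U J)) := by
        rw [hc₂]
        exact hadm₁.fl hdis
      rw [coe_FlH h3, hc₂, coe_FlH (hadm.subset hO₁), ← fl_union hadm₁ hdis, hun]
    rw [h1] at h
    rw [← hO'def, h2] at h
    exact ⟨b', S', ρ', h⟩

theorem lift (r : ℕ) : ∀ F : Set J, F.Finite → LiftIH r F := by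
  induction r with
  | zero =>
    intro F _ A O K hx ha hn hK
    exact lift0 hx ha hn hK
  | succ r ih =>
    intro F hF A O K hx ha hn hK
    obtain ⟨hK0, hKs⟩ := PG1_succ.1 hK
    obtain ⟨h1, h2, _⟩ := PG1_zero_iff.1 hK0
    have hadm := Adm_of hx h1 h2 hn
    refine PG1_succ.2 ⟨lift0 hx ha hn hK0, fun i hi => ?_⟩
    obtain ⟨ρ, b, S, hS, hb, hs, hp⟩ := hKs i hi
    obtain ⟨b', S', ρ', h⟩ := lift1 hF hi (ih _ (hF.subset sdiff_subset)) hx ha hadm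
      ⟨hS, hp, hb, hs⟩ _ O (Subset.refl _) rfl (hx.inv.mono sdiff_subset)
    exact ⟨ρ', b', S', h.thr, h.lz, h.sec, h.pg⟩

end Pool.DM
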