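import Pool.Agent.Helper84.DM.Basic
import Pool.Agent.Helper84.DM.Hy

/-!
# DM-LimT: truncations converge to the identity

`tube`: `K` compact, `K ⊆ O` open. For each `y ∈ K` there is a basic open neighbourhood of `y` in the product `U J`, contained in
`O`, that restricts only finitely many coordinates, let `S_y` be the finite set of the terms involved. Cover `K` by
finitely many of these neighbourhoods; `S` is the union of the corresponding `S_y`.

`tr_sep`: `P`, `Q` closed and disjoint. `U J` is compact Hausdorff, so there are disjoint open `V ⊇ P`, `W ⊇ Q`. Take `S` from `tube` for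
`P ⊆ V` and for `Q ⊆ W`. For `A ⊇ S`, `tr A '' P ⊆ V`, `tr A '' Q ⊆ W`.

`lim_mem`: if `y ∉ C` use `tube` for `{y} ⊆ Cᶜ`.

`limH_mem`: let `K ∉ 𝒞`. By `NonemptyCompacts.isTopologicalBasis` there is a finite set `u` of open sets such that `K ⊆ ⋃₀ u`, `K` meets all `V ∈ u`,
and no element of `𝒞` has these properties. Take `S₀` from `tube` for `K ⊆ ⋃₀ u`, and for each `V ∈ u` a point `y_V ∈ K ∩ V` and `S_V` from
`tube` for `{y_V} ⊆ V`. For `A ⊇ S₀ ∪ ⋃ S_V` the set `tr A '' K` is contained in `⋃₀ u` and meets all `V ∈ u`.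

`limH_le`: let `y ∈ K`, `y ∉ L`; `tr_sep` for `{y}` and `L` gives `S` such that `tr A y ∉ tr A '' L` for `A ⊇ S`.
-/

open Set Topology TopologicalSpace

namespace Pool.DM

variable {J : Type}

theorem tube {K O : Set (U J)} (hK : IsCompact K) (hO : IsOpen O) (h : K ⊆ O) :
    ∃ S : Set (Ex J), S.Finite ∧
      ∀ y ∈ K, ∀ z : U J, z.1 = y.1 → (∀ e ∈ S, z.2 e = y.2 e) → z ∈ O := by
  refine hK.induction_on (p := fun T => ∃ S : Set (Ex J), S.Finite ∧
      ∀ y ∈ T, ∀ z : U J, z.1 = y.1 → (∀ e ∈ S, z.2 e = y.2 e) → z ∈ O) ?_ ?_ ?_ ?_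
  · exact ⟨∅, Set.finite_empty, fun y hy => absurd hy (Set.notMem_empty y)⟩
  · rintro T T' hT ⟨S, hS, hS'⟩
    exact ⟨S, hS, fun y hy => hS' y (hT hy)⟩
  · rintro T T' ⟨S, hS, hS'⟩ ⟨S2, hS2, hS2'⟩
    refine ⟨S ∪ S2, hS.union hS2, fun y hy z hz hz2 => ?_⟩
    rcases hy with hy | hy
    · exact hS' y hy z hz fun e he => hz2 e (Or.inl he)
    · exact hS2' y hy z hz fun e he => hz2 e (Or.inr he)
  · intro y hy
    obtain ⟨V, W, hV, hW, hyV, hyW, hVW⟩ := isOpen_prod_iff.1 hO y.1 y.2 (h hy)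
    obtain ⟨I, u, hu, hIW⟩ := isOpen_pi_iff.1 hW y.2 hyW
    refine ⟨V ×ˢ ((I : Set (Ex J)).pi u), ?_, (I : Set (Ex J)), I.finite_toSet, ?_⟩
    · refine mem_nhdsWithin_of_mem_nhds (IsOpen.mem_nhds (hV.prod ?_) ⟨hyV, fun e he => (hu e he).2⟩)
      exact isOpen_set_pi I.finite_toSet fun e he => (hu e he).1
    · rintro x ⟨hx1, hx2⟩ z hz hz2
      refine hVW (Set.mk_mem_prod (a := z.1) (b := z.2) ?_ (hIW fun e he => ?_))
      · rw [hz]
        exact hx1
      · rw [hz2 e he]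
        exact hx2 e he

theorem tr_sep {P Q : Set (U J)} (hP : IsClosed P) (hQ : IsClosed Q) (h : Disjoint P Q) :
    ∃ S : Set (Ex J), S.Finite ∧ ∀ A, S ⊆ A → Disjoint (tr A '' P) (tr A '' Q) := by
  obtain ⟨V, W, hV, hW, hPV, hQW, hVW⟩ :=
    SeparatedNhds.of_isCompact_isCompact hP.isCompact hQ.isCompact h
  obtain ⟨S1, hS1, hS1'⟩ := tube hP.isCompact hV hPV
  obtain ⟨S2, hS2, hS2'⟩ := tube hQ.isCompact hW hQW
  refine ⟨S1 ∪ S2, hS1.union hS2, fun A hA => ?_⟩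
  rw [Set.disjoint_left]
  rintro x ⟨y, hy, rfl⟩ ⟨z, hz, hzy⟩
  have h1 : tr A y ∈ V := hS1' y hy _ (tr_fst A y) fun e he => tr_mem (hA (Or.inl he)) y
  have h2 : tr A z ∈ W := hS2' z hz _ (tr_fst A z) fun e he => tr_mem (hA (Or.inr he)) z
  rw [hzy] at h2
  exact Set.disjoint_left.1 hVW h1 h2

theorem lim_mem {C : Set (U J)} (hC : IsClosed C) {y : U J}
    (h : ∀ S : Set (Ex J), S.Finite → ∃ A, S ⊆ A ∧ tr A y ∈ C) : y ∈ C := by
  by_contra hy
  obtain ⟨S, hS, hS'⟩ := tube (K := {y}) isCompact_singleton hC.isOpen_compl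
    (Set.singleton_subset_iff.2 hy)
  obtain ⟨A, hA, hA'⟩ := h S hS
  exact hS' y rfl (tr A y) (tr_fst A y) (fun e he => tr_mem (hA he) y) hA'

theorem coe_trH (A : Set (Ex J)) (K : H J) : (trH A K : Set (U J)) = tr A '' (K : Set (U J)) := by
  exact NonemptyCompacts.coe_map _ _

theorem continuous_trH (A : Set (Ex J)) : Continuous (trH A : H J → H J) := by
  exact (continuous_tr A).nonemptyCompacts_map

theorem trH_mono (A : Set (Ex J)) : Monotone (trH A : H J → H J) := by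
  exact map_monoH _

theorem trH_trH {A B : Set (Ex J)} (h : A ⊆ B) (K : H J) : trH A (trH B K) = trH A K := by
  apply eq_of_coe
  rw [coe_trH, coe_trH, coe_trH, Set.image_image]
  exact Set.image_congr fun y _ => tr_tr h y

theorem limH_mem {𝒞 : Set (H J)} (hC : IsClosed 𝒞) {K : H J}
    (h : ∀ S : Set (Ex J), S.Finite → ∃ A, S ⊆ A ∧ trH A K ∈ 𝒞) : K ∈ 𝒞 := by
  by_contra hK
  obtain ⟨v, hv, hKv, hvC⟩ := NonemptyCompacts.isTopologicalBasis.exists_subset_of_mem_open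
    (show K ∈ 𝒞ᶜ from hK) hC.isOpen_compl
  obtain ⟨u, ⟨huf, _, huo⟩, rfl⟩ := hv
  obtain ⟨hKu, hKm⟩ := hKv
  obtain ⟨S0, hS0, hS0'⟩ := tube K.isCompact (isOpen_sUnion huo) hKu
  have h1 : ∀ V ∈ u, ∃ S : Set (Ex J), S.Finite ∧ ∀ A, S ⊆ A →
      (tr A '' (K : Set (U J)) ∩ V).Nonempty := by
    intro V hV
    obtain ⟨y, hyK, hyV⟩ := hKm V hV
    obtain ⟨S, hS, hS'⟩ := tube (K := {y}) isCompact_singleton (huo V hV)
      (Set.singleton_subset_iff.2 hyV)
    refine ⟨S, hS, fun A hA => ⟨tr A y, Set.mem_image_of_mem _ hyK, ?_⟩⟩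
    exact hS' y rfl (tr A y) (tr_fst A y) fun e he => tr_mem (hA he) y
  choose! SV hSV hSV' using h1
  obtain ⟨A, hA, hA'⟩ := h (S0 ∪ ⋃ V ∈ u, SV V) (hS0.union (huf.biUnion hSV))
  refine hvC ?_ hA'
  refine ⟨?_, ?_⟩
  · rw [coe_trH]
    rintro x ⟨y, hy, rfl⟩
    exact hS0' y hy (tr A y) (tr_fst A y) fun e he => tr_mem (hA (Or.inl he)) y
  · intro V hV
    rw [coe_trH]
    exact hSV' V hV A fun e he => hA (Or.inr (Set.mem_biUnion hV he))

theorem limH_le {K L : H J}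
    (h : ∀ S : Set (Ex J), S.Finite → ∃ A, S ⊆ A ∧ trH A K ≤ trH A L) : K ≤ L := by
  rw [le_iff_sub]
  intro y hy
  by_contra hyL
  obtain ⟨S, hS, hS'⟩ := tr_sep (P := {y}) isClosed_singleton L.isCompact.isClosed
    (Set.disjoint_singleton_left.2 hyL)
  obtain ⟨A, hA, hA'⟩ := h S hS
  have h1 := le_iff_sub.1 hA'
  rw [coe_trH, coe_trH] at h1
  exact Set.disjoint_left.1 (hS' A hA) (Set.mem_image_of_mem _ rfl) (h1 (Set.mem_image_of_mem _ hy))

end Pool.DM
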