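import Pool.Agent.Helper84.DM.Lev
import Pool.Agent.Helper84.DM.Equi

/-!
# DM-MOp: the operator `M`

`A` a level, `O` an extension by active terms, `B = A ∪ O`. For a continuum `K ⊆ Yc B`, `Mset A O K` is the component containing `K` of
`G = {y ∈ Yc B | tr A y ∈ tr A '' K}`.

`G` is closed (`Yc B` and `tr A '' K` are compact), `K ⊆ G`; every preconnected `T ⊆ G` that meets `K` lies in the component of
`G` containing `K`, and this component is such a `T`; so `Mset A O K` is the component (`H64DN.component_closed`).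

`M_idem`: `K ≤ L ≤ MH K`: `tr A '' L = tr A '' K` (`M_tr`), so the sets `G` agree, and `L` lies in the component.

`M_capture`: `T ∪ Mset A O K` is preconnected.

`M_act`: `act σ` preserves `Yc B` (`Yc_act`, `Inv.image`) and commutes with `tr A` (`act_tr`), `act σ '' K ⊆ K`; so `act σ '' Mset` is a preconnected
subset of `G` and contains `act σ '' K ⊆ K ∩ ..`, so it meets `K`.

`M_glb`: `𝒞` a nonempty chain of continua contained in `Yc B` with greatest lower bound `K`: `K = ⋂ L` (`coe_of_isGLB`), a continuum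
(`isClosed_conn` and `glb_mem_closure`). `MH K` is a lower bound. Let `N` be a lower bound of the `MH L`; let `M₁ = ⋂ MH L`, a continuum
(`H64DN.preconnected_iInter`), contained in `Yc B`, containing `K`, and `tr A '' M₁ ⊆ ⋂ tr A '' L = tr A '' K` (compactness: a decreasing
family of compact sets; `trH A` is continuous: `glb_image`, `coe_of_isGLB`). So `M₁ ⊆ Mset A O K` and `N ≤ MH K`.

`M_sc`: `i ∈ F`, `K, L` good, `sc i ρ B` maps `K` into `L`. Let `y ∈ Mset A O K =: M`, `y' ∈ K` with `tr A y = tr A y'`. By `tr_sc`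
`tr A (sc i ρ B y) = sc i ρ A (tr A y) = tr A (sc i ρ B y') ∈ tr A '' L`. Next `sc i ρ B y ∈ FO O (Yc A)`: it is flat over `B`, so `zer O` of it is `tr A` of it
(`zer_eq_tr`), in `tr A '' L ⊆ Yc A` (`Yc_tr`). For `e ∈ O`: if `i ∉ ls e` then `val e (sc i ρ B y) = val e y` (`val_sc`, `sb_of_notMem`) and
`(sc i ρ B y).2 e = y.2 e` (`sc_off`), and `y ∈ Yc B` satisfies the relation (`Yc_rel`). If `i ∈ ls e`, then `val e (sc i ρ B y) = val (sb i ρ e) y` and
`(sc i ρ B y).2 e = p5 (val (sb i ρ (.fo e)) y)` depend only on `tr A y` (`sb i ρ e ∈ A`, `fs_sb`, the definition of `sb`), so they are the same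
as for `y'`, and `sc i ρ B y' ∈ L ⊆ Yc B` satisfies the relation. So `sc i ρ B '' M` is a preconnected subset of `FO O (Yc A)` which meets
`L ⊆ Yc B = Fl O (Yc A)` (`Yc_full`): by `fl_capture` it is contained in `Yc B`. So it is a preconnected subset of the set `G` of `L` that meets `L`, hence
contained in `Mset A O L`.
-/

open Set Topology TopologicalSpace

namespace Pool.DM

variable {J : Type}

/-- The component of `{y ∈ Yc (A ∪ O) | tr A y ∈ tr A '' K}` containing `K`. -/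
def Mset (A O : Set (Ex J)) (K : Set (U J)) : Set (U J) :=
  ⋃₀ {T | IsPreconnected T ∧ (∀ y ∈ T, y ∈ Yc (A ∪ O) ∧ tr A y ∈ tr A '' K) ∧ (T ∩ K).Nonempty}

/-- The operator `M` on the hyperspace. -/
noncomputable def MH (A O : Set (Ex J)) (K : H J) : H J := clH (Mset A O (K : Set (U J)))

/-- `K` is a continuum contained in `Yc (A ∪ O)`. -/
def Gd (A O : Set (Ex J)) (K : H J) : Prop :=
  (K : Set (U J)) ⊆ Yc (A ∪ O) ∧ IsConnected (K : Set (U J))

variable {F : Set J} {A O : Set (Ex J)}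

/-- The set `G` of the header. -/
private def Gset (A O : Set (Ex J)) (K : Set (U J)) : Set (U J) :=
  {y | y ∈ Yc (A ∪ O) ∧ tr A y ∈ tr A '' K}

private theorem Gset_closed (hx : Ext F A O) (K : H J) :
    IsClosed (Gset A O (K : Set (U J))) := by
  have h1 : IsClosed (Yc (A ∪ O)) := (Yc_cpt hx.union.fin hx.union.clo).closed
  have h2 : IsClosed (tr A '' (K : Set (U J))) := (K.isCompact.image (continuous_tr A)).isClosed
  exact h1.inter (h2.preimage (continuous_tr A))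

private theorem sub_Gset {K : Set (U J)} (hK : K ⊆ Yc (A ∪ O)) : K ⊆ Gset A O K :=
  fun y hy => ⟨hK hy, mem_image_of_mem _ hy⟩

private theorem Mset_eq {K : Set (U J)} (hK : K ⊆ Yc (A ∪ O)) (hKc : IsConnected K) {k : U J}
    (hk : k ∈ K) : Mset A O K = connectedComponentIn (Gset A O K) k := by
  apply Subset.antisymm
  · rintro y ⟨T, ⟨hT, hTG, ⟨x, hxT, hxK⟩⟩, hy⟩
    have h1 : T ⊆ connectedComponentIn (Gset A O K) x :=
      hT.subset_connectedComponentIn hxT fun z hz => hTG z hz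
    have h2 : K ⊆ connectedComponentIn (Gset A O K) k :=
      hKc.isPreconnected.subset_connectedComponentIn hk (sub_Gset hK)
    rw [connectedComponentIn_eq (h2 hxK)]
    exact h1 hy
  · intro y hy
    refine ⟨connectedComponentIn (Gset A O K) k, ⟨isPreconnected_connectedComponentIn,
      fun z hz => ?_,
      ⟨k, mem_connectedComponentIn (sub_Gset hK hk), hk⟩⟩, hy⟩
    have h : z ∈ Gset A O K := connectedComponentIn_subset (Gset A O K) k hz
    exact ⟨h.1, h.2⟩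

private theorem sub_Mset {K : Set (U J)} (hK : K ⊆ Yc (A ∪ O)) (hKc : IsConnected K) :
    K ⊆ Mset A O K := by
  intro y hy
  exact ⟨K, ⟨hKc.isPreconnected, fun z hz => sub_Gset hK hz, ⟨y, hy, hy⟩⟩, hy⟩

private theorem Mset_sub {K : Set (U J)} {y : U J} (hy : y ∈ Mset A O K) :
    y ∈ Yc (A ∪ O) ∧ tr A y ∈ tr A '' K := by
  obtain ⟨T, ⟨_, hTG, _⟩, hy⟩ := hy
  exact hTG y hy

private theorem Mset_closed (hx : Ext F A O) {K : H J} (hK : Gd A O K) :
    IsClosed (Mset A O (K : Set (U J))) := by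
  obtain ⟨k, hk⟩ := K.nonempty
  rw [Mset_eq hK.1 hK.2 hk]
  exact H64DN.component_closed (Gset_closed hx K) k

theorem coe_MH (hx : Ext F A O) {K : H J} (hK : Gd A O K) :
    (MH A O K : Set (U J)) = Mset A O (K : Set (U J)) := by
  exact coe_clH (K.nonempty.mono (sub_Mset hK.1 hK.2)) (Mset_closed hx hK)

theorem le_MH (hx : Ext F A O) {K : H J} (hK : Gd A O K) : K ≤ MH A O K := by
  rw [le_iff_sub, coe_MH hx hK]
  exact sub_Mset hK.1 hK.2

theorem Gd_MH (hx : Ext F A O) {K : H J} (hK : Gd A O K) : Gd A O (MH A O K) := by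
  refine ⟨?_, ?_⟩
  · rw [coe_MH hx hK]
    intro y hy
    exact (Mset_sub hy).1
  · rw [coe_MH hx hK]
    obtain ⟨k, hk⟩ := K.nonempty
    rw [Mset_eq hK.1 hK.2 hk]
    exact isConnected_connectedComponentIn_iff.2 (sub_Gset hK.1 hk)

theorem M_tr (hx : Ext F A O) {K : H J} (hK : Gd A O K) : trH A (MH A O K) = trH A K := by
  apply eq_of_coe
  rw [coe_trH, coe_trH, coe_MH hx hK]
  apply Subset.antisymm
  · rintro _ ⟨y, hy, rfl⟩
    exact (Mset_sub hy).2
  · exact image_mono (sub_Mset hK.1 hK.2)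

theorem M_mono (hx : Ext F A O) {K L : H J} (hK : Gd A O K) (hL : Gd A O L) (h : K ≤ L) :
    MH A O K ≤ MH A O L := by
  rw [le_iff_sub, coe_MH hx hK, coe_MH hx hL]
  have h' := le_iff_sub.1 h
  rintro y ⟨T, ⟨hT, hTG, ⟨x, hxT, hxK⟩⟩, hy⟩
  exact ⟨T, ⟨hT, fun z hz => ⟨(hTG z hz).1, image_mono h' (hTG z hz).2⟩, ⟨x, hxT, h' hxK⟩⟩, hy⟩

private theorem capture_aux {K : Set (U J)} (hK : K ⊆ Yc (A ∪ O)) (hKc : IsConnected K)
    {T : Set (U J)} (hT : IsPreconnected T) (hTG : T ⊆ Gset A O K)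
    (hm : (T ∩ Mset A O K).Nonempty) : T ⊆ Mset A O K := by
  obtain ⟨k, hk⟩ := hKc.nonempty
  obtain ⟨x, hxT, hxM⟩ := hm
  rw [Mset_eq hK hKc hk] at hxM ⊢
  rw [connectedComponentIn_eq hxM]
  exact hT.subset_connectedComponentIn hxT hTG

theorem M_idem (hx : Ext F A O) {K L : H J} (hK : Gd A O K) (hL : Gd A O L) (h : K ≤ L)
    (h' : L ≤ MH A O K) : MH A O L = MH A O K := by
  apply eq_of_coe
  apply Subset.antisymm
  · have h1 : (L : Set (U J)) ⊆ Mset A O (K : Set (U J)) := by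
      have := le_iff_sub.1 h'
      rwa [coe_MH hx hK] at this
    rw [coe_MH hx hK, coe_MH hx hL]
    rintro y ⟨T, ⟨hT, hTG, ⟨x, hxT, hxL⟩⟩, hy⟩
    refine capture_aux hK.1 hK.2 hT ?_ ⟨x, hxT, h1 hxL⟩ hy
    intro z hz
    refine ⟨(hTG z hz).1, ?_⟩
    obtain ⟨l, hl, hlz⟩ := (hTG z hz).2
    rw [← hlz]
    exact (Mset_sub (h1 hl)).2
  · exact le_iff_sub.1 (M_mono hx hK hL h)

theorem M_capture (hx : Ext F A O) {K : H J} (hK : Gd A O K) {T : Set (U J)}
    (hT : IsPreconnected T) (hTY : T ⊆ Yc (A ∪ O)) (hTK : ∀ y ∈ T, tr A y ∈ trH A K)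
    (hm : (T ∩ (MH A O K : Set (U J))).Nonempty) : T ⊆ (MH A O K : Set (U J)) := by
  rw [coe_MH hx hK] at hm ⊢
  refine capture_aux hK.1 hK.2 hT ?_ hm
  intro y hy
  refine ⟨hTY hy, ?_⟩
  have := hTK y hy
  rw [← SetLike.mem_coe, coe_trH] at this
  exact this

private theorem MH_sub (hx : Ext F A O) {K : H J} (hK : Gd A O K) {y : U J}
    (hy : y ∈ MH A O K) : y ∈ Yc (A ∪ O) ∧ ∃ k ∈ K, tr A k = tr A y := by
  rw [← SetLike.mem_coe, coe_MH hx hK] at hy
  obtain ⟨h1, k, hk, hky⟩ := Mset_sub hy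
  exact ⟨h1, k, hk, hky⟩

theorem M_act (hx : Ext F A O) {K : H J} (hK : Gd A O K) {σ : Equiv.Perm J} (hσ : σ ∈ PF F)
    (h : ∀ y ∈ K, act σ y ∈ K) : ∀ y ∈ MH A O K, act σ y ∈ MH A O K := by
  have key : act σ '' (MH A O K : Set (U J)) ⊆ (MH A O K : Set (U J)) := by
    refine M_capture hx hK ?_ ?_ ?_ ?_
    · exact (Gd_MH hx hK).2.isPreconnected.image _ (continuous_act σ).continuousOn
    · rintro _ ⟨y, hy, rfl⟩
      have h1 := Yc_act σ (MH_sub hx hK hy).1
      rwa [hx.union.inv.image hσ] at h1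
    · rintro _ ⟨y, hy, rfl⟩
      obtain ⟨-, k, hk, hky⟩ := MH_sub hx hK hy
      rw [← SetLike.mem_coe, coe_trH]
      refine ⟨act σ k, h k hk, ?_⟩
      have h1 := act_tr σ A k
      have h2 := act_tr σ A y
      rw [hx.lev.inv.image hσ] at h1 h2
      rw [← h1, ← h2, hky]
    · obtain ⟨k, hk⟩ := K.nonempty
      have hle := le_iff_sub.1 (le_MH hx hK)
      exact ⟨act σ k, mem_image_of_mem _ (hle hk), hle (h k hk)⟩
  intro y hy
  exact key (mem_image_of_mem _ hy)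

private theorem chain_coe {𝒟 : Set (H J)} (hch : ∀ K ∈ 𝒟, ∀ L ∈ 𝒟, K ≤ L ∨ L ≤ K) :
    ∀ K ∈ (fun L : H J => (L : Set (U J))) '' 𝒟, ∀ K' ∈ (fun L : H J => (L : Set (U J))) '' 𝒟,
      K ⊆ K' ∨ K' ⊆ K := by
  rintro _ ⟨K, hK, rfl⟩ _ ⟨L, hL, rfl⟩
  rcases hch K hK L hL with h | h
  · exact Or.inl (le_iff_sub.1 h)
  · exact Or.inr (le_iff_sub.1 h)

theorem M_glb (hx : Ext F A O) {𝒞 : Set (H J)} (hn : 𝒞.Nonempty)
    (hch : ∀ K ∈ 𝒞, ∀ L ∈ 𝒞, K ≤ L ∨ L ≤ K) (hg : ∀ K ∈ 𝒞, Gd A O K) {K : H J}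
    (hK : IsGLB 𝒞 K) : Gd A O K ∧ IsGLB (MH A O '' 𝒞) (MH A O K) := by
  have hKeq := coe_of_isGLB hn hch hK
  have hKeq' : (K : Set (U J)) = ⋂₀ ((fun L : H J => (L : Set (U J))) '' 𝒞) := by
    rw [hKeq, sInter_image]
  have hGK : Gd A O K := by
    refine ⟨?_, ?_⟩
    · obtain ⟨L, hL⟩ := hn
      exact (le_iff_sub.1 (hK.1 hL)).trans (hg L hL).1
    · rw [hKeq']
      refine (H64DN.sInter_connected _ (hn.image _) ?_ (chain_coe hch)).2
      rintro _ ⟨L, hL, rfl⟩
      exact ⟨L.isCompact.isClosed, (hg L hL).2⟩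
  refine ⟨hGK, ?_, ?_⟩
  · rintro _ ⟨L, hL, rfl⟩
    exact M_mono hx hGK (hg L hL) (hK.1 hL)
  · intro N hN
    have hchM : ∀ K ∈ MH A O '' 𝒞, ∀ L ∈ MH A O '' 𝒞, K ≤ L ∨ L ≤ K := by
      rintro _ ⟨K, hK, rfl⟩ _ ⟨L, hL, rfl⟩
      rcases hch K hK L hL with h | h
      · exact Or.inl (M_mono hx (hg K hK) (hg L hL) h)
      · exact Or.inr (M_mono hx (hg L hL) (hg K hK) h)
    have hM1 := H64DN.sInter_connected ((fun L : H J => (L : Set (U J))) '' (MH A O '' 𝒞))
      ((hn.image _).image _) (by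
        rintro _ ⟨_, ⟨L, hL, rfl⟩, rfl⟩
        exact ⟨(MH A O L).isCompact.isClosed, (Gd_MH hx (hg L hL)).2⟩) (chain_coe hchM)
    have hmem : ∀ y, y ∈ ⋂₀ ((fun L : H J => (L : Set (U J))) '' (MH A O '' 𝒞)) →
        ∀ L ∈ 𝒞, y ∈ MH A O L := by
      intro y hy L hL
      exact hy _ ⟨_, ⟨L, hL, rfl⟩, rfl⟩
    have hcap : ⋂₀ ((fun L : H J => (L : Set (U J))) '' (MH A O '' 𝒞)) ⊆
        (MH A O K : Set (U J)) := by
      refine M_capture hx hGK hM1.2.isPreconnected ?_ ?_ ?_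
      · intro y hy
        obtain ⟨L, hL⟩ := hn
        exact (MH_sub hx (hg L hL) (hmem y hy L hL)).1
      · intro y hy
        have : Nonempty 𝒞 := hn.to_subtype
        have hcl : ∀ L : 𝒞, IsClosed ((L.1 : Set (U J)) ∩ tr A ⁻¹' {tr A y}) := fun L =>
          L.1.isCompact.isClosed.inter (isClosed_singleton.preimage (continuous_tr A))
        have hne : (⋂ L : 𝒞, ((L.1 : Set (U J)) ∩ tr A ⁻¹' {tr A y})).Nonempty := by
          refine IsCompact.nonempty_iInter_of_directed_nonempty_isCompact_isClosed _ ?_ ?_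
            (fun L => (hcl L).isCompact) hcl
          · intro L M
            rcases hch L.1 L.2 M.1 M.2 with h1 | h1
            · exact ⟨L, subset_rfl, inter_subset_inter_left _ (le_iff_sub.1 h1)⟩
            · exact ⟨M, inter_subset_inter_left _ (le_iff_sub.1 h1), subset_rfl⟩
          · intro L
            obtain ⟨-, k, hk, hky⟩ := MH_sub hx (hg L.1 L.2) (hmem y hy L.1 L.2)
            exact ⟨k, hk, hky⟩
        obtain ⟨z, hz⟩ := hne
        rw [mem_iInter] at hz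
        rw [← SetLike.mem_coe, coe_trH]
        refine ⟨z, ?_, (hz (Classical.arbitrary 𝒞)).2⟩
        rw [hKeq]
        simp only [mem_iInter]
        intro L hL
        exact (hz ⟨L, hL⟩).1
      · obtain ⟨k, hk⟩ := K.nonempty
        refine ⟨k, ?_, le_iff_sub.1 (le_MH hx hGK) hk⟩
        rintro _ ⟨_, ⟨L, hL, rfl⟩, rfl⟩
        exact le_iff_sub.1 (le_MH hx (hg L hL)) (le_iff_sub.1 (hK.1 hL) hk)
    rw [le_iff_sub]
    refine Subset.trans ?_ hcap
    intro y hy
    rintro _ ⟨_, ⟨L, hL, rfl⟩, rfl⟩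
    exact le_iff_sub.1 (hN ⟨L, hL, rfl⟩) hy

private theorem fs_sb_fo {i : J} {ρ : Ex J → Ru} {e : Ex J} (hA : Clo A) (hie : i ∈ ls e)
    (hs : sb i ρ e ∈ A) : fs (sb i ρ (.fo e)) ⊆ A := by
  rcases sb_fo_cases i ρ e with ⟨h1, _⟩ | ⟨_, h2 | h2 | h2 | h2⟩
  · exact absurd hie h1
  · rw [h2]
    intro x hx
    have hx' : x = sb i ρ e := hx
    rw [hx']
    exact hs
  · rw [h2]
    intro x hx
    have hx' : x ∈ fs (cl (sb i ρ e)) ∪ (∅ : Set (Ex J)) := hx
    rw [union_empty, fs_cl] at hx'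
    exact hA _ hs hx'
  · rw [h2]
    intro x hx
    have hx' : x ∈ fs (cl (sb i ρ e)) ∪ (∅ : Set (Ex J)) := hx
    rw [union_empty, fs_cl] at hx'
    exact hA _ hs hx'
  · rw [h2]
    intro x hx
    have hx' : x ∈ (∅ : Set (Ex J)) := hx
    exact hx'.elim

private theorem val_eq_of_tr {e : Ex J} (hf : fs e ⊆ A) {y z : U J} (h : tr A y = tr A z) :
    val e y = val e z := by
  rw [← val_tr hf y, h, val_tr hf]

theorem M_sc (hx : Ext F A O) (ha : ∀ e ∈ O, Act e) {i : J} (hi : i ∈ F) {ρ : Ex J → Ru}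
    {K L : H J} (hK : Gd A O K) (hL : Gd A O L) (h : ∀ y ∈ K, sc i ρ (A ∪ O) y ∈ L) :
    ∀ y ∈ MH A O K, sc i ρ (A ∪ O) y ∈ MH A O L := by
  have hadm : Adm A O (Yc A) :=
    Adm_Yc hx.lev.fin hx.lev.clo hx.fin hx.dis hx.fsA ha
  have hfull : Yc (A ∪ O) = Fl O (Yc A) :=
    Yc_full hx.lev.fin hx.lev.clo hx.fin hx.dis hx.fsA ha
  have hpre : IsPreconnected (sc i ρ (A ∪ O) '' (MH A O K : Set (U J))) :=
    (Gd_MH hx hK).2.isPreconnected.image _ (continuous_sc i ρ (A ∪ O)).continuousOn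
  have htr : ∀ y ∈ MH A O K, ∀ k, tr A k = tr A y →
      tr A (sc i ρ (A ∪ O) y) = tr A (sc i ρ (A ∪ O) k) := by
    intro y _ k hky
    rw [tr_sc subset_union_left hx.lev.clo (fun e he hie => hx.lev.sbs i hi e he hie ρ),
      tr_sc subset_union_left hx.lev.clo (fun e he hie => hx.lev.sbs i hi e he hie ρ), hky]
  obtain ⟨k0, hk0⟩ := K.nonempty
  have hk0' : k0 ∈ (MH A O K : Set (U J)) := le_iff_sub.1 (le_MH hx hK) hk0
  have hsub : sc i ρ (A ∪ O) '' (MH A O K : Set (U J)) ⊆ Yc (A ∪ O) := by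
    rw [hfull]
    refine fl_capture hadm hpre ?_ ?_
    · rintro _ ⟨y, hy, rfl⟩
      obtain ⟨hyY, k, hk, hky⟩ := MH_sub hx hK hy
      have hkL : sc i ρ (A ∪ O) k ∈ Yc (A ∪ O) := hL.1 (h k hk)
      refine ⟨?_, ?_⟩
      · rw [zer_eq_tr hx.dis (fun e he => sc_notMem he y), htr y hy k hky, ← Yc_tr
          (subset_union_left : A ⊆ A ∪ O)]
        exact mem_image_of_mem _ hkL
      · intro e he
        have hfe : fs e ⊆ A ∪ O := (hx.fsA e he).trans subset_union_left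
        have heB : e ∈ A ∪ O := Or.inr he
        by_cases hie : i ∈ ls e
        · have hsA := hx.sbA i hi e he hie ρ
          have h1 : val e (sc i ρ (A ∪ O) y) = val e (sc i ρ (A ∪ O) k) := by
            rw [val_sc hfe, val_sc hfe]
            exact val_eq_of_tr (hx.lev.clo _ hsA) hky.symm
          have h2 : (sc i ρ (A ∪ O) y).2 e = (sc i ρ (A ∪ O) k).2 e := by
            rw [sc_mem heB, sc_mem heB]
            rw [val_eq_of_tr (fs_sb_fo hx.lev.clo hie hsA) hky.symm]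
          have h3 := Yc_rel hx.union.clo hkL heB (ha e he)
          unfold sv at h3 ⊢
          rw [h1, h2]
          exact h3
        · have h1 : val e (sc i ρ (A ∪ O) y) = val e y := by
            rw [val_sc hfe, sb_of_notMem ρ hie]
          have h3 := Yc_rel hx.union.clo hyY heB (ha e he)
          unfold sv at h3 ⊢
          rw [h1, sc_off heB hie]
          exact h3
    · refine ⟨sc i ρ (A ∪ O) k0, mem_image_of_mem _ hk0', ?_⟩
      rw [← hfull]
      exact hL.1 (h k0 hk0)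
  have key : sc i ρ (A ∪ O) '' (MH A O K : Set (U J)) ⊆ (MH A O L : Set (U J)) := by
    refine M_capture hx hL hpre hsub ?_ ?_
    · rintro _ ⟨y, hy, rfl⟩
      obtain ⟨-, k, hk, hky⟩ := MH_sub hx hK hy
      rw [← SetLike.mem_coe, coe_trH]
      exact ⟨sc i ρ (A ∪ O) k, h k hk, (htr y hy k hky).symm⟩
    · exact ⟨sc i ρ (A ∪ O) k0, mem_image_of_mem _ hk0',
        le_iff_sub.1 (le_MH hx hL) (h k0 hk0)⟩
  intro y hy
  exact key (mem_image_of_mem _ hy)

/-- If `N` is a continuum inside the full continuum over `K` and onto `K` then `M N` is the full continuum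
over `K`. (`Mset A O N`: a preconnected `T ⊆ Yc (A ∪ O)` with `tr A '' T ⊆ tr A '' N = K` is contained in `FO O K` (`Yc_rel`, `zer_eq_tr`), it
meets `N ⊆ Fl O K`, `fl_capture`. Conversely `Fl O K` is a preconnected subset of `Fl O (Yc A) = Yc (A ∪ O)`.) -/
theorem MH_eq_Fl (hx : Ext F A O) (ha : ∀ e ∈ O, Act e) {K N : H J}
    (hK : (K : Set (U J)) ⊆ Yc A) (hKc : IsConnected (K : Set (U J))) (hn : ∀ e ∈ O, Nt (K : Set (U J)) e)
    (hN : IsConnected (N : Set (U J))) (hNF : (N : Set (U J)) ⊆ Fl O (K : Set (U J)))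
    (htr : trH A N = K) : MH A O N = FlH O K := by
  have hadm : Adm A O (K : Set (U J)) :=
    ⟨⟨K.isCompact.isClosed, hKc, fun y hy e he => Yc_flat (hK hy) he⟩, hx.fin, hx.dis, hx.fsA, hn⟩
  have hfull : Yc (A ∪ O) = Fl O (Yc A) :=
    Yc_full hx.lev.fin hx.lev.clo hx.fin hx.dis hx.fsA ha
  have hFY : Fl O (K : Set (U J)) ⊆ Yc (A ∪ O) := by
    rw [hfull]
    exact fl_mono hK
  have hGN : Gd A O N := ⟨hNF.trans hFY, hN⟩
  have hcoe : (FlH O K : Set (U J)) = Fl O (K : Set (U J)) :=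
    coe_clH (fl_cpt hadm).conn.nonempty (fl_cpt hadm).closed
  apply eq_of_coe
  rw [hcoe]
  apply Subset.antisymm
  · refine fl_capture hadm (Gd_MH hx hGN).2.isPreconnected ?_ ?_
    · intro y hy
      obtain ⟨hyY, k, hk, hky⟩ := MH_sub hx hGN hy
      refine ⟨?_, ?_⟩
      · rw [zer_eq_tr hx.dis (fun e he => Yc_flat hyY he), ← hky]
        have h1 : tr A k ∈ (trH A N : Set (U J)) := by
          rw [coe_trH]
          exact mem_image_of_mem _ hk
        rw [htr] at h1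
        exact h1
      · intro e he
        exact Yc_rel hx.union.clo hyY (Or.inr he) (ha e he)
    · obtain ⟨n, hn'⟩ := N.nonempty
      exact ⟨n, le_iff_sub.1 (le_MH hx hGN) hn', hNF hn'⟩
  · refine M_capture hx hGN (fl_cpt hadm).conn.isPreconnected hFY ?_ ?_
    · intro y hy
      rw [htr, ← SetLike.mem_coe, ← fl_onto_tr hadm]
      exact mem_image_of_mem _ hy
    · obtain ⟨n, hn'⟩ := N.nonempty
      exact ⟨n, hNF hn', le_iff_sub.1 (le_MH hx hGN) hn'⟩

end Pool.DM
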