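import Pool.Agent.Helper84.DM.Betw
import Pool.Agent.Helper84.DM.MOp

/-!
# DM-MLem: adding the continuum `M` to a family with threads

`PG_M`: induction on `r` (all `Q`, `Rel`, `c`, `F`, `z`); `B = A ∪ O`.

PG0 of `ex (MH A O (z c)) z`: `Gd_MH`, `M_act`; relations: `Rel q c` or `q = c`: `z q ≤ z c ≤ MH (z c)`.

Depth `r + 1`: let `i ∈ F`, `ρ`, `b`, `S` the data for `z`. All `p ∈ S` have depth `r` for `F \ {i}`, so `Gd A O (p c)`. `Φ p = MH A O (p c)`, monotone
on `S` (`M_mono`); `𝒢 = {(p, x) | PG B (downR Rel c) r (F \ {i}) (ex x p)}` is closed (`isClosed_PG`, `continuous_ex`) and contains `(p, Φ p)` by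
induction. We apply `filling`.
 Left: `p ≠ b`, `u` the least upper bound of the `MH (q c)`, `q < p`, `(p, u) ∈ 𝒢`; so `Gd A O u` (PG0). `p c` is the least upper bound of the
 `q c` (`Thr.isLUB_below`, `lub_image`), so `p c ≤ u ≤ MH (p c)`, so `MH u = MH (p c)` (`M_idem`). By induction for the type `Option Q`, the
 family `ex u p`, the relation `downR Rel c` (transitive) and `none`: `ex (MH u) (ex u p)` has depth `r` with the relation
 `downR (downR Rel c) none` (transitive). `PG_between` with `a = some none`, `c = none` (related): for every `s ∈ 𝓔` the family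
 `ex (evE s u (MH u)) (ex (MH u) (ex u p))` has depth `r`; `PG_sub` with `none ↦ none`, `some q ↦ some (some (some q))` gives
 `(p, evE s u (MH u)) ∈ 𝒢`. So `T = {evE s u (MH u) | s ∈ 𝓔}` is a thread from `u` to `MH u = Φ p` in `𝒢_p` (`evE_thr_top`).
 Right: `p ≠ z`, `u` the greatest lower bound of the `MH (q c)`, `q > p`. `p c` is the greatest lower bound of the `q c`, so `u = MH (p c) = Φ p`
 (`M_glb`, uniqueness of greatest lower bounds), `T = {Φ p}`.
The thread of `filling` is mapped by `(p, x) ↦ ex x p` to a thread from `ex (MH (b c)) b` to `ex (MH (z c)) z`. The letter `i` is `0` on `MH (b c)`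
(`M_tr`: the letters of `y ∈ MH (b c)` are those of `tr A y ∈ tr A '' b c`). Section condition: `M_sc`.

`thr_M`: take `𝓔` from `exists_int` for `Wm F B` (`Wm_finite`, `Wm_cont`, `Wm_id`, `Wm_comp`); `PG_M` for `Q = Unit`, `Rel = False`, `F₀ = F`: the family
`ex (MH N) (fun _ => N)`; `PG_between` with `a = some ()`, `c = none`; `PG1_of` at `none` gives `PG1 B r F (evE s N (MH N))` for all `s ∈ 𝓔`.
-/

open Set Topology TopologicalSpace

namespace Pool.DM

variable {J : Type}

/-- The relation with a new element above `c`. -/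
def downR {Q : Type} (Rel : Q → Q → Prop) (c : Q) : Option Q → Option Q → Prop
  | some q, some q' => Rel q q'
  | some q, none => q = c ∨ Rel q c
  | none, _ => False

private theorem ml_trans {Q : Type} {Rel : Q → Q → Prop}
    (ht : ∀ p q s, Rel p q → Rel q s → Rel p s) (c : Q) :
    ∀ p q s : Option Q, downR Rel c p q → downR Rel c q s → downR Rel c p s := by
  intro p q s h1 h2
  cases p with
  | none => exact h1.elim
  | some p =>
    cases q with
    | none => exact h2.elim
    | some q =>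
      cases s with
      | some s => exact ht p q s h1 h2
      | none =>
        right
        rcases h2 with h2 | h2
        · rw [← h2]
          exact h1
        · exact ht p q c h1 h2

private theorem ml_gd {Q : Type} {Rel : Q → Q → Prop} {F : Set J} {A O : Set (Ex J)} {z : Q → H J}
    (h : PG0 (A ∪ O) Rel F z) (q : Q) : Gd A O (z q) := ⟨h.sub q, h.conn q⟩

private theorem pg0_M {F : Set J} {A O : Set (Ex J)} (hx : Ext F A O) {Q : Type}
    {Rel : Q → Q → Prop} (c : Q) {z : Q → H J} (h : PG0 (A ∪ O) Rel F z) :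
    PG0 (A ∪ O) (downR Rel c) F (ex (MH A O (z c)) z) := by
  have hg : Gd A O (z c) := ml_gd h c
  refine ⟨?_, ?_, ?_, ?_⟩
  · intro q
    cases q with
    | none => exact (Gd_MH hx hg).1
    | some q => exact h.sub q
  · intro q
    cases q with
    | none => exact (Gd_MH hx hg).2
    | some q => exact h.conn q
  · intro q σ hσ y hy
    cases q with
    | none => exact M_act hx hg hσ (h.inv c σ hσ) y hy
    | some q => exact h.inv q σ hσ y hy
  · intro q q' hq
    cases q with
    | none => exact hq.elim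
    | some q =>
      cases q' with
      | some q' => exact h.rel q q' hq
      | none =>
        have h1 : z c ≤ MH A O (z c) := le_MH hx hg
        have h2 : z q ≤ z c := by
          rcases hq with hq | hq
          · rw [hq]
          · exact h.rel q c hq
        exact h2.trans h1

/-- Interpolation between the lower bound `u` and `MH u`. -/
private theorem ml_interp {F₀ : Set J} (hF₀ : F₀.Finite) {A O : Set (Ex J)} (hx : Ext F₀ A O)
    {𝓔 : Set (GPr (U J) → H J)} (h𝓔 : IsInt (Wm F₀ (A ∪ O)) 𝓔) (r : ℕ) {F : Set J} (hF : F ⊆ F₀)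
    (ih : ∀ (Q : Type) (Rel : Q → Q → Prop), (∀ p q s, Rel p q → Rel q s → Rel p s) → ∀ (c : Q)
      (z : Q → H J), PG (A ∪ O) Rel r F z →
      PG (A ∪ O) (downR Rel c) r F (ex (MH A O (z c)) z)) {Q : Type} {Rel : Q → Q → Prop}
    (ht : ∀ p q s, Rel p q → Rel q s → Rel p s) (c : Q) {p : Q → H J} {u : H J}
    (h : PG (A ∪ O) (downR Rel c) r F (ex u p)) {s : GPr (U J) → H J} (hs : s ∈ 𝓔) :
    PG (A ∪ O) (downR Rel c) r F (ex (evE s u (MH A O u)) p) := by
  have h1 := ih (Option Q) (downR Rel c) (ml_trans ht c) none (ex u p) h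
  have h2 := PG_between hF₀ hx.union h𝓔 (Rel := downR (downR Rel c) none)
    (ml_trans (ml_trans ht c) none) (a := some none) (c := none) (Or.inl rfl) hF hs h1
  have h3 := PG_sub (Q' := Option Q) (Rel' := downR Rel c)
    (fun o : Option Q => (o.elim none fun q => some (some (some q)) :
      Option (Option (Option Q)))) (fun o o' hoo => by
      right
      cases o with
      | none => exact hoo.elim
      | some q =>
        cases o' with
        | some q' => exact hoo
        | none => exact Or.inr hoo) h2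
  have h4 : (fun o : Option Q => ex (evE s (ex (MH A O (ex u p none)) (ex u p) (some none))
      (ex (MH A O (ex u p none)) (ex u p) none)) (ex (MH A O (ex u p none)) (ex u p))
      (o.elim none fun q => some (some (some q)) : Option (Option (Option Q)))) =
      ex (evE s u (MH A O u)) p := by
    funext o
    cases o <;> rfl
  rw [h4] at h3
  exact h3

private theorem ml_step {F₀ : Set J} (hF₀ : F₀.Finite) {A O : Set (Ex J)} (hx : Ext F₀ A O)
    {𝓔 : Set (GPr (U J) → H J)} (h𝓔 : IsInt (Wm F₀ (A ∪ O)) 𝓔) (r : ℕ) {F : Set J} (hF : F ⊆ F₀)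
    (ih : ∀ (Q : Type) (Rel : Q → Q → Prop), (∀ p q s, Rel p q → Rel q s → Rel p s) → ∀ (c : Q)
      (z : Q → H J), PG (A ∪ O) Rel r F z →
      PG (A ∪ O) (downR Rel c) r F (ex (MH A O (z c)) z)) {Q : Type} {Rel : Q → Q → Prop}
    (ht : ∀ p q s, Rel p q → Rel q s → Rel p s) (c : Q) {b z : Q → H J} {S : Set (Q → H J)}
    (hS : Thr S b z) (hSG : ∀ p ∈ S, PG (A ∪ O) Rel r F p) :
    ∃ 𝒯 : Set ((Q → H J) × H J),
      Thr 𝒯 (b, MH A O (b c)) (z, MH A O (z c)) ∧
      𝒯 ⊆ {x : (Q → H J) × H J | PG (A ∪ O) (downR Rel c) r F (ex x.2 x.1)} ∧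
      ∀ t ∈ 𝒯, t.1 ∈ S := by
  have hg : ∀ p ∈ S, Gd A O (p c) := fun p hp => ml_gd (PG_zero (hSG p hp)) c
  set Φ : (Q → H J) → H J := fun p => MH A O (p c) with hΦ
  set 𝒢 : Set ((Q → H J) × H J) := {x | PG (A ∪ O) (downR Rel c) r F (ex x.2 x.1)} with h𝒢
  have h𝒢c : IsClosed 𝒢 :=
    (isClosed_PG (Q := Option Q) (Rel := downR Rel c) (hF₀.subset hF)
      (hx.union.mono hF) r).preimage continuous_ex
  have hmono : ∀ p ∈ S, ∀ q ∈ S, p ≤ q → Φ p ≤ Φ q := fun p hp q hq hpq =>
    M_mono hx (hg p hp) (hg q hq) (hpq c)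
  have hmem : ∀ p ∈ S, (p, Φ p) ∈ 𝒢 := fun p hp => ih Q Rel ht c p (hSG p hp)
  refine filling hS hmono h𝒢c hmem ?_ ?_
  · intro p hp hpb u hu hpu
    have hu0 : PG0 (A ∪ O) (downR Rel c) F (ex u p) := PG_zero hpu
    have hgu : Gd A O u := ml_gd hu0 none
    have hpn : p c ≤ u := by
      have hl := lub_image (f := fun z : Q → H J => z c)
        (C := {q | q ∈ S ∧ q < p}) (fun x hx y hy => hS.chain x hx.1 y hy.1)
        (hS.below_nonempty hp hpb) (hS.isLUB_below hp hpb) (continuous_apply c)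
        (fun x y hxy => hxy c)
      apply hl.2
      rintro _ ⟨q, hq, rfl⟩
      exact le_trans (le_MH hx (hg q hq.1)) (hu.1 ⟨q, hq, rfl⟩)
    have hup : u ≤ Φ p := by
      apply hu.2
      rintro _ ⟨q, hq, rfl⟩
      exact hmono q hq.1 p hp hq.2.le
    have hid : MH A O u = Φ p := M_idem hx (hg p hp) hgu hpn hup
    have hT := evE_thr_top h𝓔 (le_MH hx hgu) hgu.2 (Gd_MH hx hgu).2
    rw [hid] at hT
    refine ⟨_, hT, ?_⟩
    rintro _ ⟨s, hs, rfl⟩
    have h5 := ml_interp hF₀ hx h𝓔 r hF ih ht c hpu hs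
    rw [hid] at h5
    exact h5
  · intro p hp hpz u hu hpu
    set D : Set (Q → H J) := {q | q ∈ S ∧ p < q} with hD
    have hDn : D.Nonempty := hS.above_nonempty hp hpz
    have hDg : IsGLB D p := hS.isGLB_above hp hpz
    have hDc : ∀ x ∈ D, ∀ y ∈ D, x ≤ y ∨ y ≤ x := fun x hx y hy => hS.chain x hx.1 y hy.1
    have hDi : IsGLB ((fun z : Q → H J => z c) '' D) (p c) :=
      glb_image hDc hDn hDg (continuous_apply c) (fun x y hxy => hxy c)
    have h1 := (M_glb hx (hDn.image _) (by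
      rintro _ ⟨x, hx, rfl⟩ _ ⟨y, hy, rfl⟩
      rcases hDc x hx y hy with h | h
      · exact Or.inl (h c)
      · exact Or.inr (h c)) (by
      rintro _ ⟨x, hx, rfl⟩
      exact hg x hx.1) hDi).2
    rw [image_image] at h1
    have h2 : u = Φ p := hu.unique h1
    rw [h2]
    refine ⟨{Φ p}, thr_singleton _, ?_⟩
    rintro x rfl
    exact hmem p hp

theorem PG_M {F₀ : Set J} (hF₀ : F₀.Finite) {A O : Set (Ex J)} (hx : Ext F₀ A O)
    (ha : ∀ e ∈ O, Act e) {𝓔 : Set (GPr (U J) → H J)} (h𝓔 : IsInt (Wm F₀ (A ∪ O)) 𝓔) (r : ℕ) :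
    ∀ (Q : Type) (Rel : Q → Q → Prop), (∀ p q s, Rel p q → Rel q s → Rel p s) → ∀ (c : Q)
      (F : Set J), F ⊆ F₀ → ∀ z : Q → H J, PG (A ∪ O) Rel r F z →
      PG (A ∪ O) (downR Rel c) r F (ex (MH A O (z c)) z) := by
  induction r with
  | zero =>
    intro Q Rel _ c F hF z hz
    exact pg0_M (hx.mono hF) c hz
  | succ r ih =>
    intro Q Rel ht c F hF z hz
    obtain ⟨hz0, hzi⟩ := hz
    refine ⟨pg0_M (hx.mono hF) c hz0, ?_⟩
    intro i hi
    obtain ⟨ρ, b, S, hS, hb, hsc, hSG⟩ := hzi i hi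
    have hF' : F \ {i} ⊆ F₀ := fun j hj => hF hj.1
    obtain ⟨𝒯, hT, hTG, -⟩ := ml_step hF₀ hx h𝓔 r hF'
      (fun Q Rel ht c z hz => ih Q Rel ht c (F \ {i}) hF' z hz) ht c hS hSG
    have hb0 : PG0 (A ∪ O) Rel (F \ {i}) b := PG_zero (hSG b hS.left)
    have hgb : Gd A O (b c) := ml_gd hb0 c
    have hgz : Gd A O (z c) := ml_gd hz0 c
    refine ⟨ρ, ex (MH A O (b c)) b, (fun x : (Q → H J) × H J => ex x.2 x.1) '' 𝒯,
      hT.image continuous_ex monotone_ex, ?_, ?_, ?_⟩
    · intro q y hy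
      cases q with
      | none =>
        have h1 : tr A y ∈ trH A (MH A O (b c)) := (mem_mapH (continuous_tr A) _ _).2 ⟨y, hy, rfl⟩
        rw [M_tr hx hgb] at h1
        obtain ⟨y', hy', h2⟩ := (mem_mapH (continuous_tr A) _ _).1 h1
        have h3 : y.1 = y'.1 := by
          rw [← tr_fst A y, ← tr_fst A y', h2]
        rw [h3]
        exact hb c y' hy'
      | some q => exact hb q y hy
    · intro q y hy
      cases q with
      | none => exact M_sc hx ha (hF hi) hgz hgb (hsc c) y hy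
      | some q => exact hsc q y hy
    · rintro _ ⟨x, hx', rfl⟩
      exact hTG hx'

theorem thr_M {F : Set J} (hF : F.Finite) {A O : Set (Ex J)} (hx : Ext F A O)
    (ha : ∀ e ∈ O, Act e) {r : ℕ} {N : H J} (h : PG1 (A ∪ O) r F N) :
    ∃ S : Set (H J), Thr S N (MH A O N) ∧ ∀ p ∈ S, PG1 (A ∪ O) r F p := by
  obtain ⟨𝓔, h𝓔⟩ := exists_int (Wm_finite hF hx.union.fin) (Wm_cont (F := F) (A := A ∪ O)) Wm_id
    Wm_comp
  have h0 : PG0 (A ∪ O) (fun _ _ : Unit => False) F (fun _ => N) := PG_zero h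
  have hg : Gd A O N := ml_gd h0 ()
  have h1 := PG_M hF hx ha h𝓔 r Unit (fun _ _ => False) (fun _ _ _ h => h.elim) () F
    Set.Subset.rfl (fun _ => N) h
  refine ⟨(fun s : GPr (U J) → H J => evE s N (MH A O N)) '' 𝓔,
    evE_thr_top h𝓔 (le_MH hx hg) hg.2 (Gd_MH hx hg).2, ?_⟩
  rintro _ ⟨s, hs, rfl⟩
  have h2 := PG_between hF hx.union h𝓔 (Rel := downR (fun _ _ : Unit => False) ())
    (ml_trans (fun _ _ _ h => h.elim) ()) (a := some ()) (c := none) (Or.inl rfl)
    Set.Subset.rfl hs h1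
  exact PG1_of h2 none

end Pool.DM
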