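import Pool.Agent.Helper84.DM.Lev

/-!
# DM-Mon: the finite monoid of maps of a level

`Wm F A` : the maps `w : U J → U J` (besides `id`) such that: letters outside `F` are fixed, a letter coordinate
`j ∈ F` becomes a letter coordinate `k ∈ F` or `0`; the value of `e ∈ A` at `w y` is the value of some `e' ∈ A` at `y`;
the fold coordinate of `e ∈ A` at `w y` is `p5 (val t y)` with `t ∈ Cod A` (a finite set), and it is `p5 0` for `e ∉ A`.

`Wm_finite`: `w ≠ id` is determined by the choice, for `j ∈ F`, of an element of `F` or of `0`, and for `e ∈ A` of an element of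
`Cod A`: finitely many choices.

`Wm_comp`: `w, v` both of the second kind. Letters: clear. `val e (w (v y)) = val e' (v y) = val e'' y`. Fold coordinates:
`(w (v y)).2 e = p5 (val t (v y))`, `t ∈ Cod A`: if `t = fo e'` then `val t (v y) = ((v y).2 e' : ℝ)` with
`(v y).2 e' = p5 (val t' y)`, and `p5 (p5 s) = p5 s` (`p5_coe`); if `t = ad (cl e') (cn (±2))`, then `val t (v y) = clip (val e' (v y)) ± 2
= clip (val e'' y) ± 2 = val (ad (cl e'') (cn (±2))) y`; `t = cn 0` is clear.

`act_mem_Wm`: `val e (tr A (act σ y)) = val e (act σ y) = val (e.map σ.symm) y` (`val_tr`, `val_act`), the fold coordinate of `e ∈ A` is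
`y.2 (e.map σ.symm) = p5 (val (fo (e.map σ.symm)) y)`.

`sc_mem_Wm`: `val_sc` (`sb i ρ e ∈ A` if `i ∈ ls e`, and `sb i ρ e = e` otherwise), `sc_mem`, and `sb i ρ (.fo e) ∈ Cod A` by the definition of `sb`.
-/

open Set Topology TopologicalSpace

namespace Pool.DM

variable {J : Type}

/-- The possible fold coordinates. -/
def Cod (A : Set (Ex J)) : Set (Ex J) :=
  {.cn 0} ∪ {t | ∃ e ∈ A, t = .fo e ∨ t = .ad (cl e) (.cn 2) ∨ t = .ad (cl e) (.cn (-2))}

/-- The finite monoid of the level `A` for the letters in `F`. -/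
def Wm (F : Set J) (A : Set (Ex J)) : Set (U J → U J) :=
  {w | w = id ∨ ((∀ j, j ∉ F → ∀ y, (w y).1 j = y.1 j) ∧
    (∀ j ∈ F, (∃ k ∈ F, ∀ y, (w y).1 j = y.1 k) ∨ ∀ y, (w y).1 j = 0) ∧
    (∀ e ∈ A, ∃ e' ∈ A, ∀ y, val e (w y) = val e' y) ∧
    (∀ e ∈ A, ∃ t ∈ Cod A, ∀ y, (w y).2 e = p5 (val t y)) ∧
    ∀ e, e ∉ A → ∀ y, (w y).2 e = p5 0)}

theorem Wm_finite {F : Set J} {A : Set (Ex J)} (hF : F.Finite) (hA : A.Finite) :
    (Wm F A).Finite := by
  classical
  have hCod : (Cod A).Finite := by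
    refine (Set.finite_singleton _).union ?_
    refine ((hA.image (fun e => Ex.fo e)).union
      ((hA.image (fun e => Ex.ad (cl e) (.cn 2))).union
        (hA.image (fun e => Ex.ad (cl e) (.cn (-2)))))).subset ?_
    rintro t ⟨e, he, h | h | h⟩
    · exact Or.inl ⟨e, he, h.symm⟩
    · exact Or.inr (Or.inl ⟨e, he, h.symm⟩)
    · exact Or.inr (Or.inr ⟨e, he, h.symm⟩)
  have : Finite F := hF.to_subtype
  have : Finite A := hA.to_subtype
  have : Finite (Cod A) := hCod.to_subtype
  let g : (F → Option F) × (A → Cod A) → (U J → U J) := fun c y =>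
    (fun j => if h : j ∈ F then (c.1 ⟨j, h⟩).elim 0 (fun k => y.1 k) else y.1 j,
      fun e => if h : e ∈ A then p5 (val (c.2 ⟨e, h⟩ : Ex J) y) else p5 0)
  refine ((Set.finite_singleton id).union (Set.finite_range g)).subset ?_
  rintro w (h0 | ⟨h1, h2, -, h4, h5⟩)
  · exact Or.inl h0
  · right
    have h2' : ∀ j : F, ∃ o : Option F, ∀ y : U J, (w y).1 j = o.elim 0 (fun k => y.1 k) := by
      rintro ⟨j, hj⟩
      rcases h2 j hj with ⟨k, hk, h⟩ | h
      · exact ⟨some ⟨k, hk⟩, h⟩
      · exact ⟨none, h⟩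
    have h4' : ∀ e : A, ∃ t : Cod A, ∀ y : U J, (w y).2 e = p5 (val (t : Ex J) y) := by
      rintro ⟨e, he⟩
      obtain ⟨t, ht, h⟩ := h4 e he
      exact ⟨⟨t, ht⟩, h⟩
    choose o ho using h2'
    choose t ht using h4'
    refine ⟨(o, t), ?_⟩
    funext y
    refine Prod.ext (funext fun j => ?_) (funext fun e => ?_)
    · show (if h : j ∈ F then (o ⟨j, h⟩).elim 0 (fun k => y.1 k) else y.1 j) = (w y).1 j
      by_cases h : j ∈ F
      · rw [dif_pos h]
        exact (ho ⟨j, h⟩ y).symm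
      · rw [dif_neg h]
        exact (h1 j h y).symm
    · show (if h : e ∈ A then p5 (val (t ⟨e, h⟩ : Ex J) y) else p5 0) = (w y).2 e
      by_cases h : e ∈ A
      · rw [dif_pos h]
        exact (ht ⟨e, h⟩ y).symm
      · rw [dif_neg h]
        exact (h5 e h y).symm

theorem Wm_cont {F : Set J} {A : Set (Ex J)} : ∀ w ∈ Wm F A, Continuous w := by
  rintro w (h0 | ⟨h1, h2, -, h4, h5⟩)
  · rw [h0]
    exact continuous_id
  · refine Continuous.prodMk (continuous_pi fun j => ?_) (continuous_pi fun e => ?_)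
    · by_cases h : j ∈ F
      · rcases h2 j h with ⟨k, -, hk⟩ | h0
        · have h6 : (fun y : U J => (w y).1 j) = fun y => y.1 k := funext hk
          rw [h6]
          exact (continuous_apply k).comp continuous_fst
        · have h6 : (fun y : U J => (w y).1 j) = fun _ => 0 := funext h0
          rw [h6]
          exact continuous_const
      · have h6 : (fun y : U J => (w y).1 j) = fun y => y.1 j := funext (h1 j h)
        rw [h6]
        exact (continuous_apply j).comp continuous_fst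
    · by_cases h : e ∈ A
      · obtain ⟨t, -, ht⟩ := h4 e h
        have h6 : (fun y : U J => (w y).2 e) = fun y => p5 (val t y) := funext ht
        rw [h6]
        exact continuous_p5.comp (continuous_val t)
      · have h6 : (fun y : U J => (w y).2 e) = fun _ => p5 0 := funext (h5 e h)
        rw [h6]
        exact continuous_const

theorem Wm_id {F : Set J} {A : Set (Ex J)} : (id : U J → U J) ∈ Wm F A := by
  exact Or.inl rfl

theorem Wm_comp {F : Set J} {A : Set (Ex J)} : ∀ w ∈ Wm F A, ∀ v ∈ Wm F A, w ∘ v ∈ Wm F A := by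
  intro w hw v hv
  rcases hw with h0 | ⟨h1, h2, h3, h4, h5⟩
  · rw [h0]
    exact hv
  · rcases hv with k0 | ⟨k1, k2, k3, k4, k5⟩
    · rw [k0]
      exact Or.inr ⟨h1, h2, h3, h4, h5⟩
    · refine Or.inr ⟨?_, ?_, ?_, ?_, ?_⟩
      · intro j hj y
        exact (h1 j hj (v y)).trans (k1 j hj y)
      · intro j hj
        rcases h2 j hj with ⟨k, hk, hk'⟩ | h
        · rcases k2 k hk with ⟨l, hl, hl'⟩ | h
          · exact Or.inl ⟨l, hl, fun y => (hk' (v y)).trans (hl' y)⟩
          · exact Or.inr fun y => (hk' (v y)).trans (h y)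
        · exact Or.inr fun y => h (v y)
      · intro e he
        obtain ⟨e', he', h⟩ := h3 e he
        obtain ⟨e'', he'', h'⟩ := k3 e' he'
        exact ⟨e'', he'', fun y => (h (v y)).trans (h' y)⟩
      · intro e he
        obtain ⟨t, ht, h⟩ := h4 e he
        rcases ht with ht | ⟨e', he', ht | ht | ht⟩
        · refine ⟨.cn 0, Or.inl rfl, fun y => (h (v y)).trans ?_⟩
          rw [ht]
          rfl
        · obtain ⟨t', ht', h'⟩ := k4 e' he'
          refine ⟨t', ht', fun y => (h (v y)).trans ?_⟩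
          rw [ht]
          show p5 (((v y).2 e' : I5) : ℝ) = _
          rw [p5_coe]
          exact h' y
        · obtain ⟨e'', he'', h'⟩ := k3 e' he'
          refine ⟨.ad (cl e'') (.cn 2), Or.inr ⟨e'', he'', Or.inr (Or.inl rfl)⟩,
            fun y => (h (v y)).trans ?_⟩
          rw [ht]
          show p5 (val (cl e') (v y) + ((2 : ℚ) : ℝ)) = p5 (val (cl e'') y + ((2 : ℚ) : ℝ))
          rw [val_cl, val_cl, h' y]
        · obtain ⟨e'', he'', h'⟩ := k3 e' he'
          refine ⟨.ad (cl e'') (.cn (-2)), Or.inr ⟨e'', he'', Or.inr (Or.inr rfl)⟩,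
            fun y => (h (v y)).trans ?_⟩
          rw [ht]
          show p5 (val (cl e') (v y) + ((-2 : ℚ) : ℝ)) = p5 (val (cl e'') y + ((-2 : ℚ) : ℝ))
          rw [val_cl, val_cl, h' y]
      · intro e he y
        exact h5 e he (v y)

theorem act_mem_Wm {F : Set J} {A : Set (Ex J)} (hA : Lev F A) {σ : Equiv.Perm J}
    (hσ : σ ∈ PF F) : (fun y => tr A (act σ y)) ∈ Wm F A := by
  refine Or.inr ⟨?_, ?_, ?_, ?_, ?_⟩
  · intro j hj y
    show (tr A (act σ y)).1 j = y.1 j
    rw [tr_fst, act_fst, PF_symm hσ j hj]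
  · intro j hj
    refine Or.inl ⟨σ.symm j, PF_maps (PF_symm hσ) hj, fun y => ?_⟩
    show (tr A (act σ y)).1 j = y.1 (σ.symm j)
    rw [tr_fst, act_fst]
  · intro e he
    refine ⟨e.map σ.symm, hA.inv _ (PF_symm hσ) e he, fun y => ?_⟩
    show val e (tr A (act σ y)) = _
    rw [val_tr (hA.clo e he), val_act]
  · intro e he
    refine ⟨.fo (e.map σ.symm),
      Or.inr ⟨e.map σ.symm, hA.inv _ (PF_symm hσ) e he, Or.inl rfl⟩, fun y => ?_⟩
    show (tr A (act σ y)).2 e = p5 ((y.2 (e.map σ.symm) : I5) : ℝ)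
    rw [tr_mem he, act_snd, p5_coe]
  · intro e he y
    exact tr_notMem he _

theorem sc_mem_Wm {F : Set J} {A : Set (Ex J)} (hA : Lev F A) {i : J} (hi : i ∈ F)
    (ρ : Ex J → Ru) : sc i ρ A ∈ Wm F A := by
  refine Or.inr ⟨?_, ?_, ?_, ?_, ?_⟩
  · intro j hj y
    refine sc_fst_ne ?_ ρ A y
    rintro rfl
    exact hj hi
  · intro j hj
    by_cases h : j = i
    · right
      intro y
      rw [h]
      exact sc_fst_self i ρ A y
    · exact Or.inl ⟨j, hj, fun y => sc_fst_ne h ρ A y⟩
  · intro e he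
    by_cases h : i ∈ ls e
    · exact ⟨sb i ρ e, hA.sbs i hi e he h ρ, fun y => val_sc (hA.clo e he) y⟩
    · refine ⟨e, he, fun y => ?_⟩
      rw [val_sc (hA.clo e he) y, sb_of_notMem ρ h]
  · intro e he
    refine ⟨sb i ρ (.fo e), ?_, fun y => sc_mem he y⟩
    by_cases h : i ∈ ls e
    · have h1 : sb i ρ e ∈ A := hA.sbs i hi e he h ρ
      rw [sb, if_neg (not_not.2 h)]
      rcases hr : ρ e with _ | _ | _ | _
      · exact Or.inr ⟨_, h1, Or.inl rfl⟩
      · exact Or.inr ⟨_, h1, Or.inr (Or.inl rfl)⟩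
      · exact Or.inr ⟨_, h1, Or.inr (Or.inr rfl)⟩
      · exact Or.inl rfl
    · have h2 : sb i ρ (.fo e) = .fo e := by
        rw [sb, if_pos h]
      rw [h2]
      exact Or.inr ⟨e, he, Or.inl rfl⟩
  · intro e he y
    exact sc_notMem he y

/-- There are only finitely many section maps of a level. -/
theorem sc_finite {F : Set J} (hF : F.Finite) {A : Set (Ex J)} (hA : Lev F A) {i : J}
    (hi : i ∈ F) : {w : U J → U J | ∃ ρ, w = sc i ρ A}.Finite := by
  refine (Wm_finite hF hA.fin).subset ?_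
  rintro w ⟨ρ, rfl⟩
  exact sc_mem_Wm hA hi ρ

end Pool.DM
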