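import Pool.Agent.Helper84.DM.Hy

/-!
# DM-OpB: interpolation operators, the refinement step

`X` compact Hausdorff, `W` a finite set of continuous maps `X → X`, closed under composition, containing
`id`. `GPr X` is the set of the pairs `(A, B)` of continua, `A ≤ B`. An operator `E` assigns to `(A, B)` a
continuum `A ≤ E (A, B) ≤ B` such that `w '' E (A, B) ⊆ E (A', B')` whenever `w ∈ W`, `w '' A ⊆ A'`, `w '' B ⊆ B'`.

`isClosed_isOp`: intersection of closed conditions on `E` in the product space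
(`isClosed_conn`, order closed, `w '' E p ⊆ E q` is `(E p).map w ≤ E q`).

`op_between`: `E₁ ≤ E₂` operators, `E₁ ≠ E₂`. Choose `p₀ = (A₀, B₀)` with `E₁ p₀ ≠ E₂ p₀` and
`y₀ ∈ E₂ p₀ \ E₁ p₀`, and a continuous `g : X → [0,1]` with `g = 0` on `E₁ p₀`, `g y₀ = 1`
(`exists_continuous_zero_one_of_isClosed`). For `p = (A, B)` let `W p = {w ∈ W | w '' A ⊆ A₀, w '' B ⊆ B₀}` and
`G p = {y ∈ E₂ p | ∀ w ∈ W p, g (w y) ≤ 1/2}`, a closed set. `E₁ p ⊆ G p`: for `y ∈ E₁ p`, `w ∈ W p`, `w y ∈ E₁ p₀`, `g (w y) = 0`.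
Let `E p` be the component of `G p` that contains the connected set `E₁ p` (closed:
`H64DN.component_closed`; take the component of some point of `E₁ p`,
`IsPreconnected.subset_connectedComponentIn`). `E₁ p ≤ E p ≤ E₂ p`.

`equi`: let `v ∈ W`, `v '' A ⊆ A'`, `v '' B ⊆ B'`, `p = (A, B)`, `p' = (A', B')`, `y ∈ E p`. Then `v y ∈ E₂ p'` and for `w ∈ W p'`:
`w ∘ v ∈ W p`, so `g (w (v y)) ≤ 1/2`. So `v '' E p ⊆ G p'`; it is connected and meets `E₁ p'` (`v '' E₁ p ⊆ E₁ p'`), so it is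
contained in `E p'`.

`E ≠ E₂`: `id ∈ W p₀` and `g y₀ = 1`, so `y₀ ∉ E p₀`. `E ≠ E₁`: the set `V = {y | ∀ w ∈ W p₀, g (w y) < 1/2}` is open
(`W` finite), `E₂ p₀ ∩ V ⊆ G p₀`, `y₀ ∉ V`; by `H64DN.bump` (with `Y = E₂ p₀`, `A = G p₀`, `V`, `z ∈ E₁ p₀`, `y = y₀`) the component
`E p₀` is not contained in `V`; but `E₁ p₀ ⊆ V`.
-/

open Set Topology TopologicalSpace

namespace Pool.DM

variable {X : Type*} [TopologicalSpace X] [CompactSpace X] [T2Space X]

/-- relatively clopen subsets of `A` (universe polymorphic copy of `H64DN.RC`) -/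
private def RCu {X : Type*} [TopologicalSpace X] (A U : Set X) : Prop :=
  U ⊆ A ∧ IsClosed U ∧ IsClosed (A \ U)

private theorem h19_rc_inter {A U V : Set X} (hU : RCu A U) (hV : RCu A V) : RCu A (U ∩ V) := by
  refine ⟨fun x hx => hU.1 hx.1, hU.2.1.inter hV.2.1, ?_⟩
  rw [Set.sdiff_inter]
  exact hU.2.2.union hV.2.2

private theorem h19_component_eq {A : Set X} (hA : IsClosed A) {z : X}
    (hz : z ∈ A) : connectedComponentIn A z = {w | ∀ U, RCu A U → z ∈ U → w ∈ U} := by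
  have : CompactSpace A := isCompact_iff_compactSpace.1 hA.isCompact
  rw [connectedComponentIn_eq_image hz, connectedComponent_eq_iInter_isClopen]
  ext w
  constructor
  · rintro ⟨w', hw', rfl⟩ U hU hzU
    rw [Set.mem_iInter] at hw'
    have h1 : IsClopen ((↑) ⁻¹' U : Set A) := by
      refine ⟨hU.2.1.preimage continuous_subtype_val, ?_⟩
      rw [← isClosed_compl_iff]
      have h2 : ((↑) ⁻¹' U : Set A)ᶜ = (↑) ⁻¹' (A \ U) := by
        ext x
        simp
      rw [h2]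
      exact hU.2.2.preimage continuous_subtype_val
    exact hw' ⟨_, h1, hzU⟩
  · intro hw
    have hwA : w ∈ A := hw A ⟨subset_rfl, hA, by rw [Set.sdiff_self]; exact isClosed_empty⟩ hz
    refine ⟨⟨w, hwA⟩, ?_, rfl⟩
    rw [Set.mem_iInter]
    rintro ⟨s, hs, hzs⟩
    have hmap := hA.isClosedEmbedding_subtypeVal.isClosedMap
    have h1 : RCu A ((↑) '' s) := by
      refine ⟨?_, hmap s hs.isClosed, ?_⟩
      · rintro _ ⟨x, _, rfl⟩
        exact x.2
      · have h2 : A \ ((↑) '' s) = (↑) '' sᶜ := by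
          ext x
          constructor
          · rintro ⟨hx, hx'⟩
            exact ⟨⟨x, hx⟩, fun h => hx' ⟨_, h, rfl⟩, rfl⟩
          · rintro ⟨y, hy, rfl⟩
            refine ⟨y.2, ?_⟩
            rintro ⟨y', hy', he⟩
            rw [Subtype.val_injective he] at hy'
            exact hy hy'
        rw [h2]
        exact hmap _ hs.compl.isClosed
    obtain ⟨y, hy, he⟩ := hw _ h1 ⟨_, hzs, rfl⟩
    have h3 : y = ⟨w, hwA⟩ := Subtype.ext he
    rw [← h3]
    exact hy

private theorem h19_component_between {A : Set X} (hA : IsClosed A) {z : X}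
    (hz : z ∈ A) {V : Set X} (hV : IsOpen V) (h : connectedComponentIn A z ⊆ V) :
    ∃ U, RCu A U ∧ z ∈ U ∧ U ⊆ V := by
  rw [h19_component_eq hA hz] at h
  have hne : Nonempty {U : Set X // RCu A U ∧ z ∈ U} :=
    ⟨⟨A, ⟨subset_rfl, hA, by rw [Set.sdiff_self]; exact isClosed_empty⟩, hz⟩⟩
  obtain ⟨⟨U, hU, hzU⟩, hUV⟩ := exists_subset_nhds_of_isCompact' (ι := {U : Set X // RCu A U ∧ z ∈ U})
    (V := fun U => U.1) (U := V)
    (by
      rintro ⟨U, hU, hzU⟩ ⟨U', hU', hzU'⟩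
      exact ⟨⟨U ∩ U', h19_rc_inter hU hU', hzU, hzU'⟩, Set.inter_subset_left, Set.inter_subset_right⟩)
    (fun U => U.2.1.2.1.isCompact) (fun U => U.2.1.2.1)
    (by
      intro x hx
      refine hV.mem_nhds (h ?_)
      intro U hU hzU
      exact Set.mem_iInter.1 hx ⟨U, hU, hzU⟩)
  exact ⟨U, hU, hzU, hUV⟩

private theorem h19_component_closed {A : Set X} (hA : IsClosed A) (z : X) :
    IsClosed (connectedComponentIn A z) := by
  by_cases hz : z ∈ A
  · rw [h19_component_eq hA hz]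
    have h1 : {w | ∀ U, RCu A U → z ∈ U → w ∈ U} =
        ⋂ U : {U : Set X // RCu A U ∧ z ∈ U}, U.1 := by
      ext w
      simp only [Set.mem_ofPred_eq, Set.mem_iInter]
      constructor
      · rintro h ⟨U, hU, hzU⟩
        exact h U hU hzU
      · intro h U hU hzU
        exact h ⟨U, hU, hzU⟩
    rw [h1]
    exact isClosed_iInter fun U => U.2.1.2.1
  · rw [connectedComponentIn_eq_empty hz]
    exact isClosed_empty

private theorem h19_bump {Y A V : Set X} (hY : IsClosed Y)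
    (hYp : IsPreconnected Y) (hA : IsClosed A) (hAY : A ⊆ Y) (hV : IsOpen V) (hVA : Y ∩ V ⊆ A)
    {z : X} (hz : z ∈ Y ∩ V) {y : X} (hy : y ∈ Y) (hyV : y ∉ V) :
    ¬ connectedComponentIn A z ⊆ V := by
  intro h
  have hzA : z ∈ A := hVA hz
  obtain ⟨U, hU, hzU, hUV⟩ := h19_component_between hA hzA hV h
  have h1 := (isPreconnected_iff_subset_of_disjoint_closed.1 hYp) U ((A \ U) ∪ (Y ∩ Vᶜ)) hU.2.1
    (hU.2.2.union (hY.inter hV.isClosed_compl))
    (by
      intro x hx
      by_cases hxV : x ∈ V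
      · have hxA : x ∈ A := hVA ⟨hx, hxV⟩
        by_cases hxU : x ∈ U
        · exact Or.inl hxU
        · exact Or.inr (Or.inl ⟨hxA, hxU⟩)
      · exact Or.inr (Or.inr ⟨hx, hxV⟩))
    (by
      ext x
      constructor
      · rintro ⟨_, hxU, h2⟩
        rcases h2 with h2 | h2
        · exact (h2.2 hxU).elim
        · exact (h2.2 (hUV hxU)).elim
      · intro h2
        exact h2.elim)
  rcases h1 with h1 | h1
  · exact hyV (hUV (h1 hy))
  · rcases h1 hz.1 with h2 | h2
    · exact h2.2 hzU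
    · exact h2.2 hz.2

/-- The pairs of continua `A ≤ B`. -/
abbrev GPr (X : Type*) [TopologicalSpace X] : Type _ :=
  {p : NonemptyCompacts X × NonemptyCompacts X //
    p.1 ≤ p.2 ∧ IsConnected (p.1 : Set X) ∧ IsConnected (p.2 : Set X)}

/-- Interpolation operators, equivariant under the maps in `W`. -/
structure IsOp (W : Set (X → X)) (E : GPr X → NonemptyCompacts X) : Prop where
  conn : ∀ p, IsConnected (E p : Set X)
  low : ∀ p : GPr X, p.1.1 ≤ E p
  high : ∀ p : GPr X, E p ≤ p.1.2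
  equi : ∀ w ∈ W, ∀ p q : GPr X, (∀ x ∈ p.1.1, w x ∈ q.1.1) → (∀ x ∈ p.1.2, w x ∈ q.1.2) →
    ∀ x ∈ E p, w x ∈ E q

theorem isClosed_isOp {W : Set (X → X)} (hW : ∀ w ∈ W, Continuous w) :
    IsClosed {E : GPr X → NonemptyCompacts X | IsOp W E} := by
  have heq : {E : GPr X → NonemptyCompacts X | IsOp W E} =
      (⋂ p : GPr X, {E : GPr X → NonemptyCompacts X | IsConnected (E p : Set X)}) ∩
      ((⋂ p : GPr X, {E : GPr X → NonemptyCompacts X | p.1.1 ≤ E p}) ∩
      ((⋂ p : GPr X, {E : GPr X → NonemptyCompacts X | E p ≤ p.1.2}) ∩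
      (⋂ w : W, ⋂ p : GPr X, ⋂ q : GPr X, {E : GPr X → NonemptyCompacts X |
        (∀ x ∈ p.1.1, w.1 x ∈ q.1.1) → (∀ x ∈ p.1.2, w.1 x ∈ q.1.2) →
          (E p).map w.1 (hW w.1 w.2) ≤ E q}))) := by
    ext E
    simp only [mem_inter_iff, mem_iInter, mem_ofPred_eq]
    constructor
    · intro h
      refine ⟨h.conn, h.low, h.high, fun w p q h1 h2 => ?_⟩
      rw [le_iff_sub]
      intro y hy
      obtain ⟨x, hx, rfl⟩ := (mem_mapH (hW w.1 w.2) (E p) y).1 hy
      exact h.equi w.1 w.2 p q h1 h2 x hx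
    · rintro ⟨h1, h2, h3, h4⟩
      refine ⟨h1, h2, h3, fun w hw p q h5 h6 x hx => ?_⟩
      have h7 := le_iff_sub.1 (h4 ⟨w, hw⟩ p q h5 h6)
      exact h7 ((mem_mapH (hW w hw) (E p) (w x)).2 ⟨x, hx, rfl⟩)
  rw [heq]
  refine IsClosed.inter (isClosed_iInter fun p => ?_) (IsClosed.inter (isClosed_iInter fun p => ?_)
    (IsClosed.inter (isClosed_iInter fun p => ?_) (isClosed_iInter fun w =>
      isClosed_iInter fun p => isClosed_iInter fun q => ?_)))
  · exact IsClosed.preimage (f := fun E : GPr X → NonemptyCompacts X => E p)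
      (continuous_apply p) isClosed_conn
  · exact isClosed_le continuous_const (continuous_apply p)
  · exact isClosed_le (continuous_apply p) continuous_const
  · by_cases h1 : ∀ x ∈ p.1.1, w.1 x ∈ q.1.1
    · by_cases h2 : ∀ x ∈ p.1.2, w.1 x ∈ q.1.2
      · have h3 : {E : GPr X → NonemptyCompacts X |
            (∀ x ∈ p.1.1, w.1 x ∈ q.1.1) → (∀ x ∈ p.1.2, w.1 x ∈ q.1.2) →
              (E p).map w.1 (hW w.1 w.2) ≤ E q} =
            {E | (E p).map w.1 (hW w.1 w.2) ≤ E q} := by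
          ext E
          exact ⟨fun h => h h1 h2, fun h _ _ => h⟩
        rw [h3]
        exact isClosed_le ((Continuous.nonemptyCompacts_map (hW w.1 w.2)).comp
          (continuous_apply p)) (continuous_apply q)
      · have h3 : {E : GPr X → NonemptyCompacts X |
            (∀ x ∈ p.1.1, w.1 x ∈ q.1.1) → (∀ x ∈ p.1.2, w.1 x ∈ q.1.2) →
              (E p).map w.1 (hW w.1 w.2) ≤ E q} = univ := by
          ext E
          exact ⟨fun _ => mem_univ _, fun _ _ h => absurd h h2⟩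
        rw [h3]
        exact isClosed_univ
    · have h3 : {E : GPr X → NonemptyCompacts X |
          (∀ x ∈ p.1.1, w.1 x ∈ q.1.1) → (∀ x ∈ p.1.2, w.1 x ∈ q.1.2) →
            (E p).map w.1 (hW w.1 w.2) ≤ E q} = univ := by
        ext E
        exact ⟨fun _ => mem_univ _, fun _ h => absurd h h1⟩
      rw [h3]
      exact isClosed_univ

theorem op_between {W : Set (X → X)} (hfin : W.Finite) (hW : ∀ w ∈ W, Continuous w)
    (hid : id ∈ W) (hcomp : ∀ w ∈ W, ∀ v ∈ W, w ∘ v ∈ W) {E₁ E₂ : GPr X → NonemptyCompacts X}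
    (h₁ : IsOp W E₁) (h₂ : IsOp W E₂) (hle : E₁ ≤ E₂) (hne : E₁ ≠ E₂) :
    ∃ E, IsOp W E ∧ E₁ ≤ E ∧ E ≤ E₂ ∧ E ≠ E₁ ∧ E ≠ E₂ := by
  obtain ⟨p₀, hp₀⟩ := Function.ne_iff.1 hne
  obtain ⟨y₀, hy₀, hy₁⟩ : ∃ y, y ∈ E₂ p₀ ∧ y ∉ E₁ p₀ := by
    by_contra hno
    push Not at hno
    exact hp₀ (le_antisymm (hle p₀) (le_iff_sub.2 hno))
  have hcl : ∀ K : NonemptyCompacts X, IsClosed (K : Set X) := fun K => K.isCompact.isClosed
  obtain ⟨g, hg0, hg1, -⟩ := exists_continuous_zero_one_of_isClosed (hcl (E₁ p₀))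
    (isClosed_singleton (x := y₀)) (by
      rw [Set.disjoint_singleton_right]
      exact hy₁)
  have hgy : g y₀ = 1 := hg1 rfl
  -- the condition on a pair and a map
  let cd : GPr X → (X → X) → Prop := fun p w =>
    (∀ x ∈ p.1.1, w x ∈ p₀.1.1) ∧ (∀ x ∈ p.1.2, w x ∈ p₀.1.2)
  have hzero : ∀ p w, w ∈ W → cd p w → ∀ y ∈ E₁ p, g (w y) = 0 := by
    intro p w hw hc y hy
    exact hg0 (h₁.equi w hw p p₀ hc.1 hc.2 y hy)
  let Gp : GPr X → Set X := fun p => {y | y ∈ E₂ p ∧ ∀ w ∈ W, cd p w → g (w y) ≤ 1 / 2}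
  have hGc : ∀ p, IsClosed (Gp p) := by
    intro p
    have h1 : Gp p = (E₂ p : Set X) ∩ ⋂ w ∈ W, ⋂ _ : cd p w, {y | g (w y) ≤ 1 / 2} := by
      ext y
      simp only [Gp, mem_ofPred_eq, mem_inter_iff, mem_iInter]
      rfl
    rw [h1]
    refine (hcl _).inter (isClosed_biInter fun w hw => isClosed_iInter fun _ => ?_)
    exact isClosed_le (g.continuous.comp (hW w hw)) continuous_const
  have hG1 : ∀ p, (E₁ p : Set X) ⊆ Gp p := by
    intro p y hy
    refine ⟨le_iff_sub.1 (hle p) hy, fun w hw hc => ?_⟩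
    rw [hzero p w hw hc y hy]
    norm_num
  choose z hz using fun p : GPr X => (E₁ p).nonempty
  let Cp : GPr X → Set X := fun p => connectedComponentIn (Gp p) (z p)
  have hC1 : ∀ p, (E₁ p : Set X) ⊆ Cp p := fun p =>
    (h₁.conn p).isPreconnected.subset_connectedComponentIn (hz p) (hG1 p)
  have hCG : ∀ p, Cp p ⊆ Gp p := fun p => connectedComponentIn_subset _ _
  have hCc : ∀ p, IsClosed (Cp p) := fun p => h19_component_closed (hGc p) (z p)
  let E : GPr X → NonemptyCompacts X := fun p =>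
    ⟨⟨Cp p, (hCc p).isCompact⟩, ⟨z p, hC1 p (hz p)⟩⟩
  have hEm : ∀ p x, x ∈ E p ↔ x ∈ Cp p := fun p x => Iff.rfl
  have hEc : ∀ p, (E p : Set X) = Cp p := fun p => rfl
  have hop : IsOp W E := by
    refine ⟨fun p => ?_, fun p => ?_, fun p => ?_, fun v hv p q hpq1 hpq2 x hx => ?_⟩
    · rw [hEc]
      exact isConnected_connectedComponentIn_iff.2 (hG1 p (hz p))
    · exact (h₁.low p).trans (le_iff_sub.2 (hC1 p))
    · exact le_trans (le_iff_sub.2 fun x hx => (hCG p hx).1) (h₂.high p)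
    · rw [hEm] at hx ⊢
      have hvz : v (z p) ∈ E₁ q := h₁.equi v hv p q hpq1 hpq2 _ (hz p)
      have h1 : Cp q = connectedComponentIn (Gp q) (v (z p)) :=
        connectedComponentIn_eq (hC1 q hvz)
      have h2 : v '' Cp p ⊆ Gp q := by
        rintro _ ⟨y, hy, rfl⟩
        refine ⟨h₂.equi v hv p q hpq1 hpq2 y (hCG p hy).1, fun w hw hc => ?_⟩
        exact (hCG p hy).2 (w ∘ v) (hcomp w hw v hv)
          ⟨fun x hx => hc.1 _ (hpq1 x hx), fun x hx => hc.2 _ (hpq2 x hx)⟩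
      have h3 : IsPreconnected (v '' Cp p) :=
        isPreconnected_connectedComponentIn.image v (hW v hv).continuousOn
      have h4 := h3.subset_connectedComponentIn (mem_image_of_mem v (hC1 p (hz p))) h2
      rw [h1]
      exact h4 (mem_image_of_mem v hx)
  refine ⟨E, hop, fun p => le_iff_sub.2 (hC1 p), fun p => le_iff_sub.2 fun x hx => (hCG p hx).1,
    ?_, ?_⟩
  · intro he
    let V : Set X := {y | ∀ w ∈ W, cd p₀ w → g (w y) < 1 / 2}
    have hV : IsOpen V := by
      have h1 : V = ⋂ w ∈ W, {y | cd p₀ w → g (w y) < 1 / 2} := by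
        ext y
        simp only [V, mem_ofPred_eq, mem_iInter]
      rw [h1]
      refine hfin.isOpen_biInter fun w hw => ?_
      by_cases hc : cd p₀ w
      · have h2 : {y | cd p₀ w → g (w y) < 1 / 2} = {y | g (w y) < 1 / 2} := by
          ext y
          exact ⟨fun h => h hc, fun h _ => h⟩
        rw [h2]
        exact isOpen_lt (g.continuous.comp (hW w hw)) continuous_const
      · have h2 : {y | cd p₀ w → g (w y) < 1 / 2} = univ := by
          ext y
          exact ⟨fun _ => mem_univ _, fun _ h => absurd h hc⟩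
        rw [h2]
        exact isOpen_univ
    have h1V : (E₁ p₀ : Set X) ⊆ V := by
      intro y hy w hw hc
      rw [hzero p₀ w hw hc y hy]
      norm_num
    have hyV : y₀ ∉ V := by
      intro h
      have h2 := h id hid ⟨fun x hx => hx, fun x hx => hx⟩
      rw [id, hgy] at h2
      norm_num at h2
    have hb := h19_bump (hcl (E₂ p₀)) (h₂.conn p₀).isPreconnected (hGc p₀)
      (fun y hy => hy.1) hV (fun y hy => ⟨hy.1, fun w hw hc => (hy.2 w hw hc).le⟩)
      (z := z p₀) ⟨(hG1 p₀ (hz p₀)).1, h1V (hz p₀)⟩ hy₀ hyV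
    apply hb
    have h3 : Cp p₀ = (E₁ p₀ : Set X) := by
      rw [← hEc, he]
    exact h3.subset.trans h1V
  · intro he
    have h1 : y₀ ∈ E p₀ := by
      rw [he]
      exact hy₀
    have h2 := (hCG p₀ h1).2 id hid ⟨fun x hx => hx, fun x hx => hx⟩
    rw [id, hgy] at h2
    norm_num at h2

end Pool.DM
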