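import Pool.Agent.Helper84.DM.Hy
import Pool.Agent.Helper84.DM.Th

/-!
# DM-TC: the existence of threads is a closed condition

`P` is a compact Hausdorff space with a closed partial order, `Q` a topological space.
In `NonemptyCompacts P × P × P` the set of the `(T, u, v)` with `Thr T u v` is closed: `T` connected
(`isClosed_conn`), chain: `T ×ˢ T ⊆ {(x, y) | x ≤ y ∨ y ≤ x}` (a closed set; `continuous_prod`,
`isClosed_subsets_of_isClosed`), `u ∈ T`, `v ∈ T` (`isClosed_mem`), `{u} ×ˢ T ⊆ {(x, y) | x ≤ y}`,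
`T ×ˢ {v} ⊆ {(x, y) | x ≤ y}`. (A thread is nonempty and compact, so it is an element of
`NonemptyCompacts P`.)

`isClosed_exists_thr`: the set is the projection, along the compact factor `NonemptyCompacts P`, of the closed set of
all `(T, q, u, v)` with `Thr T u v` and `{q} ×ˢ T ⊆ 𝒢` (`isClosedMap_snd_of_compactSpace`).
-/

open Set Topology TopologicalSpace

namespace Pool.DM

variable {P Q : Type*} [TopologicalSpace P] [PartialOrder P] [OrderClosedTopology P]
  [CompactSpace P] [TopologicalSpace Q]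

private theorem h80_closed_prod {A B Z : Type*} [TopologicalSpace A] [TopologicalSpace B]
    [TopologicalSpace Z] {F : Set (A × B)} (hF : IsClosed F) {f : Z → NonemptyCompacts A}
    {g : Z → NonemptyCompacts B} (hf : Continuous f) (hg : Continuous g) :
    IsClosed {z | ∀ a ∈ f z, ∀ b ∈ g z, (a, b) ∈ F} := by
  have h1 : IsClosed {z : Z | ((f z ×ˢ g z : NonemptyCompacts (A × B)) : Set (A × B)) ⊆ F} :=
    (NonemptyCompacts.isClosed_subsets_of_isClosed hF).preimage
      (NonemptyCompacts.continuous_prod.comp (hf.prodMk hg))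
  have h2 : {z | ∀ a ∈ f z, ∀ b ∈ g z, (a, b) ∈ F} =
      {z : Z | ((f z ×ˢ g z : NonemptyCompacts (A × B)) : Set (A × B)) ⊆ F} := by
    ext z
    constructor
    · rintro h ⟨a, b⟩ hab
      rw [NonemptyCompacts.coe_prod] at hab
      exact h a hab.1 b hab.2
    · intro h a ha b hb
      apply h
      rw [NonemptyCompacts.coe_prod]
      exact ⟨ha, hb⟩
  rw [h2]
  exact h1

theorem isClosed_thr :
    IsClosed {x : NonemptyCompacts P × P × P | Thr (x.1 : Set P) x.2.1 x.2.2} := by
  have c1 : Continuous fun x : NonemptyCompacts P × P × P => x.1 := continuous_fst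
  have c2 : Continuous fun x : NonemptyCompacts P × P × P => x.2.1 :=
    continuous_fst.comp continuous_snd
  have c3 : Continuous fun x : NonemptyCompacts P × P × P => x.2.2 :=
    continuous_snd.comp continuous_snd
  have h1 : IsClosed {x : NonemptyCompacts P × P × P | IsConnected (x.1 : Set P)} :=
    isClosed_conn.preimage c1
  have h2 : IsClosed {x : NonemptyCompacts P × P × P |
      ∀ a ∈ x.1, ∀ b ∈ x.1, (a, b) ∈ {p : P × P | p.1 ≤ p.2} ∪ {p : P × P | p.2 ≤ p.1}} :=
    h80_closed_prod ((isClosed_le continuous_fst continuous_snd).union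
      (isClosed_le continuous_snd continuous_fst)) c1 c1
  have h3 : IsClosed {x : NonemptyCompacts P × P × P | x.2.1 ∈ x.1} :=
    isClosed_mem.preimage (c2.prodMk c1)
  have h4 : IsClosed {x : NonemptyCompacts P × P × P | x.2.2 ∈ x.1} :=
    isClosed_mem.preimage (c3.prodMk c1)
  have h5 : IsClosed {x : NonemptyCompacts P × P × P |
      ∀ a ∈ ({x.2.1} : NonemptyCompacts P), ∀ b ∈ x.1, (a, b) ∈ {p : P × P | p.1 ≤ p.2}} :=
    h80_closed_prod (isClosed_le continuous_fst continuous_snd)
      (NonemptyCompacts.continuous_singleton.comp c2) c1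
  have h6 : IsClosed {x : NonemptyCompacts P × P × P |
      ∀ a ∈ x.1, ∀ b ∈ ({x.2.2} : NonemptyCompacts P), (a, b) ∈ {p : P × P | p.1 ≤ p.2}} :=
    h80_closed_prod (isClosed_le continuous_fst continuous_snd) c1
      (NonemptyCompacts.continuous_singleton.comp c3)
  have heq : {x : NonemptyCompacts P × P × P | Thr (x.1 : Set P) x.2.1 x.2.2} =
      {x : NonemptyCompacts P × P × P | IsConnected (x.1 : Set P)} ∩
      ({x : NonemptyCompacts P × P × P |
        ∀ a ∈ x.1, ∀ b ∈ x.1, (a, b) ∈ {p : P × P | p.1 ≤ p.2} ∪ {p : P × P | p.2 ≤ p.1}} ∩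
      ({x : NonemptyCompacts P × P × P | x.2.1 ∈ x.1} ∩
      ({x : NonemptyCompacts P × P × P | x.2.2 ∈ x.1} ∩
      ({x : NonemptyCompacts P × P × P |
        ∀ a ∈ ({x.2.1} : NonemptyCompacts P), ∀ b ∈ x.1, (a, b) ∈ {p : P × P | p.1 ≤ p.2}} ∩
      {x : NonemptyCompacts P × P × P |
        ∀ a ∈ x.1, ∀ b ∈ ({x.2.2} : NonemptyCompacts P),
          (a, b) ∈ {p : P × P | p.1 ≤ p.2}})))) := by
    ext x
    constructor
    · intro h
      refine ⟨⟨x.1.nonempty, h.conn⟩, ?_, h.left, h.right, ?_, ?_⟩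
      · intro a ha b hb
        exact h.chain a ha b hb
      · intro a ha b hb
        rw [NonemptyCompacts.mem_singleton] at ha
        rw [ha]
        exact h.low b hb
      · intro a ha b hb
        rw [NonemptyCompacts.mem_singleton] at hb
        rw [hb]
        exact h.high a ha
    · rintro ⟨k1, k2, k3, k4, k5, k6⟩
      refine ⟨x.1.isCompact.isClosed, k1.isPreconnected, fun a ha b hb => k2 a ha b hb, k3, k4,
        fun b hb => k5 _ ?_ b hb, fun a ha => k6 a ha _ ?_⟩
      · rw [NonemptyCompacts.mem_singleton]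
      · rw [NonemptyCompacts.mem_singleton]
  rw [heq]
  exact h1.inter (h2.inter (h3.inter (h4.inter (h5.inter h6))))

theorem isClosed_exists_thr [T2Space Q] {𝒢 : Set (Q × P)} (h : IsClosed 𝒢) :
    IsClosed {x : Q × P × P | ∃ T : Set P, Thr T x.2.1 x.2.2 ∧ ∀ y ∈ T, (x.1, y) ∈ 𝒢} := by
  have c1 : Continuous fun w : NonemptyCompacts P × (Q × P × P) => (w.1, w.2.2) :=
    continuous_fst.prodMk (continuous_snd.comp continuous_snd)
  have c2 : Continuous fun w : NonemptyCompacts P × (Q × P × P) => w.2.1 :=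
    continuous_fst.comp continuous_snd
  have h1 : IsClosed {w : NonemptyCompacts P × (Q × P × P) |
      Thr (w.1 : Set P) w.2.2.1 w.2.2.2} := isClosed_thr.preimage c1
  have h2 : IsClosed {w : NonemptyCompacts P × (Q × P × P) |
      ∀ a ∈ ({w.2.1} : NonemptyCompacts Q), ∀ b ∈ w.1, (a, b) ∈ 𝒢} :=
    h80_closed_prod h (NonemptyCompacts.continuous_singleton.comp c2) continuous_fst
  have h3 := isClosedMap_snd_of_compactSpace _ (h1.inter h2)
  have heq : {x : Q × P × P | ∃ T : Set P, Thr T x.2.1 x.2.2 ∧ ∀ y ∈ T, (x.1, y) ∈ 𝒢} =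
      Prod.snd '' ({w : NonemptyCompacts P × (Q × P × P) |
        Thr (w.1 : Set P) w.2.2.1 w.2.2.2} ∩
        {w : NonemptyCompacts P × (Q × P × P) |
          ∀ a ∈ ({w.2.1} : NonemptyCompacts Q), ∀ b ∈ w.1, (a, b) ∈ 𝒢}) := by
    ext x
    constructor
    · rintro ⟨T, hT, hG⟩
      refine ⟨(⟨⟨T, hT.closed.isCompact⟩, ⟨_, hT.left⟩⟩, x), ⟨hT, ?_⟩, rfl⟩
      intro a ha b hb
      rw [NonemptyCompacts.mem_singleton] at ha
      rw [ha]
      exact hG b hb
    · rintro ⟨w, ⟨hw1, hw2⟩, rfl⟩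
      refine ⟨w.1, hw1, fun y hy => hw2 _ ?_ y hy⟩
      rw [NonemptyCompacts.mem_singleton]
  rw [heq]
  exact h3

theorem isClosed_exists_thr' {𝒞 : Set P} (h : IsClosed 𝒞) :
    IsClosed {x : P × P | ∃ T : Set P, Thr T x.1 x.2 ∧ T ⊆ 𝒞} := by
  have h1 : IsClosed {p : Unit × P | p.2 ∈ 𝒞} := h.preimage continuous_snd
  have h2 := (isClosed_exists_thr h1).preimage
    (continuous_const.prodMk continuous_id : Continuous fun x : P × P => ((), x))
  exact h2

end Pool.DM
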