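import Pool.Agent.Helper84.DM.Mon
import Pool.Agent.Helper84.DM.Equi
import Pool.Agent.Helper84.DM.TC

/-!
# DM-PGb: basic facts on the families with threads

`PG_pred`: induction on `r`: the elements of the threads of depth `r + 1` have depth `r + 1`, so depth `r` by induction.

`PG_sub`: induction on `r` (all `z`, `F`); the thread is replaced by its image under `z ↦ z ∘ φ` (`Thr.image`).

`PG_res`: induction on `r` (`r'`, `F`, `F'`, `z`). Depth 0: `tr A' y ∈ Yc A'` (`Yc_tr`), `act σ (tr A' y) = tr A' (act σ y)` by `act_tr` and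
`Inv.image`. Depth `r' + 1` (so `r = s + 1`, `r' ≤ s`): the image of the thread under `z ↦ trH A' ∘ z` (continuous and monotone), the
section condition by `tr_sc`, and the induction hypothesis for `F \ {i}`, `F' \ {i}`.

`isClosed_PG`: induction on `r`. Depth 0: `NonemptyCompacts.isClosed_subsets_of_isClosed`, `Yc A` is compact, `isClosed_conn`, `(z q).map (act σ) ≤ z q`,
closed order. Depth `r + 1`: for fixed `i ∈ F` the set of the `z` is the union over the finitely many section maps
`w = sc i ρ A` (`sc_finite`) of the projections (along the compact space `Q → H J` of the `b`) of the sets of all `(b, z)` with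
`∃ S, Thr S b z ∧ S ⊆ {p | PG A Rel r (F \ {i}) p}` (closed by `isClosed_exists_thr'` and induction), `∀ q, b q ⊆ {y | y.1 i = 0}` and
`∀ q, (z q).map w ≤ b q`.

`PG1_succ`: the evaluation `z ↦ z ()` and the constant family `K ↦ (fun _ => K)` are continuous, monotone and inverse to each
other, use `Thr.image` in both directions.
-/

open Set Topology TopologicalSpace

namespace Pool.DM

variable {J : Type} {Q : Type} {A : Set (Ex J)} {Rel : Q → Q → Prop} {F : Set J}

theorem PG_zero {r : ℕ} {z : Q → H J} (h : PG A Rel r F z) : PG0 A Rel F z := by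
  cases r with
  | zero => exact h
  | succ r => exact h.1

theorem PG_pred {r : ℕ} {z : Q → H J} (h : PG A Rel (r + 1) F z) : PG A Rel r F z := by
  induction r generalizing F z with
  | zero => exact h.1
  | succ r ih =>
    refine ⟨h.1, fun i hi => ?_⟩
    obtain ⟨ρ, b, S, hS, hb, hz, hp⟩ := h.2 i hi
    exact ⟨ρ, b, S, hS, hb, hz, fun p hpS => ih (hp p hpS)⟩

theorem PG_sub {Q' : Type} {Rel' : Q' → Q' → Prop} {r : ℕ} {z : Q → H J} (φ : Q' → Q)
    (hφ : ∀ q q', Rel' q q' → φ q = φ q' ∨ Rel (φ q) (φ q')) (h : PG A Rel r F z) :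
    PG A Rel' r F (fun q => z (φ q)) := by
  have key : ∀ (F : Set J) (z : Q → H J), PG0 A Rel F z → PG0 A Rel' F (fun q => z (φ q)) := by
    intro F z h
    refine ⟨fun q => h.sub (φ q), fun q => h.conn (φ q), fun q => h.inv (φ q), ?_⟩
    intro q q' hq
    rcases hφ q q' hq with h1 | h1
    · show z (φ q) ≤ z (φ q')
      rw [h1]
    · exact h.rel _ _ h1
  induction r generalizing F z with
  | zero => exact key F z h
  | succ r ih =>
    refine ⟨key F z h.1, fun i hi => ?_⟩
    obtain ⟨ρ, b, S, hS, hb, hz, hp⟩ := h.2 i hi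
    refine ⟨ρ, fun q => b (φ q), (fun (w : Q → H J) (q : Q') => w (φ q)) '' S, ?_,
      fun q => hb (φ q), fun q => hz (φ q), ?_⟩
    · exact hS.image (f := fun (w : Q → H J) (q : Q') => w (φ q))
        (continuous_pi fun q => continuous_apply (φ q)) (fun a b hab q => hab (φ q))
    · rintro _ ⟨p, hpS, rfl⟩
      exact ih (hp p hpS)

theorem PG_res {A' : Set (Ex J)} {F' : Set J} (hA : Lev F A) (hA' : Lev F' A') (hAA : A' ⊆ A)
    (hFF : F' ⊆ F) {r r' : ℕ} (hr : r' ≤ r) {z : Q → H J} (h : PG A Rel r F z) :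
    PG A' Rel r' F' (fun q => trH A' (z q)) := by
  have key : ∀ (F F' : Set J) (z : Q → H J), Lev F' A' → F' ⊆ F → PG0 A Rel F z →
      PG0 A' Rel F' (fun q => trH A' (z q)) := by
    intro F F' z hA' hFF h
    refine ⟨fun q => ?_, fun q => ?_, fun q σ hσ y hy => ?_, fun q q' hq => ?_⟩
    · show ((trH A' (z q) : H J) : Set (U J)) ⊆ Yc A'
      rw [trH, NonemptyCompacts.coe_map, ← Yc_tr hAA]
      exact image_mono (h.sub q)
    · show IsConnected ((trH A' (z q) : H J) : Set (U J))
      rw [trH, NonemptyCompacts.coe_map]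
      exact (h.conn q).image _ (continuous_tr A').continuousOn
    · obtain ⟨x, hx, rfl⟩ := (mem_mapH (continuous_tr A') (z q) y).1 hy
      refine (mem_mapH (continuous_tr A') (z q) _).2
        ⟨act σ x, h.inv q σ (PF_mono hFF hσ) x hx, ?_⟩
      rw [act_tr, hA'.inv.image hσ]
    · exact map_monoH (continuous_tr A') (h.rel q q' hq)
  induction r' generalizing r F F' z with
  | zero => exact key F F' z hA' hFF (PG_zero h)
  | succ r' ih =>
    obtain ⟨s, rfl⟩ : ∃ s, r = s + 1 := ⟨r - 1, by omega⟩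
    refine ⟨key F F' z hA' hFF h.1, fun i hi => ?_⟩
    obtain ⟨ρ, b, S, hS, hb, hz, hp⟩ := h.2 i (hFF hi)
    refine ⟨ρ, fun q => trH A' (b q), (fun (w : Q → H J) (q : Q) => trH A' (w q)) '' S,
      ?_, ?_, ?_, ?_⟩
    · refine hS.image (f := fun (w : Q → H J) (q : Q) => trH A' (w q)) ?_ ?_
      · exact continuous_pi fun q =>
          (Continuous.nonemptyCompacts_map (continuous_tr A')).comp (continuous_apply q)
      · exact fun a b hab q => map_monoH (continuous_tr A') (hab q)
    · intro q y hy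
      obtain ⟨x, hx, rfl⟩ := (mem_mapH (continuous_tr A') (b q) y).1 hy
      rw [tr_fst]
      exact hb q x hx
    · intro q y hy
      obtain ⟨x, hx, rfl⟩ := (mem_mapH (continuous_tr A') (z q) y).1 hy
      refine (mem_mapH (continuous_tr A') (b q) _).2 ⟨sc i ρ A x, hz q x hx, ?_⟩
      exact tr_sc hAA hA'.clo (fun e he hie => hA'.sbs i hi e he hie ρ) x
    · rintro _ ⟨p, hpS, rfl⟩
      exact ih (hA.mono sdiff_subset) (hA'.mono sdiff_subset)
        (fun x hx => ⟨hFF hx.1, hx.2⟩) (by omega) (hp p hpS)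

theorem isClosed_PG (hF : F.Finite) (hA : Lev F A) (r : ℕ) :
    IsClosed {z : Q → H J | PG A Rel r F z} := by
  have hcmap : ∀ {f : U J → U J} (hf : Continuous f) (q : Q),
      Continuous (fun z : Q → H J => (z q).map f hf) := fun hf q =>
    (Continuous.nonemptyCompacts_map hf).comp (continuous_apply q)
  have h0 : ∀ F : Set J, IsClosed {z : Q → H J | PG0 A Rel F z} := by
    intro F
    have e0 : {z : Q → H J | PG0 A Rel F z} =
        (((⋂ q, {z : Q → H J | (z q : Set (U J)) ⊆ Yc A}) ∩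
        (⋂ q, {z : Q → H J | IsConnected (z q : Set (U J))})) ∩
        (⋂ q, ⋂ σ ∈ PF F, {z : Q → H J | (z q).map (act σ) (continuous_act σ) ≤ z q})) ∩
        (⋂ q, ⋂ q', ⋂ (_ : Rel q q'), {z : Q → H J | z q ≤ z q'}) := by
      ext z
      constructor
      · intro h
        refine ⟨⟨⟨?_, ?_⟩, ?_⟩, ?_⟩
        · exact mem_iInter.2 fun q => h.sub q
        · exact mem_iInter.2 fun q => h.conn q
        · refine mem_iInter.2 fun q => mem_iInter.2 fun σ => mem_iInter.2 fun hσ => ?_
          intro y hy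
          obtain ⟨x, hx, rfl⟩ := (mem_mapH (continuous_act σ) (z q) y).1 hy
          exact h.inv q σ hσ x hx
        · exact mem_iInter.2 fun q => mem_iInter.2 fun q' => mem_iInter.2 fun hq => h.rel q q' hq
      · rintro ⟨⟨⟨h1, h2⟩, h3⟩, h4⟩
        refine ⟨fun q => mem_iInter.1 h1 q, fun q => mem_iInter.1 h2 q, ?_, ?_⟩
        · intro q σ hσ y hy
          have h5 := mem_iInter.1 (mem_iInter.1 (mem_iInter.1 h3 q) σ) hσ
          exact h5 ((mem_mapH (continuous_act σ) (z q) _).2 ⟨y, hy, rfl⟩)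
        · intro q q' hq
          exact mem_iInter.1 (mem_iInter.1 (mem_iInter.1 h4 q) q') hq
    rw [e0]
    refine ((IsClosed.inter ?_ ?_).inter ?_).inter ?_
    · refine isClosed_iInter fun q => ?_
      have hY : IsClosed (Yc A) := (isClosed_Y.isCompact.image (continuous_tr A)).isClosed
      exact (NonemptyCompacts.isClosed_subsets_of_isClosed hY).preimage
        (f := fun z : Q → H J => z q) (continuous_apply q)
    · exact isClosed_iInter fun q => (isClosed_conn (X := U J)).preimage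
        (f := fun z : Q → H J => z q) (continuous_apply q)
    · exact isClosed_iInter fun q => isClosed_iInter fun σ => isClosed_iInter fun _ =>
        isClosed_le (hcmap (continuous_act σ) q) (continuous_apply q)
    · exact isClosed_iInter fun q => isClosed_iInter fun q' => isClosed_iInter fun _ =>
        isClosed_le (continuous_apply q) (continuous_apply q')
  induction r generalizing F with
  | zero => exact h0 F
  | succ r ih =>
    have e1 : {z : Q → H J | PG A Rel (r + 1) F z} = {z : Q → H J | PG0 A Rel F z} ∩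
        ⋂ i ∈ F, ⋃ w ∈ {w : U J → U J | ∃ ρ, w = sc i ρ A}, {z : Q → H J |
          ∃ (b : Q → H J) (S : Set (Q → H J)), Thr S b z ∧ (∀ q, ∀ y ∈ b q, y.1 i = 0) ∧
            (∀ q, ∀ y ∈ z q, w y ∈ b q) ∧ ∀ p ∈ S, PG A Rel r (F \ {i}) p} := by
      ext z
      constructor
      · intro h
        refine ⟨h.1, mem_iInter.2 fun i => mem_iInter.2 fun hi => ?_⟩
        obtain ⟨ρ, b, S, hS, hb, hz, hp⟩ := h.2 i hi
        exact mem_iUnion.2 ⟨sc i ρ A, mem_iUnion.2 ⟨⟨ρ, rfl⟩, b, S, hS, hb, hz, hp⟩⟩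
      · rintro ⟨h1, h2⟩
        refine ⟨h1, fun i hi => ?_⟩
        have h3 := mem_iInter.1 (mem_iInter.1 h2 i) hi
        obtain ⟨w, hw⟩ := mem_iUnion.1 h3
        obtain ⟨⟨ρ, rfl⟩, b, S, hS, hb, hz, hp⟩ := mem_iUnion.1 hw
        exact ⟨ρ, b, S, hS, hb, hz, hp⟩
    rw [e1]
    refine (h0 F).inter (isClosed_iInter fun i => isClosed_iInter fun hi => ?_)
    refine Set.Finite.isClosed_biUnion (sc_finite hF hA hi) ?_
    rintro w ⟨ρ, rfl⟩
    have hih : IsClosed {z : Q → H J | PG A Rel r (F \ {i}) z} :=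
      ih (hF.subset sdiff_subset) (hA.mono sdiff_subset)
    have hc1 : IsClosed {x : (Q → H J) × (Q → H J) |
        ∀ q, (x.1 q : Set (U J)) ⊆ {y | y.1 i = 0}} := by
      have e2 : {x : (Q → H J) × (Q → H J) | ∀ q, (x.1 q : Set (U J)) ⊆ {y | y.1 i = 0}} =
          ⋂ q, {x : (Q → H J) × (Q → H J) | (x.1 q : Set (U J)) ⊆ {y | y.1 i = 0}} := by
        ext x
        constructor
        · exact fun h => mem_iInter.2 h
        · exact fun h => mem_iInter.1 h
      have h5 : IsClosed {y : U J | y.1 i = 0} :=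
        isClosed_eq ((continuous_apply i).comp continuous_fst) continuous_const
      rw [e2]
      refine isClosed_iInter fun q => ?_
      exact (NonemptyCompacts.isClosed_subsets_of_isClosed h5).preimage
        (f := fun x : (Q → H J) × (Q → H J) => x.1 q) ((continuous_apply q).comp continuous_fst)
    have hc2 : IsClosed {x : (Q → H J) × (Q → H J) |
        ∀ q, (x.2 q).map (sc i ρ A) (continuous_sc i ρ A) ≤ x.1 q} := by
      have e2 : {x : (Q → H J) × (Q → H J) |
          ∀ q, (x.2 q).map (sc i ρ A) (continuous_sc i ρ A) ≤ x.1 q} =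
          ⋂ q, {x : (Q → H J) × (Q → H J) |
            (x.2 q).map (sc i ρ A) (continuous_sc i ρ A) ≤ x.1 q} := by
        ext x
        constructor
        · exact fun h => mem_iInter.2 h
        · exact fun h => mem_iInter.1 h
      rw [e2]
      refine isClosed_iInter fun q => ?_
      exact isClosed_le ((hcmap (continuous_sc i ρ A) q).comp continuous_snd)
        ((continuous_apply q).comp continuous_fst)
    have hc := (isClosed_exists_thr' hih).inter (hc1.inter hc2)
    have e3 := isClosedMap_snd_of_compactSpace (X := Q → H J) (Y := Q → H J) _ hc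
    refine (congrArg IsClosed ?_).mpr e3
    ext z
    constructor
    · rintro ⟨b, S, hS, hb, hz, hp⟩
      refine ⟨(b, z), ⟨⟨S, hS, hp⟩, hb, ?_⟩, rfl⟩
      intro q y hy
      obtain ⟨x, hx, rfl⟩ := (mem_mapH (continuous_sc i ρ A) (z q) y).1 hy
      exact hz q x hx
    · rintro ⟨⟨b, z'⟩, ⟨⟨S, hS, hp⟩, hb, hz⟩, rfl⟩
      refine ⟨b, S, hS, hb, ?_, hp⟩
      intro q y hy
      exact hz q ((mem_mapH (continuous_sc i ρ A) (z' q) _).2 ⟨y, hy, rfl⟩)

theorem PG1_of {r : ℕ} {z : Q → H J} (h : PG A Rel r F z) (q : Q) : PG1 A r F (z q) := by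
  exact PG_sub (Q' := Unit) (Rel' := fun _ _ => False) (fun _ => q)
    (fun _ _ hf => hf.elim) h

theorem PG1_zero_iff {K : H J} : PG1 A 0 F K ↔
    (K : Set (U J)) ⊆ Yc A ∧ IsConnected (K : Set (U J)) ∧ ∀ σ ∈ PF F, ∀ y ∈ K, act σ y ∈ K := by
  constructor
  · intro h
    have h' : PG0 A (fun _ _ : Unit => False) F (fun _ => K) := h
    exact ⟨h'.sub (), h'.conn (), h'.inv ()⟩
  · rintro ⟨h1, h2, h3⟩
    show PG0 A (fun _ _ : Unit => False) F (fun _ => K)
    exact ⟨fun _ => h1, fun _ => h2, fun _ => h3, fun _ _ hf => hf.elim⟩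

theorem PG1_to_zero {r : ℕ} {K : H J} (h : PG1 A r F K) : PG1 A 0 F K := by
  exact PG_zero h

theorem PG1_succ {r : ℕ} {K : H J} : PG1 A (r + 1) F K ↔
    PG1 A 0 F K ∧ ∀ i ∈ F, ∃ (ρ : Ex J → Ru) (b : H J) (S : Set (H J)),
      Thr S b K ∧ (∀ y ∈ b, y.1 i = 0) ∧ (∀ y ∈ K, sc i ρ A y ∈ b) ∧
      ∀ p ∈ S, PG1 A r (F \ {i}) p := by
  constructor
  · intro h
    refine ⟨PG1_to_zero h, fun i hi => ?_⟩
    obtain ⟨ρ, b, S, hS, hb, hz, hp⟩ := h.2 i hi
    refine ⟨ρ, b (), (fun w : Unit → H J => w ()) '' S, ?_, hb (), hz (), ?_⟩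
    · exact hS.image (f := fun w : Unit → H J => w ()) (continuous_apply ())
        (fun a b hab => hab ())
    · rintro _ ⟨p, hpS, rfl⟩
      exact hp p hpS
  · rintro ⟨h1, h2⟩
    refine ⟨h1, fun i hi => ?_⟩
    obtain ⟨ρ, b, S, hS, hb, hz, hp⟩ := h2 i hi
    refine ⟨ρ, fun _ => b, (fun (w : H J) (_ : Unit) => w) '' S, ?_, fun _ => hb, fun _ => hz, ?_⟩
    · exact hS.image (f := fun (w : H J) (_ : Unit) => w) (continuous_pi fun _ => continuous_id)
        (fun a b hab _ => hab)
    · rintro _ ⟨p, hpS, rfl⟩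
      exact hp p hpS

theorem isClosed_PG1 (hF : F.Finite) (hA : Lev F A) (r : ℕ) : IsClosed {K : H J | PG1 A r F K} := by
  exact (isClosed_PG (Q := Unit) (Rel := fun _ _ => False) hF hA r).preimage
    (continuous_pi fun _ => continuous_id (X := H J))

theorem PG1_res {A' : Set (Ex J)} {F' : Set J} (hA : Lev F A) (hA' : Lev F' A') (hAA : A' ⊆ A)
    (hFF : F' ⊆ F) {r r' : ℕ} (hr : r' ≤ r) {K : H J} (h : PG1 A r F K) :
    PG1 A' r' F' (trH A' K) := by
  exact PG_res hA hA' hAA hFF hr h

end Pool.DM
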