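import Pool.Agent.Helper84.DM.Map

/-!
# DM-Sb: the substitution of `0` for a letter and the section map

All by induction on terms. `sb_congr`: simultaneous induction; in the case `fo e`: `fs (fo e) = {e} ⊆ A` gives `e ∈ A`,
so `fs e ⊆ A` and the induction hypothesis applies to `e`.

`sb_map`: in the case `fo e`: `σ i ∈ ls (e.map σ) ↔ i ∈ ls e` by `ls_map`; `map_cl`.

`val_sc` in the case `fo e` (`e ∈ A`): `((sc i ρ A y).2 e : ℝ) = val (sb i ρ (.fo e)) y` by `coe_p5` and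
`val_sb_fo_bound`.

`fs_sb`: in the case `fo e`, `e ∈ A`: `fs (fo e) = {e}`, `fs (fo (sb e)) = {sb e}`,
`fs (ad (cl (sb e)) (cn 2)) = fs (sb e) ⊆ A` because `sb e ∈ A` and `A` is closed.

`tr_sc`: for `e ∈ A'` both sides have the coordinate `p5 (val (sb i ρ (.fo e)) y)`, because
`fs (sb i ρ (.fo e)) ⊆ A'` (`fs_sb`, `val_tr`).
-/

open Set Topology TopologicalSpace

namespace Pool.DM

variable {J : Type}

theorem sb_of_notMem {i : J} (ρ : Ex J → Ru) {e : Ex J} (h : i ∉ ls e) : sb i ρ e = e := by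
  induction e with
  | lt j =>
    have h1 : j ≠ i := fun h2 => h (by simp [ls, h2])
    simp [sb, h1]
  | fo e ih =>
    have h1 : i ∉ ls e := h
    simp [sb, h1]
  | cn q => rfl
  | ad a b iha ihb =>
    have h1 : i ∉ ls a := fun h2 => h (Or.inl h2)
    have h2 : i ∉ ls b := fun h2 => h (Or.inr h2)
    simp only [sb]
    rw [iha h1, ihb h2]
  | sm q a ih =>
    have h1 : i ∉ ls a := h
    simp only [sb]
    rw [ih h1]
  | mx a b iha ihb =>
    have h1 : i ∉ ls a := fun h2 => h (Or.inl h2)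
    have h2 : i ∉ ls b := fun h2 => h (Or.inr h2)
    simp only [sb]
    rw [iha h1, ihb h2]

theorem sb_fo_mem {i : J} {ρ : Ex J → Ru} {e : Ex J} (h : i ∈ ls e) :
    sb i ρ (.fo e) = match ρ e with
        | .use => .fo (sb i ρ e)
        | .pos => .ad (cl (sb i ρ e)) (.cn 2)
        | .neg => .ad (cl (sb i ρ e)) (.cn (-2))
        | .zero => .cn 0 := by
  simp only [sb]
  rw [if_neg (not_not.2 h)]
  cases ρ e <;> rfl

theorem sb_fo_cases (i : J) (ρ : Ex J → Ru) (e : Ex J) :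
    (i ∉ ls e ∧ sb i ρ (.fo e) = .fo e) ∨ (i ∈ ls e ∧ (sb i ρ (.fo e) = .fo (sb i ρ e) ∨
      sb i ρ (.fo e) = .ad (cl (sb i ρ e)) (.cn 2) ∨
      sb i ρ (.fo e) = .ad (cl (sb i ρ e)) (.cn (-2)) ∨ sb i ρ (.fo e) = .cn 0)) := by
  by_cases h : i ∈ ls e
  · right
    refine ⟨h, ?_⟩
    rw [sb_fo_mem h]
    cases ρ e <;> simp
  · left
    exact ⟨h, sb_of_notMem ρ (e := .fo e) h⟩

theorem ls_sb (i : J) (ρ : Ex J → Ru) (e : Ex J) : ls (sb i ρ e) ⊆ ls e \ {i} := by
  induction e with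
  | lt j =>
    by_cases h : j = i
    · simp [sb, h, ls]
    · simp [sb, h, ls, Ne.symm h]
  | fo e ih =>
    have hls : ls (.fo e) = ls e := rfl
    rw [hls]
    rcases sb_fo_cases i ρ e with ⟨h1, h2⟩ | ⟨_, h2 | h2 | h2 | h2⟩
    · rw [h2, hls]
      intro x hx
      refine ⟨hx, ?_⟩
      rintro rfl
      exact h1 hx
    · rw [h2]
      exact ih
    · rw [h2]
      have h3 : ls (.ad (cl (sb i ρ e)) (.cn 2)) = ls (cl (sb i ρ e)) ∪ ∅ := rfl
      rw [h3, ls_cl, union_empty]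
      exact ih
    · rw [h2]
      have h3 : ls (.ad (cl (sb i ρ e)) (.cn (-2))) = ls (cl (sb i ρ e)) ∪ ∅ := rfl
      rw [h3, ls_cl, union_empty]
      exact ih
    · rw [h2]
      exact empty_subset _
  | cn q => exact empty_subset _
  | ad a b iha ihb =>
    have h1 : ls (sb i ρ (.ad a b)) = ls (sb i ρ a) ∪ ls (sb i ρ b) := rfl
    have h2 : ls (.ad a b) = ls a ∪ ls b := rfl
    rw [h1, h2, union_sdiff_distrib]
    exact union_subset_union iha ihb
  | sm q a ih => exact ih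
  | mx a b iha ihb =>
    have h1 : ls (sb i ρ (.mx a b)) = ls (sb i ρ a) ∪ ls (sb i ρ b) := rfl
    have h2 : ls (.mx a b) = ls a ∪ ls b := rfl
    rw [h1, h2, union_sdiff_distrib]
    exact union_subset_union iha ihb

theorem sb_congr {i : J} {ρ ρ' : Ex J → Ru} {A : Set (Ex J)} (hA : Clo A)
    (h : ∀ e ∈ A, ρ e = ρ' e) (e : Ex J) :
    (fs e ⊆ A → sb i ρ e = sb i ρ' e) ∧ (e ∈ A → sb i ρ (.fo e) = sb i ρ' (.fo e)) := by
  have key : ∀ e : Ex J, (fs e ⊆ A → sb i ρ e = sb i ρ' e) →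
      (e ∈ A → sb i ρ (.fo e) = sb i ρ' (.fo e)) := by
    intro e h1 he
    have h2 := h1 (hA e he)
    simp only [sb]
    rw [h2, h e he]
  induction e with
  | lt j =>
    have h1 : fs (.lt j) ⊆ A → sb i ρ (.lt j) = sb i ρ' (.lt j) := fun _ => rfl
    exact ⟨h1, key _ h1⟩
  | fo e ih =>
    have h1 : fs (.fo e) ⊆ A → sb i ρ (.fo e) = sb i ρ' (.fo e) := fun hs =>
      ih.2 (hs (mem_singleton e))
    exact ⟨h1, key _ h1⟩
  | cn q =>
    have h1 : fs (.cn q : Ex J) ⊆ A → sb i ρ (.cn q) = sb i ρ' (.cn q) := fun _ => rfl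
    exact ⟨h1, key _ h1⟩
  | ad a b iha ihb =>
    have h1 : fs (.ad a b) ⊆ A → sb i ρ (.ad a b) = sb i ρ' (.ad a b) := by
      intro hs
      simp only [sb]
      rw [iha.1 (subset_union_left.trans hs), ihb.1 (subset_union_right.trans hs)]
    exact ⟨h1, key _ h1⟩
  | sm q a ih =>
    have h1 : fs (.sm q a) ⊆ A → sb i ρ (.sm q a) = sb i ρ' (.sm q a) := by
      intro hs
      simp only [sb]
      rw [ih.1 hs]
    exact ⟨h1, key _ h1⟩
  | mx a b iha ihb =>
    have h1 : fs (.mx a b) ⊆ A → sb i ρ (.mx a b) = sb i ρ' (.mx a b) := by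
      intro hs
      simp only [sb]
      rw [iha.1 (subset_union_left.trans hs), ihb.1 (subset_union_right.trans hs)]
    exact ⟨h1, key _ h1⟩

theorem sb_map (σ : Equiv.Perm J) (i : J) (ρ : Ex J → Ru) (e : Ex J) :
    sb (σ i) ρ (e.map σ) = (sb i (fun e' => ρ (e'.map σ)) e).map σ := by
  induction e with
  | lt j =>
    by_cases h : j = i
    · simp [sb, Ex.map, h]
    · have h1 : σ j ≠ σ i := fun h2 => h (σ.injective h2)
      simp [sb, Ex.map, h]
  | fo e ih =>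
    have h1 : σ i ∈ ls (e.map σ) ↔ i ∈ ls e := by
      rw [ls_map]
      exact σ.injective.mem_set_image
    have h2 : (Ex.fo e).map σ = .fo (e.map σ) := rfl
    rw [h2]
    by_cases h : i ∈ ls e
    · rw [sb_fo_mem h, sb_fo_mem (h1.2 h), ih]
      cases hr : ρ (e.map σ)
      · rfl
      · simp only [Ex.map]
        rw [map_cl]
      · simp only [Ex.map]
        rw [map_cl]
      · rfl
    · rw [sb_of_notMem (e := .fo e) _ h, sb_of_notMem (e := .fo (e.map σ)) _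
        (fun h3 => h (h1.1 h3))]
      rfl
  | cn q => rfl
  | ad a b iha ihb =>
    simp only [sb, Ex.map]
    rw [iha, ihb]
  | sm q a ih =>
    simp only [sb, Ex.map]
    rw [ih]
  | mx a b iha ihb =>
    simp only [sb, Ex.map]
    rw [iha, ihb]

/-- Only finitely many terms arise from `e` by substitution. -/
theorem sb_finite (i : J) (e : Ex J) : {t | ∃ ρ, t = sb i ρ e}.Finite := by
  induction e with
  | lt j =>
    refine (Set.toFinite ({.cn 0, .lt j} : Set (Ex J))).subset ?_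
    rintro t ⟨ρ, rfl⟩
    by_cases h : j = i
    · simp [sb, h]
    · simp [sb, h]
  | fo e ih =>
    refine ((((Set.finite_singleton (Ex.fo e)).union (ih.image Ex.fo)).union
      (ih.image (fun t => Ex.ad (cl t) (.cn 2)))).union
      ((ih.image (fun t => Ex.ad (cl t) (.cn (-2)))).union
        (Set.finite_singleton (Ex.cn 0)))).subset ?_
    rintro t ⟨ρ, rfl⟩
    rcases sb_fo_cases i ρ e with ⟨_, h2⟩ | ⟨_, h2 | h2 | h2 | h2⟩
    · exact Or.inl (Or.inl (Or.inl h2))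
    · exact Or.inl (Or.inl (Or.inr ⟨sb i ρ e, ⟨ρ, rfl⟩, h2.symm⟩))
    · exact Or.inl (Or.inr ⟨sb i ρ e, ⟨ρ, rfl⟩, h2.symm⟩)
    · exact Or.inr (Or.inl ⟨sb i ρ e, ⟨ρ, rfl⟩, h2.symm⟩)
    · exact Or.inr (Or.inr h2)
  | cn q =>
    refine (Set.finite_singleton (.cn q : Ex J)).subset ?_
    rintro t ⟨ρ, rfl⟩
    rfl
  | ad a b iha ihb =>
    refine (Set.Finite.image2 Ex.ad iha ihb).subset ?_
    rintro t ⟨ρ, rfl⟩
    exact ⟨sb i ρ a, ⟨ρ, rfl⟩, sb i ρ b, ⟨ρ, rfl⟩, rfl⟩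
  | sm q a ih =>
    refine (ih.image (Ex.sm q)).subset ?_
    rintro t ⟨ρ, rfl⟩
    exact ⟨sb i ρ a, ⟨ρ, rfl⟩, rfl⟩
  | mx a b iha ihb =>
    refine (Set.Finite.image2 Ex.mx iha ihb).subset ?_
    rintro t ⟨ρ, rfl⟩
    exact ⟨sb i ρ a, ⟨ρ, rfl⟩, sb i ρ b, ⟨ρ, rfl⟩, rfl⟩

theorem val_sb_fo_bound (i : J) (ρ : Ex J → Ru) (e : Ex J) (y : U J) :
    -5 ≤ val (sb i ρ (.fo e)) y ∧ val (sb i ρ (.fo e)) y ≤ 5 := by
  rcases sb_fo_cases i ρ e with ⟨_, h2⟩ | ⟨_, h2 | h2 | h2 | h2⟩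
  · rw [h2]
    exact (y.2 e).2
  · rw [h2]
    exact (y.2 (sb i ρ e)).2
  · rw [h2]
    have h3 : val (.ad (cl (sb i ρ e)) (.cn 2)) y = val (cl (sb i ρ e)) y + ((2 : ℚ) : ℝ) := rfl
    rw [h3, val_cl]
    have h4 := clip_mem (val (sb i ρ e) y)
    push_cast
    constructor <;> linarith [h4.1, h4.2]
  · rw [h2]
    have h3 : val (.ad (cl (sb i ρ e)) (.cn (-2))) y =
      val (cl (sb i ρ e)) y + ((-2 : ℚ) : ℝ) := rfl
    rw [h3, val_cl]
    have h4 := clip_mem (val (sb i ρ e) y)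
    push_cast
    constructor <;> linarith [h4.1, h4.2]
  · rw [h2]
    have h3 : val (.cn 0 : Ex J) y = ((0 : ℚ) : ℝ) := rfl
    rw [h3]
    push_cast
    constructor <;> norm_num

theorem fs_sb {i : J} {ρ : Ex J → Ru} {A : Set (Ex J)} (hA : Clo A)
    (hs : ∀ e ∈ A, i ∈ ls e → sb i ρ e ∈ A) {e : Ex J} (he : fs e ⊆ A) :
    fs (sb i ρ e) ⊆ A := by
  induction e with
  | lt j =>
    by_cases h : j = i
    · simp [sb, h, fs]
    · simp [sb, h, fs]
  | fo e ih =>
    have heA : e ∈ A := he (mem_singleton e)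
    rcases sb_fo_cases i ρ e with ⟨_, h2⟩ | ⟨h1, h2 | h2 | h2 | h2⟩
    · rw [h2]
      exact he
    · rw [h2]
      exact singleton_subset_iff.2 (hs e heA h1)
    · rw [h2]
      have h3 : fs (.ad (cl (sb i ρ e)) (.cn 2)) = fs (cl (sb i ρ e)) ∪ ∅ := rfl
      rw [h3, fs_cl, union_empty]
      exact hA _ (hs e heA h1)
    · rw [h2]
      have h3 : fs (.ad (cl (sb i ρ e)) (.cn (-2))) = fs (cl (sb i ρ e)) ∪ ∅ := rfl
      rw [h3, fs_cl, union_empty]
      exact hA _ (hs e heA h1)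
    · rw [h2]
      exact empty_subset _
  | cn q => exact empty_subset _
  | ad a b iha ihb =>
    exact union_subset (iha (subset_union_left.trans he)) (ihb (subset_union_right.trans he))
  | sm q a ih => exact ih he
  | mx a b iha ihb =>
    exact union_subset (iha (subset_union_left.trans he)) (ihb (subset_union_right.trans he))

@[simp] theorem sc_fst_self (i : J) (ρ : Ex J → Ru) (A : Set (Ex J)) (y : U J) :
    (sc i ρ A y).1 i = 0 := by
  simp [sc]

theorem sc_fst_ne {i j : J} (h : j ≠ i) (ρ : Ex J → Ru) (A : Set (Ex J)) (y : U J) :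
    (sc i ρ A y).1 j = y.1 j := by
  simp [sc, h]

theorem sc_mem {i : J} {ρ : Ex J → Ru} {A : Set (Ex J)} {e : Ex J} (he : e ∈ A) (y : U J) :
    (sc i ρ A y).2 e = p5 (val (sb i ρ (.fo e)) y) := by
  simp only [sc]
  rw [if_pos he]

theorem sc_notMem {i : J} {ρ : Ex J → Ru} {A : Set (Ex J)} {e : Ex J} (he : e ∉ A) (y : U J) :
    (sc i ρ A y).2 e = p5 0 := by
  simp only [sc]
  rw [if_neg he]

theorem sc_off {i : J} {ρ : Ex J → Ru} {A : Set (Ex J)} {e : Ex J} (he : e ∈ A) (h : i ∉ ls e)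
    (y : U J) : (sc i ρ A y).2 e = y.2 e := by
  rw [sc_mem he, sb_of_notMem (e := .fo e) ρ h]
  exact p5_coe (y.2 e)

theorem val_sc {i : J} {ρ : Ex J → Ru} {A : Set (Ex J)} {e : Ex J} (he : fs e ⊆ A) (y : U J) :
    val e (sc i ρ A y) = val (sb i ρ e) y := by
  induction e with
  | lt j =>
    by_cases h : j = i
    · subst h
      have h1 : val (.lt j) (sc j ρ A y) = ((sc j ρ A y).1 j : ℝ) := rfl
      rw [h1, sc_fst_self]
      simp [sb, val]
    · have h1 : val (.lt j) (sc i ρ A y) = ((sc i ρ A y).1 j : ℝ) := rfl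
      rw [h1, sc_fst_ne h]
      simp [sb, val, h]
  | fo e ih =>
    have heA : e ∈ A := he (mem_singleton e)
    have h1 : val (.fo e) (sc i ρ A y) = ((sc i ρ A y).2 e : ℝ) := rfl
    rw [h1, sc_mem heA, coe_p5 (val_sb_fo_bound i ρ e y)]
  | cn q => rfl
  | ad a b iha ihb =>
    simp only [sb, val]
    rw [iha (subset_union_left.trans he), ihb (subset_union_right.trans he)]
  | sm q a ih =>
    simp only [sb, val]
    rw [ih he]
  | mx a b iha ihb =>
    simp only [sb, val]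
    rw [iha (subset_union_left.trans he), ihb (subset_union_right.trans he)]

theorem sc_congr {i : J} {ρ ρ' : Ex J → Ru} {A : Set (Ex J)} (hA : Clo A)
    (h : ∀ e ∈ A, ρ e = ρ' e) (y : U J) : sc i ρ A y = sc i ρ' A y := by
  refine Prod.ext ?_ ?_
  · funext j
    by_cases hj : j = i
    · subst hj
      rw [sc_fst_self, sc_fst_self]
    · rw [sc_fst_ne hj, sc_fst_ne hj]
  · funext e
    by_cases he : e ∈ A
    · rw [sc_mem he, sc_mem he, (sb_congr hA h e).2 he]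
    · rw [sc_notMem he, sc_notMem he]

theorem tr_sc {i : J} {ρ : Ex J → Ru} {A A' : Set (Ex J)} (hAA : A' ⊆ A) (hA : Clo A')
    (hs : ∀ e ∈ A', i ∈ ls e → sb i ρ e ∈ A') (y : U J) :
    tr A' (sc i ρ A y) = sc i ρ A' (tr A' y) := by
  refine Prod.ext ?_ ?_
  · rw [tr_fst]
    funext j
    by_cases hj : j = i
    · subst hj
      rw [sc_fst_self, sc_fst_self]
    · rw [sc_fst_ne hj, sc_fst_ne hj, tr_fst]
  · funext e
    by_cases he : e ∈ A'
    · rw [tr_mem he, sc_mem (hAA he), sc_mem he, val_tr]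
      exact fs_sb hA hs (e := .fo e) (singleton_subset_iff.2 he)
    · rw [tr_notMem he, sc_notMem he]

end Pool.DM
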