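import Pool.Agent.Helper84.DM.PGb
import Pool.Agent.Helper84.DM.Full

/-!
# DM-ShL: sheets and threads

`rs ρ O ε` : the rules `ρ` outside `O`, and on `O` the sheet of sign `ε`.

`sc_sht`: `A` closed, closed under `sb i`, `O` disjoint from `A`, `fs e ⊆ A` and (`i ∈ ls e →`) `sb i ρ e ∈ A` for `e ∈ O`. If
`tr A y = y₀`, and `y.2 e = p5 (sv e y₀ + 2 * ε)` for the `e ∈ O` with `i ∉ ls e`, then
`sc i (rs ρ O ε) (A ∪ O) y = sht ε O (sc i ρ A y₀)`. Letters: `y.1 = y₀.1`. `e ∈ A`: `sb i (rs ρ O ε) (.fo e) = sb i ρ (.fo e)`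
(`sb_congr`, the rules agree on `A`), its value depends only on `tr A y` (`fs_sb`, `val_tr`), and `sht` does not change this
coordinate. `e ∈ O`, `i ∉ ls e`: `(sc ..).2 e = y.2 e` (`sc_off`) and `val e (sc i ρ A y₀) = val (sb i ρ e) y₀ = val e y₀` (`val_sc`,
`sb_of_notMem`). `e ∈ O`, `i ∈ ls e`: `sb i (rs ρ O ε) (.fo e) = ad (cl (sb i ρ e)) (cn (±2))` (`sb_congr`), the value is
`clip (val (sb i ρ e) y₀) + 2 * ε = sv e (sc i ρ A y₀) + 2 * ε` (`val_cl`, `val_sc`). `e ∉ A ∪ O`: both are `p5 0`.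

`PG1_sheet`: induction on `r` (all `F`, `K`). Depth 0: contained in `Yc (A ∪ O)` by hypothesis, connected (image), invariant:
`act σ (sht ε O y) = sht ε O (act σ y)` (`act_sht`, `Inv.image`). Depth `r + 1`: `i ∈ F`, `ρ`, `b`, `S` for `K` (`PG1_succ`). All `d ∈ S` are
contained in `K`, so satisfy the hypotheses. Take `rs ρ O ε`, `shtH ε O b`, `shtH ε O '' S` (`Thr.image`). The section
condition is `sc_sht` with `y = sht ε O y₀` (`tr_sht`, `sht_mem`).
-/

open Set Topology TopologicalSpace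

namespace Pool.DM

variable {J : Type}

open Classical in
/-- The rules `ρ` outside `O`, and the sheet of sign `ε` on `O`. -/
noncomputable def rs (ρ : Ex J → Ru) (O : Set (Ex J)) (ε : ℝ) : Ex J → Ru :=
  fun e => if e ∈ O then (if ε = 1 then .pos else .neg) else ρ e

theorem sc_sht {i : J} {ρ : Ex J → Ru} {A O : Set (Ex J)} (hA : Clo A)
    (hsA : ∀ e ∈ A, i ∈ ls e → ∀ ρ, sb i ρ e ∈ A) (hd : ∀ e ∈ O, e ∉ A)
    (hf : ∀ e ∈ O, fs e ⊆ A) (hsO : ∀ e ∈ O, i ∈ ls e → ∀ ρ, sb i ρ e ∈ A) {ε : ℝ}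
    (hε : ε = 1 ∨ ε = -1) {y y₀ : U J} (hy : tr A y = y₀)
    (hy2 : ∀ e ∈ O, i ∉ ls e → y.2 e = p5 (sv e y₀ + 2 * ε)) :
    sc i (rs ρ O ε) (A ∪ O) y = sht ε O (sc i ρ A y₀) := by
  have hy1 : y.1 = y₀.1 := by
    rw [← hy, tr_fst]
  have hag : ∀ e ∈ A, rs ρ O ε e = ρ e := by
    intro e he
    have hn : e ∉ O := fun h => hd e h he
    rw [rs, if_neg hn]
  have hv : ∀ e, fs e ⊆ A → val e y = val e y₀ := by
    intro e he
    rw [← hy, val_tr he]
  refine Prod.ext (funext fun j => ?_) (funext fun e => ?_)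
  · rw [sht_fst]
    by_cases h : j = i
    · rw [h, sc_fst_self, sc_fst_self]
    · rw [sc_fst_ne h, sc_fst_ne h, hy1]
  · by_cases hO : e ∈ O
    · rw [sht_mem hO]
      by_cases hi : i ∈ ls e
      · have h1 : sb i (rs ρ O ε) e = sb i ρ e := (sb_congr hA hag e).1 (hf e hO)
        have h2 : val (sb i ρ e) y = val (sb i ρ e) y₀ := hv _ (hA _ (hsO e hO hi ρ))
        have h3 : sv e (sc i ρ A y₀) = clip (val (sb i ρ e) y₀) := by
          rw [sv, val_sc (hf e hO)]
        rw [sc_mem (Or.inr hO), sb, if_neg (not_not.2 hi), h3]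
        rcases hε with rfl | rfl
        · have h4 : rs ρ O 1 e = .pos := by
            rw [rs, if_pos hO, if_pos rfl]
          rw [h4]
          show p5 (val (cl (sb i (rs ρ O 1) e)) y + ((2 : ℚ) : ℝ)) = _
          rw [h1, val_cl, h2]
          congr 1
          push_cast
          ring
        · have h4 : rs ρ O (-1) e = .neg := by
            rw [rs, if_pos hO, if_neg (by norm_num)]
          rw [h4]
          show p5 (val (cl (sb i (rs ρ O (-1)) e)) y + ((-2 : ℚ) : ℝ)) = _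
          rw [h1, val_cl, h2]
          congr 1
          push_cast
          ring
      · rw [sc_off (Or.inr hO) hi, hy2 e hO hi, sv, sv, val_sc (hf e hO), sb_of_notMem ρ hi]
    · rw [sht_notMem hO]
      by_cases he : e ∈ A
      · have h1 : sb i (rs ρ O ε) (.fo e) = sb i ρ (.fo e) := (sb_congr hA hag e).2 he
        have h2 : fs (sb i ρ (.fo e)) ⊆ A := by
          refine fs_sb hA (fun e he hie => hsA e he hie ρ) ?_
          intro x hx
          have hx' : x = e := hx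
          rw [hx']
          exact he
        rw [sc_mem (Or.inl he), sc_mem he, h1, hv _ h2]
      · rw [sc_notMem he, sc_notMem]
        rintro (h | h)
        · exact he h
        · exact hO h

theorem coe_shtH (ε : ℝ) (O : Set (Ex J)) (K : H J) :
    (shtH ε O K : Set (U J)) = sht ε O '' (K : Set (U J)) := by
  rw [shtH, NonemptyCompacts.coe_map]

theorem continuous_shtH (ε : ℝ) (O : Set (Ex J)) : Continuous (shtH ε O : H J → H J) := by
  exact Continuous.nonemptyCompacts_map (continuous_sht ε O)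

theorem shtH_mono (ε : ℝ) (O : Set (Ex J)) : Monotone (shtH ε O : H J → H J) := by
  exact map_monoH (continuous_sht ε O)

theorem PG1_sheet {A O : Set (Ex J)} {ε : ℝ} (hε : ε = 1 ∨ ε = -1) (r : ℕ) :
    ∀ (F : Set J) (K : H J), Ext F A O → PG1 A r F K →
      (∀ y ∈ K, sht ε O y ∈ Yc (A ∪ O)) → PG1 (A ∪ O) r F (shtH ε O K) := by
  have key : ∀ (F : Set J) (K : H J), Ext F A O → PG1 A 0 F K →
      (∀ y ∈ K, sht ε O y ∈ Yc (A ∪ O)) → PG1 (A ∪ O) 0 F (shtH ε O K) := by
    intro F K hE h hY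
    obtain ⟨h1, h2, h3⟩ := PG1_zero_iff.1 h
    refine PG1_zero_iff.2 ⟨?_, ?_, ?_⟩
    · rw [coe_shtH]
      rintro _ ⟨x, hx, rfl⟩
      exact hY x hx
    · rw [coe_shtH]
      exact h2.image _ (continuous_sht ε O).continuousOn
    · intro σ hσ y hy
      obtain ⟨x, hx, rfl⟩ := (mem_mapH (continuous_sht ε O) K y).1 hy
      refine (mem_mapH (continuous_sht ε O) K _).2 ⟨act σ x, h3 σ hσ x hx, ?_⟩
      rw [act_sht, hE.inv.image hσ]
  induction r with
  | zero => exact key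
  | succ r ih =>
    intro F K hE h hY
    obtain ⟨h0, h1⟩ := PG1_succ.1 h
    refine PG1_succ.2 ⟨key F K hE h0 hY, fun i hi => ?_⟩
    obtain ⟨ρ, b, S, hS, hb, hK, hp⟩ := h1 i hi
    have hKY : (K : Set (U J)) ⊆ Yc A := (PG1_zero_iff.1 h0).1
    refine ⟨rs ρ O ε, shtH ε O b, shtH ε O '' S,
      hS.image (continuous_shtH ε O) (shtH_mono ε O), ?_, ?_, ?_⟩
    · intro y hy
      obtain ⟨x, hx, rfl⟩ := (mem_mapH (continuous_sht ε O) b y).1 hy
      rw [sht_fst]
      exact hb x hx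
    · intro y hy
      obtain ⟨x, hx, rfl⟩ := (mem_mapH (continuous_sht ε O) K y).1 hy
      refine (mem_mapH (continuous_sht ε O) b _).2 ⟨sc i ρ A x, hK x hx, ?_⟩
      refine (sc_sht hE.lev.clo (fun e he hie ρ => hE.lev.sbs i hi e he hie ρ) hE.dis hE.fsA
        (fun e he hie ρ => hE.sbA i hi e he hie ρ) hε ?_ ?_).symm
      · exact tr_sht hE.dis (fun e he => Yc_flat (hKY hx) he)
      · intro e he _
        exact sht_mem he x
    · rintro _ ⟨p, hpS, rfl⟩
      refine ih (F \ {i}) p (hE.mono sdiff_subset) (hp p hpS) ?_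
      intro y hy
      exact hY y (hS.high p hpS hy)

end Pool.DM
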