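import Pool.Agent.Helper84.DM.Form
import Pool.Agent.Helper84.DM.MLem

/-!
# DM-StepA: lifting a thread, the bottom is touched

`TD A F i r K b S ρ`: `S` is a thread from `b` to `K` of continua with threads of depth `r` (for the letters `F`), for the letter `i`.

`FlH` facts: `K` a continuum `⊆ Yc A` touching all `e ∈ O`: `Adm A O K`, so `FlH O K` is `Fl O K` (`coe_clH`, `fl_cpt`), contained in `Yc (A ∪ O)`
(`fl_mono`, `Yc_full`), `trH A (FlH O K) = K` (`fl_onto_tr`).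

`step_alpha`. All `d ∈ S` contain `b`, so they touch all `e ∈ O`. `Φ d = FlH O d`, monotone. `𝒢 = {(d, x) | PG1 (A ∪ O) r F x}` is closed (`isClosed_PG1`,
`Ext.union`) and contains `(d, Φ d)` by `LiftIH`. We apply `filling` (`P = X = H J`).
 Left, `d ≠ b`, `u` the least upper bound of `Fl O d'`, `d' < d`; `PG1 (A ∪ O) r F u`. `u ≤ FlH O d`. `trH A u` is the least upper bound of the
 `trH A (FlH O d') = d'` (`lub_image`, `continuous_trH`), so it is `d` (`Thr.isLUB_below`). So `MH A O u = FlH O d` (`MH_eq_Fl`), and `thr_M` gives the thread.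
 Right, `u` the greatest lower bound of `FlH O d'`, `d' > d`: `(u : Set) = ⋂ Fl O d' = Fl O (⋂ d') = Fl O d` (`coe_of_isGLB`, `fl_iInter` for the chain of the
 `d' ∈ S`, `d' > d`, whose intersection is `d` by `Thr.isGLB_above`). So `u = Φ d`, `T = {Φ d}`.
The projection `(d, x) ↦ x` maps the thread of `filling` to a thread from `FlH O b` to `FlH O K`. The letter `i` is `0` on `Fl O b` (`fl_onto_tr`).
Section condition: `form`.
-/

open Set Topology TopologicalSpace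

namespace Pool.DM

variable {J : Type}

/-- Thread data for the letter `i`. -/
structure TD (A : Set (Ex J)) (F : Set J) (i : J) (r : ℕ) (K b : H J) (S : Set (H J))
    (ρ : Ex J → Ru) : Prop where
  thr : Thr S b K
  pg : ∀ d ∈ S, PG1 A r F d
  lz : ∀ y ∈ b, y.1 i = 0
  sec : ∀ y ∈ K, sc i ρ A y ∈ b

/-- The lifting property of depth `r`. -/
def LiftIH (r : ℕ) (F : Set J) : Prop :=
  ∀ (A O : Set (Ex J)) (K : H J), Ext F A O → (∀ e ∈ O, Act e) →
    (∀ e ∈ O, Nt (K : Set (U J)) e) → PG1 A r F K → PG1 (A ∪ O) r F (FlH O K)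

theorem Adm_of {F : Set J} {A O : Set (Ex J)} (hx : Ext F A O) {K : H J}
    (hK : (K : Set (U J)) ⊆ Yc A) (hKc : IsConnected (K : Set (U J)))
    (hn : ∀ e ∈ O, Nt (K : Set (U J)) e) : Adm A O (K : Set (U J)) := by
  refine ⟨⟨K.isCompact.isClosed, hKc, fun y hy e he => Yc_flat (hK hy) he⟩, hx.fin, hx.dis,
    hx.fsA, hn⟩

theorem coe_FlH {A O : Set (Ex J)} {K : H J} (h : Adm A O (K : Set (U J))) :
    (FlH O K : Set (U J)) = Fl O (K : Set (U J)) := by
  exact coe_clH (fl_cpt h).conn.nonempty (fl_cpt h).closed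

theorem FlH_sub {F : Set J} {A O : Set (Ex J)} (hx : Ext F A O) (ha : ∀ e ∈ O, Act e)
    {K : H J} (hK : (K : Set (U J)) ⊆ Yc A) (h : Adm A O (K : Set (U J))) :
    (FlH O K : Set (U J)) ⊆ Yc (A ∪ O) := by
  rw [coe_FlH h, Yc_full hx.lev.fin hx.lev.clo hx.fin hx.dis hx.fsA ha]
  exact fl_mono hK

theorem trH_FlH {A O : Set (Ex J)} {K : H J} (h : Adm A O (K : Set (U J))) :
    trH A (FlH O K) = K := by
  apply eq_of_coe
  rw [coe_trH, coe_FlH h]
  exact fl_onto_tr h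

/-- The left filler, used also in StepB. -/
theorem left_fill {F : Set J} (hF : F.Finite) {A O : Set (Ex J)} (hx : Ext F A O)
    (ha : ∀ e ∈ O, Act e) {r : ℕ} {d u : H J} (hd : (d : Set (U J)) ⊆ Yc A)
    (hdc : IsConnected (d : Set (U J))) (hn : ∀ e ∈ O, Nt (d : Set (U J)) e)
    (hu : PG1 (A ∪ O) r F u) (hle : u ≤ FlH O d) (htr : trH A u = d) :
    ∃ T : Set (H J), Thr T u (FlH O d) ∧ ∀ x ∈ T, PG1 (A ∪ O) r F x := by
  have hA : Adm A O (d : Set (U J)) := Adm_of hx hd hdc hn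
  have hu0 := PG1_zero_iff.1 (PG1_to_zero hu)
  have hsub : (u : Set (U J)) ⊆ Fl O (d : Set (U J)) := by
    rw [← coe_FlH hA]
    exact le_iff_sub.1 hle
  have hM : MH A O u = FlH O d := MH_eq_Fl hx ha hd hdc hn hu0.2.1 hsub htr
  obtain ⟨T, hT, hTp⟩ := thr_M hF hx ha hu
  rw [hM] at hT
  exact ⟨T, hT, hTp⟩

theorem step_alpha {F : Set J} (hF : F.Finite) {A O : Set (Ex J)} (hx : Ext F A O)
    (ha : ∀ e ∈ O, Act e) {i : J} (hs1 : ∀ e ∈ A ∪ O, i ∈ ls e → ∀ ρ, sb i ρ e ∈ A) {r : ℕ}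
    (hIH : LiftIH r F) {K b : H J} {S : Set (H J)} {ρ : Ex J → Ru} (hT : TD A F i r K b S ρ)
    (hn : ∀ e ∈ O, Nt (b : Set (U J)) e) :
    ∃ (b' : H J) (S' : Set (H J)) (ρ' : Ex J → Ru), TD (A ∪ O) F i r (FlH O K) b' S' ρ' := by
  have hnS : ∀ d ∈ S, ∀ e ∈ O, Nt (d : Set (U J)) e := by
    intro d hd e he
    obtain ⟨y, hy, hy1⟩ := hn e he
    exact ⟨y, le_iff_sub.1 (hT.thr.low d hd) hy, hy1⟩
  have hSY : ∀ d ∈ S, (d : Set (U J)) ⊆ Yc A := fun d hd =>
    (PG1_zero_iff.1 (PG1_to_zero (hT.pg d hd))).1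
  have hSc : ∀ d ∈ S, IsConnected (d : Set (U J)) := fun d hd =>
    (PG1_zero_iff.1 (PG1_to_zero (hT.pg d hd))).2.1
  have hAd : ∀ d ∈ S, Adm A O (d : Set (U J)) := fun d hd =>
    Adm_of hx (hSY d hd) (hSc d hd) (hnS d hd)
  have hbS : b ∈ S := hT.thr.left
  have hKS : K ∈ S := hT.thr.right
  have hmono : ∀ p ∈ S, ∀ q ∈ S, p ≤ q → FlH O p ≤ FlH O q := by
    intro p hp q hq hpq
    rw [le_iff_sub, coe_FlH (hAd p hp), coe_FlH (hAd q hq)]
    exact fl_mono (le_iff_sub.1 hpq)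
  have hcl : IsClosed {t : H J × H J | PG1 (A ∪ O) r F t.2} :=
    (isClosed_PG1 hF hx.union r).preimage continuous_snd
  have hmem : ∀ p ∈ S, (p, FlH O p) ∈ {t : H J × H J | PG1 (A ∪ O) r F t.2} := fun p hp =>
    hIH A O p hx ha (hnS p hp) (hT.pg p hp)
  have hl : ∀ p ∈ S, p ≠ b → ∀ u, IsLUB (FlH O '' {q | q ∈ S ∧ q < p}) u →
      (p, u) ∈ {t : H J × H J | PG1 (A ∪ O) r F t.2} →
      ∃ T, Thr T u (FlH O p) ∧ ∀ x ∈ T, (p, x) ∈ {t : H J × H J | PG1 (A ∪ O) r F t.2} := by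
    intro p hp hpb u hu hpu
    have hle : u ≤ FlH O p := by
      apply hu.2
      rintro x ⟨q, ⟨hq, hqp⟩, rfl⟩
      exact hmono q hq p hp hqp.le
    have hch : ∀ x ∈ FlH O '' {q | q ∈ S ∧ q < p}, ∀ y ∈ FlH O '' {q | q ∈ S ∧ q < p},
        x ≤ y ∨ y ≤ x := by
      rintro x ⟨q, ⟨hq, -⟩, rfl⟩ y ⟨q', ⟨hq', -⟩, rfl⟩
      rcases hT.thr.chain q hq q' hq' with h | h
      · exact Or.inl (hmono q hq q' hq' h)
      · exact Or.inr (hmono q' hq' q hq h)
    have hne : (FlH O '' {q | q ∈ S ∧ q < p}).Nonempty :=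
      (hT.thr.below_nonempty hp hpb).image _
    have hlub := lub_image hch hne hu (continuous_trH A) (trH_mono A)
    have himg : trH A '' (FlH O '' {q | q ∈ S ∧ q < p}) = {q | q ∈ S ∧ q < p} := by
      rw [image_image]
      ext x
      constructor
      · rintro ⟨q, hq, rfl⟩
        have h1 : trH A (FlH O q) = q := trH_FlH (hAd q hq.1)
        simp only [h1]
        exact hq
      · intro hxq
        exact ⟨x, hxq, trH_FlH (hAd x hxq.1)⟩
    rw [himg] at hlub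
    have htr : trH A u = p := hlub.unique (hT.thr.isLUB_below hp hpb)
    exact left_fill hF hx ha (hSY p hp) (hSc p hp) (hnS p hp) hpu hle htr
  have hr : ∀ p ∈ S, p ≠ K → ∀ u, IsGLB (FlH O '' {q | q ∈ S ∧ p < q}) u →
      (p, u) ∈ {t : H J × H J | PG1 (A ∪ O) r F t.2} →
      ∃ T, Thr T (FlH O p) u ∧ ∀ x ∈ T, (p, x) ∈ {t : H J × H J | PG1 (A ∪ O) r F t.2} := by
    intro p hp hpK u hu hpu
    have hch : ∀ x ∈ FlH O '' {q | q ∈ S ∧ p < q}, ∀ y ∈ FlH O '' {q | q ∈ S ∧ p < q},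
        x ≤ y ∨ y ≤ x := by
      rintro x ⟨q, ⟨hq, -⟩, rfl⟩ y ⟨q', ⟨hq', -⟩, rfl⟩
      rcases hT.thr.chain q hq q' hq' with h | h
      · exact Or.inl (hmono q hq q' hq' h)
      · exact Or.inr (hmono q' hq' q hq h)
    have hne := hT.thr.above_nonempty hp hpK
    have hu1 := coe_of_isGLB (hne.image _) hch hu
    have hp1 := coe_of_isGLB hne (fun x hx y hy => hT.thr.chain x hx.1 y hy.1)
      (hT.thr.isGLB_above hp hpK)
    have hp2 : (p : Set (U J)) = ⋂ q : {q : H J // q ∈ S ∧ p < q}, ((q : H J) : Set (U J)) := by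
      rw [hp1]
      ext y
      simp only [mem_iInter]
      exact ⟨fun h q => h q.1 q.2, fun h q hq => h ⟨q, hq⟩⟩
    have hu2 : (u : Set (U J)) =
        ⋂ q : {q : H J // q ∈ S ∧ p < q}, Fl O ((q : H J) : Set (U J)) := by
      rw [hu1]
      ext y
      simp only [mem_iInter]
      constructor
      · intro h q
        have h1 := h (FlH O q.1) ⟨q.1, q.2, rfl⟩
        rw [← coe_FlH (hAd q.1 q.2.1)]
        exact h1
      · rintro h L ⟨q, hq, rfl⟩
        have h1 := h ⟨q, hq⟩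
        rw [← coe_FlH (hAd q hq.1)] at h1
        exact h1
    have : Nonempty {q : H J // q ∈ S ∧ p < q} := hne.to_subtype
    have hfl : Fl O (⋂ q : {q : H J // q ∈ S ∧ p < q}, ((q : H J) : Set (U J))) =
        ⋂ q : {q : H J // q ∈ S ∧ p < q}, Fl O ((q : H J) : Set (U J)) := by
      apply fl_iInter (A := A)
      · intro q q'
        rcases hT.thr.chain q.1 q.2.1 q'.1 q'.2.1 with h | h
        · exact ⟨q, subset_rfl, le_iff_sub.1 h⟩
        · exact ⟨q', le_iff_sub.1 h, subset_rfl⟩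
      · intro q
        exact hAd q.1 q.2.1
      · rw [← hp2]
        exact hnS p hp
    have hup : u = FlH O p := by
      apply eq_of_coe
      rw [coe_FlH (hAd p hp), hu2, ← hfl, ← hp2]
    subst hup
    refine ⟨{FlH O p}, thr_singleton _, ?_⟩
    rintro x rfl
    exact hpu
  obtain ⟨𝒯, h𝒯, h𝒯G, -⟩ := filling hT.thr hmono hcl hmem hl hr
  obtain ⟨ρ', -, hρ'⟩ := form hx ha hs1 (hAd K hKS).cpt (hAd b hbS).cpt (hSY K hKS)
    (hnS K hKS) hn hT.sec
  refine ⟨FlH O b, Prod.snd '' 𝒯, ρ', h𝒯.image continuous_snd monotone_snd, ?_, ?_, ?_⟩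
  · rintro d ⟨t, ht, rfl⟩
    exact h𝒯G ht
  · intro y hy
    have h1 : y ∈ Fl O (b : Set (U J)) := by
      rw [← coe_FlH (hAd b hbS)]
      exact hy
    have h2 : tr A y ∈ (b : Set (U J)) := by
      rw [← fl_onto_tr (hAd b hbS)]
      exact mem_image_of_mem _ h1
    exact hT.lz (tr A y) h2
  · intro y hy
    have h1 : y ∈ Fl O (K : Set (U J)) := by
      rw [← coe_FlH (hAd K hKS)]
      exact hy
    have h2 : sc i ρ' (A ∪ O) y ∈ (FlH O b : Set (U J)) := by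
      rw [coe_FlH (hAd b hbS)]
      exact hρ' y h1
    exact h2

end Pool.DM
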