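import Pool.Agent.Helper84.DM.StepA
import Pool.Agent.Helper84.DM.Delta

/-!
# DM-StepB: lifting a thread, the bottom is not touched

`O = orb F e₀`. All `d ∈ S` are `PF F`-invariant (`PG1_to_zero`, `PG1_zero_iff`). For `e = e₀.map σ ∈ O`, `σ ∈ PF F`, `y ∈ d`:
`val e y = val e₀ (act σ.symm y)`, `act σ.symm y ∈ d` and `val e (act σ y) = val e₀ y`. So all conditions on the values of `e₀` on `d` hold for
all `e ∈ O` (`orb_all`, `orb_ex`).

`step_beta`. Let `ε`, `δ` be given by `exists_delta` for `e₀`.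
 (s1) for `d ∈ S`, `δ < d`: `sht ε O y ∈ Fl O d` for `y ∈ δ` (`fl_sheet` with `K := d`, `Q := δ`; `d` touches all `e ∈ O`, `Adm_of`).
 (s2) `sht ε O y ∈ Yc (A ∪ O)` for `y ∈ δ` (`fl_sheet` with `K := Yc A`, `Adm_Yc`, `Yc_full`).
 `Φ d = shtH ε O d` for `d ≤ δ`, `FlH O d` otherwise (then `δ < d`). Monotone on `S` (`shtH_mono`, `fl_mono`, (s1)).
 `𝒢 = {(d, x) | PG1 (A ∪ O) r F x}` is closed; `(d, Φ d) ∈ 𝒢` by `PG1_sheet` and (s2), resp. by `LiftIH`. `trH A (Φ d) = d` (`tr_sht`,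
 `trH_FlH`). We apply `filling` (`P = X = H J`).
 Left, `d ≠ b`, `u` the least upper bound of the `Φ d'`, `d' < d`. If `d ≤ δ`: `u = shtH ε O d` (`Thr.isLUB_below`, `lub_image`), `T = {Φ d}`.
  If `δ < d`: `left_fill`; `trH A u = d` because `trH A u` is the least upper bound of the `d'` (`lub_image`).
 Right, `d ≠ K`, `u` the greatest lower bound of the `Φ d'`, `d' > d`. If `δ < d`: as in `step_alpha` `u = Fl O d`. If `d < δ`: `u = shtH ε O d` (`d` is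
  the greatest lower bound of the `d' ∈ S` with `d < d' ≤ δ`, `glb_image`; for the other `d'`, `Φ d' ≥ Φ δ`). If `d = δ`: let `N = shtH ε O δ`,
  `PG1 (A ∪ O) r F N`. Claim `u = MH A O N`; then `thr_M` gives the thread. `u = ⋂ Fl O d'` over the `d' ∈ S`, `d' > δ` (`coe_of_isGLB`,
  `coe_FlH`). `N ≤ u` by (s1). `u` is connected and `⊆ Yc (A ∪ O)` (`(δ, u) ∈ 𝒢`), and `tr A y ∈ ⋂ d' = δ = trH A N` for `y ∈ u`, so
  `u ≤ MH A O N` (`M_capture`). Conversely, for `d' > δ`, `MH A O N` is a preconnected subset of `FO O d'` (`y ∈ MH A O N` is in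
  `Yc (A ∪ O)`, so `zer O y = tr A y ∈ trH A N = δ ≤ d'` (`zer_eq_tr`, `M_tr`), and `Yc_rel`), meeting `Fl O d'` in `N`, so `fl_capture`.
 So there is a thread from `shtH ε O b` to `Φ K` (project to the second coordinate). If `δ < K` then `Φ K = FlH O K`. If `K = δ`, then
 `Φ K = shtH ε O K =: N`, and `MH A O N = FlH O K` (`MH_eq_Fl`; `N ⊆ Fl O K` by `fl_sheet` with `Q = K`), and we append the thread of `thr_M` (`Thr.union`).
 Rules `rs ρ O ε`, bottom `shtH ε O b`. Section condition: `i ∈ ls e` for all `e ∈ O`: otherwise `val e (sc i ρ A y) = val e y` (`val_sc`,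
 `sb_of_notMem`) for a point `y ∈ K` with `1 < |val e y|`, and `b` would touch `e`, so `e₀`. For `y ∈ Fl O K`: `tr A y ∈ K`, and `sc_sht`.

`step`: if `b` touches `e₀` it touches all `e ∈ O` and `step_alpha` applies, otherwise `step_beta`.
-/

open Set Topology TopologicalSpace

namespace Pool.DM

variable {J : Type}

theorem orb_all {F : Set J} {e₀ : Ex J} {K : H J} (hK : ∀ σ ∈ PF F, ∀ y ∈ K, act σ y ∈ K)
    {p : ℝ → Prop} (h : ∀ y ∈ K, p (val e₀ y)) : ∀ e ∈ orb F e₀, ∀ y ∈ K, p (val e y) := by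
  rintro _ ⟨σ, hσ, rfl⟩ y hy
  have h1 := h _ (hK σ.symm (PF_symm hσ) y hy)
  rw [val_act, Equiv.symm_symm] at h1
  exact h1

theorem orb_ex {F : Set J} {e₀ : Ex J} {K : H J} (hK : ∀ σ ∈ PF F, ∀ y ∈ K, act σ y ∈ K)
    {p : ℝ → Prop} (h : ∃ y ∈ K, p (val e₀ y)) : ∀ e ∈ orb F e₀, ∃ y ∈ K, p (val e y) := by
  rintro _ ⟨σ, hσ, rfl⟩
  obtain ⟨y, hy, h1⟩ := h
  refine ⟨act σ y, hK σ hσ y hy, ?_⟩
  show p (val (e₀.map σ) (act σ y))
  rw [val_map_act]
  exact h1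

private theorem sb_trSht {F : Set J} {A O : Set (Ex J)} (hx : Ext F A O) {K : H J}
    (hK : (K : Set (U J)) ⊆ Yc A) (ε : ℝ) : trH A (shtH ε O K) = K := by
  have h0 : ∀ y ∈ K, tr A (sht ε O y) = y := fun y hy =>
    tr_sht hx.dis (fun e he => Yc_flat (hK hy) he)
  apply eq_of_coe
  ext z
  constructor
  · intro hz
    obtain ⟨x, hx', rfl⟩ := (mem_mapH (continuous_tr A) _ z).1 hz
    obtain ⟨y, hy, rfl⟩ := (mem_mapH (continuous_sht ε O) _ x).1 hx'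
    rw [h0 y hy]
    exact hy
  · intro hz
    refine (mem_mapH (continuous_tr A) _ z).2 ⟨sht ε O z, ?_, h0 z hz⟩
    exact (mem_mapH (continuous_sht ε O) _ _).2 ⟨z, hz, rfl⟩

private theorem sb_cap {F : Set J} {A O : Set (Ex J)} (hx : Ext F A O) (ha : ∀ e ∈ O, Act e)
    {N d : H J} (hN : Gd A O N) (hd : Adm A O (d : Set (U J))) (htr : trH A N ≤ d)
    (hNd : (N : Set (U J)) ⊆ Fl O (d : Set (U J))) : MH A O N ≤ FlH O d := by
  have hM := Gd_MH hx hN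
  rw [le_iff_sub, coe_FlH hd]
  refine fl_capture hd hM.2.isPreconnected ?_ ?_
  · intro y hy
    have hyY : y ∈ Yc (A ∪ O) := hM.1 hy
    refine ⟨?_, fun e he => Yc_rel hx.union.clo hyY (Or.inr he) (ha e he)⟩
    rw [zer_eq_tr hx.dis (fun e he => Yc_flat hyY he)]
    have h1 : tr A y ∈ trH A (MH A O N) := (mem_mapH (continuous_tr A) _ _).2 ⟨y, hy, rfl⟩
    rw [M_tr hx hN] at h1
    exact htr h1
  · obtain ⟨y, hy⟩ := N.nonempty
    exact ⟨y, le_MH hx hN hy, hNd hy⟩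

/-- the main construction -/
private theorem sb_thread {F : Set J} (hF : F.Finite) {A O : Set (Ex J)} (hx : Ext F A O)
    (ha : ∀ e ∈ O, Act e) {r : ℕ} (hIH : LiftIH r F) {K b δ : H J} {S : Set (H J)} {ε : ℝ}
    (hε : ε = 1 ∨ ε = -1) (hS : Thr S b K) (hpg : ∀ d ∈ S, PG1 A r F d) (hδ : δ ∈ S)
    (hKt : ∀ e ∈ O, Nt (K : Set (U J)) e)
    (hlo : ∀ e ∈ O, ∀ y ∈ δ, -1 ≤ ε * val e y) (hhi : ∀ e ∈ O, ∃ y ∈ δ, 1 ≤ ε * val e y)
    (hup : ∀ d ∈ S, δ < d → ∀ e ∈ O, Nt (d : Set (U J)) e) :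
    ∃ T : Set (H J), Thr T (shtH ε O b) (FlH O K) ∧ ∀ x ∈ T, PG1 (A ∪ O) r F x := by
  classical
  have hb0 : ∀ d ∈ S, (d : Set (U J)) ⊆ Yc A ∧ IsConnected (d : Set (U J)) := by
    intro d hd
    have h1 := PG1_zero_iff.1 (PG1_to_zero (hpg d hd))
    exact ⟨h1.1, h1.2.1⟩
  have hlt : ∀ d ∈ S, ¬ d ≤ δ → δ < d := by
    intro d hd h
    rcases hS.chain d hd δ hδ with h1 | h1
    · exact absurd h1 h
    · exact lt_of_le_not_ge h1 h
  have hadm : ∀ d ∈ S, ¬ d ≤ δ → Adm A O (d : Set (U J)) := by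
    intro d hd h
    exact Adm_of hx (hb0 d hd).1 (hb0 d hd).2 (hup d hd (hlt d hd h))
  have hadmK : Adm A O (K : Set (U J)) :=
    Adm_of hx (hb0 K hS.right).1 (hb0 K hS.right).2 hKt
  have hδK : δ ≤ K := hS.high δ hδ
  have hbδ : b ≤ δ := hS.low δ hδ
  -- (s1)
  have s1 : ∀ d : H J, Adm A O (d : Set (U J)) → δ ≤ d → ∀ y ∈ δ, sht ε O y ∈ Fl O (d : Set (U J)) := by
    intro d hd hle y hy
    exact fl_sheet hd hε (hb0 δ hδ).2.isPreconnected (le_iff_sub.1 hle) hlo hhi y hy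
  -- (s2)
  have s2 : ∀ y ∈ δ, sht ε O y ∈ Yc (A ∪ O) := by
    intro y hy
    rw [Yc_full hx.lev.fin hx.lev.clo hx.fin hx.dis hx.fsA ha]
    exact fl_sheet (Adm_Yc hx.lev.fin hx.lev.clo hx.fin hx.dis hx.fsA ha) hε
      (hb0 δ hδ).2.isPreconnected (hb0 δ hδ).1 hlo hhi y hy
  have hsub : ∀ (N : H J) {T : Set (U J)}, (∀ y ∈ N, sht ε O y ∈ T) →
      (shtH ε O N : Set (U J)) ⊆ T := by
    intro N T h z hz
    obtain ⟨y, hy, rfl⟩ := (mem_mapH (continuous_sht ε O) _ z).1 hz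
    exact h y hy
  obtain ⟨Φ, hΦ1, hΦ2⟩ : ∃ Φ : H J → H J, (∀ d, d ≤ δ → Φ d = shtH ε O d) ∧
      ∀ d, ¬ d ≤ δ → Φ d = FlH O d :=
    ⟨fun d => if d ≤ δ then shtH ε O d else FlH O d, fun d h => if_pos h, fun d h => if_neg h⟩
  have hΦ : ∀ p ∈ S, ∀ q ∈ S, p ≤ q → Φ p ≤ Φ q := by
    intro p hp q hq hpq
    by_cases h1 : p ≤ δ
    · by_cases h2 : q ≤ δ
      · rw [hΦ1 p h1, hΦ1 q h2]
        exact shtH_mono ε O hpq
      · rw [hΦ1 p h1, hΦ2 q h2, le_iff_sub, coe_FlH (hadm q hq h2)]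
        refine hsub p ?_
        intro y hy
        exact s1 q (hadm q hq h2) (hlt q hq h2).le y (h1 hy)
    · have h2 : ¬ q ≤ δ := fun h2 => h1 (hpq.trans h2)
      rw [hΦ2 p h1, hΦ2 q h2, le_iff_sub, coe_FlH (hadm p hp h1), coe_FlH (hadm q hq h2)]
      exact fl_mono (le_iff_sub.1 hpq)
  have hΦpg : ∀ p ∈ S, PG1 (A ∪ O) r F (Φ p) := by
    intro p hp
    by_cases h1 : p ≤ δ
    · rw [hΦ1 p h1]
      exact PG1_sheet hε r F p hx (hpg p hp) (fun y hy => s2 y (h1 hy))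
    · rw [hΦ2 p h1]
      exact hIH A O p hx ha (hup p hp (hlt p hp h1)) (hpg p hp)
  have hΦtr : ∀ p ∈ S, trH A (Φ p) = p := by
    intro p hp
    by_cases h1 : p ≤ δ
    · rw [hΦ1 p h1]
      exact sb_trSht hx (hb0 p hp).1 ε
    · rw [hΦ2 p h1]
      exact trH_FlH (hadm p hp h1)
  have hch : ∀ C : Set (H J), C ⊆ S → ∀ x ∈ Φ '' C, ∀ y ∈ Φ '' C, x ≤ y ∨ y ≤ x := by
    rintro C hC _ ⟨p, hp, rfl⟩ _ ⟨q, hq, rfl⟩
    rcases hS.chain p (hC hp) q (hC hq) with h1 | h1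
    · exact Or.inl (hΦ p (hC hp) q (hC hq) h1)
    · exact Or.inr (hΦ q (hC hq) p (hC hp) h1)
  have hcl : IsClosed {x : H J × H J | PG1 (A ∪ O) r F x.2} :=
    (isClosed_PG1 hF hx.union r).preimage continuous_snd
  have hsing : ∀ p ∈ S, ∃ T, Thr T (Φ p) (Φ p) ∧
      ∀ x ∈ T, (p, x) ∈ {x : H J × H J | PG1 (A ∪ O) r F x.2} := by
    intro p hp
    refine ⟨{Φ p}, thr_singleton _, ?_⟩
    rintro x rfl
    exact hΦpg p hp
  -- left
  have hl : ∀ p ∈ S, p ≠ b → ∀ u, IsLUB (Φ '' {q | q ∈ S ∧ q < p}) u →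
      (p, u) ∈ {x : H J × H J | PG1 (A ∪ O) r F x.2} →
      ∃ T, Thr T u (Φ p) ∧ ∀ x ∈ T, (p, x) ∈ {x : H J × H J | PG1 (A ∪ O) r F x.2} := by
    intro p hp hpb u hu hpu
    have hCS : {q | q ∈ S ∧ q < p} ⊆ S := fun q hq => hq.1
    have hCn := hS.below_nonempty hp hpb
    have hCl := hS.isLUB_below hp hpb
    by_cases h1 : p ≤ δ
    · have h2 : Φ '' {q | q ∈ S ∧ q < p} = shtH ε O '' {q | q ∈ S ∧ q < p} :=
        image_congr (fun q hq => hΦ1 q (hq.2.le.trans h1))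
      have h3 : IsLUB (shtH ε O '' {q | q ∈ S ∧ q < p}) (shtH ε O p) :=
        lub_image (fun x hx' y hy => hS.chain x hx'.1 y hy.1) hCn hCl (continuous_shtH ε O)
          (shtH_mono ε O)
      rw [h2] at hu
      have h4 : u = Φ p := by
        rw [hΦ1 p h1]
        exact hu.unique h3
      rw [h4]
      exact hsing p hp
    · have h2 : u ≤ FlH O p := by
        apply hu.2
        rintro _ ⟨q, hq, rfl⟩
        rw [← hΦ2 p h1]
        exact hΦ q hq.1 p hp hq.2.le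
      have h3 : IsLUB (trH A '' (Φ '' {q | q ∈ S ∧ q < p})) (trH A u) :=
        lub_image (hch _ hCS) (hCn.image Φ) hu (continuous_trH A)
          (map_monoH (continuous_tr A))
      have h4 : trH A '' (Φ '' {q | q ∈ S ∧ q < p}) = {q | q ∈ S ∧ q < p} := by
        rw [image_image]
        have h5 : ∀ q ∈ {q | q ∈ S ∧ q < p}, trH A (Φ q) = id q := fun q hq => hΦtr q hq.1
        rw [image_congr h5, image_id]
      rw [h4] at h3
      rw [hΦ2 p h1]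
      exact left_fill hF hx ha (hb0 p hp).1 (hb0 p hp).2 (hup p hp (hlt p hp h1)) hpu h2
        (h3.unique hCl)
  -- right
  have hr : ∀ p ∈ S, p ≠ K → ∀ u, IsGLB (Φ '' {q | q ∈ S ∧ p < q}) u →
      (p, u) ∈ {x : H J × H J | PG1 (A ∪ O) r F x.2} →
      ∃ T, Thr T (Φ p) u ∧ ∀ x ∈ T, (p, x) ∈ {x : H J × H J | PG1 (A ∪ O) r F x.2} := by
    intro p hp hpK u hu hpu
    have hCS : {q | q ∈ S ∧ p < q} ⊆ S := fun q hq => hq.1
    have hCn := hS.above_nonempty hp hpK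
    have hCg := hS.isGLB_above hp hpK
    have hCc := coe_of_isGLB hCn (fun x hx' y hy => hS.chain x hx'.1 y hy.1) hCg
    have huc := coe_of_isGLB (hCn.image Φ) (hch _ hCS) hu
    by_cases h1 : p ≤ δ
    swap
    · -- `δ < p`
      have hδp := hlt p hp h1
      have h2 : ∀ q ∈ {q | q ∈ S ∧ p < q}, ¬ q ≤ δ := fun q hq h => h1 (hq.2.le.trans h)
      have : Nonempty {q // q ∈ {q | q ∈ S ∧ p < q}} := hCn.to_subtype
      have h3 : (p : Set (U J)) = ⋂ a : {q // q ∈ {q | q ∈ S ∧ p < q}}, (a.1 : Set (U J)) := by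
        rw [hCc]
        exact biInter_eq_iInter _ _
      have h4 := fl_iInter (A := A) (O := O)
        (K := fun a : {q // q ∈ {q | q ∈ S ∧ p < q}} => (a.1 : Set (U J)))
        (by
          intro x y
          rcases hS.chain x.1 x.2.1 y.1 y.2.1 with h5 | h5
          · exact ⟨x, subset_rfl, le_iff_sub.1 h5⟩
          · exact ⟨y, le_iff_sub.1 h5, subset_rfl⟩)
        (fun a => hadm a.1 a.2.1 (h2 a.1 a.2))
        (by
          rw [← h3]
          exact hup p hp hδp)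
      have h5 : u = Φ p := by
        apply eq_of_coe
        rw [huc, hΦ2 p h1, coe_FlH (hadm p hp h1)]
        conv_rhs => rw [h3]
        rw [h4, biInter_image, biInter_eq_iInter]
        refine iInter_congr fun a => ?_
        rw [hΦ2 a.1 (h2 a.1 a.2), coe_FlH (hadm a.1 a.2.1 (h2 a.1 a.2))]
      rw [h5]
      exact hsing p hp
    rcases h1.lt_or_eq with h1' | rfl
    · -- `p < δ`
      have hT := hS.restrict hS.left hδ hbδ
      have hpT : p ∈ {x | x ∈ S ∧ b ≤ x ∧ x ≤ δ} := ⟨hp, hS.low p hp, h1⟩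
      have hDn := hT.above_nonempty hpT h1'.ne
      have hDg := hT.isGLB_above hpT h1'.ne
      have h3 : IsGLB (shtH ε O '' {q | q ∈ {x | x ∈ S ∧ b ≤ x ∧ x ≤ δ} ∧ p < q})
          (shtH ε O p) :=
        glb_image (fun x hx' y hy => hS.chain x hx'.1.1 y hy.1.1) hDn hDg (continuous_shtH ε O)
          (shtH_mono ε O)
      have h4 : IsGLB (Φ '' {q | q ∈ S ∧ p < q}) (Φ p) := by
        constructor
        · rintro _ ⟨q, hq, rfl⟩
          exact hΦ p hp q hq.1 hq.2.le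
        · intro v hv
          rw [hΦ1 p h1]
          apply h3.2
          rintro _ ⟨q, hq, rfl⟩
          rw [← hΦ1 q hq.1.2.2]
          exact hv ⟨q, ⟨hq.1.1, hq.2⟩, rfl⟩
      rw [hu.unique h4]
      exact hsing p hp
    · -- `p = δ`
      have hN : Gd A O (Φ p) := by
        have h2 := PG1_zero_iff.1 (PG1_to_zero (hΦpg p hp))
        exact ⟨h2.1, h2.2.1⟩
      have hug : (u : Set (U J)) ⊆ Yc (A ∪ O) ∧ IsConnected (u : Set (U J)) := by
        have h2 := PG1_zero_iff.1 (PG1_to_zero (K := u) hpu)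
        exact ⟨h2.1, h2.2.1⟩
      have hNu : Φ p ≤ u := by
        apply hu.2
        rintro _ ⟨q, hq, rfl⟩
        exact hΦ p hp q hq.1 hq.2.le
      have h2 : u = MH A O (Φ p) := by
        apply le_antisymm
        · rw [le_iff_sub]
          refine M_capture hx hN hug.2.isPreconnected hug.1 ?_ ?_
          · intro y hy
            rw [hΦtr p hp]
            have h3 : ∀ q ∈ {q | q ∈ S ∧ p < q}, tr A y ∈ q := by
              intro q hq
              have h4 : u ≤ Φ q := hu.1 ⟨q, hq, rfl⟩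
              have h5 : tr A y ∈ trH A (Φ q) :=
                (mem_mapH (continuous_tr A) _ _).2 ⟨y, h4 hy, rfl⟩
              rw [hΦtr q hq.1] at h5
              exact h5
            have h4 : tr A y ∈ (p : Set (U J)) := by
              rw [hCc]
              exact mem_iInter₂.2 h3
            exact h4
          · obtain ⟨y, hy⟩ := (Φ p).nonempty
            exact ⟨y, hNu hy, le_MH hx hN hy⟩
        · apply hu.2
          rintro _ ⟨q, hq, rfl⟩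
          have h3 : ¬ q ≤ p := not_le_of_gt hq.2
          rw [hΦ2 q h3]
          refine sb_cap hx ha hN (hadm q hq.1 h3) ?_ ?_
          · rw [hΦtr p hp]
            exact hq.2.le
          · rw [← coe_FlH (hadm q hq.1 h3), ← hΦ2 q h3]
            exact le_iff_sub.1 (hΦ p hp q hq.1 hq.2.le)
      obtain ⟨T, hT1, hT2⟩ := thr_M hF hx ha (hΦpg p hp)
      rw [← h2] at hT1
      exact ⟨T, hT1, hT2⟩
  obtain ⟨𝒯, hT1, hT2, -⟩ := filling hS hΦ hcl (fun p hp => hΦpg p hp) hl hr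
  have hT3 : Thr (Prod.snd '' 𝒯) (Φ b) (Φ K) := hT1.image continuous_snd monotone_snd
  have hT4 : ∀ x ∈ Prod.snd '' 𝒯, PG1 (A ∪ O) r F x := by
    rintro _ ⟨x, hx', rfl⟩
    exact hT2 hx'
  rw [hΦ1 b hbδ] at hT3
  by_cases hK : K ≤ δ
  · rw [hΦ1 K hK] at hT3
    have hKpg := hΦpg K hS.right
    rw [hΦ1 K hK] at hKpg
    obtain ⟨T, hT5, hT6⟩ := thr_M hF hx ha hKpg
    have h2 := PG1_zero_iff.1 (PG1_to_zero hKpg)
    have h3 : MH A O (shtH ε O K) = FlH O K := by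
      refine MH_eq_Fl hx ha (hb0 K hS.right).1 (hb0 K hS.right).2 hKt h2.2.1 ?_
        (sb_trSht hx (hb0 K hS.right).1 ε)
      exact hsub K (fun y hy => s1 K hadmK hδK y (hK hy))
    rw [h3] at hT5
    refine ⟨Prod.snd '' 𝒯 ∪ T, hT3.union hT5, ?_⟩
    rintro x (hx' | hx')
    · exact hT4 x hx'
    · exact hT6 x hx'
  · rw [hΦ2 K hK] at hT3
    exact ⟨_, hT3, hT4⟩

theorem step_beta {F : Set J} (hF : F.Finite) {A : Set (Ex J)} {e₀ : Ex J}
    (hx : Ext F A (orb F e₀)) (ha : ∀ e ∈ orb F e₀, Act e) {i : J}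
    (hs1 : ∀ e ∈ A ∪ orb F e₀, i ∈ ls e → ∀ ρ, sb i ρ e ∈ A) {r : ℕ}
    (hIH : LiftIH r F) {K b : H J} {S : Set (H J)} {ρ : Ex J → Ru} (hT : TD A F i r K b S ρ)
    (hn : Nt (K : Set (U J)) e₀) (hnb : ¬ Nt (b : Set (U J)) e₀) :
    ∃ (b' : H J) (S' : Set (H J)) (ρ' : Ex J → Ru),
      TD (A ∪ orb F e₀) F i r (FlH (orb F e₀) K) b' S' ρ' := by
  have hinv : ∀ d ∈ S, ∀ σ ∈ PF F, ∀ y ∈ d, act σ y ∈ d := fun d hd =>
    (PG1_zero_iff.1 (PG1_to_zero (hT.pg d hd))).2.2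
  have hb0 : ∀ d ∈ S, (d : Set (U J)) ⊆ Yc A ∧ IsConnected (d : Set (U J)) := by
    intro d hd
    have h1 := PG1_zero_iff.1 (PG1_to_zero (hT.pg d hd))
    exact ⟨h1.1, h1.2.1⟩
  obtain ⟨ε, hε, δ, hδ, h1, h2, h3⟩ := exists_delta hT.thr hn hnb
  have hKt : ∀ e ∈ orb F e₀, Nt (K : Set (U J)) e :=
    orb_ex (hinv K hT.thr.right) (p := fun t => 1 < |t|) hn
  have hup : ∀ d ∈ S, δ < d → ∀ e ∈ orb F e₀, Nt (d : Set (U J)) e := by
    intro d hd hlt
    refine orb_ex (hinv d hd) (p := fun t => 1 < |t|) ?_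
    obtain ⟨⟨y, hy, hy1⟩, -⟩ := h3 d hd hlt
    refine ⟨y, hy, ?_⟩
    rcases hε with rfl | rfl
    · rw [one_mul] at hy1
      exact lt_of_lt_of_le hy1 (le_abs_self _)
    · have h4 := neg_le_abs (val e₀ y)
      show 1 < |val e₀ y|
      linarith
  obtain ⟨T, hT1, hT2⟩ := sb_thread hF hx ha hIH hε hT.thr hT.pg hδ hKt
    (orb_all (hinv δ hδ) (p := fun t => -1 ≤ ε * t) h1)
    (orb_ex (hinv δ hδ) (p := fun t => 1 ≤ ε * t) h2) hup
  refine ⟨shtH ε (orb F e₀) b, T, rs ρ (orb F e₀) ε, hT1, hT2, ?_, ?_⟩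
  · intro y hy
    obtain ⟨x, hx', rfl⟩ := (mem_mapH (continuous_sht ε (orb F e₀)) _ y).1 hy
    exact hT.lz x hx'
  · intro y hy
    have hadm : Adm A (orb F e₀) (K : Set (U J)) :=
      Adm_of hx (hb0 K hT.thr.right).1 (hb0 K hT.thr.right).2 hKt
    have hy' : y ∈ Fl (orb F e₀) (K : Set (U J)) := by
      rw [← coe_FlH hadm]
      exact hy
    have hyK : tr A y ∈ (K : Set (U J)) := by
      rw [← fl_onto_tr hadm]
      exact ⟨y, hy', rfl⟩
    have hli : ∀ e ∈ orb F e₀, i ∈ ls e := by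
      intro e he
      by_contra hi
      obtain ⟨x, hx', hx1⟩ := hKt e he
      apply hnb
      have h4 : sc i ρ A x ∈ b := hT.sec x hx'
      have h5 : val e (sc i ρ A x) = val e x := by
        rw [val_sc (hx.fsA e he), sb_of_notMem ρ hi]
      obtain ⟨σ, hσ, hσe⟩ := he
      refine ⟨act σ.symm (sc i ρ A x), hinv b hT.thr.left σ.symm (PF_symm hσ) _ h4, ?_⟩
      rw [val_act, Equiv.symm_symm]
      have h6 : e₀.map σ = e := hσe
      rw [h6, h5]
      exact hx1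
    have h7 := sc_sht (i := i) (ρ := ρ) hx.lev.clo
      (fun e he => hs1 e (Or.inl he)) hx.dis hx.fsA (fun e he => hs1 e (Or.inr he)) hε
      (y := y) (y₀ := tr A y) rfl (fun e he hi => absurd (hli e he) hi)
    rw [h7]
    exact (mem_mapH (continuous_sht ε (orb F e₀)) _ _).2 ⟨_, hT.sec _ hyK, rfl⟩

theorem step_orb {F : Set J} (hF : F.Finite) {A : Set (Ex J)} {e₀ : Ex J}
    (hx : Ext F A (orb F e₀)) (ha : ∀ e ∈ orb F e₀, Act e) {i : J}
    (hs1 : ∀ e ∈ A ∪ orb F e₀, i ∈ ls e → ∀ ρ, sb i ρ e ∈ A) {r : ℕ}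
    (hIH : LiftIH r F) {K b : H J} {S : Set (H J)} {ρ : Ex J → Ru} (hT : TD A F i r K b S ρ)
    (hn : Nt (K : Set (U J)) e₀) :
    ∃ (b' : H J) (S' : Set (H J)) (ρ' : Ex J → Ru),
      TD (A ∪ orb F e₀) F i r (FlH (orb F e₀) K) b' S' ρ' := by
  by_cases hnb : Nt (b : Set (U J)) e₀
  · have hinv : ∀ σ ∈ PF F, ∀ y ∈ b, act σ y ∈ b :=
      (PG1_zero_iff.1 (PG1_to_zero (hT.pg b hT.thr.left))).2.2
    exact step_alpha hF hx ha hs1 hIH hT (orb_ex hinv (p := fun t => 1 < |t|) hnb)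
  · exact step_beta hF hx ha hs1 hIH hT hn hnb

end Pool.DM
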