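import Pool.Agent.Helper84.DM.PGb
import Pool.Agent.Helper84.DM.Fill
import Pool.Agent.Helper84.DM.Interp

/-!
# DM-UL: interpolation inside families with threads

`evE E K L` is the value of the operator `E` at the pair `(K, L)` (and `K` if this is not a pair of continua `K ≤ L`);
`repl z n x` replaces the member `n` of the family `z` by `x`.

`PG_UL`. `F₀` finite, `A` a level for `F₀`, `𝓔` a chain of operators for the monoid `Wm F₀ A` (`IsInt`), `a, c ≠ n`, `Rel a n`,
`Rel n c`, and every `q` with `Rel n q` is `c` or above `c`. Claim: if `z` is a family with threads of depth `r` for `F ⊆ F₀`, then so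
is `repl z n (z n ⊔ evE E (z a) (z c))`, for every `E ∈ 𝓔`. Induction on `r` (all `F`, `E`, `z`).

Write `Φ p = p n ⊔ evE E (p a) (p c)`. For a family `p` with `PG0`: `p a ≤ p n ≤ p c`, all connected.

PG0: contained in `Yc A` because `evE E (z a) (z c) ≤ z c`. Connected: `z n` and `evE ..` are connected and contain `z a ≠ ∅`. Invariance: for
`σ ∈ PF F ⊆ PF F₀`, `w = tr A ∘ act σ ∈ Wm F₀ A` (`act_mem_Wm`) maps `z a`, `z c` into themselves (on `Yc A`, which is invariant and flat,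
`w = act σ`), so it maps `evE E (z a) (z c)` into itself (`evE_equi`). Relations: `Rel q n`, `q ≠ n`: `z q ≤ z n ≤ Φ z`. `Rel n q`, `q ≠ n`: `q = c` or
`Rel c q`, so `z c ≤ z q`, and `Φ z ≤ z c`.

Depth `r + 1`: let `i ∈ F`, `ρ`, `b`, `S` the data for `z`. `𝒢 = {(p, x) | PG A Rel r (F \ {i}) (repl p n x)}` is closed
(`isClosed_PG`, `continuous_repl`). By induction `(p, Φ p) ∈ 𝒢` for `p ∈ S` (and the same for every `s ∈ 𝓔` in place of `E`). `Φ` is monotone on `S`
(`evE_mono`). We apply `filling`.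
 Left, `p ≠ b`, `u` the least upper bound of the `Φ q`, `q < p`, `(p, u) ∈ 𝒢`. `p` is the least upper bound of the `q < p` (`Thr.isLUB_below`), so `p n` is the least
 upper bound of the `q n` (`lub_image`, evaluation), so `p n ≤ u`. `u ≤ Φ p`. Take `T = {u ⊔ evE s (p a) (p c) | s ∈ 𝓔, s ≤ E}`, the
 image of the thread `IsInt.thr_le`: it goes from `u ⊔ p a = u` (`p a ≤ p n ≤ u`) to `u ⊔ evE E (p a) (p c) = Φ p`. All elements are in `𝒢_p` by induction
 for `repl p n u` and `s` (`repl (repl p n u) n x = repl p n x`, the values at `a`, `c` are those of `p`).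
 Right, `p ≠ z`, `u` the greatest lower bound of the `Φ q`, `q > p`. The relation `C = {(q, x, x') | ∃ T, Thr T x x' ∧ ∀ y ∈ T, (q, y) ∈ 𝒢}` is closed
 (`isClosed_exists_thr`). For `q ∈ S`, `q > p`: `(q, q n, Φ q) ∈ C` by `T = {q n ⊔ evE s (q a) (q c) | s ∈ 𝓔, s ≤ E}`. These triples form a chain with greatest
 lower bound `(p, p n, u)`, so `(p, p n, u) ∈ C` (`glb_mem_closure`). Let `T` be the thread from `p n` to `u`. Its image under `y ↦ y ⊔ evE E (p a) (p c)` goes from
 `Φ p` to `u ⊔ evE E (p a) (p c) = u` (`evE E (p a) (p c) ≤ Φ p ≤ u`), and it is in `𝒢_p` by induction for `repl p n y` and `E`.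
The thread `𝒯` given by `filling` is mapped by `(p, x) ↦ repl p n x` (continuous, monotone) to a thread from `repl b n (Φ b)` to
`repl z n (Φ z)`. The letter `i` is `0` on `Φ b` (`evE E (b a) (b c) ≤ b c`). Section condition for `n`: for `y ∈ evE E (z a) (z c)` use `evE_equi` with
`w = sc i ρ A ∈ Wm F₀ A` (`sc_mem_Wm`), `w '' z a ⊆ b a`, `w '' z c ⊆ b c`.
-/

open Set Topology TopologicalSpace

namespace Pool.DM

variable {J : Type}

open Classical in
/-- The value of an operator at a pair of continua. -/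
noncomputable def evE (E : GPr (U J) → H J) (K L : H J) : H J :=
  if h : K ≤ L ∧ IsConnected (K : Set (U J)) ∧ IsConnected (L : Set (U J)) then E ⟨(K, L), h⟩ else K

open Classical in
/-- Replace one member of a family. -/
noncomputable def repl {Q : Type} (z : Q → H J) (n : Q) (x : H J) : Q → H J :=
  fun q => if q = n then x else z q

theorem continuous_repl {Q : Type} (n : Q) :
    Continuous (fun p : (Q → H J) × H J => repl p.1 n p.2) := by
  refine continuous_pi fun q => ?_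
  by_cases h : q = n
  · simp only [repl, h, if_true]
    exact continuous_snd
  · simp only [repl, h, if_false]
    exact (continuous_apply q).comp continuous_fst

theorem monotone_repl {Q : Type} (n : Q) :
    Monotone (fun p : (Q → H J) × H J => repl p.1 n p.2) := by
  intro p p' h q
  by_cases hq : q = n
  · simp only [repl, hq, if_true]
    exact h.2
  · simp only [repl, hq, if_false]
    exact h.1 q

private theorem ul_mem_sup {K L : H J} {y : U J} : y ∈ K ⊔ L ↔ y ∈ K ∨ y ∈ L := by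
  rw [← SetLike.mem_coe, NonemptyCompacts.coe_sup]
  exact Iff.rfl

private theorem ul_repl_same {Q : Type} (z : Q → H J) (n : Q) (x : H J) : repl z n x n = x := by
  simp only [repl, if_true]

private theorem ul_repl_ne {Q : Type} (z : Q → H J) {n q : Q} (x : H J) (h : q ≠ n) :
    repl z n x q = z q := by
  simp only [repl, h, if_false]

private theorem ul_repl_repl {Q : Type} (z : Q → H J) (n : Q) (x y : H J) :
    repl (repl z n x) n y = repl z n y := by
  funext q
  by_cases h : q = n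
  · rw [h, ul_repl_same, ul_repl_same]
  · rw [ul_repl_ne _ _ h, ul_repl_ne _ _ h, ul_repl_ne _ _ h]

private theorem evE_pos {E : GPr (U J) → H J} {K L : H J}
    (h : K ≤ L ∧ IsConnected (K : Set (U J)) ∧ IsConnected (L : Set (U J))) :
    evE E K L = E ⟨(K, L), h⟩ := by
  unfold evE
  rw [dif_pos h]

theorem evE_low {W : Set (U J → U J)} {E : GPr (U J) → H J} (hE : IsOp W E) (K L : H J) :
    K ≤ evE E K L := by
  unfold evE
  split_ifs with h
  · exact hE.low ⟨(K, L), h⟩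
  · exact le_rfl

theorem evE_high {W : Set (U J → U J)} {E : GPr (U J) → H J} (hE : IsOp W E) {K L : H J}
    (h : K ≤ L) : evE E K L ≤ L := by
  unfold evE
  split_ifs with h'
  · exact hE.high ⟨(K, L), h'⟩
  · exact h

theorem evE_conn {W : Set (U J → U J)} {E : GPr (U J) → H J} (hE : IsOp W E) {K L : H J}
    (h : IsConnected (K : Set (U J))) : IsConnected (evE E K L : Set (U J)) := by
  unfold evE
  split_ifs with h'
  · exact hE.conn ⟨(K, L), h'⟩
  · exact h

theorem evE_equi {W : Set (U J → U J)} {E : GPr (U J) → H J} (hE : IsOp W E)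
    {w : U J → U J} (hw : w ∈ W) {K L K' L' : H J} (h : K ≤ L)
    (h1 : IsConnected (K : Set (U J))) (h2 : IsConnected (L : Set (U J))) (h' : K' ≤ L')
    (h1' : IsConnected (K' : Set (U J))) (h2' : IsConnected (L' : Set (U J)))
    (hK : ∀ x ∈ K, w x ∈ K') (hL : ∀ x ∈ L, w x ∈ L') : ∀ x ∈ evE E K L, w x ∈ evE E K' L' := by
  rw [evE_pos ⟨h, h1, h2⟩, evE_pos ⟨h', h1', h2'⟩]
  exact hE.equi w hw ⟨(K, L), ⟨h, h1, h2⟩⟩ ⟨(K', L'), ⟨h', h1', h2'⟩⟩ hK hL

theorem evE_mono {W : Set (U J → U J)} (hid : id ∈ W) {E : GPr (U J) → H J} (hE : IsOp W E)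
    {K L K' L' : H J} (h : K ≤ L)
    (h1 : IsConnected (K : Set (U J))) (h2 : IsConnected (L : Set (U J))) (h' : K' ≤ L')
    (h1' : IsConnected (K' : Set (U J))) (h2' : IsConnected (L' : Set (U J)))
    (hK : K ≤ K') (hL : L ≤ L') : evE E K L ≤ evE E K' L' := by
  rw [le_iff_sub]
  intro x hx
  exact evE_equi hE hid h h1 h2 h' h1' h2' (fun y hy => le_iff_sub.1 hK hy)
    (fun y hy => le_iff_sub.1 hL hy) x hx

theorem evE_thr {W : Set (U J → U J)} {𝓔 : Set (GPr (U J) → H J)} (h𝓔 : IsInt W 𝓔)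
    {E : GPr (U J) → H J} (hE : E ∈ 𝓔) {K L : H J} (h : K ≤ L)
    (h1 : IsConnected (K : Set (U J))) (h2 : IsConnected (L : Set (U J))) :
    Thr ((fun s : GPr (U J) → H J => evE s K L) '' {s | s ∈ 𝓔 ∧ s ≤ E}) K (evE E K L) := by
  have h3 : (fun s : GPr (U J) → H J => evE s K L) =
      fun s : GPr (U J) → H J => s ⟨(K, L), ⟨h, h1, h2⟩⟩ := by
    funext s
    exact evE_pos ⟨h, h1, h2⟩
  rw [h3, evE_pos ⟨h, h1, h2⟩]
  exact h𝓔.thr_le hE ⟨(K, L), ⟨h, h1, h2⟩⟩

theorem evE_thr_top {W : Set (U J → U J)} {𝓔 : Set (GPr (U J) → H J)} (h𝓔 : IsInt W 𝓔)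
    {K L : H J} (h : K ≤ L)
    (h1 : IsConnected (K : Set (U J))) (h2 : IsConnected (L : Set (U J))) :
    Thr ((fun s : GPr (U J) → H J => evE s K L) '' 𝓔) K L := by
  have h3 : (fun s : GPr (U J) → H J => evE s K L) =
      fun s : GPr (U J) → H J => s ⟨(K, L), ⟨h, h1, h2⟩⟩ := by
    funext s
    exact evE_pos ⟨h, h1, h2⟩
  rw [h3]
  exact h𝓔.thr ⟨(K, L), ⟨h, h1, h2⟩⟩

private theorem pg0_UL {F₀ : Set J} {A : Set (Ex J)} (hA : Lev F₀ A)
    {𝓔 : Set (GPr (U J) → H J)} (h𝓔 : IsInt (Wm F₀ A) 𝓔) {Q : Type} {Rel : Q → Q → Prop}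
    {n a c : Q} (h1 : Rel a n) (h2 : Rel n c)
    (h3 : ∀ q, Rel n q → q = c ∨ Rel c q) {F : Set J} (hF : F ⊆ F₀) {E : GPr (U J) → H J}
    (hE : E ∈ 𝓔) {z : Q → H J} (hz : PG0 A Rel F z) :
    PG0 A Rel F (repl z n (z n ⊔ evE E (z a) (z c))) := by
  have hop : IsOp (Wm F₀ A) E := h𝓔.op E hE
  have han : z a ≤ z n := hz.rel a n h1
  have hnc : z n ≤ z c := hz.rel n c h2
  have hac : z a ≤ z c := han.trans hnc
  have hhigh : evE E (z a) (z c) ≤ z c := evE_high hop hac
  have hΦc : z n ⊔ evE E (z a) (z c) ≤ z c := sup_le hnc hhigh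
  refine ⟨?_, ?_, ?_, ?_⟩
  · intro q
    by_cases h : q = n
    · rw [h, ul_repl_same]
      exact (le_iff_sub.1 hΦc).trans (hz.sub c)
    · rw [ul_repl_ne _ _ h]
      exact hz.sub q
  · intro q
    by_cases h : q = n
    · rw [h, ul_repl_same, NonemptyCompacts.coe_sup]
      obtain ⟨x, hx⟩ := (z a).nonempty
      refine IsConnected.union ⟨x, le_iff_sub.1 han hx, ?_⟩ (hz.conn n) (evE_conn hop (hz.conn a))
      exact le_iff_sub.1 (evE_low hop (z a) (z c)) hx
    · rw [ul_repl_ne _ _ h]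
      exact hz.conn q
  · intro q σ hσ y hy
    by_cases h : q = n
    · rw [h, ul_repl_same] at hy ⊢
      rw [ul_mem_sup] at hy ⊢
      rcases hy with hy | hy
      · exact Or.inl (hz.inv n σ hσ y hy)
      · right
        have hflat : ∀ q, ∀ x ∈ z q, tr A (act σ x) = act σ x := by
          intro q x hx
          refine tr_of_flat fun e he => ?_
          exact Yc_flat (hz.sub q (hz.inv q σ hσ x hx)) he
        have h4 := evE_equi hop (act_mem_Wm hA (PF_mono hF hσ)) hac (hz.conn a) (hz.conn c) hac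
          (hz.conn a) (hz.conn c)
          (fun x hx => by
            show tr A (act σ x) ∈ z a
            rw [hflat a x hx]
            exact hz.inv a σ hσ x hx)
          (fun x hx => by
            show tr A (act σ x) ∈ z c
            rw [hflat c x hx]
            exact hz.inv c σ hσ x hx) y hy
        have h5 : tr A (act σ y) ∈ evE E (z a) (z c) := h4
        rw [hflat c y (le_iff_sub.1 hhigh hy)] at h5
        exact h5
    · rw [ul_repl_ne _ _ h] at hy ⊢
      exact hz.inv q σ hσ y hy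
  · intro q q' hqq
    by_cases h : q = n
    · by_cases h' : q' = n
      · rw [h, h']
      · rw [h, ul_repl_same, ul_repl_ne _ _ h']
        rw [h] at hqq
        rcases h3 q' hqq with h4 | h4
        · rw [h4]
          exact hΦc
        · exact hΦc.trans (hz.rel c q' h4)
    · by_cases h' : q' = n
      · rw [h', ul_repl_same, ul_repl_ne _ _ h]
        rw [h'] at hqq
        exact (hz.rel q n hqq).trans le_sup_left
      · rw [ul_repl_ne _ _ h, ul_repl_ne _ _ h']
        exact hz.rel q q' hqq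

private theorem ul_step {F₀ : Set J} (hF₀ : F₀.Finite) {A : Set (Ex J)} (hA : Lev F₀ A)
    {𝓔 : Set (GPr (U J) → H J)} (h𝓔 : IsInt (Wm F₀ A) 𝓔) {Q : Type} {Rel : Q → Q → Prop}
    {n a c : Q} (han : a ≠ n) (hcn : c ≠ n) (h1 : Rel a n) (h2 : Rel n c) (r : ℕ)
    {F : Set J} (hF : F ⊆ F₀)
    (ih : ∀ E ∈ 𝓔, ∀ z : Q → H J, PG A Rel r F z →
      PG A Rel r F (repl z n (z n ⊔ evE E (z a) (z c))))
    {E : GPr (U J) → H J} (hE : E ∈ 𝓔) {b z : Q → H J} {S : Set (Q → H J)} (hS : Thr S b z)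
    (hSG : ∀ p ∈ S, PG A Rel r F p) :
    ∃ 𝒯 : Set ((Q → H J) × H J),
      Thr 𝒯 (b, b n ⊔ evE E (b a) (b c)) (z, z n ⊔ evE E (z a) (z c)) ∧
      𝒯 ⊆ {x : (Q → H J) × H J | PG A Rel r F (repl x.1 n x.2)} ∧ ∀ t ∈ 𝒯, t.1 ∈ S := by
  have hop : IsOp (Wm F₀ A) E := h𝓔.op E hE
  have h0 : ∀ p ∈ S, PG0 A Rel F p := fun p hp => PG_zero (hSG p hp)
  have hpan : ∀ p ∈ S, p a ≤ p n := fun p hp => (h0 p hp).rel a n h1
  have hpnc : ∀ p ∈ S, p n ≤ p c := fun p hp => (h0 p hp).rel n c h2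
  have hpac : ∀ p ∈ S, p a ≤ p c := fun p hp => (hpan p hp).trans (hpnc p hp)
  set Φ : (Q → H J) → H J := fun p => p n ⊔ evE E (p a) (p c) with hΦ
  set 𝒢 : Set ((Q → H J) × H J) := {x | PG A Rel r F (repl x.1 n x.2)} with h𝒢
  have h𝒢c : IsClosed 𝒢 :=
    (isClosed_PG (Q := Q) (Rel := Rel) (hF₀.subset hF) (hA.mono hF) r).preimage (continuous_repl n)
  have hmono : ∀ p ∈ S, ∀ q ∈ S, p ≤ q → Φ p ≤ Φ q := by
    intro p hp q hq hpq
    refine sup_le_sup (hpq n) ?_
    exact evE_mono Wm_id hop (hpac p hp) ((h0 p hp).conn a) ((h0 p hp).conn c) (hpac q hq)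
      ((h0 q hq).conn a) ((h0 q hq).conn c) (hpq a) (hpq c)
  have hmem : ∀ p ∈ S, (p, Φ p) ∈ 𝒢 := fun p hp => ih E hE p (hSG p hp)
  -- the induction hypothesis for `repl p n u`
  have ih' : ∀ (p : Q → H J) (u : H J), (p, u) ∈ 𝒢 → ∀ s ∈ 𝓔,
      (p, u ⊔ evE s (p a) (p c)) ∈ 𝒢 := by
    intro p u hpu s hs
    have h4 := ih s hs (repl p n u) hpu
    rw [ul_repl_same, ul_repl_ne p u han, ul_repl_ne p u hcn, ul_repl_repl] at h4
    exact h4
  refine filling hS hmono h𝒢c hmem ?_ ?_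
  · intro p hp hpb u hu hpu
    have hpn : p n ≤ u := by
      have hl := lub_image (f := fun z : Q → H J => z n)
        (C := {q | q ∈ S ∧ q < p}) (fun x hx y hy => hS.chain x hx.1 y hy.1)
        (hS.below_nonempty hp hpb) (hS.isLUB_below hp hpb) (continuous_apply n)
        (fun x y hxy => hxy n)
      apply hl.2
      rintro _ ⟨q, hq, rfl⟩
      exact le_trans le_sup_left (hu.1 ⟨q, hq, rfl⟩)
    have hup : u ≤ Φ p := by
      apply hu.2
      rintro _ ⟨q, hq, rfl⟩
      exact hmono q hq.1 p hp hq.2.le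
    have hT := (evE_thr h𝓔 hE (hpac p hp) ((h0 p hp).conn a) ((h0 p hp).conn c)).image
      (f := fun x : H J => u ⊔ x) (continuous_const.sup continuous_id)
      (fun x y hxy => sup_le_sup_left hxy u)
    have e1 : u ⊔ p a = u := sup_eq_left.2 ((hpan p hp).trans hpn)
    have e2 : u ⊔ evE E (p a) (p c) = Φ p :=
      le_antisymm (sup_le hup le_sup_right) (sup_le_sup_right hpn _)
    simp only [e1, e2] at hT
    refine ⟨_, hT, ?_⟩
    rintro _ ⟨_, ⟨s, hs, rfl⟩, rfl⟩
    exact ih' p u hpu s hs.1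
  · intro p hp hpz u hu hpu
    have hCc := isClosed_exists_thr (P := H J) h𝒢c
    set C : Set ((Q → H J) × H J × H J) :=
      {x | ∃ T : Set (H J), Thr T x.2.1 x.2.2 ∧ ∀ y ∈ T, (x.1, y) ∈ 𝒢} with hC
    have hpos : ∀ q ∈ S, (q, q n, Φ q) ∈ C := by
      intro q hq
      have hT := (evE_thr h𝓔 hE (hpac q hq) ((h0 q hq).conn a) ((h0 q hq).conn c)).image
        (f := fun x : H J => q n ⊔ x) (continuous_const.sup continuous_id)
        (fun x y hxy => sup_le_sup_left hxy (q n))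
      have e1 : q n ⊔ q a = q n := sup_eq_left.2 (hpan q hq)
      simp only [e1] at hT
      refine ⟨_, hT, ?_⟩
      rintro _ ⟨_, ⟨s, hs, rfl⟩, rfl⟩
      exact ih s hs.1 q (hSG q hq)
    set D : Set (Q → H J) := {q | q ∈ S ∧ p < q} with hD
    have hDn : D.Nonempty := hS.above_nonempty hp hpz
    have hDg : IsGLB D p := hS.isGLB_above hp hpz
    have hDc : ∀ x ∈ D, ∀ y ∈ D, x ≤ y ∨ y ≤ x := fun x hx y hy => hS.chain x hx.1 y hy.1
    have hDi : IsGLB ((fun z : Q → H J => z n) '' D) (p n) :=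
      glb_image hDc hDn hDg (continuous_apply n) (fun x y hxy => hxy n)
    have hch : ∀ x ∈ (fun q : Q → H J => (q, q n, Φ q)) '' D,
        ∀ y ∈ (fun q : Q → H J => (q, q n, Φ q)) '' D, x ≤ y ∨ y ≤ x := by
      rintro _ ⟨x, hx, rfl⟩ _ ⟨y, hy, rfl⟩
      rcases hDc x hx y hy with h | h
      · exact Or.inl ⟨h, h n, hmono x hx.1 y hy.1 h⟩
      · exact Or.inr ⟨h, h n, hmono y hy.1 x hx.1 h⟩
    have hglb : IsGLB ((fun q : Q → H J => (q, q n, Φ q)) '' D) (p, p n, u) := by
      rw [isGLB_prod, isGLB_prod]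
      simp only [image_image]
      refine ⟨?_, hDi, hu⟩
      simpa using hDg
    have hpC : (p, p n, u) ∈ C := by
      have h4 := glb_mem_closure hch (hDn.image _) hglb
      refine closure_minimal ?_ hCc h4
      rintro _ ⟨q, hq, rfl⟩
      exact hpos q hq.1
    obtain ⟨T, hT, hTG⟩ := hpC
    have hΦu : Φ p ≤ u := by
      apply hu.2
      rintro _ ⟨q, hq, rfl⟩
      exact hmono p hp q hq.1 hq.2.le
    have hT' := hT.image (f := fun y : H J => y ⊔ evE E (p a) (p c))
      (continuous_id.sup continuous_const) (fun x y hxy => sup_le_sup_right hxy _)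
    have e1 : u ⊔ evE E (p a) (p c) = u := sup_eq_left.2 (le_trans le_sup_right hΦu)
    simp only [e1] at hT'
    refine ⟨_, hT', ?_⟩
    rintro _ ⟨y, hy, rfl⟩
    exact ih' p y (hTG y hy) E hE

theorem PG_UL {F₀ : Set J} (hF₀ : F₀.Finite) {A : Set (Ex J)} (hA : Lev F₀ A)
    {𝓔 : Set (GPr (U J) → H J)} (h𝓔 : IsInt (Wm F₀ A) 𝓔) {Q : Type} {Rel : Q → Q → Prop}
    {n a c : Q} (han : a ≠ n) (hcn : c ≠ n) (h1 : Rel a n) (h2 : Rel n c)
    (h3 : ∀ q, Rel n q → q = c ∨ Rel c q) (r : ℕ) :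
    ∀ F : Set J, F ⊆ F₀ → ∀ E ∈ 𝓔, ∀ z : Q → H J, PG A Rel r F z →
      PG A Rel r F (repl z n (z n ⊔ evE E (z a) (z c))) := by
  induction r with
  | zero =>
    intro F hF E hE z hz
    exact pg0_UL hA h𝓔 h1 h2 h3 hF hE hz
  | succ r ih =>
    intro F hF E hE z hz
    have hop : IsOp (Wm F₀ A) E := h𝓔.op E hE
    obtain ⟨hz0, hzi⟩ := hz
    refine ⟨pg0_UL hA h𝓔 h1 h2 h3 hF hE hz0, ?_⟩
    intro i hi
    obtain ⟨ρ, b, S, hS, hb, hsc, hSG⟩ := hzi i hi
    have hF' : F \ {i} ⊆ F₀ := fun j hj => hF hj.1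
    obtain ⟨𝒯, hT, hTG, -⟩ := ul_step hF₀ hA h𝓔 han hcn h1 h2 r hF' (ih (F \ {i}) hF') hE hS hSG
    have hb0 : PG0 A Rel (F \ {i}) b := PG_zero (hSG b hS.left)
    have hbac : b a ≤ b c := (hb0.rel a n h1).trans (hb0.rel n c h2)
    have hzac : z a ≤ z c := (hz0.rel a n h1).trans (hz0.rel n c h2)
    refine ⟨ρ, repl b n (b n ⊔ evE E (b a) (b c)), (fun x : (Q → H J) × H J => repl x.1 n x.2) '' 𝒯,
      hT.image (continuous_repl n) (monotone_repl n), ?_, ?_, ?_⟩
    · intro q y hy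
      by_cases h : q = n
      · rw [h, ul_repl_same, ul_mem_sup] at hy
        rcases hy with hy | hy
        · exact hb n y hy
        · exact hb c y (le_iff_sub.1 (evE_high hop hbac) hy)
      · rw [ul_repl_ne _ _ h] at hy
        exact hb q y hy
    · intro q y hy
      by_cases h : q = n
      · rw [h, ul_repl_same, ul_mem_sup] at hy ⊢
        rcases hy with hy | hy
        · exact Or.inl (hsc n y hy)
        · right
          exact evE_equi hop (sc_mem_Wm hA (hF hi) ρ) hzac (hz0.conn a) (hz0.conn c) hbac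
            (hb0.conn a) (hb0.conn c) (hsc a) (hsc c) y hy
      · rw [ul_repl_ne _ _ h] at hy ⊢
        exact hsc q y hy
    · rintro _ ⟨x, hx, rfl⟩
      exact hTG hx

end Pool.DM
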