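import Pool.Agent.Helper84.DM.XPhi

/-!
DM-X5b (AF): the arc function of `x` (root `o`).

* `zero`: `x ∈ Cs o (d q)` for all `q` (`Enum.cut`), so `φ x ≤ q` for all rational `q` in `(0,1)`.
  `one`: `o ∉ Cs o (d q)` (`Sp.ne`), so `φ o ≥ q` for all `q`.
* `pt`: `φ` takes every value `t ∈ [0,1]` at some `w ∈ Ar o x` (`Ar o x` preconnected contains `o` and `x`;
  `IsPreconnected.intermediate_value`).
  `{y | φ y = t} \ {w}` is open: let `y ≠ w`, `φ y = t`.  Then `y ∉ E := Ar o x` (`phi_inj`).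
  There is `w' ∈ Ar o y`, `w' ∉ E`, `w' ≠ y`: otherwise `Ar o y ⊆ E ∪ {y}` with `E`, `{y}` closed and disjoint, `o ∈ E`, `y`:
  contradiction with `ar_precon` (`isPreconnected_closed_iff`).
  `Sp w' o y` (`sp_of_mem_ar`, `w' ≠ o` as `o ∈ E`).  `E ⊆ As o w'` (`subset_left`, `sepAt_side`, `w' ∉ E`), `y ∈ Cs o w'`.
  `T := Cs o w' ∪ {w'}` is preconnected and disjoint from `E`, so `d q ∉ T` (`d q ∈ E`); so for every `q` either `T ⊆ Cs o (d q)` or
  `T ⊆ As o (d q)` (`SepAt.subset_or`). So `φ` is constant on `T`: for `u ∈ T`: `φ u = φ y`: if `φ u < φ y` take a rational `q` in between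
  (then `0 < q < 1`), `u ∈ Cs o (d q)` (by `ge`), so `y ∈ Cs o (d q)`, `φ y ≤ q`, contradiction; the same for `φ y < φ u`.
  So `Cs o w'` is an open neighbourhood of `y` inside `{y | φ y = t} \ {w}` (`w ∈ E ⊆ As o w'`).
-/

set_option autoImplicit false

namespace Pool.DMX

open Set Topology

variable {X : Type} [TopologicalSpace X]

/-- `φ` is an arc function from `x` (value `0`) to `o` (value `1`). -/
structure AF (o x : X) (φ : X → ℝ) : Prop where
  cont : Continuous φ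
  mem : ∀ y, 0 ≤ φ y ∧ φ y ≤ 1
  one : φ o = 1
  zero : φ x = 0
  pt : ∀ t, 0 ≤ t → t ≤ 1 → ∃ w ∈ Ar o x, φ w = t ∧ IsOpen ({y | φ y = t} \ {w})
  inj : ∀ w ∈ Ar o x, ∀ w' ∈ Ar o x, φ w = φ w' → w = w'

private theorem af_const [CompactSpace X] [ConnectedSpace X] [T2Space X] (hD : Dn X) {o x : X}
    {d : ℚ → X} (hd : Enum o x d) {φ : X → ℝ} (hφ : Phi o d φ) {v : X}
    (hv : Ar o x ⊆ As o v) {y u : X} (hy : y ∈ Cs o v ∪ {v}) (hu : u ∈ Cs o v ∪ {v}) :
    φ y ≤ φ u := by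
  by_contra hlt
  rw [not_le] at hlt
  obtain ⟨q, hq1, hq2⟩ := exists_rat_btwn hlt
  have h0 : (0 : ℝ) < q := (hφ.mem u).1.trans_lt hq1
  have h1 : (q : ℝ) < 1 := hq2.trans_le (hφ.mem y).2
  have h0' : (0 : ℚ) < q := by exact_mod_cast h0
  have h1' : q < (1 : ℚ) := by exact_mod_cast h1
  have huC : u ∈ Cs o (d q) := by
    by_contra hn
    exact absurd (hφ.ge u q h0' h1' hn) (not_le.2 hq1)
  have hs := sepAt_side hD o v
  have hdE : d q ∈ As o v := hv (hd.cut q h0' h1').mem_ar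
  have hdT : d q ∉ Cs o v ∪ {v} := by
    rintro (h | h)
    · exact hs.not_both hdE h
    · rw [mem_singleton_iff] at h
      exact hs.not_mem_left (h ▸ hdE)
  have hT := (sepAt_side hD o (d q)).symm.subset_left hs.symm.precon hdT hu huC
  exact absurd (hφ.le y q h0' h1' (hT hy)) (not_le.2 hq2)

theorem exists_af [CompactSpace X] [ConnectedSpace X] [T2Space X] (hD : Dn X) {o x : X}
    (hox : o ≠ x) (p : Path o x) : ∃ φ : X → ℝ, AF o x φ := by
  obtain ⟨d, hd⟩ := exists_enum hD hox p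
  obtain ⟨φ, hφ⟩ := exists_phi hD hd
  refine ⟨φ, hφ.cont, hφ.mem, ?_, ?_, ?_, fun w hw w' hw' h => phi_inj hD hd hφ hw hw' h⟩
  · refine le_antisymm (hφ.mem o).2 ?_
    by_contra hlt
    rw [not_le] at hlt
    obtain ⟨q, hq1, hq2⟩ := exists_rat_btwn hlt
    have h0 : (0 : ℝ) < q := (hφ.mem o).1.trans_lt hq1
    have h0' : (0 : ℚ) < q := by exact_mod_cast h0
    have h1' : q < (1 : ℚ) := by exact_mod_cast hq2
    exact absurd (hφ.ge o q h0' h1' (fun h => Sp.ne h rfl)) (not_le.2 hq1)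
  · refine le_antisymm ?_ (hφ.mem x).1
    by_contra hlt
    rw [not_le] at hlt
    obtain ⟨q, hq1, hq2⟩ := exists_rat_btwn hlt
    have h1 : (q : ℝ) < 1 := hq2.trans_le (hφ.mem x).2
    have h0' : (0 : ℚ) < q := by exact_mod_cast hq1
    have h1' : q < (1 : ℚ) := by exact_mod_cast h1
    exact absurd (hφ.le x q h0' h1' (hd.cut q h0' h1')) (not_le.2 hq2)
  · intro t ht0 ht1
    have hx0 : φ x = 0 := by
      refine le_antisymm ?_ (hφ.mem x).1
      by_contra hlt
      rw [not_le] at hlt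
      obtain ⟨q, hq1, hq2⟩ := exists_rat_btwn hlt
      have h1 : (q : ℝ) < 1 := hq2.trans_le (hφ.mem x).2
      have h0' : (0 : ℚ) < q := by exact_mod_cast hq1
      have h1' : q < (1 : ℚ) := by exact_mod_cast h1
      exact absurd (hφ.le x q h0' h1' (hd.cut q h0' h1')) (not_le.2 hq2)
    have ho1 : φ o = 1 := by
      refine le_antisymm (hφ.mem o).2 ?_
      by_contra hlt
      rw [not_le] at hlt
      obtain ⟨q, hq1, hq2⟩ := exists_rat_btwn hlt
      have h0 : (0 : ℝ) < q := (hφ.mem o).1.trans_lt hq1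
      have h0' : (0 : ℚ) < q := by exact_mod_cast h0
      have h1' : q < (1 : ℚ) := by exact_mod_cast hq2
      exact absurd (hφ.ge o q h0' h1' (fun h => Sp.ne h rfl)) (not_le.2 hq1)
    obtain ⟨w, hwE, hwt⟩ := (ar_precon hD o x).intermediate_value (right_mem_ar o x)
      (left_mem_ar o x) hφ.cont.continuousOn (show t ∈ Set.Icc (φ x) (φ o) by
        rw [hx0, ho1]
        exact ⟨ht0, ht1⟩)
    refine ⟨w, hwE, hwt, ?_⟩
    rw [isOpen_iff_mem_nhds]
    rintro y ⟨hyt, hyw⟩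
    have hyt' : φ y = t := hyt
    have hyE : y ∉ Ar o x := by
      intro h
      exact hyw (phi_inj hD hd hφ h hwE (hyt'.trans hwt.symm))
    obtain ⟨v, hvy, hvE, hvne⟩ : ∃ v ∈ Ar o y, v ∉ Ar o x ∧ v ≠ y := by
      by_contra hcon
      have hsub : Ar o y ⊆ Ar o x ∪ {y} := by
        intro v hv
        by_cases h1 : v ∈ Ar o x
        · exact Or.inl h1
        · by_cases h2 : v = y
          · exact Or.inr h2
          · exact (hcon ⟨v, hv, h1, h2⟩).elim
      obtain ⟨v, _, hv1, hv2⟩ := isPreconnected_closed_iff.1 (ar_precon hD o y) (Ar o x) {y}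
        (ar_closed hD o x) isClosed_singleton hsub ⟨o, left_mem_ar o y, left_mem_ar o x⟩
        ⟨y, right_mem_ar o y, rfl⟩
      rw [mem_singleton_iff] at hv2
      exact hyE (hv2 ▸ hv1)
    have hvo : v ≠ o := fun h => hvE (h ▸ left_mem_ar o x)
    have hsp : Sp v o y := sp_of_mem_ar hvy hvo hvne
    have hs := sepAt_side hD o v
    have hEA : Ar o x ⊆ As o v :=
      hs.subset_left (ar_precon hD o x) hvE (left_mem_ar o x) (root_mem_As hD hvo.symm)
    refine Filter.mem_of_superset ((isOpen_Cs o v).mem_nhds hsp) ?_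
    intro u hu
    refine ⟨?_, ?_⟩
    · have h1 := af_const hD hd hφ hEA (Or.inl hsp : y ∈ Cs o v ∪ {v}) (Or.inl hu)
      have h2 := af_const hD hd hφ hEA (Or.inl hu) (Or.inl hsp : y ∈ Cs o v ∪ {v})
      exact (le_antisymm h2 h1).trans hyt'
    · intro huw
      rw [mem_singleton_iff] at huw
      exact hs.not_both (hEA hwE) (huw ▸ hu)

end Pool.DMX
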