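import Pool.Agent.Helper84.DM.XAF

/-!
DM-X6 (AFb): consequences of `AF o x φ`.

* `AF.const_of`: (P) `T` preconnected, `w` as in `pt` (the only point of `Ar o x` with value `t`, by `inj`), `w ∉ T`, `y ∈ T`,
  `φ y = t`: then `φ = t` on `T`: `T ∩ {φ = t} = T ∩ ({φ = t} \ {w})`, so it is relatively closed and relatively
  open in `T`, nonempty (`IsPreconnected` with the open sets `{φ = t} \ {w}` and `{φ ≠ t}`).
* `AF.precon_le`: `{φ ≤ t}` is preconnected for every real `t`.  For `t < 0` it is empty, for `t ≥ 1` it is `univ`. For `0 ≤ t ≤ 1`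
  (`isPreconnected_closed_iff` or `isPreconnected_iff_subset_of_disjoint_closed`): let `{φ ≤ t} ⊆ P ∪ Q` closed,
  disjoint on it, both meeting it; `w` (from `pt`) is not in one of them, say `w ∉ Q`.  `D := {φ ≤ t} ∩ Q` is closed, and
  `D = ({φ < t} ∪ ({φ = t} \ {w})) ∩ Pᶜ` is open, `D` nonempty and `w ∉ D`: contradiction with `X` preconnected
  (`IsClopen.eq_univ`).
* `AF.precon_lt`: `{φ < t}` is the union of `{φ ≤ t'}`, `0 ≤ t' < t`, all containing `x` (`isPreconnected_sUnion`); empty if `t ≤ 0`.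
* `AF.precon_ge`, `AF.precon_gt`: the same with `≥`, `>` and the common point `o`.
* `AF.const`: `T` preconnected and disjoint from `Ar o x`: `φ` is constant on `T` (by `const_of` with `t = φ y`).
-/

set_option autoImplicit false

namespace Pool.DMX

open Set Topology

variable {X : Type} [TopologicalSpace X]

theorem AF.const_of {o x : X} {φ : X → ℝ} (h : AF o x φ) {T : Set X} (hT : IsPreconnected T)
    {w y : X} (hw : w ∈ Ar o x) (hwT : w ∉ T) (hy : y ∈ T) (hwy : φ w = φ y) :
    ∀ u ∈ T, φ u = φ y := by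
  obtain ⟨w', hw', h1, h2⟩ := h.pt (φ y) (h.mem y).1 (h.mem y).2
  have hww : w' = w := h.inj w' hw' w hw (h1.trans hwy.symm)
  subst hww
  intro u hu
  by_contra hne
  have hV : IsOpen {z | φ z ≠ φ y} := isOpen_ne_fun h.cont continuous_const
  obtain ⟨z, -, ⟨hz1, -⟩, hz2⟩ := hT _ _ h2 hV (fun z hz => by
      by_cases hzy : φ z = φ y
      · exact Or.inl ⟨hzy, fun hzw => hwT (by rw [mem_singleton_iff] at hzw; rw [← hzw]; exact hz)⟩
      · exact Or.inr hzy)
    ⟨y, hy, rfl, fun hyw => hwT (by rw [mem_singleton_iff] at hyw; rw [← hyw]; exact hy)⟩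
    ⟨u, hu, hne⟩
  exact hz2 hz1

theorem AF.const {o x : X} {φ : X → ℝ} (h : AF o x φ) {T : Set X} (hT : IsPreconnected T)
    (hd : ∀ w ∈ Ar o x, w ∉ T) {y u : X} (hy : y ∈ T) (hu : u ∈ T) : φ u = φ y := by
  obtain ⟨w, hw, h1, -⟩ := h.pt (φ y) (h.mem y).1 (h.mem y).2
  exact h.const_of hT hw (hd w hw) hy h1 u hu

private theorem clopen_aux [PreconnectedSpace X] {s P Q O : Set X} (hs : IsClosed s)
    (hP : IsClosed P) (hQ : IsClosed Q) (hO : IsOpen O) (hOs : O ⊆ s)
    (hsO : ∀ z ∈ s, z ∈ Q → z ∈ O) (hsub : s ⊆ P ∪ Q) (hdis : ∀ z ∈ s, z ∈ P → z ∉ Q)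
    (hne : (s ∩ Q).Nonempty) {w : X} (hw : w ∉ Q) : False := by
  have h1 : s ∩ Q = O ∩ Pᶜ := by
    ext z
    constructor
    · rintro ⟨hz1, hz2⟩
      exact ⟨hsO z hz1 hz2, fun h => hdis z hz1 h hz2⟩
    · rintro ⟨hz1, hz2⟩
      have hz := hOs hz1
      rcases hsub hz with h | h
      · exact absurd h hz2
      · exact ⟨hz, h⟩
  have h2 : IsClopen (s ∩ Q) := by
    refine ⟨hs.inter hQ, ?_⟩
    rw [h1]
    exact hO.inter hP.isOpen_compl
  have h3 := h2.eq_univ hne
  have h4 : w ∈ s ∩ Q := by rw [h3]; exact mem_univ w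
  exact hw h4.2

private theorem precon_aux [PreconnectedSpace X] {s O : Set X} (hs : IsClosed s)
    (hO : IsOpen O) (hOs : O ⊆ s) {w : X} (hws : w ∈ s) (hsO : ∀ z ∈ s, z ≠ w → z ∈ O) :
    IsPreconnected s := by
  rw [isPreconnected_closed_iff]
  intro P Q hP hQ hsub hneP hneQ
  by_contra hcon
  rw [not_nonempty_iff_eq_empty] at hcon
  have hdis : ∀ z ∈ s, z ∈ P → z ∉ Q := by
    intro z hz h1 h2
    have : z ∈ s ∩ (P ∩ Q) := ⟨hz, h1, h2⟩
    rw [hcon] at this
    exact this
  by_cases hwQ : w ∈ Q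
  · have hwP : w ∉ P := fun h => hdis w hws h hwQ
    refine clopen_aux hs hQ hP hO hOs (fun z hz hzP => hsO z hz ?_) ?_ ?_ hneP hwP
    · rintro rfl
      exact hwP hzP
    · intro z hz
      exact (hsub hz).symm
    · intro z hz h1 h2
      exact hdis z hz h2 h1
  · refine clopen_aux hs hP hQ hO hOs (fun z hz hzQ => hsO z hz ?_) hsub hdis hneQ hwQ
    rintro rfl
    exact hwQ hzQ

theorem AF.precon_le [PreconnectedSpace X] {o x : X} {φ : X → ℝ} (h : AF o x φ) (t : ℝ) :
    IsPreconnected {y | φ y ≤ t} := by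
  by_cases h0 : t < 0
  · have he : {y | φ y ≤ t} = ∅ := by
      ext y
      simp only [mem_ofPred_eq, mem_empty_iff_false, iff_false, not_le]
      exact lt_of_lt_of_le h0 (h.mem y).1
    rw [he]
    exact isPreconnected_empty
  · by_cases h1 : 1 < t
    · have he : {y | φ y ≤ t} = univ := by
        ext y
        simp only [mem_ofPred_eq, mem_univ, iff_true]
        exact (h.mem y).2.trans h1.le
      rw [he]
      exact isPreconnected_univ
    · push Not at h0 h1
      obtain ⟨w, -, hw1, hw2⟩ := h.pt t h0 h1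
      have hO : IsOpen ({y | φ y < t} ∪ ({y | φ y = t} \ {w})) :=
        (isOpen_lt h.cont continuous_const).union hw2
      refine precon_aux (isClosed_le h.cont continuous_const) hO ?_ (w := w) (le_of_eq hw1) ?_
      · rintro z (hz | hz)
        · exact le_of_lt (show φ z < t from hz)
        · exact le_of_eq hz.1
      · intro z hz hzw
        rcases lt_or_eq_of_le (show φ z ≤ t from hz) with h2 | h2
        · exact Or.inl h2
        · exact Or.inr ⟨h2, hzw⟩

theorem AF.precon_ge [PreconnectedSpace X] {o x : X} {φ : X → ℝ} (h : AF o x φ) (t : ℝ) :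
    IsPreconnected {y | t ≤ φ y} := by
  by_cases h0 : 1 < t
  · have he : {y | t ≤ φ y} = ∅ := by
      ext y
      simp only [mem_ofPred_eq, mem_empty_iff_false, iff_false, not_le]
      exact lt_of_le_of_lt (h.mem y).2 h0
    rw [he]
    exact isPreconnected_empty
  · by_cases h1 : t < 0
    · have he : {y | t ≤ φ y} = univ := by
        ext y
        simp only [mem_ofPred_eq, mem_univ, iff_true]
        exact h1.le.trans (h.mem y).1
      rw [he]
      exact isPreconnected_univ
    · push Not at h0 h1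
      obtain ⟨w, -, hw1, hw2⟩ := h.pt t h1 h0
      have hO : IsOpen ({y | t < φ y} ∪ ({y | φ y = t} \ {w})) :=
        (isOpen_lt continuous_const h.cont).union hw2
      refine precon_aux (isClosed_le continuous_const h.cont) hO ?_ (w := w) (le_of_eq hw1.symm) ?_
      · rintro z (hz | hz)
        · exact le_of_lt (show t < φ z from hz)
        · exact le_of_eq hz.1.symm
      · intro z hz hzw
        rcases lt_or_eq_of_le (show t ≤ φ z from hz) with h2 | h2
        · exact Or.inl h2
        · exact Or.inr ⟨h2.symm, hzw⟩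

theorem AF.precon_lt [PreconnectedSpace X] {o x : X} {φ : X → ℝ} (h : AF o x φ) (t : ℝ) :
    IsPreconnected {y | φ y < t} := by
  refine isPreconnected_of_forall x fun y hy => ⟨{u | φ u ≤ φ y}, ?_, ?_, ?_, h.precon_le (φ y)⟩
  · intro u hu
    exact lt_of_le_of_lt (show φ u ≤ φ y from hu) (show φ y < t from hy)
  · show φ x ≤ φ y
    rw [h.zero]
    exact (h.mem y).1
  · exact le_refl (φ y)

theorem AF.precon_gt [PreconnectedSpace X] {o x : X} {φ : X → ℝ} (h : AF o x φ) (t : ℝ) :
    IsPreconnected {y | t < φ y} := by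
  refine isPreconnected_of_forall o fun y hy => ⟨{u | φ y ≤ φ u}, ?_, ?_, ?_, h.precon_ge (φ y)⟩
  · intro u hu
    exact lt_of_lt_of_le (show t < φ y from hy) (show φ y ≤ φ u from hu)
  · show φ y ≤ φ o
    rw [h.one]
    exact (h.mem y).2
  · exact le_refl (φ y)

end Pool.DMX
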