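import Pool.Agent.Helper84.DM.XIrr

/-!
DM-X2b (Arc): consequences of `ar_eq`; the two sides `As o d`, `Cs o d` of a cut point `d` (root `o`).
-/

set_option autoImplicit false

namespace Pool.DMX

open Set Topology

variable {X : Type} [TopologicalSpace X]

section

variable [CompactSpace X] [ConnectedSpace X] [T2Space X] (hD : Dn X)

include hD

theorem ar_closed (p q : X) : IsClosed (Ar p q) := by
  obtain ⟨I, h1, h2, h3⟩ := ar_eq hD p q
  rw [h3]
  exact h1

theorem ar_precon (p q : X) : IsPreconnected (Ar p q) := by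
  obtain ⟨I, h1, h2, h3⟩ := ar_eq hD p q
  rw [h3]
  exact h2

theorem ar_subset_ar {p q a b : X} (ha : a ∈ Ar p q) (hb : b ∈ Ar p q) : Ar a b ⊆ Ar p q :=
  ar_subset (ar_precon hD p q) ha hb

theorem ar_subset_union (o p q : X) : Ar p q ⊆ Ar o p ∪ Ar o q :=
  ar_subset (IsPreconnected.union o (left_mem_ar o p) (left_mem_ar o q) (ar_precon hD o p)
    (ar_precon hD o q)) (Or.inl (right_mem_ar o p)) (Or.inr (right_mem_ar o q))

theorem ar_end_left {p q w w' : X} (hw : w ∈ Ar p q) (hw' : w' ∈ Ar p q) : ¬ Sp p w w' :=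
  ar_end (ar_precon hD p q) hw hw'

theorem ar_end_right {p q w w' : X} (hw : w ∈ Ar p q) (hw' : w' ∈ Ar p q) : ¬ Sp q w w' := by
  rw [ar_comm] at hw hw'
  exact ar_end_left hD hw hw'

end

/-- The side of `d` which does not contain the root `o`. -/
def Cs (o d : X) : Set X := {y | Sp d o y}

/-- The side of `d` which contains the root `o`. -/
def As (o d : X) : Set X := {y | y ≠ d ∧ ¬ Sp d o y}

theorem isOpen_Cs (o d : X) : IsOpen (Cs o d) := by
  rw [isOpen_iff_mem_nhds]
  rintro y ⟨U, V, h1, h2, h3⟩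
  exact Filter.mem_of_superset (h1.2.1.mem_nhds h3) fun z hz => ⟨U, V, h1, h2, hz⟩

section

variable [CompactSpace X] [ConnectedSpace X] [T2Space X] (hD : Dn X)

include hD

theorem isOpen_As (o d : X) : IsOpen (As o d) := by
  rw [isOpen_iff_mem_nhds]
  rintro y ⟨hy, hy'⟩
  obtain ⟨w, U₁, V₁, h1, h2, h3⟩ := hD y d hy
  refine Filter.mem_of_superset (h1.1.mem_nhds h2) ?_
  have hd1 : d ∉ U₁ ∪ {w} := by
    rintro (h | h)
    · exact h1.not_both h h3
    · rw [mem_singleton_iff] at h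
      exact h1.not_mem_right (h ▸ h3)
  intro u hu
  refine ⟨fun e => hd1 (Or.inl (e ▸ hu)), ?_⟩
  rintro ⟨U₂, V₂, h4, h5, h6⟩
  have h7 : U₁ ∪ {w} ⊆ V₂ := h4.symm.subset_left h1.precon hd1 (Or.inl hu) h6
  exact hy' ⟨U₂, V₂, h4, h5, h7 (Or.inl h2)⟩

theorem sepAt_side (o d : X) : SepAt d (As o d) (Cs o d) := by
  refine ⟨isOpen_As hD o d, isOpen_Cs o d, ?_, ?_⟩
  · rw [Set.disjoint_left]
    intro y hy hy'
    exact hy.2 hy'
  · ext y
    constructor
    · rintro (h | h)
      · exact h.1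
      · exact fun e => h.ne_right e.symm
    · intro hy
      by_cases h : Sp d o y
      · exact Or.inr h
      · exact Or.inl ⟨hy, h⟩

theorem root_mem_As {o d : X} (h : o ≠ d) : o ∈ As o d := ⟨h, fun h' => h'.ne rfl⟩

/-- nesting -/
theorem As_subset {o d d' : X} (h : d' ∈ Cs o d) : As o d ∪ {d} ⊆ As o d' := by
  have hs := sepAt_side hD o d
  refine (sepAt_side hD o d').subset_left hs.precon ?_ (p := o)
    (Or.inl (root_mem_As hD (Sp.ne_left h).symm)) (root_mem_As hD (Sp.ne h))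
  rintro (h1 | h1)
  · exact hs.not_both h1 h
  · rw [mem_singleton_iff] at h1
    exact hs.not_mem_right (h1 ▸ h)

theorem Cs_subset {o d d' : X} (h : d' ∈ Cs o d) : Cs o d' ∪ {d'} ⊆ Cs o d := by
  intro y hy
  by_contra hy'
  have h1 : y ∈ As o d ∪ {d} := by
    by_cases hyd : y = d
    · exact Or.inr hyd
    · rcases (sepAt_side hD o d).mem_or hyd with h2 | h2
      · exact Or.inl h2
      · exact (hy' h2).elim
  have h2 := As_subset hD h h1
  have hs := sepAt_side hD o d'
  rcases hy with h3 | h3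
  · exact hs.not_both h2 h3
  · rw [mem_singleton_iff] at h3
    exact hs.not_mem_left (h3 ▸ h2)

theorem mem_As_of_mem_Cs {o d d' : X} (h : d' ∈ Cs o d) : d ∈ As o d' :=
  As_subset hD h (Or.inr rfl)

/-- A point of the arc from `o` to `x` which is separated from another such point by `d`. -/
theorem side_of_sp {o x d w w' : X} (hd : Sp d o x) (hw : w ∈ Ar o x) (hw' : w' ∈ Ar o x)
    (h : Sp d w w') : (w ∈ Cs o d ∧ w' ∈ As o d) ∨ (w ∈ As o d ∧ w' ∈ Cs o d) := by
  have hs := sepAt_side hD o d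
  have h1 : ∀ v ∈ Ar o x, v ∈ As o d → v ∈ Ar o d := by
    intro v hv hvA
    rcases ar_subset_union hD d o x hv with h2 | h2
    · rw [ar_comm] at h2
      exact h2
    · have h3 : Ar d x ⊆ Cs o d ∪ {d} := ar_subset hs.symm.precon (Or.inr rfl) (Or.inl hd)
      rcases h3 h2 with h4 | h4
      · exact (hs.not_both hvA h4).elim
      · rw [mem_singleton_iff] at h4
        exact (hs.not_mem_left (h4 ▸ hvA)).elim
  have h2 : ∀ v ∈ Ar o x, v ∈ Cs o d → v ∈ Ar d x := by
    intro v hv hvC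
    rcases ar_subset_union hD d o x hv with h2 | h2
    · have h3 : Ar d o ⊆ As o d ∪ {d} :=
        ar_subset hs.precon (Or.inr rfl) (Or.inl (root_mem_As hD hd.ne_left.symm))
      rcases h3 h2 with h4 | h4
      · exact (hs.not_both h4 hvC).elim
      · rw [mem_singleton_iff] at h4
        exact (hs.not_mem_right (h4 ▸ hvC)).elim
    · exact h2
  rcases hs.mem_or h.ne_left.symm with h3 | h3
  · rcases hs.mem_or h.ne_right.symm with h4 | h4
    · exact (ar_end_right hD (h1 w hw h3) (h1 w' hw' h4) h).elim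
    · exact Or.inr ⟨h3, h4⟩
  · rcases hs.mem_or h.ne_right.symm with h4 | h4
    · exact Or.inl ⟨h3, h4⟩
    · exact (ar_end_left hD (h2 w hw h3) (h2 w' hw' h4) h).elim

end

end Pool.DMX
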