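import Pool.Agent.Helper84.DM.XCountA

/-!
DM-X4c (Count: `exists_enum`): a countable dense set of cut points on the arc from `o` to `x`, if there is a path from `o` to `x`.

Proof. `p : Path o x` (`p : unitInterval → X` continuous, `p 0 = o`, `p 1 = x`).  `S` a countable dense subset of `unitInterval`
(`TopologicalSpace.exists_countable_dense`).
For every pair `s, s' ∈ S` such that some `e` with `Sp e o x` has `p s ∈ As o e`, `p s' ∈ Cs o e` choose one such
`e(s,s')`; `𝒟` = all these (a subset of the image of the countable set `S ×ˢ S`).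
Let `d ∈ Cs o d'`; `cut_dense` (3 times) gives `e₂, e, e₁` with `d < e₂ < e < e₁ < d'` (where `a < b` means `a ∈ Cs o b`).
`p⁻¹(As o e ∩ Cs o d')` is open and nonempty: `e₁ ∈ Ar o x ⊆ range p` (`ar_subset`, the range is preconnected), `e₁ ∈ Cs o d'`,
`e ∈ Cs o e₁` so `e₁ ∈ As o e` (`mem_As_of_mem_Cs`).  So it contains some `s ∈ S`.
`p⁻¹(Cs o e ∩ As o d)` is open and contains a preimage of `e₂`, so it contains some `s' ∈ S`.  Let `e* = e(s,s')`.
`cut_tri e* d`: if `e* = d` or `e* ∈ Cs o d` then `Cs o e* ⊆ Cs o d`, but `p s' ∈ Cs o e*`, `p s' ∈ As o d`: contradiction.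
So `d ∈ Cs o e*`.
`cut_tri e* d'`: if `d' = e*` or `d' ∈ Cs o e*` then `As o e* ⊆ As o d'` (`As_subset`), but `p s ∈ As o e*`, `p s ∈ Cs o d'`.
So `e* ∈ Cs o d'`.

`exists_enum`: `𝒟` is a countable dense linear order without end points, nonempty (if `x ≠ o`), so `Order.iso_of_countable_dense`
gives an order isomorphism of `Set.Ioo (0 : ℚ) 1` with `𝒟`.  (Put the linear order on the subtype `𝒟` with `LinearOrder.mk`/
`linearOrderOfSTO` or transfer it by hand; `𝒟` itself is dense without end points by `exists_countable` between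
elements given by `cut_dense`, `cut_nomin`, `cut_nomax`.)
-/

set_option autoImplicit false

namespace Pool.DMX

open Set Topology

variable {X : Type} [TopologicalSpace X]

variable [CompactSpace X] [ConnectedSpace X] [T2Space X]

/-- the enumeration by the rationals in `(0, 1)` -/
structure Enum (o x : X) (d : ℚ → X) : Prop where
  cut : ∀ q, 0 < q → q < 1 → Sp (d q) o x
  mono : ∀ q q', 0 < q → q < q' → q' < 1 → d q ∈ Cs o (d q')
  dense : ∀ e e', Sp e o x → Sp e' o x → e ∈ Cs o e' →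
    ∃ q, 0 < q ∧ q < 1 ∧ e ∈ Cs o (d q) ∧ d q ∈ Cs o e'

theorem exists_enum (hD : Dn X) {o x : X} (hox : o ≠ x) (p : Path o x) :
    ∃ d : ℚ → X, Enum o x d := by
  classical
  obtain ⟨D, hDc, hDs, hDd⟩ := exists_countable hD p
  have hne : ∃ z, Sp z o x := by
    obtain ⟨z, hz⟩ := hD o x hox
    exact ⟨z, hz⟩
  have hnomax : ∀ a : D, ∃ b : D, (a : X) ∈ Cs o (b : X) := by
    intro a
    obtain ⟨e, he, hae⟩ := cut_nomax hD (hDs a a.2)
    obtain ⟨b, hb, hab, -⟩ := hDd a e (hDs a a.2) he hae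
    exact ⟨⟨b, hb⟩, hab⟩
  have hnomin : ∀ a : D, ∃ b : D, (b : X) ∈ Cs o (a : X) := by
    intro a
    obtain ⟨e, he, hae⟩ := cut_nomin hD (hDs a a.2)
    obtain ⟨b, hb, -, hab⟩ := hDd e a he (hDs a a.2) hae
    exact ⟨⟨b, hb⟩, hab⟩
  have hdense : ∀ a b : D, (a : X) ∈ Cs o (b : X) →
      ∃ c : D, (a : X) ∈ Cs o (c : X) ∧ (c : X) ∈ Cs o (b : X) := by
    intro a b hab
    obtain ⟨c, hc, h1, h2⟩ := hDd a b (hDs a a.2) (hDs b b.2) hab
    exact ⟨⟨c, hc⟩, h1, h2⟩
  have hasym : ∀ a b : X, a ∈ Cs o b → ¬ b ∈ Cs o a := by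
    intro a b h h'
    exact cut_irr (cut_trans hD h h')
  let _ : LinearOrder D :=
    { le := fun a b => a = b ∨ (a : X) ∈ Cs o (b : X)
      lt := fun a b => (a : X) ∈ Cs o (b : X)
      le_refl := fun a => Or.inl rfl
      le_trans := by
        rintro a b c (rfl | h) (rfl | h')
        · exact Or.inl rfl
        · exact Or.inr h'
        · exact Or.inr h
        · exact Or.inr (cut_trans hD h h')
      lt_iff_le_not_ge := by
        intro a b
        constructor
        · intro h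
          refine ⟨Or.inr h, ?_⟩
          rintro (rfl | h')
          · exact cut_irr h
          · exact hasym _ _ h h'
        · rintro ⟨h | h, h'⟩
          · exact (h' (Or.inl h.symm)).elim
          · exact h
      le_antisymm := by
        rintro a b (h | h) (h' | h')
        · exact h
        · exact h
        · exact h'.symm
        · exact (hasym _ _ h h').elim
      le_total := by
        intro a b
        rcases cut_tri hD (hDs a a.2) (hDs b b.2) with h | h | h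
        · exact Or.inl (Or.inr h)
        · exact Or.inl (Or.inl (Subtype.ext h))
        · exact Or.inr (Or.inr h)
      toDecidableLE := Classical.decRel _ }
  have hlt : ∀ a b : D, a < b ↔ (a : X) ∈ Cs o (b : X) := fun a b => Iff.rfl
  have : Countable D := hDc.to_subtype
  have : DenselyOrdered D := ⟨fun a b hab => by
    obtain ⟨c, h1, h2⟩ := hdense a b hab
    exact ⟨c, h1, h2⟩⟩
  have : NoMinOrder D := ⟨fun a => by
    obtain ⟨b, h⟩ := hnomin a
    exact ⟨b, h⟩⟩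
  have : NoMaxOrder D := ⟨fun a => by
    obtain ⟨b, h⟩ := hnomax a
    exact ⟨b, h⟩⟩
  have : Nonempty D := by
    obtain ⟨z, hz⟩ := hne
    obtain ⟨e, he, h1⟩ := cut_nomax hD hz
    obtain ⟨b, hb, -, -⟩ := hDd z e hz he h1
    exact ⟨⟨b, hb⟩⟩
  have : Nonempty (Set.Ioo (0 : ℚ) 1) := ⟨⟨1 / 2, by norm_num, by norm_num⟩⟩
  obtain ⟨φ⟩ := Order.iso_of_countable_dense (Set.Ioo (0 : ℚ) 1) D
  refine ⟨fun q => if h : q ∈ Set.Ioo (0 : ℚ) 1 then (φ ⟨q, h⟩ : X) else o, ?_, ?_, ?_⟩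
  · intro q h0 h1
    have hq : q ∈ Set.Ioo (0 : ℚ) 1 := ⟨h0, h1⟩
    simp only [hq, dite_true]
    exact hDs _ (φ ⟨q, hq⟩).2
  · intro q q' h0 h1 h2
    have hq : q ∈ Set.Ioo (0 : ℚ) 1 := ⟨h0, h1.trans h2⟩
    have hq' : q' ∈ Set.Ioo (0 : ℚ) 1 := ⟨h0.trans h1, h2⟩
    simp only [hq, hq', dite_true]
    have h3 : φ ⟨q, hq⟩ < φ ⟨q', hq'⟩ := φ.lt_iff_lt.2 h1
    exact (hlt _ _).1 h3
  · intro e e' he he' hee
    obtain ⟨c, hc, h1, h2⟩ := hDd e e' he he' hee
    have hq : ((φ.symm ⟨c, hc⟩ : Set.Ioo (0 : ℚ) 1) : ℚ) ∈ Set.Ioo (0 : ℚ) 1 :=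
      (φ.symm ⟨c, hc⟩).2
    refine ⟨(φ.symm ⟨c, hc⟩ : Set.Ioo (0 : ℚ) 1), hq.1, hq.2, ?_⟩
    have h3 : φ ⟨((φ.symm ⟨c, hc⟩ : Set.Ioo (0 : ℚ) 1) : ℚ), hq⟩ = ⟨c, hc⟩ := by
      simp
    simp only [hq, dite_true, h3]
    exact ⟨h1, h2⟩

end Pool.DMX
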