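import Pool.Agent.Helper84.DM.XOrd

/-!
DM-X4b (CountA: `exists_countable`): a countable dense set of cut points on the arc from `o` to `x`, if there is a path from `o` to `x`.

Proof. `p : Path o x` (`p : unitInterval → X` continuous, `p 0 = o`, `p 1 = x`).  `S` a countable dense subset of `unitInterval`
(`TopologicalSpace.exists_countable_dense`).
For every pair `s, s' ∈ S` such that some `e` with `Sp e o x` has `p s ∈ As o e`, `p s' ∈ Cs o e` choose one such
`e(s,s')`; `𝒟` = all these (a subset of the image of the countable set `S ×ˢ S`).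
Let `d ∈ Cs o d'`; `cut_dense` (3 times) gives `e₂, e, e₁` with `d < e₂ < e < e₁ < d'` (where `a < b` means `a ∈ Cs o b`).
`p⁻¹(As o e ∩ Cs o d')` is open and nonempty: `e₁ ∈ Ar o x ⊆ range p` (`ar_subset`, the range is preconnected), `e₁ ∈ Cs o d'`,
`e ∈ Cs o e₁` so `e₁ ∈ As o e` (`mem_As_of_mem_Cs`).  So it contains some `s ∈ S`.
`p⁻¹(Cs o e ∩ As o d)` is open and contains a preimage of `e₂`, so it contains some `s' ∈ S`.  Let `e* = e(s,s')`.
`cut_tri e* d`: if `e* = d` or `e* ∈ Cs o d` then `Cs o e* ⊆ Cs o d`, but `p s' ∈ Cs o e*`, `p s' ∈ As o d`: contradiction.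
So `d ∈ Cs o e*`.
`cut_tri e* d'`: if `d' = e*` or `d' ∈ Cs o e*` then `As o e* ⊆ As o d'` (`As_subset`), but `p s ∈ As o e*`, `p s ∈ Cs o d'`.
So `e* ∈ Cs o d'`.

`exists_enum`: `𝒟` is a countable dense linear order without end points, nonempty (if `x ≠ o`), so `Order.iso_of_countable_dense`
gives an order isomorphism of `Set.Ioo (0 : ℚ) 1` with `𝒟`.  (Put the linear order on the subtype `𝒟` with `LinearOrder.mk`/
`linearOrderOfSTO` or transfer it by hand; `𝒟` itself is dense without end points by `exists_countable` between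
elements given by `cut_dense`, `cut_nomin`, `cut_nomax`.)
-/

set_option autoImplicit false

namespace Pool.DMX

open Set Topology

variable {X : Type} [TopologicalSpace X]

variable [CompactSpace X] [ConnectedSpace X] [T2Space X]

theorem exists_countable (hD : Dn X) {o x : X} (p : Path o x) :
    ∃ 𝒟 : Set X, 𝒟.Countable ∧ (∀ d ∈ 𝒟, Sp d o x) ∧
      ∀ d d', Sp d o x → Sp d' o x → d ∈ Cs o d' → ∃ e ∈ 𝒟, d ∈ Cs o e ∧ e ∈ Cs o d' := by
  classical
  obtain ⟨S, hSc, hSd⟩ := TopologicalSpace.exists_countable_dense unitInterval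
  let P : unitInterval × unitInterval → Prop := fun q =>
    ∃ e, Sp e o x ∧ p q.1 ∈ As o e ∧ p q.2 ∈ Cs o e
  let f : unitInterval × unitInterval → X := fun q => if h : P q then h.choose else x
  have hf : ∀ q, P q → Sp (f q) o x ∧ p q.1 ∈ As o (f q) ∧ p q.2 ∈ Cs o (f q) := by
    intro q hq
    have : f q = hq.choose := dif_pos hq
    rw [this]
    exact hq.choose_spec
  refine ⟨f '' {q | q ∈ S ×ˢ S ∧ P q}, ?_, ?_, ?_⟩
  · exact ((hSc.prod hSc).mono fun q hq => hq.1).image f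
  · rintro d ⟨q, hq, rfl⟩
    exact (hf q hq.2).1
  intro d d' hd hd' hdd
  obtain ⟨e, he, h1, h2⟩ := cut_dense hD hd hd' hdd
  obtain ⟨e₂, he₂, h3, h4⟩ := cut_dense hD hd he h1
  obtain ⟨e₁, he₁, h5, h6⟩ := cut_dense hD he hd' h2
  have hrange : Ar o x ⊆ range p :=
    ar_subset (isPreconnected_range p.continuous) ⟨0, p.source⟩ ⟨1, p.target⟩
  have hO1 : IsOpen (p ⁻¹' (As o e ∩ Cs o d')) :=
    ((isOpen_As hD o e).inter (isOpen_Cs o d')).preimage p.continuous
  have hO2 : IsOpen (p ⁻¹' (Cs o e ∩ As o d)) :=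
    ((isOpen_Cs o e).inter (isOpen_As hD o d)).preimage p.continuous
  obtain ⟨t₁, ht₁⟩ := hrange he₁.mem_ar
  obtain ⟨t₂, ht₂⟩ := hrange he₂.mem_ar
  obtain ⟨s, hs1, hs2⟩ := hSd.inter_open_nonempty _ hO1
    ⟨t₁, by
      show p t₁ ∈ As o e ∩ Cs o d'
      rw [ht₁]
      exact ⟨mem_As_of_mem_Cs hD h5, h6⟩⟩
  obtain ⟨s', hs1', hs2'⟩ := hSd.inter_open_nonempty _ hO2
    ⟨t₂, by
      show p t₂ ∈ Cs o e ∩ As o d
      rw [ht₂]
      exact ⟨h4, mem_As_of_mem_Cs hD h3⟩⟩
  have hP : P (s, s') := ⟨e, he, hs1.1, hs1'.1⟩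
  obtain ⟨g1, g2, g3⟩ := hf _ hP
  refine ⟨f (s, s'), ⟨(s, s'), ⟨⟨hs2, hs2'⟩, hP⟩, rfl⟩, ?_, ?_⟩
  · rcases cut_tri hD g1 hd with h | h | h
    · exact ((sepAt_side hD o d).not_both hs1'.2 (Cs_subset hD h (Or.inl g3))).elim
    · exact ((sepAt_side hD o d).not_both hs1'.2 (h ▸ g3)).elim
    · exact h
  · rcases cut_tri hD g1 hd' with h | h | h
    · exact h
    · exact ((sepAt_side hD o d').not_both (h ▸ g2) hs1.2).elim
    · exact ((sepAt_side hD o d').not_both (As_subset hD h (Or.inl g2)) hs1.2).elim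

end Pool.DMX
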