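import Mathlib

/-!
DM-X1 (Cut): separations at a point, the sets `Ar p q` (the arc from `p` to `q` in a dendron).
-/

set_option autoImplicit false

namespace Pool.DMX

open Set Topology

variable {X : Type*} [TopologicalSpace X]

/-- `(U, V)` is a separation of `X` at `w`. -/
def SepAt (w : X) (U V : Set X) : Prop :=
  IsOpen U ∧ IsOpen V ∧ Disjoint U V ∧ U ∪ V = {w}ᶜ

/-- `z` separates `p` from `q`. -/
def Sp (z p q : X) : Prop := ∃ U V : Set X, SepAt z U V ∧ p ∈ U ∧ q ∈ V

/-- The points between `p` and `q`, together with `p` and `q`. -/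
def Ar (p q : X) : Set X := {z | z = p ∨ z = q ∨ Sp z p q}

/-- The dendron property. -/
def Dn (X : Type*) [TopologicalSpace X] : Prop := ∀ x y : X, x ≠ y → ∃ z, Sp z x y

theorem SepAt.symm {w : X} {U V : Set X} (h : SepAt w U V) : SepAt w V U :=
  ⟨h.2.1, h.1, h.2.2.1.symm, by rw [union_comm]; exact h.2.2.2⟩

theorem SepAt.not_mem_left {w : X} {U V : Set X} (h : SepAt w U V) : w ∉ U := fun hw => by
  have : w ∈ ({w}ᶜ : Set X) := h.2.2.2 ▸ Or.inl hw
  exact this rfl

theorem SepAt.not_mem_right {w : X} {U V : Set X} (h : SepAt w U V) : w ∉ V :=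
  h.symm.not_mem_left

theorem SepAt.mem_or {w : X} {U V : Set X} (h : SepAt w U V) {x : X} (hx : x ≠ w) :
    x ∈ U ∨ x ∈ V := by
  have : x ∈ U ∪ V := by rw [h.2.2.2]; exact hx
  exact this

theorem SepAt.not_both {w : X} {U V : Set X} (h : SepAt w U V) {x : X} (hx : x ∈ U)
    (hx' : x ∈ V) : False := Set.disjoint_left.1 h.2.2.1 hx hx'

theorem SepAt.closed_left {w : X} {U V : Set X} (h : SepAt w U V) : IsClosed (U ∪ {w}) := by
  have : U ∪ {w} = Vᶜ := by
    ext x
    constructor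
    · rintro (hx | hx) hV
      · exact h.not_both hx hV
      · rw [mem_singleton_iff] at hx
        exact h.not_mem_right (hx ▸ hV)
    · intro hx
      by_cases hw : x = w
      · exact Or.inr hw
      · rcases h.mem_or hw with h1 | h1
        · exact Or.inl h1
        · exact (hx h1).elim
  rw [this]
  exact h.2.1.isClosed_compl

theorem Sp.symm {z p q : X} (h : Sp z p q) : Sp z q p := by
  obtain ⟨U, V, h1, h2, h3⟩ := h
  exact ⟨V, U, h1.symm, h3, h2⟩

theorem Sp.ne_left {z p q : X} (h : Sp z p q) : z ≠ p := by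
  obtain ⟨U, V, h1, h2, h3⟩ := h
  rintro rfl
  exact h1.not_mem_left h2

theorem Sp.ne_right {z p q : X} (h : Sp z p q) : z ≠ q := h.symm.ne_left

theorem Sp.ne {z p q : X} (h : Sp z p q) : p ≠ q := by
  obtain ⟨U, V, h1, h2, h3⟩ := h
  rintro rfl
  exact h1.not_both h2 h3

theorem SepAt.precon_inter {w : X} {U V : Set X} (h : SepAt w U V) {I : Set X}
    (hI : IsPreconnected I) (hw : w ∈ I) : IsPreconnected ((I ∩ U) ∪ {w}) := by
  have key : ∀ A B : Set X, IsOpen A → IsOpen B → (I ∩ U) ∪ {w} ⊆ A ∪ B → w ∈ A →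
      (((I ∩ U) ∪ {w}) ∩ B).Nonempty → (((I ∩ U) ∪ {w}) ∩ (A ∩ B)).Nonempty := by
    intro A B hA hB hAB hwA hBne
    obtain ⟨b, hb, hbB⟩ := hBne
    by_cases hbw : b = w
    · subst hbw
      exact ⟨b, hb, hwA, hbB⟩
    have hbU : b ∈ I ∩ U := by
      rcases hb with hb | hb
      · exact hb
      · exact (hbw hb).elim
    obtain ⟨x, hxI, hx1, hx2⟩ := hI (A ∪ V) (B ∩ U) (hA.union h.2.1) (hB.inter h.1)
      (by
        intro x hx
        by_cases hxw : x = w
        · exact Or.inl (Or.inl (hxw ▸ hwA))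
        · rcases h.mem_or hxw with hU | hV
          · rcases hAB (Or.inl ⟨hx, hU⟩) with h1 | h1
            · exact Or.inl (Or.inl h1)
            · exact Or.inr ⟨h1, hU⟩
          · exact Or.inl (Or.inr hV))
      ⟨w, hw, Or.inl hwA⟩ ⟨b, hbU.1, hbB, hbU.2⟩
    rcases hx1 with hx1 | hx1
    · exact ⟨x, Or.inl ⟨hxI, hx2.2⟩, hx1, hx2.1⟩
    · exact (h.not_both hx2.2 hx1).elim
  intro A B hA hB hAB hAne hBne
  rcases hAB (Or.inr rfl) with hwA | hwB
  · exact key A B hA hB hAB hwA hBne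
  · rw [inter_comm A B]
    exact key B A hB hA (by rw [union_comm B A]; exact hAB) hwB hAne

theorem SepAt.precon [PreconnectedSpace X] {w : X} {U V : Set X} (h : SepAt w U V) :
    IsPreconnected (U ∪ {w}) := by
  have := h.precon_inter isPreconnected_univ (mem_univ w)
  rwa [univ_inter] at this

theorem SepAt.subset_or {w : X} {U V : Set X} (h : SepAt w U V) {K : Set X}
    (hK : IsPreconnected K) (hw : w ∉ K) : K ⊆ U ∨ K ⊆ V := by
  by_cases h1 : (K ∩ V).Nonempty
  · by_cases h2 : (K ∩ U).Nonempty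
    · obtain ⟨x, _, hx1, hx2⟩ := hK U V h.1 h.2.1
        (fun x hx => h.mem_or (fun e => hw (e ▸ hx))) h2 h1
      exact (h.not_both hx1 hx2).elim
    · right
      intro x hx
      rcases h.mem_or (fun e => hw (e ▸ hx)) with h3 | h3
      · exact (h2 ⟨x, hx, h3⟩).elim
      · exact h3
  · left
    intro x hx
    rcases h.mem_or (fun e => hw (e ▸ hx)) with h3 | h3
    · exact h3
    · exact (h1 ⟨x, hx, h3⟩).elim

theorem SepAt.subset_left {w : X} {U V : Set X} (h : SepAt w U V) {K : Set X}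
    (hK : IsPreconnected K) (hw : w ∉ K) {p : X} (hp : p ∈ K) (hpU : p ∈ U) : K ⊆ U := by
  rcases h.subset_or hK hw with h1 | h1
  · exact h1
  · exact (h.not_both hpU (h1 hp)).elim

theorem left_mem_ar (p q : X) : p ∈ Ar p q := Or.inl rfl

theorem right_mem_ar (p q : X) : q ∈ Ar p q := Or.inr (Or.inl rfl)

theorem Sp.mem_ar {z p q : X} (h : Sp z p q) : z ∈ Ar p q := Or.inr (Or.inr h)

theorem sp_of_mem_ar {z p q : X} (h : z ∈ Ar p q) (h1 : z ≠ p) (h2 : z ≠ q) : Sp z p q := by
  rcases h with h | h | h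
  · exact (h1 h).elim
  · exact (h2 h).elim
  · exact h

theorem ar_comm (p q : X) : Ar p q = Ar q p := by
  ext z
  constructor
  · rintro (h | h | h)
    · exact Or.inr (Or.inl h)
    · exact Or.inl h
    · exact Or.inr (Or.inr h.symm)
  · rintro (h | h | h)
    · exact Or.inr (Or.inl h)
    · exact Or.inl h
    · exact Or.inr (Or.inr h.symm)

theorem ar_self (p : X) : Ar p p = {p} := by
  ext z
  constructor
  · rintro (h | h | h)
    · exact h
    · exact h
    · exact (h.ne rfl).elim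
  · intro h
    exact Or.inl h

theorem ar_subset {K : Set X} (hK : IsPreconnected K) {p q : X} (hp : p ∈ K) (hq : q ∈ K) :
    Ar p q ⊆ K := by
  rintro z (h | h | h)
  · exact h ▸ hp
  · exact h ▸ hq
  · by_contra hz
    obtain ⟨U, V, h1, h2, h3⟩ := h
    exact h1.not_both (h1.subset_left hK hz hp h2 hq) h3

theorem ar_end {p q w w' : X} (h : IsPreconnected (Ar p q)) (hw : w ∈ Ar p q)
    (hw' : w' ∈ Ar p q) : ¬ Sp p w w' := by
  rintro ⟨U, V, h1, h2, h3⟩
  by_cases hqp : q = p
  · subst hqp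
    rw [ar_self] at hw
    rw [mem_singleton_iff] at hw
    exact h1.not_mem_left (hw ▸ h2)
  rcases h1.mem_or hqp with hq | hq
  · have h4 : Ar p q ⊆ (Ar p q ∩ U) ∪ {p} :=
      ar_subset (h1.precon_inter h (left_mem_ar p q)) (Or.inr rfl)
        (Or.inl ⟨right_mem_ar p q, hq⟩)
    rcases h4 hw' with h5 | h5
    · exact h1.not_both h5.2 h3
    · rw [mem_singleton_iff] at h5
      exact h1.not_mem_right (h5 ▸ h3)
  · have h4 : Ar p q ⊆ (Ar p q ∩ V) ∪ {p} :=
      ar_subset (h1.symm.precon_inter h (left_mem_ar p q)) (Or.inr rfl)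
        (Or.inl ⟨right_mem_ar p q, hq⟩)
    rcases h4 hw with h5 | h5
    · exact h1.not_both h2 h5.2
    · rw [mem_singleton_iff] at h5
      exact h1.not_mem_left (h5 ▸ h2)

end Pool.DMX
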