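import Pool.Agent.Helper84.DM.XCut
import Pool.Agent.Helper64.DN.Top

/-!
DM-X2 (Irr): in a dendron `Ar p q` is closed and preconnected.

`exists_min`: Zorn (`zorn_superset_nonempty` or `zorn_superset`): a minimal closed preconnected set containing `p`, `q`
(a chain of such sets is directed, `H64DN.preconnected_iInter`).

`sp_of_min`: `I` minimal, `z ∈ I`, `z ≠ p, q`.  Then `Sp z p q`:
 (a) if `SepAt w U V`, `p ∈ U`, `z ∈ V` then `q ∈ V`: `w ∈ I` (`I` preconnected meets `U` and `V`). If `q ∉ V` then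
     `(I ∩ U) ∪ {w}` is closed (`= I ∩ (U ∪ {w})`), preconnected (`SepAt.precon_inter`), contains `p, q` and not `z`:
     contradicts minimality.
 (b) `O := ⋃ {U | ∃ w V, SepAt w U V, p ∈ U, z ∈ V}`.  Open, `p ∈ O` (hD p z), `q ∉ O` (by (a)), `z ∉ O`.
 (c) `W := ({z} ∪ O)ᶜ` is open: let `y ≠ z`, `y ∉ O`. hD y z: `SepAt w U V`, `y ∈ U`, `z ∈ V`. `p ∉ U` (else `y ∈ O`).
     `U ∩ O = ∅`: let `u ∈ U ∩ U₁`, `SepAt w₁ U₁ V₁`, `p ∈ U₁`, `z ∈ V₁`.
       `w = w₁`: `(U ∪ U₁, V ∩ V₁)` is a separation at `w` with `p` in the first and `z` in the second, so `y ∈ O`,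
         contradiction.
       `w ≠ w₁`: if `w ∉ U₁` then `U₁ ∪ {w₁}` is preconnected, misses `w`, meets `U` in `u`, so `U₁ ⊆ U`, `p ∈ U`,
         contradiction.
       So `w ∈ U₁`. If `w₁ ∉ U` then `U ∪ {w}` is preconnected, misses `w₁`, contains `w ∈ U₁`, so `U ⊆ U₁`,
         `y ∈ U₁ ⊆ O`, contradiction.
       So `w₁ ∈ U`, then `V ∪ {w}` is preconnected, misses `w₁`, contains `w ∈ U₁`, so `V ⊆ U₁`, `z ∈ V₁ ∩ U₁`,
         contradiction.
     So `U` is a neighbourhood of `y` inside `W`.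
 (d) `SepAt z O W`, `p ∈ O`, `q ∈ W`.
-/

set_option autoImplicit false

namespace Pool.DMX

open Set Topology

variable {X : Type} [TopologicalSpace X]

theorem exists_min [CompactSpace X] [ConnectedSpace X] [T2Space X] (p q : X) :
    ∃ I : Set X, (IsClosed I ∧ IsPreconnected I ∧ p ∈ I ∧ q ∈ I) ∧
      ∀ I' : Set X, I' ⊆ I → IsClosed I' → IsPreconnected I' → p ∈ I' → q ∈ I' → I' = I := by
  obtain ⟨I, _, hI⟩ := zorn_superset_nonempty
    {I : Set X | IsClosed I ∧ IsPreconnected I ∧ p ∈ I ∧ q ∈ I}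
    (by
      intro c hc hchain hne
      haveI : Nonempty c := hne.to_subtype
      refine ⟨⋂ i : c, i.1, ⟨isClosed_iInter (fun i => (hc i.2).1), ?_, ?_, ?_⟩, ?_⟩
      · refine H64DN.preconnected_iInter (fun i : c => i.1) (fun i => (hc i.2).1)
          (fun i => (hc i.2).2.1) ?_
        intro i j
        rcases hchain.total i.2 j.2 with h | h
        · exact ⟨i, subset_rfl, h⟩
        · exact ⟨j, h, subset_rfl⟩
      · exact mem_iInter.2 (fun i => (hc i.2).2.2.1)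
      · exact mem_iInter.2 (fun i => (hc i.2).2.2.2)
      · intro t ht
        exact iInter_subset (fun i : c => i.1) ⟨t, ht⟩)
    univ ⟨isClosed_univ, isPreconnected_univ, mem_univ _, mem_univ _⟩
  refine ⟨I, hI.1, ?_⟩
  intro I' h1 h2 h3 h4 h5
  exact Subset.antisymm h1 (hI.2 ⟨h2, h3, h4, h5⟩ h1)

theorem sp_of_min [CompactSpace X] [ConnectedSpace X] [T2Space X] (hD : Dn X) {p q : X}
    {I : Set X} (hI : IsClosed I ∧ IsPreconnected I ∧ p ∈ I ∧ q ∈ I)
    (hmin : ∀ I' : Set X, I' ⊆ I → IsClosed I' → IsPreconnected I' → p ∈ I' → q ∈ I' → I' = I)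
    {z : X} (hz : z ∈ I) (hp : z ≠ p) (hq : z ≠ q) : Sp z p q := by
  have ha : ∀ w U V, SepAt w U V → p ∈ U → z ∈ V → q ∈ V := by
    intro w U V h hpU hzV
    have hw : w ∈ I := by
      by_contra hw
      exact h.not_both (h.subset_left hI.2.1 hw hI.2.2.1 hpU hz) hzV
    by_contra hqV
    have hq' : q ∈ (I ∩ U) ∪ {w} := by
      by_cases hqw : q = w
      · exact Or.inr hqw
      · rcases h.mem_or hqw with h1 | h1
        · exact Or.inl ⟨hI.2.2.2, h1⟩
        · exact (hqV h1).elim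
    have heq : (I ∩ U) ∪ {w} = I ∩ (U ∪ {w}) := by
      ext x
      constructor
      · rintro (hx | hx)
        · exact ⟨hx.1, Or.inl hx.2⟩
        · rw [mem_singleton_iff] at hx
          exact ⟨hx ▸ hw, Or.inr hx⟩
      · rintro ⟨hx1, hx2 | hx2⟩
        · exact Or.inl ⟨hx1, hx2⟩
        · exact Or.inr hx2
    have hcl : IsClosed ((I ∩ U) ∪ {w}) := by
      rw [heq]
      exact hI.1.inter h.closed_left
    have hsub : (I ∩ U) ∪ {w} ⊆ I := by
      rw [heq]
      exact inter_subset_left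
    have h2 := hmin _ hsub hcl (h.precon_inter hI.2.1 hw) (Or.inl ⟨hI.2.2.1, hpU⟩) hq'
    have h3 : z ∈ (I ∩ U) ∪ {w} := by
      rw [h2]
      exact hz
    rcases h3 with h3 | h3
    · exact h.not_both h3.2 hzV
    · rw [mem_singleton_iff] at h3
      exact h.not_mem_right (h3 ▸ hzV)
  have hO : IsOpen {y : X | ∃ w U V, SepAt w U V ∧ p ∈ U ∧ z ∈ V ∧ y ∈ U} := by
    rw [isOpen_iff_forall_mem_open]
    rintro y ⟨w, U, V, h, hpU, hzV, hyU⟩
    exact ⟨U, fun x hx => ⟨w, U, V, h, hpU, hzV, hx⟩, h.1, hyU⟩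
  have hpO : p ∈ {y : X | ∃ w U V, SepAt w U V ∧ p ∈ U ∧ z ∈ V ∧ y ∈ U} := by
    obtain ⟨w, U, V, h, h1, h2⟩ := hD p z hp.symm
    exact ⟨w, U, V, h, h1, h2, h1⟩
  have hW : IsOpen {y : X | y ≠ z ∧ ¬ ∃ w U V, SepAt w U V ∧ p ∈ U ∧ z ∈ V ∧ y ∈ U} := by
    rw [isOpen_iff_forall_mem_open]
    rintro y ⟨hyz, hyO⟩
    obtain ⟨w, U, V, h, hyU, hzV⟩ := hD y z hyz
    have hpU : p ∉ U := fun hpU => hyO ⟨w, U, V, h, hpU, hzV, hyU⟩
    refine ⟨U, ?_, h.1, hyU⟩
    intro u hu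
    refine ⟨fun e => h.not_both hu (e ▸ hzV), ?_⟩
    rintro ⟨w₁, U₁, V₁, h₁, hpU₁, hzV₁, huU₁⟩
    by_cases hww : w = w₁
    · subst hww
      apply hyO
      refine ⟨w, U ∪ U₁, V ∩ V₁, ⟨h.1.union h₁.1, h.2.1.inter h₁.2.1, ?_, ?_⟩,
        Or.inr hpU₁, ⟨hzV, hzV₁⟩, Or.inl hyU⟩
      · rw [Set.disjoint_left]
        rintro x (hx | hx) ⟨hx1, hx2⟩
        · exact h.not_both hx hx1
        · exact h₁.not_both hx hx2
      · ext x
        constructor
        · rintro ((hx | hx) | ⟨hx, _⟩)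
          · exact fun e => h.not_mem_left (mem_singleton_iff.1 e ▸ hx)
          · exact fun e => h₁.not_mem_left (mem_singleton_iff.1 e ▸ hx)
          · exact fun e => h.not_mem_right (mem_singleton_iff.1 e ▸ hx)
        · intro hx
          rcases h.mem_or hx with h1 | h1
          · exact Or.inl (Or.inl h1)
          · rcases h₁.mem_or hx with h2 | h2
            · exact Or.inl (Or.inr h2)
            · exact Or.inr ⟨h1, h2⟩
    · by_cases hwU₁ : w ∈ U₁
      · by_cases hw₁U : w₁ ∈ U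
        · have h2 : V ∪ {w} ⊆ U₁ := by
            refine h₁.subset_left h.symm.precon ?_ (Or.inr rfl) hwU₁
            rintro (h3 | h3)
            · exact h.not_both hw₁U h3
            · exact hww (mem_singleton_iff.1 h3).symm
          exact h₁.not_both (h2 (Or.inl hzV)) hzV₁
        · have h2 : U ∪ {w} ⊆ U₁ := by
            refine h₁.subset_left h.precon ?_ (Or.inr rfl) hwU₁
            rintro (h3 | h3)
            · exact hw₁U h3
            · exact hww (mem_singleton_iff.1 h3).symm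
          exact hyO ⟨w₁, U₁, V₁, h₁, hpU₁, hzV₁, h2 (Or.inl hyU)⟩
      · have h2 : U₁ ∪ {w₁} ⊆ U := by
          refine h.subset_left h₁.precon ?_ (Or.inl huU₁) hu
          rintro (h3 | h3)
          · exact hwU₁ h3
          · exact hww (mem_singleton_iff.1 h3)
        exact hpU (h2 (Or.inl hpU₁))
  refine ⟨_, _, ⟨hO, hW, ?_, ?_⟩, hpO, ⟨hq.symm, ?_⟩⟩
  · rw [Set.disjoint_left]
    rintro x hx ⟨_, hx2⟩
    exact hx2 hx
  · ext x
    constructor
    · rintro (⟨w, U, V, h, hpU, hzV, hxU⟩ | hx)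
      · intro e
        rw [mem_singleton_iff] at e
        exact h.not_both hxU (e ▸ hzV)
      · exact hx.1
    · intro hx
      by_cases h1 : ∃ w U V, SepAt w U V ∧ p ∈ U ∧ z ∈ V ∧ x ∈ U
      · exact Or.inl h1
      · exact Or.inr ⟨hx, h1⟩
  · rintro ⟨w, U, V, h, hpU, hzV, hqU⟩
    exact h.not_both hqU (ha w U V h hpU hzV)

theorem ar_eq [CompactSpace X] [ConnectedSpace X] [T2Space X] (hD : Dn X) (p q : X) :
    ∃ I : Set X, IsClosed I ∧ IsPreconnected I ∧ Ar p q = I := by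
  obtain ⟨I, hI, hmin⟩ := exists_min p q
  refine ⟨I, hI.1, hI.2.1, ?_⟩
  apply Subset.antisymm (ar_subset hI.2.1 hI.2.2.1 hI.2.2.2)
  intro z hz
  by_cases h1 : z = p
  · exact Or.inl h1
  by_cases h2 : z = q
  · exact Or.inr (Or.inl h2)
  exact Or.inr (Or.inr (sp_of_min hD hI hmin hz h1 h2))

end Pool.DMX
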