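import Pool.Agent.Helper84.DM.XAFb

/-!
DM-X7a (LetA): the closed connected set `Td r o x` spanned by the points before `x`, the constant `c`.

* `Td_closed`, `Td_precon` (closure of a union of preconnected sets `Ar o z` containing `o`), `ar_subset_Td`, `Td_mono`.
* `exists_letf`: `x ∉ Td r o x`, `φ` an arc function (`exists_af`, `o ≠ x` because `o ∈ Td r o x`; the path from
  `PathConnectedSpace`).  `c := min of φ on the compact set Td r o x` (`IsCompact.exists_isMinOn`), attained at `t₀ ∈ Td`.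
  `c ≤ 1` as `φ o = 1`.  `0 < c`: if `φ t₀ = 0 = φ x` then `AF.const_of` with `T = Td`, `w = x`: `φ = 0` on `Td`, but `φ o = 1`.
  `arc`: let `w ∈ Ar o x`, `c ≤ φ w`, `w ∉ Td`.  `Td` is preconnected and contains `t₀` (`φ t₀ = c`) and `o` (`φ o = 1`), so
  there is `y ∈ Td` with `φ y = φ w` (`IsPreconnected.intermediate_value`); by `AF.const_of` `φ = φ y` on `Td`; so
  `φ w = φ o = 1`, `w = o ∈ Td` by `AF.inj`, contradiction.
-/

set_option autoImplicit false

namespace Pool.DMX

open Set Topology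

variable {X : Type} [TopologicalSpace X]

/-- the closed tree spanned by the points before `x` and the root `o` -/
def Td (r : X → X → Prop) (o x : X) : Set X := closure ({o} ∪ ⋃ z ∈ {z | r z x}, Ar o z)

theorem Td_closed (r : X → X → Prop) (o x : X) : IsClosed (Td r o x) := isClosed_closure

theorem root_mem_Td (r : X → X → Prop) (o x : X) : o ∈ Td r o x :=
  subset_closure (Or.inl rfl)

theorem ar_subset_Td {r : X → X → Prop} {o x z : X} (h : r z x) : Ar o z ⊆ Td r o x := by
  intro y hy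
  exact subset_closure (Or.inr (mem_iUnion₂.2 ⟨z, h, hy⟩))

theorem Td_precon [CompactSpace X] [ConnectedSpace X] [T2Space X] (hD : Dn X)
    (r : X → X → Prop) (o x : X) : IsPreconnected (Td r o x) := by
  unfold Td
  refine IsPreconnected.closure ?_
  refine isPreconnected_of_forall o ?_
  intro y hy
  rcases hy with hy | hy
  · refine ⟨{o}, ?_, rfl, hy, isPreconnected_singleton⟩
    intro u hu
    exact Or.inl hu
  · obtain ⟨z, hz, hy⟩ := mem_iUnion₂.1 hy
    refine ⟨Ar o z, ?_, left_mem_ar o z, hy, ar_precon hD o z⟩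
    intro u hu
    exact Or.inr (mem_iUnion₂.2 ⟨z, hz, hu⟩)

theorem Td_mono {r : X → X → Prop} (hr : ∀ a b c, r a b → r b c → r a c) {o x z : X}
    (h : r z x) : Td r o z ⊆ Td r o x := by
  unfold Td
  refine closure_mono ?_
  intro u hu
  rcases hu with hu | hu
  · exact Or.inl hu
  · obtain ⟨z', hz', hu⟩ := mem_iUnion₂.1 hu
    exact Or.inr (mem_iUnion₂.2 ⟨z', hr z' z x hz' h, hu⟩)

/-- the data of a letter -/
structure LetF (r : X → X → Prop) (o x : X) (φ : X → ℝ) (c : ℝ) : Prop where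
  af : AF o x φ
  pos : 0 < c
  le_one : c ≤ 1
  lb : ∀ t ∈ Td r o x, c ≤ φ t
  arc : ∀ w ∈ Ar o x, c ≤ φ w → w ∈ Td r o x

theorem exists_letf [CompactSpace X] [PathConnectedSpace X] [T2Space X] (hD : Dn X)
    (r : X → X → Prop) (o x : X) (hx : x ∉ Td r o x) :
    ∃ (φ : X → ℝ) (c : ℝ), LetF r o x φ c := by
  have hoT : o ∈ Td r o x := root_mem_Td r o x
  have hox : o ≠ x := fun e => hx (e ▸ hoT)
  obtain ⟨φ, h⟩ := exists_af hD hox (PathConnectedSpace.somePath o x)
  have hpre : IsPreconnected (Td r o x) := Td_precon hD r o x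
  obtain ⟨t₀, ht₀, hmin⟩ := (Td_closed r o x).isCompact.exists_isMinOn ⟨o, hoT⟩
    h.cont.continuousOn
  refine ⟨φ, φ t₀, h, ?_, (h.mem t₀).2, fun t ht => hmin ht, ?_⟩
  · by_contra hneg
    have h0 : φ t₀ = 0 := le_antisymm (not_lt.1 hneg) (h.mem t₀).1
    have h1 := h.const_of hpre (right_mem_ar o x) hx ht₀ (by rw [h.zero, h0]) o hoT
    rw [h.one, h0] at h1
    exact one_ne_zero h1
  · intro w hw hcw
    by_contra hwT
    obtain ⟨y, hy, hyw⟩ := hpre.intermediate_value ht₀ hoT h.cont.continuousOn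
      (show φ w ∈ Icc (φ t₀) (φ o) from ⟨hcw, by rw [h.one]; exact (h.mem w).2⟩)
    have h1 := h.const_of hpre hw hwT hy hyw.symm o hoT
    have h2 : w = o := h.inj w hw o (left_mem_ar o x) (by rw [h1, hyw])
    exact hwT (h2 ▸ hoT)

end Pool.DMX
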