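import Pool.Agent.Helper84.DM.XLetA

/-!
DM-X7b (LetB): `hh φ c y = min 1 (φ y / c)`; constancy of `h_x` on `S_y = {h_y < 1}` and countability.

* `hh_lt_iff`: `hh φ c y < 1 ↔ φ y < c` (`0 < c`).
* `letf_const` (F2): `r x y`, letters `x`, `y`, a common point `z` of `S_x = {φ < c}` and `S_y = {ψ < d}`.  `Ar o x ⊆ Td r o y`, `S_y` is
  disjoint from `Td r o y` (`LetF.lb`), preconnected (`AF.precon_lt`), so `φ` is constant on `S_y` (`AF.const`), with value `φ z < c`.
* `letf_countable` (F3): a family of letters `x i` (`i ∈ I`) with `{h_j < 1} ⊆ {h_i < 1}` and `h_i` constant on `{h_j < 1}`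
  whenever `i ≠ j` and `i` is before `j`; abstractly: functions `h i : unitInterval → ℝ` (`h i` composed with a path from `o` to the point
  `k`), `h i 0 = 1`, `h i 1 = t i < 1`, and for `i ≠ j` either (`h j s < 1 → h i s = t i`) for all `s`, or the same with `i, j`
  exchanged.  Then the index set is countable: `W i := {s | t i < h i s ∧ h i s < 1}` is open, nonempty
  (`intermediate_value`), pairwise disjoint; `Set.PairwiseDisjoint.countable_of_isOpen` in the separable space `unitInterval`.
-/

set_option autoImplicit false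

namespace Pool.DMX

open Set Topology

variable {X : Type} [TopologicalSpace X]

noncomputable def hh (φ : X → ℝ) (c : ℝ) (y : X) : ℝ := min 1 (φ y / c)

theorem hh_lt_iff {φ : X → ℝ} {c : ℝ} (hc : 0 < c) (y : X) : hh φ c y < 1 ↔ φ y < c := by
  unfold hh
  rw [min_lt_iff, div_lt_one hc]
  constructor
  · rintro (h | h)
    · exact (lt_irrefl _ h).elim
    · exact h
  · exact Or.inr

theorem hh_mem {r : X → X → Prop} {o x : X} {φ : X → ℝ} {c : ℝ} (h : LetF r o x φ c) (y : X) :
    0 ≤ hh φ c y ∧ hh φ c y ≤ 1 := by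
  exact ⟨le_min zero_le_one (div_nonneg (h.af.mem y).1 h.pos.le), min_le_left _ _⟩

theorem hh_cont {r : X → X → Prop} {o x : X} {φ : X → ℝ} {c : ℝ} (h : LetF r o x φ c) :
    Continuous (hh φ c) := by
  exact continuous_const.min (h.af.cont.div_const c)

theorem hh_root {r : X → X → Prop} {o x : X} {φ : X → ℝ} {c : ℝ} (h : LetF r o x φ c) :
    hh φ c o = 1 := by
  unfold hh
  rw [h.af.one]
  exact min_eq_left (one_le_one_div h.pos h.le_one)

theorem hh_self {r : X → X → Prop} {o x : X} {φ : X → ℝ} {c : ℝ} (h : LetF r o x φ c) :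
    hh φ c x = 0 := by
  unfold hh
  rw [h.af.zero, zero_div]
  exact min_eq_right zero_le_one

theorem letf_const [PreconnectedSpace X] {r : X → X → Prop} {o x y : X} {φ ψ : X → ℝ} {c d : ℝ}
    (h : LetF r o x φ c) (h' : LetF r o y ψ d) (hxy : r x y) {z : X} (hz : hh φ c z < 1)
    (hz' : hh ψ d z < 1) : ∀ u, hh ψ d u < 1 → hh φ c u = hh φ c z := by
  intro u hu
  have e : φ u = φ z := by
    refine h.af.const (h'.af.precon_lt d) ?_ (y := z) (u := u) ((hh_lt_iff h'.pos z).1 hz')
      ((hh_lt_iff h'.pos u).1 hu)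
    intro w hw hwd
    exact absurd (h'.lb w (ar_subset_Td hxy hw)) (not_le.2 hwd)
  unfold hh
  rw [e]

theorem countable_of_path {I : Type} (h : I → unitInterval → ℝ) (t : I → ℝ)
    (hc : ∀ i, Continuous (h i)) (h0 : ∀ i, h i 0 = 1) (h1 : ∀ i, h i 1 = t i)
    (ht : ∀ i, t i < 1)
    (hd : ∀ i j, i ≠ j → (∀ s, h j s < 1 → h i s = t i) ∨ (∀ s, h i s < 1 → h j s = t j)) :
    Countable I := by
  have key : (univ : Set I).Countable := by
    refine Set.PairwiseDisjoint.countable_of_isOpen
      (s := fun i => {s : unitInterval | t i < h i s ∧ h i s < 1}) ?_ ?_ ?_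
    · intro i _ j _ hij
      refine Set.disjoint_left.2 ?_
      rintro s ⟨hs1, hs2⟩ ⟨hs3, hs4⟩
      rcases hd i j hij with h' | h'
      · exact (ne_of_gt hs1) (h' s hs4)
      · exact (ne_of_gt hs3) (h' s hs2)
    · intro i _
      exact (isOpen_lt continuous_const (hc i)).inter (isOpen_lt (hc i) continuous_const)
    · intro i _
      have hti := ht i
      obtain ⟨s, hs⟩ := mem_range_of_exists_le_of_exists_ge (c := (1 + t i) / 2) (hc i)
        ⟨1, by rw [h1]; linarith⟩ ⟨0, by rw [h0]; linarith⟩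
      refine ⟨s, ?_, ?_⟩
      · rw [hs]; linarith
      · rw [hs]; linarith
  exact Set.countable_univ_iff.1 key

end Pool.DMX
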