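import Pool.Agent.Helper84.DM.XLetCa

/-!
DM-X7d (LetC: `sep_of_two`, `exists_two`): the letters separate the points (F4).

`T' x := Td r o x ∪ Ar o x`.  Let `y ≠ y'`.  Let `x` be `r`-minimal such that `Ar y y' ∩ T' x` has two distinct points
(exists: if `m` is the larger of `y, y'` with respect to `r` then `Ar y y' ⊆ Ar o y ∪ Ar o y' ⊆ T' m` (`ar_subset_union`)).
* `min_unique` (i): `Ar y y' ∩ Td r o x` has at most one point: let `a ≠ b` be in it. `hD a b`: `Sp m₁ a b`; `hD m₁ b`: `Sp m₂ m₁ b`;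
  `m₁ ≠ m₂`, both in `Ar a b ⊆ Ar y y'`.  Claim: `m = m₁` (or `m₂`), `Sp m a b` (for `m₂`: `Sp m₂ a b`: `m₂ ∈ Ar m₁ b ⊆ Ar a b`, `m₂ ≠ b`, `m₂ ≠ a`
  because `a ∉ Ar m₁ b` by `ar_end`...: if `m₂ = a` then `Sp a m₁ b` with `m₁, b ∈ Ar a b` contradicts `ar_end_left`).
  `mem_earlier`: if `Sp m a b`, `a, b ∈ Td r o x` then `m = o` or `∃ z, r z x ∧ m ∈ Ar o z`: (U,V) at `m`, `a ∈ U`, `b ∈ V`; if `o ∈ V` then `U` is a
  neighbourhood of `a` in the closure, so `U` meets `{o} ∪ ⋃ Ar o z`, so (as `o ∉ U`) it meets `Ar o z` for some `z` with `r z x` in `u`,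
  and `Sp m u o`, so `m ∈ Ar o u ⊆ Ar o z`; if `o ∈ U` the same with `V` and `b`; if `o = m` done.
  So both `m₁, m₂` are in `T' z` for one `z` with `r z x` (the larger one of the two; `o ∈ Td r o z` always; `m₁ ≠ m₂` so not both are `o`):
  contradicts the minimality of `x`.
* (ii) so there is `a ∈ Ar y y' ∩ Ar o x`, `a ∉ Td r o x`; hence `x ∉ Td r o x` (otherwise `Ar o x ⊆ Td r o x`), and another point `b ≠ a` in
  `Ar y y' ∩ T' x`.  `hD a b`: `Sp m₁ a b`, `hD a m₁`: `Sp m₂ a m₁`; `m₁, m₂ ∈ Ar a b ⊆ Ar y y' ∩ T' x` (`T' x` is preconnected), `a, m₁, m₂` distinct; so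
  one of `m₁, m₂` is not in `Td r o x`; call it `a'`.  So `a ≠ a'`, both in `Ar y y' ∩ Ar o x`, not in `Td r o x`.
* `sep_of_two` (iii): `LetF r o x φ c`, `a ≠ a'` in `Ar y y' ∩ Ar o x`, not in `Td r o x`. Then `hh φ c y ≠ hh φ c y'`.
  `φ a ≠ φ a'` (`AF.inj`), both `< c` (`LetF.arc`). Suppose `hh φ c y = hh φ c y' =: v`. Choose `t` strictly between `φ a` and `φ a'` with
  `t ≠ v * c`. `w ∈ Ar a a'` with `φ w = t` (`Ar a a'` preconnected); `Ar a a' ⊆ Ar y y'`. If `v = 1` then `φ y, φ y' ≥ c > t`: both are in the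
  preconnected set `{t < φ}` (`AF.precon_gt`), so `Ar y y' ⊆ {t < φ}` (`ar_subset`), contradiction with `φ w = t`. If `v < 1` then
  `φ y = φ y' = v c ≠ t` and the same with `{φ < t}` or `{t < φ}`.
-/

set_option autoImplicit false

namespace Pool.DMX

open Set Topology

variable {X : Type} [TopologicalSpace X]

theorem sep_of_two [CompactSpace X] [ConnectedSpace X] [T2Space X] (hD : Dn X)
    {r : X → X → Prop} {o x y y' a a' : X} {φ : X → ℝ} {c : ℝ} (h : LetF r o x φ c)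
    (ha : a ∈ Ar y y' ∩ Ar o x) (ha' : a' ∈ Ar y y' ∩ Ar o x) (hne : a ≠ a')
    (hT : a ∉ Td r o x) (hT' : a' ∉ Td r o x) : hh φ c y ≠ hh φ c y' := by
  intro he
  -- it is enough to treat `φ a < φ a'`
  have core : ∀ b b' : X, b ∈ Ar y y' ∩ Ar o x → b' ∈ Ar y y' ∩ Ar o x → φ b' < c →
      φ b < φ b' → False := by
    intro b b' hb hb' hbc hlt
    obtain ⟨t, ht1, ht2, ht3⟩ : ∃ t, φ b < t ∧ t < φ b' ∧ t ≠ hh φ c y * c := by
      by_cases h1 : (2 * φ b + φ b') / 3 = hh φ c y * c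
      · refine ⟨(φ b + 2 * φ b') / 3, by linarith, by linarith, ?_⟩
        rw [← h1]
        intro h2
        linarith
      · exact ⟨(2 * φ b + φ b') / 3, by linarith, by linarith, h1⟩
    have htc : t < c := ht2.trans hbc
    obtain ⟨w, hw, hwt⟩ := (ar_precon hD b b').intermediate_value (left_mem_ar b b')
      (right_mem_ar b b') h.af.cont.continuousOn (show t ∈ Icc (φ b) (φ b') from ⟨ht1.le, ht2.le⟩)
    have hwy : w ∈ Ar y y' := ar_subset_ar hD hb.1 hb'.1 hw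
    have hor : (φ y < t ∧ φ y' < t) ∨ (t < φ y ∧ t < φ y') := by
      by_cases h1 : φ y < c
      · have h2 : hh φ c y < 1 := (hh_lt_iff h.pos y).2 h1
        have h3 : φ y' < c := (hh_lt_iff h.pos y').1 (he ▸ h2)
        have h4 : hh φ c y = φ y / c := min_eq_right (by rw [div_le_one h.pos]; exact h1.le)
        have h5 : hh φ c y' = φ y' / c := min_eq_right (by rw [div_le_one h.pos]; exact h3.le)
        have h6 : φ y = hh φ c y * c := by rw [h4, div_mul_cancel₀ _ h.pos.ne']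
        have h7 : φ y' = hh φ c y * c := by rw [he, h5, div_mul_cancel₀ _ h.pos.ne']
        rcases lt_or_gt_of_ne ht3 with h8 | h8
        · exact Or.inr ⟨by rw [h6]; exact h8, by rw [h7]; exact h8⟩
        · exact Or.inl ⟨by rw [h6]; exact h8, by rw [h7]; exact h8⟩
      · have h3 : ¬ φ y' < c := by
          intro h4
          apply h1
          have h5 : hh φ c y' < 1 := (hh_lt_iff h.pos y').2 h4
          exact (hh_lt_iff h.pos y).1 (he ▸ h5)
        exact Or.inr ⟨htc.trans_le (not_lt.1 h1), htc.trans_le (not_lt.1 h3)⟩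
    rcases hor with ⟨h1, h2⟩ | ⟨h1, h2⟩
    · have h3 : φ w < t := ar_subset (h.af.precon_lt t) (p := y) (q := y') h1 h2 hwy
      rw [hwt] at h3
      exact lt_irrefl _ h3
    · have h3 : t < φ w := ar_subset (h.af.precon_gt t) (p := y) (q := y') h1 h2 hwy
      rw [hwt] at h3
      exact lt_irrefl _ h3
  have hac : φ a < c := by
    by_contra h1
    exact hT (h.arc a ha.2 (not_lt.1 h1))
  have hac' : φ a' < c := by
    by_contra h1
    exact hT' (h.arc a' ha'.2 (not_lt.1 h1))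
  have hφ : φ a ≠ φ a' := fun h1 => hne (h.af.inj a ha.2 a' ha'.2 h1)
  rcases lt_or_gt_of_ne hφ with h1 | h1
  · exact core a a' ha ha' hac' h1
  · exact core a' a ha' ha hac h1

theorem exists_two [CompactSpace X] [ConnectedSpace X] [T2Space X] (hD : Dn X)
    (r : X → X → Prop) [IsWellOrder X r] {o y y' : X} (hne : y ≠ y') :
    ∃ x, x ∉ Td r o x ∧ ∃ a a', a ≠ a' ∧ a ∈ Ar y y' ∩ Ar o x ∧ a' ∈ Ar y y' ∩ Ar o x ∧
      a ∉ Td r o x ∧ a' ∉ Td r o x := by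
  have hex : ∃ z, ∃ a b, a ≠ b ∧ a ∈ Ar y y' ∩ (Td r o z ∪ Ar o z) ∧
      b ∈ Ar y y' ∩ (Td r o z ∪ Ar o z) := by
    rcases trichotomous_of r y y' with h | h | h
    · exact ⟨y', y, y', hne, ⟨left_mem_ar y y', Or.inl (ar_subset_Td h (right_mem_ar o y))⟩,
        ⟨right_mem_ar y y', Or.inr (right_mem_ar o y')⟩⟩
    · exact (hne h).elim
    · exact ⟨y, y, y', hne, ⟨left_mem_ar y y', Or.inr (right_mem_ar o y)⟩,
        ⟨right_mem_ar y y', Or.inl (ar_subset_Td h (right_mem_ar o y'))⟩⟩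
  have hwf : WellFounded r := IsWellFounded.wf
  obtain ⟨x, ⟨a, b, hab, ha, hb⟩, hx⟩ := hwf.has_min
    {z | ∃ a b, a ≠ b ∧ a ∈ Ar y y' ∩ (Td r o z ∪ Ar o z) ∧
      b ∈ Ar y y' ∩ (Td r o z ∪ Ar o z)} hex
  have hmin : ∀ z, r z x → ∀ a ∈ Ar y y' ∩ (Td r o z ∪ Ar o z),
      ∀ b ∈ Ar y y' ∩ (Td r o z ∪ Ar o z), a = b := by
    intro z hz u hu v hv
    by_contra huv
    exact hx z ⟨u, v, huv, hu, hv⟩ hz
  have huniq : ∀ {u v : X}, u ∈ Ar y y' ∩ Td r o x → v ∈ Ar y y' ∩ Td r o x → u = v :=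
    fun hu hv => min_unique hD r hmin hu hv
  have core : ∀ a b : X, a ≠ b → a ∈ Ar y y' ∩ (Td r o x ∪ Ar o x) →
      b ∈ Ar y y' ∩ (Td r o x ∪ Ar o x) → a ∉ Td r o x →
      ∃ x, x ∉ Td r o x ∧ ∃ a a', a ≠ a' ∧ a ∈ Ar y y' ∩ Ar o x ∧ a' ∈ Ar y y' ∩ Ar o x ∧
        a ∉ Td r o x ∧ a' ∉ Td r o x := by
    intro a b hab ha hb haT
    have hpre : IsPreconnected (Td r o x ∪ Ar o x) :=
      IsPreconnected.union o (root_mem_Td r o x) (left_mem_ar o x) (Td_precon hD r o x)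
        (ar_precon hD o x)
    have hxT : x ∉ Td r o x := by
      intro h1
      have h2 : Ar o x ⊆ Td r o x := ar_subset (Td_precon hD r o x) (root_mem_Td r o x) h1
      rcases ha.2 with h3 | h3
      · exact haT h3
      · exact haT (h2 h3)
    have hs1 : Ar a b ⊆ Ar y y' := ar_subset_ar hD ha.1 hb.1
    have hs2 : Ar a b ⊆ Td r o x ∪ Ar o x := ar_subset hpre ha.2 hb.2
    obtain ⟨m₁, hm₁⟩ := hD a b hab
    obtain ⟨m₂, hm₂⟩ := hD a m₁ hm₁.ne_left.symm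
    have h1 : m₁ ∈ Ar a b := hm₁.mem_ar
    have h2 : m₂ ∈ Ar a b := ar_subset_ar hD (left_mem_ar a b) h1 hm₂.mem_ar
    have haA : a ∈ Ar o x := ha.2.resolve_left haT
    by_cases h3 : m₁ ∈ Td r o x
    · have h4 : m₂ ∉ Td r o x := fun h5 => hm₂.ne_right (huniq ⟨hs1 h2, h5⟩ ⟨hs1 h1, h3⟩)
      exact ⟨x, hxT, a, m₂, hm₂.ne_left.symm, ⟨ha.1, haA⟩,
        ⟨hs1 h2, (hs2 h2).resolve_left h4⟩, haT, h4⟩
    · exact ⟨x, hxT, a, m₁, hm₁.ne_left.symm, ⟨ha.1, haA⟩,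
        ⟨hs1 h1, (hs2 h1).resolve_left h3⟩, haT, h3⟩
  by_cases haT : a ∈ Td r o x
  · have hbT : b ∉ Td r o x := fun h1 => hab (huniq ⟨ha.1, haT⟩ ⟨hb.1, h1⟩)
    exact core b a hab.symm hb ha hbT
  · exact core a b hab ha hb haT

end Pool.DMX
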