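import Pool.Agent.Helper84.DM.XLetB

/-!
DM-X7c (LetCa: `mem_earlier`, `min_unique`): the letters separate the points (F4).

`T' x := Td r o x ∪ Ar o x`.  Let `y ≠ y'`.  Let `x` be `r`-minimal such that `Ar y y' ∩ T' x` has two distinct points
(exists: if `m` is the larger of `y, y'` with respect to `r` then `Ar y y' ⊆ Ar o y ∪ Ar o y' ⊆ T' m` (`ar_subset_union`)).
* `min_unique` (i): `Ar y y' ∩ Td r o x` has at most one point: let `a ≠ b` be in it. `hD a b`: `Sp m₁ a b`; `hD m₁ b`: `Sp m₂ m₁ b`;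
  `m₁ ≠ m₂`, both in `Ar a b ⊆ Ar y y'`.  Claim: `m = m₁` (or `m₂`), `Sp m a b` (for `m₂`: `Sp m₂ a b`: `m₂ ∈ Ar m₁ b ⊆ Ar a b`, `m₂ ≠ b`, `m₂ ≠ a`
  because `a ∉ Ar m₁ b` by `ar_end`...: if `m₂ = a` then `Sp a m₁ b` with `m₁, b ∈ Ar a b` contradicts `ar_end_left`).
  `mem_earlier`: if `Sp m a b`, `a, b ∈ Td r o x` then `m = o` or `∃ z, r z x ∧ m ∈ Ar o z`: (U,V) at `m`, `a ∈ U`, `b ∈ V`; if `o ∈ V` then `U` is a
  neighbourhood of `a` in the closure, so `U` meets `{o} ∪ ⋃ Ar o z`, so (as `o ∉ U`) it meets `Ar o z` for some `z` with `r z x` in `u`,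
  and `Sp m u o`, so `m ∈ Ar o u ⊆ Ar o z`; if `o ∈ U` the same with `V` and `b`; if `o = m` done.
  So both `m₁, m₂` are in `T' z` for one `z` with `r z x` (the larger one of the two; `o ∈ Td r o z` always; `m₁ ≠ m₂` so not both are `o`):
  contradicts the minimality of `x`.
* (ii) so there is `a ∈ Ar y y' ∩ Ar o x`, `a ∉ Td r o x`; hence `x ∉ Td r o x` (otherwise `Ar o x ⊆ Td r o x`), and another point `b ≠ a` in
  `Ar y y' ∩ T' x`.  `hD a b`: `Sp m₁ a b`, `hD a m₁`: `Sp m₂ a m₁`; `m₁, m₂ ∈ Ar a b ⊆ Ar y y' ∩ T' x` (`T' x` is preconnected), `a, m₁, m₂` distinct; so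
  one of `m₁, m₂` is not in `Td r o x`; call it `a'`.  So `a ≠ a'`, both in `Ar y y' ∩ Ar o x`, not in `Td r o x`.
* `sep_of_two` (iii): `LetF r o x φ c`, `a ≠ a'` in `Ar y y' ∩ Ar o x`, not in `Td r o x`. Then `hh φ c y ≠ hh φ c y'`.
  `φ a ≠ φ a'` (`AF.inj`), both `< c` (`LetF.arc`). Suppose `hh φ c y = hh φ c y' =: v`. Choose `t` strictly between `φ a` and `φ a'` with
  `t ≠ v * c`. `w ∈ Ar a a'` with `φ w = t` (`Ar a a'` preconnected); `Ar a a' ⊆ Ar y y'`. If `v = 1` then `φ y, φ y' ≥ c > t`: both are in the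
  preconnected set `{t < φ}` (`AF.precon_gt`), so `Ar y y' ⊆ {t < φ}` (`ar_subset`), contradiction with `φ w = t`. If `v < 1` then
  `φ y = φ y' = v c ≠ t` and the same with `{φ < t}` or `{t < φ}`.
-/

set_option autoImplicit false

namespace Pool.DMX

open Set Topology

variable {X : Type} [TopologicalSpace X]

theorem mem_earlier_aux [CompactSpace X] [ConnectedSpace X] [T2Space X] (hD : Dn X)
    {r : X → X → Prop} {o x a m : X} {U V : Set X} (h : SepAt m U V) (hoV : o ∈ V) (haU : a ∈ U)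
    (ha : a ∈ Td r o x) : ∃ z, r z x ∧ m ∈ Ar o z := by
  obtain ⟨u, huU, hu⟩ := mem_closure_iff.1 ha U h.1 haU
  rcases hu with hu | hu
  · rw [mem_singleton_iff] at hu
    exact (h.not_both huU (hu ▸ hoV)).elim
  · rw [mem_iUnion₂] at hu
    obtain ⟨z, hz, huz⟩ := hu
    have hsp : Sp m o u := ⟨V, U, h.symm, hoV, huU⟩
    exact ⟨z, hz, ar_subset_ar hD (left_mem_ar o z) huz hsp.mem_ar⟩

theorem mem_earlier [CompactSpace X] [ConnectedSpace X] [T2Space X] (hD : Dn X)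
    {r : X → X → Prop} {o x a b m : X} (hm : Sp m a b) (ha : a ∈ Td r o x) (hb : b ∈ Td r o x) :
    m = o ∨ ∃ z, r z x ∧ m ∈ Ar o z := by
  obtain ⟨U, V, h1, h2, h3⟩ := hm
  by_cases hmo : o = m
  · exact Or.inl hmo.symm
  · right
    rcases h1.mem_or hmo with h4 | h4
    · exact mem_earlier_aux hD h1.symm h4 h3 hb
    · exact mem_earlier_aux hD h1 h4 h2 ha

theorem min_unique [CompactSpace X] [ConnectedSpace X] [T2Space X] (hD : Dn X)
    (r : X → X → Prop) [IsWellOrder X r] {o x y y' : X}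
    (hmin : ∀ z, r z x → ∀ a ∈ Ar y y' ∩ (Td r o z ∪ Ar o z),
      ∀ b ∈ Ar y y' ∩ (Td r o z ∪ Ar o z), a = b)
    {a b : X} (ha : a ∈ Ar y y' ∩ Td r o x) (hb : b ∈ Ar y y' ∩ Td r o x) : a = b := by
  by_contra hab
  obtain ⟨m₁, hm₁⟩ := hD a b hab
  obtain ⟨m₂, hm₂⟩ := hD m₁ b hm₁.ne_right
  have h1 : m₁ ∈ Ar a b := hm₁.mem_ar
  have h2 : m₂ ∈ Ar a b := ar_subset_ar hD h1 (right_mem_ar a b) hm₂.mem_ar
  have h2a : m₂ ≠ a := by
    intro e
    rw [e] at hm₂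
    exact ar_end_left hD h1 (right_mem_ar a b) hm₂
  have hs2 : Sp m₂ a b := sp_of_mem_ar h2 h2a hm₂.ne_right
  have hy : Ar a b ⊆ Ar y y' := ar_subset_ar hD ha.1 hb.1
  have hne : m₁ ≠ m₂ := hm₂.ne_left.symm
  have key : ∃ z, r z x ∧ m₁ ∈ Td r o z ∪ Ar o z ∧ m₂ ∈ Td r o z ∪ Ar o z := by
    rcases mem_earlier hD hm₁ ha.2 hb.2 with e1 | ⟨z₁, hz₁, e1⟩
    · rcases mem_earlier hD hs2 ha.2 hb.2 with e2 | ⟨z₂, hz₂, e2⟩
      · exact (hne (e1.trans e2.symm)).elim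
      · exact ⟨z₂, hz₂, Or.inr (e1 ▸ left_mem_ar o z₂), Or.inr e2⟩
    · rcases mem_earlier hD hs2 ha.2 hb.2 with e2 | ⟨z₂, hz₂, e2⟩
      · exact ⟨z₁, hz₁, Or.inr e1, Or.inr (e2 ▸ left_mem_ar o z₁)⟩
      · rcases trichotomous_of r z₁ z₂ with h | h | h
        · exact ⟨z₂, hz₂, Or.inl (ar_subset_Td h e1), Or.inr e2⟩
        · subst h
          exact ⟨z₁, hz₁, Or.inr e1, Or.inr e2⟩
        · exact ⟨z₁, hz₁, Or.inr e1, Or.inl (ar_subset_Td h e2)⟩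
  obtain ⟨z, hz, k1, k2⟩ := key
  exact hne (hmin z hz m₁ ⟨hy h1, k1⟩ m₂ ⟨hy h2, k2⟩)

end Pool.DMX
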