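import Pool.Agent.Helper84.DM.XArc

/-!
DM-X4a (Ord): the cut points `{d | Sp d o x}` between `o` and `x`, ordered by `d < d'` iff `d ∈ Cs o d'`
(closer to `x` is smaller): a linear order, dense, without end points.

Proofs (all from `XArc`):
* `cut_tri`: if `d ≠ d'`, `d ∉ Cs o d'`, `d' ∉ Cs o d` then `d ∈ As o d'`, `x ∈ Cs o d'` and `Cs o d ∪ {d}` is preconnected
  (`(sepAt_side hD o d).symm.precon`), contains `d` and `x`, misses `d'`: contradiction with `subset_left` at `d'`.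
* `cut_between`: general: `a, b ∈ Ar o x`, `a ≠ b`: `hD a b` gives `z`, `Sp z a b`, `z ∈ Ar a b ⊆ Ar o x`, `z ≠ o` and `z ≠ x`
  by `ar_end_left/right` (`Sp o a b` is impossible), so `Sp z o x`.
* `cut_dense`: `z` from `cut_between` for `d, d'`. `side_of_sp` for the cut point `z` and `w = d`, `w' = d'`: `d ∈ Cs o z`, `d' ∈ As o z`
  (the other case `d' ∈ Cs o z`, `d ∈ As o z` contradicts: `d ∈ Cs o d' ⊆ Cs o z` by `Cs_subset`). And `z ∈ Cs o d'`:
  `cut_tri z d'`: `z = d'` is impossible, `d' ∈ Cs o z` is impossible as `d' ∈ As o z`.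
* `cut_nomin`: `cut_between` for `d, x`: `z` with `Sp z d x`; `side_of_sp` at `z`: `x ∈ Cs o z` so `d ∈ As o z`, so `d ∉ Cs o z`, `z ≠ d`:
  `z ∈ Cs o d` by `cut_tri`.
* `cut_nomax`: the same with `d, o`.
-/

set_option autoImplicit false

namespace Pool.DMX

open Set Topology

variable {X : Type} [TopologicalSpace X]

variable [CompactSpace X] [ConnectedSpace X] [T2Space X]

theorem cut_tri (hD : Dn X) {o x d d' : X} (hd : Sp d o x) (hd' : Sp d' o x) :
    d ∈ Cs o d' ∨ d = d' ∨ d' ∈ Cs o d := by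
  by_contra hcon
  have h1 : d ∉ Cs o d' := fun h => hcon (Or.inl h)
  have h2 : d ≠ d' := fun h => hcon (Or.inr (Or.inl h))
  have h3 : d' ∉ Cs o d := fun h => hcon (Or.inr (Or.inr h))
  have hs' := sepAt_side hD o d'
  have h4 : d ∈ As o d' := (hs'.mem_or h2).resolve_right h1
  have h5 : d' ∉ Cs o d ∪ {d} := by
    rintro (h | h)
    · exact h3 h
    · exact h2 (mem_singleton_iff.1 h).symm
  have h6 := hs'.subset_left (sepAt_side hD o d).symm.precon h5 (Or.inr rfl) h4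
  exact hs'.not_both (h6 (Or.inl hd)) hd'

theorem cut_irr {o d : X} : d ∉ Cs o d := fun h => h.ne_right rfl

theorem cut_trans (hD : Dn X) {o d d' d'' : X} (h : d ∈ Cs o d') (h' : d' ∈ Cs o d'') :
    d ∈ Cs o d'' :=
  Cs_subset hD h' (Or.inl h)

theorem cut_between (hD : Dn X) {o x a b : X} (ha : a ∈ Ar o x) (hb : b ∈ Ar o x)
    (hab : a ≠ b) : ∃ z, Sp z a b ∧ Sp z o x ∧ z ∈ Ar a b := by
  obtain ⟨z, hz⟩ := hD a b hab
  have h1 : z ∈ Ar o x := ar_subset_ar hD ha hb hz.mem_ar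
  refine ⟨z, hz, sp_of_mem_ar h1 ?_ ?_, hz.mem_ar⟩
  · rintro rfl
    exact ar_end_left hD ha hb hz
  · rintro rfl
    exact ar_end_right hD ha hb hz

theorem cut_dense (hD : Dn X) {o x d d' : X} (hd : Sp d o x) (hd' : Sp d' o x)
    (h : d ∈ Cs o d') : ∃ e, Sp e o x ∧ d ∈ Cs o e ∧ e ∈ Cs o d' := by
  obtain ⟨z, hz1, hz2, _⟩ := cut_between hD hd.mem_ar hd'.mem_ar (Sp.ne_right h).symm
  have hs := sepAt_side hD o z
  rcases side_of_sp hD hz2 hd.mem_ar hd'.mem_ar hz1 with ⟨h1, h2⟩ | ⟨h1, h2⟩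
  · refine ⟨z, hz2, h1, ?_⟩
    rcases cut_tri hD hz2 hd' with h3 | h3 | h3
    · exact h3
    · exact (hz1.ne_right h3).elim
    · exact (hs.not_both h2 h3).elim
  · exact (hs.not_both h1 (Cs_subset hD h2 (Or.inl h))).elim

theorem cut_nomin (hD : Dn X) {o x d : X} (hd : Sp d o x) : ∃ e, Sp e o x ∧ e ∈ Cs o d := by
  obtain ⟨z, hz1, hz2, _⟩ := cut_between hD hd.mem_ar (right_mem_ar o x) hd.ne_right
  have hs := sepAt_side hD o z
  rcases side_of_sp hD hz2 hd.mem_ar (right_mem_ar o x) hz1 with ⟨_, h2⟩ | ⟨h1, _⟩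
  · exact (hs.not_both h2 hz2).elim
  · refine ⟨z, hz2, ?_⟩
    rcases cut_tri hD hz2 hd with h3 | h3 | h3
    · exact h3
    · exact (hz1.ne_left h3).elim
    · exact (hs.not_both h1 h3).elim

theorem cut_nomax (hD : Dn X) {o x d : X} (hd : Sp d o x) : ∃ e, Sp e o x ∧ d ∈ Cs o e := by
  obtain ⟨z, hz1, hz2, _⟩ := cut_between hD hd.mem_ar (left_mem_ar o x) hd.ne_left
  have hs := sepAt_side hD o z
  rcases side_of_sp hD hz2 hd.mem_ar (left_mem_ar o x) hz1 with ⟨h1, _⟩ | ⟨_, h2⟩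
  · exact ⟨z, hz2, h1⟩
  · exact (h2.ne rfl).elim

end Pool.DMX
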