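import Pool.Agent.Helper84.DM.XPhiA

/-!
DM-X5b (Phi: `phi_inj`): the Urysohn type function of the cut points `d q`.

`V q := Cs o (d q)` (open); for `0 < q < q' < 1`: `V q ∪ {d q} ⊆ V q'` (`Cs_subset`), and `(V q ∪ {d q})ᶜ = As o (d q)` is open.
`φ y := sInf ({t : ℝ | ∃ q : ℚ, 0 < q ∧ q < 1 ∧ (q : ℝ) = t ∧ y ∈ V q} ∪ {1})`.
`φ y < t` (`t ≤ 1`) iff `y ∈ V q` for some rational `q < t` in `(0,1)`; for `0 ≤ t < 1`: `φ y > t` iff `y ∈ As o (d q)` for
some rational `q > t` in `(0,1)`: (→) take rationals `t < q < q' < φ y` (and `q' < 1`): `y ∉ V q'`, so `y ∉ V q ∪ {d q}`.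
(←) `y ∉ V q'` for all `q' ≤ q`, so `φ y ≥ q > t`.
Continuity: `continuous_iff_...` with the subbasis (`OrderTopology`: `continuous_of_Iio_Ioi` or
`continuous_generateFrom_iff`); for `t > 1` and `t < 0` the sets are everything / everything.

`phi_inj`: `w, w' ∈ Ar o x`, `w ≠ w'`, then `φ w ≠ φ w'`: `cut_between` gives `z₁` with `Sp z₁ w w'`, `Sp z₁ o x`. By `side_of_sp` one of
`w, w'` is in `Cs o z₁` and the other in `As o z₁`, say (symmetry) `w ∈ Cs o z₁`, `w' ∈ As o z₁`. `cut_between` for `w, z₁`: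
`z₂` with `Sp z₂ w z₁`, `Sp z₂ o x`, `z₂ ∈ Ar w z₁ ⊆ Cs o z₁ ∪ {z₁}`, `z₂ ≠ z₁`, so `z₂ ∈ Cs o z₁`, so `z₁ ∈ As o z₂`, so `w ∈ Cs o z₂`
(`side_of_sp`).  `Enum.dense` twice: `z₂ < d q < d q' < z₁` (first `d q`, then `d q'` between `d q` and `z₁`), with
`q < q'` (by `mono` and `cut_irr`/`cut_trans`: `q' ≤ q` is impossible). `w ∈ Cs o z₂ ⊆ V q`: `φ w ≤ q`. `w' ∈ As o z₁ ⊆ As o (d q')`
(`As_subset`), so `w' ∉ V q'`: `φ w' ≥ q' > q`.
-/

set_option autoImplicit false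

namespace Pool.DMX

open Set Topology

variable {X : Type} [TopologicalSpace X]

variable [CompactSpace X] [ConnectedSpace X] [T2Space X]

private theorem phi_lt (hD : Dn X) {o x : X} {d : ℚ → X} (hd : Enum o x d) {φ : X → ℝ}
    (hφ : Phi o d φ) {w w' z : X} (hw : w ∈ Ar o x) (hz : Sp z o x)
    (h1 : w ∈ Cs o z) (h2 : w' ∈ As o z) : φ w < φ w' := by
  have hs := sepAt_side hD o z
  have hwz : w ≠ z := fun h => hs.not_mem_right (h ▸ h1)
  obtain ⟨y, hy1, hy2, hy3⟩ := cut_between hD hw hz.mem_ar hwz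
  have hyC : y ∈ Cs o z := by
    rcases ar_subset hs.symm.precon (Or.inl h1) (Or.inr rfl) hy3 with h | h
    · exact h
    · exact (hy1.ne_right h).elim
  have hzA : z ∈ As o y := mem_As_of_mem_Cs hD hyC
  have hwC : w ∈ Cs o y := by
    rcases side_of_sp hD hy2 hw hz.mem_ar hy1 with h | h
    · exact h.1
    · exact (hzA.2 h.2).elim
  obtain ⟨q, hq0, hq1, hyq, hqz⟩ := hd.dense y z hy2 hz hyC
  obtain ⟨q', hq0', hq1', hqq, hqz'⟩ := hd.dense (d q) z (hd.cut q hq0 hq1) hz hqz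
  have hlt : q < q' := by
    by_contra hn
    rcases (not_lt.1 hn).lt_or_eq with h | h
    · exact cut_irr (cut_trans hD hqq (hd.mono q' q hq0' h hq1))
    · rw [h] at hqq
      exact cut_irr hqq
  have hle : φ w ≤ q := hφ.le w q hq0 hq1 (Cs_subset hD hyq (Or.inl hwC))
  have hge : (q' : ℝ) ≤ φ w' := by
    refine hφ.ge w' q' hq0' hq1' ?_
    intro h
    exact (As_subset hD hqz' (Or.inl h2)).2 h
  have hlt' : (q : ℝ) < q' := by exact_mod_cast hlt
  linarith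

theorem phi_inj (hD : Dn X) {o x : X} {d : ℚ → X} (hd : Enum o x d) {φ : X → ℝ}
    (hφ : Phi o d φ) {w w' : X} (hw : w ∈ Ar o x) (hw' : w' ∈ Ar o x) (h : φ w = φ w') :
    w = w' := by
  by_contra hne
  obtain ⟨z, hz1, hz2, _⟩ := cut_between hD hw hw' hne
  rcases side_of_sp hD hz2 hw hw' hz1 with h1 | h1
  · exact absurd h (phi_lt hD hd hφ hw hz2 h1.1 h1.2).ne
  · exact absurd h (phi_lt hD hd hφ hw' hz2 h1.2 h1.1).ne'

end Pool.DMX
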