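import Pool.Agent.Helper84.DM.XCount

/-!
DM-X5a (PhiA: `exists_phi`): the Urysohn type function of the cut points `d q`.

`V q := Cs o (d q)` (open); for `0 < q < q' < 1`: `V q ∪ {d q} ⊆ V q'` (`Cs_subset`), and `(V q ∪ {d q})ᶜ = As o (d q)` is open.
`φ y := sInf ({t : ℝ | ∃ q : ℚ, 0 < q ∧ q < 1 ∧ (q : ℝ) = t ∧ y ∈ V q} ∪ {1})`.
`φ y < t` (`t ≤ 1`) iff `y ∈ V q` for some rational `q < t` in `(0,1)`; for `0 ≤ t < 1`: `φ y > t` iff `y ∈ As o (d q)` for
some rational `q > t` in `(0,1)`: (→) take rationals `t < q < q' < φ y` (and `q' < 1`): `y ∉ V q'`, so `y ∉ V q ∪ {d q}`.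
(←) `y ∉ V q'` for all `q' ≤ q`, so `φ y ≥ q > t`.
Continuity: `continuous_iff_...` with the subbasis (`OrderTopology`: `continuous_of_Iio_Ioi` or
`continuous_generateFrom_iff`); for `t > 1` and `t < 0` the sets are everything / everything.

`phi_inj`: `w, w' ∈ Ar o x`, `w ≠ w'`, then `φ w ≠ φ w'`: `cut_between` gives `z₁` with `Sp z₁ w w'`, `Sp z₁ o x`. By `side_of_sp` one of
`w, w'` is in `Cs o z₁` and the other in `As o z₁`, say (symmetry) `w ∈ Cs o z₁`, `w' ∈ As o z₁`. `cut_between` for `w, z₁`: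
`z₂` with `Sp z₂ w z₁`, `Sp z₂ o x`, `z₂ ∈ Ar w z₁ ⊆ Cs o z₁ ∪ {z₁}`, `z₂ ≠ z₁`, so `z₂ ∈ Cs o z₁`, so `z₁ ∈ As o z₂`, so `w ∈ Cs o z₂`
(`side_of_sp`).  `Enum.dense` twice: `z₂ < d q < d q' < z₁` (first `d q`, then `d q'` between `d q` and `z₁`), with
`q < q'` (by `mono` and `cut_irr`/`cut_trans`: `q' ≤ q` is impossible). `w ∈ Cs o z₂ ⊆ V q`: `φ w ≤ q`. `w' ∈ As o z₁ ⊆ As o (d q')`
(`As_subset`), so `w' ∉ V q'`: `φ w' ≥ q' > q`.
-/

set_option autoImplicit false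

namespace Pool.DMX

open Set Topology

variable {X : Type} [TopologicalSpace X]

variable [CompactSpace X] [ConnectedSpace X] [T2Space X]

structure Phi (o : X) (d : ℚ → X) (φ : X → ℝ) : Prop where
  cont : Continuous φ
  mem : ∀ y, 0 ≤ φ y ∧ φ y ≤ 1
  le : ∀ y q, 0 < q → q < 1 → y ∈ Cs o (d q) → φ y ≤ q
  ge : ∀ y q, 0 < q → q < 1 → y ∉ Cs o (d q) → q ≤ φ y

theorem exists_phi (hD : Dn X) {o x : X} {d : ℚ → X} (hd : Enum o x d) :
    ∃ φ : X → ℝ, Phi o d φ := by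
  have hV : ∀ q q' : ℚ, 0 < q → q < q' → q' < 1 → Cs o (d q) ∪ {d q} ⊆ Cs o (d q') :=
    fun q q' h0 h1 h2 => Cs_subset hD (hd.mono q q' h0 h1 h2)
  let S : X → Set ℝ := fun y =>
    {t : ℝ | ∃ q : ℚ, 0 < q ∧ q < 1 ∧ (q : ℝ) = t ∧ y ∈ Cs o (d q)} ∪ {1}
  have hne : ∀ y, (S y).Nonempty := fun y => ⟨1, Or.inr rfl⟩
  have hpos : ∀ y, ∀ t ∈ S y, (0 : ℝ) ≤ t := by
    rintro y t (⟨q, h0, -, h1, -⟩ | h)
    · rw [← h1]
      exact_mod_cast h0.le
    · rw [mem_singleton_iff] at h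
      rw [h]
      exact zero_le_one
  have hbdd : ∀ y, BddBelow (S y) := fun y => ⟨0, fun t ht => hpos y t ht⟩
  have hmem : ∀ y, 0 ≤ sInf (S y) ∧ sInf (S y) ≤ 1 := fun y =>
    ⟨le_csInf (hne y) (hpos y), csInf_le (hbdd y) (Or.inr rfl)⟩
  have hle : ∀ y (q : ℚ), 0 < q → q < 1 → y ∈ Cs o (d q) → sInf (S y) ≤ q :=
    fun y q h0 h1 hy => csInf_le (hbdd y) (Or.inl ⟨q, h0, h1, rfl, hy⟩)
  have hge : ∀ y (q : ℚ), 0 < q → q < 1 → y ∉ Cs o (d q) → (q : ℝ) ≤ sInf (S y) := by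
    intro y q h0 h1 hy
    refine le_csInf (hne y) ?_
    rintro t (⟨q', h2, h3, h4, h5⟩ | h)
    · rw [← h4]
      by_contra hlt
      have hlt' : q' < q := by
        have : (q' : ℝ) < (q : ℝ) := not_le.1 hlt
        exact_mod_cast this
      exact hy (hV q' q h2 hlt' h1 (Or.inl h5))
    · rw [mem_singleton_iff] at h
      rw [h]
      exact_mod_cast h1.le
  refine ⟨fun y => sInf (S y), ?_, hmem, hle, hge⟩
  rw [OrderTopology.continuous_iff]
  intro a
  constructor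
  · rw [isOpen_iff_mem_nhds]
    intro y hy
    have hy' : a < sInf (S y) := hy
    by_cases ha : a < 0
    · exact Filter.mem_of_superset Filter.univ_mem fun z _ => lt_of_lt_of_le ha (hmem z).1
    · have ha0 : (0 : ℝ) ≤ a := not_lt.1 ha
      obtain ⟨q', hq1, hq2⟩ := exists_rat_btwn hy'
      obtain ⟨q, hq3, hq4⟩ := exists_rat_btwn hq1
      have h0 : (0 : ℚ) < q := by
        have : (0 : ℝ) < (q : ℝ) := lt_of_le_of_lt ha0 hq3
        exact_mod_cast this
      have hqq : q < q' := by exact_mod_cast hq4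
      have h1 : q' < 1 := by
        have : (q' : ℝ) < 1 := lt_of_lt_of_le hq2 (hmem y).2
        exact_mod_cast this
      have hy1 : y ∉ Cs o (d q') := fun h =>
        absurd (hle y q' (h0.trans hqq) h1 h) (not_le.2 hq2)
      have hy2 : y ∉ Cs o (d q) ∪ {d q} := fun h => hy1 (hV q q' h0 hqq h1 h)
      have hs := sepAt_side hD o (d q)
      have hy3 : y ∈ As o (d q) := by
        have hne' : y ≠ d q := fun e => hy2 (Or.inr e)
        rcases hs.mem_or hne' with h | h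
        · exact h
        · exact (hy2 (Or.inl h)).elim
      refine Filter.mem_of_superset ((isOpen_As hD o (d q)).mem_nhds hy3) ?_
      intro z hz
      have hz1 : z ∉ Cs o (d q) := fun h => hs.not_both hz h
      have hz2 := hge z q h0 (hqq.trans h1) hz1
      exact lt_of_lt_of_le hq3 hz2
  · rw [isOpen_iff_mem_nhds]
    intro y hy
    have hy' : sInf (S y) < a := hy
    by_cases ha : 1 < a
    · exact Filter.mem_of_superset Filter.univ_mem fun z _ => lt_of_le_of_lt (hmem z).2 ha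
    · have ha1 : a ≤ (1 : ℝ) := not_lt.1 ha
      obtain ⟨q, hq1, hq2⟩ := exists_rat_btwn hy'
      have h0 : (0 : ℚ) < q := by
        have : (0 : ℝ) < (q : ℝ) := lt_of_le_of_lt (hmem y).1 hq1
        exact_mod_cast this
      have h1 : q < 1 := by
        have : (q : ℝ) < 1 := lt_of_lt_of_le hq2 ha1
        exact_mod_cast this
      have hy1 : y ∈ Cs o (d q) := by
        by_contra h
        exact absurd (hge y q h0 h1 h) (not_le.2 hq1)
      refine Filter.mem_of_superset ((isOpen_Cs o (d q)).mem_nhds hy1) ?_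
      intro z hz
      exact lt_of_le_of_lt (hle z q h0 h1 hz) hq2

end Pool.DMX
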