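import Pool.Agent.Helper84.DM.Fin
import Pool.Agent.Helper84.DM.LimT

/-!
# DM-YBasic: the space `Y J`

`isClosed_Y`: intersection of the closed sets `{y | tr A y ∈ K}`, `IsC A K`.

`Yc_eq`: `IsC A K`. `Yc A ⊆ K` by definition. Let `y ∈ K`. For `IsC B L` the sets `{z | tr B z ∈ L ∧ tr A z = y}` are closed and form a
directed family: for `B₁, B₂` take `B = A ∪ B₁ ∪ B₂` (`IsC.exists`, `Clo.union`, `IsC.finite`, `IsC.clo`) with
`tr B_i '' L = L_i` (`IsC.mono`, `tr_tr`). They are nonempty: for `B` take `B' = A ∪ B`, `L'`, a point `z ∈ L'` with `tr A z = y` (`IsC.mono`;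
`z` is flat over `B'`, `tr B' z = z`, `tr B z ∈ L`). By compactness there is a point `z` in all of them: `z ∈ Y J`, `tr A z = y`.

`isConnected_Y`: nonempty by `Yc_eq` for `A = ∅`. If `Y J` is the union of two disjoint nonempty closed sets `P`, `Q`
(`isPreconnected_closed_iff` / `isPreconnected_iff_subset_of_disjoint_closed`, take the intersections with `Y J`), `tr_sep` gives a finite
`S`; take a finite closed `A ⊇ S` (`exists_clo`), `IsC A K`: `K = tr A '' P ∪ tr A '' Q` with disjoint compact nonempty parts, but `K` is connected.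

`nt_iff_act`: `val_tr`. `Adm_Yc`, `Yc_full`: `IsC.full`. `Yc_inact`: adjoin the elements one by one in `IsC` (`IsC.cons`,
`step` does nothing because `Nt (Yc A) e ↔ Act e`), the set `A ∪ O'` is closed for every `O' ⊆ O`.

`Y_rel`: take `B` from `exists_clo_below e`, `K` with `IsC B K`; `e ∉ B`; `IsC (insert e B) (step K e)`, `Nt K e`, so
`tr (insert e B) y ∈ Fl {e} K ⊆ FO {e} K` (`fl_sub_FO`), and `val_tr`, `tr_mem`. `Y_zero`: `step K e = K` is flat over `B`.
-/

open Set Topology TopologicalSpace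

namespace Pool.DM

variable {J : Type}

theorem isClosed_Y : IsClosed (Y J) := by
  have h1 : Y J = ⋂ (A : Set (Ex J)) (K : Set (U J)) (_ : IsC A K), tr A ⁻¹' K := by
    ext y
    simp only [mem_iInter, mem_preimage]
    rfl
  rw [h1]
  exact isClosed_iInter fun A => isClosed_iInter fun K => isClosed_iInter fun h =>
    h.cpt.closed.preimage (continuous_tr A)

theorem Yc_eq {A : Set (Ex J)} {K : Set (U J)} (h : IsC A K) : Yc A = K := by
  apply Set.Subset.antisymm
  · rintro _ ⟨y, hy, rfl⟩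
    exact hy A K h
  · intro y hy
    let ι : Type := {B : Set (Ex J) // B.Finite ∧ Clo B}
    choose L hL using fun B : ι => IsC.exists B.2.1 B.2.2
    let C : ι → Set (U J) := fun B => {z | tr B.1 z ∈ L B ∧ tr A z = y}
    have hcl : ∀ B, IsClosed (C B) := fun B =>
      ((hL B).cpt.closed.preimage (continuous_tr B.1)).inter
        (isClosed_singleton.preimage (continuous_tr A) (t := {y}))
    have hne : ∀ B, (C B).Nonempty := by
      intro B
      let B' : ι := ⟨A ∪ B.1, h.finite.union B.2.1, Clo.union h.clo B.2.2⟩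
      rw [← IsC.mono Set.subset_union_left h (hL B')] at hy
      obtain ⟨z, hz, rfl⟩ := hy
      refine ⟨z, ?_, rfl⟩
      rw [← IsC.mono Set.subset_union_right (hL B) (hL B')]
      exact mem_image_of_mem _ hz
    have hdir : Directed (· ⊇ ·) C := by
      intro B₁ B₂
      let B' : ι := ⟨B₁.1 ∪ B₂.1, B₁.2.1.union B₂.2.1, Clo.union B₁.2.2 B₂.2.2⟩
      refine ⟨B', ?_, ?_⟩
      · rintro z ⟨hz, hz'⟩
        refine ⟨?_, hz'⟩
        rw [← IsC.mono Set.subset_union_left (hL B₁) (hL B'),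
          ← tr_tr (Set.subset_union_left : B₁.1 ⊆ B'.1) z]
        exact mem_image_of_mem _ hz
      · rintro z ⟨hz, hz'⟩
        refine ⟨?_, hz'⟩
        rw [← IsC.mono Set.subset_union_right (hL B₂) (hL B'),
          ← tr_tr (Set.subset_union_right : B₂.1 ⊆ B'.1) z]
        exact mem_image_of_mem _ hz
    have : Nonempty ι := ⟨⟨A, h.finite, h.clo⟩⟩
    obtain ⟨z, hz⟩ := IsCompact.nonempty_iInter_of_directed_nonempty_isCompact_isClosed C hdir hne
      (fun B => (hcl B).isCompact) hcl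
    rw [mem_iInter] at hz
    refine ⟨z, ?_, (hz ⟨A, h.finite, h.clo⟩).2⟩
    intro B M hM
    have h1 := (hz ⟨B, hM.finite, hM.clo⟩).1
    rw [(hL ⟨B, hM.finite, hM.clo⟩).unique hM] at h1
    exact h1

theorem isConnected_Y : IsConnected (Y J) := by
  have hne : (Y J).Nonempty := by
    have h1 : ((fun _ => 0, fun _ => p5 0) : U J) ∈ Yc (∅ : Set (Ex J)) := by
      rw [Yc_eq IsC.nil]
      intro e
      rfl
    obtain ⟨y, hy, -⟩ := h1
    exact ⟨y, hy⟩
  refine ⟨hne, ?_⟩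
  rw [isPreconnected_closed_iff]
  intro F₁ F₂ h1 h2 hY hn1 hn2
  by_contra hno
  have hP : IsClosed (Y J ∩ F₁) := isClosed_Y.inter h1
  have hQ : IsClosed (Y J ∩ F₂) := isClosed_Y.inter h2
  have hdis : Disjoint (Y J ∩ F₁) (Y J ∩ F₂) := by
    rw [Set.disjoint_left]
    rintro y ⟨hy, hy1⟩ ⟨-, hy2⟩
    exact hno ⟨y, hy, hy1, hy2⟩
  obtain ⟨S, hS, hsep⟩ := tr_sep hP hQ hdis
  obtain ⟨A, hSA, hA, hc⟩ := exists_clo hS
  obtain ⟨K, hK⟩ := IsC.exists hA hc
  have hd := hsep A hSA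
  have hKp := hK.cpt.conn.isPreconnected
  rw [isPreconnected_closed_iff] at hKp
  have hPc : IsClosed (tr A '' (Y J ∩ F₁)) := (hP.isCompact.image (continuous_tr A)).isClosed
  have hQc : IsClosed (tr A '' (Y J ∩ F₂)) := (hQ.isCompact.image (continuous_tr A)).isClosed
  have hKY : K = tr A '' Y J := (Yc_eq hK).symm
  obtain ⟨y, -, hy1, hy2⟩ := hKp _ _ hPc hQc
    (by
      rw [hKY]
      rintro _ ⟨y, hy, rfl⟩
      rcases hY hy with h | h
      · exact Or.inl (mem_image_of_mem _ ⟨hy, h⟩)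
      · exact Or.inr (mem_image_of_mem _ ⟨hy, h⟩))
    (by
      obtain ⟨y, hy, hy'⟩ := hn1
      refine ⟨tr A y, ?_, mem_image_of_mem _ ⟨hy, hy'⟩⟩
      rw [hKY]
      exact mem_image_of_mem _ hy)
    (by
      obtain ⟨y, hy, hy'⟩ := hn2
      refine ⟨tr A y, ?_, mem_image_of_mem _ ⟨hy, hy'⟩⟩
      rw [hKY]
      exact mem_image_of_mem _ hy)
  exact Set.disjoint_left.1 hd hy1 hy2

theorem Yc_tr {A B : Set (Ex J)} (h : A ⊆ B) : tr A '' Yc B = Yc A := by
  unfold Yc
  rw [Set.image_image]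
  simp only [tr_tr h]

theorem Yc_flat {A : Set (Ex J)} {y : U J} (hy : y ∈ Yc A) {e : Ex J} (he : e ∉ A) :
    y.2 e = p5 0 := by
  obtain ⟨z, -, rfl⟩ := hy
  exact tr_notMem he z

theorem Yc_empty : Yc (∅ : Set (Ex J)) = {y | ∀ e, y.2 e = p5 0} := by
  exact Yc_eq IsC.nil

theorem Y_letters (x : J → I01) : ∃ y ∈ Y J, y.1 = x := by
  have h1 : ((x, fun _ => p5 0) : U J) ∈ Yc (∅ : Set (Ex J)) := by
    rw [Yc_empty]
    intro e
    rfl
  obtain ⟨y, hy, he⟩ := h1
  refine ⟨y, hy, ?_⟩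
  have h2 := congrArg Prod.fst he
  rw [tr_fst] at h2
  exact h2

theorem Yc_cpt {A : Set (Ex J)} (hA : A.Finite) (hc : Clo A) : Cpt A (Yc A) := by
  obtain ⟨K, hK⟩ := IsC.exists hA hc
  rw [Yc_eq hK]
  exact hK.cpt

theorem nt_iff_act {A : Set (Ex J)} {e : Ex J} (hf : fs e ⊆ A) : Nt (Yc A) e ↔ Act e := by
  constructor
  · rintro ⟨_, ⟨y, hy, rfl⟩, h1⟩
    rw [val_tr hf] at h1
    exact ⟨y, hy, h1⟩
  · rintro ⟨y, hy, h1⟩
    exact ⟨tr A y, mem_image_of_mem _ hy, by rw [val_tr hf]; exact h1⟩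

theorem Adm_Yc {A O : Set (Ex J)} (hA : A.Finite) (hc : Clo A) (hO : O.Finite)
    (hd : ∀ e ∈ O, e ∉ A) (hf : ∀ e ∈ O, fs e ⊆ A) (ha : ∀ e ∈ O, Act e) : Adm A O (Yc A) := by
  exact ⟨Yc_cpt hA hc, hO, hd, hf, fun e he => (nt_iff_act (hf e he)).2 (ha e he)⟩

private theorem h19_isC {A : Set (Ex J)} (hA : A.Finite) (hc : Clo A) : IsC A (Yc A) := by
  obtain ⟨K, hK⟩ := IsC.exists hA hc
  rw [Yc_eq hK]
  exact hK

theorem Yc_full {A O : Set (Ex J)} (hA : A.Finite) (hc : Clo A) (hO : O.Finite)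
    (hd : ∀ e ∈ O, e ∉ A) (hf : ∀ e ∈ O, fs e ⊆ A) (ha : ∀ e ∈ O, Act e) :
    Yc (A ∪ O) = Fl O (Yc A) := by
  exact Yc_eq (IsC.full (h19_isC hA hc) (Adm_Yc hA hc hO hd hf ha))

theorem Yc_inact {A O : Set (Ex J)} (hA : A.Finite) (hc : Clo A) (hO : O.Finite)
    (hd : ∀ e ∈ O, e ∉ A) (hf : ∀ e ∈ O, fs e ⊆ A) (ha : ∀ e ∈ O, ¬ Act e) :
    Yc (A ∪ O) = Yc A := by
  have key : ∀ O : Set (Ex J), O.Finite → (∀ e ∈ O, e ∉ A) → (∀ e ∈ O, fs e ⊆ A) →
      (∀ e ∈ O, ¬ Act e) → IsC (A ∪ O) (Yc A) := by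
    intro O hO
    induction O, hO using Set.Finite.induction_on with
    | empty =>
      intro _ _ _
      rw [Set.union_empty]
      exact h19_isC hA hc
    | @insert e O he hO ih =>
      intro hd hf ha
      have h1 := ih (fun x hx => hd x (Or.inr hx)) (fun x hx => hf x (Or.inr hx))
        (fun x hx => ha x (Or.inr hx))
      have h2 : e ∉ A ∪ O := by
        rintro (h3 | h3)
        · exact hd e (Set.mem_insert e O) h3
        · exact he h3
      have h4 := IsC.cons h1 h2 ((hf e (Set.mem_insert e O)).trans Set.subset_union_left)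
      have h5 : step (Yc A) e = Yc A := if_neg fun h =>
        ha e (Set.mem_insert e O) ((nt_iff_act (hf e (Set.mem_insert e O))).1 h)
      rw [h5] at h4
      rw [Set.union_insert]
      exact h4
  exact Yc_eq (key O hO hd hf ha)

theorem Y_rel {y : U J} (hy : y ∈ Y J) {e : Ex J} (he : Act e) : R (sv e y) (y.2 e) := by
  obtain ⟨B, hfB, hB, hc, hsz⟩ := exists_clo_below e
  have heB : e ∉ B := fun h => lt_irrefl _ (hsz e h)
  have h1 := h19_isC hB hc
  have h2 := IsC.cons h1 heB hfB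
  have h3 : step (Yc B) e = Fl {e} (Yc B) := if_pos ((nt_iff_act hfB).2 he)
  rw [h3] at h2
  have h4 := fl_sub_FO (hy _ _ h2)
  have h5 := h4.2 e (mem_singleton e)
  have h6 : sv e (tr (insert e B) y) = sv e y := by
    unfold sv
    rw [val_tr (hfB.trans (Set.subset_insert e B))]
  rw [h6, tr_mem (Set.mem_insert e B)] at h5
  exact h5

theorem Y_zero {y : U J} (hy : y ∈ Y J) {e : Ex J} (he : ¬ Act e) : y.2 e = p5 0 := by
  obtain ⟨B, hfB, hB, hc, hsz⟩ := exists_clo_below e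
  have heB : e ∉ B := fun h => lt_irrefl _ (hsz e h)
  have h1 := h19_isC hB hc
  have h2 := IsC.cons h1 heB hfB
  have h3 : step (Yc B) e = Yc B := if_neg fun h => he ((nt_iff_act hfB).1 h)
  rw [h3] at h2
  have h4 := h1.cpt.flat _ (hy _ _ h2) e heB
  rw [tr_mem (Set.mem_insert e B)] at h4
  exact h4

theorem Yc_rel {A : Set (Ex J)} (hc : Clo A) {y : U J} (hy : y ∈ Yc A) {e : Ex J} (he : e ∈ A)
    (ha : Act e) : R (sv e y) (y.2 e) := by
  obtain ⟨z, hz, rfl⟩ := hy
  have h1 := Y_rel hz ha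
  have h2 : sv e (tr A z) = sv e z := by
    unfold sv
    rw [val_tr (hc e he)]
  rw [h2, tr_mem he]
  exact h1

theorem Yc_zero {A : Set (Ex J)} {y : U J} (hy : y ∈ Yc A) {e : Ex J} (ha : ¬ Act e) :
    y.2 e = p5 0 := by
  obtain ⟨z, hz, rfl⟩ := hy
  by_cases he : e ∈ A
  · rw [tr_mem he]
    exact Y_zero hz ha
  · exact tr_notMem he z

/-- The space as an element of the hyperspace. -/
noncomputable def YH (J : Type) : H J := clH (Y J)

theorem coe_YH : (YH J : Set (U J)) = Y J := by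
  exact coe_clH isConnected_Y.nonempty isClosed_Y

end Pool.DM
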